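import Pool.Agent.Lib.TWF.FF3
import Pool.Agent.Lib.TW.P3
import Pool.Agent.Lib.TW.BA
import Pool.Agent.Lib.TWJ.TOP

/-!
# TANK W, the first floor, part 4: the alternative

`C₁` finitely generated, full, of transcendence degree two, with bounded derivations, `C` the closure
of `C₁`, values divisible by `p`:

* `FF v C x y`: `C` is the closure of `k(x, y)`, `(x, y)` is orthogonal up to a constant;
* `WInf v C x`: the algebraic closure of `k(x)` in `C` is not in the closure of any `k(x, w)`;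
* `ff_alt`: `C` is the closure of `k(X 0, y)` with `T2 p k v X y s`, or `FF` and `WInf`, `y` of
  transcendental type over the closure of the perfect closure of the algebraic closure of `k(x)` in
  `C`.
-/

set_option autoImplicit false

open Polynomial

namespace Pool.Agent.TWF

open Pool.Agent.H15JM (RVal)
open Pool.Agent.LU1 (VPos adj)
open Pool.Agent.D2 (Ctx0)
open Pool.Agent.D2P (hen clI mem_clI mem_adj_self)
open Pool.Agent.TW (Full BD PBasis Orth LU Fr Ctx)
open Pool.Agent.TWM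
open Pool.Agent.TWS (VG)
open Pool.Agent.TWC (CP T2 EW)

universe u

variable {k Ω : Type u} [Field k] [Field Ω] [Algebra k Ω] {v : RVal Ω}
  {C : IntermediateField k Ω}

/-- `C` is the closure of `k(x, y)`, `(x, y)` orthogonal up to a constant. -/
structure FF (p : ℕ) (v : RVal Ω) (C : IntermediateField k Ω) (x y : Ω) (c₀ : ℝ) : Prop where
  eq : C = CP v x y
  x0 : x ≠ 0
  vx : v x ≠ 0
  y0 : y ≠ 0
  oi : OI p v C ![x, y] c₀

/-- The algebraic closure of `k(x)` in `C` is not in the closure of any `k(x, w)`. -/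
def WInf (v : RVal Ω) (C : IntermediateField k Ω) (x : Ω) : Prop :=
  ∀ w ∈ algIn C (adj ⊥ x), ¬ algIn C (adj (⊥ : IntermediateField k Ω) x) ≤
    clI v (adj (adj ⊥ x) w)

/-- The closure of the perfect closure of the algebraic closure of `k(x)` in `C`. -/
noncomputable def EX (p : ℕ) [Fact p.Prime] [CharP Ω p] (v : RVal Ω) (C : IntermediateField k Ω)
    (x : Ω) : IntermediateField k Ω := clI v (perfC p (algIn C (adj ⊥ x)))

/-- The infinite first floor. -/
structure FInf (p : ℕ) [Fact p.Prime] [CharP Ω p] (v : RVal Ω) (C : IntermediateField k Ω)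
    (x y : Ω) (s c₀ : ℝ) : Prop extends FF p v C x y c₀ where
  tl : TL v (EX p v C x) y s
  inf : WInf v C x
  div : ∀ g ∈ VG v C, g / p ∈ VG v C

variable [IsAlgClosed k] [IsAlgClosed Ω] (p : ℕ) [hp : Fact p.Prime] [CharP k p] [CharP Ω p]

/-- Coordinates. -/
theorem exists_ff (h : Ctx k v 1) {C₁ : IntermediateField k Ω} (hfg : C₁.FG)
    (hfull : Full v C₁) (htr : Algebra.trdeg k C₁ = (2 : ℕ)) (hBD : BD p v C₁) :
    ∃ x ∈ C₁, ∃ y ∈ C₁, ∃ c₀ : ℝ, FF p v (clI v C₁) x y c₀ := by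
  have hLU : LU p v 1 C₁ :=
    TWJ.lu_bd_two p h (TWJ.stepAll p k 1) (n := 2) (by norm_num) hfg hfull htr hBD
  obtain ⟨t, ht⟩ := TW.exists_pbasis p hfg htr
  obtain ⟨F, hF, -, -, hpb, hor⟩ := TW.exists_orth_frame p h C₁ hfg hfull hBD hLU (D := 1) t ht ∅
    (fun z hz => absurd hz (Finset.notMem_empty z)) one_pos
  have hs : F.s = ![F.x 0, F.y 0] := by
    funext i
    fin_cases i
    · rfl
    · rfl
  rw [hs] at hpb hor
  refine ⟨F.x 0, hF.x_mem 0, F.y 0, hF.y_mem 0, 1,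
    { eq := ?_
      x0 := F.x_ne 0
      vx := F.x_ind.ne_zero 0
      y0 := F.y_ne 0
      oi := (OI.of_orth hor hpb).cl }⟩
  have hK : F.K = adj (adj (⊥ : IntermediateField k Ω) (F.x 0)) (F.y 0) := by
    refine le_antisymm ?_ ?_
    · rw [Fr.K, IntermediateField.adjoin_le_iff]
      rintro a (⟨i, rfl⟩ | ⟨i, rfl⟩)
      · rw [Subsingleton.elim i 0]
        exact (mem_adj_self _ _).2 (mem_adj_self _ _).1
      · rw [Subsingleton.elim i 0]
        exact (mem_adj_self _ _).1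
    · refine D2P.adj_le (D2P.adj_le bot_le ?_) ?_
      · exact IntermediateField.subset_adjoin _ _ (Or.inl ⟨0, rfl⟩)
      · exact IntermediateField.subset_adjoin _ _ (Or.inr ⟨0, rfl⟩)
  have h1 : clI v C₁ = clI v F.K := by
    rw [← clI_hen C₁, hF.hen_eq p h, clI_hen]
  rw [h1, hK]
  exact clI_adj_clI.symm

/-- **The alternative.** -/
theorem ff_alt (h : Ctx k v 1) {C₁ : IntermediateField k Ω} (hfg : C₁.FG)
    (hfull : Full v C₁) (htr : Algebra.trdeg k C₁ = (2 : ℕ)) (hBD : BD p v C₁)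
    (hC : C = clI v C₁) (hdiv : ∀ g ∈ VG v C, g / p ∈ VG v C) :
    (∃ (X : ℕ → Ω) (y : Ω) (s : ℝ), T2 p k v X y s ∧ C = CP v (X 0) y) ∨
      ∃ (x y : Ω) (s c₀ : ℝ), FInf p v C x y s c₀ := by
  subst hC
  obtain ⟨x, hx, y, hy, c₀, hF⟩ := exists_ff p h hfg hfull htr hBD
  by_cases hinf : WInf v (clI v C₁) x
  · right
    have hxC : x ∈ clI v C₁ := TWM.le_clI _ hx
    have hyC : y ∈ clI v C₁ := TWM.le_clI _ hy
    have hfar := ff_far p h.toCtx0 hF.oi hF.x0 hF.vx hxC hyC hF.y0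
    obtain ⟨s, hs⟩ := ff_tl0 p h.toCtx0 (cld_clI v C₁) (D2P.adj_le bot_le hxC)
      (TWC.full_of_mem h (mem_adj_self _ x).1 hF.x0 hF.vx) hyC hfar
    exact ⟨x, y, s, c₀, { hF with tl := hs, inf := hinf, div := hdiv }⟩
  · left
    simp only [WInf, not_forall, not_not] at hinf
    obtain ⟨w, hw, hfin⟩ := hinf
    have hO := hF.oi
    rw [hF.eq] at hO hw hfin hdiv
    obtain ⟨X, s, h1, h2⟩ := ff_disc p h hO hF.x0 hF.vx hF.y0 hdiv hw hfin
    exact ⟨X, y, s, h1, by rw [h2]; exact hF.eq⟩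

end Pool.Agent.TWF
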