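import Pool.Agent.Lib.TWC.HandH
import Pool.Agent.Lib.TWC.PFi
import Pool.Agent.Lib.TWC.BdUp
import Pool.Agent.Lib.TWS7.Exit
import Pool.Agent.Lib.TWF.FF4
import Pool.Agent.Lib.TWJ2.FJ8b

/-!
# TANK W, dimension 4: the top file

* `ClE Q v E`: the closure of `E` in the completion has the property `Q`;
* `TW2 p k`: a tower with two floors over the closure of a finitely generated field of
  transcendence degree 2; `FIm p k`: the same, the first floor is infinite;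
* `cover`: from `RowJ`, the critical step is good or `ClE (TW2 p k)`;
* `InfLeaf`, `TameLeaf`: the open leaves; `mobQ0_four`: the end of the skeleton.
-/

set_option autoImplicit false

open Polynomial

namespace Pool.Agent.TWF

open Pool.Agent.H15JM (RVal)
open Pool.Agent.LU1 (adj)
open Pool.Agent.LUC (LUs)
open Pool.Agent.D2 (Ctx0)
open Pool.Agent.D2P (clI mem_adj_self)
open Pool.Agent.TW
open Pool.Agent.TWM (TL CompleteV Dense cadj Cld cld_clI clI_adj_clI Imm)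
open Pool.Agent.TWS (TowR VG)
open Pool.Agent.TWC (T2 T3 T3c PairRatC)
open Pool.Agent.TWS7 (STc PDiv)
open Pool.Agent.TWJ2 (FJ Flg Bad RowJ fj8)

universe u

/-! ### The classes -/

/-- The closure of `E` in the completion has the property `Q`. -/
def ClE {k : Type u} [Field k] (Q : CProp k) {Ω : Type u} [Field Ω] [Algebra k Ω] (v : RVal Ω)
    (E : IntermediateField k Ω) : Prop :=
  ∃ (Ω' : Type u) (_ : Field Ω') (_ : Algebra k Ω') (ι : Ω →ₐ[k] Ω') (v' : RVal Ω')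
    (_ : IsAlgClosed Ω'), CompleteV v' ∧ Dense v v' ι ∧ Q Ω' v' (clI v' (E.map ι))

theorem ClE.mono {k : Type u} [Field k] {Q Q' : CProp k} {Ω : Type u} [Field Ω] [Algebra k Ω]
    {v : RVal Ω} {E : IntermediateField k Ω} (h : ClE Q v E)
    (hQ : ∀ (Ω' : Type u) [Field Ω'] [Algebra k Ω'] (v' : RVal Ω') (M : IntermediateField k Ω'),
      Q Ω' v' M → Q' Ω' v' M) : ClE Q' v E := by
  obtain ⟨Ω', iF, iA, ι, v', iC, h2, h3, h4⟩ := h
  exact ⟨Ω', iF, iA, ι, v', iC, h2, h3, hQ Ω' v' _ h4⟩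

/-- A base: the closure of a finitely generated field of transcendence degree two. -/
structure Bs (p : ℕ) {k Ω : Type u} [Field k] [Field Ω] [Algebra k Ω] (v : RVal Ω)
    (C₁ C : IntermediateField k Ω) : Prop where
  fg : C₁.FG
  full : Full v C₁
  tr : Algebra.trdeg k C₁ = (2 : ℕ)
  bd : BD p v C₁
  eq : C = clI v C₁

/-- `M` is a tower with two floors over a base. -/
def TW2 (p : ℕ) (k : Type u) [Field k] : CProp k := fun Ω _ _ v M =>
  ∃ C₁ C : IntermediateField k Ω, Bs p v C₁ C ∧ TowR v 2 C M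

/-- `M` is a tower with two floors over a base with infinite algebraic part. -/
def FIm (p : ℕ) [Fact p.Prime] (k : Type u) [Field k] : CProp k := fun Ω _ _ v M =>
  ∃ (_ : CharP Ω p) (C₁ C : IntermediateField k Ω) (x y : Ω) (s c₀ : ℝ), Bs p v C₁ C ∧
    FInf p v C x y s c₀ ∧ TowR v 2 C M

/-- **The leaf of the infinite first floor.** -/
def InfLeaf (p : ℕ) [Fact p.Prime] (k : Type u) [Field k] : Prop :=
  CritM p k fun _ _ _ _ v E => PDiv p v E ∧ ClE (FIm p k) v E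

/-- **The tame leaf.** -/
def TameLeaf (p : ℕ) (k : Type u) [Field k] : Prop :=
  CritM p k fun _ _ _ _ v E => ¬ PDiv p v E ∧ ClE (TW2 p k) v E

section

variable {k Ω : Type u} [Field k] [Field Ω] [Algebra k Ω] {v : RVal Ω}
  {K E : IntermediateField k Ω}

/-- In rational rank one a finitely generated value group is not dense. -/
theorem not_fg_of_dns (h : Ctx k v 1) (hd : Dns v K) : ¬ (valG v K).FG := by
  rintro ⟨S, hS⟩
  obtain ⟨X, hX0, -, hX⟩ := h.rank
  set γ := v (X 0) with hγ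
  have hr : ∀ s ∈ S, ∃ q : ℚ, s = q * γ := by
    intro s hs
    have h1 : s ∈ valG v K := by
      rw [← hS]
      exact AddSubgroup.subset_closure hs
    obtain ⟨g, -, hg0, rfl⟩ := h1
    have h2 := hX g hg0
    have h3 : (Set.range fun i : Fin 1 => v (X i)) = {γ} := by
      ext a
      simp [hγ, Fin.exists_fin_one, eq_comm]
    rw [h3, Submodule.mem_span_singleton] at h2
    obtain ⟨q, hq⟩ := h2
    exact ⟨q, by rw [← hq, Rat.smul_def]⟩
  choose! q hq using hr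
  set N : ℕ := ∏ s ∈ S, (q s).den with hN
  have hN0 : N ≠ 0 := Finset.prod_ne_zero_iff.2 fun s _ => (q s).den_ne_zero
  have hle : valG v K ≤ AddSubgroup.zmultiples (γ / N) := by
    rw [← hS, AddSubgroup.closure_le]
    intro s hs
    have hdvd : (q s).den ∣ N := Finset.dvd_prod_of_mem _ hs
    obtain ⟨m, hm⟩ := hdvd
    rw [SetLike.mem_coe, AddSubgroup.mem_zmultiples_iff]
    refine ⟨(q s).num * m, ?_⟩
    have hNr : (N : ℝ) ≠ 0 := by exact_mod_cast hN0
    have hdr : ((q s).den : ℝ) ≠ 0 := by exact_mod_cast (q s).den_ne_zero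
    have hNm : (N : ℝ) = (q s).den * m := by exact_mod_cast hm
    have hqs : ((q s : ℚ) : ℝ) = (q s).num / (q s).den := by
      exact_mod_cast (Rat.num_div_den (q s)).symm
    have hmr : (m : ℝ) ≠ 0 := by
      intro h0
      rw [h0, mul_zero] at hNm
      exact hNr hNm
    have e : ((q s).num * m : ℤ) • (γ / N) = ((q s : ℚ) : ℝ) * γ := by
      rw [hqs, zsmul_eq_mul, hNm]
      push_cast
      field_simp
    rw [e]
    exact (hq s hs).symm
  by_cases h0 : γ / N = 0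
  · obtain ⟨c, hc, hc0, h1, -⟩ := hd 0 1 one_pos
    have h2 := hle ⟨c, hc, hc0, rfl⟩
    rw [h0] at h2
    simp at h2
    linarith
  · obtain ⟨c, hc, hc0, h1, h2⟩ := hd 0 |γ / N| (abs_pos.2 h0)
    obtain ⟨m, hm⟩ := AddSubgroup.mem_zmultiples_iff.1 (hle ⟨c, hc, hc0, rfl⟩)
    have hm0 : m ≠ 0 := by
      rintro rfl
      rw [zero_zsmul] at hm
      linarith
    have h3 : (1 : ℝ) ≤ |(m : ℝ)| := by
      have : (1 : ℤ) ≤ |m| := Int.one_le_abs hm0
      exact_mod_cast this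
    have h4 : |v c| = |(m : ℝ)| * |γ / N| := by
      rw [← hm, zsmul_eq_mul, abs_mul]
    rw [abs_of_pos h1] at h4
    nlinarith [abs_nonneg (γ / N)]

theorem vg_tower {C : IntermediateField k Ω} [IsAlgClosed Ω] {n : ℕ} (h : TowR v n C E) :
    VG v E = VG v C := VG.imm h.imm

end

/-! ### The cover -/

/-- `RowJ` in all complete fields of rational rank one. -/
def RowJs (p : ℕ) (k : Type u) [Field k] : Prop :=
  ∀ (Ω : Type u) [Field Ω] [Algebra k Ω] [IsAlgClosed Ω] [CharP Ω p] (v : RVal Ω), Ctx k v 1 →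
    CompleteV v → RowJ p v k 1

section

variable (p : ℕ) [hp : Fact p.Prime] {k Ω : Type u} [Field k] [IsAlgClosed k] [CharP k p]
  [Field Ω] [Algebra k Ω] [IsAlgClosed Ω] {v : RVal Ω} {K₀ : IntermediateField k Ω}

/-- **The cover.** -/
theorem cover [CharP Ω p] (hJ : RowJs p k) (h : Ctx k v 1) (hK : K₀.FG)
    (hΩ : ∀ g : Ω, IsAlgebraic K₀ g) (htr : Algebra.trdeg k K₀ = (4 : ℕ)) (hBDK : BD p v K₀)
    (hHR : HRone v K₀) {g : Ω} (hg : g ^ p ∈ K₀) (hBD : BD p v (adj K₀ g)) :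
    HRone v (adj K₀ g) ∨ ClE (TW2 p k) v K₀ := by
  by_cases hno : HRone v (adj K₀ g)
  · exact Or.inl hno
  right
  obtain ⟨Ω', iF, iA, ι, w, iC, h2, h3⟩ := TWM.exists_complete k v
  have : CharP Ω' p := Dense.charP ι p
  have hc' : Ctx k w 1 := h3.ctx h
  have hfull : Full v K₀ := full_of_alg hΩ
  have hadj : (adj K₀ g).map ι = adj (K₀.map ι) (ι g) := Dense.adj_map _ _
  have hbad : Bad p w k 1 (K₀.map ι) (ι g) :=
    { ctx := hc'
      cpl := h2
      fg := Dense.fg_map hK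
      full := h3.full_iff.2 hfull
      tr := by rw [Dense.trdeg_map, htr]
      bd := h3.bd_iff.2 hBDK
      hr := h3.hrone_iff.2 hHR
      ng := by
        refine not_fg_of_dns hc' (dns_of_BD p hc' (Dense.fg_map hK) (h3.full_iff.2 hfull)
          (h3.bd_iff.2 hBDK) (n := 4) ?_ (by norm_num))
        rw [Dense.trdeg_map, htr]
      mem := ⟨g ^ p, hg, map_pow ι g p⟩
      bda := by rw [← hadj]; exact h3.bd_iff.2 hBD
      no := by rw [← hadj, h3.hrone_iff]; exact hno }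
  obtain ⟨C, y, z, s, hF, hz, hfj⟩ := hJ Ω' w hc' h2 _ _ hbad
  obtain ⟨E, X, s', h4, h5, h6, h7, -, h8, -, h9⟩ := fj8 p hc' le_rfl
    (lub_lt_four p hc' 2 (by norm_num)) hF.fg hF.full hF.bd (by exact_mod_cast hF.tr) hF.ty
    hF.bdy hfj
  refine ⟨Ω', iF, iA, ι, w, iC, h2, h3, E, clI w E, ⟨h4, h5, by exact_mod_cast h6, h7, rfl⟩,
    TowR.succ h8 (TowR.succ (z := z) (s := s) ?_ ?_)⟩
  · rw [clI_adj_clI, h9]
    exact hz
  · have e : cadj w (cadj w (clI w E) X) z = clI w (K₀.map ι) := by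
      rw [clI_adj_clI, h9, clI_adj_clI, hF.cl]
    rw [e]
    exact TowR.zero (cld_clI w _)

omit [IsAlgClosed Ω] in
/-- **The first floor of the tower.** -/
theorem tw2_alt (h : Ctx k v 1) (hdiv : PDiv p v K₀) (ht : ClE (TW2 p k) v K₀) :
    ClE (T3m p k) v K₀ ∨ ClE (FIm p k) v K₀ := by
  obtain ⟨Ω', iF, iA, ι, w, iC, h2, h3, C₁, C, hB, hT⟩ := ht
  have hcp : CharP Ω' p := charP_of_injective_algebraMap (algebraMap k Ω').injective p
  have hc' : Ctx k w 1 := h3.ctx h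
  have hvg : ∀ g ∈ VG w C, g / p ∈ VG w C := by
    have hI : TWS.IsoE v w ι := ⟨h3.val⟩
    have e1 : VG v K₀ = VG w C := by
      rw [← vg_tower hT, VG.clI, TWC.vg_map hI]
    rw [← e1]
    exact pdiv_iff_vg.1 hdiv
  rcases ff_alt p hc' hB.fg hB.full hB.tr hB.bd hB.eq hvg with ⟨X, y, s, h4, h5⟩ | ⟨x, y, s, c₀, h4⟩
  · exact Or.inl ⟨Ω', iF, iA, ι, w, iC, h2, h3, X, y, s, h4, by rw [← h5]; exact hT⟩
  · exact Or.inr ⟨Ω', iF, iA, ι, w, iC, h2, h3, hcp, C₁, C, x, y, s, c₀, hB, h4, hT⟩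

omit [IsAlgClosed Ω] hp [IsAlgClosed k] [CharP k p] in
theorem t3c_of_t3m (ht : ClE (T3m p k) v K₀) : T3c p v K₀ fun _ _ _ _ _ _ _ => True := by
  obtain ⟨Ω', iF, iA, ι, w, iC, h2, h3, X, y, s, h4, h5⟩ := ht
  exact ⟨Ω', iF, iA, ι, w, iC, h2, h3, X, y, s, ⟨h4, h5⟩, trivial⟩

end

/-- **The case of a discrete first floor.** -/
theorem critM_disc (p : ℕ) [Fact p.Prime] (k : Type u) [Field k] [IsAlgClosed k] [CharP k p] :
    CritM p k fun _ _ _ _ v E => PDiv p v E ∧ ClE (T3m p k) v E := by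
  intro Ω _ _ _ _ v hc K₀ hK hΩ htr hBDK hH hL hlow hQ g hgK hg hBD
  rcases tpn_or_stc hc (TWC.PF.pairRatC p k) (t3c_of_t3m p hQ.2) with h1 | h1
  · exact (crit4_pn p k).toM Ω v hc K₀ hK hΩ htr hBDK hH hL hlow h1 g hgK hg hBD
  · exact TWS7.mobQ0_strict p hc hK hΩ htr hBDK hQ.1 hgK hg hBD h1

/-- **The end of the skeleton.** -/
theorem critM_four (p : ℕ) [Fact p.Prime] (k : Type u) [Field k] [IsAlgClosed k] [CharP k p]
    (hJ : RowJs p k) (hI : InfLeaf p k) (hT : TameLeaf p k) :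
    CritM p k fun _ _ _ _ _ _ => True := by
  intro Ω _ _ _ _ v hc K₀ hK hΩ htr hBDK hH hL hlow _ g hgK hg hBD
  rcases cover p hJ hc hK hΩ htr hBDK hH hg hBD with h1 | h1
  · exact Or.inl h1
  · by_cases hd : PDiv p v K₀
    · rcases tw2_alt p hc hd h1 with h2 | h2
      · exact critM_disc p k Ω v hc K₀ hK hΩ htr hBDK hH hL hlow ⟨hd, h2⟩ g hgK hg hBD
      · exact hI Ω v hc K₀ hK hΩ htr hBDK hH hL hlow ⟨hd, h2⟩ g hgK hg hBD
    · exact hT Ω v hc K₀ hK hΩ htr hBDK hH hL hlow ⟨hd, h1⟩ g hgK hg hBD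

/-- The same for the value groups divisible by `p`. -/
theorem critM_pdiv (p : ℕ) [Fact p.Prime] (k : Type u) [Field k] [IsAlgClosed k] [CharP k p]
    (hJ : RowJs p k) (hI : InfLeaf p k) :
    CritM p k fun _ _ _ _ v E => PDiv p v E := by
  intro Ω _ _ _ _ v hc K₀ hK hΩ htr hBDK hH hL hlow hd g hgK hg hBD
  rcases cover p hJ hc hK hΩ htr hBDK hH hg hBD with h1 | h1
  · exact Or.inl h1
  · rcases tw2_alt p hc hd h1 with h2 | h2
    · exact critM_disc p k Ω v hc K₀ hK hΩ htr hBDK hH hL hlow ⟨hd, h2⟩ g hgK hg hBD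
    · exact hI Ω v hc K₀ hK hΩ htr hBDK hH hL hlow ⟨hd, h2⟩ g hgK hg hBD

theorem mobQ0_of_critM (p : ℕ) [Fact p.Prime] (k : Type u) [Field k]
    (hQ : CritM p k fun _ _ _ _ _ _ => True) {Ω : Type u} [Field Ω] [Algebra k Ω]
    [IsAlgClosed Ω] [CharP Ω p] (v : RVal Ω) (h : Ctx k v 1) : MobQ0 p v k 1 4 :=
  fun K₀ hK hΩ htr hBDK hH hL hlow g hgK hg hBD =>
    hQ Ω v h K₀ hK hΩ (by exact_mod_cast htr) hBDK hH hL hlow trivial g hgK hg hBD

end Pool.Agent.TWF
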