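import Pool.Agent.Lib.TWF.LeafC
import Pool.Agent.Lib.TWCT.FinY

/-!
# TANK W, dimension 4, the contact leaf, second form

`RowsBF`: row (j = 1, B) for a second floor of finite shape, for all data. `rowsB_of_fin`: `RowsB` from
`RowsA` and `RowsBF`. `leafD_altCF`: the leaf of `AltC`, from these rows.
-/

set_option autoImplicit false

open Polynomial

namespace Pool.Agent.TWF

open Pool.Agent.H15JM (RVal)
open Pool.Agent.TWS (HF hv)
open Pool.Agent.TWCT (RowBF rowB_of_fin)

universe u

/-- Row (j = 1, B) for a second floor of finite shape, for all data. -/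
def RowsBF (p : ℕ) (k : Type u) [Field k] [IsAlgClosed k] : Prop :=
  ∀ (Ω : Type u) [Field Ω] [Algebra k Ω] [IsAlgClosed Ω] [CharP Ω p] (v : RVal Ω)
    (φ : Ω →ₐ[k] HF k) (x : Ω) (W₀ K₀ : IntermediateField k Ω) (al : Ω),
    RowBF p v (hv k) φ x W₀ K₀ al

variable {p : ℕ} [hp : Fact p.Prime] {k : Type u} [Field k] [IsAlgClosed k] [CharP k p]

theorem rowsB_of_fin (hA : RowsA p k) (hB : RowsBF p k) : RowsB p k := by
  intro Ω _ _ _ _ v φ x W₀ K₀ al
  have : CharP (HF k) p := charP_of_injective_algebraMap (algebraMap k (HF k)).injective p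
  exact rowB_of_fin (hA Ω v φ x W₀ K₀ al) (hB Ω v φ x W₀ K₀ al)

/-- **The leaf of `AltC`**, second form. -/
theorem leafD_altCF (hA : RowsA p k) (hB : RowsBF p k) :
    LeafD p k (OnB p fun _ _ _ v C => AltC p v C) :=
  leafD_altC hA (rowsB_of_fin hA hB)

end Pool.Agent.TWF
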