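import Pool.Agent.Lib.TWF.RowsA
import Pool.Agent.Lib.TWRA.J1E

/-!
# TANK W, dimension 4, the contact leaf: row A, for all data
-/

set_option autoImplicit false

namespace Pool.Agent.TWF

open Pool.Agent.TWRA (rowJ1E)

universe u

/-- **Row (j = 1, A), for all data.** -/
theorem rowsA (p : ℕ) [hp : Fact p.Prime] (k : Type u) [Field k] [IsAlgClosed k] [CharP k p] :
    RowsA p k := by
  refine rowsA_of p k ?_
  intro Ω _ _ _ _ v φ
  have : CharP (Pool.Agent.TWS.HF k) p :=
    charP_of_injective_algebraMap (algebraMap k (Pool.Agent.TWS.HF k)).injective p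
  exact rowJ1E

end Pool.Agent.TWF
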