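import Pool.Agent.Lib.TWRW.Rb
import Pool.Agent.Lib.TWF.LeafCF
import Pool.Agent.Lib.TWF.RowsAll

/-!
# TANK W, dimension 4: `RowsBF`, from `RowTri`

`rowsBF_of_tri`: row (j = 1, B) for a second floor of finite shape, for all data, from the
trichotomy `RowTri` over the Hahn field.
-/

set_option autoImplicit false

namespace Pool.Agent.TWF

open Pool.Agent.H15JM (RVal)
open Pool.Agent.TWS (HF hv)
open Pool.Agent.TWRW (RowTri rowBF)

universe u

/-- **`RowsBF`**, from the trichotomy. -/
theorem rowsBF_of_tri (p : ℕ) [hp : Fact p.Prime] (k : Type u) [Field k] [IsAlgClosed k]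
    [CharP k p] (hTri : RowTri (k := k) p (hv k)) : RowsBF p k := by
  intro Ω _ _ _ _ v φ x W₀ K₀ al
  have : CharP (HF k) p := charP_of_injective_algebraMap (algebraMap k (HF k)).injective p
  exact rowBF hTri (rowsA p k Ω v φ x W₀ K₀ al)

end Pool.Agent.TWF
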