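import Pool.Agent.Lib.TWF.Top6b
import Pool.Agent.Lib.TWF.RowsBFTri
import Pool.Agent.Lib.TWRW.Tri

/-!
# TANK W, `n = 4`: the step from transcendence degree four
-/

set_option autoImplicit false

namespace Pool.Agent.TWF

open Pool.Agent.H15JM (RVal)
open Pool.Agent.TW

universe u

/-- **The step from transcendence degree four**, equal characteristic `p`, algebraically closed
constants with trivial value, rank one, rational rank one: `MobQ0 p v k 1 4`. -/
theorem mobQ0_one_four (p : ℕ) [Fact p.Prime] (k : Type u) [Field k] [IsAlgClosed k] [CharP k p]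
    {Ω : Type u} [Field Ω] [Algebra k Ω] [IsAlgClosed Ω] [CharP Ω p] (v : RVal Ω) (h : Ctx k v 1) :
    MobQ0 p v k 1 4 :=
  have : CharP (TWS.HF k) p :=
    charP_of_injective_algebraMap (algebraMap k (TWS.HF k)).injective p
  mobQ0_of_rowsBF p k v h (rowsBF_of_tri p k TWRW.rowTri)

end Pool.Agent.TWF
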