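import Pool.Agent.Lib.TWF.FF1
import Pool.Agent.Lib.TWM.X2
import Pool.Agent.Lib.TWM.S8a
import Pool.Agent.Lib.TWM.Ent1
import Pool.Agent.Lib.TWC.TTx
import Pool.Agent.Lib.TWA.Disc
import Pool.Agent.Lib.TW.P4b

/-!
# TANK W, the first floor, part 2

`C` closed, `(x, y)` orthogonal in `C` up to a constant (`OI`), `W` the algebraic closure of `k(x)` in
`C`.

* `W_sep`: the elements of `W` are separable over `k(x)`; `W_dig`: `W = W^p[x]`;
* `ff_far`: `y` is not in the closure of the perfect closure of `W`.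
-/

set_option autoImplicit false

open Polynomial

namespace Pool.Agent.TWF

open Pool.Agent.H15JM (RVal)
open Pool.Agent.LU1 (VPos adj)
open Pool.Agent.D2 (Ctx0)
open Pool.Agent.D2P (hen clI mem_clI)
open Pool.Agent.TW (Full PBasis pcomb mon kr)
open Pool.Agent.TWM

universe u

variable {k Ω : Type u} [Field k] [Field Ω] [Algebra k Ω] {v : RVal Ω}
  {C W : IntermediateField k Ω}

section Two

variable {p : ℕ} [hp : Fact p.Prime] [CharP Ω p]

/-- Coefficients supported on the powers of `x`. -/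
def cA (a : Fin p → Ω) (α : Fin 2 → Fin p) : Ω := if (α 1 : ℕ) = 0 then a (α 0) else 0

/-- The index of `y`. -/
def iY : Fin 2 → Fin p :=
  ![⟨0, hp.out.pos⟩, ⟨1, hp.out.one_lt⟩]

omit hp [CharP Ω p] in
theorem mon_two (x y : Ω) (i l : Fin p) :
    mon (p := p) ![x, y] ![i, l] = x ^ (i : ℕ) * y ^ (l : ℕ) := by
  rw [mon, Fin.prod_univ_two]
  rfl

omit hp [CharP Ω p] in
theorem sum_two (f : (Fin 2 → Fin p) → Ω) : ∑ α, f α = ∑ i : Fin p, ∑ l : Fin p, f ![i, l] := by
  rw [← (finTwoArrowEquiv (Fin p)).symm.sum_comp, Fintype.sum_prod_type]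
  rfl

omit [CharP Ω p] in
theorem pcomb_cA (x y : Ω) (a : Fin p → Ω) :
    pcomb ![x, y] (cA a) = ∑ i : Fin p, a i ^ p * x ^ (i : ℕ) := by
  have hp0 : 0 < p := hp.out.pos
  rw [pcomb, sum_two]
  refine Finset.sum_congr rfl fun i _ => ?_
  rw [Finset.sum_eq_single (⟨0, hp0⟩ : Fin p)]
  · rw [mon_two, cA]
    simp
  · intro l _ hl
    have h1 : (l : ℕ) ≠ 0 := fun h2 => hl (Fin.ext h2)
    rw [cA, if_neg (by simpa using h1), zero_pow hp0.ne', zero_mul]
  · intro h1
    exact absurd (Finset.mem_univ _) h1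

omit [CharP Ω p] in
theorem pcomb_iY (x y : Ω) :
    pcomb ![x, y] (fun α : Fin 2 → Fin p => if α = iY then 1 else 0) = y := by
  have hp0 : 0 < p := hp.out.pos
  rw [pcomb, Finset.sum_eq_single (iY : Fin 2 → Fin p)]
  · rw [if_pos rfl, one_pow, one_mul, iY, mon_two]
    simp
  · intro α _ hα
    rw [if_neg hα, zero_pow hp0.ne', zero_mul]
  · intro h1
    exact absurd (Finset.mem_univ _) h1

variable {x y : Ω} {c₀ : ℝ}

omit [CharP Ω p] in
/-- Orthogonality of the powers of `x`. -/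
theorem oi_x (hO : OI p v C ![x, y] c₀) {a : Fin p → Ω} (ha : ∀ i, a i ∈ C) {r : ℝ}
    (hr : v.Ge r (∑ i : Fin p, a i ^ p * x ^ (i : ℕ))) (i : Fin p) :
    v.Ge (r - c₀) (a i ^ p * x ^ (i : ℕ)) := by
  have h1 := hO (cA a) (fun α => by
    rw [cA]
    split_ifs
    · exact ha _
    · exact zero_mem _) r (by rw [pcomb_cA]; exact hr) ![i, ⟨0, hp.out.pos⟩]
  rw [mon_two, cA] at h1
  simpa using h1

/-- Orthogonality of `y` and the powers of `x`. -/
theorem oi_y (hO : OI p v C ![x, y] c₀) {a : Fin p → Ω} (ha : ∀ i, a i ∈ C) {r : ℝ}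
    (hr : v.Ge r (y - ∑ i : Fin p, a i ^ p * x ^ (i : ℕ))) : v.Ge (r - c₀) y := by
  have h1 := hO (fun α => (if α = iY then 1 else 0) - cA a α) (fun α => by
    refine sub_mem ?_ ?_
    · split_ifs
      · exact one_mem _
      · exact zero_mem _
    · rw [cA]
      split_ifs
      · exact ha _
      · exact zero_mem _) r (by rw [← pcomb_sub, pcomb_iY, pcomb_cA]; exact hr) iY
  have h2 : cA a (iY : Fin 2 → Fin p) = 0 := by
    rw [cA, if_neg]
    simp [iY]
  rw [if_pos rfl, h2, sub_zero, one_pow, one_mul, iY, mon_two] at h1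
  simpa using h1

omit [CharP Ω p] in
/-- Independence of the powers of `x` over `C^p`. -/
theorem ind_x (hO : OI p v C ![x, y] c₀) (hx0 : x ≠ 0) {a : Fin p → Ω} (ha : ∀ i, a i ∈ C)
    (h0 : ∑ i : Fin p, a i ^ p * x ^ (i : ℕ) = 0) (i : Fin p) : a i = 0 := by
  by_contra hne
  have h1 := oi_x hO ha (r := v (a i ^ p * x ^ (i : ℕ)) + c₀ + 1) (by
    rw [h0]
    exact RVal.Ge.zero) i (mul_ne_zero (pow_ne_zero _ hne) (pow_ne_zero _ hx0))
  linarith

end Two

section Sep

variable (p : ℕ) [hp : Fact p.Prime] [CharP k p] [CharP Ω p] [IsAlgClosed k] {x y : Ω} {c₀ : ℝ}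

omit hp [CharP k p] [CharP Ω p] [IsAlgClosed k] in
theorem sum_one (f : (Fin 1 → Fin p) → Ω) : ∑ α, f α = ∑ i : Fin p, f ![i] := by
  rw [← (Equiv.funUnique (Fin 1) (Fin p)).symm.sum_comp]
  refine Finset.sum_congr rfl fun i _ => ?_
  congr 1
  funext j
  fin_cases j
  rfl

omit hp [CharP k p] [CharP Ω p] [IsAlgClosed k] in
theorem pcomb_one (x : Ω) (c : (Fin 1 → Fin p) → Ω) :
    pcomb ![x] c = ∑ i : Fin p, c ![i] ^ p * x ^ (i : ℕ) := by
  rw [pcomb, sum_one]
  refine Finset.sum_congr rfl fun i _ => ?_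
  rw [mon, Fin.prod_univ_one]
  rfl

omit [CharP Ω p] in
/-- `x` is a `p`-basis of `k(x)`. -/
theorem pb_adj (h0 : Ctx0 k v) (hx0 : x ≠ 0) (hx : v x ≠ 0) :
    PBasis p (adj (⊥ : IntermediateField k Ω) x) ![x] := by
  have h1 : Transcendental k x := by
    have h2 := TWC.transcendental_of_val h0 hx0 hx
    intro h3
    exact h2 (h3.tower_top _)
  have h2 : AlgebraicIndependent k ![x] := by
    rw [algebraicIndependent_unique_type_iff]
    simpa using h1
  have h3 := TW.P4bAux.pbasis_adj (k := k) p h2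
  have h4 : IntermediateField.adjoin k (Set.range ![x]) = adj (⊥ : IntermediateField k Ω) x := by
    rw [TWA.kd_eq]
    congr 1
    simp
  rwa [h4] at h3

/-- `x` is a `p`-basis of `W`, and `W` is separable over `k(x)`. -/
theorem pb_W (h0 : Ctx0 k v) (hO : OI p v C ![x, y] c₀) (hx0 : x ≠ 0) (hx : v x ≠ 0)
    (hxC : x ∈ C) :
    (∀ a ∈ algIn C (adj ⊥ x), IsSeparable (adj (⊥ : IntermediateField k Ω) x) a) ∧
      PBasis p (algIn C (adj ⊥ x)) ![x] := by
  have hle : adj (⊥ : IntermediateField k Ω) x ≤ algIn C (adj ⊥ x) := fun a ha =>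
    mem_algIn.2 ⟨D2P.adj_le bot_le hxC ha, isAlgebraic_algebraMap (⟨a, ha⟩ : adj ⊥ x)⟩
  have hpb := pb_adj (k := k) p h0 hx0 hx
  have hsep := sep_of_ind (p := p) hle (fun a ha => (mem_algIn.1 ha).2) hpb.span
    fun c hc h1 α => by
      rw [pcomb_one] at h1
      have h2 := ind_x hO hx0 (fun i => (mem_algIn.1 (hc ![i])).1) h1 (α 0)
      have h3 : α = ![α 0] := by
        funext j
        fin_cases j
        rfl
      rw [h3]
      exact h2
  exact ⟨hsep, hpb.of_sep p hle hsep⟩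

/-- The elements of `W` are sums of `p`-th powers times powers of `x`. -/
theorem W_dig (h0 : Ctx0 k v) (hO : OI p v C ![x, y] c₀) (hx0 : x ≠ 0) (hx : v x ≠ 0)
    (hxC : x ∈ C) {w : Ω} (hw : w ∈ algIn C (adj ⊥ x)) :
    ∃ a : Fin p → Ω, (∀ i, a i ∈ algIn C (adj (⊥ : IntermediateField k Ω) x)) ∧
      w = ∑ i : Fin p, a i ^ p * x ^ (i : ℕ) := by
  obtain ⟨c, hc, h1⟩ := (pb_W p h0 hO hx0 hx hxC).2.span w hw
  exact ⟨fun i => c ![i], fun i => hc _, by rw [h1, pcomb_one]⟩

/-- **The first floor, finite radius.** -/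
theorem ff_far [IsAlgClosed Ω] (h0 : Ctx0 k v) (hO : OI p v C ![x, y] c₀) (hx0 : x ≠ 0)
    (hx : v x ≠ 0) (hxC : x ∈ C) (hy : y ∈ C) (hy0 : y ≠ 0) :
    y ∉ clI v (perfC p (algIn C (adj ⊥ x))) := by
  have hp2 : (2 : ℝ) ≤ p := by exact_mod_cast hp.out.two_le
  have hp0 : (0 : ℝ) < p := by linarith
  set W := algIn C (adj (⊥ : IntermediateField k Ω) x) with hW
  have hc0 : 0 ≤ c₀ := by
    have h1 := oi_y hO (a := fun _ => 0) (fun _ => zero_mem _) (r := v y) (by
      have h2 : y - ∑ i : Fin p, (0 : Ω) ^ p * x ^ (i : ℕ) = y := by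
        rw [zero_pow hp.out.ne_zero]
        simp
      rw [h2]
      exact RVal.ge_self _) hy0
    linarith
  -- descent of the exponent
  have key : ∀ n : ℕ, ∀ (R : ℝ) (f : Ω), f ∈ C → ∀ w ∈ W, v.Ge (p ^ n * R - c₀) (f ^ p ^ n - w) →
      ∃ w' ∈ W, v.Ge (R - c₀) (f - w') := by
    intro n
    induction n with
    | zero =>
      intro R f _ w hw h1
      rw [pow_zero, one_mul, pow_zero, pow_one] at h1
      exact ⟨w, hw, h1⟩
    | succ n ih =>
      intro R f hf w hw h1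
      obtain ⟨a, ha, h2⟩ := W_dig p h0 hO hx0 hx hxC hw
      let z0 : Fin p := ⟨0, hp.out.pos⟩
      let b : Fin p → Ω := fun i => if i = z0 then f ^ p ^ n - a z0 else -a i
      have hbC : ∀ i, b i ∈ C := by
        intro i
        simp only [b]
        split_ifs
        · exact sub_mem (pow_mem hf _) (mem_algIn.1 (ha _)).1
        · exact neg_mem (mem_algIn.1 (ha _)).1
      have hsum : ∑ i : Fin p, b i ^ p * x ^ (i : ℕ) = f ^ p ^ (n + 1) - w := by
        have h3 : ∀ i : Fin p, b i ^ p * x ^ (i : ℕ) =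
            (if i = z0 then f ^ p ^ (n + 1) else 0) - a i ^ p * x ^ (i : ℕ) := by
          intro i
          simp only [b]
          split_ifs with h4
          · subst h4
            rw [sub_pow_char, ← pow_mul, ← pow_succ]
            simp [z0]
          · rw [← zero_sub, sub_pow_char, zero_pow hp.out.ne_zero]
            ring
        rw [Finset.sum_congr rfl fun i _ => h3 i, Finset.sum_sub_distrib, ← h2,
          Finset.sum_ite_eq' Finset.univ z0, if_pos (Finset.mem_univ _)]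
      have h3 := oi_x hO hbC (r := p ^ (n + 1) * R - c₀) (by rw [hsum]; exact h1) z0
      have h4 : b z0 = f ^ p ^ n - a z0 := by simp [b]
      rw [h4] at h3
      have h5 : v.Ge (p ^ (n + 1) * R - c₀ - c₀) ((f ^ p ^ n - a z0) ^ p) := by
        simpa [z0] using h3
      have h6 : v.Ge ((p ^ (n + 1) * R - c₀ - c₀) / p) (f ^ p ^ n - a z0) := by
        intro h7
        have h8 := h5 (pow_ne_zero _ h7)
        rw [v.map_pow h7] at h8
        rw [div_le_iff₀ hp0]
        linarith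
      refine ih R f hf (a z0) (ha _) (h6.mono ?_)
      rw [le_div_iff₀ hp0, pow_succ]
      nlinarith
  intro hmem
  -- an approximation
  set R : ℝ := v y + 3 * c₀ + 1 with hR
  obtain ⟨g, hg, h1⟩ := mem_clI.1 hmem R
  obtain ⟨n, hn⟩ := (mem_perfC p).1 hg
  have h2 : v.Ge (p ^ n * R - c₀) (y ^ p ^ n - g ^ p ^ n) := by
    rw [← sub_pow_char_pow]
    intro h3
    have h4 : y - g ≠ 0 := fun h5 => h3 (by rw [h5, zero_pow (pow_ne_zero _ hp.out.ne_zero)])
    rw [v.map_pow h4]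
    have h5 := h1 h4
    have h6 : (0 : ℝ) < (p : ℝ) ^ n := pow_pos hp0 n
    push_cast
    nlinarith
  obtain ⟨w', hw', h3⟩ := key n R y hy _ hn h2
  obtain ⟨a, ha, h4⟩ := W_dig p h0 hO hx0 hx hxC hw'
  rw [h4] at h3
  have h5 := oi_y hO (fun i => (mem_algIn.1 (ha i)).1) h3 hy0
  linarith

end Sep

end Pool.Agent.TWF
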