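import Pool.Agent.Lib.ALL_h81.Stmt
import Pool.Agent.Lib.TW.Cls
import Pool.Agent.Lib.TW.TopM2
import Pool.Agent.Lib.D2.Fin1

/-!
# TANK W: the formal form of log uniformization for the valuations which do not extend the residue
field, with the function field case as a black box

`BBZ k δ N`: the real valuations with residue field `k` and Abhyankar defect at most `δ` of the
function fields of transcendence degree at most `N` over `k` are log uniformizable. Then so are the
real valuations with residue field `k` and defect at most `δ` of the complete local domains of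
dimension at most `N` with residue field `k`.
-/

set_option autoImplicit false

namespace Pool.Agent.TWF

open IsLocalRing
open Pool.Agent.H15JM (RVal)
open Pool.Agent.LU1 (VPos)
open Pool.Agent.LU2 (IsR1 IndVal IndRes DefLE Rel vring rcomap rel_vring)
open Pool.Agent.LU2G (LUr)
open Pool.Agent.LUC
open Pool.Agent.LCD
open Pool.Agent.D2 (Ctx0 residue_ext0)
open Polynomial

universe u

/-- The real valuations with residue field `k` and defect at most `δ` of the function fields of
transcendence degree at most `N` over `k` are log uniformizable. -/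
def BBZ (k : Type u) [Field k] (δ N : ℕ) : Prop :=
  ∀ (K : Type u) [Field K] [Algebra k K], (⊤ : IntermediateField k K).FG →
    Algebra.trdeg k K ≤ (N : Cardinal) →
    ∀ V : ValuationSubring K, (∀ c : k, algebraMap k K c ∈ V) → IsR1 V →
      (∀ f ∈ V, ∃ c : k, V.valuation (f - algebraMap k K c) < 1) → DefLE k V δ → LUr k V

section Coeff

variable {Ω : Type u} [Field Ω] {w : RVal Ω} {S : Subring Ω} {m e q : ℕ} {x : Fin m → Ω}
  {t : Fin e → Ω} {K₀ K' : Subfield Ω} {B : Finset Ω} {α : Fin q → Ω} {u : Ω} {H : Polynomial Ω}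
  {κ : Type u} [Field κ] [Algebra κ Ω]

/-- `Setup.lus_eq2` with the black box `BBZ`. -/
theorem lus_bbz {δ N : ℕ} (hN : m + e ≤ N) (hBB : BBZ κ δ N)
    (h : Setup w (algebraMap κ Ω).range S x t K₀ K' B α u H)
    (hpos : ∃ c ∈ K', c ≠ 0 ∧ 0 < w c)
    (hres : ∀ g : Ω, g ≠ 0 → w g = 0 → ∃ c : κ, c ≠ 0 ∧ VPos w (g - algebraMap κ Ω c))
    {r : ℕ} (a : Fin r → Ω) (ha : ∀ i, a i ∈ K') (ha0 : ∀ i, a i ≠ 0)
    (hind : LinearIndependent ℚ fun i => w (a i)) (hdef : m + e ≤ r + δ) :
    LUs w (algebraMap κ Ω).range K₀ := by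
  classical
  have hκ : ∀ c : κ, w.Ge 0 (algebraMap κ Ω c) := fun c =>
    h.base.ge _ (h.base.le ⟨c, rfl⟩)
  have hκK : ∀ c : κ, algebraMap κ Ω c ∈ K₀ := fun c =>
    h.quo₀.1 _ (base_le_adj _ _ ⟨c, rfl⟩)
  let i0 : Algebra κ K₀ := ((algebraMap κ Ω).codRestrict K₀ hκK).toAlgebra
  have i1 : IsScalarTower κ K₀ Ω := IsScalarTower.of_algebraMap_eq fun c => rfl
  set V₀ : ValuationSubring K₀ := vring (rcomap w K₀.subtype) with hV₀
  have hkV : ∀ c : κ, algebraMap κ K₀ c ∈ V₀ := by
    intro c h0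
    have h1 : ((algebraMap κ K₀ c : K₀) : Ω) = algebraMap κ Ω c := rfl
    have h2 := hκ c (by
      rw [← h1]
      exact fun h => h0 (Subtype.ext h))
    rw [← h1] at h2
    exact h2
  -- rank one
  obtain ⟨c, hcK, hc0, hcw⟩ := hpos
  obtain ⟨c₀, hc₀, hc₀0, hc₀w, -⟩ := Cl.exists_val (h.cl c hcK) 0 hc0
  have hR : IsR1 V₀ := by
    refine isR1_vring _ (⟨c₀, hc₀⟩ : K₀) (fun h0 => hc₀0 (congrArg Subtype.val h0)) ?_
    change 0 < w c₀
    rw [hc₀w]
    exact hcw
  -- the residue field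
  have hz : ∀ f ∈ V₀, ∃ c : κ, V₀.valuation (f - algebraMap κ K₀ c) < 1 := by
    intro f hf
    by_cases hf0 : f = 0
    · refine ⟨0, ?_⟩
      rw [hf0, map_zero, sub_zero, map_zero]
      exact zero_lt_one
    have hf0' : (f : Ω) ≠ 0 := fun h => hf0 (Subtype.ext h)
    have hf1 : 0 ≤ w (f : Ω) := hf hf0
    rcases hf1.eq_or_lt with h1 | h1
    · obtain ⟨c, -, hc⟩ := hres f hf0' h1.symm
      refine ⟨c, ?_⟩
      rw [(rel_vring (rcomap w K₀.subtype)).lt_one_iff']
      intro h2
      refine hc ?_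
      intro h3
      exact h2 (Subtype.ext h3)
    · refine ⟨0, ?_⟩
      rw [map_zero, sub_zero, (rel_vring (rcomap w K₀.subtype)).lt_one_iff']
      intro _
      exact h1
  -- the defect
  obtain ⟨x', hx'⟩ := exists_indVal a (fun i => h.cl _ (ha i)) ha0 hind
  have hD : DefLE κ V₀ δ := by
    refine ⟨r, 0, ?_, ⟨x', hx'⟩, ⟨fun i => i.elim0, fun i => i.elim0, ?_⟩⟩
    · refine h.trdeg_le.trans ?_
      have h2 : m + e ≤ r + 0 + δ := by omega
      exact_mod_cast h2
    · intro P hP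
      by_contra hP0
      obtain ⟨c, rfl⟩ := MvPolynomial.C_surjective (R := κ) (Fin 0) P
      have hc : c ≠ 0 := by
        rintro rfl
        exact hP0 (map_zero _)
      rw [MvPolynomial.aeval_C] at hP
      have h1 := ((rel_vring (rcomap w K₀.subtype)).lt_one_iff' _).1 hP
      have h2 : algebraMap κ K₀ c ≠ 0 := (_root_.map_ne_zero _).2 hc
      have h3 := hkV c⁻¹ ((_root_.map_ne_zero _).2 (inv_ne_zero hc))
      have h4 := h1 h2
      rw [map_inv₀, (rcomap w K₀.subtype).map_inv h2] at h3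
      linarith
  have hL : LUrV κ V₀ := lurV_of_lur (hBB K₀ h.fg (h.trdeg_le.trans (by exact_mod_cast hN))
    V₀ hkV hR hz hD)
  have hL' := LUrV.lus (w := w) (Ω := Ω) (V := V₀) (fun f => by
    rw [(rel_vring (rcomap w K₀.subtype)).mem_iff]
    constructor
    · intro h1 h2
      exact h1 (by simpa using h2)
    · intro h1 h2
      exact h1 (by simpa using h2)) hkV hL
  have hr : (algebraMap K₀ Ω).fieldRange = K₀ := by
    ext f
    constructor
    · rintro ⟨y, rfl⟩
      exact y.2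
    · intro hf
      exact ⟨⟨f, hf⟩, rfl⟩
  rw [hr] at hL'
  exact hL'

end Coeff

theorem lurV_bbz {κ S K : Type u} [Field κ] [IsAlgClosed κ]
    [CommRing S] [IsDomain S] [IsRegularLocalRing S] [Field K] [Algebra κ S] [Algebra S K]
    [Algebra κ K] [IsScalarTower κ S K] [FaithfulSMul S K] [Algebra (FractionRing S) K]
    [IsScalarTower S (FractionRing S) K] [Algebra.EssFiniteType S K]
    (hres : ∀ s : S, ∃ c : κ, s - algebraMap κ S c ∈ IsLocalRing.maximalIdeal S) {m : ℕ}
    (hdim : ringKrullDim S = m) (s : Set K)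
    (hs : IsTranscendenceBasis (FractionRing S) ((↑) : s → K))
    (hsep : Algebra.IsSeparable (IntermediateField.adjoin (FractionRing S) s) K)
    (V : ValuationSubring K) (hR : IsR1 V) (hS : ∀ s : S, algebraMap S K s ∈ V)
    (hmS : ∀ s ∈ IsLocalRing.maximalIdeal S, V.valuation (algebraMap S K s) < 1)
    (hz : ∀ f ∈ V, ∃ c : κ, V.valuation (f - algebraMap κ K c) < 1) {r δ N : ℕ}
    (a : Fin r → K) (ha : IndVal V a)
    (hdef : Algebra.trdeg S K + m ≤ ((r + δ : ℕ) : Cardinal))
    (hN : Algebra.trdeg S K + m ≤ ((N : ℕ) : Cardinal)) (hBB : BBZ κ δ N) :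
    LUrV S V := by
  classical
  obtain ⟨v, w, hrel, hw, hV, hVpos, c', hc0, hcV⟩ := exists_entry V hR
  let Ω : Type u := AlgebraicClosure K
  let ι : K →+* Ω := algebraMap K Ω
  have hι0 : ∀ f : K, ι f ≠ 0 ↔ f ≠ 0 := fun f => (_root_.map_ne_zero ι)
  have hinj : Function.Injective (algebraMap S Ω) := by
    rw [IsScalarTower.algebraMap_eq S K Ω]
    exact ι.injective.comp (FaithfulSMul.algebraMap_injective S K)
  obtain ⟨x, hB⟩ := exists_base (k := κ) hinj w hres hdim
    (fun s => by rw [IsScalarTower.algebraMap_apply S K Ω]; exact (hV _).1 (hS s))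
    (fun s hs => by rw [IsScalarTower.algebraMap_apply S K Ω]; exact hVpos _ (hmS s hs))
  obtain ⟨e, -, -, -, -, -, -, -, -, -, -, htr⟩ := exists_primitive s hs hsep V
  have haι := (hrel.indVal_iff.1 ha)
  have hk : ∀ c : κ, algebraMap κ K c ∈ V := by
    intro c
    rw [IsScalarTower.algebraMap_apply κ S K]
    exact hS _
  have hwc : 0 < w (ι c') := by rw [hw c' hc0]; exact hcV
  have hN' : m + e ≤ N := by
    rw [htr] at hN
    have : e + m ≤ N := by exact_mod_cast hN
    omega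
  have hdef' : m + e ≤ r + δ := by
    rw [htr] at hdef
    have : e + m ≤ r + δ := by exact_mod_cast hdef
    omega
  -- the residue field of the algebraic closure
  have htriv : ∀ c : κ, c ≠ 0 → v (algebraMap κ K c) = 0 := by
    intro c hc
    have hc' : algebraMap κ K c ≠ 0 := by rwa [_root_.map_ne_zero]
    have h1 := (hrel _ hc').1 (hk c)
    have h2 := (hrel _ (inv_ne_zero hc')).1 (by rw [← map_inv₀]; exact hk c⁻¹)
    rw [v.map_inv hc'] at h2
    linarith
  have hctx : Ctx0 κ v := by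
    refine ⟨htriv, fun g hg hg0 => ?_⟩
    obtain ⟨c, hc⟩ := hz g ((hrel g hg).2 hg0.ge)
    have hc1 := (hrel.lt_one_iff' _).1 hc
    refine ⟨c, ?_, hc1⟩
    rintro rfl
    rw [_root_.map_zero, sub_zero] at hc1
    have h1 := hc1 hg
    rw [hg0] at h1
    exact lt_irrefl _ h1
  have hresΩ : ∀ g : Ω, g ≠ 0 → w g = 0 → ∃ c : κ, c ≠ 0 ∧ VPos w (g - algebraMap κ Ω c) :=
    fun g hg hg0 => residue_ext0 v hctx w hw g hg hg0
  refine lurV_of_base s hs hsep V w hV hS ⟨c', hc0, hwc⟩ _ x hB htr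
    fun t q K₀ K' B α u H ht hKK' hset => ?_
  refine lus_bbz hN' hBB hset ⟨ι c', hKK' ⟨c', rfl⟩, (hι0 c').2 hc0, hwc⟩ hresΩ
    (fun i => ι (a i)) (fun i => hKK' ⟨_, rfl⟩) (fun i => (hι0 _).2 (haι.1 i)) ?_ hdef'
  have h1 : (fun i => w (ι (a i))) = fun i => v (a i) :=
    funext fun i => hw _ (haι.1 i)
  rw [h1]
  exact haι.2

end Pool.Agent.TWF
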