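import Pool.Agent.Lib.TWF.FZ
import Pool.Agent.Lib.TW.TwoAll

/-!
# TANK W: the formal form of log uniformization, complete local domains and noetherian domains
-/

set_option autoImplicit false

namespace Pool.Agent.TWF

open IsLocalRing
open Pool.Agent.H15JM (RVal)
open Pool.Agent.LU1 (VPos)
open Pool.Agent.LU2 (IsR1 IndVal IndRes DefLE Rel vring rcomap rel_vring)
open Pool.Agent.LU2G (LUr centerRing chart compRank LogUniformizable)
open Pool.Agent.LUC
open Pool.Agent.LCD
open Pool.Agent.LUZ
open Polynomial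

universe u

/-- The black box `BBZ` for all algebraically closed fields of characteristic `p`. -/
def BBA (p δ N : ℕ) : Prop :=
  ∀ (κ : Type u) [Field κ] [IsAlgClosed κ] [CharP κ p], BBZ κ δ N

theorem lurV_complete_bbz (p : ℕ) (hp : p.Prime) {k C K : Type u} [Field k] [IsAlgClosed k]
    [CommRing C] [IsDomain C] [CharP C p] [IsLocalRing C] [IsNoetherianRing C]
    [IsAdicComplete (maximalIdeal C) C] (ι : k →+* ResidueField C)
    (hι : Function.Surjective ι) [Field K] [Algebra C K]
    [IsFractionRing C K] {m : ℕ} (hdim : ringKrullDim C = m) (V : ValuationSubring K)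
    (hR : IsR1 V) (hC : ∀ c : C, algebraMap C K c ∈ V)
    (hmC : ∀ c ∈ maximalIdeal C, V.valuation (algebraMap C K c) < 1)
    (hm : maximalIdeal C ≠ ⊥)
    (hz : ∀ f ∈ V, ∃ c : C, V.valuation (f - algebraMap C K c) < 1) {r δ N : ℕ}
    (a : Fin r → K) (ha : IndVal V a) (hdef : m ≤ r + δ) (hN : m ≤ N) (hBB : BBA.{u} p δ N) :
    LUrV C V := by
  classical
  have i0 : Fact p.Prime := ⟨hp⟩
  let κ : Type u := ResidueField C
  have iκ : CharP κ p := (CharP.charP_iff_prime_eq_zero hp).2 (by
    have h1 : (p : C) = 0 := CharP.cast_eq_zero C p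
    have h2 := congrArg (residue C) h1
    rwa [map_natCast, map_zero] at h2)
  have ik : CharP k p := (RingHom.charP_iff ι ι.injective p).2 iκ
  have iκc : IsAlgClosed κ :=
    IsAlgClosed.of_ringEquiv k κ (RingEquiv.ofBijective ι ⟨ι.injective, hι⟩)
  obtain ⟨σk, hσk⟩ := exists_lift_perfect p C k ι
  let i1 : Algebra k C := σk.toAlgebra
  have hsurj : Function.Surjective (algebraMap k (ResidueField C)) := by
    intro y
    obtain ⟨c, hc⟩ := hι y
    exact ⟨c, (hσk c).trans hc⟩
  have i3 : Algebra.EssFiniteType k (ResidueField C) := by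
    have h1 : Algebra.FiniteType k (ResidueField C) :=
      Algebra.FiniteType.of_surjective (Algebra.ofId k (ResidueField C)) hsurj
    infer_instance
  obtain ⟨σ, hσ, hσk', S, hσS, hfin, ⟨hreg, hSdim, hmax⟩, hsep⟩ :=
    exists_separable_base2 p k C hm hdim K
  have j1 : FaithfulSMul S C := by
    rw [faithfulSMul_iff_algebraMap_injective]
    exact Subtype.val_injective
  have j2 : FaithfulSMul S K := by
    rw [faithfulSMul_iff_algebraMap_injective, IsScalarTower.algebraMap_eq S C K]
    exact (IsFractionRing.injective C K).comp Subtype.val_injective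
  let L := FractionRing S
  let j3 : Algebra L K := FractionRing.liftAlgebra S K
  have j4 : IsScalarTower S L K := FractionRing.isScalarTower_liftAlgebra S K
  have j5 : FiniteDimensional L K := finiteDimensional_frac S C K
  have j6 : Algebra.IsSeparable L K := hsep j3 j4
  let j0 : Algebra κ S := (σ.codRestrict S hσS).toAlgebra
  let j7 : Algebra κ K := ((algebraMap C K).comp σ).toAlgebra
  have j8 : IsScalarTower κ S K := IsScalarTower.of_algebraMap_eq fun _ => rfl
  have j9 : Algebra.EssFiniteType C K := Algebra.EssFiniteType.of_isLocalization _ (nonZeroDivisors C)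
  have j10 : Algebra.EssFiniteType S K := Algebra.EssFiniteType.comp S C K
  have j11 : Algebra.IsAlgebraic L K := inferInstance
  have j12 : Algebra.IsAlgebraic S K :=
    (IsFractionRing.comap_isAlgebraic_iff (A := S) (C := K)).2 j11
  have hempty : IsTranscendenceBasis L ((↑) : (∅ : Set K) → K) := by
    obtain ⟨s, hs⟩ := exists_isTranscendenceBasis L K
    have h1 : IsEmpty s := hs.isEmpty_iff_isAlgebraic.2 j11
    have h2 : s = ∅ := Set.isEmpty_coe_sort.1 h1
    rwa [h2] at hs
  have hsep' : Algebra.IsSeparable (IntermediateField.adjoin L (∅ : Set K)) K :=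
    Algebra.isSeparable_tower_top_of_isSeparable L _ K
  have htr : Algebra.trdeg S K = 0 := trdeg_eq_zero_iff.2 j12
  have hσc : ∀ c : C, c - σ (residue C c) ∈ maximalIdeal C := by
    intro c
    rw [← residue_eq_zero_iff, map_sub, hσ, sub_self]
  have hS : LUrV S V := by
    refine lurV_bbz (κ := κ) (S := S) (K := K) ?_ hSdim ∅ hempty hsep' V hR
      (fun s => hC s) (fun s hs => hmC _ ((hmax s).1 hs)) ?_ a ha ?_ ?_ (hBB κ)
    · intro s
      exact ⟨residue C s, (hmax _).2 (hσc s)⟩
    · intro f hf
      obtain ⟨c, hc⟩ := hz f hf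
      refine ⟨residue C c, ?_⟩
      have h1 : f - algebraMap κ K (residue C c) =
          (f - algebraMap C K c) + algebraMap C K (c - σ (residue C c)) := by
        rw [map_sub]
        change f - algebraMap C K (σ (residue C c)) = _
        ring
      rw [h1]
      exact lt_of_le_of_lt (V.valuation.map_add _ _) (max_lt hc (hmC _ (hσc c)))
    · rw [htr, zero_add]
      exact_mod_cast hdef
    · rw [htr, zero_add]
      exact_mod_cast hN
  exact lurV_of_finite (S := S) V hS

theorem lus_local_bbz (p : ℕ) (hp : p.Prime) {R K : Type u} [CommRing R] [IsDomain R]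
    [IsLocalRing R] [IsNoetherianRing R] [IsAlgClosed (ResidueField R)]
    [Field K] [Algebra R K] [IsFractionRing R K] {V : ValuationSubring K}
    {v : RVal K} (hR : IsR1 V) (hrel : Rel V v) (hge : ∀ r : R, algebraMap R K r ∈ V)
    (hpos : ∀ r ∈ maximalIdeal R, V.valuation (algebraMap R K r) < 1)
    (hm : maximalIdeal R ≠ ⊥) (hp0 : (p : R) = 0)
    (hreg : ∀ Q : Ideal (Hat R), ∀ _ : Q.IsPrime, Q.comap (algebraMap R (Hat R)) = ⊥ →
      IsRegularLocalRing (Localization.AtPrime Q))
    (H : Ideal (Hat R)) (hH : ∀ f, f ∈ H ↔ f ∈ impl (K := K) v) {m : ℕ}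
    (hdim : ringKrullDim (Hat R ⧸ H) = m)
    (hz : ∀ f ∈ V, ∃ c : R, V.valuation (f - algebraMap R K c) < 1) {r δ N : ℕ}
    (a : Fin r → K) (ha : IndVal V a) (hdef : m ≤ r + δ) (hN : m ≤ N) (hBB : BBA.{u} p δ N) :
    ∃ (Ω : Type u) (_ : Field Ω) (w : RVal Ω) (j : K →+* Ω), (∀ x : K, x ≠ 0 → w (j x) = v x) ∧
      LUs w (j.comp (algebraMap R K)).range j.fieldRange := by
  obtain ⟨Ω, i0, w, π, j, h, hred⟩ := exists_HD hrel hge hpos hm hreg H hH
  refine ⟨Ω, i0, w, j, h.val, hred ?_⟩
  have i1 : IsLocalRing π.range := range_isLocal π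
  have i2 : IsNoetherianRing π.range := range_isNoetherian π
  have i3 : IsAdicComplete (maximalIdeal π.range) π.range := range_isAdicComplete π
  have i5 : IsFractionRing π.range Ω := h.isFractionRing
  have hdim' : ringKrullDim π.range = m := by
    rw [range_dim, h.ker, hdim]
  have hR' : IsR1 (vring w) :=
    LCD.isR1_of_real (fun f => (rel_vring w).mem_iff f) (h.isR1 hrel hR)
  have hC : ∀ c : π.range, algebraMap π.range Ω c ∈ vring w := by
    rintro ⟨_, f, rfl⟩
    exact h.ge f
  have hmC : ∀ c ∈ maximalIdeal π.range, (vring w).valuation (algebraMap π.range Ω c) < 1 := by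
    intro c hc
    rw [(rel_vring w).lt_one_iff']
    exact h.pos c hc
  have hinj : Function.Injective (π.rangeRestrict.comp (algebraMap R (Hat R))) := by
    intro x y hxy
    have h1 : π (algebraMap R (Hat R) x) = π (algebraMap R (Hat R) y) := congrArg Subtype.val hxy
    rw [h.comp, h.comp] at h1
    exact IsFractionRing.injective R K (j.injective h1)
  obtain ⟨e, he⟩ := exists_residue_equiv π
  have i6 : CharP π.range p := (CharP.charP_iff_prime_eq_zero hp).2 (by
    have h2 := congrArg (π.rangeRestrict.comp (algebraMap R (Hat R))) hp0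
    rwa [map_natCast, map_zero] at h2)
  have hm' : maximalIdeal π.range ≠ ⊥ := by
    obtain ⟨t, ht, ht0⟩ := Submodule.exists_mem_ne_zero_of_ne_bot hm
    intro h0
    have h1 := HD.mem_max (π := π) t ht
    rw [h0, Ideal.mem_bot] at h1
    exact ht0 (hinj (h1.trans (map_zero _).symm))
  refine lurV_complete_bbz p hp (k := ResidueField R) e.toRingHom e.surjective hdim' (vring w) hR'
    hC hmC hm' ?_ (fun i => j (a i)) ?_ hdef hN hBB
  · intro f hf
    obtain ⟨y, hy⟩ := h.dens f 1
    have hf' := (rel_vring w).mem_iff f |>.1 hf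
    have hyge : w.Ge 0 (j y) := by
      have h1 : j y = f - (f - j y) := by ring
      rw [h1]
      exact RVal.Ge.sub hf' (hy.mono zero_le_one)
    have hyV : y ∈ V := by
      rw [hrel.mem_iff]
      intro h0
      have h1 := hyge ((map_ne_zero j).2 h0)
      rwa [h.val y h0] at h1
    obtain ⟨c, hc⟩ := hz y hyV
    refine ⟨⟨π (algebraMap R (Hat R) c), _, rfl⟩, ?_⟩
    rw [(rel_vring w).lt_one_iff']
    have h2 : f - algebraMap π.range Ω ⟨π (algebraMap R (Hat R) c), _, rfl⟩ =
        (f - j y) + j (y - algebraMap R K c) := by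
      change f - π (algebraMap R (Hat R) c) = _
      rw [h.comp, map_sub]
      ring
    rw [h2]
    refine VPos.add (fun h0 => lt_of_lt_of_le one_pos (hy h0)) ?_
    intro h0
    have h0' := (map_ne_zero j).1 h0
    rw [h.val _ h0']
    exact (hrel.lt_one_iff' _).1 hc h0'
  · have haι := hrel.indVal_iff.1 ha
    refine (rel_vring w).indVal_iff.2 ⟨fun i => (map_ne_zero j).2 (haι.1 i), ?_⟩
    have h1 : (fun i => w (j (a i))) = fun i => v (a i) :=
      funext fun i => h.val _ (haι.1 i)
    rw [h1]
    exact haι.2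

end Pool.Agent.TWF
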