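import Pool.Agent.Lib.TWF.Top4
import Pool.Agent.Lib.TWJ2.RowJ

/-!
# TANK W, `n = 4`: the skeleton with the row of the unbounded jumps

* `rowJs`: the row `RowJs` of `Top4`, from `TWJ2.rowJ`;
* `critM_fourJ`: the criterion for every value group, from `InfLeaf` and `TameLeaf`;
* `critM_pdivJ`: the criterion for the value groups divisible by `p`, from `InfLeaf`;
* `mobQ0_fourJ`: the step from transcendence degree four.
-/

set_option autoImplicit false

namespace Pool.Agent.TWF

open Pool.Agent.H15JM (RVal)
open Pool.Agent.TW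
open Pool.Agent.TWS7 (PDiv)

universe u

/-- **The row of the unbounded jumps.** -/
theorem rowJs (p : ℕ) [Fact p.Prime] (k : Type u) [Field k] [IsAlgClosed k] [CharP k p] :
    RowJs p k :=
  fun _ _ _ _ _ _ _ _ => TWJ2.rowJ p

/-- **The criterion, every value group.** -/
theorem critM_fourJ (p : ℕ) [Fact p.Prime] (k : Type u) [Field k] [IsAlgClosed k] [CharP k p]
    (hI : InfLeaf p k) (hT : TameLeaf p k) : CritM p k fun _ _ _ _ _ _ => True :=
  critM_four p k (rowJs p k) hI hT

/-- **The criterion, value groups divisible by `p`.** -/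
theorem critM_pdivJ (p : ℕ) [Fact p.Prime] (k : Type u) [Field k] [IsAlgClosed k] [CharP k p]
    (hI : InfLeaf p k) : CritM p k fun _ _ _ _ v E => PDiv p v E :=
  critM_pdiv p k (rowJs p k) hI

/-- **The step from transcendence degree four.** -/
theorem mobQ0_fourJ (p : ℕ) [Fact p.Prime] (k : Type u) [Field k] [IsAlgClosed k] [CharP k p]
    {Ω : Type u} [Field Ω] [Algebra k Ω] [IsAlgClosed Ω] [CharP Ω p] (v : RVal Ω) (h : Ctx k v 1)
    (hI : InfLeaf p k) (hT : TameLeaf p k) : MobQ0 p v k 1 4 :=
  mobQ0_of_critM p k (critM_fourJ p k hI hT) v h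

end Pool.Agent.TWF
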