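import Pool.Agent.Lib.TWF.InfDefs

/-!
# TANK W, the infinite first floor: tight elements, the roots

`C` closed, `x ∈ C` with `OI p v C ![x] c₀`:

* `pb_W1`, `pb_WX1`: `x` is a `p`-basis of the algebraic closure of `k(x)` in `C`, and of its closure
  `WX v C x`;
* `root_WX1`: the `p`-th roots of the elements of `WX v C x` are polynomials in `x ^ (1 / p)`;
* `ex_eq1`: `EX p v C x` is the closure of `WX(x, x ^ (1 / p), ..)`;
* `NBX.oi`, `oi_tgt`: the powers of a tight element are orthogonal over `C ^ p`;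
* `rts_tgt`, `pb_tgt`, `ex_tgt`: the same for a tight element of `C`.
-/

set_option autoImplicit false

open Polynomial

namespace Pool.Agent.TWF

open Pool.Agent.H15JM (RVal)
open Pool.Agent.LU1 (VPos adj)
open Pool.Agent.D2 (Ctx0)
open Pool.Agent.D2P (hen clI mem_clI mem_adj_self rootF mem_rootF)
open Pool.Agent.TW (Full BD PBasis Orth LU Fr Ctx pcomb mon)
open Pool.Agent.TWM
open Pool.Agent.TWS (VG TowR SphC)
open Pool.Agent.TWC (CP EW Sd TP NBX Tgt)

universe u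

variable {k Ω : Type u} [Field k] [Field Ω] [Algebra k Ω] {v : RVal Ω}
  {C : IntermediateField k Ω} {x : Ω} {c₀ r : ℝ}

section One

variable {p : ℕ} [hp : Fact p.Prime] [CharP k p] [CharP Ω p] [IsAlgClosed k]

/-- `x` is a `p`-basis of the algebraic closure of `k(x)` in `C`. -/
theorem pb_W1 (h0 : Ctx0 k v) (hO : OI p v C ![x] c₀) (hx0 : x ≠ 0) (hx : v x ≠ 0)
    (hxC : x ∈ C) : PBasis p (algIn C (adj ⊥ x)) ![x] := by
  have hle : adj (⊥ : IntermediateField k Ω) x ≤ algIn C (adj ⊥ x) := fun a ha =>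
    mem_algIn.2 ⟨D2P.adj_le bot_le hxC ha, isAlgebraic_algebraMap (⟨a, ha⟩ : adj ⊥ x)⟩
  have hpb := pb_adj (k := k) p h0 hx0 hx
  have hsep := sep_of_ind (p := p) hle (fun a ha => (mem_algIn.1 ha).2) hpb.span
    fun c hc h1 α => hO.ind (fun i => by fin_cases i; exact hx0) c
      (fun α => (mem_algIn.1 (hc α)).1) h1 α
  exact hpb.of_sep p hle hsep

/-- `x` is a `p`-basis of `WX`. -/
theorem pb_WX1 (h0 : Ctx0 k v) (hc : CompleteV v) (hC : Cld v C) (hO : OI p v C ![x] c₀)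
    (hx0 : x ≠ 0) (hx : v x ≠ 0) (hxC : x ∈ C) : PBasis p (WX v C x) ![x] :=
  pbasis_clI hc (pb_W1 h0 hO hx0 hx hxC) (hO.mono (WX_le hC) le_rfl)

omit [CharP k p] [IsAlgClosed k] in
/-- The `p`-th roots of the elements of a field with the `p`-basis `x`. -/
theorem root_of_pb {W : IntermediateField k Ω} (hpb : PBasis p W ![x]) {t : Ω}
    (ht : t ^ p = x) : ∀ a ∈ W, ∃ Q ∈ PI W, (Q.eval t) ^ p = a := by
  intro a ha
  obtain ⟨c, hcm, h1⟩ := hpb.span a ha
  rw [pcomb_one] at h1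
  refine ⟨∑ i : Fin p, Polynomial.C (c ![i]) * X ^ (i : ℕ),
    sum_mem fun i _ => mul_mem (C_mem_PI (hcm _)) (pow_mem X_mem_PI _), ?_⟩
  rw [eval_finsetSum, sum_pow_char, h1]
  refine Finset.sum_congr rfl fun i _ => ?_
  rw [eval_mul, eval_C, eval_pow, eval_X, mul_pow, ← pow_mul, mul_comm (i : ℕ) p, pow_mul, ht]

/-- `EX` is the closure of `W(x, x ^ (1 / p), ..)`. -/
theorem ex_eq1 [IsAlgClosed Ω] (hxC : x ∈ C) (hpb : PBasis p (WX v C x) ![x]) {t : ℕ → Ω}
    (ht0 : t 0 = x) (ht : ∀ n, t (n + 1) ^ p = t n) :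
    EX p v C x = EW v (WX v C x) t := by
  have hroot := root_of_pb hpb (t := t 1) (by rw [ht 0, ht0])
  refine le_antisymm ?_ ?_
  · refine TWC.clI_le' (fun a ha => ?_) (cld_clI v _)
    obtain ⟨n, hn⟩ := (mem_perfC p).1 ha
    obtain ⟨Q, hQ, h1⟩ := TWC.rts_poly ht hroot n _ (algIn_le_WX (v := v) hn)
    have h2 : Q.eval (t n) = a := by
      have h3 : (Q.eval (t n) - a) ^ p ^ n = 0 := by rw [sub_pow_char_pow, h1, sub_self]
      exact sub_eq_zero.1 (pow_eq_zero_iff (pow_ne_zero n hp.out.ne_zero) |>.1 h3)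
    rw [← h2]
    exact TWM.eval_mem (PI_mono TWC.EW.le hQ) (TWC.EW.mem n)
  · refine TWC.clI_le' (sup_le (WX_le_EX p) ?_) (cld_clI v _)
    rw [IntermediateField.adjoin_le_iff]
    rintro _ ⟨n, rfl⟩
    refine root_le_EX p n (mem_rootF.2 ?_)
    have h1 : t n ^ p ^ n = t 0 := by
      have := TWC.root_pow_add ht 0 n
      rwa [zero_add] at this
    rw [h1, ht0]
    exact mem_WX hxC

end One

section Tight

variable {p : ℕ} [hp : Fact p.Prime] [CharP Ω p] {T : ℕ → Ω}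

/-- Orthogonality of the powers from the norms of the jets. -/
theorem oi_of_jets (hT : T 1 ^ p = T 0) {r : ℝ}
    (hr : v (T 1) ≤ r)
    (h : ∀ P : Polynomial Ω, P ∈ PI C → ∀ F < p, ∀ b : ℝ, v.Ge b (P.eval (T 1)) →
      v.Ge (b - F * r) ((taylor (T 1) P).coeff F)) :
    OI p v C ![T 0] (p * (p * (r - v (T 1)))) := by
  have hp0 : (0 : ℝ) < p := by exact_mod_cast hp.out.pos
  intro c hcm b hb α
  set P : Polynomial Ω := ∑ i : Fin p, Polynomial.C (c ![i]) * X ^ (i : ℕ) with hP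
  have hPI : P ∈ PI C := sum_mem fun i _ => mul_mem (C_mem_PI (hcm _)) (pow_mem X_mem_PI _)
  have hcoe : ∀ i : Fin p, P.coeff i = c ![i] := by
    intro i
    rw [hP, finsetSum_coeff, Finset.sum_eq_single i]
    · rw [coeff_C_mul, coeff_X_pow, if_pos rfl, mul_one]
    · intro j _ hj
      rw [coeff_C_mul, coeff_X_pow, if_neg (fun h2 => hj (Fin.ext h2.symm)), mul_zero]
    · exact fun h2 => absurd (Finset.mem_univ _) h2
  have hdeg : ∀ F, p ≤ F → (taylor (T 1) P).coeff F = 0 := by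
    intro F hF
    refine coeff_eq_zero_of_natDegree_lt ?_
    rw [natDegree_taylor]
    refine lt_of_lt_of_le ?_ hF
    refine lt_of_le_of_lt (natDegree_sum_le_of_forall_le (n := p - 1) _ _ fun i _ => ?_)
      (Nat.sub_lt hp.out.pos one_pos)
    refine (natDegree_C_mul_X_pow_le _ _).trans ?_
    have := i.2
    omega
  have hev : P.eval (T 1) ^ p = pcomb ![T 0] c := by
    rw [pcomb_one, hP, eval_finsetSum, sum_pow_char]
    refine Finset.sum_congr rfl fun i _ => ?_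
    rw [eval_mul, eval_C, eval_pow, eval_X, mul_pow, ← pow_mul, mul_comm (i : ℕ) p, pow_mul, hT]
  have hb1 : v.Ge (b / p) (P.eval (T 1)) := by
    refine (TWC.ge_pow_iff (v := v) hp.out.pos).1 ?_
    rw [hev, mul_div_cancel₀ _ hp0.ne']
    exact hb
  -- the coefficients
  set i : Fin p := α 0 with hi
  have hα : α = ![i] := by
    funext j
    fin_cases j
    rfl
  have h1 : c ![i] * T 1 ^ (i : ℕ) = ∑ F ∈ Finset.range p,
      (taylor (T 1) P).coeff F * ((taylor (-T 1) (X ^ F)).coeff i * T 1 ^ (i : ℕ)) := by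
    have h2 : P = taylor (-T 1) (taylor (T 1) P) := by
      rw [taylor_taylor, neg_add_cancel, taylor_zero]
    have h3 : (taylor (T 1) P) = ∑ F ∈ Finset.range p,
        Polynomial.C ((taylor (T 1) P).coeff F) * X ^ F := by
      ext F
      rw [finsetSum_coeff]
      by_cases hF : F < p
      · rw [Finset.sum_eq_single F]
        · rw [coeff_C_mul, coeff_X_pow, if_pos rfl, mul_one]
        · intro j _ hj
          rw [coeff_C_mul, coeff_X_pow, if_neg hj.symm, mul_zero]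
        · exact fun h2 => absurd (Finset.mem_range.2 hF) h2
      · rw [hdeg F (not_lt.1 hF)]
        refine (Finset.sum_eq_zero fun j hj => ?_).symm
        rw [coeff_C_mul, coeff_X_pow, if_neg (fun h2 : F = j => hF (h2 ▸ Finset.mem_range.1 hj)), mul_zero]
    rw [← hcoe]
    nth_rw 1 [h2, h3]
    rw [map_sum, finsetSum_coeff, Finset.sum_mul]
    refine Finset.sum_congr rfl fun F _ => ?_
    rw [taylor_mul, taylor_C, coeff_C_mul, mul_assoc]
  have h4 : v.Ge (b / p - p * (r - v (T 1))) (c ![i] * T 1 ^ (i : ℕ)) := by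
    rw [h1]
    refine RVal.Ge.sum _ _ fun F hF => ?_
    have hFp := Finset.mem_range.1 hF
    have h5 : v.Ge (F * v (T 1)) ((taylor (-T 1) (X ^ F : Polynomial Ω)).coeff i *
        T 1 ^ (i : ℕ)) := by
      rw [taylor_pow, taylor_X, show (X : Polynomial Ω) + Polynomial.C (-T 1) =
        X + Polynomial.C (-T 1) from rfl, coeff_X_add_C_pow]
      by_cases hFi : (i : ℕ) ≤ F
      · have h6 : (-T 1) ^ (F - (i : ℕ)) * ((F.choose (i : ℕ) : ℕ) : Ω) * T 1 ^ (i : ℕ) =
            (-1) ^ (F - (i : ℕ)) * ((F.choose (i : ℕ) : ℕ) : Ω) * T 1 ^ F := by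
          rw [neg_pow, show T 1 ^ F = T 1 ^ (F - (i : ℕ)) * T 1 ^ (i : ℕ) by
            rw [← pow_add, Nat.sub_add_cancel hFi]]
          ring
        rw [h6]
        have h7 : v.Ge 0 (((-1) ^ (F - (i : ℕ)) * ((F.choose (i : ℕ) : ℕ) : Ω))) := by
          refine ((?_ : v.Ge 0 _).mul (?_ : v.Ge 0 _)).mono (by norm_num)
          · rcases neg_one_pow_eq_or Ω (F - (i : ℕ)) with h8 | h8
            · rw [h8]; intro _; rw [v.map_one]
            · rw [h8]; exact RVal.Ge.neg (by intro _; rw [v.map_one])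
          · exact ge_natCast v _
        refine (h7.mul (TWM.ge_pow (RVal.ge_self (T 1)) F)).mono (by rw [zero_add])
      · rw [Nat.choose_eq_zero_of_lt (not_le.1 hFi), Nat.cast_zero, mul_zero, zero_mul]
        exact RVal.Ge.zero
    refine ((h P hPI F hFp _ hb1).mul h5).mono ?_
    have h8 : (F : ℝ) ≤ p := by exact_mod_cast hFp.le
    nlinarith [mul_le_mul_of_nonneg_right h8 (sub_nonneg.2 hr)]
  have h9 : c α ^ p * mon (p := p) ![T 0] α = (c ![i] * T 1 ^ (i : ℕ)) ^ p := by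
    have h3 : mon (p := p) ![T 0] α = T 0 ^ (α 0 : ℕ) := by
      rw [mon, Fin.prod_univ_one]
      rfl
    rw [h3, ← hi, hα, mul_pow, ← pow_mul, mul_comm (i : ℕ) p, pow_mul, hT]
  rw [h9]
  refine (TWM.ge_pow h4 p).mono (le_of_eq ?_)
  field_simp

/-- **The powers of a tight element.** -/
theorem oi_tgt [CharP k p] [IsAlgClosed Ω] (h0 : Ctx0 k v) (hc : CompleteV v)
    (hT : Tgt p v C T r) (hT0 : T 0 ≠ 0) : OI p v C ![T 0] ((p - 1 + 1) * (r - v (T 0))) := by
  have hp0 : (0 : ℝ) < p := by exact_mod_cast hp.out.pos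
  have hT1 : T 1 ≠ 0 := TWC.root_ne_zero hT.root hT0 1
  have hv1 : v (T 1) = v (T 0) / p := by
    have := TWC.val_rt (v := v) hT.root hT0 1
    rwa [pow_one] at this
  have hle : v (T 0) ≤ r := val_le_of_tgt p hT hT0
  have h1 := hT.snd.nbx' p h0 hc (r := r) (by rw [pow_one, mul_div_cancel₀ _ hp0.ne'])
  have h2 := oi_of_jets (C := C) (T := T) (by rw [← hT.root 0]) (r := r / p)
    (by rw [hv1]; exact (div_le_div_iff_of_pos_right hp0).2 hle) fun P hP F hF b hb => by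
      have h3 := h1.nb 1 P hP F (by rwa [pow_one]) b hb
      refine h3.mono (le_of_eq ?_)
      rw [pow_one]
      ring
  refine h2.mono le_rfl (le_of_eq ?_)
  rw [hv1]
  field_simp
  ring

variable [CharP k p] [IsAlgClosed k] [IsAlgClosed Ω]

/-- **A tight element is a `p`-basis of `WX`.** -/
theorem pb_tgt (h0 : Ctx0 k v) (hc : CompleteV v) (hT : Tgt p v C T r) (hT0 : T 0 ≠ 0)
    (hvT : v (T 0) ≠ 0) : PBasis p (WX v C (T 0)) ![T 0] :=
  pb_WX1 h0 hc hT.cld (oi_tgt h0 hc hT hT0) hT0 hvT hT.mem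

/-- **The roots of `WX`, for a tight element.** -/
theorem rts_tgt (h0 : Ctx0 k v) (hc : CompleteV v) (hT : Tgt p v C T r) (hT0 : T 0 ≠ 0)
    (hvT : v (T 0) ≠ 0) : ∀ a ∈ WX v C (T 0), ∃ Q ∈ PI (WX v C (T 0)), (Q.eval (T 1)) ^ p = a :=
  root_of_pb (pb_tgt h0 hc hT hT0 hvT) (hT.root 0)

/-- `EX` is the closure of `WX(T 0, T 1, ..)`. -/
theorem ex_tgt (h0 : Ctx0 k v) (hc : CompleteV v) (hT : Tgt p v C T r) (hT0 : T 0 ≠ 0)
    (hvT : v (T 0) ≠ 0) : EX p v C (T 0) = EW v (WX v C (T 0)) T :=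
  ex_eq1 hT.mem (pb_tgt h0 hc hT hT0 hvT) rfl hT.root

end Tight

end Pool.Agent.TWF
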