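import Pool.Agent.Lib.TWF.InfAlt
import Pool.Agent.Lib.TWF.RtsT
import Pool.Agent.Lib.TWC.GenW
import Pool.Agent.Lib.TWC.TPb

/-!
# TANK W, row T8: from a generator over `EW W T` to the alternative (T)

`T 0` tight in `C` of level `r`, `W' = WX v C (T 0)`, `T 1` at distance `≤ q / p` from `W'`,
`3 (q - v (T 0)) < r - q`, the value group of `W'` is `p`-divisible, `EW v C T` generated over
`EW v W' T` by `θ` of transcendental type: `altT_of_genW`.
-/

set_option autoImplicit false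

open Polynomial

namespace Pool.Agent.TWF

open Pool.Agent.H15JM (RVal)
open Pool.Agent.LU1 (VPos adj)
open Pool.Agent.D2 (Ctx0)
open Pool.Agent.TWM
open Pool.Agent.TWS (VG)
open Pool.Agent.TWC (EW Tgt GenW)

universe u

variable {k Ω : Type u} [Field k] [Field Ω] [Algebra k Ω] {v : RVal Ω}
  {C W : IntermediateField k Ω} {p : ℕ} [hp : Fact p.Prime] [CharP k p] [CharP Ω p]
  [IsAlgClosed k] [IsAlgClosed Ω] {T : ℕ → Ω} {r q s : ℝ} {θ : Ω}

omit [IsAlgClosed k] in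
/-- The values of `C` are those of `W`. -/
theorem vg_of_genW (h0 : Ctx0 k v) (hT : ∀ n, T (n + 1) ^ p = T n) (hTW : T 0 ∈ W)
    (hdiv : ∀ g ∈ VG v W, g / p ∈ VG v W) (hG : GenW v C W T θ s) :
    ∀ g ∈ VG v C, g ∈ VG v W := by
  intro g hg
  have h1 : g ∈ VG v (EW v C T) := VG.mono TWC.EW.le hg
  rw [hG.eq, VG.imm hG.tl.imm, VG.imm (TWC.imm_EW h0 hdiv hT hTW)] at h1
  exact h1

/-- **The alternative (T).** -/
theorem altT_of_genW (h0 : Ctx0 k v) (hc : CompleteV v) (hT : Tgt p v C T r) (hT0 : T 0 ≠ 0)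
    (hvT : v (T 0) ≠ 0) (hq : ¬ Nr' v (WX v C (T 0)) (q / p) (T 1))
    (hs : 3 * (q - v (T 0)) < r - q)
    (hdiv : ∀ g ∈ VG v (WX v C (T 0)), g / p ∈ VG v (WX v C (T 0)))
    (hG : GenW v C (WX v C (T 0)) T θ s) : AltT p v C := by
  have hp0 : (0 : ℝ) < p := by exact_mod_cast hp.out.pos
  have hTW : T 0 ∈ WX v C (T 0) := mem_WX hT.mem
  have hWC : WX v C (T 0) ≤ C := WX_le hT.cld
  have hrts := rts_tgt h0 hc hT hT0 hvT
  have hVW := vg_of_genW h0 hT.root hTW hdiv hG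
  have hV : ∀ g ∈ VG v C, g / p ∈ VG v C := fun g hg => VG.mono hWC (hdiv g (hVW g hg))
  have hT1 : T 1 ≠ 0 := TWC.root_ne_zero hT.root hT0 1
  have hqT : v (T 0) ≤ q := by
    by_contra hno
    refine hq ⟨0, zero_mem _, fun _ => ?_⟩
    have h1 := TWC.val_rt (v := v) hT.root hT0 1
    rw [sub_zero, h1, pow_one]
    exact (div_lt_div_iff_of_pos_right hp0).2 (not_le.1 hno)
  have hvr : v (T 0) < r := by linarith
  have hδ : ∀ n (ε : ℝ), 0 < ε → ∃ c ∈ WX v C (T 0),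
      v.Ge (v (T 0) / p ^ (n + 1) - ε) (T (n + 1) - c) := by
    intro n ε hε
    refine ⟨0, zero_mem _, ?_⟩
    rw [sub_zero, ← TWC.val_rt (v := v) hT.root hT0 (n + 1)]
    exact (RVal.ge_self _).mono (by linarith)
  obtain ⟨t', ht', hG'⟩ := hG.exists_mem h0 hc hT hT0 hvr hWC (cld_WX v C _) hTW hq hδ hs hrts
    hV hVW
  exact ⟨WX v C (T 0), T, t', r, q, v (T 0), s, cld_WX v C _, hWC, hvT, hvr, hT, hTW, hq, hδ, hs,
    hrts, ht', hG'.tl, hG'.eq⟩

end Pool.Agent.TWF
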