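import Pool.Agent.Lib.TWC.PWdefs
import Pool.Agent.Lib.TWC.PairWt
import Pool.Agent.Lib.TWX.PtE
import Pool.Agent.Lib.TWC.TPow
import Pool.Agent.Lib.TWC.Irr3

/-!
# TANK W, the first floor over a tame base: from tight elements to tight pairs over `k`

`WT k p v Γ x` the closure of the field generated by the tame roots of `x`, with values in `Γ`.

* `TR.common`: two tame roots are in `k(z)`, `z` a tame root; `exists_level`: the same for the
  elements of the field;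
* `WT.roots`, `WT.vg`: the roots of order `p` and the values;
* **`cp_pair`**: `C = CP v z₀ y`, `x` tight in `C`, `y` of transcendental type: a tight pair
  `(z, y - n)` of `C`, `z` a tame root of `x` of order divisible by a given number, and
  `C = CP v z (y - n)`.
-/

set_option autoImplicit false

open Polynomial

namespace Pool.Agent.TWF.CPf

open Pool.Agent.H15JM (RVal)
open Pool.Agent.LU1 (VPos adj)
open Pool.Agent.D2 (Ctx0)
open Pool.Agent.D2P (clI mem_clI mem_adj_self adj_le)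
open Pool.Agent.TWM
open Pool.Agent.TWS (VG)
open Pool.Agent.TWC
open Pool.Agent.TWC.PW (WT RS PRT)

universe u

variable {k Ω : Type u} [Field k] [Field Ω] [Algebra k Ω] {v : RVal Ω} {Γ : AddSubgroup ℝ}
  {p : ℕ} {x : Ω}

/-! ### Tame roots -/

/-- The roots of unity are in `k`. -/
theorem unity_mem_bot [IsAlgClosed k] {c : Ω} {n : ℕ} (hn : n ≠ 0) (h : c ^ n = 1) :
    c ∈ (⊥ : IntermediateField k Ω) := by
  have hal : IsAlgebraic k c := by
    refine ⟨X ^ n - 1, ?_, ?_⟩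
    · exact (monic_X_pow_sub_C (1 : k) hn).ne_zero
    · rw [map_sub, map_pow, aeval_X, map_one, h, sub_self]
  have h4 : Algebra.IsAlgebraic k (IntermediateField.adjoin k {c}) :=
    IntermediateField.isAlgebraic_adjoin_simple hal.isIntegral
  rw [← IntermediateField.eq_bot_of_isAlgClosed_of_isAlgebraic (IntermediateField.adjoin k {c})]
  exact IntermediateField.mem_adjoin_simple_self k _

/-- `f` is a tame root of `x`, of order `m`, with value in `Γ`. -/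
structure TR (p : ℕ) (v : RVal Ω) (Γ : AddSubgroup ℝ) (x : Ω) (m : ℕ) (f : Ω) : Prop where
  nd : ¬ p ∣ m
  pow : f ^ m = x
  val : v f ∈ Γ

section

variable [hp : Fact p.Prime]

omit hp in
theorem TR.pos {m : ℕ} {f : Ω} (h : TR p v Γ x m f) : m ≠ 0 := by
  rintro rfl
  exact h.nd (dvd_zero p)

omit hp in
theorem TR.ne (hx : x ≠ 0) {m : ℕ} {f : Ω} (h : TR p v Γ x m f) : f ≠ 0 := by
  rintro rfl
  rw [← h.pow, zero_pow h.pos] at hx
  exact hx rfl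

omit hp in
theorem TR.mul_val (hx : x ≠ 0) {m : ℕ} {f : Ω} (h : TR p v Γ x m f) : (m : ℝ) * v f = v x := by
  rw [← h.pow, v.map_pow (h.ne hx)]

theorem TR.refl (hx : v x ∈ Γ) : TR p v Γ x 1 x :=
  ⟨fun h => hp.out.one_lt.ne' (Nat.dvd_one.1 h), pow_one x, hx⟩

omit [Algebra k Ω] [Field k] hp in
theorem zpow_pow_eq {a : Ω} {i : ℤ} {l m : ℕ} {b : ℤ} (h : a ^ m = x) (hl : i * l = m * b) :
    (a ^ i) ^ l = x ^ b := by
  rw [← h, ← zpow_natCast, ← zpow_mul, hl, zpow_mul, zpow_natCast]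

/-- **Two tame roots.** -/
theorem TR.common [IsAlgClosed k] (hx : x ≠ 0) {m n : ℕ} {f g : Ω} (hf : TR p v Γ x m f)
    (hg : TR p v Γ x n g) : ∃ (l : ℕ) (z : Ω), TR p v Γ x l z ∧ m ∣ l ∧ n ∣ l ∧
      f ∈ adj (⊥ : IntermediateField k Ω) z ∧ g ∈ adj (⊥ : IntermediateField k Ω) z := by
  have hm0 := hf.pos
  have hn0 := hg.pos
  obtain ⟨d, hd⟩ : ∃ d, d = Nat.gcd m n := ⟨_, rfl⟩
  have hd0 : 0 < d := by
    rw [hd]
    exact Nat.gcd_pos_of_pos_left _ (Nat.pos_of_ne_zero hm0)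
  obtain ⟨a, ha⟩ : d ∣ m := hd ▸ Nat.gcd_dvd_left m n
  obtain ⟨b, hb⟩ : d ∣ n := hd ▸ Nat.gcd_dvd_right m n
  have hcop : Nat.Coprime a b := by
    have h1 : Nat.gcd (d * a) (d * b) = d := by rw [← ha, ← hb, ← hd]
    rw [Nat.gcd_mul_left] at h1
    exact Nat.eq_of_mul_eq_mul_left hd0 (by rw [h1, mul_one])
  obtain ⟨α, β, hαβ⟩ : ∃ α β : ℤ, α * a + β * b = 1 := by
    have h1 : IsCoprime (a : ℤ) (b : ℤ) := Nat.isCoprime_iff_coprime.2 hcop
    obtain ⟨α, β, h⟩ := h1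
    exact ⟨α, β, h⟩
  have hl : ¬ p ∣ d * a * b := by
    intro h1
    rcases hp.out.dvd_mul.1 h1 with h2 | h2
    · exact hf.nd (ha ▸ h2)
    · exact hg.nd (hb ▸ h2.mul_left d)
  have hf0 := hf.ne hx
  have hg0 := hg.ne hx
  obtain ⟨z, hz⟩ : ∃ z, z = f ^ β * g ^ α := ⟨_, rfl⟩
  have hzl : z ^ (d * a * b) = x := by
    rw [hz, mul_pow, zpow_pow_eq (b := β * b) hf.pow (by rw [ha]; push_cast; ring),
      zpow_pow_eq (b := α * a) hg.pow (by rw [hb]; push_cast; ring), ← zpow_add₀ hx,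
      show β * b + α * a = 1 by rw [← hαβ]; ring, zpow_one]
  have hz0 : z ≠ 0 := by
    rw [hz]
    exact mul_ne_zero (zpow_ne_zero _ hf0) (zpow_ne_zero _ hg0)
  have hzΓ : v z ∈ Γ := by
    rw [hz, v.map_mul (zpow_ne_zero _ hf0) (zpow_ne_zero _ hg0), map_zpow' hf0, map_zpow' hg0,
      ← zsmul_eq_mul, ← zsmul_eq_mul]
    exact add_mem (Γ.zsmul_mem hf.val _) (Γ.zsmul_mem hg.val _)
  have hT : TR p v Γ x (d * a * b) z := ⟨hl, hzl, hzΓ⟩
  have key : ∀ (h : Ω) (i j : ℕ), i ≠ 0 → h ^ i = x → j * i = d * a * b →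
      h ∈ adj (⊥ : IntermediateField k Ω) z := by
    intro h i j hi hhi hji
    have hzj : z ^ j ≠ 0 := pow_ne_zero _ hz0
    have h1 : (h / z ^ j) ^ i = 1 := by
      rw [div_pow, ← pow_mul, hji, hzl, hhi, div_self hx]
    have h2 := unity_mem_bot (k := k) hi h1
    have h3 : h = (h / z ^ j) * z ^ j := by rw [div_mul_cancel₀ _ hzj]
    rw [h3]
    exact mul_mem ((mem_adj_self _ _).2 h2) (pow_mem (mem_adj_self _ _).1 _)
  exact ⟨d * a * b, z, hT, ha ▸ Dvd.intro _ rfl, hb ▸ ⟨a, by ring⟩,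
    key f m b hm0 hf.pow (by rw [ha]; ring), key g n a hn0 hg.pow (by rw [hb]; ring)⟩

theorem adj_mono_of_mem {z z' : Ω} (h : z ∈ adj (⊥ : IntermediateField k Ω) z') :
    adj (⊥ : IntermediateField k Ω) z ≤ adj (⊥ : IntermediateField k Ω) z' :=
  adj_le bot_le h

/-- **The elements of the field generated by the tame roots.** -/
theorem exists_level [IsAlgClosed k] (hx : x ≠ 0) (hxΓ : v x ∈ Γ) {a : Ω}
    (ha : a ∈ IntermediateField.adjoin k {f | ∃ m : ℕ, ¬ p ∣ m ∧ f ^ m = x ∧ v f ∈ Γ}) :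
    ∃ (l : ℕ) (z : Ω), TR p v Γ x l z ∧ a ∈ adj (⊥ : IntermediateField k Ω) z := by
  induction ha using IntermediateField.adjoin_induction with
  | mem f hf =>
    obtain ⟨m, h1, h2, h3⟩ := hf
    exact ⟨m, f, ⟨h1, h2, h3⟩, (mem_adj_self _ _).1⟩
  | algebraMap c => exact ⟨1, x, TR.refl hxΓ, IntermediateField.algebraMap_mem _ c⟩
  | add a b _ _ ha hb =>
    obtain ⟨l, z, h1, h2⟩ := ha
    obtain ⟨l', z', h3, h4⟩ := hb
    obtain ⟨l'', z'', h5, -, -, h6, h7⟩ := TR.common (k := k) hx h1 h3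
    exact ⟨l'', z'', h5, add_mem (adj_mono_of_mem h6 h2) (adj_mono_of_mem h7 h4)⟩
  | inv a _ ha =>
    obtain ⟨l, z, h1, h2⟩ := ha
    exact ⟨l, z, h1, inv_mem h2⟩
  | mul a b _ _ ha hb =>
    obtain ⟨l, z, h1, h2⟩ := ha
    obtain ⟨l', z', h3, h4⟩ := hb
    obtain ⟨l'', z'', h5, -, -, h6, h7⟩ := TR.common (k := k) hx h1 h3
    exact ⟨l'', z'', h5, mul_mem (adj_mono_of_mem h6 h2) (adj_mono_of_mem h7 h4)⟩

end

/-! ### The closure of the field of the tame roots -/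

section WTs

variable [hp : Fact p.Prime] [CharP k p] [CharP Ω p] [IsAlgClosed k] [IsAlgClosed Ω]
  {X : ℕ → Ω} {y : Ω} {B : ℝ} {C : IntermediateField k Ω}

omit hp [CharP k p] [CharP Ω p] [IsAlgClosed k] [IsAlgClosed Ω] in
private theorem exists_eval_adj {A : IntermediateField k Ω} {t b : Ω} (ht : IsAlgebraic A t)
    (hb : b ∈ adj A t) : ∃ Q ∈ PI A, Q.eval t = b := by
  rw [adj_eq_restrict] at hb
  have h1 : b ∈ (IntermediateField.adjoin A {t}).toSubalgebra := hb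
  rw [IntermediateField.adjoin_simple_toSubalgebra_of_isAlgebraic ht,
    Algebra.adjoin_singleton_eq_range_aeval] at h1
  obtain ⟨P, hP⟩ := h1
  refine ⟨P.map (algebraMap A Ω), fun i => ?_, ?_⟩
  · rw [coeff_map]
    exact (P.coeff i).2
  · rw [eval_map_algebraMap]
    exact hP

omit [CharP k p] [CharP Ω p] [IsAlgClosed k] [IsAlgClosed Ω] in
theorem mem_WT (hx : v x ∈ Γ) : x ∈ WT k p v Γ x :=
  self_le_clI v _ (IntermediateField.subset_adjoin k
    {f : Ω | ∃ m : ℕ, ¬ p ∣ m ∧ f ^ m = x ∧ v f ∈ Γ}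
    ⟨1, fun h => hp.out.one_lt.ne' (Nat.dvd_one.1 h), pow_one x, hx⟩)

omit hp [CharP k p] [CharP Ω p] [IsAlgClosed k] [IsAlgClosed Ω] in
theorem TR.mem_WT {m : ℕ} {f : Ω} (h : TR p v Γ x m f) : f ∈ WT k p v Γ x :=
  self_le_clI v _ (IntermediateField.subset_adjoin k
    {f : Ω | ∃ m : ℕ, ¬ p ∣ m ∧ f ^ m = x ∧ v f ∈ Γ} ⟨m, h.nd, h.pow, h.val⟩)

/-- The roots of order `p`. -/
theorem root_adjoin {t : Ω} (ht : t ^ p = x) (hx : x ≠ 0) {a : Ω}
    (ha : a ∈ IntermediateField.adjoin k {f | ∃ m : ℕ, ¬ p ∣ m ∧ f ^ m = x ∧ v f ∈ Γ}) :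
    ∃ b ∈ adj (IntermediateField.adjoin k {f | ∃ m : ℕ, ¬ p ∣ m ∧ f ^ m = x ∧ v f ∈ Γ}) t,
      b ^ p = a := by
  set A := IntermediateField.adjoin k {f : Ω | ∃ m : ℕ, ¬ p ∣ m ∧ f ^ m = x ∧ v f ∈ Γ} with hA
  have ht0 : t ≠ 0 := by
    rintro rfl
    rw [zero_pow hp.out.ne_zero] at ht
    exact hx ht.symm
  induction ha using IntermediateField.adjoin_induction with
  | mem f hf =>
    obtain ⟨m, h1, h2, h3⟩ := hf
    have hf0 : f ≠ 0 := TR.ne hx ⟨h1, h2, h3⟩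
    obtain ⟨g, hg⟩ := IsAlgClosed.exists_pow_nat_eq f hp.out.pos
    have hg0 : g ≠ 0 := by
      rintro rfl
      rw [zero_pow hp.out.ne_zero] at hg
      exact hf0 hg.symm
    have hgm : g ^ m = t := by
      refine frobenius_inj Ω p ?_
      rw [frobenius_def, frobenius_def, ht, ← pow_mul, mul_comm, pow_mul, hg, h2]
    obtain ⟨α, β, hαβ⟩ : ∃ α β : ℤ, α * m + β * p = 1 := by
      have h4 : IsCoprime (m : ℤ) (p : ℤ) :=
        Nat.isCoprime_iff_coprime.2 ((Nat.coprime_comm.1 ((hp.out.coprime_iff_not_dvd).2 h1)))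
      obtain ⟨α, β, h⟩ := h4
      exact ⟨α, β, h⟩
    have h5 : g = t ^ α * f ^ β := by
      rw [← hgm, ← hg, ← zpow_natCast g m, ← zpow_natCast g p, ← zpow_mul, ← zpow_mul,
        ← zpow_add₀ hg0, show (m : ℤ) * α + p * β = 1 by rw [← hαβ]; ring, zpow_one]
    refine ⟨g, ?_, hg⟩
    rw [h5]
    have h6 : f ∈ A := IntermediateField.subset_adjoin k
      {f : Ω | ∃ m : ℕ, ¬ p ∣ m ∧ f ^ m = x ∧ v f ∈ Γ} ⟨m, h1, h2, h3⟩
    exact mul_mem (zpow_mem (mem_adj_self _ _).1 _) (zpow_mem ((mem_adj_self _ _).2 h6) _)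
  | algebraMap c =>
    obtain ⟨d, hd⟩ := IsAlgClosed.exists_pow_nat_eq c hp.out.pos
    exact ⟨algebraMap k Ω d, IntermediateField.algebraMap_mem _ d, by rw [← map_pow, hd]⟩
  | add a b _ _ ha hb =>
    obtain ⟨a', h1, h2⟩ := ha
    obtain ⟨b', h3, h4⟩ := hb
    exact ⟨a' + b', add_mem h1 h3, by rw [add_pow_char, h2, h4]⟩
  | inv a _ ha =>
    obtain ⟨a', h1, h2⟩ := ha
    exact ⟨a'⁻¹, inv_mem h1, by rw [inv_pow, h2]⟩
  | mul a b _ _ ha hb =>
    obtain ⟨a', h1, h2⟩ := ha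
    obtain ⟨b', h3, h4⟩ := hb
    exact ⟨a' * b', mul_mem h1 h3, by rw [mul_pow, h2, h4]⟩

/-- **The roots of order `p` of the elements of `WT`.** -/
theorem WT.roots (hc : CompleteV v) (hx : x ≠ 0) (hxΓ : v x ∈ Γ) {t : Ω} (ht : t ^ p = x) :
    ∀ a ∈ WT k p v Γ x, ∃ Q ∈ PI (WT k p v Γ x), (Q.eval t) ^ p = a := by
  intro a ha
  have hp0 : (0 : ℝ) < p := by exact_mod_cast hp.out.pos
  obtain ⟨b, hb⟩ := IsAlgClosed.exists_pow_nat_eq a hp.out.pos
  have htW : t ^ p ∈ WT k p v Γ x := by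
    rw [ht]
    exact mem_WT hxΓ
  have h1 : b ∈ clI v (adj (IntermediateField.adjoin k
      {f : Ω | ∃ m : ℕ, ¬ p ∣ m ∧ f ^ m = x ∧ v f ∈ Γ}) t) := by
    rw [mem_clI]
    intro c
    obtain ⟨a', ha', h2⟩ := mem_clI.1 ha (p * c)
    obtain ⟨b', hb', h3⟩ := root_adjoin ht hx ha'
    refine ⟨b', hb', ?_⟩
    have h5 : v.Ge (p * c) ((b - b') ^ p) := by
      rw [sub_pow_char, h3, hb]
      exact h2
    exact (ge_pow_iff hp.out.pos).1 h5
  have h2 : b ∈ adj (WT k p v Γ x) t := by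
    refine cld_adj_pow hc (cld_clI v _) htW (clI_mono' ?_ h1)
    exact adj_le ((self_le_clI v _).trans (mem_adj_self _ _).2) (mem_adj_self _ _).1
  obtain ⟨Q, hQ, h3⟩ := exists_eval_adj
    (IsAlgebraic.of_pow hp.out.pos (isAlgebraic_algebraMap (⟨_, htW⟩ : WT k p v Γ x))) h2
  exact ⟨Q, hQ, by rw [h3, hb]⟩

omit [CharP k p] [CharP Ω p] [IsAlgClosed Ω] in
/-- **`v x / p` is not a value of `WT`.** -/
theorem WT.vg (h0 : Ctx0 k v) (hx : x ≠ 0) (hxΓ : v x ∈ Γ) (hneg : v x < 0) :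
    v x / p ∉ VG v (WT k p v Γ x) := by
  rintro ⟨a, ha, ha0, hv⟩
  obtain ⟨a', ha', h1⟩ := mem_clI.1 ha (v a + 1)
  obtain ⟨h2, h3⟩ := Gt.val_eq ha0 (Gt.of_ge h1 (by linarith))
  obtain ⟨l, z, hz, h4⟩ := exists_level (k := k) hx hxΓ ha'
  have hz0 := hz.ne hx
  have hl0 : (0 : ℝ) < l := by exact_mod_cast Nat.pos_of_ne_zero hz.pos
  have hzv := hz.mul_val hx
  have hp0 : (0 : ℝ) < p := by exact_mod_cast hp.out.pos
  have hzn : v z < 0 := by
    by_contra h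
    push Not at h
    have := mul_nonneg hl0.le h
    linarith
  obtain ⟨m, h5⟩ := val_bot h0 hz0 hzn (self_le_clI v _ h4 : a' ∈ cadj v ⊥ z) h2
  have h6 : (m : ℝ) * p * v z = l * v z := by
    rw [hzv, mul_right_comm, ← h5, h3, hv, div_mul_cancel₀ _ hp0.ne']
  have h7 : (m : ℝ) * p = l := mul_right_cancel₀ hzn.ne h6
  have h8 : (m : ℤ) * p = l := by exact_mod_cast h7
  refine hz.nd ?_
  have h9 : (p : ℤ) ∣ l := ⟨m, by rw [← h8]; ring⟩
  exact_mod_cast h9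

/-- **The tight pair over `k`.** -/
theorem cp_pair (h0 : Ctx0 k v) (hc : CompleteV v) {s r : ℝ} (hr : ∀ n, X (n + 1) ^ p = X n)
    (hX : X 0 ≠ 0) (hneg : v (X 0) < 0) (hΓ : v (X 0) ∈ Γ)
    (hTL : TL v (EW v (WT k p v Γ (X 0)) X) y s) (hCW : C = cadj v (WT k p v Γ (X 0)) y)
    (hT : Tgt p v C X r) (hvr : v (X 0) < r) {m₀ : ℕ} {x₀ : Ω} (hx₀ : TR p v Γ (X 0) m₀ x₀)
    (hgen : C = CP v x₀ y) {D : ℕ} (hD : ¬ p ∣ D) (hDΓ : v (X 0) / D ∈ Γ) :
    ∃ (Z U : ℕ → Ω) (l : ℕ), TR p v Γ (X 0) l (Z 0) ∧ D ∣ l ∧ m₀ ∣ l ∧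
      TP p v C Z U (r - v (X 0) + v (Z 0)) s ∧ C = CP v (Z 0) (U 0) := by
  have hW : WT k p v Γ (X 0) ≤ C := by
    rw [hCW]
    exact le_cadj v _ _
  have hyC : y ∈ C := by
    rw [hCW]
    exact self_mem_cadj v _ _
  have hE : EW v C X = cadj v (EW v (WT k p v Γ (X 0)) X) y := by
    refine le_antisymm (clI_le' (sup_le ?_ (IntermediateField.adjoin_le_iff.2 ?_))
      (cld_cadj v _ _)) (TWM.cadj_le EW.cld (EW.mono hW X) (EW.le hyC))
    · rw [hCW]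
      exact TWM.cadj_le (cld_cadj v _ _) (EW.le.trans (le_cadj v _ _)) (self_mem_cadj v _ _)
    · rintro _ ⟨n, rfl⟩
      exact le_cadj v _ _ (EW.mem n)
  obtain ⟨u, hu, hTP, -, -, -⟩ := exists_pairWt h0 hc hT hX hvr hW (mem_WT hΓ)
    (WT.roots hc hX hΓ (hr 0)) (nbx_of_vg h0 hc (cld_clI v _) hr hX (mem_WT hΓ)
      (WT.vg h0 hX hΓ hneg)) hyC hTL hE
  obtain ⟨n', hn', h1⟩ := mem_clI.1 hu (s + 1)
  obtain ⟨l₁, z₁, hz₁, h2⟩ := exists_level (k := k) hX hΓ hn'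
  have hD0 : D ≠ 0 := by
    rintro rfl
    exact hD (dvd_zero p)
  obtain ⟨z₂, hz₂⟩ := IsAlgClosed.exists_pow_nat_eq (X 0) (Nat.pos_of_ne_zero hD0)
  have hz₂0 : z₂ ≠ 0 := by
    rintro rfl
    rw [zero_pow hD0] at hz₂
    exact hX hz₂.symm
  have hT₂ : TR p v Γ (X 0) D z₂ := by
    refine ⟨hD, hz₂, ?_⟩
    have h3 : v z₂ = v (X 0) / D := by
      rw [← hz₂, v.map_pow hz₂0, mul_div_cancel_left₀]
      exact_mod_cast hD0
    rw [h3]
    exact hDΓ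
  obtain ⟨l₃, z₃, hz₃, -, hd3, h31, h32⟩ := TR.common (k := k) hX hz₁ hx₀
  obtain ⟨l, z, hz, hd4, hd5, h43, h42⟩ := TR.common (k := k) hX hz₃ hT₂
  obtain ⟨Z, rfl, hZ⟩ := exists_rts p z
  obtain ⟨U, hU0, hU⟩ := exists_rts p (y - n')
  have hZC : Z 0 ∈ C := hW hz.mem_WT
  have hZ0 := hz.ne hX
  have hnC : n' ∈ C := hW (self_le_clI v _ hn')
  -- the second letter
  have h4 : TP p v C X U r s := by
    refine hTP.congr_w hU (by rw [hU0]; exact sub_mem hyC hnC) ?_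
    rw [hU0, show y - n' - u 0 = (y - u 0) - n' by ring]
    exact Gt.of_ge h1 (by linarith)
  -- the first letter
  have hZl : (fun n => Z n ^ (l : ℤ)) = X := by
    funext n
    refine iterateFrobenius_inj Ω p n ?_
    have e1 := root_pow_add hZ 0 n
    have e2 := root_pow_add hr 0 n
    rw [zero_add] at e1 e2
    rw [iterateFrobenius_def, iterateFrobenius_def, zpow_natCast, ← pow_mul, mul_comm, pow_mul,
      e1, e2, hz.pow]
  have h5 : TP p v C Z U (r - l * v (Z 0) + v (Z 0)) s := by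
    have := TP.of_zpow (m := (l : ℤ)) hZ hZC hZ0 (by exact_mod_cast hz.nd) (w := U) (r := r)
      (s := s) (by rw [hZl]; exact h4) (by rw [zpow_natCast, hz.pow]; exact hvr)
    simpa using this
  refine ⟨Z, U, l, hz, hd5, hd3.trans hd4, ?_, ?_⟩
  · rw [hz.mul_val hX] at h5
    exact h5
  · rw [hU0]
    have hle := self_le_clI v (adj (⊥ : IntermediateField k Ω) (Z 0))
    have hn : n' ∈ CP (k := k) v (Z 0) (y - n') :=
      le_cadj v _ _ (hle (adj_mono_of_mem (adj_mono_of_mem h43 h31) h2))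
    refine le_antisymm ?_ (CP_le hT.cld hZC (sub_mem hyC hnC))
    rw [hgen]
    refine CP_le (CP_cld _ _) (le_cadj v _ _ (hle (adj_mono_of_mem h43 h32))) ?_
    have h6 := add_mem (CP_snd (k := k) (v := v) (Z 0) (y - n')) hn
    rwa [sub_add_cancel] at h6

end WTs

end Pool.Agent.TWF.CPf
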