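import Pool.Agent.Lib.TWF.CPf
import Pool.Agent.Lib.TWM.S8b
import Pool.Agent.Lib.TWEX.StepA

/-!
# TANK W, the first floor over a tame base: tight pairs over `k` and isogenies

* `TG p v C`: `C` has two topological generators of bounded distortion;
* `TG.exists_root`: then `C = cadj v (WT x) y` is `CP v z y`, `z` a tame root of `x`;
* `TG.iso`: the fields `cadj v (WT (X e)) y`;
* **`TG.hasTPn`**: `X` tight of level `- b v(X 0)`, `y` of radius `0`: `HasTPn p v C`;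
* **`hasTPn_irr`**: `y` of irrational radius, `X` tight in the fields of high levels.
-/

set_option autoImplicit false

open Polynomial

namespace Pool.Agent.TWF.CPf

open Pool.Agent.H15JM (RVal)
open Pool.Agent.LU1 (VPos adj)
open Pool.Agent.D2 (Ctx0)
open Pool.Agent.D2P (clI mem_clI mem_adj_self adj_le)
open Pool.Agent.TW (kr PBasis Ctx)
open Pool.Agent.TWM
open Pool.Agent.TWS (VG RatV)
open Pool.Agent.TWC
open Pool.Agent.TWC.PW (WT RS PRT)

universe u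

variable {k Ω : Type u} [Field k] [Field Ω] [Algebra k Ω] {v : RVal Ω} {Γ : AddSubgroup ℝ}
  {p : ℕ} {x : Ω}

/-- `C` has two topological generators of bounded distortion. -/
def TG (p : ℕ) (v : RVal Ω) (C : IntermediateField k Ω) : Prop :=
  ∃ (t : Fin 2 → Ω) (c : ℝ), clI v (kr k t) = C ∧ OI p v C t c ∧ ∀ i, t i ≠ 0

section

variable {C C' M : IntermediateField k Ω} {X : ℕ → Ω} {y y' z : Ω} {r s B : ℝ}

theorem cl_pair (x y : Ω) : clI v (kr k ![x, y]) = CP (k := k) v x y := by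
  refine le_antisymm (clI_le' (IntermediateField.adjoin_le_iff.2 ?_) (CP_cld x y)) ?_
  · rintro _ ⟨i, rfl⟩
    refine Fin.cases (CP_fst x y) (fun i => ?_) i
    rw [Fin.fin_one_eq_zero i]
    exact CP_snd x y
  · exact CP_le (cld_clI v _) (self_le_clI v _ (IntermediateField.subset_adjoin k _ ⟨0, rfl⟩))
      (self_le_clI v _ (IntermediateField.subset_adjoin k _ ⟨1, rfl⟩))

theorem CP_mono_adj {z z' : Ω} (h : z ∈ adj (⊥ : IntermediateField k Ω) z') (y : Ω) :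
    CP (k := k) v z y ≤ CP (k := k) v z' y :=
  CP_le (CP_cld _ _) (le_cadj _ _ _ (self_le_clI v _ h)) (CP_snd _ _)

variable [hp : Fact p.Prime]

/-- The elements of the field generated by `y` and the tame roots. -/
theorem exists_level_y [IsAlgClosed k] (hx : x ≠ 0) (hxΓ : v x ∈ Γ) {a y : Ω}
    (ha : a ∈ adj (IntermediateField.adjoin k {f | ∃ m : ℕ, ¬ p ∣ m ∧ f ^ m = x ∧ v f ∈ Γ}) y) :
    ∃ (l : ℕ) (z : Ω), TR p v Γ x l z ∧ a ∈ CP (k := k) v z y := by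
  rw [adj, ← IntermediateField.adjoin_union] at ha
  induction ha using IntermediateField.adjoin_induction with
  | mem f hf =>
    rcases hf with ⟨m, h1, h2, h3⟩ | rfl
    · exact ⟨m, f, ⟨h1, h2, h3⟩, CP_fst _ _⟩
    · exact ⟨1, x, TR.refl hxΓ, CP_snd _ _⟩
  | algebraMap c => exact ⟨1, x, TR.refl hxΓ, IntermediateField.algebraMap_mem _ c⟩
  | add a b _ _ ha hb =>
    obtain ⟨l, z, h1, h2⟩ := ha
    obtain ⟨l', z', h3, h4⟩ := hb
    obtain ⟨l'', z'', h5, -, -, h6, h7⟩ := TR.common (k := k) hx h1 h3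
    exact ⟨l'', z'', h5, add_mem (CP_mono_adj h6 y h2) (CP_mono_adj h7 y h4)⟩
  | inv a _ ha =>
    obtain ⟨l, z, h1, h2⟩ := ha
    exact ⟨l, z, h1, inv_mem h2⟩
  | mul a b _ _ ha hb =>
    obtain ⟨l, z, h1, h2⟩ := ha
    obtain ⟨l', z', h3, h4⟩ := hb
    obtain ⟨l'', z'', h5, -, -, h6, h7⟩ := TR.common (k := k) hx h1 h3
    exact ⟨l'', z'', h5, mul_mem (CP_mono_adj h6 y h2) (CP_mono_adj h7 y h4)⟩

variable [CharP k p] [CharP Ω p] [IsAlgClosed k]

/-- **The finite stages.** -/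
theorem TG.exists_root (h0 : Ctx0 k v) (hTG : TG p v C) (hx : x ≠ 0) (hxΓ : v x ∈ Γ)
    (hC : C = cadj v (WT k p v Γ x) y) :
    ∃ (l : ℕ) (z : Ω), TR p v Γ x l z ∧ C = CP v z y := by
  obtain ⟨t, c, hgen, ho, ht0⟩ := hTG
  obtain ⟨δ, hδ⟩ := pert h0 hgen ho ht0
  have hC' : C = clI v (adj (IntermediateField.adjoin k
      {f | ∃ m : ℕ, ¬ p ∣ m ∧ f ^ m = x ∧ v f ∈ Γ}) y) := by
    rw [hC, WT, clI_adj_clI]
  have hcld : Cld v C := by
    rw [hC]
    exact cld_cadj v _ _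
  have hyC : y ∈ C := by
    rw [hC]
    exact self_mem_cadj v _ _
  have hWC : WT k p v Γ x ≤ C := by
    rw [hC]
    exact le_cadj v _ _
  have key : ∀ i, ∃ (b : Ω) (l : ℕ) (z : Ω), b ∈ C ∧ TR p v Γ x l z ∧ b ∈ CP (k := k) v z y ∧
      v.Ge δ (t i - b) := by
    intro i
    have h1 : t i ∈ C := by
      rw [← hgen]
      exact self_le_clI v _ (IntermediateField.subset_adjoin k _ ⟨i, rfl⟩)
    rw [hC'] at h1
    obtain ⟨b, hb, h2⟩ := mem_clI.1 h1 δ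
    obtain ⟨l, z, h3, h4⟩ := exists_level_y hx hxΓ hb
    refine ⟨b, l, z, ?_, h3, h4, h2⟩
    rw [hC']
    exact self_le_clI v _ hb
  choose b l z hbC hz hbz hb using key
  obtain ⟨l', z', h5, -, -, h6, h7⟩ := TR.common (k := k) hx (hz 0) (hz 1)
  refine ⟨l', z', h5, le_antisymm ?_ (CP_le hcld (hWC h5.mem_WT) hyC)⟩
  rw [← hδ b hbC hb]
  refine clI_le' (IntermediateField.adjoin_le_iff.2 ?_) (CP_cld _ _)
  rintro _ ⟨i, rfl⟩
  refine Fin.cases (CP_mono_adj h6 y (hbz 0)) (fun i => ?_) i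
  rw [Fin.fin_one_eq_zero i]
  exact CP_mono_adj h7 y (hbz 1)

omit hp [CharP k p] [CharP Ω p] [IsAlgClosed k] in
/-- The closure of `k(x, y)`. -/
theorem TG.of_eq {c : ℝ} (hC : C = CP v x y) (ho : OI p v C ![x, y] c) (hx : x ≠ 0)
    (hy : y ≠ 0) : TG p v C := by
  refine ⟨![x, y], c, by rw [cl_pair, hC], ho, fun i => ?_⟩
  refine Fin.cases hx (fun i => ?_) i
  rw [Fin.fin_one_eq_zero i]
  exact hy

omit [CharP k p] in
theorem TG.oi (hc : CompleteV v) (hTG : TG p v (CP (k := k) v z y)) :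
    PBasis p (CP (k := k) v z y) ![z, y] ∧ ∃ c, OI p v (CP (k := k) v z y) ![z, y] c := by
  obtain ⟨t, c, hgen, ho, ht0⟩ := hTG
  obtain ⟨h1, -, h2⟩ := OI_gen' hc hgen ho ht0 (cl_pair z y)
  exact ⟨h1, h2⟩

/-- **The roots.** -/
theorem TG.root [IsAlgClosed Ω] (hc : CompleteV v) (hTG : TG p v (CP (k := k) v z y)) {z' : Ω}
    (hz : z' ^ p = z) : TG p v (CP (k := k) v z' y) := by
  obtain ⟨hs, c, ho⟩ := hTG.oi hc
  have h1 : TWEX.rt z' (![z, y] : Fin 2 → Ω) = ![z', y] := by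
    funext i
    refine Fin.cases rfl (fun i => ?_) i
    rw [Fin.fin_one_eq_zero i]
    rfl
  have h2 := TWEX.oi_root hs ho (β := z') hz
  rw [h1] at h2
  have hzC : z' ^ p ∈ CP (k := k) v z y := by
    rw [hz]
    exact CP_fst _ _
  have h3 : CP (k := k) v z' y ≤ adj (CP (k := k) v z y) z' :=
    CP_le (cld_adj_pow hc (CP_cld _ _) hzC) (mem_adj_self _ _).1
      ((mem_adj_self _ _).2 (CP_snd _ _))
  have h4 := TWEX.rt_ne hs (β := z') hz
  rw [h1] at h4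
  exact ⟨_, _, cl_pair z' y, h2.mono h3 le_rfl, h4⟩

/-! ### Isogenies -/

omit [CharP k p] [IsAlgClosed k] in
/-- The roots of the tame roots. -/
theorem TR.shift (hr : ∀ n, X (n + 1) ^ p = X n) (hX : X 0 ≠ 0) (hdiv : ∀ g ∈ Γ, g / p ∈ Γ)
    {m : ℕ} {Z : ℕ → Ω} (h : TR p v Γ (X 0) m (Z 0)) (hZ : ∀ n, Z (n + 1) ^ p = Z n) (e : ℕ) :
    TR p v Γ (X e) m (Z e) := by
  refine ⟨h.nd, ?_, ?_⟩
  · refine iterateFrobenius_inj Ω p e ?_
    have e1 := root_pow_add hZ 0 e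
    have e2 := root_pow_add hr 0 e
    rw [zero_add] at e1 e2
    rw [iterateFrobenius_def, iterateFrobenius_def, ← pow_mul, mul_comm, pow_mul, e1, e2, h.pow]
  · induction e with
    | zero => exact h.val
    | succ e ih =>
      have h1 := hdiv _ ih
      have h2 : v (Z (e + 1)) = v (Z e) / p := by
        have hp0 : (p : ℝ) ≠ 0 := by exact_mod_cast hp.out.ne_zero
        rw [← hZ e, v.map_pow (root_ne hZ (h.ne hX) (e + 1)), mul_div_cancel_left₀ _ hp0]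
      rwa [h2]

omit [CharP k p] [IsAlgClosed k] [CharP Ω p] in
theorem TR.unshift (hr : ∀ n, X (n + 1) ^ p = X n) (hX : X 0 ≠ 0) {e m : ℕ} {f : Ω}
    (h : TR p v Γ (X e) m f) : TR p v Γ (X 0) m (f ^ p ^ e) := by
  have hf := h.ne (root_ne hr hX e)
  refine ⟨h.nd, ?_, ?_⟩
  · have e2 := root_pow_add hr 0 e
    rw [zero_add] at e2
    rw [← pow_mul, mul_comm, pow_mul, h.pow, e2]
  · rw [v.map_pow hf, ← nsmul_eq_mul]
    exact Γ.nsmul_mem h.val _

omit [CharP k p] [IsAlgClosed k] [CharP Ω p] in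
/-- `WT (X e)` is generated by `WT (X 0)` and `X e`. -/
theorem WT.le_of {A : IntermediateField k Ω} (hA : Cld v A) (hr : ∀ n, X (n + 1) ^ p = X n)
    (hX : X 0 ≠ 0) (h1 : WT k p v Γ (X 0) ≤ A) {e : ℕ} (h2 : X e ∈ A) :
    WT k p v Γ (X e) ≤ A := by
  refine clI_le' (IntermediateField.adjoin_le_iff.2 ?_) hA
  rintro f ⟨m, h3, h4, h5⟩
  have h6 : TR p v Γ (X e) m f := ⟨h3, h4, h5⟩
  have hf := h6.ne (root_ne hr hX e)
  have h7 : f ^ p ^ e ∈ A := h1 (TR.unshift hr hX h6).mem_WT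
  obtain ⟨α, β, hαβ⟩ : ∃ α β : ℤ, α * m + β * (p ^ e : ℕ) = 1 := by
    have h8 : IsCoprime (m : ℤ) ((p ^ e : ℕ) : ℤ) := Nat.isCoprime_iff_coprime.2
      ((Nat.coprime_comm.1 ((hp.out.coprime_iff_not_dvd).2 h3)).pow_right e)
    obtain ⟨α, β, h⟩ := h8
    exact ⟨α, β, h⟩
  have h9 : f = (f ^ m) ^ α * (f ^ p ^ e) ^ β := by
    rw [← zpow_natCast f m, ← zpow_natCast f (p ^ e), ← zpow_mul, ← zpow_mul, ← zpow_add₀ hf,
      show (m : ℤ) * α + (p ^ e : ℕ) * β = 1 by rw [← hαβ]; ring, zpow_one]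
  rw [SetLike.mem_coe, h9, h4]
  exact mul_mem (zpow_mem h2 _) (zpow_mem h7 _)

omit [CharP k p] [IsAlgClosed k] in
theorem WT.mono [IsAlgClosed Ω] (hr : ∀ n, X (n + 1) ^ p = X n) (hX : X 0 ≠ 0)
    (hdiv : ∀ g ∈ Γ, g / p ∈ Γ) (e : ℕ) : WT k p v Γ (X 0) ≤ WT k p v Γ (X e) := by
  refine clI_le' (IntermediateField.adjoin_le_iff.2 ?_) (cld_clI v _)
  rintro f ⟨m, h3, h4, h5⟩
  obtain ⟨Z, rfl, hZ⟩ := exists_rts p f
  have h6 := TR.shift hr hX hdiv ⟨h3, h4, h5⟩ hZ e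
  have e1 := root_pow_add hZ 0 e
  rw [zero_add] at e1
  rw [SetLike.mem_coe, ← e1]
  exact pow_mem h6.mem_WT _

omit [CharP k p] [IsAlgClosed k] in
theorem WT.mono' [IsAlgClosed Ω] (hr : ∀ n, X (n + 1) ^ p = X n) (hX : X 0 ≠ 0)
    (hdiv : ∀ g ∈ Γ, g / p ∈ Γ) {e e' : ℕ} (he : e ≤ e') :
    WT k p v Γ (X e) ≤ WT k p v Γ (X e') := by
  obtain ⟨j, rfl⟩ := Nat.exists_eq_add_of_le he
  exact WT.mono (X := fun n => X (e + n)) (fun n => hr _) (root_ne hr hX _) hdiv j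

omit [CharP k p] [IsAlgClosed k] in
/-- The values of the roots. -/
theorem val_mem_shift (hr : ∀ n, X (n + 1) ^ p = X n) (hX : X 0 ≠ 0) (hΓ : v (X 0) ∈ Γ)
    (hdiv : ∀ g ∈ Γ, g / p ∈ Γ) (e : ℕ) : v (X e) ∈ Γ :=
  (TR.shift hr hX hdiv (TR.refl hΓ) hr e).val

omit [CharP k p] [IsAlgClosed k] in
theorem EW.shift_WT [IsAlgClosed Ω] (hr : ∀ n, X (n + 1) ^ p = X n) (hX : X 0 ≠ 0)
    (hdiv : ∀ g ∈ Γ, g / p ∈ Γ) (e : ℕ) :
    EW v (WT k p v Γ (X e)) (fun n => X (e + n)) = EW v (WT k p v Γ (X 0)) X := by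
  refine le_antisymm (clI_le' (sup_le ?_ (IntermediateField.adjoin_le_iff.2 ?_)) EW.cld)
    (clI_le' (sup_le ((WT.mono hr hX hdiv e).trans EW.le)
      (IntermediateField.adjoin_le_iff.2 ?_)) EW.cld)
  · exact WT.le_of EW.cld hr hX EW.le (EW.mem e)
  · rintro _ ⟨n, rfl⟩
    exact EW.mem (e + n)
  · rintro _ ⟨n, rfl⟩
    rw [SetLike.mem_coe, ← root_pow_add hr n e, add_comm n e]
    exact pow_mem (EW.mem (u := fun n => X (e + n)) n) _

/-- **The isogenies.** -/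
theorem TG.iso [IsAlgClosed Ω] (h0 : Ctx0 k v) (hc : CompleteV v)
    (hr : ∀ n, X (n + 1) ^ p = X n) (hX : X 0 ≠ 0) (hΓ : v (X 0) ∈ Γ)
    (hdiv : ∀ g ∈ Γ, g / p ∈ Γ) (hTG : TG p v C) (hC : C = cadj v (WT k p v Γ (X 0)) y) {e : ℕ}
    (hC' : C' = cadj v (WT k p v Γ (X e)) y') (hy : y - y' ∈ WT k p v Γ (X e)) : TG p v C' := by
  obtain ⟨l, z, hz, hCz⟩ := hTG.exists_root h0 hX hΓ hC
  obtain ⟨Z, rfl, hZ⟩ := exists_rts p z
  have key : ∀ n, TG p v (CP (k := k) v (Z n) y) := by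
    intro n
    induction n with
    | zero =>
      rw [← hCz]
      exact hTG
    | succ n ih => exact ih.root hc (hZ n)
  have hZe := TR.shift hr hX hdiv hz hZ e
  have e1 := root_pow_add hZ 0 e
  rw [zero_add] at e1
  have hZ0 : Z 0 ∈ CP (k := k) v (Z e) y := by
    rw [← e1]
    exact pow_mem (CP_fst _ _) _
  have hCle : C ≤ CP (k := k) v (Z e) y := by
    rw [hCz]
    exact CP_le (CP_cld _ _) hZ0 (CP_snd _ _)
  have hW : WT k p v Γ (X e) ≤ CP (k := k) v (Z e) y := by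
    refine WT.le_of (CP_cld _ _) hr hX (le_trans ?_ hCle) ?_
    · rw [hC]
      exact le_cadj v _ _
    · rw [← hZe.pow]
      exact pow_mem (CP_fst _ _) _
  have h1 : C' = CP (k := k) v (Z e) y := by
    rw [hC']
    refine le_antisymm (TWM.cadj_le (CP_cld _ _) hW ?_) (CP_le (cld_cadj _ _ _)
      (le_cadj _ _ _ hZe.mem_WT) ?_)
    · have h2 := sub_mem (CP_snd (k := k) (v := v) (Z e) y) (hW hy)
      rwa [sub_sub_cancel] at h2
    · have h2 := add_mem (self_mem_cadj v (WT k p v Γ (X e)) y') (le_cadj v _ y' hy)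
      rwa [add_sub_cancel] at h2
  rw [h1]
  exact key e

/-! ### Tight pairs -/

omit hp [CharP k p] [CharP Ω p] [IsAlgClosed k] in
theorem HasTPn.hasTP (h : HasTPn p v C) : HasTP p v C := by
  obtain ⟨x, w, r, s, h1, h2, h3, h4, -⟩ := h 0
  exact ⟨x, w, r, s, h1, h2, h3, h4⟩

/-- `HasTPn` goes down. -/
theorem HasTPn.downX [IsAlgClosed Ω] (h : Ctx k v 1) (hc : CompleteV v) (hC : Cld v C)
    (hM : Cld v M) (hMC : M ≤ C) {n : ℕ} (hCM : ∀ a ∈ C, a ^ p ^ n ∈ M) (ht : HasTPn p v C) :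
    HasTPn p v M := by
  obtain ⟨x, w, r, s, hv, hvr, h1, h2, -⟩ := ht 0
  have hkp : PerfectRing k p := PerfectField.toPerfectRing p
  have hx0 : x 0 ≠ 0 := ne_zero_of_far h1.tgt.root (h1.tgt.dst 0).far
  exact ht.down h.toCtx0 hc (γ := v (x 0)) (ratv_of_ctx h hx0 hv _)
    (pdiv_of_lim h h1.tgt.root hx0 hv hvr h1.lim_x) hC hM hMC hCM

/-- **Radius `0`, `X` tight of level `- b v(X 0)`.** -/
theorem TG.hasTPn [IsAlgClosed Ω] (h0 : Ctx0 k v) (hc : CompleteV v) (hTG : TG p v C) {b : ℕ}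
    (P : PRT p v Γ C X y B) (hT : Tgt p v C X (-(b * v (X 0)))) (hb : ¬ p ∣ b + 1) :
    HasTPn p v C := by
  obtain ⟨m₀, x₀, hx₀, hgen⟩ := hTG.exists_root h0 P.ne P.val P.eq
  have hneg := P.neg
  have hb0 : (0 : ℝ) ≤ b := Nat.cast_nonneg b
  have hvr : v (X 0) < -(b * v (X 0)) := by
    have h1 : (b : ℝ) * v (X 0) ≤ 0 := mul_nonpos_of_nonneg_of_nonpos hb0 hneg.le
    linarith
  obtain ⟨Z, U, l, hz, -, -, hTP, hCP⟩ := cp_pair h0 hc P.root P.ne P.neg P.val P.tl P.eq hT hvr hx₀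
    hgen (D := 1) (fun h => hp.out.one_lt.ne' (Nat.dvd_one.1 h)) (by
      rw [Nat.cast_one, div_one]
      exact P.val)
  have hl := hz.mul_val P.ne
  have hl0 : (0 : ℝ) < l := by exact_mod_cast Nat.pos_of_ne_zero hz.pos
  have hzn : v (Z 0) < 0 := by
    by_contra h
    push Not at h
    have := mul_nonneg hl0.le h
    linarith
  refine fun N => ⟨Z, U, _, 0, hzn.ne, ?_, hTP, hCP, NFb.of_unit (b := ((b + 1) * l : ℕ)) ?_ ?_ rfl⟩
  · linarith
  · intro h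
    have h1 : p ∣ (b + 1) * l := by exact_mod_cast h
    rcases hp.out.dvd_mul.1 h1 with h2 | h2
    · exact hb h2
    · exact hz.nd h2
  · rw [← hl]
    push_cast
    ring

/-- **Irrational radius.** -/
theorem hasTPn_irr [IsAlgClosed Ω] (h : Ctx k v 1) (hc : CompleteV v)
    (hr : ∀ n, X (n + 1) ^ p = X n) (hX : X 0 ≠ 0) (hneg : v (X 0) < 0) (hΓ : v (X 0) ∈ Γ)
    (hdiv : ∀ g ∈ Γ, g / p ∈ Γ) (hTL : TL v (EW v (WT k p v Γ (X 0)) X) y s)
    (hirr : ¬ RatR (v (X 0)) s) (hTG : TG p v (cadj v (WT k p v Γ (X 0)) y))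
    (hvr : v (X 0) < r) {i₀ : ℕ} (hT : ∀ i, i₀ ≤ i →
      Tgt p v (cadj v (WT k p v Γ (X i)) y) (fun n => X (i + n)) (r / p ^ i)) :
    HasTPn p v (cadj v (WT k p v Γ (X 0)) y) := by
  have h0 := h.toCtx0
  have : Fact (Ctx0 k v) := ⟨h0⟩
  have hp0 : (0 : ℝ) < p := by exact_mod_cast hp.out.pos
  have hps : ∀ n : ℕ, (0 : ℝ) < (p : ℝ) ^ n := fun n => pow_pos hp0 n
  have hvi : ∀ i, v (X i) = v (X 0) / p ^ i := val_root hr hX
  have hTGi : ∀ i, TG p v (cadj v (WT k p v Γ (X i)) y) := fun i =>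
    hTG.iso h0 hc hr hX hΓ hdiv rfl rfl (by rw [sub_self]; exact zero_mem _)
  have hEW : ∀ i, EW v (WT k p v Γ (X i)) (fun n => X (i + n)) = EW v (WT k p v Γ (X 0)) X :=
    fun i => EW.shift_WT hr hX hdiv i
  have hlt : ∀ i, v (X i) < r / p ^ i := by
    intro i
    rw [hvi]
    exact (div_lt_div_iff_of_pos_right (hps i)).2 hvr
  have hrat : ∀ g ∈ VG v (EW v (WT k p v Γ (X 0)) X), ∃ n : ℕ, n ≠ 0 ∧ ∃ m : ℤ,
      (n : ℝ) * g = m * v (X 0) := ratv_of_ctx h hX hneg.ne _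
  have hVG : ∀ i, VG v (cadj v (WT k p v Γ (X i)) y) ≤ VG v (EW v (WT k p v Γ (X 0)) X) := by
    intro i
    rw [← VG.imm hTL.imm, ← hEW i]
    exact VG.mono (cadj_mono EW.le y)
  have hmemi : ∀ i, v (X i) ∈ VG v (EW v (WT k p v Γ (X 0)) X) := fun i =>
    VG.self (EW.mem i) (root_ne hr hX i)
  -- the pairs
  have pair : ∀ i, i₀ ≤ i → ∀ c ∈ WT k p v Γ (X i), c ≠ 0 → ∃ (Z U : ℕ → Ω) (l : ℕ),
      TR p v Γ (X i) l (Z 0) ∧ TP p v (cadj v (WT k p v Γ (X i)) y) Z U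
        (r / p ^ i - v (X i) + v (Z 0)) (v c + s) ∧
      cadj v (WT k p v Γ (X i)) y = CP v (Z 0) (U 0) := by
    intro i hi c hcW hc0
    have hcad : cadj v (WT k p v Γ (X i)) (c * y + 0) = cadj v (WT k p v Γ (X i)) y :=
      cadj_affine hcW hc0 (zero_mem _)
    have hXi := root_ne hr hX i
    have hTL' : TL v (EW v (WT k p v Γ (X i)) (fun n => X (i + n))) (c * y + 0) (v c + s) := by
      rw [← hEW i] at hTL
      exact hTL.affine (EW.le hcW) hc0 (zero_mem _)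
    obtain ⟨m₀, x₀, hx₀, hgen⟩ := (hTGi i).exists_root h0 hXi (val_mem_shift hr hX hΓ hdiv i)
      hcad.symm
    obtain ⟨Z, U, l, hz, -, -, hTP, hCP⟩ := cp_pair (X := fun n => X (i + n)) h0 hc
      (fun n => hr _) hXi (by
        show v (X i) < 0
        rw [hvi]
        exact div_neg_of_neg_of_pos hneg (hps i)) (val_mem_shift hr hX hΓ hdiv i) hTL' hcad.symm
      (hT i hi) (hlt i) hx₀ hgen (D := 1) (fun h => hp.out.one_lt.ne' (Nat.dvd_one.1 h)) (by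
        rw [Nat.cast_one, div_one]
        exact val_mem_shift hr hX hΓ hdiv i)
    exact ⟨Z, U, l, hz, hTP, hCP⟩
  -- the descent
  have hdown : ∀ i, HasTPn p v (cadj v (WT k p v Γ (X i)) y) →
      HasTPn p v (cadj v (WT k p v Γ (X 0)) y) := by
    intro i hi
    refine HasTPn.downX h hc (cld_cadj _ _ _) (cld_cadj _ _ _)
      (cadj_mono (WT.mono hr hX hdiv i) y) (n := i) ?_ hi
    have h1 : cadj v (WT k p v Γ (X i)) y ≤
        D2P.rootF p i (cadj v (WT k p v Γ (X 0)) y) := by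
      have hcl := cld_rootFn p i (cld_cadj v (WT k p v Γ (X 0)) y)
      have hle : ∀ A : IntermediateField k Ω, A ≤ D2P.rootF p i A := fun A a ha =>
        D2P.mem_rootF.2 (pow_mem ha _)
      refine TWM.cadj_le hcl (WT.le_of hcl hr hX ((le_cadj v _ _).trans (hle _)) ?_)
        (hle _ (self_mem_cadj v _ _))
      rw [D2P.mem_rootF]
      have e2 := root_pow_add hr 0 i
      rw [zero_add] at e2
      rw [e2]
      exact le_cadj v _ _ (mem_WT hΓ)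
    exact fun a ha => D2P.mem_rootF.1 (h1 ha)
  -- an irrational number
  have hirr' : ∀ g ∈ VG v (EW v (WT k p v Γ (X 0)) X), ∀ D : ℤ, D ≠ 0 → (D : ℝ) * s ≠ g := by
    intro g hg D hD hDg
    obtain ⟨n, hn, m, h1⟩ := hrat g hg
    refine hirr ⟨(n * D).natAbs, Int.natAbs_ne_zero.2 (mul_ne_zero (by exact_mod_cast hn) hD),
      (n * D).sign * m, ?_⟩
    have h2 : (((n * D).natAbs : ℕ) : ℝ) = (((n * D).sign * (n * D) : ℤ) : ℝ) := by
      rw [Int.sign_mul_self_eq_natAbs]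
      simp
    rw [h2]
    push_cast
    rw [mul_assoc, mul_assoc, mul_assoc, ← h1, ← hDg]
  have hzs : ∀ (n : ℤ) {g : ℝ}, g ∈ VG v (EW v (WT k p v Γ (X 0)) X) →
      (n : ℝ) * g ∈ VG v (EW v (WT k p v Γ (X 0)) X) := by
    intro n g hg
    rw [← zsmul_eq_mul]
    exact (VG v (EW v (WT k p v Γ (X 0)) X)).zsmul_mem hg n
  have hdivG : ∀ n : ℕ, ∀ g ∈ VG v (EW v (WT k p v Γ (X 0)) X),
      g / p ^ n ∈ VG v (EW v (WT k p v Γ (X 0)) X) := by
    intro n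
    induction n with
    | zero => exact fun g hg => by rwa [pow_zero, div_one]
    | succ n ih =>
      intro g hg
      rw [pow_succ, ← div_div]
      exact pdiv_of_lim h hr hX hneg.ne (r := 0) hneg
        (fun n => by rw [zero_div]; exact Lim.of_mem (EW.mem n)) _ (ih g hg)
  by_cases hB : ∃ (J : ℤ), ∃ g ∈ VG v (EW v (WT k p v Γ (X 0)) X), r = (p : ℝ) ^ J * (s + g)
  · obtain ⟨J, g, hg, hJ⟩ := hB
    obtain ⟨a, ha, ha0, rfl⟩ := id hg
    obtain ⟨n, c, hc1, h2⟩ := EW.near_adj p hr ha (v a + 1)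
    obtain ⟨hc0, hva⟩ := Gt.val_eq ha0 (Gt.of_ge h2 (by linarith))
    obtain ⟨i, hi⟩ : ∃ i : ℕ, i = max i₀ (max n J.toNat) := ⟨_, rfl⟩
    have hi0 : i₀ ≤ i := by omega
    have hin : n ≤ i := by omega
    obtain ⟨d, hd⟩ : ∃ d : ℕ, (i : ℤ) = J + d := ⟨(i - J).toNat, by omega⟩
    have hcW : c ∈ WT k p v Γ (X i) := by
      refine WT.mono' hr hX hdiv hin ?_
      exact adj_le (WT.mono hr hX hdiv n) (TR.refl (val_mem_shift hr hX hΓ hdiv n)).mem_WT hc1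
    obtain ⟨Z, U, l, hz, hTP, hCP⟩ := pair i hi0 c hcW hc0
    have hl := hz.mul_val (root_ne hr hX i)
    have hl0 : (0 : ℝ) < l := by exact_mod_cast Nat.pos_of_ne_zero hz.pos
    have hXin : v (X i) < 0 := by
      rw [hvi]
      exact div_neg_of_neg_of_pos hneg (hps i)
    have hzn : v (Z 0) < 0 := by
      by_contra h
      push Not at h
      have := mul_nonneg hl0.le h
      linarith
    refine hdown i fun N => ⟨Z, U, _, _, hzn.ne, ?_, hTP, hCP, fun i' j' _ _ hG => ?_⟩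
    · linarith [hlt i]
    obtain ⟨ρ, hρ⟩ : ∃ ρ : ℝ, ρ = r / p ^ i := ⟨_, rfl⟩
    have hs' : v c + s = (p : ℝ) ^ d * ρ := by
      have h3 : (p : ℝ) ^ i = (p : ℝ) ^ J * (p : ℝ) ^ d := by
        rw [← zpow_natCast, hd, zpow_add₀ hp0.ne', zpow_natCast]
      have h4 : (p : ℝ) ^ J ≠ 0 := zpow_ne_zero _ hp0.ne'
      rw [hρ, hJ, h3, hva]
      have := (hps d).ne'
      field_simp
      ring
    rw [← hρ, hs'] at hG ⊢
    refine ⟨l, fun h => hz.nd (by exact_mod_cast h), ?_⟩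
    by_cases hD : ((p : ℤ) ^ (j' + d) - (p : ℤ) ^ i') = 0
    · have h3 : (p : ℝ) ^ (j' + d) - (p : ℝ) ^ i' = 0 := by exact_mod_cast hD
      have h4 : (p : ℝ) ^ j' * ((p : ℝ) ^ d * ρ) - (p : ℝ) ^ i' * (ρ - v (X i) + v (Z 0)) =
          ((p : ℝ) ^ (j' + d) - (p : ℝ) ^ i') * ρ + (p : ℝ) ^ i' * (v (X i) - v (Z 0)) := by
        rw [pow_add]
        ring
      rw [h4, h3, ← hl]
      push_cast
      ring
    · exfalso
      have hZG := hVG i (VG.self (v := v) (a := Z 0) (by rw [hCP]; exact CP_fst _ _)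
        (hz.ne (root_ne hr hX i)))
      have h3 := hVG i hG
      have hcG : v c ∈ VG v (EW v (WT k p v Γ (X 0)) X) := by
        rw [hva]
        exact hg
      refine hirr' _ ?_ _ hD rfl
      have h4 : (((p : ℤ) ^ (j' + d) - (p : ℤ) ^ i' : ℤ) : ℝ) * s =
          (((p : ℤ) ^ d : ℤ) : ℝ) * ((p : ℝ) ^ j' * ((p : ℝ) ^ d * ρ) -
            (p : ℝ) ^ i' * (ρ - v (X i) + v (Z 0)) +
              (((p : ℤ) ^ i' : ℤ) : ℝ) * (v (Z 0) - v (X i))) -
            (((p : ℤ) ^ (j' + d) - (p : ℤ) ^ i' : ℤ) : ℝ) * v c := by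
        have h5 : s = (p : ℝ) ^ d * ρ - v c := by linarith
        rw [h5]
        push_cast
        ring
      rw [h4]
      exact sub_mem (hzs _ (add_mem h3 (hzs _ (sub_mem hZG (hmemi i))))) (hzs _ hcG)
  · push Not at hB
    obtain ⟨Z, U, l, hz, hTP, hCP⟩ := pair i₀ le_rfl 1 (one_mem _) one_ne_zero
    have hl := hz.mul_val (root_ne hr hX i₀)
    have hl0 : (0 : ℝ) < l := by exact_mod_cast Nat.pos_of_ne_zero hz.pos
    have hXin : v (X i₀) < 0 := by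
      rw [hvi]
      exact div_neg_of_neg_of_pos hneg (hps i₀)
    have hzn : v (Z 0) < 0 := by
      by_contra h
      push Not at h
      have := mul_nonneg hl0.le h
      linarith
    refine hdown i₀ fun N => ⟨Z, U, _, _, hzn.ne, ?_, hTP, hCP, NFb.of_none fun i' j' hG => ?_⟩
    · linarith [hlt i₀]
    have hZG := hVG i₀ (VG.self (v := v) (a := Z 0) (by rw [hCP]; exact CP_fst _ _)
      (hz.ne (root_ne hr hX i₀)))
    have h3 := hVG i₀ hG
    rw [v.map_one, zero_add] at h3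
    have h4 := add_mem h3 (hzs ((p : ℤ) ^ i') (sub_mem hZG (hmemi i₀)))
    refine hB ((i₀ : ℤ) - i' + j') _ (neg_mem (hdivG j' _ h4)) ?_
    have h5 : (p : ℝ) ^ ((i₀ : ℤ) - i' + j') = (p : ℝ) ^ i₀ / (p : ℝ) ^ i' * (p : ℝ) ^ j' := by
      rw [zpow_add₀ hp0.ne', zpow_sub₀ hp0.ne', zpow_natCast, zpow_natCast, zpow_natCast]
    rw [h5]
    push_cast
    have h6 := (hps i₀).ne'
    have h7 := (hps i').ne'
    have h8 := (hps j').ne'
    field_simp
    ring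

end

end Pool.Agent.TWF.CPf
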