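import Pool.Agent.Lib.TWF.CPg
import Pool.Agent.Lib.TWC.PWstp

/-!
# TANK W, the first floor over a tame base: the chains of steps

The fields of the chains of steps have two topological generators of bounded distortion.
-/

set_option autoImplicit false

open Polynomial

namespace Pool.Agent.TWF.CPf

open Pool.Agent.H15JM (RVal)
open Pool.Agent.D2 (Ctx0)
open Pool.Agent.TWM
open Pool.Agent.TWC
open Pool.Agent.TWC.PW (WT RS PRT Stp Chn)

universe u

variable {k Ω : Type u} [Field k] [Field Ω] [Algebra k Ω] {v : RVal Ω} {Γ : AddSubgroup ℝ}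
  {p : ℕ} [hp : Fact p.Prime] [CharP k p] [CharP Ω p] [IsAlgClosed k] [IsAlgClosed Ω]
  {C C₁ : IntermediateField k Ω} {X X₁ : ℕ → Ω} {y y₁ : Ω} {b b₁ : ℕ}

/-- One step. -/
theorem TG.stp (h0 : Ctx0 k v) (hc : CompleteV v) (h : Stp p v Γ C X y b C₁ X₁ y₁ b₁)
    (hP : PRT p v Γ C X y (b + 1)) (hTG : TG p v C) : TG p v C₁ := by
  cases h with
  | ren h hb' hP' => exact hTG
  | iso e g hg hg' h1 h2 hP' =>
    exact hTG.iso h0 hc hP.root hP.ne hP.val hP.div hP.eq hP'.eq (by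
      rw [sub_sub_cancel]
      exact hg)
  | tz q q₀ hq hTC hT ht ht1 hy hT' hq₀ hP' => exact hTG

/-- Chains of steps. -/
theorem TG.chn (h0 : Ctx0 k v) (hc : CompleteV v) (h : Chn p v Γ C X y b C₁ X₁ y₁ b₁)
    (hP : PRT p v Γ C X y (b + 1)) (hb : ¬ p ∣ b + 1) (hTG : TG p v C) : TG p v C₁ := by
  induction h with
  | refl C X y b => exact hTG
  | step h h' ih =>
    obtain ⟨-, -, h3, h4⟩ := h.inv hb
    exact ih h3 h4 (hTG.stp h0 hc h hP)

end Pool.Agent.TWF.CPf
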