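import Pool.Agent.Lib.TWF.FF4
import Pool.Agent.Lib.TWC.PairWw

/-!
# TANK W, the first floor, row (Ra)

`C` closed, `(x, y)` orthogonal in `C` up to a constant, `A` the algebraic closure of `k(x)` in `C`,
`WX v C x` the closure of `A`, `X n` the roots of `x`:

* `WX.roots`: the roots of order `p` of the elements of `WX` are polynomials in `X 1`;
* `ex_eq`: the closure `EX` of the perfect closure of `A` is the closure of `WX(X 0, X 1, ..)`;
* `FF.ew_eq`: `C EX = EX<y>`;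
* `tgt_of_vg`: `v x / p` is not a value of `W`: `x` is tight in `W`, of level `v x`;
* **`FInf.tp_of_slack`**: `x` tight in `WX` of level `q`, and in `C` of level `r > q`: `y - n`,
  `n ∈ WX`, is the second element of a tight pair of `C`, and `C = WX<y - n>`.
-/

set_option autoImplicit false

open Polynomial

namespace Pool.Agent.TWF

open Pool.Agent.H15JM (RVal)
open Pool.Agent.LU1 (VPos adj)
open Pool.Agent.D2 (Ctx0)
open Pool.Agent.D2P (hen clI mem_clI mem_adj_self adj_le)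
open Pool.Agent.TWM
open Pool.Agent.TWS (VG)
open Pool.Agent.TWC

universe u

variable {k Ω : Type u} [Field k] [Field Ω] [Algebra k Ω] {v : RVal Ω}
  {A C W : IntermediateField k Ω} {x y : Ω} {c₀ s r q : ℝ} {X : ℕ → Ω}

/-- The closure of the algebraic closure of `k(x)` in `C`. -/
noncomputable def WX (v : RVal Ω) (C : IntermediateField k Ω) (x : Ω) : IntermediateField k Ω :=
  clI v (algIn C (adj ⊥ x))

theorem WX.le (hC : Cld v C) : WX v C x ≤ C :=
  clI_le' (fun _ ha => (mem_algIn.1 ha).1) hC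

theorem WX.cld : Cld v (WX v C x) := cld_clI v _

theorem mem_algIn_self (hx : x ∈ C) : x ∈ algIn C (adj (⊥ : IntermediateField k Ω) x) :=
  mem_algIn.2 ⟨hx, isAlgebraic_algebraMap (⟨x, (mem_adj_self _ x).1⟩ : adj (⊥ : IntermediateField k Ω) x)⟩

theorem WX.mem (hx : x ∈ C) : x ∈ WX v C x := self_le_clI v _ (mem_algIn_self hx)

/-- The elements of `A(t)`, `t` algebraic, are polynomials in `t`. -/
theorem exists_eval_of_mem_adj {t b : Ω} (ht : IsAlgebraic A t) (hb : b ∈ adj A t) :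
    ∃ Q ∈ PI A, Q.eval t = b := by
  rw [adj_eq_restrict] at hb
  have h1 : b ∈ (IntermediateField.adjoin A {t}).toSubalgebra := hb
  rw [IntermediateField.adjoin_simple_toSubalgebra_of_isAlgebraic ht,
    Algebra.adjoin_singleton_eq_range_aeval] at h1
  obtain ⟨P, hP⟩ := h1
  refine ⟨P.map (algebraMap A Ω), fun i => ?_, ?_⟩
  · rw [coeff_map]
    exact (P.coeff i).2
  · rw [eval_map_algebraMap]
    exact hP

variable (p : ℕ) [hp : Fact p.Prime] [CharP k p] [CharP Ω p] [IsAlgClosed k] [IsAlgClosed Ω]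

/-- **The roots of the elements of `WX`.** -/
theorem WX.roots (h0 : Ctx0 k v) (hc : CompleteV v) (hO : OI p v C ![x, y] c₀) (hx0 : x ≠ 0)
    (hx : v x ≠ 0) (hxC : x ∈ C) {t : Ω} (ht : t ^ p = x) :
    ∀ a ∈ WX v C x, ∃ Q ∈ PI (WX v C x), (Q.eval t) ^ p = a := by
  intro a ha
  have hp0 : (0 : ℝ) < p := by exact_mod_cast hp.out.pos
  obtain ⟨b, hb⟩ := IsAlgClosed.exists_pow_nat_eq a hp.out.pos
  have htW : t ^ p ∈ WX v C x := by
    rw [ht]
    exact WX.mem hxC
  have htA : t ^ p ∈ algIn C (adj (⊥ : IntermediateField k Ω) x) := by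
    rw [ht]
    exact mem_algIn_self hxC
  have h1 : b ∈ clI v (adj (algIn C (adj ⊥ x)) t) := by
    rw [mem_clI]
    intro c
    obtain ⟨a', ha', h2⟩ := mem_clI.1 ha (p * c)
    obtain ⟨al, hal, h3⟩ := W_dig p h0 hO hx0 hx hxC ha'
    refine ⟨∑ i : Fin p, al i * t ^ (i : ℕ), sum_mem fun i _ =>
      mul_mem ((mem_adj_self _ _).2 (hal i)) (pow_mem (mem_adj_self _ _).1 _), ?_⟩
    have h4 : (∑ i : Fin p, al i * t ^ (i : ℕ)) ^ p = a' := by
      rw [sum_pow_char, h3]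
      refine Finset.sum_congr rfl fun i _ => ?_
      rw [mul_pow, ← pow_mul, mul_comm (i : ℕ), pow_mul, ht]
    have h5 : v.Ge (p * c) ((b - ∑ i : Fin p, al i * t ^ (i : ℕ)) ^ p) := by
      rw [sub_pow_char, h4, hb]
      exact h2
    exact (ge_pow_iff hp.out.pos).1 h5
  have h2 : b ∈ adj (WX v C x) t := by
    refine cld_adj_pow hc WX.cld htW (clI_mono' ?_ h1)
    exact adj_le ((self_le_clI v _).trans (mem_adj_self _ _).2) (mem_adj_self _ _).1
  obtain ⟨Q, hQ, h3⟩ := exists_eval_of_mem_adj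
    (IsAlgebraic.of_pow hp.out.pos (isAlgebraic_algebraMap (⟨_, htW⟩ : WX v C x))) h2
  exact ⟨Q, hQ, by rw [h3, hb]⟩

/-- **The closure of the perfect closure.** -/
theorem ex_eq (h0 : Ctx0 k v) (hc : CompleteV v) (hO : OI p v C ![x, y] c₀) (hx0 : x ≠ 0)
    (hx : v x ≠ 0) (hxC : x ∈ C) (hX0 : X 0 = x) (hX : ∀ n, X (n + 1) ^ p = X n) :
    EX p v C x = EW v (WX v C x) X := by
  refine le_antisymm (clI_le' ?_ EW.cld) (clI_le' (sup_le (clI_mono' (le_perfC p _))
    (IntermediateField.adjoin_le_iff.2 ?_)) (cld_clI v _))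
  · intro a ha
    obtain ⟨n, hn⟩ := (mem_perfC p).1 ha
    have hX1 : X 1 ^ p = x := by rw [← hX0, ← hX 0]
    obtain ⟨Q, hQ, h1⟩ := rts_poly hX (WX.roots p h0 hc hO hx0 hx hxC hX1) n _
      (self_le_clI v _ hn)
    have h2 : Q.eval (X n) = a := iterateFrobenius_inj Ω p n (by
      rw [iterateFrobenius_def, iterateFrobenius_def]
      exact h1)
    rw [← h2]
    exact TWM.eval_mem (PI_mono EW.le hQ) (EW.mem n)
  · rintro _ ⟨n, rfl⟩
    refine self_le_clI v _ ((mem_perfC p).2 ⟨n, ?_⟩)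
    have h1 := EW.pow_pow p hX 0 n
    rw [zero_add] at h1
    rw [h1, hX0]
    exact mem_algIn_self hxC

omit hp [IsAlgClosed k] [CharP k p] [CharP Ω p] in
/-- `C EX = EX<y>`. -/
theorem cp_ew_eq (hC : C = CP v x y) (hWC : W ≤ C) (hxW : x ∈ W) :
    EW v C X = cadj v (EW v W X) y := by
  have hyC : y ∈ C := by
    rw [hC]
    exact self_mem_cadj v _ _
  refine le_antisymm (clI_le' (sup_le ?_ (IntermediateField.adjoin_le_iff.2 ?_))
    (cld_cadj v _ _)) (TWM.cadj_le EW.cld (EW.mono hWC X) (EW.le hyC))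
  · rw [hC, CP]
    refine TWM.cadj_le (cld_cadj v _ _) ?_ (self_mem_cadj v _ _)
    exact (TWM.cadj_le EW.cld bot_le (EW.le hxW)).trans (le_cadj v _ _)
  · rintro _ ⟨n, rfl⟩
    exact le_cadj v _ _ (EW.mem n)

omit [IsAlgClosed k] in
/-- `v x / p` is not a value of `W`: `x` is tight in `W`, of level `v x`. -/
theorem tgt_of_vg (hW : Cld v W) (hX : ∀ n, X (n + 1) ^ p = X n) (hx : X 0 ≠ 0)
    (hx0 : X 0 ∈ W) (hV : v (X 0) / p ∉ VG v W) : Tgt p v W X (v (X 0)) where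
  cld := hW
  mem := hx0
  root := hX
  dst n := by
    have hxn : X (n + 1) ≠ 0 := root_ne_zero hX hx (n + 1)
    have hvn : v (X (n + 1)) = v (X 0) / p ^ (n + 1) := val_rt hX hx (n + 1)
    refine ⟨?_, fun ε hε => ⟨0, zero_mem _, ?_⟩⟩
    · rintro ⟨a, ha, h1⟩
      obtain ⟨ha0, hva⟩ := Gt.val_eq hxn (by rw [hvn]; exact h1)
      refine hV ⟨a ^ p ^ n, pow_mem ha _, pow_ne_zero _ ha0, ?_⟩
      rw [v.map_pow ha0, hva, hvn]
      push_cast
      have hp0 : (0 : ℝ) < p := by exact_mod_cast hp.out.pos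
      rw [pow_succ]
      field_simp
    · rw [sub_zero]
      exact RVal.Ge.of_le (by rw [hvn]; linarith)

omit [IsAlgClosed k] [IsAlgClosed Ω] [CharP k p] [CharP Ω p] in
theorem val_le_of_tgt (hT : Tgt p v W X q) (hx : X 0 ≠ 0) : v (X 0) ≤ q := by
  by_contra hlt
  push Not at hlt
  have hp0 : (0 : ℝ) < p := by exact_mod_cast hp.out.pos
  refine (hT.dst 0).far ⟨0, zero_mem _, fun _ => ?_⟩
  rw [sub_zero, zero_add, val_rt hT.root hx 1]
  exact div_lt_div_of_pos_right hlt (pow_pos hp0 1)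

/-- **(Ra), positive slack.** -/
theorem FInf.tp_of_slack (h0 : Ctx0 k v) (hc : CompleteV v)
    (h : FInf p v C x y s c₀) (hX0 : X 0 = x) (hT : Tgt p v C X r)
    (hTW : Tgt p v (WX v C x) X q) (hqr : q < r) :
    ∃ u : ℕ → Ω, y - u 0 ∈ WX v C x ∧ TP p v C X u r s ∧ TL v (EX p v C x) (u 0) s ∧
      EW v C X = cadj v (EX p v C x) (u 0) ∧ C = cadj v (WX v C x) (u 0) := by
  have hxC : x ∈ C := hX0 ▸ hT.mem
  have hX := hT.root
  have hX1 : X 1 ^ p = x := by rw [← hX0, ← hX 0]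
  have hE := ex_eq p h0 hc h.oi h.x0 h.vx hxC hX0 hX
  have hvq : v (X 0) ≤ q := val_le_of_tgt p hTW (by rw [hX0]; exact h.x0)
  have hyC : y ∈ C := by
    rw [h.eq]
    exact self_mem_cadj v _ _
  rw [hE]
  exact exists_pairS h0 hc hT (by rw [hX0]; exact h.x0) (hvq.trans_lt hqr) (WX.le hT.cld)
    hTW hqr (WX.roots p h0 hc h.oi h.x0 h.vx hxC hX1) hyC (by rw [← hE]; exact h.tl)
    (cp_ew_eq h.eq (WX.le hT.cld) (WX.mem hxC))

end Pool.Agent.TWF
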