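import Pool.Agent.Lib.TWF.CPg
import Pool.Agent.Lib.TWF.Ra
import Pool.Agent.Lib.TWCT.TamP

/-!
# TANK W, the first floor: tame bases

`C` is closed, `x ∈ C`, `W = WX v C x` the closure of the algebraic closure of `k(x)` in `C`.

* `exists_tame`: if `v x / p` is not a value of `W`, the elements of `C` algebraic over `k(x)` are in
  the closures of the fields `k(z)`, `z` a tame root of `x`;
* **`WX_eq_WT`**: then `W` is the closure of the field of the tame roots.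
-/

set_option autoImplicit false

open Polynomial

namespace Pool.Agent.TWF.CPf

open Pool.Agent.H15JM (RVal)
open Pool.Agent.LU1 (VPos adj)
open Pool.Agent.D2 (Ctx0)
open Pool.Agent.D2P (clI mem_clI mem_adj_self adj_le)
open Pool.Agent.TWA (kd)
open Pool.Agent.TWM
open Pool.Agent.TWS (VG)
open Pool.Agent.TWC
open Pool.Agent.TWC.PW (WT)

universe u

variable {k Ω : Type u} [Field k] [Field Ω] [Algebra k Ω] {v : RVal Ω}
  {C : IntermediateField k Ω} {x z ϖ w : Ω}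

theorem cadj_bot_inv' (a : Ω) : cadj v (⊥ : IntermediateField k Ω) a⁻¹ =
    cadj v (⊥ : IntermediateField k Ω) a := by
  rw [cadj, cadj, adj_inv]

/-- An element with the value of `ϖ` generates the same closed field. -/
theorem cadj_le_of_val (h : Ctx0 k v) (hϖ0 : ϖ ≠ 0) (hϖ : 0 < v ϖ)
    (hz : z ∈ cadj v (⊥ : IntermediateField k Ω) ϖ) (hz0 : z ≠ 0) (hv : v z = v ϖ) :
    cadj v (⊥ : IntermediateField k Ω) ϖ ≤ cadj v (⊥ : IntermediateField k Ω) z := by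
  have hle : kd k z ≤ cadj v (⊥ : IntermediateField k Ω) ϖ := by
    rw [IntermediateField.adjoin_simple_le_iff]
    exact hz
  set M : IntermediateField (kd k z) Ω := IntermediateField.extendScalars hle with hM
  have hmem : ∀ a, a ∈ M ↔ a ∈ cadj v (⊥ : IntermediateField k Ω) ϖ := fun a => Iff.rfl
  have hmin : ∀ f ∈ M, f ≠ 0 → 0 < v f → v z ≤ v f := by
    intro f hf hf0 hfv
    have hf' : f ∈ cadj v (⊥ : IntermediateField k Ω) ϖ⁻¹ := by
      rw [cadj_bot_inv']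
      exact (hmem f).1 hf
    obtain ⟨m, h1⟩ := val_bot h (inv_ne_zero hϖ0) (by rw [v.map_inv hϖ0]; linarith) hf' hf0
    rw [v.map_inv hϖ0] at h1
    have h2 : (0 : ℝ) < -m := by
      by_contra h3
      push Not at h3
      have := mul_nonneg (neg_nonneg.2 h3) hϖ.le
      linarith
    have h4 : (1 : ℝ) ≤ -m := by
      have : (0 : ℤ) < -m := by exact_mod_cast h2
      exact_mod_cast this
    rw [hv, h1]
    have := mul_le_mul_of_nonneg_right h4 hϖ.le
    linarith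
  have hzv : 0 < v z := by rw [hv]; exact hϖ
  have hpos : ∀ f ∈ M, v.Ge 0 f → f ∈ cadj v (⊥ : IntermediateField k Ω) z := by
    intro f hf hf0
    obtain ⟨F, hF⟩ := TWA.exists_expansion h M ((hmem z).2 hz) hz0 hmin hf hf0
    refine mem_clI.2 fun b => ?_
    obtain ⟨n, hn⟩ := exists_nat_gt (b / v z)
    refine ⟨aeval z (PowerSeries.trunc n F), ?_, (hF n).mono ?_⟩
    · have h1 : z ∈ adj (⊥ : IntermediateField k Ω) z := (mem_adj_self _ z).1
      rw [aeval_eq_sum_range]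
      exact sum_mem fun i _ => IntermediateField.smul_mem _ (pow_mem h1 i)
    · rw [div_lt_iff₀ hzv] at hn
      exact hn.le
  intro f hf
  have hzc : z ∈ cadj v (⊥ : IntermediateField k Ω) z := self_mem_cadj _ _ _
  by_cases hf0 : f = 0
  · rw [hf0]
    exact zero_mem _
  obtain ⟨n, hn⟩ := exists_nat_gt (- v f / v z)
  have h1 : v.Ge 0 (f * z ^ n) := fun h2 => by
    rw [v.map_mul hf0 (pow_ne_zero _ hz0), v.map_pow hz0]
    rw [div_lt_iff₀ hzv] at hn
    linarith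
  have h2 := hpos _ (mul_mem ((hmem f).2 hf) (pow_mem ((hmem z).2 hz) n)) h1
  have h3 : f = f * z ^ n / z ^ n := by
    rw [mul_div_assoc, div_self (pow_ne_zero _ hz0), mul_one]
  rw [h3]
  exact div_mem h2 (pow_mem hzc n)

section

variable {p : ℕ} [hp : Fact p.Prime] [CharP k p] [IsAlgClosed k] [IsAlgClosed Ω]

/-- **The algebraic elements**, over a tame base. -/
theorem exists_tame (h : Ctx0 k v) (hx : x ∈ C) (hx0 : x ≠ 0) (hneg : v x < 0)
    (hV : v x / p ∉ VG v (WX v C x)) (hw : w ∈ algIn C (adj (⊥ : IntermediateField k Ω) x)) :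
    ∃ (l : ℕ) (z : Ω), TR p v (VG v C) x l z ∧ w ∈ cadj v (⊥ : IntermediateField k Ω) z := by
  have hp0 : (p : ℝ) ≠ 0 := by exact_mod_cast hp.out.ne_zero
  obtain ⟨ϖ, hϖ, hϖ0, hϖv, -, hle⟩ := disc_cl' h hx0 hneg.ne (mem_algIn.1 hw).2
  have hle' : adj (adj (⊥ : IntermediateField k Ω) x) w ≤ algIn C (adj ⊥ x) :=
    adj_le (adj_le bot_le (mem_algIn_self hx)) hw
  have hϖA := hle' hϖ
  have hϖC : ϖ ∈ C := (mem_algIn.1 hϖA).1
  have hxK : x ∈ cadj v (⊥ : IntermediateField k Ω) ϖ :=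
    hle ((mem_adj_self _ w).2 (mem_adj_self _ x).1)
  have hxK' : x ∈ cadj v (⊥ : IntermediateField k Ω) ϖ⁻¹ := by rwa [cadj_bot_inv']
  obtain ⟨m, hm⟩ := val_bot h (inv_ne_zero hϖ0) (by rw [v.map_inv hϖ0]; linarith) hxK' hx0
  rw [v.map_inv hϖ0] at hm
  have hm0 : 0 < m := by
    have h1 : (0 : ℝ) < m := by
      by_contra h3
      push Not at h3
      have := mul_nonneg (neg_nonneg.2 h3) hϖv.le
      linarith
    exact_mod_cast h1
  obtain ⟨l, rfl⟩ : ∃ l : ℕ, m = l := ⟨m.toNat, by omega⟩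
  rw [Int.cast_natCast] at hm
  have hl0 : l ≠ 0 := by omega
  have hlR : (l : ℝ) ≠ 0 := by exact_mod_cast hl0
  have hnd : ¬ p ∣ l := by
    rintro ⟨l', rfl⟩
    refine hV ⟨ϖ⁻¹ ^ l', pow_mem (inv_mem (self_le_clI v _ hϖA)) l',
      pow_ne_zero _ (inv_ne_zero hϖ0), ?_⟩
    rw [v.map_pow (inv_ne_zero hϖ0), v.map_inv hϖ0, hm]
    push_cast
    field_simp
  obtain ⟨z, hz⟩ := IsAlgClosed.exists_pow_nat_eq x (Nat.pos_of_ne_zero hl0)
  have hz0 : z ≠ 0 := by
    rintro rfl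
    rw [zero_pow hl0] at hz
    exact hx0 hz.symm
  have hzv : v z = -v ϖ := by
    have h1 : (l : ℝ) * v z = l * -v ϖ := by rw [← hm, ← hz, v.map_pow hz0]
    exact mul_left_cancel₀ hlR h1
  have hzϖ : v z⁻¹ = v ϖ := by rw [v.map_inv hz0, hzv, neg_neg]
  have hzK : z ∈ cadj v (⊥ : IntermediateField k Ω) ϖ :=
    TWTam.root_mem h (cld_cadj _ _ _) hxK ⟨hz0, l, hnd, 1, by rw [zpow_one, hz]⟩
      ⟨ϖ⁻¹, inv_mem (self_mem_cadj _ _ _), inv_ne_zero hϖ0, by rw [v.map_inv hϖ0, hzv]⟩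
  have hle2 := cadj_le_of_val h hϖ0 hϖv (inv_mem hzK) (inv_ne_zero hz0) hzϖ
  rw [cadj_bot_inv'] at hle2
  refine ⟨l, z, ⟨hnd, hz, ϖ⁻¹, inv_mem hϖC, inv_ne_zero hϖ0, by rw [v.map_inv hϖ0, hzv]⟩,
    hle2 (hle ((mem_adj_self _ w).1))⟩

/-- **Tame bases.** -/
theorem WX_eq_WT (h : Ctx0 k v) (hC : Cld v C) (hx : x ∈ C) (hx0 : x ≠ 0) (hneg : v x < 0)
    (hV : v x / p ∉ VG v (WX v C x)) : WX v C x = WT k p v (VG v C) x := by
  refine le_antisymm (clI_le' (fun w hw => ?_) (cld_clI v _)) (clI_mono' ?_)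
  · obtain ⟨l, z, h1, h2⟩ := exists_tame h hx hx0 hneg hV hw
    exact TWM.cadj_le (cld_clI v _) bot_le h1.mem_WT h2
  · rw [IntermediateField.adjoin_le_iff]
    rintro f ⟨m, h1, h2, a, ha, ha0, h3⟩
    have h4 : TR p v (VG v C) x m f := ⟨h1, h2, a, ha, ha0, h3⟩
    have hf0 := h4.ne hx0
    refine mem_algIn.2 ⟨TWTam.root_mem h hC hx ⟨hf0, m, h1, 1, by rw [zpow_one, h2]⟩
      ⟨a, ha, ha0, h3⟩, IsAlgebraic.of_pow (Nat.pos_of_ne_zero h4.pos) ?_⟩
    rw [h2]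
    exact isAlgebraic_algebraMap
      (⟨x, (mem_adj_self _ x).1⟩ : adj (⊥ : IntermediateField k Ω) x)

end

end Pool.Agent.TWF.CPf
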