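import Pool.Agent.Lib.TWF.Ra
import Pool.Agent.Lib.TWEX.Flo
import Pool.Agent.Lib.TWC.PairWt
import Pool.Agent.Lib.TWCT.Alt2

/-!
# TANK W, the infinite first floor: the field `W`, and the alternatives

`FInf p v C x y s c₀` (`FF4`): `C` is the closure of `k(x, y)`, with an infinite first floor.

* `WX v C x` (`Ra`): the closure of the algebraic closure `W` of `k(x)` in `C`; `C = W<y>`; `x` is a
  `p`-basis of `W` (`FF.pb`), the `p`-th roots of the elements of `W` are polynomials in `x ^ (1 / p)`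
  (`FF.root`), `EX` is the closure of `W(x ^ (1 / p ^ n), n ≥ 0)` (`FF.ex_eq`);
* `StrW`: the jets of `y` over `W` are strict; `FInf.dich`: `StrW`, or the first jet of `y` over
  some `W ^ (1 / p ^ i)` has the maximal norm; `FInf.sfl`: `StrW` gives a strict floor over `W`.
-/

set_option autoImplicit false

open Polynomial

namespace Pool.Agent.TWF

open Pool.Agent.H15JM (RVal)
open Pool.Agent.LU1 (VPos adj)
open Pool.Agent.D2 (Ctx0)
open Pool.Agent.D2P (hen clI mem_clI mem_adj_self rootF mem_rootF)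
open Pool.Agent.TW (Full BD PBasis Orth LU Fr Ctx pcomb mon)
open Pool.Agent.TWM
open Pool.Agent.TWS (VG TowR SphC)
open Pool.Agent.TWC (CP EW Sd TP NBX Tgt)

universe u

variable {k Ω : Type u} [Field k] [Field Ω] [Algebra k Ω] {v : RVal Ω}
  {A C W : IntermediateField k Ω} {x y : Ω} {s c₀ : ℝ}

theorem cld_WX (v : RVal Ω) (C : IntermediateField k Ω) (x : Ω) : Cld v (WX v C x) := cld_clI v _

theorem WX_le (hC : Cld v C) : WX v C x ≤ C := TWC.clI_le' inf_le_left hC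

theorem algIn_le_WX : algIn C (adj ⊥ x) ≤ WX v C x := TWM.le_clI _

theorem mem_WX (hx : x ∈ C) : x ∈ WX v C x :=
  TWM.le_clI _ (mem_algIn.2 ⟨hx, isAlgebraic_algebraMap
    (⟨x, (mem_adj_self _ _).1⟩ : adj (⊥ : IntermediateField k Ω) x)⟩)

/-- The jets of `y` over `W` are strict. -/
def StrW (v : RVal Ω) (W : IntermediateField k Ω) (y : Ω) (s : ℝ) : Prop :=
  ∀ l, 1 ≤ l → Sd v W y l (l * s)

section PC

variable (p : ℕ) [hp : Fact p.Prime] [CharP Ω p]

theorem perfC_clI_le [IsAlgClosed Ω] (A : IntermediateField k Ω) :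
    perfC p (clI v A) ≤ clI v (perfC p A) := by
  intro a ha
  obtain ⟨n, hn⟩ := (mem_perfC p).1 ha
  rw [mem_clI]
  intro b
  obtain ⟨c, hc, h1⟩ := mem_clI.1 hn ((p ^ n : ℕ) * b)
  obtain ⟨d, hd⟩ := IsAlgClosed.exists_pow_nat_eq c (pow_pos hp.out.pos n)
  refine ⟨d, (mem_perfC p).2 ⟨n, hd ▸ hc⟩, ?_⟩
  refine (TWC.ge_pow_iff (v := v) (pow_pos hp.out.pos n)).1 ?_
  rw [sub_pow_char_pow, hd]
  exact h1

theorem root_le_perfC (i : ℕ) (A : IntermediateField k Ω) : rootF p i A ≤ perfC p A :=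
  fun _ ha => (mem_perfC p).2 ⟨i, mem_rootF.1 ha⟩

theorem root_le_EX [IsAlgClosed Ω] (i : ℕ) : rootF p i (WX v C x) ≤ EX p v C x :=
  (root_le_perfC p i _).trans (perfC_clI_le p _)

theorem WX_le_EX : WX v C x ≤ EX p v C x := TWC.clI_mono' (le_perfC p _)

end PC

section Facts

variable {p : ℕ} [hp : Fact p.Prime] [CharP Ω p]

omit hp [CharP Ω p] in
theorem FF.cld (h : FF p v C x y c₀) : Cld v C := by
  rw [h.eq]
  exact cld_cadj v _ _

omit hp [CharP Ω p] in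
theorem FF.mem_x (h : FF p v C x y c₀) : x ∈ C := by
  rw [h.eq]
  exact le_cadj v _ _ (self_mem_cadj v _ _)

omit hp [CharP Ω p] in
theorem FF.mem_y (h : FF p v C x y c₀) : y ∈ C := by
  rw [h.eq]
  exact self_mem_cadj v _ _

omit hp [CharP Ω p] in
theorem FF.xW (h : FF p v C x y c₀) : x ∈ WX v C x := mem_WX h.mem_x

omit hp [CharP Ω p] in
/-- `C = W<y>`. -/
theorem FF.eq_W (h : FF p v C x y c₀) : C = cadj v (WX v C x) y := by
  refine le_antisymm ?_ (TWM.cadj_le h.cld (WX_le h.cld) h.mem_y)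
  nth_rw 1 [h.eq]
  refine TWM.cadj_le (cld_cadj v _ _) ?_ (self_mem_cadj v _ _)
  exact TWM.cadj_le (cld_cadj v _ _) bot_le (le_cadj v _ _ h.xW)

theorem FInf.far [IsAlgClosed Ω] (h : FInf p v C x y s c₀) {θ : Ω}
    (hθ : IsAlgebraic (WX v C x) θ) : y ≠ θ ∧ v (y - θ) < s :=
  h.tl.far θ (D2P.isAlgebraic_mono (WX_le_EX p) hθ)

/-- The elements of `EX` are limits of the roots of the elements of `W`. -/
theorem near_EX {e : Ω} (he : e ∈ EX p v C x) (b : ℝ) :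
    ∃ (j : ℕ) (a : Ω), a ^ p ^ j ∈ WX v C x ∧ v.Ge b (e - a) := by
  obtain ⟨a, ha, h1⟩ := mem_clI.1 he b
  obtain ⟨j, hj⟩ := (mem_perfC p).1 ha
  exact ⟨j, a, algIn_le_WX hj, h1⟩

theorem FInf.lim (h : FInf p v C x y s c₀) {ε : ℝ} (hε : 0 < ε) :
    ∃ (j : ℕ) (a : Ω), a ^ p ^ j ∈ WX v C x ∧ v.Ge (s - ε) (y - a) := by
  obtain ⟨e, he, h1⟩ := h.tl.lim ε hε
  obtain ⟨j, a, ha, h2⟩ := near_EX he (s - ε)
  refine ⟨j, a, ha, ?_⟩
  have e1 : y - a = (y - e) + (e - a) := by ring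
  rw [e1]
  exact h1.add h2

omit [CharP Ω p] in
/-- The powers of `x` are orthogonal over `C ^ p`. -/
theorem FF.oi1 (h : FF p v C x y c₀) : OI p v C ![x] c₀ := by
  intro c hc b hb α
  rw [pcomb_one] at hb
  have h1 := oi_x h.oi (fun i => hc ![i]) hb (α 0)
  have h2 : α = ![α 0] := by
    funext j
    fin_cases j
    rfl
  have h3 : mon (p := p) ![x] α = x ^ (α 0 : ℕ) := by
    rw [mon, Fin.prod_univ_one]
    rfl
  rw [h3]
  rwa [← h2] at h1

/-- `x` is a `p`-basis of `W`. -/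
theorem FF.pb [CharP k p] [IsAlgClosed k] (h0 : Ctx0 k v) (hc : CompleteV v)
    (h : FF p v C x y c₀) : PBasis p (WX v C x) ![x] :=
  pbasis_clI hc (pb_W p h0 h.oi h.x0 h.vx h.mem_x).2
    (h.oi1.mono (WX_le h.cld) le_rfl)

/-- The `p`-th roots of the elements of `W` are polynomials in `x ^ (1 / p)`. -/
theorem FF.root [CharP k p] [IsAlgClosed k] (h0 : Ctx0 k v) (hc : CompleteV v)
    (h : FF p v C x y c₀) {t : Ω} (ht : t ^ p = x) :
    ∀ a ∈ WX v C x, ∃ Q ∈ PI (WX v C x), (Q.eval t) ^ p = a := by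
  intro a ha
  obtain ⟨c, hcm, h1⟩ := (h.pb h0 hc).span a ha
  rw [pcomb_one] at h1
  refine ⟨∑ i : Fin p, Polynomial.C (c ![i]) * X ^ (i : ℕ),
    sum_mem fun i _ => mul_mem (C_mem_PI (hcm _)) (pow_mem X_mem_PI _), ?_⟩
  rw [eval_finsetSum, sum_pow_char, h1]
  refine Finset.sum_congr rfl fun i _ => ?_
  rw [eval_mul, eval_C, eval_pow, eval_X, mul_pow, ← pow_mul, mul_comm (i : ℕ) p, pow_mul, ht]

/-- `EX` is the closure of `W(x, x ^ (1 / p), ..)`. -/
theorem FF.ex_eq [CharP k p] [IsAlgClosed k] [IsAlgClosed Ω] (h0 : Ctx0 k v) (hc : CompleteV v)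
    (h : FF p v C x y c₀) {t : ℕ → Ω} (ht0 : t 0 = x) (ht : ∀ n, t (n + 1) ^ p = t n) :
    EX p v C x = EW v (WX v C x) t := by
  have hroot := h.root h0 hc (t := t 1) (by rw [ht 0, ht0])
  refine le_antisymm ?_ ?_
  · refine TWC.clI_le' (fun a ha => ?_) (cld_clI v _)
    obtain ⟨n, hn⟩ := (mem_perfC p).1 ha
    obtain ⟨Q, hQ, h1⟩ := TWC.rts_poly ht hroot n _ (algIn_le_WX (v := v) hn)
    have h2 : Q.eval (t n) = a := by
      have h3 : (Q.eval (t n) - a) ^ p ^ n = 0 := by rw [sub_pow_char_pow, h1, sub_self]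
      exact sub_eq_zero.1 (pow_eq_zero_iff (pow_ne_zero n hp.out.ne_zero) |>.1 h3)
    rw [← h2]
    exact TWM.eval_mem (PI_mono TWC.EW.le hQ) (TWC.EW.mem n)
  · refine TWC.clI_le' (sup_le (WX_le_EX p) ?_) (cld_clI v _)
    rw [IntermediateField.adjoin_le_iff]
    rintro _ ⟨n, rfl⟩
    refine root_le_EX p n (mem_rootF.2 ?_)
    have h1 : t n ^ p ^ n = t 0 := by
      have := TWC.root_pow_add ht 0 n
      rwa [zero_add] at this
    rw [h1, ht0]
    exact h.xW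

omit hp [CharP Ω p] in
/-- `C E = E<y>`. -/
theorem FF.ew (h : FF p v C x y c₀) (t : ℕ → Ω) :
    EW v C t = cadj v (EW v (WX v C x) t) y := by
  nth_rw 1 [h.eq_W]
  exact TWC.EW.cadj _ t y

/-- **The dichotomy.** -/
theorem FInf.dich [CharP k p] [IsAlgClosed Ω] (h0 : Ctx0 k v) (h : FInf p v C x y s c₀) :
    StrW v (WX v C x) y s ∨ ∃ i, ¬ Sd v (rootF p i (WX v C x)) y 1 s := by
  by_cases h1 : ∀ i, Sd v (rootF p i (WX v C x)) y 1 s
  · left
    intro l hl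
    have h2 := TWC.jd_root p h0 (F := fun i => rootF p i (WX v C x)) (fun i a ha => ?_)
      (fun i θ hθ => ?_) (fun ε hε => ?_) h1 0 hl
    · exact h2.mono (fun a ha => mem_rootF.2 (by rwa [pow_zero, pow_one]))
    · obtain ⟨b, hb⟩ := IsAlgClosed.exists_pow_nat_eq a hp.out.pos
      refine ⟨b, mem_rootF.2 ?_, hb⟩
      rw [pow_succ', pow_mul, hb]
      exact mem_rootF.1 ha
    · have h3 := h.tl.far θ (D2P.isAlgebraic_mono (root_le_EX p i) hθ)
      exact ⟨h3.1, h3.2.le⟩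
    · obtain ⟨j, a, ha, h3⟩ := h.lim hε
      exact ⟨j, a, mem_rootF.2 ha, h3⟩
  · right
    push Not at h1
    exact h1

/-- **Strict jets give a strict floor.** -/
theorem FInf.sfl [IsAlgClosed Ω] (hc : CompleteV v) (h : FInf p v C x y s c₀)
    (hS : StrW v (WX v C x) y s) :
    ∃ D : ℕ → Ω → Ω, TWEX.SFl p v (WX v C x) y s D :=
  TWEX.exists_sfl p hc (fun _ hθ => ⟨(h.far hθ).1, (h.far hθ).2.le⟩)
    (fun _ hε => h.lim hε) hS

end Facts

end Pool.Agent.TWF
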