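import Pool.Agent.Lib.TWF.IrrWC
import Pool.Agent.Lib.TWF.InfDefs
import Pool.Agent.Lib.TWC.Irr4

/-!
# TANK W, dimension 4, row R: a floor of irrational radius over a tame base

* `TB.vg_adj`, `TB.tgt_adj`: the values of `W(x j)`, `x j` is tight in `W(x j)` of level `v (x j)`;
* `dist_lettersW`: the distance of `x (j + 1)` to `W(x j)<w>`, from the letters of `w`;
* `exists_tgt_of_constW`: no drops from `i` on: an element near to some `x m` is tight in `W<w>`;
* **`strict_or_tgtW`**: `w` is strict over all the fields `W(x i)`, or there are such tight elements,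
  and `x j` is tight in `W(x j)<w>` for all large `j`;
* **`FInf.strW_or_tgt`**: the case of the infinite first floor.
-/

set_option autoImplicit false

open Polynomial

namespace Pool.Agent.TWF.Irr

open Pool.Agent.H15JM (RVal)
open Pool.Agent.LU1 (VPos adj)
open Pool.Agent.D2 (Ctx0)
open Pool.Agent.D2P (clI mem_clI rootF)
open Pool.Agent.TWM Pool.Agent.TWM.C
open Pool.Agent.TWC
open Pool.Agent.TWS (VG)

universe u

variable {k Ω : Type u} [Field k] [Field Ω] [Algebra k Ω] {v : RVal Ω}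
  {W : IntermediateField k Ω} {x : ℕ → Ω} {w : Ω} {S R D lam : ℝ}

section

variable {p : ℕ} [hp : Fact p.Prime] [CharP Ω p]

/-- The values of `W(x j)`. -/
theorem TB.vg_adj (hB : TB p v W x S) (j : ℕ) {g : ℝ} (hg : g ∈ VG v (cadj v W (x j))) :
    ∃ a ∈ W, a ≠ 0 ∧ ∃ i : ℕ, i < p ^ j ∧ g = v a + i * v (x j) := by
  obtain ⟨a, ha, ha0, rfl⟩ := hg
  obtain ⟨a', ha', h1⟩ := mem_clI.1 ha (v a + 1)
  obtain ⟨h2, h3⟩ := Gt.val_eq ha0 (Gt.of_ge h1 (by linarith))
  have halg : IsAlgebraic W (x j) := by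
    have h4 := root_pow_add hB.root 0 j
    rw [zero_add] at h4
    refine IsAlgebraic.of_pow (pow_pos hp.out.pos j) ?_
    rw [h4]
    exact isAlgebraic_algebraMap (⟨_, hB.mem⟩ : W)
  obtain ⟨P, hP, rfl⟩ := exists_eval_of_mem_adj halg ha'
  obtain ⟨Q, hQ, hd, he⟩ := exists_red hB.root hB.mem j hP
  rw [← he] at h2 h3
  have hc := fun c => hB.coeff_ge hQ hd (RVal.ge_self (v := v) (Q.eval (x j))) c
  by_contra hno
  have h5 : Gt v (v (Q.eval (x j))) (Q.eval (x j)) := by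
    nth_rw 2 [eval_eq_sum_range]
    refine Gt.sum _ _ fun i _ h0 => ?_
    have hi0 : Q.coeff i ≠ 0 := left_ne_zero_of_mul h0
    rw [v.map_mul hi0 (pow_ne_zero _ (hB.ne_x j)), v.map_pow (hB.ne_x j)]
    refine lt_of_le_of_ne ?_ fun h6 => ?_
    · linarith [hc i hi0]
    · exact hno ⟨Q.coeff i, hQ i, hi0, i, (le_natDegree_of_ne_zero hi0).trans_lt hd,
        by rw [← h3, h6]⟩
  exact lt_irrefl _ (h5 h2)

variable [CharP k p] [IsAlgClosed Ω]

/-- `x j` is tight in `W(x j)`, of level `v (x j)`. -/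
theorem TB.tgt_adj (hB : TB p v W x S) (j : ℕ) :
    Tgt p v (cadj v W (x j)) (fun n => x (j + n)) (v (x j)) := by
  have hp1 := hp.out.one_lt
  have hp0 : (p : ℝ) ≠ 0 := by exact_mod_cast hp.out.ne_zero
  refine tgt_of_vg p (X := fun n => x (j + n)) (cld_cadj _ _ _) (fun n => hB.root (j + n))
    (hB.ne_x _) (self_mem_cadj _ _ _) ?_
  intro h1
  change v (x j) / p ∈ VG v (cadj v W (x j)) at h1
  obtain ⟨a, ha, ha0, i, hi, h2⟩ := hB.vg_adj j h1
  have hpj := ps_pos p j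
  have h3 : v (x (j + 1)) = v (x j) / p := by
    rw [val_root hB.root hB.ne (j + 1), val_root hB.root hB.ne j, pow_succ, div_div]
  have h4 : i * p = 1 := by
    refine hB.vg_inj (n := j + 1) ?_ ?_ ha (one_mem W) ha0 one_ne_zero ?_
    · rw [pow_succ]
      exact Nat.mul_lt_mul_of_pos_right hi hp.out.pos
    · exact Nat.one_lt_pow (Nat.succ_ne_zero j) hp1
    · rw [v.map_one, h3]
      push_cast
      have h5 : (i : ℝ) * p * (v (x j) / p) = i * v (x j) := by field_simp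
      rw [h5]
      linarith
  have h5 : p ∣ 1 := ⟨i, by rw [← h4, mul_comm]⟩
  exact hp1.ne' (Nat.dvd_one.1 h5)

/-- **The distance of `x (j + 1)` to `W(x j)<w>`**, from the letters of `w` of level `J > j`. -/
theorem dist_lettersW (hk : Ctx0 k v) (hc : CompleteV v) (hB : TB p v W x S)
    (hw : TL v (EW v W x) w (-lam)) (j : ℕ) (hR : 0 ≤ S + R)
    (H : ∀ ε : ℝ, 0 < ε → ∃ n, j < n ∧ ∃ P : Polynomial Ω, AprW p v W x w lam n P ε ∧
      ∀ J b : ℕ, j < J → J ≤ n → ¬ p ∣ b → P.coeff (b * p ^ (n - J)) ≠ 0 →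
        (p : ℝ) ^ J * (-(v (P.coeff (b * p ^ (n - J))) + b * v (x J)) - lam) ≤ S + R)
    {g : Ω} (hg : g ∈ cadj v (cadj v W (x j)) w)
    (hD : v.Ge D (x (j + 1) - g)) : D ≤ R / p ^ (j + 1) := by
  have hp0 : (0 : ℝ) < p := by exact_mod_cast hp.out.pos
  have ht := hB.tgt_adj j
  have hpj := ps_pos p j
  have hnb := ht.snd.nbx' p hk hc (r := R / p ^ j) (by
    rw [hB.val_x j, pow_one, mul_div_cancel₀ _ hp0.ne', ← neg_div]
    exact (div_le_div_iff_of_pos_right hpj).2 (by linarith))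
  have h1 := dist_letters (s := -lam) hnb ht.mem hw (EW.cadj_le j) (fun ε hε => ?_) hg hD
  · rw [div_div, ← pow_succ] at h1
    exact h1
  obtain ⟨n, hn, P, hP, h3⟩ := H ε hε
  obtain ⟨m, rfl⟩ : ∃ m, n = j + m := ⟨n - j, by omega⟩
  refine ⟨m, by omega, P, PI_mono (le_cadj v W _) hP.mem, ?_, fun i hi0 him => ?_⟩
  · change v.Ge _ (w - P.eval (x (j + m)))
    exact hP.ge.mono (by linarith)
  change v.Ge _ ((taylor (x (j + m)) P).coeff i)
  rw [taylor_coeff, hasseDeriv_apply, Polynomial.sum, eval_finsetSum]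
  refine RVal.Ge.sum _ _ fun b' _ => ?_
  rw [eval_monomial]
  by_cases hcf : P.coeff b' = 0
  · rw [hcf, mul_zero, zero_mul]
    exact RVal.Ge.zero
  by_cases hch : ((b'.choose i : ℕ) : Ω) = 0
  · rw [hch, zero_mul, zero_mul]
    exact RVal.Ge.zero
  have hib : i ≤ b' := by
    by_contra h4
    apply hch
    rw [Nat.choose_eq_zero_of_lt (by omega), Nat.cast_zero]
  obtain ⟨a, b, hb, hb'⟩ := Nat.exists_eq_pow_mul_and_not_dvd (n := b') (by omega) p
    hp.out.one_lt.ne'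
  have hai : p ^ a ∣ i := by
    by_contra h4
    refine hch ?_
    rw [hb']
    exact choose_cast_eq_zero Ω h4
  have ham : a < m := by
    by_contra h4
    push Not at h4
    exact absurd (Nat.le_of_dvd hi0 ((pow_dvd_pow p h4).trans hai)) (by omega)
  have hJ : j + m - (j + m - a) = a := by omega
  have hbb : b * p ^ (j + m - (j + m - a)) = b' := by rw [hJ, hb', mul_comm]
  have h5 := h3 (j + m - a) b (by omega) (by omega) hb (by rwa [hbb])
  have h6 := hB.mul_val (J := j + m - a) (n := j + m) (b := b) (by omega)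
  rw [hbb] at h5 h6
  have hvn := hB.val_x (j + m)
  have hpn := ps_pos p (j + m)
  have h7 : v.Ge (v (P.coeff b') + (b' - i) * v (x (j + m)))
      ((b'.choose i : Ω) * P.coeff b' * x (j + m) ^ (b' - i)) := by
    refine (((hB.nat _).mul (RVal.ge_self _)).mul
      (TWM.ge_pow (RVal.ge_self (v := v) (x (j + m))) (b' - i))).mono ?_
    rw [Nat.cast_sub hib]
    linarith
  refine h7.mono ?_
  -- the inequality
  have hpa : (0 : ℝ) < (p : ℝ) ^ a := ps_pos p a
  have hpJ := ps_pos p (j + m - a)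
  have hpp : (p : ℝ) ^ (j + m) = p ^ a * p ^ (j + m - a) := by
    rw [← pow_add]
    congr 1
    omega
  have h8 : -(v (P.coeff b') + b' * v (x (j + m))) - lam ≤ i * (S + R) / p ^ (j + m) := by
    rw [h6]
    have h9 : -(v (P.coeff b') + b * v (x (j + m - a))) - lam ≤ (S + R) / p ^ (j + m - a) := by
      rw [le_div_iff₀ hpJ, mul_comm]
      exact h5
    refine h9.trans ?_
    rw [hpp, div_le_div_iff₀ hpJ (mul_pos hpa hpJ)]
    have h10 : (p : ℝ) ^ a ≤ i := by exact_mod_cast Nat.le_of_dvd hi0 hai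
    have h11 : (p : ℝ) ^ a * (S + R) ≤ i * (S + R) := mul_le_mul_of_nonneg_right h10 hR
    nlinarith
  have h9 : (i : ℝ) * (R / p ^ j) / p ^ m = i * (S + R) / p ^ (j + m) + i * v (x (j + m)) := by
    rw [hvn, pow_add]
    field_simp
    ring
  rw [h9]
  linarith

/-- **No drops from `i` on: there is a tight element of `W<w>` near to some `x m`.** -/
theorem exists_tgt_of_constW (hk : Ctx0 k v) (hc : CompleteV v) (hB : TB p v W x S)
    (hw : TL v (EW v W x) w (-lam))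
    (hirr : ∀ n : ℕ, n ≠ 0 → (n : ℝ) * lam ∉ VG v (cadj v W w))
    (hx1 : x 1 ∉ cadj v W w) (hval : ∀ n, v (x n) ∈ VG v (cadj v W w))
    {i : ℕ} {r : ℝ} (hD : ∀ j, i ≤ j →
      Dst v (cadj v (cadj v W (x j)) w) (x (j + 1)) (r / p ^ (j + 1))) :
    v (x 0) < r ∧ (∃ (m : ℕ) (g : ℕ → Ω), Tgt p v (cadj v W w) g (r / p ^ m) ∧
      Gt v (r / p ^ m) (x m - g 0)) ∧
      ∀ j, i ≤ j → Tgt p v (cadj v (cadj v W (x j)) w) (fun n => x (j + n)) (r / p ^ j) := by
  classical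
  obtain ⟨C, hCe⟩ : ∃ C, C = cadj v W w := ⟨_, rfl⟩
  rw [← hCe] at hx1 hval hirr ⊢
  have hC : Cld v C := by
    rw [hCe]
    exact cld_cadj _ _ _
  have hWC : W ≤ C := by
    rw [hCe]
    exact le_cadj _ _ _
  have hxC : x 0 ∈ C := hWC hB.mem
  have hwC : w ∈ C := by
    rw [hCe]
    exact self_mem_cadj _ _ _
  have hr := hB.root
  have hCN : ∀ j, C ≤ cadj v (cadj v W (x j)) w := by
    intro j
    rw [hCe]
    exact cadj_mono (le_cadj v W _) w
  have hxm : ∀ m, 1 ≤ m → x m ∉ C := by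
    intro m hm h1
    obtain ⟨j, rfl⟩ : ∃ j, m = 1 + j := ⟨m - 1, by omega⟩
    apply hx1
    rw [← root_pow_add hr 1 j]
    exact pow_mem h1 _
  have hps := ps_pos p
  -- the distances
  have hex : ∀ m, ∃ d : ℝ, 1 ≤ m → Dst v C (x m) d := by
    intro m
    by_cases hm : 1 ≤ m
    · obtain ⟨d, hd⟩ := Dst.exists hC (hxm m hm)
      exact ⟨d, fun _ => hd⟩
    · exact ⟨0, fun h => absurd h hm⟩
  choose D hDst using hex
  obtain ⟨Δ, hΔ⟩ : ∃ Δ : ℕ → ℝ, ∀ m, Δ m = p ^ m * D m + S := ⟨_, fun _ => rfl⟩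
  have hΔD : ∀ m, (Δ m - S) / p ^ m = D m := by
    intro m
    rw [hΔ, add_sub_cancel_right, mul_div_cancel_left₀ _ (hps m).ne']
  have hΔp : ∀ m, 1 ≤ m → 0 < Δ m := by
    intro m hm
    have h1 := Dst.val_lt hk (hDst m hm) (hB.ne_x m) (hval m)
    rw [hB.val_x m, ← hΔD m, sub_div] at h1
    have h2 : 0 < Δ m / p ^ m := by linarith
    exact (div_pos_iff_of_pos_right (hps m)).1 h2
  have hdat := dat hk hB hw.lim hWC hwC hΔp fun m hm => by
    rw [hΔD]
    exact hDst m hm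
  -- the lower bound
  have hle1 : ∀ m, 1 ≤ m → r / p ^ m ≤ D m := by
    intro m hm
    have h1 : r + S ≤ Δ m := by
      refine le_of_forall_pos_le_add fun ε hε => ?_
      obtain ⟨J₀, hJ₀⟩ := hdat.limsup_le (fun J J' t h h' =>
        Lt.level hB (VG.mono hWC) hval hirr h h') hm hε
      obtain ⟨j, hj⟩ : ∃ j, j = max i J₀ := ⟨_, rfl⟩
      have hR : (0 : ℝ) ≤ S + (Δ m + ε - S) := by
        have := hΔp m hm
        linarith
      have h2 : r / p ^ (j + 1) ≤ (Δ m + ε - S) / p ^ (j + 1) := by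
        refine le_of_forall_pos_le_add fun ε' hε' => ?_
        obtain ⟨g, hg, h3⟩ := (hD j (by rw [hj]; exact le_max_left _ _)).near ε' hε'
        have h4 := dist_lettersW hk hc hB hw j hR (fun ε₁ hε₁ => ?_) hg h3
        · linarith
        · obtain ⟨n, hn, P, hP, hPc⟩ := exists_aprW hB hw.lim hε₁ (j + 1)
          refine ⟨n, by omega, P, hP, fun J b hJ hJn hb hne => ?_⟩
          have h5 := Lt.of_apr hB hε₁ hP (J := J) (by omega) hJn hb hne (hPc _ hne)
          have h6 := hJ₀ J ((by rw [hj]; exact le_max_right _ _ : J₀ ≤ j).trans hJ.le) _ h5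
          linarith
      rw [div_le_div_iff_of_pos_right (hps _)] at h2
      linarith
    rw [← hΔD m, div_le_div_iff_of_pos_right (hps m)]
    linarith
  have heq : ∀ m, i < m → D m = r / p ^ m := by
    intro m hm
    refine le_antisymm ?_ (hle1 m (by omega))
    obtain ⟨j, rfl⟩ : ∃ j, m = j + 1 := ⟨m - 1, by omega⟩
    exact (hDst (j + 1) (by omega)).mono (hD j (by omega)) (hCN j)
  have hSr : v (x 0) < r := by
    have h1 := hΔp (i + 1) (by omega)
    rw [hΔ, heq (i + 1) (by omega), mul_div_cancel₀ _ (hps _).ne'] at h1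
    rw [hB.val]
    linarith
  have hti : ∀ j, i ≤ j → Tgt p v (cadj v (cadj v W (x j)) w) (fun n => x (j + n))
      (r / p ^ j) := by
    intro j hij
    refine ⟨cld_cadj _ _ _, le_cadj _ _ _ (self_mem_cadj _ _ _), fun n => hr (j + n),
      fun n => ?_⟩
    have hxi : x (j + (n + 1)) ∉ cadj v (cadj v W (x j)) w := by
      intro h1
      have h2 := (hD j hij).far
      refine h2 ⟨x (j + 1), ?_, by rw [sub_self]; exact Gt.zero⟩
      rw [← root_pow_add hr (j + 1) n, show j + 1 + n = j + (n + 1) by omega]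
      exact pow_mem h1 _
    obtain ⟨d, hd⟩ := Dst.exists (cld_cadj v _ _) hxi
    have h1 := (hDst (j + (n + 1)) (by omega)).mono hd (hCN j)
    have h2 : d ≤ r / p ^ (j + n + 1) := by
      refine hd.mono (hD (j + n) (by omega)) (cadj_mono (cadj_le (cld_cadj _ _ _)
        (le_cadj v W _) ?_) w)
      rw [← root_pow_add hr j n]
      exact pow_mem (self_mem_cadj _ _ _) _
    rw [heq _ (by omega)] at h1
    have h3 : d = r / p ^ j / p ^ (n + 1) := by
      rw [div_div, ← pow_add]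
      exact le_antisymm h2 h1
    rw [← h3]
    exact hd
  refine ⟨hSr, ?_, hti⟩
  have hfind : ∃ m, ∀ j, m < j → D j = r / p ^ j := ⟨i, heq⟩
  obtain ⟨m, hm, hmin⟩ : ∃ m, (∀ j, m < j → D j = r / p ^ j) ∧
      ∀ m' < m, ¬ ∀ j, m' < j → D j = r / p ^ j :=
    ⟨Nat.find hfind, Nat.find_spec hfind, fun m' h => Nat.find_min hfind h⟩
  have hpp : ∀ j : ℕ, r / p ^ m / p ^ (j + 1) = r / p ^ (m + (j + 1)) := by
    intro j
    rw [div_div, ← pow_add]
  rcases Nat.eq_zero_or_pos m with h1 | h1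
  · subst h1
    refine ⟨0, x, ⟨hC, hxC, hr, fun n => ?_⟩, by rw [sub_self]; exact Gt.zero⟩
    rw [hpp, zero_add, ← hm (n + 1) (by omega)]
    exact hDst (n + 1) (by omega)
  · have hne : D m ≠ r / p ^ m := by
      intro h2
      refine hmin (m - 1) (by omega) fun j hj => ?_
      rcases eq_or_ne j m with rfl | h3
      · exact h2
      · exact hm j (by omega)
    have hlt : r / p ^ m < D m := lt_of_le_of_ne (hle1 m h1) (Ne.symm hne)
    obtain ⟨g0, hg0, h2⟩ := (hDst m h1).near ((D m - r / p ^ m) / 2) (by linarith)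
    obtain ⟨g, rfl, hg⟩ := exists_roots (p := p) g0
    have h3 : Gt v (r / p ^ m) (x m - g 0) := Gt.of_ge h2 (by linarith)
    refine ⟨m, g, ⟨hC, hg0, hg, fun n => ?_⟩, h3⟩
    have h4 := gt_root (u := fun n => x (m + n)) hg (fun n => hr (m + n)) h3 (n + 1)
    refine Dst.congr ?_ h4
    rw [hpp, ← hm (m + (n + 1)) (by omega)]
    exact hDst _ (by omega)

omit [CharP k p] in
/-- The powers of the elements of `W(x (n + 1), w)` are in `W(x n, w)`. -/
theorem pow_mem_prevW (hr : ∀ n, x (n + 1) ^ p = x n) (n : ℕ)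
    {a : Ω} (ha : a ∈ cadj v (cadj v W (x (n + 1))) w) : a ^ p ∈ cadj v (cadj v W (x n)) w := by
  have h1 : cadj v (cadj v W (x (n + 1))) w ≤ rootF p 1 (cadj v (cadj v W (x n)) w) := by
    refine cadj_le (cld_rootF p (cld_cadj _ _ _)) (cadj_le (cld_rootF p (cld_cadj _ _ _)) ?_ ?_) ?_
    · intro b hb
      rw [mem_rootF1]
      exact pow_mem (le_cadj _ _ _ (le_cadj _ _ _ hb)) p
    · rw [mem_rootF1, hr]
      exact le_cadj _ _ _ (self_mem_cadj _ _ _)
    · rw [mem_rootF1]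
      exact pow_mem (self_mem_cadj _ _ _) p
  exact (mem_rootF1 p).1 (h1 ha)

/-- **`w` is strict over all the fields `W(x i)`, or `W<w>` has a tight element near to some
`x m`, and `x j` is tight in `W(x j)<w>` for all large `j`.** -/
theorem strict_or_tgtW (hk : Ctx0 k v) (hc : CompleteV v) (hB : TB p v W x S)
    (hW : ∀ a ∈ W, ∃ Q ∈ PI W, (Q.eval (x 1)) ^ p = a)
    (hw : TL v (EW v W x) w (-lam))
    (hirr : ∀ n : ℕ, n ≠ 0 → (n : ℝ) * lam ∉ VG v (cadj v W w))
    (hx1 : x 1 ∉ cadj v W w) (hval : ∀ n, v (x n) ∈ VG v (cadj v W w)) :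
    (∀ i l, 1 ≤ l → Sd v (cadj v W (x i)) w l (l * -lam)) ∨
    ∃ r, v (x 0) < r ∧ (∃ (m : ℕ) (g : ℕ → Ω), Tgt p v (cadj v W w) g (r / p ^ m) ∧
      Gt v (r / p ^ m) (x m - g 0)) ∧ ∃ i, ∀ j, i ≤ j →
      Tgt p v (cadj v (cadj v W (x j)) w) (fun n => x (j + n)) (r / p ^ j) := by
  have hr := hB.root
  have hle : ∀ i, cadj v W (x i) ≤ EW v W x := fun i => EW.cadj_le i
  have hx1' : ∀ n, x (n + 1) ∉ cadj v (cadj v W (x n)) w := by
    intro n
    induction n with
    | zero =>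
      intro h1
      refine hx1 (cadj_le (cld_cadj _ _ _) (cadj_le (cld_cadj _ _ _) (le_cadj v W w)
        (le_cadj v W w hB.mem)) (self_mem_cadj _ _ _) h1)
    | succ n ih =>
      intro h2
      apply ih
      rw [← hr (n + 1)]
      exact pow_mem_prevW hr n h2
  have h01 : ∀ i, cadj v W (x 1) ≤ cadj v W (x (i + 1)) := by
    intro i
    refine cadj_le (cld_cadj _ _ _) (le_cadj v W _) ?_
    have h2 := root_pow_add hr 1 i
    rw [add_comm 1 i] at h2
    rw [← h2]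
    exact pow_mem (self_mem_cadj _ _ _) _
  have hR : ∀ i, ∀ a ∈ cadj v W (x i), ∃ b ∈ cadj v W (x (i + 1)), b ^ p = a := by
    intro i a ha
    obtain ⟨b, rfl⟩ := IsAlgClosed.exists_pow_nat_eq a hp.out.pos
    refine ⟨b, ?_, rfl⟩
    have h2 : b ∈ rootF p 1 (cadj v W (x i)) := (mem_rootF1 p).2 ha
    rw [← hr i, rootF_cadj] at h2
    refine cadj_le (cld_cadj _ _ _) (fun c hc' => h01 i ?_) (self_mem_cadj _ _ _) h2
    obtain ⟨Q, hQ, h3⟩ := hW _ ((mem_rootF1 p).1 hc')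
    have h4 : Q.eval (x 1) = c := frobenius_inj Ω p (by simpa [frobenius_def] using h3)
    rw [← h4]
    exact TWM.eval_mem (PI_mono (le_cadj v W _) hQ) (self_mem_cadj _ _ _)
  have hP : ∀ i, ∀ a ∈ cadj v W (x (i + 1)), a ^ p ∈ cadj v W (x i) := by
    intro i a ha
    have h2 : cadj v W (x (i + 1)) ≤ rootF p 1 (cadj v W (x i)) := by
      refine cadj_le (cld_rootF p (cld_cadj _ _ _)) (fun b hb => ?_) ?_
      · rw [mem_rootF1]
        exact pow_mem (le_cadj _ _ _ hb) p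
      · rw [mem_rootF1, hr]
        exact self_mem_cadj _ _ _
    exact (mem_rootF1 p).1 (h2 ha)
  have hfar : ∀ i, ∀ θ : Ω, IsAlgebraic (cadj v W (x i)) θ → w ≠ θ ∧ v (w - θ) ≤ -lam := by
    intro i θ hθ
    obtain ⟨h1, h2⟩ := hw.far θ (D2P.isAlgebraic_mono (hle i) hθ)
    exact ⟨h1, h2.le⟩
  have hlim : ∀ ε : ℝ, 0 < ε → ∃ i, ∃ a ∈ cadj v W (x i), v.Ge (-lam - ε) (w - a) := by
    intro ε hε
    obtain ⟨a, ha, h1⟩ := hw.lim ε hε
    obtain ⟨n, g, hg, h2⟩ := EW.near_adj p hr ha (-lam - ε)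
    refine ⟨n, g, LUC.Cl.subset hg, ?_⟩
    rw [show w - g = (w - a) + (a - g) by ring]
    exact h1.add h2
  rcases jd_or_const p hk hc (N := fun i => cadj v W (x i)) hR hP hfar hlim hr
    (fun n => self_mem_cadj _ _ _) hx1' with h1 | ⟨i, r, -, hD⟩
  · exact Or.inl h1
  · obtain ⟨h1, h2, h3⟩ := exists_tgt_of_constW hk hc hB hw hirr hx1 hval hD
    exact Or.inr ⟨r, h1, h2, i, h3⟩

/-! ### The infinite first floor -/

omit hp [CharP Ω p] [CharP k p] [IsAlgClosed Ω] in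
/-- `C(X j) = k<X j, y>`. -/
theorem FF.cp_X {C : IntermediateField k Ω} {t y : Ω} {c₀ : ℝ} (h : FF p v C t y c₀)
    {X : ℕ → Ω} (hX0 : X 0 = t) (hX : ∀ n, X (n + 1) ^ p = X n) (j : ℕ) :
    cadj v (cadj v (WX v C t) (X j)) y = CP v (X j) y := by
  refine le_antisymm (cadj_le (cld_cadj _ _ _) (cadj_le (cld_cadj _ _ _) ?_
    (le_cadj _ _ _ (self_mem_cadj _ _ _))) (self_mem_cadj _ _ _))
    (cadj_mono (cadj_mono bot_le (X j)) y)
  refine (WX_le h.cld).trans ?_
  rw [h.eq]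
  refine cadj_mono (cadj_le (cld_cadj _ _ _) bot_le ?_) y
  have h1 := root_pow_add hX 0 j
  rw [zero_add, hX0] at h1
  rw [← h1]
  exact pow_mem (self_mem_cadj _ _ _) _

variable [IsAlgClosed k]

omit [IsAlgClosed k] in
theorem tb_of_vg (h0 : Ctx0 k v) (hc : CompleteV v) (hW : Cld v W)
    (hr : ∀ n, x (n + 1) ^ p = x n) (hx : x 0 ≠ 0) (hx0 : x 0 ∈ W)
    (hV : v (x 0) / p ∉ VG v W) : TB p v W x (-v (x 0)) where
  cld := hW
  root := hr
  ne := hx
  mem := hx0
  val := (neg_neg _).symm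
  vg := hV
  nat n := by
    have := h0.ge (n : k)
    rwa [map_natCast] at this
  nbx := nbx_of_vg h0 hc hW hr hx hx0 hV

/-- **An infinite first floor of irrational radius over a tame `W`**: `y` is strict over `W`, or
`C` has a tight element near to some `X m`, and `X j` is tight in `k<X j, y>` for all large `j`. -/
theorem FInf.strW_or_tgt (h0 : Ctx0 k v) (hc : CompleteV v) {C : IntermediateField k Ω} {t y : Ω}
    {s c₀ : ℝ} (h : FInf p v C t y s c₀) {X : ℕ → Ω} (hX0 : X 0 = t)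
    (hX : ∀ n, X (n + 1) ^ p = X n) (hV : v t / p ∉ VG v (WX v C t))
    (hirr : ∀ n : ℕ, n ≠ 0 → (n : ℝ) * s ∉ VG v C) :
    StrW v (WX v C t) y s ∨
    ∃ r, v t < r ∧ (∃ (m : ℕ) (g : ℕ → Ω), Tgt p v C g (r / p ^ m) ∧
      Gt v (r / p ^ m) (X m - g 0)) ∧ ∃ i, ∀ j, i ≤ j →
      Tgt p v (CP (k := k) v (X j) y) (fun n => X (j + n)) (r / p ^ j) := by
  subst hX0
  have hp0 : (p : ℝ) ≠ 0 := by exact_mod_cast hp.out.ne_zero
  have hff := h.toFF
  have hC : cadj v (WX v C (X 0)) y = C := hff.eq_W.symm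
  have hx0 : X 0 ≠ 0 := h.x0
  have hB := tb_of_vg h0 hc (cld_WX v C (X 0)) hX hx0 hff.xW hV
  have hE := hff.ex_eq h0 hc (t := X) rfl hX
  have htl : TL v (EW v (WX v C (X 0)) X) y (-(-s)) := by
    rw [neg_neg, ← hE]
    exact h.tl
  have hval : ∀ n, v (X n) ∈ VG v C := by
    intro n
    induction n with
    | zero => exact VG.self hff.mem_x hx0
    | succ n ih =>
      have h1 : v (X (n + 1)) = v (X n) / p := by
        rw [val_root hX hx0 (n + 1), val_root hX hx0 n, pow_succ, div_div]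
      rw [h1]
      exact h.div _ ih
  have hx1 : X 1 ∉ C := by
    intro h1
    have h2 : X 1 ∈ WX v C (X 0) := by
      refine algIn_le_WX (mem_algIn.2 ⟨h1, ?_⟩)
      refine IsAlgebraic.of_pow hp.out.pos ?_
      rw [hX 0]
      exact isAlgebraic_algebraMap (⟨X 0, (D2P.mem_adj_self _ _).1⟩ :
        adj (⊥ : IntermediateField k Ω) (X 0))
    apply hV
    have h3 : v (X 0) / p = v (X 1) := by
      rw [val_root hX hx0 1, pow_one]
    rw [h3]
    exact VG.self h2 (root_ne hX hx0 1)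
  have hirr' : ∀ n : ℕ, n ≠ 0 → (n : ℝ) * (-s) ∉ VG v C := by
    intro n hn h1
    refine hirr n hn ?_
    have h2 := (VG v C).neg_mem h1
    rwa [mul_neg, neg_neg] at h2
  rcases strict_or_tgtW h0 hc hB (hff.root h0 hc (hX 0)) htl (by rwa [hC]) (by rwa [hC])
    (by rwa [hC]) with h1 | ⟨r, h1, h2, i, h3⟩
  · left
    intro l hl
    have h2 := h1 0 l hl
    rw [neg_neg] at h2
    exact h2.mono (le_cadj _ _ _)
  · rw [hC] at h2
    refine Or.inr ⟨r, h1, h2, i, fun j hj => ?_⟩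
    have h4 := h3 j hj
    rwa [FF.cp_X hff rfl hX j] at h4

omit [IsAlgClosed k] in
/-- The `p`-th roots of the elements of `W(x j)` are polynomials in `x (j + 1)`. -/
theorem TB.roots_adj (hc : CompleteV v) (hB : TB p v W x S)
    (hW : ∀ a ∈ W, ∃ Q ∈ PI W, (Q.eval (x 1)) ^ p = a) (j : ℕ) {a : Ω}
    (ha : a ∈ cadj v W (x j)) : ∃ Q ∈ PI W, (Q.eval (x (j + 1))) ^ p = a := by
  have hr := hB.root
  have halg : ∀ i, IsAlgebraic W (x i) := by
    intro i
    have h4 := root_pow_add hr 0 i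
    rw [zero_add] at h4
    refine IsAlgebraic.of_pow (pow_pos hp.out.pos i) ?_
    rw [h4]
    exact isAlgebraic_algebraMap (⟨_, hB.mem⟩ : W)
  have hpol : ∀ i, ∀ b ∈ cadj v W (x i), ∃ Q ∈ PI W, Q.eval (x i) = b := by
    intro i b hb
    exact exists_eval_of_mem_adj (halg i) (cld_adj hc hB.cld (halg i) hb)
  obtain ⟨Q, hQ, rfl⟩ := hpol j a ha
  choose R hR hR' using fun i => hW (Q.coeff i) (hQ i)
  refine ⟨∑ i ∈ Finset.range (Q.natDegree + 1), expand Ω (p ^ j) (R i) * X ^ i,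
    sum_mem fun i _ => mul_mem (expand_mem_PI (pow_pos hp.out.pos j) (hR i))
      (pow_mem X_mem_PI _), ?_⟩
  have h1 : x (j + 1) ^ p ^ j = x 1 := by
    have h2 := root_pow_add hr 1 j
    rwa [add_comm 1 j] at h2
  rw [eval_finsetSum, sum_pow_char, eval_eq_sum_range]
  refine Finset.sum_congr rfl fun i _ => ?_
  rw [eval_mul, eval_pow, eval_X, mul_pow, expand_eval, h1, hR', ← pow_mul, mul_comm i, pow_mul,
    hr]

/-- **An infinite first floor of irrational radius over a tame `W`**: `y` is strict over `W`, or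
`k<X j, y>` has a tight pair `(X j, u)`, `y - u ∈ W(X j)`, for all large `j`. -/
theorem FInf.strW_or_tp (h0 : Ctx0 k v) (hc : CompleteV v) {C : IntermediateField k Ω} {t y : Ω}
    {s c₀ : ℝ} (h : FInf p v C t y s c₀) {X : ℕ → Ω} (hX0 : X 0 = t)
    (hX : ∀ n, X (n + 1) ^ p = X n) (hV : v t / p ∉ VG v (WX v C t))
    (hirr : ∀ n : ℕ, n ≠ 0 → (n : ℝ) * s ∉ VG v C) :
    StrW v (WX v C t) y s ∨
    ∃ r, v t < r ∧ ∃ i, ∀ j, i ≤ j → ∃ u : ℕ → Ω, y - u 0 ∈ cadj v (WX v C t) (X j) ∧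
      TP p v (CP (k := k) v (X j) y) (fun n => X (j + n)) u (r / p ^ j) s ∧
      TL v (EX p v C t) (u 0) s ∧
      CP (k := k) v (X j) y = cadj v (cadj v (WX v C t) (X j)) (u 0) := by
  refine (FInf.strW_or_tgt h0 hc h hX0 hX hV hirr).imp_right ?_
  rintro ⟨r, hr, -, i, hi⟩
  refine ⟨r, hr, i, fun j hj => ?_⟩
  have hp0 : (0 : ℝ) < p := by exact_mod_cast hp.out.pos
  have hff := h.toFF
  have hE := hff.ex_eq h0 hc (t := X) hX0 hX
  subst hX0
  have hx0 : X 0 ≠ 0 := h.x0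
  have hB := tb_of_vg h0 hc (cld_WX v C (X 0)) hX hx0 hff.xW hV
  have hT := hi j hj
  have hWj : cadj v (WX v C (X 0)) (X j) ≤ CP v (X j) y := by
    rw [← FF.cp_X hff rfl hX j]
    exact le_cadj _ _ _
  have hEW : EW v (cadj v (WX v C (X 0)) (X j)) (fun n => X (j + n)) =
      EW v (WX v C (X 0)) X := by
    refine le_antisymm (EW_le EW.cld (cadj_le EW.cld EW.le (EW.mem j)) fun n => EW.mem (j + n))
      (EW_le EW.cld ((le_cadj v _ _).trans EW.le) fun n => ?_)
    have h1 := root_pow_add hX n j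
    rw [← h1, add_comm]
    exact pow_mem (EW.mem (u := fun n => X (j + n)) n) _
  have hN : NBX p v (cadj v (WX v C (X 0)) (X j)) (fun n => X (j + n))
      fun n F => F * v (X (j + 0)) / p ^ n := by
    refine (hB.tgt_adj j).snd.nbx' p h0 hc (r := v (X (j + 0))) ?_
    rw [add_zero, pow_one, mul_div_cancel₀ _ hp0.ne']
  obtain ⟨u, hu1, hu2, hu3, -, hu4⟩ := exists_pairWt h0 hc hT (root_ne hX hx0 (j + 0))
    (by
      change v (X (j + 0)) < _
      rw [add_zero, val_root hX hx0 j]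
      exact (div_lt_div_iff_of_pos_right (ps_pos p j)).2 hr)
    hWj (self_mem_cadj _ _ _) (fun a ha => by
      obtain ⟨Q, hQ, h1⟩ := hB.roots_adj hc (hff.root h0 hc (hX 0)) j ha
      exact ⟨Q, PI_mono (le_cadj v _ _) hQ, h1⟩) hN (self_mem_cadj _ _ _)
    (by rw [hEW, ← hE]; exact h.tl) (by
      nth_rw 1 [← FF.cp_X hff rfl hX j]
      exact EW.cadj _ _ y)
  refine ⟨u, hu1, hu2, ?_, hu4⟩
  rwa [hEW, ← hE] at hu3

end

end Pool.Agent.TWF.Irr
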