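import Pool.Agent.Lib.TWF.CPi
import Pool.Agent.Lib.TWF.IrrWD
import Pool.Agent.Lib.TWC.Irr6

/-!
# TANK W, the infinite first floor: tame base, irrational radius

* `FInf.hasTPn_of_tgt`: `X` tight in the fields `C(X j)` of high levels: `HasTPn p v C`;
* **`FInf.strW_or_hasTPn`**: tame base, irrational radius: strict jets or `HasTPn p v C`.
-/

set_option autoImplicit false

open Polynomial

namespace Pool.Agent.TWF.CPf

open Pool.Agent.H15JM (RVal)
open Pool.Agent.LU1 (VPos adj)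
open Pool.Agent.D2 (Ctx0)
open Pool.Agent.D2P (clI mem_clI mem_adj_self adj_le)
open Pool.Agent.TW (Ctx)
open Pool.Agent.TWM
open Pool.Agent.TWS (VG)
open Pool.Agent.TWC
open Pool.Agent.TWC.PW (WT)

universe u

variable {k Ω : Type u} [Field k] [Field Ω] [Algebra k Ω] {v : RVal Ω}
  {p : ℕ} [hp : Fact p.Prime] [CharP k p] [CharP Ω p] [IsAlgClosed k] [IsAlgClosed Ω]
  {C : IntermediateField k Ω} {t y : Ω} {r s c₀ : ℝ} {X : ℕ → Ω}

theorem FInf.hasTPn_of_tgt (h : Ctx k v 1) (hc : CompleteV v) (hF : FInf p v C t y s c₀)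
    (hr : ∀ n, X (n + 1) ^ p = X n) (hX : X 0 ≠ 0) (hneg : v (X 0) < 0)
    (hadj : adj (⊥ : IntermediateField k Ω) (X 0) = adj ⊥ t)
    (hE : EX p v C t = EW v (WX v C t) X) (hV : v (X 0) / p ∉ VG v (WX v C t))
    (hirr : ¬ RatR (v (X 0)) s) (hvr : v (X 0) < r) {i₀ : ℕ} (hT : ∀ j, i₀ ≤ j →
      Tgt p v (CP (k := k) v (X j) y) (fun n => X (j + n)) (r / p ^ j)) : HasTPn p v C := by
  have h0 := h.toCtx0
  have hff := hF.toFF
  have hWX : WX v C t = WX v C (X 0) := by rw [WX, WX, hadj]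
  have htX : t ∈ adj (⊥ : IntermediateField k Ω) (X 0) := by
    rw [hadj]
    exact (mem_adj_self _ _).1
  have hXC : X 0 ∈ C := by
    have h1 : X 0 ∈ adj (⊥ : IntermediateField k Ω) t := by
      rw [← hadj]
      exact (mem_adj_self _ _).1
    exact adj_le bot_le hff.mem_x h1
  have hWT : WX v C t = WT k p v (VG v C) (X 0) := by
    rw [hWX] at hV ⊢
    exact WX_eq_WT h0 hff.cld hXC hX hneg hV
  have hΓ : v (X 0) ∈ VG v C := VG.self hXC hX
  have hCe : cadj v (WT k p v (VG v C) (X 0)) y = C := by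
    rw [← hWT]
    exact hff.eq_W.symm
  have hTG : TG p v C := TG.of_eq hff.eq hff.oi hff.x0 hff.y0
  have hcp : ∀ j, cadj v (WT k p v (VG v C) (X j)) y = CP (k := k) v (X j) y := by
    intro j
    have e1 := root_pow_add hr 0 j
    rw [zero_add] at e1
    have h1 : X 0 ∈ CP (k := k) v (X j) y := by
      rw [← e1]
      exact pow_mem (CP_fst _ _) _
    refine le_antisymm (TWM.cadj_le (CP_cld _ _) (WT.le_of (CP_cld _ _) hr hX ?_ (CP_fst _ _))
      (CP_snd _ _)) (CP_le (cld_cadj _ _ _) (le_cadj _ _ _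
        (TR.refl (val_mem_shift hr hX hΓ hF.div j)).mem_WT) (self_mem_cadj _ _ _))
    rw [← hWT]
    refine (WX_le hff.cld).trans ?_
    rw [hff.eq]
    exact CP_le (CP_cld _ _) (adj_le bot_le h1 htX) (CP_snd _ _)
  have hTL : TL v (EW v (WT k p v (VG v C) (X 0)) X) y s := by
    rw [← hWT, ← hE]
    exact hF.tl
  have h2 := hasTPn_irr h hc hr hX hneg hΓ hF.div hTL hirr (by rwa [hCe]) hvr (i₀ := i₀)
    fun i hi => by
      rw [hcp i]
      exact hT i hi
  rwa [hCe] at h2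

/-- **Tame base, irrational radius.** -/
theorem FInf.strW_or_hasTPn (h : Ctx k v 1) (hc : CompleteV v) (hF : FInf p v C t y s c₀)
    (hV : v t / p ∉ VG v (WX v C t)) (hirr : ¬ RatR (v t) s) :
    StrW v (WX v C t) y s ∨ HasTPn p v C := by
  have h0 := h.toCtx0
  have hff := hF.toFF
  have hp0 : (0 : ℝ) < p := by exact_mod_cast hp.out.pos
  obtain ⟨X, hX0, hr⟩ := exists_rts p t
  have ht0 : t ≠ 0 := hff.x0
  have hX : X 0 ≠ 0 := by rwa [hX0]
  have hirr' : ∀ n : ℕ, n ≠ 0 → (n : ℝ) * s ∉ VG v C := by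
    intro n hn h1
    obtain ⟨n', hn', m, h2⟩ := ratv_of_ctx h ht0 hff.vx C _ h1
    refine hirr ⟨n' * n, mul_ne_zero hn' hn, m, ?_⟩
    rw [← h2]
    push_cast
    ring
  rcases Irr.FInf.strW_or_tgt h0 hc hF hX0 hr hV hirr' with h1 | ⟨r, h1, -, i, h2⟩
  · exact .inl h1
  right
  have hE := hff.ex_eq h0 hc hX0 hr
  rcases lt_or_gt_of_ne hff.vx with hneg | hpos
  · exact FInf.hasTPn_of_tgt h hc hF hr hX (by rwa [hX0]) (by rw [hX0]) hE (by rwa [hX0])
      (by rwa [hX0]) (by rwa [hX0]) h2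
  have hXn := root_ne hr hX
  have hfun : (fun n => X n ^ (-1 : ℤ)) = fun n => (X n)⁻¹ := funext fun n => zpow_neg_one _
  have hr' : ∀ n, (X (n + 1))⁻¹ ^ p = (X n)⁻¹ := fun n => by rw [inv_pow, hr]
  have hv' : v (X 0)⁻¹ = -v t := by rw [v.map_inv hX, hX0]
  have hvi : ∀ j, v (X j) = v t / p ^ j := fun j => by rw [val_root hr hX j, hX0]
  have hadj : adj (⊥ : IntermediateField k Ω) (X 0)⁻¹ = adj ⊥ t := by rw [adj_inv, hX0]
  refine FInf.hasTPn_of_tgt (X := fun n => (X n)⁻¹) (r := r - 2 * v t) (i₀ := i) h hc hF hr'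
    (inv_ne_zero hX) ?_ hadj ?_ ?_ ?_ ?_ fun j hj => ?_
  · show v (X 0)⁻¹ < 0
    rw [hv']
    linarith
  · rw [hE, ← EW_inv (WX v C t) X, hfun]
  · show v (X 0)⁻¹ / p ∉ _
    rw [hv', neg_div]
    exact fun h3 => hV (by simpa using neg_mem h3)
  · show ¬ RatR (v (X 0)⁻¹) s
    rw [hv']
    rintro ⟨n, hn, m, h3⟩
    refine hirr ⟨n, hn, -m, ?_⟩
    rw [h3]
    push_cast
    ring
  · show v (X 0)⁻¹ < _
    rw [hv']
    linarith
  · have h3 := tgt_inv (p := p) (h2 j hj) (hXn _) (by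
      show v (X (j + 0)) < _
      rw [add_zero, hvi]
      exact (div_lt_div_iff_of_pos_right (pow_pos hp0 j)).2 h1)
    have h4 : CP (k := k) v (X j)⁻¹ y = CP (k := k) v (X j) y := by
      rw [CP, CP, cadj_bot_inv']
    have h5 : r / p ^ j - 2 * v (X (j + 0)) = (r - 2 * v t) / p ^ j := by
      rw [add_zero, hvi]
      ring
    simp only [zpow_neg_one] at h3
    show Tgt p v (CP (k := k) v (X j)⁻¹ y) (fun n => (X (j + n))⁻¹) ((r - 2 * v t) / p ^ j)
    rw [h4, ← h5]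
    exact h3

end Pool.Agent.TWF.CPf
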