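import Pool.Agent.Lib.TWF.CovDefs
import Pool.Agent.Lib.TWCT.TamQ
import Pool.Agent.Lib.TWCT.Tow
import Pool.Agent.Lib.TWC.JDC

/-!
# TANK W, the cover: a commensurable radius, the field `W(c)`

`W` closed, `x ∈ W`, `c` a root of exponent prime to `p` of a power of `x`: `W(c)` is closed,
`x` is a `p`-basis of `W(c)`.

* `oi_tam`: the orthogonality constants go up to the tame closure;
* `pb_tr`: `x` is a `p`-basis of `W(c)`.
-/

set_option autoImplicit false

open Polynomial

namespace Pool.Agent.TWF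

open Pool.Agent.H15JM (RVal)
open Pool.Agent.LU1 (VPos adj)
open Pool.Agent.D2 (Ctx0)
open Pool.Agent.D2P (hen clI mem_clI mem_adj_self)
open Pool.Agent.TW (Full BD PBasis Ctx HRone Mot pcomb mon)
open Pool.Agent.TWM
open Pool.Agent.TWTam (TR tam TamB TamS prT tamB_of le_tam tam_mono tr_mem_tam)
open Pool.Agent.TWC (CP EW RatR Tgt HasTP Dst)

universe u

variable {k Ω : Type u} [Field k] [Field Ω] [Algebra k Ω] {v : RVal Ω}
  {C W : IntermediateField k Ω} {x y c : Ω} {s c₀ : ℝ} {p : ℕ}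

/-- A root of exponent prime to `p` is separable. -/
theorem sep_of_tr [hp : Fact p.Prime] [CharP Ω p] (hxW : x ∈ W) (hc : c ∈ TR p x) :
    IsSeparable W c := by
  obtain ⟨hc0, n, hn, m, h1⟩ := hc
  have hn0 : n ≠ 0 := fun h0 => hn (h0 ▸ dvd_zero p)
  have hcn : c ^ n ∈ W := by
    rw [h1]
    exact zpow_mem hxW m
  have hchar : CharP W p := (algebraMap W Ω).charP (algebraMap W Ω).injective p
  have hnW : ((n : ℕ) : W) ≠ 0 := fun h0 => hn ((CharP.cast_eq_zero_iff W p n).1 h0)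
  have ha : (⟨c ^ n, hcn⟩ : W) ≠ 0 := fun h0 => pow_ne_zero n hc0 (congrArg Subtype.val h0)
  have hsep : (X ^ n - C (⟨c ^ n, hcn⟩ : W) : Polynomial W).Separable :=
    separable_X_pow_sub_C _ hnW ha
  refine hsep.of_dvd (minpoly.dvd W c ?_)
  rw [map_sub, map_pow, aeval_X, aeval_C]
  exact sub_self _

theorem alg_of_tr [hp : Fact p.Prime] [CharP Ω p] (hxW : x ∈ W) (hc : c ∈ TR p x) :
    IsAlgebraic W c := (sep_of_tr hxW hc).isIntegral.isAlgebraic

theorem cadj_tr [hp : Fact p.Prime] [CharP Ω p] (hcc : CompleteV v) (hW : Cld v W) (hxW : x ∈ W)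
    (hc : c ∈ TR p x) : cadj v W c = adj W c :=
  le_antisymm (cld_adj hcc hW (alg_of_tr hxW hc)) (le_clI _)

theorem adj_tr_le_tam (hc : c ∈ TR p x) : adj W c ≤ tam p v x W :=
  D2P.adj_le (le_tam W) (tr_mem_tam hc)

/-- The orthogonality constants of the powers of `x` go up to the tame closure. -/
theorem oi_tam [hp : Fact p.Prime] [CharP Ω p] (hT : TamB p v x C) (hO : OI p v C ![x] c₀) :
    OI p v (tam p v x C) ![x] c₀ := by
  intro a ha b hb α
  rw [pcomb_one] at hb
  have hp0 : (0 : ℝ) < p := by exact_mod_cast hp.out.pos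
  have hx0 : x ≠ 0 := hT.ne
  have hα : α = ![α 0] := by
    funext j
    fin_cases j
    rfl
  have hmon : ∀ i : Fin p, mon (p := p) ![x] ![i] = x ^ (i : ℕ) := fun i => by
    rw [mon, Fin.prod_univ_one]
    rfl
  rw [hα, hmon]
  set i := α 0 with hi
  set R : ℝ := (b - c₀ - (i : ℕ) * v x) / p with hR
  -- the value of the coefficient
  have key : v.Ge R (a ![i]) := by
    refine ge_of_eps fun ε hε => ?_
    have h1 : Gt v (R - ε) (a ![i]) := by
      refine hT.gt_of_comp (ha _) fun t ht => ?_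
      have ht0 : t ≠ 0 := ht.1
      have htm : t⁻¹ ∈ tam p v x C := inv_mem (tr_mem_tam ht)
      -- the components
      have hsum : v.Ge (b - p * v t) (∑ j : Fin p, x ^ (j : ℕ) * (t⁻¹ * a ![j]) ^ p) := by
        have e : ∑ j : Fin p, x ^ (j : ℕ) * (t⁻¹ * a ![j]) ^ p =
            (t⁻¹) ^ p * ∑ j : Fin p, a ![j] ^ p * x ^ (j : ℕ) := by
          rw [Finset.mul_sum]
          exact Finset.sum_congr rfl fun j _ => by ring
        rw [e]
        refine ((RVal.ge_self ((t⁻¹) ^ p)).mul hb).mono (le_of_eq ?_)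
        rw [v.map_pow (inv_ne_zero ht0), v.map_inv ht0]
        ring
      have hmemj : ∀ j : Fin p, t⁻¹ * a ![j] ∈ tam p v x C := fun j => mul_mem htm (ha _)
      have hxC : ∀ j : ℕ, x ^ j ∈ C := fun j => pow_mem hT.mem j
      have hmemx : ∀ j : Fin p, x ^ (j : ℕ) * (t⁻¹ * a ![j]) ^ p ∈ tam p v x C := fun j =>
        mul_mem (le_tam C (hxC _)) (pow_mem (hmemj j) p)
      have h2 := hT.prT_ge (sum_mem fun j _ => hmemx j) hsum
      rw [hT.prT_sum _ _ (fun j _ => hmemx j)] at h2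
      have h3 : ∀ j : Fin p, prT p v x C (x ^ (j : ℕ) * (t⁻¹ * a ![j]) ^ p) =
          (prT p v x C (t⁻¹ * a ![j])) ^ p * x ^ (j : ℕ) := fun j => by
        rw [hT.prT_mul (hxC _) (pow_mem (hmemj j) p), hT.prT_pow (hmemj j), mul_comm]
      rw [Finset.sum_congr rfl fun j _ => h3 j] at h2
      have h4 := hO (fun β => prT p v x C (t⁻¹ * a ![β 0])) (fun β => (hT.spec (hmemj _)).1)
        (b - p * v t) (by
          rw [pcomb_one]
          exact h2) ![i]
      rw [hmon] at h4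
      have h5 : v.Ge (b - p * v t - c₀) ((prT p v x C (t⁻¹ * a ![i])) ^ p * x ^ (i : ℕ)) := h4
      intro h6
      have h7 : prT p v x C (t⁻¹ * a ![i]) ≠ 0 := right_ne_zero_of_mul h6
      have h8 := h5 (mul_ne_zero (pow_ne_zero p h7) (pow_ne_zero _ hx0))
      rw [v.map_mul (pow_ne_zero p h7) (pow_ne_zero _ hx0), v.map_pow h7, v.map_pow hx0] at h8
      rw [v.map_mul ht0 h7]
      have h9 : R = (b - c₀ - (i : ℕ) * v x) / p := hR
      have h10 : R ≤ v t + v (prT p v x C (t⁻¹ * a ![i])) := by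
        rw [h9, div_le_iff₀ hp0]
        linarith
      linarith
    exact fun h0 => (h1 h0).le
  intro h0
  have ha0 : a ![i] ≠ 0 := fun h1 => by
    rw [h1, zero_pow hp.out.ne_zero, zero_mul] at h0
    exact h0 rfl
  rw [v.map_mul (pow_ne_zero p ha0) (pow_ne_zero _ hx0), v.map_pow ha0, v.map_pow hx0]
  have h1 := key ha0
  rw [hR, div_le_iff₀ hp0] at h1
  linarith

/-- `x` is a `p`-basis of `W(c)`. -/
theorem pb_tr [hp : Fact p.Prime] [CharP Ω p] (hxW : x ∈ W) (hpb : PBasis p W ![x])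
    (hc : c ∈ TR p x) : PBasis p (adj W c) ![x] :=
  hpb.of_sep p (mem_adj_self W c).2 (TWCT.adj_sep (sep_of_tr hxW hc))

end Pool.Agent.TWF
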