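import Pool.Agent.Lib.TWF.CovA

/-!
# TANK W, the cover: a commensurable radius

`FInf p v C x y s c₀`, `s` commensurable with `v x`: `c` is a root of exponent prime to `p` of a power
of `x`, `v c = p ^ e s`, `W₂ = W(c)`, `y₁ = y ^ (p ^ e) / c`: the radius of `y₁` over `W₂` is `0`.

* `FInf.bas`: `Bas p v W₂ x y₁`;
* `strW_back`, `strZ_back`, `fj_back`, `clo_back`: from `y₁`, `W₂` to `y`, `W`.
-/

set_option autoImplicit false

open Polynomial

namespace Pool.Agent.TWF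

open Pool.Agent.H15JM (RVal)
open Pool.Agent.LU1 (VPos adj)
open Pool.Agent.D2 (Ctx0)
open Pool.Agent.D2P (hen clI mem_clI mem_adj_self)
open Pool.Agent.TW (Full BD PBasis Ctx HRone Mot pcomb mon)
open Pool.Agent.TWM
open Pool.Agent.TWTam (TR tam TamB TamS prT tamB_of le_tam tam_mono tr_mem_tam tl_tam cld_tam)
open Pool.Agent.TWC (CP EW RatR Tgt HasTP Dst Sd jet_pow_char taylor_expand)
open Pool.Agent.TWJ2 (FJ)
open Pool.Agent.TWII (PG)

universe u

variable {k Ω : Type u} [Field k] [Field Ω] [Algebra k Ω] {v : RVal Ω}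
  {C W : IntermediateField k Ω} {x y c : Ω} {s c₀ : ℝ} {p : ℕ}

/-- The root of exponent prime to `p`. -/
theorem exists_tr [hp : Fact p.Prime] [IsAlgClosed Ω] (hx0 : x ≠ 0) (hr : RatR (v x) s) :
    ∃ (e : ℕ) (c : Ω), c ∈ TR p x ∧ v c = p ^ e * s := by
  obtain ⟨n, hn, m, h1⟩ := hr
  obtain ⟨e, n', hn', rfl⟩ := Nat.exists_eq_pow_mul_and_not_dvd hn p hp.out.ne_one
  have hn0 : n' ≠ 0 := fun h0 => hn' (h0 ▸ dvd_zero p)
  obtain ⟨c, hc⟩ := IsAlgClosed.exists_pow_nat_eq (x ^ m) (Nat.pos_of_ne_zero hn0)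
  have hc0 : c ≠ 0 := fun h0 => by
    rw [h0, zero_pow hn0] at hc
    exact zpow_ne_zero m hx0 hc.symm
  refine ⟨e, c, ⟨hc0, n', hn', m, hc⟩, ?_⟩
  have h2 : (n' : ℝ) * v c = m * v x := by
    rw [← v.map_pow hc0, hc]
    obtain ⟨a, rfl | rfl⟩ := m.eq_nat_or_neg
    · rw [zpow_natCast, v.map_pow hx0, Int.cast_natCast]
    · rw [zpow_neg, zpow_natCast, v.map_inv (pow_ne_zero a hx0), v.map_pow hx0, Int.cast_neg,
        Int.cast_natCast, neg_mul]
  have hn1 : (n' : ℝ) ≠ 0 := by exact_mod_cast hn0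
  have h3 : (n' : ℝ) * v c = n' * (p ^ e * s) := by
    rw [h2, ← h1]
    push_cast
    ring
  exact mul_left_cancel₀ hn1 h3

/-! ### Roots -/

/-- The jets of `y ^ p` and of `y`. -/
theorem root_sd [hp : Fact p.Prime] [CharP Ω p] {l : ℕ} {b : ℝ}
    (h : Sd v W (y ^ p) l (p * b)) : Sd v W y l b := by
  have hp0 : (0 : ℝ) < p := by exact_mod_cast hp.out.pos
  obtain ⟨η, hη, h1⟩ := h
  refine ⟨η / p, div_pos hη hp0, fun f hf r hr => ?_⟩
  have hg : f.map (frobenius Ω p) ∈ PI W := fun i => by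
    rw [coeff_map, frobenius_def]
    exact pow_mem (hf i) p
  have hev : (f.map (frobenius Ω p)).eval (y ^ p) = f.eval y ^ p := by
    rw [← expand_eval, ← map_expand, Polynomial.map_frobenius_expand, eval_pow]
  have h2 := h1 _ hg (p * r) (by rw [hev]; exact ge_pow hr p)
  have h3 : (taylor (y ^ p) (f.map (frobenius Ω p))).coeff l = (taylor y f).coeff l ^ p := by
    have h4 := jet_pow_char (z := y) p f (l * p)
    rw [if_pos (dvd_mul_left p l), Nat.mul_div_cancel _ hp.out.pos] at h4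
    rw [← h4, ← Polynomial.map_frobenius_expand, map_expand, taylor_expand p,
      coeff_expand_mul hp.out.pos]
  rw [h3] at h2
  intro h5
  have h6 := h2 (pow_ne_zero p h5)
  rw [v.map_pow h5] at h6
  have h7 : p * (r - b + η / p) = p * r - p * b + η := by
    field_simp
  nlinarith

theorem root_sd_pow [hp : Fact p.Prime] [CharP Ω p] {l : ℕ} (e : ℕ) {b : ℝ}
    (h : Sd v W (y ^ p ^ e) l (p ^ e * b)) : Sd v W y l b := by
  induction e generalizing b with
  | zero => rwa [pow_zero, pow_zero, pow_one, one_mul] at h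
  | succ e ih =>
    refine ih (root_sd (p := p) ?_)
    rw [pow_succ, pow_mul] at h
    have e1 : (p : ℝ) ^ (e + 1) * b = p * (p ^ e * b) := by ring
    rwa [e1] at h

/-! ### The pair of radius `0` -/

section Bas

/-- The elements `y ^ (p ^ e) / c - θ`. -/
theorem div_sub_eq [Fact p.Prime] [CharP Ω p] {e : ℕ} (hc0 : c ≠ 0) {θ θ' : Ω} (h : θ' ^ p ^ e = c * θ) :
    y ^ p ^ e / c - θ = (y - θ') ^ p ^ e / c := by
  rw [sub_pow_char_pow, h, sub_div, mul_div_cancel_left₀ _ hc0]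

theorem val_pow_div {e : ℕ} (hc0 : c ≠ 0) {z : Ω} (hz : z ≠ 0) (hvc : v c = p ^ e * s) :
    v (z ^ p ^ e / c) = p ^ e * (v z - s) := by
  rw [v.map_div (pow_ne_zero _ hz) hc0, v.map_pow hz, hvc]
  push_cast
  ring

theorem alg_root [hp : Fact p.Prime] {e : ℕ} {A : IntermediateField k Ω} {θ θ' : Ω} (hcA : c ∈ A)
    (hθ : IsAlgebraic A θ) (h : θ' ^ p ^ e = c * θ) : IsAlgebraic A θ' := by
  refine D2P.isAlgebraic_of_pow (pow_pos hp.out.pos e) ?_
  rw [h]
  exact (D2P.isAlgebraic_of_mem hcA).mul hθ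

theorem adj_le_tamC (hWC : W ≤ C) (hc : c ∈ TR p x) : adj W c ≤ tam p v x C :=
  (adj_tr_le_tam hc).trans (tam_mono hWC)

/-- `W(c)<y ^ (p ^ e) / c>` is in the tame closure of `C`. -/
theorem cadj_le_tam {e : ℕ} (hWC : W ≤ C) (hy : y ∈ C) (hc : c ∈ TR p x) :
    cadj v (adj W c) (y ^ p ^ e / c) ≤ tam p v x C :=
  TWM.cadj_le (cld_tam C) (adj_le_tamC hWC hc)
    (div_mem (pow_mem (le_tam C hy) _) (tr_mem_tam hc))

/-- **The pair of radius `0`.** -/
theorem FInf.bas [hp : Fact p.Prime] [CharP Ω p] [CharP k p] [IsAlgClosed k] [IsAlgClosed Ω]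
    (h0 : Ctx0 k v) (hcc : CompleteV v) (h : FInf p v C x y s c₀) {e : ℕ}
    (hc : c ∈ TR p x) (hvc : v c = p ^ e * s) :
    Bas p v (adj (WX v C x) c) x (y ^ p ^ e / c) where
  cld := cld_adj hcc (cld_WX v C x) (alg_of_tr h.toFF.xW hc)
  mem := (mem_adj_self _ c).2 h.toFF.xW
  x0 := h.x0
  vx := h.vx
  pb := pb_tr h.toFF.xW (h.toFF.pb h0 hcc) hc
  far := fun θ hθ => by
    have hc0 : c ≠ 0 := hc.1
    obtain ⟨θ', h1⟩ := IsAlgClosed.exists_pow_nat_eq (c * θ) (pow_pos hp.out.pos e)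
    have h2 := alg_root (mem_adj_self _ c).1 hθ h1
    have hx : x ∈ EX p v C x := WX_le_EX p h.toFF.xW
    have h3 : IsAlgebraic (tam p v x (EX p v C x)) θ' :=
      D2P.isAlgebraic_mono (D2P.adj_le ((WX_le_EX p).trans (le_tam _)) (tr_mem_tam hc)) h2
    obtain ⟨h4, h5⟩ := (tl_tam hx h.tl).far θ' h3
    have h6 : y - θ' ≠ 0 := sub_ne_zero.2 h4
    have hpe : (0 : ℝ) < (p : ℝ) ^ e := pow_pos (by exact_mod_cast hp.out.pos) e
    constructor
    · rw [← sub_ne_zero, div_sub_eq hc0 h1]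
      exact div_ne_zero (pow_ne_zero _ h6) hc0
    · rw [div_sub_eq hc0 h1, val_pow_div hc0 h6 hvc]
      exact mul_neg_of_pos_of_neg hpe (by linarith)
  lim := fun ε hε => by
    have hc0 : c ≠ 0 := hc.1
    have hpe : (0 : ℝ) < (p : ℝ) ^ e := pow_pos (by exact_mod_cast hp.out.pos) e
    obtain ⟨j, a, ha, h1⟩ := h.lim (div_pos hε hpe)
    refine ⟨j, a ^ p ^ e / c, ?_, ?_⟩
    · rw [div_pow]
      refine div_mem ((mem_adj_self _ c).2 ?_) (pow_mem (mem_adj_self _ c).1 _)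
      rw [← pow_mul, mul_comm, pow_mul]
      exact pow_mem ha _
    · have e1 : y ^ p ^ e / c - a ^ p ^ e / c = (y - a) ^ p ^ e / c := by
        rw [sub_pow_char_pow, sub_div]
      rw [e1]
      intro h2
      have h3 : y - a ≠ 0 := fun h4 =>
        h2 (by rw [h4, zero_pow (pow_ne_zero e hp.out.ne_zero), zero_div])
      rw [val_pow_div hc0 h3 hvc]
      have h4 := h1 h3
      have h5 : ε / p ^ e * p ^ e = ε := div_mul_cancel₀ ε hpe.ne'
      nlinarith
  bd := by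
    refine ⟨v x + c₀, fun g hg h1 => ?_⟩
    have hT : TamB p v x C := tamB_of hp.out h0 hcc h.x0 h.toFF.cld h.toFF.mem_x
    have h2 : PG p v (tam p v x C) (v x + c₀) x :=
      ⟨g, cadj_le_tam (WX_le h.toFF.cld) h.toFF.mem_y hc hg, h1⟩
    obtain ⟨g', hg', h3⟩ := TWTam.TamS.pg hT hT.self h.toFF.mem_x h2
    exact TWCT.bound_of_oi h.oi h.x0 hg' h3

end Bas

/-! ### Back: strict jets -/

/-- Strict jets of `y ^ (p ^ e) / c` over `W(c)` are strict jets of `y` over `W`. -/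
theorem strW_back [hp : Fact p.Prime] [CharP Ω p] {e : ℕ} (hc0 : c ≠ 0)
    (hvc : v c = p ^ e * s) (h : StrW v (adj W c) (y ^ p ^ e / c) 0) : StrW v W y s := by
  intro l hl
  refine (root_sd_pow (p := p) e (l := l) (b := l * s) ?_).mono (mem_adj_self W c).2
  have hci : c⁻¹ ∈ adj W c := inv_mem (mem_adj_self W c).1
  refine TWC.Sd.scale hci (inv_ne_zero hc0) ?_
  have e1 : c⁻¹ * y ^ p ^ e = y ^ p ^ e / c := by rw [div_eq_mul_inv, mul_comm]
  have e2 : (p : ℝ) ^ e * (l * s) + l * v c⁻¹ = l * 0 := by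
    rw [v.map_inv hc0, hvc]
    ring
  rw [e1, e2]
  exact h l hl

end Pool.Agent.TWF
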