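import Pool.Agent.Lib.TWF.CovB
import Pool.Agent.Lib.TWC.Rect
import Pool.Agent.Lib.TWJ2.LemR

/-!
# TANK W, the cover: a commensurable radius, back

`W ≤ C`, `C = W<y>`, `c` a root of exponent prime to `p` of a power of `x`, `y₁ = y ^ (p ^ e) / c`.

* `clo_back`: `Clo`; `fj_back`: finitely many jumps; `strZ_back`: strict translations.
-/

set_option autoImplicit false

open Polynomial

namespace Pool.Agent.TWF

open Pool.Agent.H15JM (RVal)
open Pool.Agent.LU1 (VPos adj)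
open Pool.Agent.D2 (Ctx0)
open Pool.Agent.D2P (hen clI mem_clI mem_adj_self rootF mem_rootF)
open Pool.Agent.TW (Full BD PBasis Ctx HRone Mot pcomb mon)
open Pool.Agent.TWM
open Pool.Agent.TWS (VG)
open Pool.Agent.TWTam (TR tam TamB TamS prT tamB_of le_tam tam_mono tr_mem_tam tl_tam cld_tam)
open Pool.Agent.TWC (CP EW RatR Tgt HasTP Dst Sd)
open Pool.Agent.TWJ2 (FJ)
open Pool.Agent.TWII (PG)

universe u

variable {k Ω : Type u} [Field k] [Field Ω] [Algebra k Ω] {v : RVal Ω}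
  {C W : IntermediateField k Ω} {x y c : Ω} {s c₀ : ℝ} {p : ℕ}

section Clo

variable [hp : Fact p.Prime] [CharP Ω p]

/-- The powers of the elements of `W<y>`. -/
theorem pow_mem_cadj (e : ℕ) (hc0 : c ≠ 0) {g : Ω} (hg : g ∈ cadj v W y) :
    g ^ p ^ e ∈ cadj v (adj W c) (y ^ p ^ e / c) := by
  have hB : Cld v (cadj v (adj W c) (y ^ p ^ e / c)) := cld_cadj v _ _
  have hW : ∀ a ∈ adj W c, a ∈ cadj v (adj W c) (y ^ p ^ e / c) := fun a ha => le_cadj v _ _ ha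
  have h1 : cadj v W y ≤ rootF p e (cadj v (adj W c) (y ^ p ^ e / c)) := by
    refine TWM.cadj_le (TWC.cld_rootFn p e hB) (fun a ha => ?_) ?_
    · exact mem_rootF.2 (hW _ ((mem_adj_self _ c).2 (pow_mem ha _)))
    · rw [mem_rootF]
      have h2 := mul_mem (hW c (mem_adj_self _ c).1)
        (self_mem_cadj v (adj W c) (y ^ p ^ e / c))
      rwa [mul_div_cancel₀ _ hc0] at h2
  exact mem_rootF.1 (h1 hg)

theorem gt_pow_char {r : ℝ} {a b : Ω} (n : ℕ) (h : Gt v (r / p ^ n) (a - b)) :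
    Gt v r (a ^ p ^ n - b ^ p ^ n) := by
  have hpn : (0 : ℝ) < (p : ℝ) ^ n := pow_pos (by exact_mod_cast hp.out.pos) n
  intro h0
  rw [← sub_pow_char_pow] at h0 ⊢
  have h1 : a - b ≠ 0 := fun h2 => h0 (by rw [h2, zero_pow (pow_ne_zero n hp.out.ne_zero)])
  rw [v.map_pow h1]
  have h2 := h h1
  rw [div_lt_iff₀ hpn] at h2
  push_cast
  linarith

theorem gt_of_pow_char {r : ℝ} {a b : Ω} (n : ℕ) (h : Gt v r (a ^ p ^ n - b ^ p ^ n)) :
    Gt v (r / p ^ n) (a - b) := by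
  have hpn : (0 : ℝ) < (p : ℝ) ^ n := pow_pos (by exact_mod_cast hp.out.pos) n
  intro h1
  rw [← sub_pow_char_pow] at h
  have h2 := h (pow_ne_zero _ h1)
  rw [v.map_pow h1] at h2
  rw [div_lt_iff₀ hpn]
  push_cast at h2
  linarith

theorem ge_pow_char {r : ℝ} {a b : Ω} (n : ℕ) (h : v.Ge r (a - b)) :
    v.Ge (p ^ n * r) (a ^ p ^ n - b ^ p ^ n) := by
  rw [← sub_pow_char_pow]
  refine (ge_pow h (p ^ n)).mono (le_of_eq ?_)
  push_cast
  ring

theorem ge_of_pow_char {r : ℝ} {a b : Ω} (n : ℕ) (h : v.Ge (p ^ n * r) (a ^ p ^ n - b ^ p ^ n)) :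
    v.Ge r (a - b) := by
  have hpn : (0 : ℝ) < (p : ℝ) ^ n := pow_pos (by exact_mod_cast hp.out.pos) n
  intro h1
  rw [← sub_pow_char_pow] at h
  have h2 := h (pow_ne_zero _ h1)
  rw [v.map_pow h1] at h2
  push_cast at h2
  exact le_of_mul_le_mul_left h2 hpn

variable [CharP k p] [IsAlgClosed k] [IsAlgClosed Ω]

/-- **`Clo`, back.** -/
theorem clo_back (h0 : Ctx0 k v) (hcc : CompleteV v) (hW : Cld v W) (hx0 : x ≠ 0) (hxW : x ∈ W)
    {e : ℕ} (hc : c ∈ TR p x)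
    (h : Clo p v (adj W c) (cadj v (adj W c) (y ^ p ^ e / c))) : Clo p v W (cadj v W y) := by
  obtain ⟨M, n₀, δ₀, hM, hδ₀, h1⟩ := h
  have hWC : W ≤ cadj v W y := le_cadj v _ _
  have hyC : y ∈ cadj v W y := self_mem_cadj v _ _
  have hTW : TamB p v x W := tamB_of hp.out h0 hcc hx0 hW hxW
  have hTC : TamB p v x (cadj v W y) := tamB_of hp.out h0 hcc hx0 (cld_cadj v _ _) (hWC hxW)
  refine ⟨M, n₀ + e, δ₀, hM, hδ₀, fun X q hX0 hne hX hD hq n hn => ?_⟩
  have hpow : ∀ i j, X (i + j) ^ p ^ j = X i := fun i j => TWC.root_pow_add hX i j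
  have hD2 : Dst v (adj W c) (X 1) (q / p) := by
    refine ⟨?_, fun ε hε => ?_⟩
    · rintro ⟨g, hg, h2⟩
      have h3 : Gt v (q / (p : ℝ) ^ 1) (X 1 - g) := by rwa [pow_one]
      have h4 := gt_pow_char (p := p) 1 h3
      rw [pow_one] at h4
      have h5 : X 1 ^ p = X 0 := hX 0
      rw [h5] at h4
      have h6 : PG p v (tam p v x W) q (X 0) := ⟨g, adj_tr_le_tam hc hg, h4⟩
      obtain ⟨g', hg', h7⟩ := TWTam.TamS.pg hTW hTW.self hX0 h6
      have h8 : Gt v (q / (p : ℝ) ^ 1) (X 1 - g') := by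
        refine gt_of_pow_char (p := p) 1 ?_
        rwa [pow_one, h5]
      rw [pow_one] at h8
      exact hD.far ⟨g', hg', h8⟩
    · obtain ⟨a, ha, h2⟩ := hD.near ε hε
      exact ⟨a, (mem_adj_self _ c).2 ha, h2⟩
  have h2 := h1 X q ((mem_adj_self _ c).2 hX0) hne hX hD2 hq
  have hn0 : n₀ ≤ n := le_trans (Nat.le_add_right _ _) hn
  have hp0 : (0 : ℝ) < p := by exact_mod_cast hp.out.pos
  refine ⟨?_, fun ε hε => ?_⟩
  · rintro ⟨g, hg, h3⟩
    obtain ⟨m, rfl⟩ : ∃ m, n = m + e := ⟨n - e, by omega⟩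
    have hm : n₀ ≤ m := by omega
    have h4 : Gt v ((q + M) / p ^ (m + 1) / p ^ e) (X (m + 1 + e) - g) := by
      have e1 : m + 1 + e = m + e + 1 := by ring
      rw [e1]
      have e2 : (q + M) / (p : ℝ) ^ (m + 1) / p ^ e = (q + M) / p ^ (m + e + 1) := by
        rw [div_div, ← pow_add, e1]
      rw [e2]
      exact h3
    have h5 := gt_pow_char (p := p) e h4
    rw [hpow] at h5
    exact (h2 m hm).far ⟨g ^ p ^ e, pow_mem_cadj e hc.1 hg, h5⟩
  · obtain ⟨g, hg, h3⟩ := (h2 n hn0).near ε hε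
    have hgt : g ∈ tam p v x (cadj v W y) := cadj_le_tam hWC hyC hc hg
    have h4 := ge_pow_char (p := p) (n + 1) h3
    have h5 : X (n + 1) ^ p ^ (n + 1) = X 0 := by
      have := hpow 0 (n + 1)
      rwa [zero_add] at this
    rw [h5] at h4
    have hX0C : X 0 ∈ cadj v W y := hWC hX0
    have h6 := hTC.prT_ge (sub_mem (le_tam _ hX0C) (pow_mem hgt _)) h4
    rw [hTC.prT_sub (le_tam _ hX0C) (pow_mem hgt _), hTC.prT_self hX0C, hTC.prT_ppow hgt] at h6
    refine ⟨prT p v x (cadj v W y) g, (hTC.spec hgt).1, ?_⟩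
    refine ge_of_pow_char (p := p) (n + 1) ?_
    rw [h5]
    exact h6

end Clo

/-! ### Finitely many jumps -/

section FJ

variable [hp : Fact p.Prime] [CharP Ω p] [IsAlgClosed Ω]

/-- **Finitely many jumps, back.** -/
theorem fj_back (hxW : x ∈ W) (hfar : ∀ θ : Ω, IsAlgebraic W θ → y ≠ θ) {e : ℕ}
    (hc : c ∈ TR p x) (hvc : v c = p ^ e * s)
    (h : FJ v (adj W c) (y ^ p ^ e / c)) : FJ v W y := by
  obtain ⟨d, h1⟩ := h
  have hc0 : c ≠ 0 := hc.1
  have hpe : (0 : ℝ) < (p : ℝ) ^ e := pow_pos (by exact_mod_cast hp.out.pos) e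
  have halg : IsAlgebraic W c := alg_of_tr hxW hc
  have hfd : FiniteDimensional W (IntermediateField.adjoin W {c}) :=
    IntermediateField.adjoin.finiteDimensional halg.isIntegral
  refine ⟨Module.finrank W (IntermediateField.adjoin W {c}) * (d * p ^ e), fun ξ hξ => ?_⟩
  have hξ' : IsAlgebraic (adj W c) (ξ ^ p ^ e / c) := by
    rw [div_eq_mul_inv]
    exact ((D2P.isAlgebraic_mono (mem_adj_self _ c).2 hξ).pow _).mul
      (D2P.isAlgebraic_of_mem (inv_mem (mem_adj_self _ c).1))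
  obtain ⟨η', hη', hd, h2⟩ := h1 _ hξ'
  obtain ⟨η, h3⟩ := IsAlgClosed.exists_pow_nat_eq (c * η') (pow_pos hp.out.pos e)
  -- the polynomial of `η`
  have hint := hη'.isIntegral
  set Q₂ : Polynomial Ω := (minpoly (adj W c) η').map (algebraMap (adj W c) Ω) with hQ₂
  have hQm : Q₂.Monic := (minpoly.monic hint).map _
  have hQd : Q₂.natDegree = (minpoly (adj W c) η').natDegree := natDegree_map _
  have hQη : Q₂.eval η' = 0 := by
    rw [hQ₂, eval_map_algebraMap]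
    exact minpoly.aeval _ η'
  set G : Polynomial Ω := Q₂.comp (C c⁻¹ * X ^ p ^ e) with hG
  have hGη : G.eval η = 0 := by
    rw [hG, eval_comp, eval_mul, eval_C, eval_pow, eval_X, h3, inv_mul_cancel_left₀ hc0, hQη]
  have hlin : (C c⁻¹ * X ^ p ^ e : Polynomial Ω).natDegree = p ^ e :=
    natDegree_C_mul_X_pow _ _ (inv_ne_zero hc0)
  have hGd : G.natDegree = (minpoly (adj W c) η').natDegree * p ^ e := by
    rw [hG, natDegree_comp, hlin, hQd]
  have hG0 : G ≠ 0 := by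
    intro h4
    have h5 : (minpoly (adj W c) η').natDegree * p ^ e = 0 := by rw [← hGd, h4, natDegree_zero]
    have h6 : 0 < (minpoly (adj W c) η').natDegree := minpoly.natDegree_pos hint
    have h7 : 0 < p ^ e := pow_pos hp.out.pos e
    exact absurd h5 (Nat.mul_pos h6 h7).ne'
  have hGL : ∀ i, G.coeff i ∈ IntermediateField.adjoin W {c} := by
    have h4 : G ∈ PI (adj W c) := by
      rw [hG]
      have h5 : Q₂ ∈ PI (adj W c) := fun i => by
        rw [hQ₂, coeff_map]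
        exact ((minpoly (adj W c) η').coeff i).2
      exact comp_mem h5 (mul_mem (C_mem_PI (inv_mem (mem_adj_self _ c).1)) (pow_mem X_mem_PI _))
    intro i
    have h5 := h4 i
    rw [adj_eq_restrict] at h5
    exact h5
  obtain ⟨M, hM⟩ : ∃ M : Polynomial (IntermediateField.adjoin W {c}),
      M.map (algebraMap (IntermediateField.adjoin W {c}) Ω) = G := by
    have h4 : G ∈ lifts (algebraMap (IntermediateField.adjoin W {c}) Ω) := by
      rw [lifts_iff_coeff_lifts]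
      exact fun n => ⟨⟨_, hGL n⟩, rfl⟩
    exact (mem_lifts _).1 h4
  have hM0 : M ≠ 0 := by
    rintro rfl
    exact hG0 (by rw [← hM, Polynomial.map_zero])
  have hMη : aeval η M = 0 := by
    rw [← eval_map_algebraMap, hM, hGη]
  have hMd : M.natDegree = G.natDegree := by rw [← hM, natDegree_map]
  obtain ⟨h4, h5⟩ := TWJ2.deg_le_mul' (F := W) hM0 hMη
  refine ⟨η, h4, h5.trans ?_, ?_⟩
  · rw [hMd, hGd]
    exact Nat.mul_le_mul_left _ (Nat.mul_le_mul_right _ hd)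
  · have h6 : y - ξ ≠ 0 := sub_ne_zero.2 (hfar ξ hξ)
    have h7 : y - η ≠ 0 := sub_ne_zero.2 (hfar η h4)
    have e1 : y ^ p ^ e / c - ξ ^ p ^ e / c = (y - ξ) ^ p ^ e / c := by
      rw [sub_pow_char_pow, sub_div]
    rw [e1, div_sub_eq hc0 h3, val_pow_div hc0 h6 hvc, val_pow_div hc0 h7 hvc] at h2
    have h8 := lt_of_mul_lt_mul_left h2 hpe.le
    linarith

end FJ

/-! ### Strict translations -/

section Z

/-- A near translation. -/
theorem shift_near [IsAlgClosed Ω] (hfar : ∀ θ : Ω, IsAlgebraic W θ → y ≠ θ ∧ v (y - θ) < s)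
    {a b : Ω} {μ μ₁ : ℝ} (ha : v.Ge s a) (hμ : 0 < μ) (hμ₁ : 0 < μ₁) (hb : v.Ge (s + μ₁) (b - a))
    {P : Polynomial Ω} (hP : P ∈ PI W)
    (h1 : v.Ge (v (P.eval y) + μ) (P.eval (y + a) - P.eval y)) :
    v.Ge (v (P.eval y) + min μ μ₁) (P.eval (y + b) - P.eval y) := by
  have hfar' : ∀ θ : Ω, IsAlgebraic W θ → y + a ≠ θ ∧ v (y + a - θ) ≤ s := by
    intro θ hθ
    obtain ⟨h2, h3⟩ := hfar θ hθ
    have h4 : y - θ ≠ 0 := sub_ne_zero.2 h2
    by_cases ha0 : a = 0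
    · rw [ha0, add_zero]
      exact ⟨h2, h3.le⟩
    · have h5 := v.add_of_lt h4 ha0 (h3.trans_le (ha ha0))
      have e1 : y + a - θ = y - θ + a := by ring
      constructor
      · rw [← sub_ne_zero, e1]
        exact h5.1
      · rw [e1, h5.2]
        exact h3.le
  have h2 : v.Ge (v (P.eval y)) (P.eval (y + a)) := by
    have e1 : P.eval (y + a) = P.eval y + (P.eval (y + a) - P.eval y) := by ring
    rw [e1]
    exact (RVal.ge_self _).add (h1.mono (by linarith))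
  have h3 : v.Ge (v (P.eval y) + μ₁) (P.eval (y + b) - P.eval (y + a)) := by
    have e1 : P.eval (y + b) = (taylor (y + a) P).eval (b - a) := by
      rw [taylor_eval]
      congr 1
      ring
    have e2 : P.eval (y + a) = (taylor (y + a) P).coeff 0 := (taylor_coeff_zero _ _).symm
    have e3 : (taylor (y + a) P).eval (b - a) - (taylor (y + a) P).coeff 0 =
        ∑ l ∈ Finset.range (taylor (y + a) P).natDegree,
          (taylor (y + a) P).coeff (l + 1) * (b - a) ^ (l + 1) := by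
      rw [eval_eq_sum_range, Finset.sum_range_succ', pow_zero, mul_one, add_sub_cancel_right]
    rw [e1, e2, e3]
    refine Finset.sum_induction _ (fun z => v.Ge (v (P.eval y) + μ₁) z)
      (fun _ _ h h' => h.add h') RVal.Ge.zero fun l _ => ?_
    have h4 := TWC.jet_ge hfar' hP h2 (l + 1)
    refine (h4.mul (ge_pow hb (l + 1))).mono ?_
    push_cast
    have hl : (0 : ℝ) ≤ l := Nat.cast_nonneg l
    nlinarith
  have e1 : P.eval (y + b) - P.eval y =
      (P.eval (y + b) - P.eval (y + a)) + (P.eval (y + a) - P.eval y) := by ring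
  rw [e1]
  exact (h3.mono (by linarith [min_le_right μ μ₁])).add (h1.mono (by linarith [min_le_left μ μ₁]))

/-- A near root. -/
theorem exists_near_tr [CharP k p] [IsAlgClosed k] [IsAlgClosed Ω] (h0 : Ctx0 k v) {n : ℕ}
    (hn : ¬ p ∣ n) {c₁ g : Ω} (hc₁ : c₁ ≠ 0) (hg : g ≠ 0) (hvg : v g = n * v c₁) :
    ∃ (c₂ : Ω) (a : k), c₂ ≠ 0 ∧ c₂ ^ n = algebraMap k Ω a * g ∧ v c₂ = v c₁ ∧
      ∃ μ : ℝ, 0 < μ ∧ v.Ge (v c₁ + μ) (c₂ - c₁) := by
  have hn0 : n ≠ 0 := fun h1 => hn (h1 ▸ dvd_zero p)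
  have hnk : ((n : ℕ) : k) ≠ 0 := fun h1 => hn ((CharP.cast_eq_zero_iff k p n).1 h1)
  have hcn : c₁ ^ n ≠ 0 := pow_ne_zero n hc₁
  have hw0 : c₁ ^ n / g ≠ 0 := div_ne_zero hcn hg
  have hwv : v (c₁ ^ n / g) = 0 := by
    rw [v.map_div hcn hg, v.map_pow hc₁, hvg, sub_self]
  obtain ⟨a, ha⟩ := h0.residue (f := c₁ ^ n / g) (fun _ => by rw [hwv])
  have ha0 : a ≠ 0 := by
    rintro rfl
    rw [map_zero, sub_zero] at ha
    have := ha hw0
    rw [hwv] at this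
    exact lt_irrefl _ this
  have haΩ : algebraMap k Ω a ≠ 0 := (_root_.map_ne_zero _).2 ha0
  have hva : v (algebraMap k Ω a) = 0 := h0.triv a ha0
  set ε : Ω := c₁ ^ n / g / algebraMap k Ω a - 1 with hε
  have hεp : VPos v ε := by
    have e : ε = (c₁ ^ n / g - algebraMap k Ω a) / algebraMap k Ω a := by
      rw [hε]
      field_simp
    rw [e]
    intro h1
    have h4 : c₁ ^ n / g - algebraMap k Ω a ≠ 0 := fun h5 => h1 (by rw [h5, zero_div])
    rw [v.map_div h4 haΩ, hva, sub_zero]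
    exact ha h4
  obtain ⟨r, -, hr0, hrn, hr1⟩ := D2.exists_root_one h0 n hnk (⊤ : Subfield Ω) hεp
    (LUC.Cl.subset (Subfield.mem_top ε))
  have hrv : v r = 0 := by
    by_cases h1 : r - 1 = 0
    · rw [sub_eq_zero.1 h1, v.map_one]
    · have h2 := v.add_of_lt (x := 1) (y := r - 1) one_ne_zero h1 (by rw [v.map_one]; exact hr1 h1)
      rw [add_sub_cancel, v.map_one] at h2
      exact h2.2
  refine ⟨c₁ / r, a, div_ne_zero hc₁ hr0, ?_, ?_, ?_⟩
  · rw [div_pow, hrn, hε]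
    field_simp
    ring
  · rw [v.map_div hc₁ hr0, hrv, sub_zero]
  · have h1 : Gt v (v c₁) (c₁ / r - c₁) := by
      have e : c₁ / r - c₁ = c₁ * (-(r - 1)) / r := by
        field_simp
        ring
      rw [e]
      intro h2
      have h3 : r - 1 ≠ 0 := fun h4 => h2 (by rw [h4, neg_zero, mul_zero, zero_div])
      have h5 : -(r - 1) ≠ 0 := neg_ne_zero.2 h3
      rw [v.map_div (mul_ne_zero hc₁ h5) hr0, v.map_mul hc₁ h5, hrv, v.map_neg _ h3]
      have := hr1 h3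
      linarith
    exact TWLM.exists_ge_of_gt h1

/-- A translation of `y ^ (p ^ e) / c` gives a translation of `y`. -/
theorem strP_root [hp : Fact p.Prime] [CharP Ω p] {e : ℕ} (hc0 : c ≠ 0) {c₁ : Ω}
    (hc₁ : c₁ ^ p ^ e = c) {ζ ζ₁ : k} (hζ : ζ₁ ^ p ^ e = ζ)
    (hfar : ∀ P ∈ PI W, P ≠ 0 → P.eval y ≠ 0) (h : StrP v (adj W c) (y ^ p ^ e / c) ζ) :
    ∃ μ : ℝ, 0 < μ ∧ ∀ P ∈ PI W, v.Ge (v (P.eval y) + μ)
      (P.eval (y + algebraMap k Ω ζ₁ * c₁) - P.eval y) := by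
  obtain ⟨μ, hμ, h1⟩ := h
  have hpe : (0 : ℝ) < (p : ℝ) ^ e := pow_pos (by exact_mod_cast hp.out.pos) e
  refine ⟨μ / p ^ e, div_pos hμ hpe, fun P hP => ?_⟩
  by_cases hP0 : P = 0
  · rw [hP0, eval_zero, eval_zero, sub_zero]
    exact RVal.Ge.zero
  set PF : Polynomial Ω := P.map (iterateFrobenius Ω p e) with hPF
  have hPFm : PF ∈ PI W := fun i => by
    rw [hPF, coeff_map, iterateFrobenius_def]
    exact pow_mem (hP i) _
  have hev : ∀ z : Ω, PF.eval (z ^ p ^ e) = (P.eval z) ^ p ^ e := fun z => by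
    have h2 : PF.eval (iterateFrobenius Ω p e z) = iterateFrobenius Ω p e (P.eval z) := by
      rw [hPF, eval_map, eval₂_hom]
    rwa [iterateFrobenius_def, iterateFrobenius_def] at h2
  have hQ : PF.comp (C c * X) ∈ PI (adj W c) :=
    comp_mem (PI_mono (mem_adj_self W c).2 hPFm) (mul_mem (C_mem_PI (mem_adj_self W c).1) X_mem_PI)
  have h2 := h1 _ hQ
  have e1 : (PF.comp (C c * X)).eval (y ^ p ^ e / c) = (P.eval y) ^ p ^ e := by
    rw [eval_comp, eval_mul, eval_C, eval_X, mul_div_cancel₀ _ hc0, hev]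
  have e2 : (PF.comp (C c * X)).eval (y ^ p ^ e / c + algebraMap k Ω ζ) =
      (P.eval (y + algebraMap k Ω ζ₁ * c₁)) ^ p ^ e := by
    rw [← hev, eval_comp, eval_mul, eval_C, eval_X, mul_add, mul_div_cancel₀ _ hc0,
      add_pow_char_pow, mul_pow, hc₁, ← map_pow, hζ, mul_comm c]
  rw [e1, e2, v.map_pow (hfar P hP hP0)] at h2
  refine ge_of_pow_char (p := p) e (h2.mono (le_of_eq ?_))
  push_cast
  field_simp

/-- **Strict translations, back.** -/
theorem strZ_back [hp : Fact p.Prime] [CharP Ω p] [CharP k p] [IsAlgClosed k] [IsAlgClosed Ω]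
    (h0 : Ctx0 k v) (hdiv : ∀ g ∈ VG v C, g / p ∈ VG v C) (hxC : x ∈ C) (hx0 : x ≠ 0)
    (hfar : ∀ θ : Ω, IsAlgebraic W θ → y ≠ θ ∧ v (y - θ) < s) {e : ℕ}
    (hc : c ∈ TR p x) (hvc : v c = p ^ e * s) (h : StrT v (adj W c) (y ^ p ^ e / c)) :
    StrZ p v W C y s := by
  classical
  obtain ⟨hc0, n, hn, m, hcm⟩ := hc
  have hp0 : (0 : ℝ) < p := by exact_mod_cast hp.out.pos
  have hpe : (0 : ℝ) < (p : ℝ) ^ e := pow_pos hp0 e
  obtain ⟨c₁, hc₁⟩ := IsAlgClosed.exists_pow_nat_eq c (pow_pos hp.out.pos e)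
  have hc₁0 : c₁ ≠ 0 := fun h1 => by
    rw [h1, zero_pow (pow_ne_zero e hp.out.ne_zero)] at hc₁
    exact hc0 hc₁.symm
  have hvc₁ : v c₁ = s := by
    have h1 : (p : ℝ) ^ e * v c₁ = p ^ e * s := by
      rw [← hvc, ← hc₁, v.map_pow hc₁0]
      push_cast
      ring
    exact mul_left_cancel₀ hpe.ne' h1
  have hVG : (n : ℝ) * v c₁ ∈ VG v C := by
    have h1 : v (x ^ m) ∈ VG v C := ⟨x ^ m, zpow_mem hxC m, zpow_ne_zero m hx0, rfl⟩
    have h2 : ∀ j : ℕ, v (x ^ m) / p ^ j ∈ VG v C := by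
      intro j
      induction j with
      | zero => rwa [pow_zero, div_one]
      | succ j ih =>
        rw [pow_succ, ← div_div]
        exact hdiv _ ih
    have h3 : (n : ℝ) * v c₁ = v (x ^ m) / p ^ e := by
      rw [eq_div_iff hpe.ne', ← hcm, v.map_pow hc0, hvc, hvc₁]
      ring
    rw [h3]
    exact h2 e
  obtain ⟨g, hg, hg0, hvg⟩ := hVG
  obtain ⟨c₂, a, hc₂0, hc₂n, hvc₂, μ₁, hμ₁, hnear⟩ := exists_near_tr h0 hn hc₁0 hg0 hvg
  refine ⟨c₂, n, hn, by rw [hc₂n]; exact mul_mem (C.algebraMap_mem a) hg, hc₂0,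
    hvc₂.trans hvc₁, fun N => ?_⟩
  obtain ⟨Θ, hΘ, hstr⟩ := h N
  choose r hr using fun ζ : k => IsAlgClosed.exists_pow_nat_eq ζ (pow_pos hp.out.pos e)
  have hinj : Function.Injective r := fun a b hab => by rw [← hr a, ← hr b, hab]
  refine ⟨Θ.image r, by rw [Finset.card_image_of_injective _ hinj]; exact hΘ, fun ζ₁ hζ₁ => ?_⟩
  obtain ⟨ζ, hζ, rfl⟩ := Finset.mem_image.1 hζ₁
  obtain ⟨μ, hμ, h2⟩ := strP_root hc0 hc₁ (hr ζ)
    (fun P hP hP0 => TWC.jet_ne (fun θ hθ => ⟨(hfar θ hθ).1, (hfar θ hθ).2.le⟩) hP hP0)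
    (hstr ζ hζ)
  refine ⟨min μ μ₁, lt_min hμ hμ₁, fun P hP => shift_near hfar
    (a := algebraMap k Ω (r ζ) * c₁) ?_ hμ hμ₁ ?_ hP (h2 P hP)⟩
  · refine ((h0.ge (r ζ)).mul (RVal.ge_self c₁)).mono (le_of_eq ?_)
    rw [hvc₁, zero_add]
  · rw [← mul_sub]
    refine ((h0.ge (r ζ)).mul hnear).mono (le_of_eq ?_)
    rw [hvc₁, zero_add]

end Z

end Pool.Agent.TWF
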