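import Pool.Agent.Lib.TWF.InfCov
import Pool.Agent.Lib.TWC.BaseX
import Pool.Agent.Lib.TWJ2.Defs

/-!
# TANK W, the cover of the infinite first floor: the rows

Radius `0`: `Bas p v W x z`, `W` closed with `p`-basis `x`, `z` far from the algebraic elements and a
limit of the radical elements, `x` at a bounded distance from the `p`-th powers of `W<z>`.

* `StrT v W z`: the translations `z ↦ z + ζ` are strict for infinitely many `ζ ∈ k`;
* `Clo p v W C`: the distances of the roots of the letters of `W` to `C`;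
* `RowTri`: strict jets, infinitely many strict translations, finitely many jumps, or `Clo`;
* `RowIrr`: the same for the radii which are not commensurable with the values;
* `RowTgt`: from `Clo` to the alternatives; `RowHon`: finitely many jumps give an honest floor.
-/

set_option autoImplicit false

open Polynomial

namespace Pool.Agent.TWF

open Pool.Agent.H15JM (RVal)
open Pool.Agent.LU1 (VPos adj)
open Pool.Agent.D2 (Ctx0)
open Pool.Agent.D2P (hen clI mem_clI mem_adj_self)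
open Pool.Agent.TW (Full BD PBasis Ctx HRone Mot)
open Pool.Agent.TWM
open Pool.Agent.TWS (VG TowR SphC)
open Pool.Agent.TWC (CP EW RatR Tgt HasTP Dst)
open Pool.Agent.TWJ2 (FJ)

universe u

section

variable {k Ω : Type u} [Field k] [Field Ω] [Algebra k Ω]

/-- A floor of radius `0` over the closed field `W`, with the `p`-basis `x`. -/
structure Bas (p : ℕ) (v : RVal Ω) (W : IntermediateField k Ω) (x z : Ω) : Prop where
  cld : Cld v W
  mem : x ∈ W
  x0 : x ≠ 0
  vx : v x ≠ 0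
  pb : PBasis p W ![x]
  far : ∀ θ : Ω, IsAlgebraic W θ → z ≠ θ ∧ v (z - θ) < 0
  lim : ∀ ε : ℝ, 0 < ε → ∃ (j : ℕ) (a : Ω), a ^ p ^ j ∈ W ∧ v.Ge (-ε) (z - a)
  bd : ∃ b : ℝ, ∀ g ∈ cadj v W z, ¬ Gt v b (x - g ^ p)

/-- The translation `z ↦ z + ζ` of `W[z]` is strict. -/
def StrP (v : RVal Ω) (W : IntermediateField k Ω) (z : Ω) (ζ : k) : Prop :=
  ∃ μ : ℝ, 0 < μ ∧ ∀ P ∈ PI W, v.Ge (v (P.eval z) + μ) (P.eval (z + algebraMap k Ω ζ) - P.eval z)

/-- Infinitely many strict translations. -/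
def StrT (v : RVal Ω) (W : IntermediateField k Ω) (z : Ω) : Prop :=
  ∀ n : ℕ, ∃ Θ : Finset k, n ≤ Θ.card ∧ ∀ ζ ∈ Θ, StrP v W z ζ

/-- For all the letters `X` of `W` with a small defect `q - v (X 0)`, `q / p` the distance of `X 1` to
`W`: the distance of `X (n + 1)` to `C` is `(q + M) / p ^ (n + 1)`, for `n ≥ n₀`. -/
def Clo (p : ℕ) (v : RVal Ω) (W C : IntermediateField k Ω) : Prop :=
  ∃ (M : ℝ) (n₀ : ℕ) (δ₀ : ℝ), 0 < M ∧ 0 < δ₀ ∧ ∀ (X : ℕ → Ω) (q : ℝ), X 0 ∈ W → X 0 ≠ 0 →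
    (∀ n, X (n + 1) ^ p = X n) → Dst v W (X 1) (q / p) → q - v (X 0) ≤ δ₀ →
      ∀ n, n₀ ≤ n → Dst v C (X (n + 1)) ((q + M) / p ^ (n + 1))

end

/-- **Row TRI**: radius `0`. -/
def RowTri (p : ℕ) (k : Type u) [Field k] : Prop :=
  ∀ (Ω : Type u) [Field Ω] [Algebra k Ω] [IsAlgClosed Ω] [CharP Ω p] (v : RVal Ω), Ctx k v 1 →
    CompleteV v → ∀ (W : IntermediateField k Ω) (x z : Ω), Bas p v W x z →
      StrW v W z 0 ∨ StrT v W z ∨ FJ v W z ∨ Clo p v W (cadj v W z)

/-- **Row IRR**: the radius is not commensurable with the values. -/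
def RowIrr (p : ℕ) (k : Type u) [Field k] : Prop :=
  ∀ (Ω : Type u) [Field Ω] [Algebra k Ω] [IsAlgClosed Ω] [CharP Ω p] (v : RVal Ω), Ctx k v 1 →
    CompleteV v → ∀ (C W : IntermediateField k Ω) (x y : Ω) (s : ℝ), Flr p v C W x y s →
      (∃ b : ℝ, ∀ g ∈ C, ¬ Gt v b (x - g ^ p)) → ¬ RatR (v x) s →
        StrW v W y s ∨ FJ v W y ∨ Clo p v W C

/-- **Row T8**: from the distances to a tight element of the same field. -/
def RowTgt (p : ℕ) [Fact p.Prime] (k : Type u) [Field k] : Prop :=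
  ∀ (Ω : Type u) [Field Ω] [Algebra k Ω] [IsAlgClosed Ω] [CharP Ω p] (v : RVal Ω), Ctx k v 1 →
    CompleteV v → ∀ (C₁ C : IntermediateField k Ω) (x y : Ω) (s c₀ : ℝ), Bs p v C₁ C →
      FInf p v C x y s c₀ → Clo p v (WX v C x) C → Alt p v C

/-- **Row H**: finitely many jumps give an honest floor of the same field. -/
def RowHon (p : ℕ) [Fact p.Prime] (k : Type u) [Field k] : Prop :=
  ∀ (Ω : Type u) [Field Ω] [Algebra k Ω] [IsAlgClosed Ω] [CharP Ω p] (v : RVal Ω), Ctx k v 1 →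
    CompleteV v → ∀ (C₁ C : IntermediateField k Ω) (x y : Ω) (s c₀ : ℝ), Bs p v C₁ C →
      FInf p v C x y s c₀ → FJ v (WX v C x) y →
        ∃ (W : IntermediateField k Ω) (t y' : Ω) (s' : ℝ), Hon p v C W t y' s'

end Pool.Agent.TWF
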