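import Pool.Agent.Lib.TWTR.UpS
import Pool.Agent.Lib.TWTR.Boot3
import Pool.Agent.Lib.TWTR.CritW
import Pool.Agent.Lib.TWTR.ET
import Pool.Agent.Lib.TWTR.BasL
import Pool.Agent.Lib.TWF.CovDefs
import Pool.Agent.Lib.TWS7.Str

/-!
# TANK W, the cover: the row of the irrational radii

* `Lt.lev`: if the distance of `y` to the roots of order `p ^ i` of `W` is `s - M / p ^ (i + 1)`, not
  better, and the next one is better, then `p ^ (i + 1) s - M - ν` is a value;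
* `gap_lt`: irrational radius: from some level on, the gaps are `< M = limsup`, or there are
  finitely many jumps;
* `Lt.cloIrr`: then the letters of `W` have the closeness `Clo` in `W<y>`;
* `rowIrr`: `RowIrr p k`.
-/

set_option autoImplicit false
set_option linter.unusedSectionVars false

open Polynomial

namespace Pool.Agent.TWTR

open Pool.Agent.H15JM (RVal)
open Pool.Agent.LU1 (VPos adj)
open Pool.Agent.D2 (Ctx0)
open Pool.Agent.D2P (hen clI mem_clI rootF mem_rootF)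
open Pool.Agent.TWM hiding comp_mem_PI
open Pool.Agent.TWC (EW NBX Dst Tgt Sd)
open Pool.Agent.TWF (perfC mem_perfC le_perfC perfC_le_algc StrW)
open Pool.Agent.TWJ2 (FJ)

universe u

variable {k Ω : Type u} [Field k] [Field Ω] [Algebra k Ω] {v : RVal Ω}
  {W : IntermediateField k Ω} {t : ℕ → Ω} {y z : Ω} {ν M s : ℝ} {p : ℕ}

section Gaps

variable [hp : Fact p.Prime] [CharP Ω p]

/-- The supremum of the late gaps. -/
theorem exists_sup (hbd : ∃ b : ℝ, ∀ j, NearB p v W s j b z)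
    (hnn : ∀ (j : ℕ) (m : ℝ), NearB p v W s j m z → 0 ≤ m) {j₀ : ℕ}
    (hR : ∀ j, j₀ ≤ j → ∀ m : ℝ, (∀ j', j < j' → NearB p v W s j' m z) →
      NearB p v W s j m z) :
    ∃ M : ℝ, 0 ≤ M ∧ (∀ j, j₀ ≤ j → NearB p v W s j M z) ∧
      ∀ m' < M, ∀ j₁ : ℕ, ∃ j ≥ j₁, ¬ NearB p v W s j m' z := by
  have hp0 : (0 : ℝ) < p := by exact_mod_cast hp.out.pos
  obtain ⟨b, hb⟩ := hbd
  set S : Set ℝ := {m | ∃ j₁ : ℕ, ∀ j, j₁ ≤ j → NearB p v W s j m z} with hS
  have hSn : S.Nonempty := ⟨b, 0, fun j _ => hb j⟩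
  have hSb : ∀ m ∈ S, 0 ≤ m := fun m ⟨j₁, h1⟩ => hnn j₁ m (h1 j₁ le_rfl)
  have hdown : ∀ m ∈ S, ∀ j, j₀ ≤ j → NearB p v W s j m z := by
    rintro m ⟨j₁, h1⟩
    have key : ∀ n j : ℕ, j₀ ≤ j → j₁ ≤ j + n → ∀ j', j ≤ j' → NearB p v W s j' m z := by
      intro n
      induction n with
      | zero => exact fun j _ h2 j' h3 => h1 j' (by omega)
      | succ n ih =>
        intro j h2 h3 j' h4
        rcases Nat.eq_or_lt_of_le h4 with rfl | h5
        · exact hR j h2 m fun j' hj' => ih (j + 1) (by omega) (by omega) j' hj'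
        · exact ih (j + 1) (by omega) (by omega) j' h5
    exact fun j hj => key j₁ j hj (by omega) j le_rfl
  refine ⟨sInf S, le_csInf hSn hSb, fun j hj ε hε => ?_, fun m' hm' j₁ => ?_⟩
  · have hpj : (0 : ℝ) < (p : ℝ) ^ (j + 1) := by positivity
    obtain ⟨m, hm, h1⟩ := exists_lt_of_csInf_lt hSn
      (show sInf S < sInf S + ε / 2 * p ^ (j + 1) by linarith [mul_pos (half_pos hε) hpj])
    obtain ⟨a, ha, h2⟩ := hdown m hm j hj (ε / 2) (half_pos hε)
    refine ⟨a, ha, h2.mono ?_⟩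
    have h3 : m / (p : ℝ) ^ (j + 1) ≤ sInf S / p ^ (j + 1) + ε / 2 := by
      have e : sInf S / (p : ℝ) ^ (j + 1) + ε / 2 =
          (sInf S + ε / 2 * p ^ (j + 1)) / p ^ (j + 1) := by
        field_simp
      rw [e]
      exact div_le_div_of_nonneg_right h1.le hpj.le
    linarith
  · by_contra hcon
    push Not at hcon
    exact absurd (csInf_le ⟨0, hSb⟩ (show m' ∈ S from ⟨j₁, hcon⟩)) (not_le.2 hm')

/-- Gaps `≤ 0` at one level: finitely many jumps. -/
theorem fj_of_gap (hfar : ∀ θ : Ω, IsAlgebraic W θ → z ≠ θ ∧ v (z - θ) < s) {j : ℕ}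
    (h : NearB p v W s j 0 z) : FJ v W z := by
  refine ⟨p ^ j, fun ξ hξ => ?_⟩
  obtain ⟨h1, h2⟩ := hfar ξ hξ
  obtain ⟨a, ha, h3⟩ := h ((s - v (z - ξ)) / 2) (by linarith)
  have hpol : (X ^ p ^ j - C (⟨a ^ p ^ j, ha⟩ : W) : Polynomial W).Monic :=
    monic_X_pow_sub_C _ (pow_pos hp.out.pos j).ne'
  have hev : aeval a (X ^ p ^ j - C (⟨a ^ p ^ j, ha⟩ : W) : Polynomial W) = 0 := by
    rw [map_sub, map_pow, aeval_X, aeval_C]
    exact sub_self _
  have halg : IsAlgebraic W a := ⟨_, hpol.ne_zero, hev⟩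
  refine ⟨a, halg, ?_, ?_⟩
  · refine (natDegree_le_of_dvd (minpoly.dvd W a hev) hpol.ne_zero).trans ?_
    rw [natDegree_X_pow_sub_C]
  · have h4 := h3 (sub_ne_zero.2 (hfar a halg).1)
    rw [zero_div, sub_zero] at h4
    linarith

variable [CharP k p] [IsAlgClosed Ω]

/-- **The value of the derivative.** -/
theorem Lt.lev (h0 : Ctx0 k v) (hc : CompleteV v) (h : Lt p v W t ν) (hM : 0 < M) {i : ℕ}
    (h1 : NearB p v W s i M z) (h2 : NearB p v W s (i + 1) M z)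
    (h3 : ∀ m' < M, ¬ NearB p v W s i m' z) :
    ∃ F : Ω, F ≠ 0 ∧ v F = p ^ (i + 1) * s - M - ν := by
  have hp0 : (0 : ℝ) < p := by exact_mod_cast hp.out.pos
  have hp1 : (1 : ℝ) < p := by exact_mod_cast hp.out.one_lt
  have hpi : (0 : ℝ) < (p : ℝ) ^ (i + 1) := by positivity
  set e : ℝ := M / p ^ (i + 1) - M / p ^ (i + 2) with he
  have he0 : 0 < e := by
    have : M / (p : ℝ) ^ (i + 2) < M / p ^ (i + 1) :=
      div_lt_div_of_pos_left hM hpi (pow_lt_pow_right₀ hp1 (by omega))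
    linarith
  obtain ⟨a, ha, h4⟩ := h2 (e / 2) (half_pos he0)
  have h4' : v.Ge (s - M / p ^ (i + 1) + e / 2) (z - a) := h4.mono (by
    have e1 : i + 1 + 1 = i + 2 := rfl
    rw [e1]
    linarith)
  obtain ⟨G, hG, hGe⟩ := h.rts ha
  -- the distance of `a` is `s - M / p ^ (i + 1)`
  have hnear : ∀ ε : ℝ, 0 < ε → ∃ b : Ω, b ^ p ^ i ∈ W ∧
      v.Ge (s - M / p ^ (i + 1) - ε) (G.eval (t (i + 1)) - b) := by
    intro ε hε
    obtain ⟨b, hb, h5⟩ := h1 ε hε
    refine ⟨b, hb, ?_⟩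
    have e1 : G.eval (t (i + 1)) - b = (z - b) - (z - a) := by
      rw [hGe]
      ring
    rw [e1]
    exact RVal.Ge.sub h5 (h4'.mono (by linarith))
  have hno : ∀ r : ℝ, s - M / p ^ (i + 1) < r → ¬ ∀ ε : ℝ, 0 < ε → ∃ b : Ω, b ^ p ^ i ∈ W ∧
      v.Ge (r - ε) (G.eval (t (i + 1)) - b) := by
    intro r hr hcon
    set r' : ℝ := min r (s - M / p ^ (i + 1) + e / 2) with hr'
    have hr'0 : s - M / p ^ (i + 1) < r' := lt_min hr (by linarith)
    refine h3 (p ^ (i + 1) * (s - r')) ?_ fun ε hε => ?_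
    · have h5 := mul_lt_mul_of_pos_left (show s - r' < M / p ^ (i + 1) by linarith) hpi
      rwa [mul_div_cancel₀ _ hpi.ne'] at h5
    · obtain ⟨b, hb, h5⟩ := hcon ε hε
      refine ⟨b, hb, ?_⟩
      have e1 : z - b = (z - a) + (G.eval (t (i + 1)) - b) := by
        rw [hGe]
        ring
      have e2 : s - p ^ (i + 1) * (s - r') / (p : ℝ) ^ (i + 1) - ε = r' - ε := by
        rw [mul_div_cancel_left₀ _ hpi.ne']
        ring
      rw [e1, e2]
      exact (h4'.mono (by linarith [min_le_right r (s - M / p ^ (i + 1) + e / 2)])).add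
        (h5.mono (by linarith [min_le_left r (s - M / p ^ (i + 1) + e / 2)]))
  set T := t (i + 1) * (derivative G).eval (t (i + 1)) with hT
  have hge : v.Ge (s - M / p ^ (i + 1) - ν / p ^ (i + 1)) T := by
    refine TWC.ge_of_eps fun ε hε => ?_
    obtain ⟨b, hb, h5⟩ := hnear ε hε
    refine (h.ld' h0 hc hG i hb h5).mono (le_of_eq ?_)
    ring
  have hT0 : T ≠ 0 := by
    intro h5
    refine hno (s - M / p ^ (i + 1) + 1) (by linarith) fun ε hε => ?_
    obtain ⟨b, hb, h6⟩ := h.ld h0 hc hG i (c := s - M / p ^ (i + 1) + 1 - ν / p ^ (i + 1)) (by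
      rw [← hT, h5]
      exact RVal.Ge.zero) hε
    exact ⟨b, hb, h6.mono (le_of_eq (by ring))⟩
  have hle : v T ≤ s - M / p ^ (i + 1) - ν / p ^ (i + 1) := by
    by_contra hcon
    push Not at hcon
    refine hno (v T + ν / p ^ (i + 1)) (by linarith) fun ε hε => ?_
    obtain ⟨b, hb, h6⟩ := h.ld h0 hc hG i (c := v T) (RVal.ge_self _) hε
    exact ⟨b, hb, h6⟩
  have hvT : v T = s - M / p ^ (i + 1) - ν / p ^ (i + 1) := le_antisymm hle (hge hT0)
  refine ⟨T ^ p ^ (i + 1), pow_ne_zero _ hT0, ?_⟩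
  rw [v.map_pow hT0, hvT]
  push_cast
  field_simp

/-- **Irrational radius: at most one gap is `M`.** -/
theorem Lt.gap_ne (h0 : Ctx0 k v) (hc : CompleteV v) (h : Lt p v W t ν) (hM : 0 < M)
    (hirr : ∀ n : ℕ, n ≠ 0 → ∀ f : Ω, f ≠ 0 → v f ≠ n * s) {j₀ : ℕ}
    (hn : ∀ j, j₀ ≤ j → NearB p v W s j M z) :
    ∃ j₁ : ℕ, ∀ j, j₁ ≤ j → ∃ m' < M, NearB p v W s j m' z := by
  by_cases hex : ∃ i, j₀ ≤ i ∧ ∀ m' < M, ¬ NearB p v W s i m' z
  · obtain ⟨i, hi, h1⟩ := hex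
    refine ⟨i + 1, fun j hj => ?_⟩
    by_contra hcon
    push Not at hcon
    obtain ⟨F, hF, hvF⟩ := h.lev h0 hc hM (hn i hi) (hn (i + 1) (by omega)) h1
    obtain ⟨F', hF', hvF'⟩ := h.lev h0 hc hM (hn j (by omega)) (hn (j + 1) (by omega)) hcon
    have hlt : p ^ (i + 1) < p ^ (j + 1) := Nat.pow_lt_pow_right hp.out.one_lt (by omega)
    refine hirr (p ^ (j + 1) - p ^ (i + 1)) (by omega) (F' / F) (div_ne_zero hF' hF) ?_
    have h2 : v (F' / F) = v F' - v F := by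
      rw [div_eq_mul_inv, v.map_mul hF' (inv_ne_zero hF), v.map_inv hF]
      ring
    rw [h2, hvF, hvF', Nat.cast_sub hlt.le]
    push_cast
    ring
  · push Not at hex
    exact ⟨j₀, fun j hj => hex j hj⟩

/-- **From gaps `< M`, `limsup = M`, to the closeness of the letters in `W<y>`.** -/
theorem Lt.cloIrr (h0 : Ctx0 k v) (hc : CompleteV v) (hL : Lt p v W t ν)
    (hfar : ∀ θ, IsAlgebraic W θ → y ≠ θ ∧ v (y - θ) < s) (hM : 0 < M) {j₁ : ℕ}
    (hlt : ∀ j, j₁ ≤ j → ∃ m' < M, NearB p v W s j m' y)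
    (hmin : ∀ m' < M, ∀ j₀ : ℕ, ∃ j ≥ j₀, ¬ NearB p v W s j m' y) :
    TWF.Clo p v W (cadj v W y) := by
  have hp0 : (0 : ℝ) < p := by exact_mod_cast hp.out.pos
  have hp1 : (1 : ℝ) < p := by exact_mod_cast hp.out.one_lt
  have hq : (0 : ℝ) < (p : ℝ) - 1 := by linarith
  set q₁ : ℕ := p ^ j₁ with hq₁
  have hq₁0 : (0 : ℝ) < (p : ℝ) ^ j₁ := by positivity
  set z := y ^ q₁ with hz
  set s' : ℝ := p ^ j₁ * s with hs'
  set C' := cadj v W z with hC'
  have hWC' : W ≤ C' := le_cadj v W z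
  have hzC' : z ∈ C' := self_mem_cadj v W z
  have hlt' : ∀ j, ∃ m' < M, NearB p v W s' j m' z := fun j => by
    obtain ⟨m', h1, h2⟩ := hlt (j + j₁) (by omega)
    exact ⟨m', h1, (nearB_pow j₁).2 h2⟩
  have hnear : ∀ j, NearB p v W s' j M z := fun j => by
    obtain ⟨m', h1, h2⟩ := hlt' j
    exact h2.mono hp0 h1.le
  -- `z` over the perfect closure
  have hTL : TL v (perfC p W) z s' := by
    refine ⟨fun ε hε => ?_, fun θ hθ => ?_⟩
    · obtain ⟨N, hN⟩ := pow_unbounded_of_one_lt (2 * M / ε) hp1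
      obtain ⟨a, ha, h1⟩ := hnear N (ε / 2) (by positivity)
      refine ⟨a, (mem_perfC p).2 ⟨N, ha⟩, h1.mono ?_⟩
      have h2 : M / p ^ (N + 1) ≤ ε / 2 := by
        rw [div_le_div_iff₀ (by positivity) two_pos]
        have h3 : (p : ℝ) ^ N ≤ p ^ (N + 1) := pow_le_pow_right₀ hp1.le (by omega)
        rw [div_lt_iff₀ hε] at hN
        nlinarith
      linarith
    · have hθW : IsAlgebraic W θ :=
        isAlgebraic_of_algc (D2P.isAlgebraic_mono (perfC_le_algc p W) hθ)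
      obtain ⟨η, hη⟩ := IsAlgClosed.exists_pow_nat_eq θ (pow_pos hp.out.pos j₁)
      have hηW : IsAlgebraic W η := (IsAlgebraic.of_pow (pow_pos hp.out.pos j₁)
        (by rw [hη]; exact hθW))
      obtain ⟨h1, h2⟩ := hfar η hηW
      have e1 : z - θ = (y - η) ^ p ^ j₁ := by
        rw [hz, hq₁, ← hη, sub_pow_char_pow]
      have h3 : y - η ≠ 0 := sub_ne_zero.2 h1
      have h4 : z - θ ≠ 0 := by
        rw [e1]
        exact pow_ne_zero _ h3
      refine ⟨sub_ne_zero.1 h4, ?_⟩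
      rw [e1, v.map_pow h3, hs']
      push_cast
      exact mul_lt_mul_of_pos_left h2 hq₁0
  -- the precision
  have hB : BH p v W C' M := bh_of_lt hzC' hlt' fun m' hm' j₀ => by
    obtain ⟨j, hj, h1⟩ := hmin m' hm' (j₀ + j₁)
    refine ⟨j - j₁, by omega, fun h2 => h1 ?_⟩
    have h3 := (nearB_pow (p := p) (v := v) (W := W) (s := s) (m := m') (f := y) (j := j - j₁)
      j₁).1 h2
    rwa [Nat.sub_add_cancel (by omega)] at h3
  have hS : ∀ n, 1 ≤ n → Shf p v W C' n (M / (p : ℝ) ^ n) := fun n hn =>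
    hL.shf h0 hM hWC' hB n hn
  -- `y` is algebraic over `C'`
  have hyalg : IsAlgebraic C' y ∧ (minpoly C' y).natDegree ≤ p ^ j₁ := by
    have hpol : (X ^ p ^ j₁ - C (⟨z, hzC'⟩ : C') : Polynomial C').Monic :=
      monic_X_pow_sub_C _ (pow_pos hp.out.pos j₁).ne'
    have hev : aeval y (X ^ p ^ j₁ - C (⟨z, hzC'⟩ : C') : Polynomial C') = 0 := by
      rw [map_sub, map_pow, aeval_X, aeval_C]
      exact sub_self _
    refine ⟨⟨_, hpol.ne_zero, hev⟩, ?_⟩
    refine (natDegree_le_of_dvd (minpoly.dvd C' y hev) hpol.ne_zero).trans ?_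
    rw [natDegree_X_pow_sub_C]
  have hC'C : C' ≤ cadj v W y :=
    cadj_le (cld_cadj v W y) (le_cadj v W y) (pow_mem (self_mem_cadj v W y) _)
  have hCC' : cadj v W y ≤ cadj v C' y :=
    cadj_le (cld_cadj v C' y) (hWC'.trans (le_cadj v C' y)) (self_mem_cadj v C' y)
  refine ⟨M, j₁, (p - 1) * M / 2, hM, by positivity, fun X q hX0 hX hr hd hδ n hn => ?_⟩
  have hLX : Lt p v W X (q - v (X 0)) := lt_of_dst hL.cld (x₁ := t 1)
    (by rw [hL.root 0]; exact hL.mem) hL.gen hX0 hX hr hd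
  have hXP : ∀ n, X n ∈ perfC p W := fun n => (mem_perfC p).2 ⟨n, by
    have h2 := hLX.tpow 0 n
    rw [zero_add] at h2
    rw [h2]
    exact hX0⟩
  have hTgt : Tgt p v C' X (q + M) := by
    refine ⟨cld_cadj v W z, hWC' hX0, hr, fun i => ⟨?_, ?_⟩⟩
    · rintro ⟨c, hcC, hgt⟩
      by_cases hce : X (i + 1) - c = 0
      · have h1 := hLX.upperS h0 hc hM.le (by linarith) (le_perfC p W) hXP hTL hnear
          (n := i + 1) (by omega) hcC
          (D := (v (X 0) + (q - v (X 0)) + M) / p ^ (i + 1) + 1) (by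
            rw [hce]
            exact RVal.Ge.zero)
        linarith
      · have h1 := hLX.upperS h0 hc hM.le (by linarith) (le_perfC p W) hXP hTL hnear
          (n := i + 1) (by omega) hcC (D := v (X (i + 1) - c)) (RVal.ge_self _)
        have h3 := hgt hce
        have h4 : v (X 0) + (q - v (X 0)) + M = q + M := by ring
        rw [h4] at h1
        linarith
    · exact lim_letter hM hWC' hS hX0 hX hr hd (by nlinarith) i
  refine hTgt.dst_of_alg p h0 hc (n := n + 1) hC'C hCC' hyalg.1 ?_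
  refine lt_of_le_of_lt hyalg.2 (Nat.pow_lt_pow_right hp.out.one_lt (by omega))

end Gaps

end Pool.Agent.TWTR

namespace Pool.Agent.TWF

open Pool.Agent.H15JM (RVal)
open Pool.Agent.LU1 (VPos adj)
open Pool.Agent.D2 (Ctx0)
open Pool.Agent.TW (PBasis Ctx)
open Pool.Agent.TWM
open Pool.Agent.TWC (RatR)
open Pool.Agent.TWTR
open Pool.Agent.TWJ2 (FJ)

universe u

/-- **Row IRR.** -/
theorem rowIrr {p : ℕ} [hp : Fact p.Prime] {k : Type u} [Field k] [IsAlgClosed k] [CharP k p] :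
    RowIrr p k := by
  intro Ω _ _ _ _ v hctx hc C W x y s hF hbd hr
  have h0 : Ctx0 k v := hctx.toCtx0
  obtain ⟨x₁, hx₁⟩ := IsAlgClosed.exists_pow_nat_eq x hp.out.pos
  have hWC : W ≤ C := hF.le_C
  obtain ⟨b, hb⟩ := hbd
  have hx₁C : x₁ ∉ C := fun h => hb x₁ h (by
    rw [hx₁, sub_self]
    exact Gt.zero)
  have hxp : ∀ a ∈ W, a ^ p ≠ x := fun a ha h => hb a (hWC ha) (by
    rw [h, sub_self]
    exact Gt.zero)
  have hgen := gen_of_pb hx₁ hF.pb
  have hHL : HL p v W := fun δ hδ => by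
    obtain ⟨t, ν, g, h1, h2, -⟩ := exists_Lt hF.cld hF.mem hxp hx₁ hgen hδ
    exact ⟨t, ν, h1, h2⟩
  obtain ⟨t, ν, g, hL, -, hg, -, ht1⟩ := exists_Lt hF.cld hF.mem hxp hx₁ hgen one_pos
  have htC : t 1 ∉ C := by
    rw [ht1]
    intro h
    refine hx₁C ?_
    have h1 := add_mem h (hWC hg)
    rwa [sub_add_cancel] at h1
  obtain ⟨m, -, hm⟩ := gap_bound h0 hc hL hF.cldC hWC htC hF.mem_y hF.lim
  have hirr := TWS7.irr_of_not_rat hctx hF.x0 hF.vx hr
  by_cases hS : StrW v W y s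
  · exact Or.inl hS
  right
  obtain ⟨j₀, hR⟩ := lemR_of_not h0 hc hHL hF.far hF.lim hS
  obtain ⟨M, hM0, hM1, hM2⟩ := exists_sup ⟨m, fun j ε hε => hm j ε hε⟩
    (fun j m h => NearB.nonneg hF.far h) hR
  rcases hM0.eq_or_lt with rfl | hM
  · exact Or.inl (fj_of_gap hF.far (hM1 j₀ le_rfl))
  · obtain ⟨j₁, hj₁⟩ := hL.gap_ne h0 hc hM hirr hM1
    right
    rw [hF.eq]
    exact hL.cloIrr h0 hc hF.far hM hj₁ hM2

end Pool.Agent.TWF
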