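import Pool.Agent.Lib.TWF.CovT

/-!
# TANK W, the cover: the value group of the base

* `RowTgtW`: `RowTgt`, the value group of `W` is `p`-divisible;
* `RowTame`: `RowTgt`, the value group of `W` is not `p`-divisible;
* `rowTgt_of`.
-/

set_option autoImplicit false

namespace Pool.Agent.TWF

open Pool.Agent.H15JM (RVal)
open Pool.Agent.TW (Ctx)
open Pool.Agent.TWM
open Pool.Agent.TWS (VG)

universe u

/-- **Row T8**, the values of `W` are `p`-divisible. -/
def RowTgtW (p : ℕ) [Fact p.Prime] (k : Type u) [Field k] : Prop :=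
  ∀ (Ω : Type u) [Field Ω] [Algebra k Ω] [IsAlgClosed Ω] [CharP Ω p] (v : RVal Ω), Ctx k v 1 →
    CompleteV v → ∀ (C₁ C : IntermediateField k Ω) (x y : Ω) (s c₀ : ℝ), Bs p v C₁ C →
      FInf p v C x y s c₀ → (∀ g ∈ VG v (WX v C x), g / p ∈ VG v (WX v C x)) →
        Clo p v (WX v C x) C → Alt p v C

/-- **Row T8**, the values of `W` are not `p`-divisible. -/
def RowTame (p : ℕ) [Fact p.Prime] (k : Type u) [Field k] : Prop :=
  ∀ (Ω : Type u) [Field Ω] [Algebra k Ω] [IsAlgClosed Ω] [CharP Ω p] (v : RVal Ω), Ctx k v 1 →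
    CompleteV v → ∀ (C₁ C : IntermediateField k Ω) (x y : Ω) (s c₀ : ℝ), Bs p v C₁ C →
      FInf p v C x y s c₀ → ¬ (∀ g ∈ VG v (WX v C x), g / p ∈ VG v (WX v C x)) →
        Clo p v (WX v C x) C → Alt p v C

theorem rowTgt_of {p : ℕ} [Fact p.Prime] {k : Type u} [Field k] (hW : RowTgtW p k)
    (hT : RowTame p k) : RowTgt p k := by
  intro Ω _ _ _ _ v hctx hc C₁ C x y s c₀ hB hF hC
  by_cases hd : ∀ g ∈ VG v (WX v C x), g / p ∈ VG v (WX v C x)
  · exact hW Ω v hctx hc C₁ C x y s c₀ hB hF hd hC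
  · exact hT Ω v hctx hc C₁ C x y s c₀ hB hF hd hC

end Pool.Agent.TWF
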