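import Pool.Agent.Lib.TWF.CovC

/-!
# TANK W, the cover of the infinite first floor from the rows

* `infCover_of_rows`: `InfCover` from `RowTri`, `RowIrr`, `RowTgt` and the honest row.
-/

set_option autoImplicit false

open Polynomial

namespace Pool.Agent.TWF

open Pool.Agent.H15JM (RVal)
open Pool.Agent.D2 (Ctx0)
open Pool.Agent.TW (Ctx)
open Pool.Agent.TWM
open Pool.Agent.TWC (RatR)
open Pool.Agent.TWJ2 (FJ)

universe u

/-- **Row H**, the alternatives. -/
def RowAlt (p : ℕ) [Fact p.Prime] (k : Type u) [Field k] : Prop :=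
  ∀ (Ω : Type u) [Field Ω] [Algebra k Ω] [IsAlgClosed Ω] [CharP Ω p] (v : RVal Ω), Ctx k v 1 →
    CompleteV v → ∀ (C₁ C : IntermediateField k Ω) (x y : Ω) (s c₀ : ℝ), Bs p v C₁ C →
      FInf p v C x y s c₀ → FJ v (WX v C x) y → AltH p v C ∨ AltC p v C

variable {p : ℕ} [hp : Fact p.Prime] {k : Type u} [Field k] [IsAlgClosed k] [CharP k p]

omit [IsAlgClosed k] [CharP k p] in
/-- The distance of `x` to the `p`-th powers is finite. -/
theorem FInf.bd {Ω : Type u} [Field Ω] [Algebra k Ω] [CharP Ω p] {v : RVal Ω}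
    {C : IntermediateField k Ω} {x y : Ω} {s c₀ : ℝ} (h : FInf p v C x y s c₀) :
    ∃ b : ℝ, ∀ g ∈ C, ¬ Gt v b (x - g ^ p) :=
  ⟨v x + c₀, fun _ hg => TWCT.bound_of_oi h.oi h.x0 hg⟩

/-- **The cover from the rows.** -/
theorem infCover_of_rows (hT : RowTri p k) (hI : RowIrr p k) (hG : RowTgt p k)
    (hH : RowAlt p k) : InfCover p k := by
  intro Ω _ _ _ _ v hctx hc C₁ C x y s c₀ hB hF
  have h0 : Ctx0 k v := hctx.toCtx0
  have hfar : ∀ θ : Ω, IsAlgebraic (WX v C x) θ → y ≠ θ ∧ v (y - θ) < s :=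
    fun θ hθ => FInf.far (p := p) hF hθ
  have hjump : FJ v (WX v C x) y → Alt p v C := fun h1 =>
    Or.inr (Or.inr (Or.inr (Or.inr (Or.inr (hH Ω v hctx hc C₁ C x y s c₀ hB hF h1)))))
  by_cases hr : RatR (v x) s
  · obtain ⟨e, c, hct, hvc⟩ := exists_tr (p := p) hF.x0 hr
    have hbas := hF.bas h0 hc hct hvc
    rcases hT Ω v hctx hc _ x _ hbas with h1 | h1 | h1 | h1
    · have h2 : StrW v (WX v C x) y s := strW_back hct.1 hvc h1
      exact Or.inr (Or.inr (Or.inr (Or.inl (hF.altR h0 hc h2 hr))))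
    · have h2 : StrZ p v (WX v C x) C y s :=
        strZ_back h0 hF.div hF.toFF.mem_x hF.x0 hfar hct hvc h1
      exact Or.inr (Or.inr (Or.inr (Or.inr (Or.inl (hF.altZ h0 hc h2)))))
    · exact hjump (fj_back hF.toFF.xW (fun θ hθ => (hfar θ hθ).1) hct hvc h1)
    · have h2 := clo_back h0 hc (cld_WX v C x) hF.x0 hF.toFF.xW hct h1
      rw [← hF.toFF.eq_W] at h2
      exact hG Ω v hctx hc C₁ C x y s c₀ hB hF h2
  · rcases hI Ω v hctx hc C _ x y s (hF.flr h0 hc) hF.bd hr with h1 | h1 | h1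
    · exact Or.inr (Or.inr (Or.inl (hF.altS h0 hc h1 hr)))
    · exact hjump h1
    · exact hG Ω v hctx hc C₁ C x y s c₀ hB hF h1

end Pool.Agent.TWF
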