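import Pool.Agent.Lib.TWTR.BasB
import Pool.Agent.Lib.TWTR.T3L
import Pool.Agent.Lib.TWTR.CloB

/-!
# TANK W, the cover of the infinite first floor: row TRI

`rowTri`: radius zero. Letters with a small defect (`bas_exists_Lt`), bounded gaps (`bas_near`), the
trichotomy (`t3`), the distances of the roots of the letters (`clo_of_min`).
-/

set_option autoImplicit false

open Polynomial

namespace Pool.Agent.TWF

open Pool.Agent.H15JM (RVal)
open Pool.Agent.D2 (Ctx0)
open Pool.Agent.TW (Ctx)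
open Pool.Agent.TWM
open Pool.Agent.TWTR

universe u

/-- **Row TRI.** -/
theorem rowTri {p : ℕ} [hp : Fact p.Prime] {k : Type u} [Field k] [CharP k p] [IsAlgClosed k] :
    RowTri p k := by
  intro Ω _ _ _ _ v hctx hc W x z hB
  have h0 : Ctx0 k v := hctx.toCtx0
  have hL : HL p v W := fun δ hδ => by
    obtain ⟨t, ν, h1, h2, -⟩ := bas_exists_Lt hB hδ
    exact ⟨t, ν, h1, h2⟩
  obtain ⟨b, -, hb⟩ := bas_near h0 hc hB
  rcases t3 h0 hc hL hB.far hB.lim ⟨b, hb⟩ with h | h | h | ⟨A, hA, m, hm, h1, h2⟩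
  · exact Or.inl h
  · exact Or.inr (Or.inl h)
  · exact Or.inr (Or.inr (Or.inl h))
  · obtain ⟨t, ν, h3, -⟩ := hL 1 one_pos
    exact Or.inr (Or.inr (Or.inr (clo_of_min h0 hc h3 hB.far hA hm h1 h2)))

end Pool.Agent.TWF
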