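import Pool.Agent.Lib.TWF.CPg
import Pool.Agent.Lib.TWF.InfDefs
import Pool.Agent.Lib.D2P.A2sAux

/-!
# TANK W, the infinite first floor: change of the coordinate `x`

* `algIn_congr`: `t`, algebraic over `k(x)`, `v t ≠ 0`: the same algebraic closure in `C`;
* `FInf.change`: `FInf` for `t`, if `x` is in the closure of `k(t)`;
* `FInf.exists_unif`: if the values of `W` are not `p`-divisible, one can take `t` with `v t < 0` and
  `v t / p` not a value of `W`.
-/

set_option autoImplicit false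

open Polynomial

namespace Pool.Agent.TWF

open Pool.Agent.H15JM (RVal)
open Pool.Agent.LU1 (VPos adj)
open Pool.Agent.D2 (Ctx0)
open Pool.Agent.D2P (hen clI mem_clI mem_adj_self)
open Pool.Agent.TW (Full BD PBasis Ctx)
open Pool.Agent.TWM
open Pool.Agent.TWS (VG)
open Pool.Agent.TWC (CP EW transcendental_of_val val_bot)

universe u

variable {k Ω : Type u} [Field k] [Field Ω] [Algebra k Ω] {v : RVal Ω}
  {C : IntermediateField k Ω} {x y t : Ω} {s c₀ : ℝ} {p : ℕ}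

/-- `k(x)` and `k(t)` have the same algebraic closure. -/
theorem isAlg_swap [IsAlgClosed k] (h0 : Ctx0 k v) (ht0 : t ≠ 0) (htv : v t ≠ 0)
    (ht : IsAlgebraic (adj (⊥ : IntermediateField k Ω) x) t) {a : Ω}
    (ha : IsAlgebraic (adj (⊥ : IntermediateField k Ω) x) a) :
    IsAlgebraic (adj (⊥ : IntermediateField k Ω) t) a := by
  have h1 : IsAlgebraic (adj (⊥ : IntermediateField k Ω) t) x :=
    D2P.alg_exchange (transcendental_of_val h0 ht0 htv) ht
  have h2 : ∀ b ∈ adj (⊥ : IntermediateField k Ω) x,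
      IsAlgebraic (adj (⊥ : IntermediateField k Ω) t) b := by
    intro b hb
    have h3 : adj (⊥ : IntermediateField k Ω) x ≤
        adj (⊥ : IntermediateField k Ω) t ⊔ IntermediateField.adjoin k {x} :=
      D2P.adj_le bot_le (le_sup_right (a := adj (⊥ : IntermediateField k Ω) t)
        (IntermediateField.mem_adjoin_simple_self k x))
    refine D2P.isAlgebraic_sup {x} (fun z hz => ?_) b (h3 hb)
    rw [Set.mem_singleton_iff.1 hz]
    exact h1
  exact D2P.isAlgebraic_trans h2 ha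

theorem algIn_congr [IsAlgClosed k] (h0 : Ctx0 k v) (hx0 : x ≠ 0) (hxv : v x ≠ 0) (ht0 : t ≠ 0)
    (htv : v t ≠ 0) (ht : IsAlgebraic (adj (⊥ : IntermediateField k Ω) x) t) :
    algIn C (adj (⊥ : IntermediateField k Ω) t) = algIn C (adj ⊥ x) := by
  have hx : IsAlgebraic (adj (⊥ : IntermediateField k Ω) t) x :=
    D2P.alg_exchange (transcendental_of_val h0 ht0 htv) ht
  refine le_antisymm (fun a ha => ?_) fun a ha => ?_
  · obtain ⟨h1, h2⟩ := mem_algIn.1 ha
    exact mem_algIn.2 ⟨h1, isAlg_swap h0 hx0 hxv hx h2⟩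
  · obtain ⟨h1, h2⟩ := mem_algIn.1 ha
    exact mem_algIn.2 ⟨h1, isAlg_swap h0 ht0 htv ht h2⟩

variable [hp : Fact p.Prime] [CharP k p] [CharP Ω p] [IsAlgClosed k]

omit [CharP k p] in
/-- **Change of the coordinate.** -/
theorem FInf.change (h0 : Ctx0 k v) (hc : CompleteV v) (h : FInf p v C x y s c₀) (htC : t ∈ C)
    (ht0 : t ≠ 0) (htv : v t ≠ 0) (ht : IsAlgebraic (adj (⊥ : IntermediateField k Ω) x) t)
    (hxt : x ∈ cadj v (⊥ : IntermediateField k Ω) t) :
    ∃ c₁, FInf p v C t y s c₁ ∧ WX v C t = WX v C x := by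
  have hal : algIn C (adj (⊥ : IntermediateField k Ω) t) = algIn C (adj ⊥ x) :=
    algIn_congr h0 h.x0 h.vx ht0 htv ht
  have heq : C = CP v t y := by
    refine le_antisymm ?_ (TWM.cadj_le h.toFF.cld (TWM.cadj_le h.toFF.cld bot_le htC) h.toFF.mem_y)
    nth_rw 1 [h.eq]
    refine TWM.cadj_le (cld_cadj v _ _) ?_ (self_mem_cadj v _ _)
    exact TWM.cadj_le (cld_cadj v _ _) bot_le (le_cadj v _ _ hxt)
  have hTG : CPf.TG p v C := CPf.TG.of_eq h.eq h.oi h.x0 h.y0
  have hTG' : CPf.TG p v (CP (k := k) v t y) := by rwa [← heq]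
  obtain ⟨-, c₁, ho⟩ := hTG'.oi hc
  rw [← heq] at ho
  refine ⟨c₁, { toFF := ⟨heq, ht0, htv, h.y0, ho⟩, tl := ?_, inf := ?_, div := h.div }, ?_⟩
  · have h1 : EX p v C t = EX p v C x := by rw [EX, EX, hal]
    rw [h1]
    exact h.tl
  · intro w hw hle
    rw [hal] at hw hle
    -- `k(t, w)` is in the closure of `k(π)`
    have hw' : IsAlgebraic (adj (⊥ : IntermediateField k Ω) t) w :=
      isAlg_swap h0 ht0 htv ht (mem_algIn.1 hw).2
    obtain ⟨π, hπ, hπ0, hπv, -, hπle⟩ := disc_cl' h0 ht0 htv hw'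
    have htA : t ∈ algIn C (adj (⊥ : IntermediateField k Ω) x) := mem_algIn.2 ⟨htC, ht⟩
    have hπA : π ∈ algIn C (adj (⊥ : IntermediateField k Ω) x) :=
      D2P.adj_le (D2P.adj_le bot_le htA) hw hπ
    refine h.inf π hπA (hle.trans ?_)
    refine TWC.clI_le' ?_ (cld_clI v _)
    refine hπle.trans (TWC.clI_mono' ?_)
    exact D2P.adj_le bot_le (mem_adj_self _ π).1
  · rw [WX, WX, hal]

/-- **A coordinate with a value which is not divisible by `p`.** -/
theorem FInf.exists_unif (h0 : Ctx0 k v) (hc : CompleteV v) (h : FInf p v C x y s c₀)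
    (hd : ¬ ∀ g ∈ VG v (WX v C x), g / p ∈ VG v (WX v C x)) :
    ∃ (t : Ω) (c₁ : ℝ), FInf p v C t y s c₁ ∧ WX v C t = WX v C x ∧ v t < 0 ∧
      v t / p ∉ VG v (WX v C t) := by
  push Not at hd
  obtain ⟨g, hg, hgp⟩ := hd
  have hVG : VG v (WX v C x) = VG v (algIn C (adj (⊥ : IntermediateField k Ω) x)) := VG.clI _
  rw [hVG] at hg
  obtain ⟨w, hw, hw0, rfl⟩ := hg
  obtain ⟨π, hπ, hπ0, hπv, -, hle⟩ := disc_cl' h0 h.x0 h.vx (mem_algIn.1 hw).2
  have hxA : x ∈ algIn C (adj (⊥ : IntermediateField k Ω) x) := mem_algIn_self h.toFF.mem_x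
  have hπA : π ∈ algIn C (adj (⊥ : IntermediateField k Ω) x) :=
    D2P.adj_le (D2P.adj_le bot_le hxA) hw hπ
  have ht0 : π⁻¹ ≠ 0 := inv_ne_zero hπ0
  have htv : v π⁻¹ < 0 := by
    rw [v.map_inv hπ0]
    linarith
  have hcl : cadj v (⊥ : IntermediateField k Ω) π⁻¹ = cadj v (⊥ : IntermediateField k Ω) π := by
    rw [cadj, cadj, adj_inv]
  have hxt : x ∈ cadj v (⊥ : IntermediateField k Ω) π⁻¹ := by
    rw [hcl]
    exact hle ((mem_adj_self _ w).2 (mem_adj_self _ x).1)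
  have hwt : w ∈ cadj v (⊥ : IntermediateField k Ω) π⁻¹ := by
    rw [hcl]
    exact hle (mem_adj_self _ w).1
  obtain ⟨c₁, h1, h2⟩ := h.change h0 hc (t := π⁻¹) (inv_mem (mem_algIn.1 hπA).1) ht0 htv.ne
    (mem_algIn.1 (inv_mem hπA)).2 hxt
  refine ⟨π⁻¹, c₁, h1, h2, htv, fun h3 => hgp ?_⟩
  rw [h2] at h3
  obtain ⟨m, hm⟩ := val_bot h0 ht0 htv hwt hw0
  have h4 : v w / p = m • (v π⁻¹ / p) := by
    rw [hm, zsmul_eq_mul]
    ring
  rw [h4]
  exact zsmul_mem h3 m

end Pool.Agent.TWF
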