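import Pool.Agent.Lib.TWC.AxP
import Pool.Agent.Lib.TWC.EW
import Pool.Agent.Lib.TWC.BaseCh

/-!
# TANK W, the first floor, part 1

* `perfC p E`: the perfect closure of `E`;
* `tl_of_perf`: `K` henselian, regular over the perfect henselian field `E`: the elements of `K` which
  are not in the closure of `E` are of transcendental type over `E`;
* `ff_tl`: `C` closed, `A ≤ C` henselian, `W` the algebraic closure of `A` in `C`, `y ∈ C` not in the
  closure `E` of the perfect closure of `W`: `y` is of transcendental type over `E`.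
-/

set_option autoImplicit false

open Polynomial

namespace Pool.Agent.TWF

open Pool.Agent.H15JM (RVal)
open Pool.Agent.LU1 (VPos adj)
open Pool.Agent.LUC (Cl clF)
open Pool.Agent.D2 (Ctx0)
open Pool.Agent.D2P (hen clI mem_clI)
open Pool.Agent.TW (Full)
open Pool.Agent.TWM
open Pool.Agent.TWC

universe u

variable {k Ω : Type u} [Field k] [Field Ω] [Algebra k Ω] {v : RVal Ω}
  {A C E K W : IntermediateField k Ω}

section PC

variable (p : ℕ) [hp : Fact p.Prime] [CharP Ω p]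

/-- The perfect closure. -/
noncomputable def perfC (E : IntermediateField k Ω) : IntermediateField k Ω :=
  ⨆ n : ℕ, D2P.rootF p n E

theorem rootF_mono {E : IntermediateField k Ω} : Monotone fun n : ℕ => D2P.rootF p n E := by
  refine monotone_nat_of_le_succ fun n a ha => ?_
  have h1 : a ^ p ^ n ∈ E := D2P.mem_rootF.1 ha
  refine D2P.mem_rootF.2 ?_
  rw [pow_succ, pow_mul]
  exact pow_mem h1 p

theorem mem_perfC {a : Ω} : a ∈ perfC p E ↔ ∃ n : ℕ, a ^ p ^ n ∈ E := by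
  rw [perfC, ← IntermediateField.mem_toSubfield]
  have h1 : Directed (· ≤ ·) fun n : ℕ => D2P.rootF p n E := (rootF_mono p).directed_le
  have h2 : (a ∈ (⨆ n : ℕ, D2P.rootF p n E : IntermediateField k Ω)) ↔
      ∃ n, a ∈ D2P.rootF p n E := by
    rw [← SetLike.mem_coe, IntermediateField.coe_iSup_of_directed h1, Set.mem_iUnion]
    rfl
  rw [IntermediateField.mem_toSubfield, h2]
  exact ⟨fun ⟨n, h⟩ => ⟨n, D2P.mem_rootF.1 h⟩, fun ⟨n, h⟩ => ⟨n, D2P.mem_rootF.2 h⟩⟩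

theorem le_perfC (E : IntermediateField k Ω) : E ≤ perfC p E := fun a ha =>
  (mem_perfC p).2 ⟨0, by rwa [pow_zero, pow_one]⟩

theorem perfC_mono (h : A ≤ E) : perfC p A ≤ perfC p E := fun a ha => by
  obtain ⟨n, hn⟩ := (mem_perfC p).1 ha
  exact (mem_perfC p).2 ⟨n, h hn⟩

/-- The perfect closure is perfect. -/
theorem perfC_perf [IsAlgClosed Ω] (E : IntermediateField k Ω) :
    ∀ a ∈ perfC p E, ∃ b ∈ perfC p E, b ^ p = a := by
  intro a ha
  obtain ⟨n, hn⟩ := (mem_perfC p).1 ha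
  obtain ⟨b, hb⟩ := IsAlgClosed.exists_pow_nat_eq a hp.out.pos
  exact ⟨b, (mem_perfC p).2 ⟨n + 1, by rwa [pow_succ', pow_mul, hb]⟩, hb⟩

theorem perfC_alg {a : Ω} (ha : a ∈ perfC p E) : IsAlgebraic E a := by
  obtain ⟨n, hn⟩ := (mem_perfC p).1 ha
  exact IsAlgebraic.of_pow (pow_pos hp.out.pos n) (isAlgebraic_algebraMap (⟨_, hn⟩ : E))

theorem perfC_le_algc (E : IntermediateField k Ω) : perfC p E ≤ TWM.algc E := fun _ ha =>
  mem_algc.2 (perfC_alg p ha)

/-- The perfect closure of a henselian field is henselian. -/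
theorem hen_perfC [IsAlgClosed Ω] (h : Ctx0 k v) (hE : hen v E = E) :
    hen v (perfC p E) = perfC p E :=
  D2P.hen_alg h hE (le_perfC p E) fun _ ha => perfC_alg p ha

end PC

/-- The distance to a field. -/
theorem exists_dist {F : IntermediateField k Ω} {z : Ω} (hz : z ∉ clI v F) :
    ∃ ρ : ℝ, (∀ θ ∈ F, v (z - θ) ≤ ρ) ∧ ∀ ε : ℝ, 0 < ε → ∃ θ ∈ F, ρ - ε < v (z - θ) := by
  have h1 : ∃ b : ℝ, ∀ θ ∈ F, ¬ v.Ge b (z - θ) := by
    by_contra hno
    push Not at hno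
    exact hz (mem_clI.2 hno)
  obtain ⟨b, hb⟩ := h1
  have hne : {x : ℝ | ∃ θ ∈ F, x = v (z - θ)}.Nonempty := ⟨_, 0, zero_mem F, rfl⟩
  have hbd : BddAbove {x : ℝ | ∃ θ ∈ F, x = v (z - θ)} := by
    refine ⟨b, ?_⟩
    rintro _ ⟨θ, hθ, rfl⟩
    by_contra hlt
    push Not at hlt
    exact hb θ hθ fun _ => hlt.le
  refine ⟨sSup {x : ℝ | ∃ θ ∈ F, x = v (z - θ)}, fun θ hθ => le_csSup hbd ⟨θ, hθ, rfl⟩,
    fun ε hε => ?_⟩
  obtain ⟨_, ⟨θ, hθ, rfl⟩, h2⟩ := exists_lt_of_lt_csSup hne (sub_lt_self _ hε)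
  exact ⟨θ, hθ, h2⟩

/-- Over a perfect henselian field there are no jumps. -/
theorem tl_of_perf (p : ℕ) [Fact p.Prime] [CharP Ω p] [IsAlgClosed Ω] (h : Ctx0 k v)
    (hEh : hen v E = E) (hp : ∀ a ∈ E, ∃ b ∈ E, b ^ p = a) (hfull : Full v E)
    (hKh : hen v K = K) (hEK : E ≤ K) (hreg : ∀ a ∈ K, IsAlgebraic E a → a ∈ E) {y : Ω}
    (hyK : y ∈ K) (hyE : y ∉ clI v E) : ∃ s : ℝ, TL v E y s := by
  classical
  obtain ⟨s, hs, hs'⟩ := exists_dist (v := v) hyE
  have hne : ∀ θ : Ω, IsAlgebraic E θ → y ≠ θ := by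
    rintro θ hθ rfl
    exact hyE (TWM.le_clI E (hreg _ hyK hθ))
  have hle : ∀ θ : Ω, IsAlgebraic E θ → v (y - θ) ≤ s := by
    intro θ hθ
    by_contra hlt
    push Not at hlt
    obtain ⟨a, ha, h1⟩ := lim_of_alg p h hEh hp hKh hEK hreg hyK hθ (RVal.ge_self (y - θ))
      (ε := (v (y - θ) - s) / 2) (by linarith)
    have h2 := h1 (sub_ne_zero.2 fun h0 => hyE (TWM.le_clI E (h0 ▸ ha)))
    have h3 := hs a ha
    linarith
  refine ⟨s, ⟨fun ε hε => ?_, fun θ hθ => ⟨hne θ hθ, lt_of_le_of_ne (hle θ hθ) fun heq => ?_⟩⟩⟩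
  · obtain ⟨a, ha, h1⟩ := hs' ε hε
    exact ⟨a, ha, RVal.Ge.of_le h1.le⟩
  · -- a better algebraic element
    have h0 : y - θ ≠ 0 := sub_ne_zero.2 (hne θ hθ)
    obtain ⟨m, hm, e, he, he0, hve⟩ := hfull (y - θ) h0
    obtain ⟨η, hη⟩ := IsAlgClosed.exists_pow_nat_eq e hm
    have hη0 : η ≠ 0 := by
      rintro rfl
      rw [zero_pow hm.ne'] at hη
      exact he0 hη.symm
    have hvη : v η = v (y - θ) := by
      have h1 : (m : ℝ) * v η = m * v (y - θ) := by
        rw [← hve, ← hη, v.map_pow hη0]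
      exact mul_left_cancel₀ (by exact_mod_cast hm.ne') h1
    have hηE : IsAlgebraic E η :=
      IsAlgebraic.of_pow hm (hη ▸ isAlgebraic_algebraMap (⟨e, he⟩ : E))
    have h1 : (y - θ) / η ≠ 0 := div_ne_zero h0 hη0
    have h2 : v ((y - θ) / η) = 0 := by rw [v.map_div h0 hη0, hvη, sub_self]
    obtain ⟨c, hc0, hc⟩ := h.res _ h1 h2
    have hcE : IsAlgebraic E (algebraMap k Ω c) :=
      isAlgebraic_algebraMap (⟨_, E.algebraMap_mem c⟩ : E)
    have hθ' : IsAlgebraic E (θ + algebraMap k Ω c * η) := hθ.add (hcE.mul hηE)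
    have h3 := hle _ hθ'
    have h4 : y - (θ + algebraMap k Ω c * η) = ((y - θ) / η - algebraMap k Ω c) * η := by
      rw [sub_mul, div_mul_cancel₀ _ hη0]
      ring
    have h5 : (y - θ) / η - algebraMap k Ω c ≠ 0 := by
      intro h6
      rw [h6, zero_mul] at h4
      exact hne _ hθ' (sub_eq_zero.1 h4)
    rw [h4, v.map_mul h5 hη0, hvη, heq] at h3
    have h6 := hc h5
    linarith

/-- The algebraic closure of `A` in `C`. -/
noncomputable def algIn (C A : IntermediateField k Ω) : IntermediateField k Ω :=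
  C ⊓ TWM.algc A

theorem mem_algIn {a : Ω} : a ∈ algIn C A ↔ a ∈ C ∧ IsAlgebraic A a := by
  rw [algIn, IntermediateField.mem_inf, mem_algc]

/-- **The first floor.** -/
theorem ff_tl (p : ℕ) [hp : Fact p.Prime] [CharP Ω p] [IsAlgClosed Ω] (h : Ctx0 k v)
    (hA : hen v A = A) (hC : Cld v C) (hAC : A ≤ C) (hfull : Full v A) {y : Ω} (hy : y ∈ C)
    (hyE : y ∉ clI v (perfC p (algIn C A))) :
    ∃ s : ℝ, TL v (clI v (perfC p (algIn C A))) y s := by
  have hAW : A ≤ algIn C A := fun a ha =>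
    mem_algIn.2 ⟨hAC ha, isAlgebraic_algebraMap (⟨a, ha⟩ : A)⟩
  have hWh : hen v (algIn C A) = algIn C A :=
    D2P.hen_alg h hA hAW fun a ha => (mem_algIn.1 ha).2
  have hCh : hen v C = C := TWM.C.hen_eq hC
  have hEh := hen_perfC (v := v) p h hWh
  have hKh := hen_perfC (v := v) p h hCh
  have hreg : ∀ a ∈ perfC p C, IsAlgebraic (perfC p (algIn C A)) a → a ∈ perfC p (algIn C A) := by
    intro a ha halg
    obtain ⟨n, hn⟩ := (mem_perfC p).1 ha
    refine (mem_perfC p).2 ⟨n, mem_algIn.2 ⟨hn, ?_⟩⟩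
    have h1 : perfC p (algIn C A) ≤ TWM.algc A := by
      intro b hb
      obtain ⟨m, hm⟩ := (mem_perfC p).1 hb
      exact mem_algc.2 (IsAlgebraic.of_pow (pow_pos hp.out.pos m) (mem_algIn.1 hm).2)
    exact (isAlgebraic_of_algc (D2P.isAlgebraic_mono h1 halg)).pow _
  obtain ⟨s, hs⟩ := tl_of_perf p h hEh (perfC_perf p _) (hfull.mono (hAW.trans (le_perfC p _)))
    hKh (perfC_mono p (fun a ha => (mem_algIn.1 ha).1)) hreg (le_perfC p C hy) hyE
  exact ⟨s, TL.base hs (TWM.le_clI _) (clI_mono (le_algc _))⟩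

end Pool.Agent.TWF
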