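import Pool.Agent.Lib.TWF.FF2
import Pool.Agent.Lib.TWC.JDC
import Pool.Agent.Lib.TWC.TopD

/-!
# TANK W, the first floor, part 3: the discrete case

`C` the closure of `k(x, y)`, `W` the algebraic closure of `k(x)` in `C`, contained in the closure of
`k(x, w)` for one `w ∈ W`: `C` is the closure of `k(X 0, y)`, with `T2 p k v X y s` (`ff_disc`).
-/

set_option autoImplicit false

open Polynomial

namespace Pool.Agent.TWF

open Pool.Agent.H15JM (RVal)
open Pool.Agent.LU1 (VPos adj)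
open Pool.Agent.D2 (Ctx0)
open Pool.Agent.D2P (hen clI mem_clI mem_adj_self)
open Pool.Agent.TW (Full PBasis pcomb mon kr Ctx)
open Pool.Agent.TWA (kd)
open Pool.Agent.TWM
open Pool.Agent.TWS (VG)
open Pool.Agent.TWC (CP T2 EW)

universe u

variable {k Ω : Type u} [Field k] [Field Ω] [Algebra k Ω] {v : RVal Ω}
  {C W : IntermediateField k Ω}

theorem adj_eq (x w : Ω) : adj (adj (⊥ : IntermediateField k Ω) x) w =
    (IntermediateField.adjoin (kd k x) {w}).restrictScalars k := by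
  rw [TWA.kd_eq, IntermediateField.restrictScalars_adjoin, IntermediateField.adjoin_union,
    IntermediateField.adjoin_self]
  rfl

/-- A finite extension of `k(x)` is in the closure of `k(π)`. -/
theorem disc_cl (h : Ctx0 k v) {x : Ω} (hx0 : x ≠ 0) (hx : 0 < v x) {w : Ω}
    (hw : IsAlgebraic (adj (⊥ : IntermediateField k Ω) x) w) :
    ∃ π ∈ adj (adj (⊥ : IntermediateField k Ω) x) w, π ≠ 0 ∧ 0 < v π ∧
      (∀ f ∈ adj (adj (⊥ : IntermediateField k Ω) x) w, f ≠ 0 → 0 < v f → v π ≤ v f) ∧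
      adj (adj (⊥ : IntermediateField k Ω) x) w ≤ cadj v (⊥ : IntermediateField k Ω) π := by
  rw [TWA.kd_eq] at hw
  set M : IntermediateField (kd k x) Ω := IntermediateField.adjoin (kd k x) {w} with hM
  have hfd : FiniteDimensional (kd k x) M :=
    IntermediateField.adjoin.finiteDimensional hw.isIntegral
  have hmem : ∀ a, a ∈ adj (adj (⊥ : IntermediateField k Ω) x) w ↔ a ∈ M := fun a => by
    rw [adj_eq]
    rfl
  obtain ⟨π, hπ, hπ0, hπv, hmin⟩ := TWA.exists_unif h hx0 hx M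
  have hpos : ∀ f ∈ M, v.Ge 0 f → f ∈ cadj v (⊥ : IntermediateField k Ω) π := by
    intro f hf hf0
    obtain ⟨F, hF⟩ := TWA.exists_expansion h M hπ hπ0 hmin hf hf0
    refine mem_clI.2 fun b => ?_
    obtain ⟨n, hn⟩ := exists_nat_gt (b / v π)
    refine ⟨aeval π (PowerSeries.trunc n F), ?_, (hF n).mono ?_⟩
    · have h1 : π ∈ adj (⊥ : IntermediateField k Ω) π := (mem_adj_self _ π).1
      rw [aeval_eq_sum_range]
      exact sum_mem fun i _ => IntermediateField.smul_mem _ (pow_mem h1 i)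
    · rw [div_lt_iff₀ hπv] at hn
      exact hn.le
  refine ⟨π, (hmem π).2 hπ, hπ0, hπv, fun f hf => hmin f ((hmem f).1 hf), fun f hf => ?_⟩
  have hπc : π ∈ cadj v (⊥ : IntermediateField k Ω) π := self_mem_cadj _ _ _
  by_cases hf0 : f = 0
  · rw [hf0]
    exact zero_mem _
  obtain ⟨n, hn⟩ := exists_nat_gt (- v f / v π)
  have h1 : v.Ge 0 (f * π ^ n) := fun h2 => by
    rw [v.map_mul hf0 (pow_ne_zero _ hπ0), v.map_pow hπ0]
    rw [div_lt_iff₀ hπv] at hn
    linarith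
  have h2 := hpos _ (mul_mem ((hmem f).1 hf) (pow_mem hπ n)) h1
  have h3 : f = f * π ^ n / π ^ n := by
    rw [mul_div_assoc, div_self (pow_ne_zero _ hπ0), mul_one]
  rw [h3]
  exact div_mem h2 (pow_mem hπc n)

theorem adj_inv (x : Ω) : adj (⊥ : IntermediateField k Ω) x⁻¹ = adj ⊥ x := by
  refine le_antisymm (D2P.adj_le bot_le (inv_mem (mem_adj_self _ x).1))
    (D2P.adj_le bot_le ?_)
  have h1 : (x⁻¹)⁻¹ ∈ adj (⊥ : IntermediateField k Ω) x⁻¹ := inv_mem (mem_adj_self _ x⁻¹).1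
  rwa [inv_inv] at h1

/-- The same, any value. -/
theorem disc_cl' (h : Ctx0 k v) {x : Ω} (hx0 : x ≠ 0) (hx : v x ≠ 0) {w : Ω}
    (hw : IsAlgebraic (adj (⊥ : IntermediateField k Ω) x) w) :
    ∃ π ∈ adj (adj (⊥ : IntermediateField k Ω) x) w, π ≠ 0 ∧ 0 < v π ∧
      (∀ f ∈ adj (adj (⊥ : IntermediateField k Ω) x) w, f ≠ 0 → 0 < v f → v π ≤ v f) ∧
      adj (adj (⊥ : IntermediateField k Ω) x) w ≤ cadj v (⊥ : IntermediateField k Ω) π := by
  rcases lt_or_gt_of_ne hx with h1 | h1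
  · rw [← adj_inv x] at hw ⊢
    exact disc_cl h (inv_ne_zero hx0) (by rw [v.map_inv hx0]; linarith) hw
  · exact disc_cl h hx0 h1 hw

/-- The henselization has the same algebraic closure in `C`. -/
theorem algIn_hen {A : IntermediateField k Ω} : algIn C (hen v A) = algIn C A := by
  ext a
  rw [mem_algIn, mem_algIn]
  refine and_congr_right fun _ => ⟨fun h1 => ?_, fun h1 => D2P.isAlgebraic_mono (D2P.le_hen A) h1⟩
  have h2 : hen v A ≤ TWM.algc A := fun b hb => mem_algc.2 (D2P.isAlgebraic_of_hen hb)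
  exact isAlgebraic_of_algc (D2P.isAlgebraic_mono h2 h1)

/-- **The first floor**, over any base. -/
theorem ff_tl0 (p : ℕ) [hp : Fact p.Prime] [CharP Ω p] [IsAlgClosed Ω] (h : Ctx0 k v)
    {A : IntermediateField k Ω} (hC : Cld v C) (hAC : A ≤ C) (hfull : Full v A) {y : Ω}
    (hy : y ∈ C) (hyE : y ∉ clI v (perfC p (algIn C A))) :
    ∃ s : ℝ, TL v (clI v (perfC p (algIn C A))) y s := by
  rw [← algIn_hen (v := v)] at hyE ⊢
  refine ff_tl p h (D2P.hen_hen A) hC (D2P.hen_le (TWM.C.hen_eq hC) hAC)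
    (hfull.mono (D2P.le_hen A)) hy hyE

/-- **The discrete case.** -/
theorem ff_disc (p : ℕ) [hp : Fact p.Prime] [IsAlgClosed k] [IsAlgClosed Ω] [CharP k p]
    [CharP Ω p] (h : Ctx k v 1) {x y : Ω} {c₀ : ℝ}
    (hO : OI p v (CP (k := k) v x y) ![x, y] c₀) (hx0 : x ≠ 0) (hx : v x ≠ 0) (hy0 : y ≠ 0)
    (hdiv : ∀ g ∈ VG v (CP (k := k) v x y), g / p ∈ VG v (CP (k := k) v x y)) {w : Ω}
    (hw : w ∈ algIn (CP (k := k) v x y) (adj ⊥ x))
    (hfin : algIn (CP (k := k) v x y) (adj ⊥ x) ≤ clI v (adj (adj ⊥ x) w)) :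
    ∃ (X : ℕ → Ω) (s : ℝ), T2 p k v X y s ∧ CP (k := k) v (X 0) y = CP v x y := by
  have h0 : Ctx0 k v := h.toCtx0
  have hp0 : (0 : ℝ) < p := by exact_mod_cast hp.out.pos
  set C := CP (k := k) v x y with hCdef
  set W := algIn C (adj (⊥ : IntermediateField k Ω) x) with hWdef
  have hCc : Cld v C := cld_clI v _
  have hxC : x ∈ C := le_cadj v _ _ (self_mem_cadj v _ _)
  have hyC : y ∈ C := self_mem_cadj v _ _
  have hxk : x ∈ adj (⊥ : IntermediateField k Ω) x := (mem_adj_self _ x).1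
  have hAC : adj (⊥ : IntermediateField k Ω) x ≤ C := D2P.adj_le bot_le hxC
  have hfar : y ∉ clI v (perfC p W) := ff_far p h0 hO hx0 hx hxC hyC hy0
  obtain ⟨s, hs⟩ := ff_tl0 p h0 hCc hAC (TWC.full_of_mem h hxk hx0 hx) hyC hfar
  obtain ⟨π, hπN, hπ0, hπv, hmin, hNπ⟩ := disc_cl' h0 hx0 hx (mem_algIn.1 hw).2
  set N := adj (adj (⊥ : IntermediateField k Ω) x) w with hNdef
  have hNC : N ≤ C := D2P.adj_le hAC (mem_algIn.1 hw).1
  have hNalg : ∀ a ∈ N, IsAlgebraic (adj (⊥ : IntermediateField k Ω) x) a := by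
    intro a ha
    have h1 : N ≤ TWM.algc (adj (⊥ : IntermediateField k Ω) x) :=
      D2P.adj_le (le_algc _) (mem_algc.2 (mem_algIn.1 hw).2)
    exact mem_algc.1 (h1 ha)
  have hNW : N ≤ W := fun a ha => mem_algIn.2 ⟨hNC ha, hNalg a ha⟩
  -- the element of negative value and its roots
  have hroot : ∀ b : Ω, ∃ c : Ω, c ^ p = b := fun b => IsAlgClosed.exists_pow_nat_eq b hp.out.pos
  choose f hf using hroot
  let X : ℕ → Ω := fun n => Nat.rec π⁻¹ (fun _ b => f b) n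
  have hX0 : X 0 = π⁻¹ := rfl
  have hXr : ∀ n, X (n + 1) ^ p = X n := fun n => hf (X n)
  have hXN : X 0 ∈ N := by
    rw [hX0]
    exact inv_mem hπN
  have hXne : X 0 ≠ 0 := by
    rw [hX0]
    exact inv_ne_zero hπ0
  have hXv : v (X 0) = - v π := by rw [hX0, v.map_inv hπ0]
  have hXr0 : X 1 ^ p = X 0 := hXr 0
  have hadj : adj (⊥ : IntermediateField k Ω) (X 0) = adj ⊥ π := by
    refine le_antisymm (D2P.adj_le bot_le ?_) (D2P.adj_le bot_le ?_)
    · rw [hX0]
      exact inv_mem (mem_adj_self _ π).1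
    · have h1 : π = (X 0)⁻¹ := by rw [hX0, inv_inv]
      rw [h1]
      exact inv_mem (mem_adj_self _ (X 0)).1
  have hcadj : cadj v (⊥ : IntermediateField k Ω) (X 0) = cadj v ⊥ π := by
    rw [cadj, hadj]
    rfl
  have hclN : clI v N = cadj v (⊥ : IntermediateField k Ω) (X 0) := by
    rw [hcadj]
    refine le_antisymm (TWC.clI_le' hNπ (cld_clI v _)) ?_
    exact TWM.cadj_le (cld_clI v _) bot_le (TWM.le_clI N hπN)
  have hWc : W ≤ cadj v (⊥ : IntermediateField k Ω) (X 0) := by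
    rw [← hclN]
    exact hfin
  -- the perfect closure
  have hP : ∀ a ∈ (⊥ : IntermediateField k Ω), ∃ b ∈ (⊥ : IntermediateField k Ω), b ^ p = a := by
    intro a ha
    obtain ⟨c, rfl⟩ := IntermediateField.mem_bot.1 ha
    obtain ⟨d, rfl⟩ := IsAlgClosed.exists_pow_nat_eq c hp.out.pos
    exact ⟨algebraMap k Ω d, IntermediateField.algebraMap_mem _ _, (map_pow _ d p).symm⟩
  have hroots : ∀ n : ℕ, ∀ a : Ω, a ^ p ^ n ∈ cadj v (⊥ : IntermediateField k Ω) (X 0) →
      a ∈ cadj v (⊥ : IntermediateField k Ω) (X n) := by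
    intro n
    induction n with
    | zero =>
      intro a ha
      rwa [pow_zero, pow_one] at ha
    | succ n ih =>
      intro a ha
      rw [pow_succ', pow_mul] at ha
      have h1 := ih _ ha
      rw [← TWC.rootF_cadj_perf (v := v) p hP hXr n]
      exact (mem_rootF1 p).2 h1
  have hEW : clI v (perfC p W) = EW v (⊥ : IntermediateField k Ω) X := by
    refine le_antisymm (TWC.clI_le' (fun a ha => ?_) TWC.EW.cld) ?_
    · obtain ⟨n, hn⟩ := (mem_perfC p).1 ha
      exact TWC.EW.cadj_le n (hroots n a (hWc hn))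
    · refine TWC.clI_mono' (sup_le bot_le ?_)
      rw [IntermediateField.adjoin_le_iff]
      rintro _ ⟨n, rfl⟩
      refine (mem_perfC p).2 ⟨n, ?_⟩
      have h1 := TWC.root_pow_add hXr 0 n
      rw [zero_add] at h1
      rw [h1]
      exact hNW hXN
  have hCeq : CP (k := k) v (X 0) y = C := by
    refine le_antisymm ?_ ?_
    · refine TWM.cadj_le hCc (TWM.cadj_le hCc bot_le (hNC hXN)) hyC
    · refine TWM.cadj_le (cld_clI v _) (TWM.cadj_le (cld_clI v _) bot_le ?_)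
        (self_mem_cadj v _ _)
      refine le_cadj v _ _ (hWc ?_)
      exact mem_algIn.2 ⟨hxC, isAlgebraic_algebraMap (⟨x, hxk⟩ : adj (⊥ : IntermediateField k Ω) x)⟩
  refine ⟨X, s,
    { root := hXr
      ne := hXne
      neg := by
        rw [hXv]
        linarith
      tl := by rwa [← hEW]
      nr := fun h1 => ?_
      div := by rwa [hCeq] }, hCeq⟩
  -- the root is not in `C`
  rw [hCeq] at h1
  have h2 : X 1 ∈ W := mem_algIn.2 ⟨h1, IsAlgebraic.of_pow hp.out.pos (by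
    rw [hXr0]
    exact hNalg _ hXN)⟩
  have hX1 : X 1 ≠ 0 := fun h3 => hXne (by rw [← hXr0, h3, zero_pow hp.out.ne_zero])
  have h3 : (p : ℝ) * v (X 1) = - v π := by
    rw [← hXv, ← hXr0, v.map_pow hX1]
  obtain ⟨g, hg, h4⟩ := mem_clI.1 (hfin h2) (v (X 1) + 1)
  obtain ⟨h5, h6⟩ := Gt.val_eq hX1 (Gt.of_ge h4 (by linarith))
  have h7 := hmin g⁻¹ (inv_mem hg) (inv_ne_zero h5) (by
    rw [v.map_inv h5, h6]
    nlinarith)
  rw [v.map_inv h5, h6] at h7
  have h8 : (2 : ℝ) ≤ p := by exact_mod_cast hp.out.two_le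
  nlinarith

end Pool.Agent.TWF
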