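import Pool.Agent.Lib.TW.TopN
import Pool.Agent.Lib.TWF.FZ3
import Pool.Agent.Lib.TWW.Four

/-!
# TANK W: the formal form of log uniformization in dimension four
-/

set_option autoImplicit false

namespace Pool.Agent.TWF

open Pool.Agent.TW

universe u

/-- Dimension at most four. -/
theorem bba_four (p : ℕ) [Fact p.Prime] : BBA.{u} p 4 4 := by
  intro κ _ _ _ K _ _ hK hN V hk hR hz _
  obtain ⟨m, hm⟩ := Cardinal.lt_aleph0.1 (hN.trans_lt (Cardinal.natCast_lt_aleph0 (n := 4)))
  refine realCls_zeroN 4 (fun Ω _ _ _ v r h E hE hΩ htr => ?_) K hK V hk hR ⟨hz, m, hm, ?_⟩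
  · have : CharP Ω p := charP_of_injective_algebraMap (algebraMap κ Ω).injective p
    exact lus_four p Ω v r h E hE hΩ htr
  · rw [hm] at hN
    exact_mod_cast hN

end Pool.Agent.TWF
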