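import Pool.Agent.Lib.TWC.DescF
import Pool.Agent.Lib.TWC.TPb
import Pool.Agent.Lib.TWEX.IsoR

/-!
# TANK W, the first floor over a tame base: generators and near elements of the perfect closure

* `TL.cadj_congr_le`: `y` of transcendental type over `E`, `A ≤ E` any subfield, `z` in the closure of
  `A(y)`, nearer to `y` than the radius: `z` generates the closure of `A(y)` over `A`;
* `eval_eq_coeff_zero`: the powers of a `p`-th root are independent;
* `le_of_root`: `L ≤ K ≤ L(X N)`, `X 0 ∈ L`, `X 1 ∉ K`: `K = L`;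
* **`gen_sub`**: `K = W⟨y⟩`, `f ∈ K` near to the closure of `W(X n, n)`: `K = W⟨y - f⟩`.
-/

set_option autoImplicit false

open Polynomial

namespace Pool.Agent.TWF

open Pool.Agent.H15JM (RVal)
open Pool.Agent.LU1 (VPos adj)
open Pool.Agent.D2 (Ctx0)
open Pool.Agent.D2P (clI mem_clI mem_adj_self adj_le)
open Pool.Agent.TWM
open Pool.Agent.TWC (EW self_le_clI clI_le')

universe u

variable {k Ω : Type u} [Field k] [Field Ω] [Algebra k Ω] {v : RVal Ω}
  {A E K L W : IntermediateField k Ω} {X : ℕ → Ω} {y z e f : Ω} {s : ℝ} {p : ℕ}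

/-! ### Near elements -/

/-- The elements of `A(z)`. -/
theorem exists_div {b : Ω} (hb : b ∈ adj A z) :
    ∃ F ∈ PI A, ∃ G ∈ PI A, b = F.eval z / G.eval z := by
  rw [adj_eq_restrict, IntermediateField.mem_restrictScalars] at hb
  have h1 : b ∈ IntermediateField.adjoin A ({z} : Set Ω) := hb
  rw [IntermediateField.mem_adjoin_simple_iff] at h1
  obtain ⟨P, Q, h2⟩ := h1
  refine ⟨P.map (algebraMap A Ω), fun i => ?_, Q.map (algebraMap A Ω), fun i => ?_, ?_⟩
  · rw [coeff_map]
    exact (P.coeff i).2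
  · rw [coeff_map]
    exact (Q.coeff i).2
  · rw [eval_map_algebraMap, eval_map_algebraMap, h2]

variable [IsAlgClosed Ω]

/-- The values of a polynomial at near points. -/
theorem eval_near (h : TL v E y s) {c : ℝ} (hc : 0 < c) (hz : v.Ge (s + c) (z - y))
    {F : Polynomial Ω} (hF : F ∈ PI E) : v.Ge (v (F.eval y) + c) (F.eval z - F.eval y) := by
  by_cases h0 : F = 0
  · rw [h0, eval_zero, eval_zero, sub_self]
    exact RVal.Ge.zero
  have h2 : F.eval z - F.eval y =
      ∑ l ∈ Finset.Icc 1 (taylor y F).natDegree, (taylor y F).coeff l * (z - y) ^ l := by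
    rw [eval_eq_taylor F y z, ← taylor_coeff_zero y F, eval_eq_sum_range,
      Finset.sum_range_eq_add_Ico _ (Nat.succ_pos _)]
    rw [pow_zero, mul_one, add_sub_cancel_left]
    rfl
  rw [h2]
  refine RVal.Ge.sum _ _ fun l hl => ?_
  have hl1 : (1 : ℝ) ≤ l := by exact_mod_cast (Finset.mem_Icc.1 hl).1
  refine (RVal.Ge.mul (h.weak (PI_mono (le_algc E) hF) h0 l) (ge_pow hz l)).mono ?_
  nlinarith

/-- **Generators over a subfield.** -/
theorem TL.cadj_congr_le (h : TL v E y s) (hA : A ≤ E) (hzm : z ∈ cadj v A y)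
    (hz : Gt v s (z - y)) : cadj v A z = cadj v A y := by
  by_cases h0 : z - y = 0
  · rw [sub_eq_zero.1 h0]
  have hc := hz h0
  set c := v (z - y) - s with hcd
  have hc0 : 0 < c := by linarith
  have hzy : v.Ge (s + c) (z - y) := by
    rw [hcd, add_sub_cancel]
    exact RVal.ge_self _
  symm
  refine engineF (D := cadj v A z) (cadj_le (cld_cadj v A y) (le_cadj v A y) hzm)
    (cld_cadj v A z) (R₀ := (adj A y : Set Ω)) (fun b hb M => ?_) hc0 ?_
  · obtain ⟨b', hb', h1⟩ := mem_clI.1 hb M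
    exact ⟨b', hb', h1⟩
  · intro b hb hb0
    obtain ⟨F, hF, G, hG, rfl⟩ := exists_div hb
    have hFy : F.eval y ≠ 0 := fun h1 => hb0 (by rw [h1, zero_div])
    have hGy : G.eval y ≠ 0 := fun h1 => hb0 (by rw [h1, div_zero])
    have h1 := eval_near h hc0 hzy (PI_mono hA hF)
    have h2 := eval_near h hc0 hzy (PI_mono hA hG)
    obtain ⟨h3, h4⟩ : G.eval z ≠ 0 ∧ v (G.eval z) = v (G.eval y) :=
      Gt.val_eq hGy (Gt.of_ge h2 (by linarith)).sub_comm'
    refine ⟨F.eval z / G.eval z, div_mem (eval_mem (fun i => le_cadj v A z (hF i))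
      (self_mem_cadj v A z)) (eval_mem (fun i => le_cadj v A z (hG i))
      (self_mem_cadj v A z)), ?_⟩
    have e1 : F.eval y / G.eval y - F.eval z / G.eval z =
        (F.eval y * (G.eval z - G.eval y) - (F.eval z - F.eval y) * G.eval y) *
          (G.eval y * G.eval z)⁻¹ := by
      field_simp
      ring
    rw [e1, v.map_div hFy hGy]
    have h5 : v.Ge (-(v (G.eval y) + v (G.eval y))) (G.eval y * G.eval z)⁻¹ := fun _ => by
      rw [v.map_inv (mul_ne_zero hGy h3), v.map_mul hGy h3, h4]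
    refine (((RVal.ge_self (v := v) (F.eval y)).mul h2).sub
      ((h1.mul (RVal.ge_self (v := v) (G.eval y))).mono (le_of_eq ?_))).mul h5 |>.mono
        (le_of_eq ?_)
    · ring
    · ring

/-! ### Purely inseparable roots -/

section Root

variable [hp : Fact p.Prime] [CharP Ω p]

omit [IsAlgClosed Ω] in
/-- The powers of a `p`-th root are independent. -/
theorem eval_eq_coeff_zero {x : Ω} (hx : x ∉ K) (hxp : x ^ p ∈ K) {P : Polynomial Ω}
    (hP : P ∈ PI K) (hd : P.natDegree < p) (h : P.eval x ∈ K) : P.eval x = P.coeff 0 := by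
  have hirr : Irreducible (X ^ p - C (⟨x ^ p, hxp⟩ : K)) := by
    refine X_pow_sub_C_irreducible_of_prime hp.out fun b hb => hx ?_
    have h1 : (b : Ω) ^ p = x ^ p := congrArg Subtype.val hb
    have h2 : ((b : Ω) - x) ^ p = 0 := by rw [sub_pow_char, h1, sub_self]
    rw [← sub_eq_zero.1 (pow_eq_zero_iff hp.out.ne_zero |>.1 h2)]
    exact b.2
  have hmin : minpoly K x = X ^ p - C (⟨x ^ p, hxp⟩ : K) := by
    refine (minpoly.eq_of_irreducible_of_monic hirr ?_
      (monic_X_pow_sub_C _ hp.out.ne_zero)).symm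
    rw [map_sub, map_pow, aeval_X, aeval_C]
    exact sub_self _
  obtain ⟨Q, hQ⟩ : ∃ Q : Polynomial K, Q.map (algebraMap K Ω) = P := by
    refine (mem_lifts P).1 ((lifts_iff_coeff_lifts P).2 fun n => ⟨⟨P.coeff n, hP n⟩, rfl⟩)
  have hQd : Q.natDegree < p := by
    rwa [← hQ, natDegree_map] at hd
  have h1 : minpoly K x ∣ Q - C (⟨P.eval x, h⟩ : K) := by
    refine minpoly.dvd K x ?_
    rw [map_sub, aeval_C, ← eval_map_algebraMap, hQ]
    exact sub_self _
  have h2 : Q - C (⟨P.eval x, h⟩ : K) = 0 := by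
    refine eq_zero_of_dvd_of_natDegree_lt h1 ?_
    rw [hmin, natDegree_X_pow_sub_C]
    exact (natDegree_sub_C).trans_lt hQd
  have h3 := congrArg (fun F => ((F.coeff 0 : K) : Ω)) h2
  simp only [coeff_sub, coeff_C_zero, coeff_zero] at h3
  have h4 : P.coeff 0 = ((Q.coeff 0 : K) : Ω) := by
    rw [← hQ, coeff_map]
    rfl
  rw [h4]
  exact (sub_eq_zero.1 h3).symm

omit [IsAlgClosed Ω] hp [CharP Ω p] in
/-- The elements of `A(t)`, `t` algebraic. -/
theorem exists_eval_adj {t b : Ω} (ht : IsAlgebraic A t) (hb : b ∈ adj A t) :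
    ∃ P ∈ PI A, P.eval t = b := by
  rw [adj_eq_restrict, IntermediateField.mem_restrictScalars] at hb
  have h1 : b ∈ (IntermediateField.adjoin A {t}).toSubalgebra := hb
  rw [IntermediateField.adjoin_simple_toSubalgebra_of_isAlgebraic ht,
    Algebra.adjoin_singleton_eq_range_aeval] at h1
  obtain ⟨P, hP⟩ := h1
  refine ⟨P.map (algebraMap A Ω), fun i => ?_, ?_⟩
  · rw [coeff_map]
    exact (P.coeff i).2
  · rw [eval_map_algebraMap]
    exact hP

omit [IsAlgClosed Ω] in
/-- `L ≤ K ≤ L(X N)`. -/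
theorem le_of_root (hr : ∀ n, X (n + 1) ^ p = X n) (hLK : L ≤ K) (hX0 : X 0 ∈ L)
    (hX1 : X 1 ∉ K) : ∀ N, K ≤ adj L (X N) → K ≤ L := by
  intro N
  induction N with
  | zero => exact fun h => h.trans (adj_le le_rfl hX0)
  | succ N ih =>
    refine fun h => ih fun a ha => ?_
    have hXN : X N ^ p ^ N = X 0 := by
      have := TWC.root_pow_add hr 0 N
      rwa [zero_add] at this
    have hx : X (N + 1) ∉ adj K (X N) := by
      intro h1
      have h2 : adj K (X N) ≤ D2P.rootF p N K :=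
        adj_le (fun b hb => D2P.mem_rootF.2 (pow_mem hb _)) (D2P.mem_rootF.2 (by
          rw [hXN]
          exact hLK hX0))
      have h3 := D2P.mem_rootF.1 (h2 h1)
      have h4 := TWC.root_pow_add hr 1 N
      rw [add_comm 1 N] at h4
      rw [h4] at h3
      exact hX1 h3
    have hxp : X (N + 1) ^ p ∈ adj L (X N) := by
      rw [hr]
      exact (mem_adj_self L _).1
    have hLK' : adj L (X N) ≤ adj K (X N) :=
      adj_le (hLK.trans (mem_adj_self K _).2) (mem_adj_self K _).1
    have h1 : a ∈ adj (adj L (X N)) (X (N + 1)) :=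
      (adj_le ((mem_adj_self L (X N)).2.trans (mem_adj_self _ _).2) (mem_adj_self _ _).1 :
        adj L (X (N + 1)) ≤ adj (adj L (X N)) (X (N + 1))) (h ha)
    obtain ⟨P, hP, rfl⟩ := exists_eval_adj (IsAlgebraic.of_pow hp.out.pos
      (isAlgebraic_algebraMap (⟨_, hxp⟩ : adj L (X N)))) h1
    obtain ⟨Q, hQ, hQd, hQe⟩ := TWC.exists_red (x := fun n => X (N + n)) (fun n => hr (N + n))
      (mem_adj_self L (X N)).1 1 hP
    have hQe' : Q.eval (X (N + 1)) = P.eval (X (N + 1)) := hQe
    rw [← hQe'] at ha ⊢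
    rw [eval_eq_coeff_zero hx (hLK' hxp) (PI_mono hLK' hQ) (by rwa [pow_one] at hQd)
      ((mem_adj_self K (X N)).2 ha)]
    exact hQ 0

/-- **Generators and near elements of the perfect closure.** -/
theorem gen_sub (hc : CompleteV v) (hr : ∀ n, X (n + 1) ^ p = X n) (_hW : Cld v W)
    (hX0 : X 0 ∈ W) (hTL : TL v (EW v W X) y s) (hK : K = cadj v W y) (hX1 : X 1 ∉ K)
    (hf : f ∈ K) (he : e ∈ EW v W X) (hn : Gt v s (f - e)) : K = cadj v W (y - f) := by
  have hKc : Cld v K := by
    rw [hK]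
    exact cld_cadj v W y
  have hWK : W ≤ K := by
    rw [hK]
    exact le_cadj v W y
  have hyK : y ∈ K := by
    rw [hK]
    exact self_mem_cadj v W y
  set L := cadj v W (y - f) with hL
  have hLc : Cld v L := cld_cadj v W _
  have hWL : W ≤ L := le_cadj v W _
  have hLK : L ≤ K := cadj_le hKc hWK (sub_mem hyK hf)
  -- the approximation of `e`
  obtain ⟨c, hc0, hc1⟩ : ∃ c : ℝ, 0 < c ∧ v.Ge (s + c) (f - e) := by
    by_cases h0 : f - e = 0
    · exact ⟨1, one_pos, by rw [h0]; exact RVal.Ge.zero⟩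
    · refine ⟨v (f - e) - s, by linarith [hn h0], ?_⟩
      rw [add_sub_cancel]
      exact RVal.ge_self _
  obtain ⟨e₁, he₁, h1⟩ := mem_clI.1 he (s + c)
  obtain ⟨N, hN⟩ : ∃ N, e₁ ∈ adj W (X N) := by
    have h2 : W ⊔ IntermediateField.adjoin k (Set.range X) ≤ ⨆ N, adj W (X N) := by
      refine sup_le ((mem_adj_self W (X 0)).2.trans (le_iSup (fun N => adj W (X N)) 0))
        (IntermediateField.adjoin_le_iff.2 ?_)
      rintro _ ⟨n, rfl⟩
      exact (le_iSup (fun N => adj W (X N)) n) (mem_adj_self W (X n)).1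
    have hmono : Monotone fun N => adj W (X N) := monotone_nat_of_le_succ fun n =>
      adj_le (mem_adj_self W _).2 (by
        rw [← hr n]
        exact pow_mem (mem_adj_self W _).1 p)
    have h3 : e₁ ∈ ((⨆ N, adj W (X N) : IntermediateField k Ω) : Set Ω) := h2 he₁
    rwa [IntermediateField.coe_iSup_of_directed hmono.directed_le, Set.mem_iUnion] at h3
  set A := adj W (X N) with hA
  have hAE : A ≤ EW v W X := adj_le EW.le (EW.mem N)
  have hXN : X N ^ p ^ N = X 0 := by
    have := TWC.root_pow_add hr 0 N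
    rwa [zero_add] at this
  -- the near generator
  have hKA : K ≤ cadj v A y := by
    rw [hK]
    exact cadj_le (cld_cadj v A y) ((mem_adj_self W _).2.trans (le_cadj v A y))
      (self_mem_cadj v A y)
  have hz : y - f + e₁ ∈ cadj v A y :=
    add_mem (sub_mem (self_mem_cadj v A y) (hKA hf)) (le_cadj v A y hN)
  have hzn : Gt v s (y - f + e₁ - y) := by
    have e2 : y - f + e₁ - y = -((f - e) + (e - e₁)) := by ring
    rw [e2]
    exact (Gt.of_ge (hc1.add h1) (by linarith)).neg
  have h3 := TL.cadj_congr_le hTL hAE hz hzn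
  -- the closed field `L(X N)`
  have hLN : Cld v (adj L (X N)) := cld_adj hc hLc (IsAlgebraic.of_pow (pow_pos hp.out.pos N)
    (isAlgebraic_algebraMap (⟨X N ^ p ^ N, by rw [hXN]; exact hWL hX0⟩ : L)))
  have h4 : K ≤ adj L (X N) := by
    refine hKA.trans ?_
    rw [← h3]
    refine cadj_le hLN (adj_le (hWL.trans (mem_adj_self L _).2) (mem_adj_self L _).1) ?_
    exact add_mem ((mem_adj_self L _).2 (self_mem_cadj v W _))
      ((adj_le (hWL.trans (mem_adj_self L _).2) (mem_adj_self L _).1 : A ≤ adj L (X N)) hN)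
  exact le_antisymm (le_of_root hr hLK (hWL hX0) hX1 N h4) hLK

end Root

end Pool.Agent.TWF
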