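import Pool.Agent.Lib.TWF.InfStr
import Pool.Agent.Lib.TWEX.Wd5

/-!
# TANK W, the infinite first floor: the alternatives for one closed field

`C` closed, the closure of a finitely generated field of transcendence degree two.

* `Flr p v C W x y s`: `C = W<y>`, `x` a `p`-basis of `W`, `y` far from the algebraic elements of `W`,
  a limit of the radical elements, `C` the closure of `k(x, y)`; `FInf.flr`: `W = WX v C x`;
* `Hon p v C W t y s`: `C = W<y>`, `y` honest over `W`, `W` closed, algebraic over `k(t)`;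
* `AltT`: a tight pair with positive slack; `AltS`: strict jets, radius not commensurable with the
  values; `AltR`: strict jets, commensurable radius; `AltZ`: infinitely many strict translations;
  `AltH`: honest floor, tight base; `AltC`: honest floor, no tight element in the base;
* `Alt`: one of them, or `C` is the closure of `k(x, w)`, `(x, w)` a tight pair (`TWC.HasTP`);
* `FInf.altT`, `FInf.altS`, `FInf.altR`: the alternatives in terms of `FInf`.
-/

set_option autoImplicit false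

open Polynomial

namespace Pool.Agent.TWF

open Pool.Agent.H15JM (RVal)
open Pool.Agent.LU1 (VPos adj)
open Pool.Agent.D2 (Ctx0)
open Pool.Agent.D2P (hen clI mem_clI mem_adj_self)
open Pool.Agent.TW (Full BD PBasis Ctx HRone Mot)
open Pool.Agent.TWM
open Pool.Agent.TWS (VG TowR SphC)
open Pool.Agent.TWC (CP EW RatR Tgt HasTP)
open Pool.Agent.TWS7 (STow FGc PDiv)

universe u

variable {k Ω : Type u} [Field k] [Field Ω] [Algebra k Ω] {v : RVal Ω}
  {C M W : IntermediateField k Ω} {x y t : Ω} {s c₀ : ℝ}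

/-! ### First floors -/

/-- A first floor of `C`, over the closed field `W`. -/
structure Flr (p : ℕ) (v : RVal Ω) (C W : IntermediateField k Ω) (x y : Ω) (s : ℝ) : Prop where
  cld : Cld v W
  mem : x ∈ W
  x0 : x ≠ 0
  vx : v x ≠ 0
  pb : PBasis p W ![x]
  eq : C = cadj v W y
  le : C ≤ clI v (IntermediateField.adjoin k {x, y})
  far : ∀ θ : Ω, IsAlgebraic W θ → y ≠ θ ∧ v (y - θ) < s
  lim : ∀ ε : ℝ, 0 < ε → ∃ (j : ℕ) (a : Ω), a ^ p ^ j ∈ W ∧ v.Ge (s - ε) (y - a)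

/-- `y` is honest over the closed field `W`, algebraic over `k(t)`. -/
structure Hon (p : ℕ) (v : RVal Ω) (C W : IntermediateField k Ω) (t y : Ω) (s : ℝ) : Prop where
  cld : Cld v W
  mem : t ∈ W
  t0 : t ≠ 0
  vt : v t ≠ 0
  alg : W = WX v W t
  pb : PBasis p W ![t]
  eq : C = cadj v W y
  tl : TL v W y s

/-- Infinitely many strict translations `y ↦ y + ζ c`, `v c = s`, `c` in `C` or tame over `C`. -/
def StrZ (p : ℕ) (v : RVal Ω) (W C : IntermediateField k Ω) (y : Ω) (s : ℝ) : Prop :=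
  ∃ (c : Ω) (m : ℕ), ¬ p ∣ m ∧ c ^ m ∈ C ∧ c ≠ 0 ∧ v c = s ∧ ∀ n : ℕ, ∃ Θ : Finset k,
    n ≤ Θ.card ∧ ∀ ζ ∈ Θ, ∃ μ : ℝ, 0 < μ ∧
      ∀ P ∈ PI W, v.Ge (v (P.eval y) + μ) (P.eval (y + algebraMap k Ω ζ * c) - P.eval y)

/-! ### The alternatives -/

/-- **(T)** a tight element `X 0` of `C`, of level `r`, in a closed field `W ≤ C`; `X 1` is at distance
`≤ q / p` from `W`, the `X n` at distance `≥ δ / p ^ n`, `q - δ` small against the slack `r - q`. -/
def AltT (p : ℕ) (v : RVal Ω) (C : IntermediateField k Ω) : Prop :=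
  ∃ (W : IntermediateField k Ω) (X : ℕ → Ω) (y : Ω) (r q δ s : ℝ), Cld v W ∧ W ≤ C ∧
    v (X 0) ≠ 0 ∧ v (X 0) < r ∧ Tgt p v C X r ∧ X 0 ∈ W ∧ ¬ Nr' v W (q / p) (X 1) ∧
    (∀ (n : ℕ) (ε : ℝ), 0 < ε → ∃ c ∈ W, v.Ge (δ / p ^ (n + 1) - ε) (X (n + 1) - c)) ∧
    3 * (q - δ) < r - q ∧ (∀ a ∈ W, ∃ Q ∈ PI W, (Q.eval (X 1)) ^ p = a) ∧
    y ∈ C ∧ TL v (EW v W X) y s ∧ EW v C X = cadj v (EW v W X) y

/-- **(S)** strict jets, the radius is not commensurable with the values. -/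
def AltS (p : ℕ) (v : RVal Ω) (C : IntermediateField k Ω) : Prop :=
  ∃ (W : IntermediateField k Ω) (x y : Ω) (s : ℝ), Flr p v C W x y s ∧ StrW v W y s ∧
    ¬ RatR (v x) s

/-- **(R)** strict jets, the radius is commensurable with the values. -/
def AltR (p : ℕ) (v : RVal Ω) (C : IntermediateField k Ω) : Prop :=
  ∃ (W : IntermediateField k Ω) (x y : Ω) (s : ℝ), Flr p v C W x y s ∧ StrW v W y s ∧
    RatR (v x) s

/-- **(Z)** infinitely many strict translations. -/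
def AltZ (p : ℕ) (v : RVal Ω) (C : IntermediateField k Ω) : Prop :=
  ∃ (W : IntermediateField k Ω) (x y : Ω) (s : ℝ), Flr p v C W x y s ∧ StrZ p v W C y s

/-- **(H)** `y` honest, `x` tight in the base. -/
def AltH (p : ℕ) (v : RVal Ω) (C : IntermediateField k Ω) : Prop :=
  ∃ (W : IntermediateField k Ω) (X : ℕ → Ω) (y : Ω) (r s : ℝ), Hon p v C W (X 0) y s ∧
    Tgt p v W X r

/-- **(C)** `y` honest, contact: the base has no tight element. -/
def AltC (p : ℕ) (v : RVal Ω) (C : IntermediateField k Ω) : Prop :=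
  ∃ (W : IntermediateField k Ω) (t y : Ω) (s : ℝ), Hon p v C W t y s ∧
    ∀ (X : ℕ → Ω) (r : ℝ), v (X 0) ≠ 0 → ¬ Tgt p v W X r

/-- The alternative. -/
def Alt (p : ℕ) (v : RVal Ω) (C : IntermediateField k Ω) : Prop :=
  HasTP p v C ∨ AltT p v C ∨ AltS p v C ∨ AltR p v C ∨ AltZ p v C ∨ AltH p v C ∨ AltC p v C

variable {p : ℕ}

theorem FInf.flr [hp : Fact p.Prime] [CharP Ω p] [CharP k p] [IsAlgClosed k] [IsAlgClosed Ω]
    (h0 : Ctx0 k v) (hc : CompleteV v) (h : FInf p v C x y s c₀) :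
    Flr p v C (WX v C x) x y s where
  cld := cld_WX v C x
  mem := h.toFF.xW
  x0 := h.x0
  vx := h.vx
  pb := h.toFF.pb h0 hc
  eq := h.toFF.eq_W
  le := by
    nth_rw 1 [h.toFF.eq_W]
    exact h.toFF.le_cl
  far := fun _ hθ => h.far hθ
  lim := fun _ hε => h.lim hε

theorem Flr.cldC (h : Flr p v C W x y s) : Cld v C := by
  rw [h.eq]
  exact cld_cadj v _ _

theorem Flr.le_C (h : Flr p v C W x y s) : W ≤ C := by
  rw [h.eq]
  exact le_cadj v _ _

theorem Flr.mem_y (h : Flr p v C W x y s) : y ∈ C := by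
  rw [h.eq]
  exact self_mem_cadj v _ _

/-- **Strict jets give a strict floor.** -/
theorem Flr.sfl [hp : Fact p.Prime] [CharP Ω p] [IsAlgClosed Ω] (hc : CompleteV v)
    (h : Flr p v C W x y s) (hS : StrW v W y s) :
    ∃ D : ℕ → Ω → Ω, TWEX.SFl p v W y s D :=
  TWEX.exists_sfl p hc (fun _ hθ => ⟨(h.far _ hθ).1, (h.far _ hθ).2.le⟩)
    (fun _ hε => h.lim _ hε) hS

/-- **The strict tower over `W`**, any radius. -/
theorem Flr.srow [hp : Fact p.Prime] [CharP Ω p] [IsAlgClosed Ω] (hc : CompleteV v)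
    (hF : Flr p v C W x y s) (hg : FGc v 2 C) (hS : StrW v W y s) (hT : TowR v 2 C M) :
    ∃ D u ρ w t, TWEX.SRow p v W y s D u ρ w t M := by
  obtain ⟨D, hD⟩ := hF.sfl hc hS
  rw [hF.eq] at hg hT
  cases hT with
  | @succ n A B u ρ hu ht =>
    cases ht with
    | @succ n A B w t hw ht =>
      cases ht with
      | zero _ =>
        exact ⟨D, u, ρ, w, t,
          { cN := hF.cld
            val := ⟨x, hF.mem, hF.x0, hF.vx⟩
            sfl := hD
            fg := hg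
            tu := hu
            tw := hw
            eq := rfl }⟩

/-- **The strict tower over `W`**, irrational radius. -/
theorem Flr.stow [hp : Fact p.Prime] [CharP Ω p] [IsAlgClosed k] [IsAlgClosed Ω]
    (h : Ctx k v 1) (hc : CompleteV v) (hF : Flr p v C W x y s) (hg : FGc v 2 C)
    (hS : StrW v W y s) (hr : ¬ RatR (v x) s) (hT : TowR v 2 C M) :
    ∃ D u ρ w t, STow p v W y s D u ρ w t M := by
  obtain ⟨D, u, ρ, w, t, h1⟩ := hF.srow hc hg hS hT
  exact ⟨D, u, ρ, w, t, h1.cN, h1.val, h1.sfl, h1.fg,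
    fun n hn f _ hf => TWS7.irr_of_not_rat h hF.x0 hF.vx hr n hn f hf, h1.tu, h1.tw, h1.eq⟩

/-- `X 0` tight in `W` and in `C`, positive slack. -/
theorem altT_of_tgt [hp : Fact p.Prime] [CharP Ω p] [IsAlgClosed Ω] {X : ℕ → Ω} {r q : ℝ}
    (hWC : W ≤ C) (hX0 : X 0 ≠ 0) (hv : v (X 0) ≠ 0) (hT : Tgt p v C X r) (hTW : Tgt p v W X q)
    (hqr : q < r) (hW : ∀ a ∈ W, ∃ Q ∈ PI W, (Q.eval (X 1)) ^ p = a) (hy : y ∈ C)
    (hTL : TL v (EW v W X) y s) (hE : EW v C X = cadj v (EW v W X) y) : AltT p v C := by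
  refine ⟨W, X, y, r, q, q, s, hTW.cld, hWC, hv, (val_le_of_tgt p hTW hX0).trans_lt hqr, hT,
    hTW.mem, ?_, fun n ε hε => (hTW.dst n).near ε hε, by linarith, hW, hy, hTL, hE⟩
  have h1 := (hTW.dst 0).far
  rwa [zero_add, pow_one] at h1

/-- `x` tight in `W` and in `C`, positive slack. -/
theorem FInf.altT [hp : Fact p.Prime] [CharP k p] [CharP Ω p] [IsAlgClosed k] [IsAlgClosed Ω]
    (h0 : Ctx0 k v) (hc : CompleteV v) (h : FInf p v C x y s c₀) {X : ℕ → Ω} {r q : ℝ}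
    (hX : X 0 = x) (hT : Tgt p v C X r) (hTW : Tgt p v (WX v C x) X q) (hqr : q < r) :
    AltT p v C := by
  have hX1 : X 1 ^ p = x := by rw [← hX, ← hT.root 0]
  refine altT_of_tgt (s := s) (WX_le h.toFF.cld) (by rw [hX]; exact h.x0) (by rw [hX]; exact h.vx) hT hTW
    hqr (h.toFF.root h0 hc hX1) h.toFF.mem_y ?_ (h.toFF.ew X)
  rw [← h.toFF.ex_eq h0 hc hX hT.root]
  exact h.tl

theorem FInf.altS [hp : Fact p.Prime] [CharP k p] [CharP Ω p] [IsAlgClosed k] [IsAlgClosed Ω]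
    (h0 : Ctx0 k v) (hc : CompleteV v) (h : FInf p v C x y s c₀) (hS : StrW v (WX v C x) y s)
    (hr : ¬ RatR (v x) s) : AltS p v C :=
  ⟨WX v C x, x, y, s, h.flr h0 hc, hS, hr⟩

theorem FInf.altR [hp : Fact p.Prime] [CharP k p] [CharP Ω p] [IsAlgClosed k] [IsAlgClosed Ω]
    (h0 : Ctx0 k v) (hc : CompleteV v) (h : FInf p v C x y s c₀) (hS : StrW v (WX v C x) y s)
    (hr : RatR (v x) s) : AltR p v C :=
  ⟨WX v C x, x, y, s, h.flr h0 hc, hS, hr⟩

theorem FInf.altZ [hp : Fact p.Prime] [CharP k p] [CharP Ω p] [IsAlgClosed k] [IsAlgClosed Ω]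
    (h0 : Ctx0 k v) (hc : CompleteV v) (h : FInf p v C x y s c₀)
    (hZ : StrZ p v (WX v C x) C y s) : AltZ p v C :=
  ⟨WX v C x, x, y, s, h.flr h0 hc, hZ⟩

end Pool.Agent.TWF
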