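import Pool.Agent.Lib.TWF.InfDefs
import Pool.Agent.Lib.TWS7.Str
import Pool.Agent.Lib.TWEX.Wi4

/-!
# TANK W, the infinite first floor: strict jets, irrational radius

`FInf p v C x y s c₀`, the jets of `y` over `W` strict, `s` not commensurable with the values, two
floors above `C`: a strict tower over `W` (`TWEX.STw`), the input of `TWEX.mobQ0_wi`.
-/

set_option autoImplicit false

open Polynomial

namespace Pool.Agent.TWF

open Pool.Agent.H15JM (RVal)
open Pool.Agent.LU1 (VPos adj)
open Pool.Agent.D2 (Ctx0)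
open Pool.Agent.D2P (hen clI mem_clI mem_adj_self)
open Pool.Agent.TW (Full BD PBasis Ctx HRone Mot)
open Pool.Agent.TWM
open Pool.Agent.TWS (VG TowR SphC)
open Pool.Agent.TWC (CP EW RatR)
open Pool.Agent.TWS7 (STow FGc PDiv)
open Pool.Agent.TWEX (STw)

universe u

variable {k Ω : Type u} [Field k] [Field Ω] [Algebra k Ω] {v : RVal Ω}
  {C M : IntermediateField k Ω} {x y : Ω} {s c₀ : ℝ}

/-- `C` is the closure of a finitely generated field of transcendence degree two. -/
theorem FInf.gens {p : ℕ} [hp : Fact p.Prime] [CharP Ω p] [IsAlgClosed k]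
    (h0 : Ctx k v 1) (h : FInf p v C x y s c₀) : FGc v 2 C := by
  refine ⟨adj (adj ⊥ x) y, D2P.fg_adj (D2P.fg_adj IntermediateField.fg_bot _) y, ?_, ?_, ?_⟩
  · exact TWC.full_of_mem h0 ((mem_adj_self _ y).2 (mem_adj_self _ x).1) h.x0 h.vx
  · have h1 : Transcendental (adj (⊥ : IntermediateField k Ω) x) y :=
      TWC.TL.transcendental h.tl ((D2P.adj_le bot_le h.toFF.xW).trans (WX_le_EX p))
    rw [TW.HRLU.trdeg_adj h1, TWC.trdeg_adj_bot h0.toCtx0 h.x0 h.vx]
    norm_num
  · rw [h.eq]
    exact clI_adj_clI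

/-- `W(y)` is in the closure of `k(x, y)`. -/
theorem FF.le_cl {p : ℕ} (h : FF p v C x y c₀) :
    cadj v (WX v C x) y ≤ clI v (IntermediateField.adjoin k {x, y}) := by
  rw [← h.eq_W]
  nth_rw 1 [h.eq]
  have h1 : (IntermediateField.adjoin k {x, y} : IntermediateField k Ω) ≤
    clI v (IntermediateField.adjoin k {x, y}) := TWM.le_clI _
  have hx : x ∈ clI v (IntermediateField.adjoin k {x, y}) :=
    h1 (IntermediateField.subset_adjoin _ _ (Or.inl rfl))
  have hy : y ∈ clI v (IntermediateField.adjoin k {x, y}) :=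
    h1 (IntermediateField.subset_adjoin _ _ (Or.inr rfl))
  exact TWM.cadj_le (cld_clI v _) (TWM.cadj_le (cld_clI v _) bot_le hx) hy

/-- **The strict tower over `W`.** -/
theorem FInf.stow {p : ℕ} [hp : Fact p.Prime] [CharP Ω p] [IsAlgClosed k] [IsAlgClosed Ω]
    (h : Ctx k v 1) (hc : CompleteV v) (hF : FInf p v C x y s c₀) (hS : StrW v (WX v C x) y s)
    (hr : ¬ RatR (v x) s) (hT : TowR v 2 C M) :
    ∃ D u ρ w t, STow p v (WX v C x) y s D u ρ w t M := by
  obtain ⟨D, hD⟩ := hF.sfl hc hS
  have hg := hF.gens h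
  rw [hF.toFF.eq_W] at hg hT
  cases hT with
  | @succ n A B u ρ hu ht =>
    cases ht with
    | @succ n A B w t hw ht =>
      cases ht with
      | zero _ =>
        exact ⟨D, u, ρ, w, t,
          { cN := cld_WX v C x
            val := ⟨x, hF.toFF.xW, hF.x0, hF.vx⟩
            sfl := hD
            fg := hg
            irr := fun n hn f _ hf => TWS7.irr_of_not_rat h hF.x0 hF.vx hr n hn f hf
            tu := hu
            tw := hw
            eq := rfl }⟩

end Pool.Agent.TWF
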