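import Pool.Agent.Lib.TWF.Top4
import Pool.Agent.Lib.TWF.InfStr
import Pool.Agent.Lib.TWC.SlackX

/-!
# TANK W, dimension 4: the frame of the leaves

* `Cr p v w ι K₀ g`: a bad critical step of dimension four, with a completion;
* `LeafD p k Q`: a bad critical step with property `Q` of the closure is unhit or has motions with a
  small effect; `critM_of_leafD`;
* `LeafD.cover`, `leafD_of_hrone`; `infLeaf_of`.
* Closed leaves: `leafD_prT` (tight pair over a tame base), `leafD_prS` (tight pair, positive slack),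
  `leafD_stw` (strict first floor over any base, irrational radius).
-/

set_option autoImplicit false

open Polynomial

namespace Pool.Agent.TWF

open Pool.Agent.H15JM (RVal)
open Pool.Agent.LU1 (adj)
open Pool.Agent.LUC (LUs)
open Pool.Agent.D2 (Ctx0)
open Pool.Agent.D2P (clI mem_adj_self)
open Pool.Agent.TW
open Pool.Agent.TWM (TL CompleteV Dense cadj Cld cld_clI clI_adj_clI Imm Gt PI)
open Pool.Agent.TWII (LP)
open Pool.Agent.TWS (TowR VG)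
open Pool.Agent.TWC (TP NBX)
open Pool.Agent.TWS7 (PDiv MotE STow Unhit)
open Pool.Agent.TWJ2 (Bad)

universe u

/-- A bad critical step of dimension four, with a completion `ι`. -/
structure Cr (p : ℕ) {k Ω Ω' : Type u} [Field k] [Field Ω] [Algebra k Ω] [Field Ω'] [Algebra k Ω']
    (v : RVal Ω) (w : RVal Ω') (ι : Ω →ₐ[k] Ω') (K₀ : IntermediateField k Ω) (g : Ω) : Prop where
  ctx : Ctx k v 1
  cpl : CompleteV w
  dns : Dense v w ι
  fg : K₀.FG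
  alg : ∀ g : Ω, IsAlgebraic K₀ g
  tr : Algebra.trdeg k K₀ = (4 : ℕ)
  bd : BD p v K₀
  hr : HRone v K₀
  low : ∀ m, m < 4 → LUB p v k 1 m
  div : PDiv p v K₀
  gn : g ∉ K₀
  gp : g ^ p ∈ K₀
  bdg : BD p v (adj K₀ g)
  no : ¬ HRone v (adj K₀ g)

/-- **The form of a leaf.** -/
def LeafD (p : ℕ) (k : Type u) [Field k] (Q : CProp k) : Prop :=
  ∀ (Ω Ω' : Type u) [Field Ω] [Algebra k Ω] [IsAlgClosed Ω] [CharP Ω p] [Field Ω'] [Algebra k Ω']
    [IsAlgClosed Ω'] [CharP Ω' p] (v : RVal Ω) (w : RVal Ω') (ι : Ω →ₐ[k] Ω')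
    (K₀ : IntermediateField k Ω) (g : Ω), Cr p v w ι K₀ g → Q Ω' w (clI w (K₀.map ι)) →
    ∀ ν : ℝ, LP p w (clI w (K₀.map ι)) ν (ι (g ^ p)) →
      (∀ x ∈ clI w (K₀.map ι), ¬ Gt w ν (ι (g ^ p) - x ^ p)) →
      Unhit p w 3 (clI w (K₀.map ι)) ν (ι (g ^ p)) ∨ MotE p v K₀ ν (g ^ p)

section

variable {p : ℕ} [hp : Fact p.Prime] {k Ω Ω' : Type u} [Field k] [IsAlgClosed k] [CharP k p]
  [Field Ω] [Algebra k Ω] [IsAlgClosed Ω] [CharP Ω p] [Field Ω'] [Algebra k Ω'] [IsAlgClosed Ω']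
  [CharP Ω' p] {v : RVal Ω} {w : RVal Ω'} {ι : Ω →ₐ[k] Ω'} {K₀ : IntermediateField k Ω} {g : Ω}

omit hp [IsAlgClosed k] [CharP k p] [IsAlgClosed Ω] [CharP Ω p] [IsAlgClosed Ω'] [CharP Ω' p] in
theorem Cr.ctx' (h : Cr p v w ι K₀ g) : Ctx k w 1 := h.dns.ctx h.ctx

omit [CharP Ω p] in
/-- The image in the completion is bad. -/
theorem Cr.bad (h : Cr p v w ι K₀ g) : Bad p w k 1 (K₀.map ι) (ι g) := by
  have hfull : Full v K₀ := full_of_alg h.alg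
  have hadj : (adj K₀ g).map ι = adj (K₀.map ι) (ι g) := Dense.adj_map _ _
  exact
    { ctx := h.ctx'
      cpl := h.cpl
      fg := Dense.fg_map h.fg
      full := h.dns.full_iff.2 hfull
      tr := by rw [Dense.trdeg_map, h.tr]
      bd := h.dns.bd_iff.2 h.bd
      hr := h.dns.hrone_iff.2 h.hr
      ng := by
        refine not_fg_of_dns h.ctx' (dns_of_BD p h.ctx' (Dense.fg_map h.fg)
          (h.dns.full_iff.2 hfull) (h.dns.bd_iff.2 h.bd) (n := 4) ?_ (by norm_num))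
        rw [Dense.trdeg_map, h.tr]
      mem := ⟨g ^ p, h.gp, map_pow ι g p⟩
      bda := by rw [← hadj]; exact h.dns.bd_iff.2 h.bdg
      no := by rw [← hadj, h.dns.hrone_iff]; exact h.no }

end

/-! ### From a leaf to the critical step -/

/-- **The critical step from a leaf.** -/
theorem critM_of_leafD (p : ℕ) [hp : Fact p.Prime] (k : Type u) [Field k] [IsAlgClosed k]
    [CharP k p] {Q : CProp k} (hQ : LeafD p k Q) :
    CritM p k fun _ _ _ _ v E => PDiv p v E ∧ ClE Q v E := by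
  intro Ω _ _ _ _ v hc K₀ hK hΩ htr hBDK hH hL hlow hq g hgK hg hBD
  obtain ⟨hd, Ω', iF, iA, ι, w, iC, h2, h3, h4⟩ := hq
  have : CharP Ω' p := Dense.charP ι p
  by_cases hno : HRone v (adj K₀ g)
  · exact Or.inl hno
  have hcr : Cr p v w ι K₀ g := ⟨hc, h2, h3, hK, hΩ, htr, hBDK, hH, hlow, hd, hgK, hg, hBD, hno⟩
  rcases TWS7.alt_of p hc h2 h3 hK (TWM.full_of_all hΩ) htr hBDK hgK hg hBD
    (fun ν h1 h5 => hQ Ω Ω' v w ι K₀ g hcr h4 ν h1 h5) with h1 | ⟨ν, h1, -, h5⟩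
  · exact Or.inl h1
  · exact Or.inr (TWS7.mobQ0_of_mot p hc hK hΩ hBDK hd hg h1 h5)

section

variable {p : ℕ} {k : Type u} [Field k] {Q Q₁ Q₂ : CProp k}

theorem LeafD.mono (h : LeafD p k Q₁)
    (hQ : ∀ (Ω : Type u) [Field Ω] [Algebra k Ω] (v : RVal Ω) (M : IntermediateField k Ω),
      Q Ω v M → Q₁ Ω v M) : LeafD p k Q := by
  intro Ω Ω' _ _ _ _ _ _ _ _ v w ι K₀ g hcr hq
  exact h Ω Ω' v w ι K₀ g hcr (hQ _ _ _ hq)

theorem LeafD.or (h₁ : LeafD p k Q₁) (h₂ : LeafD p k Q₂) :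
    LeafD p k fun Ω _ _ v M => Q₁ Ω v M ∨ Q₂ Ω v M := by
  intro Ω Ω' _ _ _ _ _ _ _ _ v w ι K₀ g hcr hq
  rcases hq with hq | hq
  · exact h₁ Ω Ω' v w ι K₀ g hcr hq
  · exact h₂ Ω Ω' v w ι K₀ g hcr hq

/-- **The cover**: inside a complete field, for the closure of a bad field. -/
def Covers (p : ℕ) (k : Type u) [Field k] (Q Q₁ : CProp k) : Prop :=
  ∀ (Ω : Type u) [Field Ω] [Algebra k Ω] [IsAlgClosed Ω] [CharP Ω p] (v : RVal Ω)
    (K₀ : IntermediateField k Ω) (al : Ω), Bad p v k 1 K₀ al → PDiv p v (clI v K₀) →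
    (∀ m, m < 4 → LUB p v k 1 m) → Q Ω v (clI v K₀) → Q₁ Ω v (clI v K₀)

end

section

variable {p : ℕ} [hp : Fact p.Prime] {k : Type u} [Field k] [IsAlgClosed k] [CharP k p]
  {Q Q₁ : CProp k}

omit [IsAlgClosed k] [CharP k p] in
/-- The group of the values of the closure of the image. -/
theorem Cr.div' {Ω Ω' : Type u} [Field Ω] [Algebra k Ω] [IsAlgClosed Ω] [CharP Ω p] [Field Ω']
    [Algebra k Ω'] [IsAlgClosed Ω'] [CharP Ω' p] {v : RVal Ω} {w : RVal Ω'} {ι : Ω →ₐ[k] Ω'}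
    {K₀ : IntermediateField k Ω} {g : Ω} (h : Cr p v w ι K₀ g) :
    PDiv p w (clI w (K₀.map ι)) := by
  have hI : TWS.IsoE v w ι := ⟨h.dns.val⟩
  rw [pdiv_iff_vg, VG.clI, TWC.vg_map hI, ← pdiv_iff_vg]
  exact h.div

theorem LeafD.cover (h : LeafD p k Q₁) (hc : Covers p k Q Q₁) : LeafD p k Q := by
  intro Ω Ω' _ _ _ _ _ _ _ _ v w ι K₀ g hcr hq
  exact h Ω Ω' v w ι K₀ g hcr (hc Ω' w _ _ hcr.bad hcr.div'
    (lub_lt_four p hcr.ctx') hq)

/-- **An exit which gives `HRone`.** -/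
theorem leafD_of_hrone
    (hQ : ∀ (Ω : Type u) [Field Ω] [Algebra k Ω] [IsAlgClosed Ω] [CharP Ω p] (v : RVal Ω)
      (K₀ : IntermediateField k Ω) (al : Ω), Bad p v k 1 K₀ al → PDiv p v (clI v K₀) →
      Q Ω v (clI v K₀) → HRone v (adj K₀ al)) : LeafD p k Q := by
  intro Ω Ω' _ _ _ _ _ _ _ _ v w ι K₀ g hcr hq
  exact absurd (hQ Ω' w _ _ hcr.bad hcr.div' hq) hcr.bad.no

theorem infLeaf_of (h : LeafD p k (FIm p k)) : InfLeaf p k := critM_of_leafD p k h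

end

/-! ### Closed leaves -/

/-- A tight pair over a tame base, two floors above it. -/
def PrT (p : ℕ) (k : Type u) [Field k] : CProp k := fun Ω _ _ v M =>
  ∃ (C₁ C W : IntermediateField k Ω) (x w : ℕ → Ω) (r s : ℝ), Bs p v C₁ C ∧ TowR v 2 C M ∧
    v (x 0) ≠ 0 ∧ v (x 0) < r ∧ TP p v C x w r s ∧ C = cadj v W (w 0) ∧
    (∀ a ∈ W, ∃ Q ∈ PI W, (Q.eval (x 1)) ^ p = a) ∧
    W ≤ clI v (IntermediateField.adjoin k {f : Ω | ∃ n : ℕ, n ≠ 0 ∧ f ^ n = x 0})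

/-- A tight pair, the jets of the elements of the base are small; two floors above it. -/
def PrS (p : ℕ) (k : Type u) [Field k] : CProp k := fun Ω _ _ v M =>
  ∃ (C₁ C W : IntermediateField k Ω) (x w : ℕ → Ω) (r s q : ℝ), Bs p v C₁ C ∧ TowR v 2 C M ∧
    v (x 0) ≠ 0 ∧ v (x 0) < r ∧ TP p v C x w r s ∧ C = cadj v W (w 0) ∧ x 0 ∈ W ∧
    (∀ a ∈ W, ∃ Q ∈ PI W, (Q.eval (x 1)) ^ p = a) ∧
    NBX p v W x (fun n F => F * q / p ^ n) ∧ q < r

/-- The jets of the first floor over a closed field are strict, the radius is irrational. -/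
def StM (p : ℕ) (k : Type u) [Field k] : CProp k := fun Ω _ _ v M =>
  ∃ (N : IntermediateField k Ω) (x y : Ω) (σ : ℝ) (D : ℕ → Ω → Ω) (u : Ω) (ρ : ℝ) (z : Ω)
    (s : ℝ), x ≠ 0 ∧ v x ≠ 0 ∧ x ∈ N ∧
    cadj v N y ≤ clI v (IntermediateField.adjoin k {x, y}) ∧ STow p v N y σ D u ρ z s M

section

variable {p : ℕ} [hp : Fact p.Prime] {k : Type u} [Field k] [IsAlgClosed k] [CharP k p]

theorem leafD_prT : LeafD p k (PrT p k) := by
  refine leafD_of_hrone fun Ω _ _ _ _ v K₀ al hb _ hq => ?_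
  obtain ⟨C₁, C, W, x, w, r, s, hB, hT, hv, hvr, hP, hCe, hWp, hW⟩ := hq
  exact TWC.hrone_of_tame hb.ctx hb.cpl (m := 2) (by norm_num) le_rfl hb.fg hb.full
    (by exact_mod_cast hb.tr) hb.bd hb.mem hb.bda hB.fg hB.tr hB.eq hv hvr hP hT hCe hWp hW

theorem leafD_prS : LeafD p k (PrS p k) := by
  refine leafD_of_hrone fun Ω _ _ _ _ v K₀ al hb _ hq => ?_
  obtain ⟨C₁, C, W, x, w, r, s, q, hB, hT, hv, hvr, hP, hCe, hx, hWp, hn, hqr⟩ := hq
  exact TWC.hrone_of_slack hb.ctx hb.cpl (m := 2) (by norm_num) le_rfl hb.fg hb.full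
    (by exact_mod_cast hb.tr) hb.bd hb.mem hb.bda hB.fg hB.tr hB.eq hv hvr hP hT hCe hx hWp hn hqr

theorem leafD_stM : LeafD p k (StM p k) := by
  intro Ω Ω' _ _ _ _ _ _ _ _ v w ι K₀ g hcr hq ν h1 _
  obtain ⟨N, x, y, σ, D, u, ρ, z, s, hx0, hxv, hx, hC, hS⟩ := hq
  exact TWEX.unhit_or_motE_wi p hcr.ctx hcr.cpl hcr.dns hcr.fg hcr.alg
    (by exact_mod_cast hcr.tr) hcr.bd hx0 hxv hx hC hS hcr.gp h1

/-- The closure of `k(x, y)`, infinite first floor, strict jets, irrational radius. -/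
def FStI (p : ℕ) [Fact p.Prime] (k : Type u) [Field k] : CProp k := fun Ω _ _ v M =>
  ∃ (_ : CharP Ω p) (C₁ C : IntermediateField k Ω) (x y : Ω) (s c₀ : ℝ), Bs p v C₁ C ∧
    FInf p v C x y s c₀ ∧ StrW v (WX v C x) y s ∧ ¬ TWC.RatR (v x) s ∧ TowR v 2 C M

theorem leafD_fstI : LeafD p k (FStI p k) := by
  refine (leafD_stM (p := p) (k := k)).cover fun Ω _ _ _ _ v K₀ al hb _ _ hq => ?_
  obtain ⟨_, C₁, C, x, y, s, c₀, hB, hF, hS, hr, hT⟩ := hq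
  obtain ⟨D, u, ρ, z, t, h1⟩ := hF.stow hb.ctx hb.cpl hS hr hT
  exact ⟨WX v C x, x, y, s, D, u, ρ, z, t, hF.x0, hF.vx, hF.toFF.xW, hF.toFF.le_cl, h1⟩

end

end Pool.Agent.TWF
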