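import Pool.Agent.Lib.TWF.InfAlt
import Pool.Agent.Lib.TWF.LeafD
import Pool.Agent.Lib.TWC.SlackN

/-!
# TANK W, the infinite first floor: the cover and the leaves

* `OnB A`: a tower with two floors over a base with the property `A`;
* `leafD_tp`, `leafD_altT`, `leafD_altS`: the leaves of the tight pairs, of the tight elements with
  positive slack, of the strict jets with irrational radius;
* `InfCover`: the cover of the infinite first floor by the alternatives; `InfCover.covers`;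
* `infLeaf_of_cover`: `InfLeaf`, from the cover and the leaves of `AltR`, `AltZ`, `AltH`, `AltC`.
-/

set_option autoImplicit false

open Polynomial

namespace Pool.Agent.TWF

open Pool.Agent.H15JM (RVal)
open Pool.Agent.LU1 (adj)
open Pool.Agent.D2 (Ctx0)
open Pool.Agent.D2P (clI mem_adj_self)
open Pool.Agent.TW
open Pool.Agent.TWM (TL CompleteV Dense cadj Cld cld_clI clI_adj_clI Imm)
open Pool.Agent.TWS (TowR VG)
open Pool.Agent.TWC (hrone_of_near HasTP)
open Pool.Agent.TWS7 (PDiv FGc)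
open Pool.Agent.TWJ2 (Bad)

universe u

/-- `M` is a tower with two floors over a base with the property `A`. -/
def OnB (p : ℕ) {k : Type u} [Field k] (A : CProp k) : CProp k := fun Ω _ _ v M =>
  ∃ (_ : CharP Ω p) (C₁ C : IntermediateField k Ω), Bs p v C₁ C ∧ A Ω v C ∧ TowR v 2 C M

/-- **The cover of the infinite first floor**: inside a complete field, for one closed field. -/
def InfCover (p : ℕ) [Fact p.Prime] (k : Type u) [Field k] : Prop :=
  ∀ (Ω : Type u) [Field Ω] [Algebra k Ω] [IsAlgClosed Ω] [CharP Ω p] (v : RVal Ω), Ctx k v 1 →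
    CompleteV v → ∀ (C₁ C : IntermediateField k Ω) (x y : Ω) (s c₀ : ℝ), Bs p v C₁ C →
      FInf p v C x y s c₀ → Alt p v C

section

variable {p : ℕ} {k : Type u} [Field k] {A B : CProp k}

theorem LeafD.onOr (hA : LeafD p k (OnB p A)) (hB : LeafD p k (OnB p B)) :
    LeafD p k (OnB p fun Ω _ _ v C => A Ω v C ∨ B Ω v C) := by
  refine (hA.or hB).mono fun Ω _ _ v M h => ?_
  obtain ⟨hcp, C₁, C, h4, h5 | h5, h6⟩ := h
  · exact Or.inl ⟨hcp, C₁, C, h4, h5, h6⟩
  · exact Or.inr ⟨hcp, C₁, C, h4, h5, h6⟩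

theorem InfCover.covers [Fact p.Prime] (h : InfCover p k) :
    Covers p k (FIm p k) (OnB p fun _ _ _ v C => Alt p v C) := by
  intro Ω _ _ _ _ v K₀ al hb _ _ hq
  obtain ⟨hcp, C₁, C, x, y, s, c₀, hB, hF, hT⟩ := hq
  exact ⟨hcp, C₁, C, hB, h Ω v hb.ctx hb.cpl C₁ C x y s c₀ hB hF, hT⟩

end

section

variable {p : ℕ} [hp : Fact p.Prime] {k : Type u} [Field k] [IsAlgClosed k] [CharP k p]

/-- **The leaf of the tight pairs**, base `k(x, w)`. -/
theorem leafD_tp : LeafD p k (OnB p fun _ _ _ v C => HasTP p v C) := by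
  refine leafD_of_hrone fun Ω _ _ _ _ v K₀ al hb _ hq => ?_
  obtain ⟨-, C₁, C, hB, ⟨x, w, r, s, hv, hvr, hP, rfl⟩, hT⟩ := hq
  exact TWC.hrone_of_tp0 p hb.ctx hb.cpl (m := 2) (by norm_num) le_rfl hb.fg hb.full
    (by exact_mod_cast hb.tr) hb.bd hb.mem hb.bda hv hvr hP hT
    (TWC.transc_of_far hP.tgt.root hP.mem hP.root hP.far)

/-- **The leaf (T)**: a tight element with positive slack. -/
theorem leafD_altT : LeafD p k (OnB p fun _ _ _ v C => AltT p v C) := by
  refine leafD_of_hrone fun Ω _ _ _ _ v K₀ al hb _ hq => ?_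
  obtain ⟨-, C₁, C, hB, ⟨W, X, y, r, q, δ, s, hcW, hWC, hvX, hvr, hTC, hX0, hq', hδ, hs, hW, hy,
    hTL, hE⟩, hT⟩ := hq
  exact hrone_of_near hb.ctx hb.cpl (m := 2) (by norm_num) le_rfl hb.fg hb.full
    (by exact_mod_cast hb.tr) hb.bd hb.mem hb.bda hB.fg hB.tr hB.eq hvX hvr hTC hT hWC hcW hX0
    hq' hδ hs hW hy hTL hE

/-- **The leaf (S)**: strict jets, irrational radius. -/
theorem leafD_altS : LeafD p k (OnB p fun _ _ _ v C => AltS p v C) := by
  refine (leafD_stM (p := p) (k := k)).cover fun Ω _ _ _ _ v K₀ al hb _ _ hq => ?_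
  obtain ⟨-, C₁, C, hB, ⟨W, x, y, s, hF, hS, hr⟩, hT⟩ := hq
  obtain ⟨D, u, ρ, z, t, h5⟩ := hF.stow hb.ctx hb.cpl ⟨C₁, hB.fg, hB.full, hB.tr, hB.eq⟩ hS hr hT
  exact ⟨W, x, y, s, D, u, ρ, z, t, hF.x0, hF.vx, hF.mem, by rw [← hF.eq]; exact hF.le, h5⟩

/-- **The infinite first floor, from the cover and the four leaves.** -/
theorem infLeaf_of_covers (hcov : Covers p k (FIm p k) (OnB p fun _ _ _ v C => Alt p v C))
    (hR : LeafD p k (OnB p fun _ _ _ v C => AltR p v C))
    (hZ : LeafD p k (OnB p fun _ _ _ v C => AltZ p v C))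
    (hH : LeafD p k (OnB p fun _ _ _ v C => AltH p v C))
    (hC : LeafD p k (OnB p fun _ _ _ v C => AltC p v C)) : InfLeaf p k :=
  infLeaf_of ((leafD_tp.onOr (leafD_altT.onOr (leafD_altS.onOr
    (hR.onOr (hZ.onOr (hH.onOr hC)))))).cover hcov)

theorem infLeaf_of_cover (hcov : InfCover p k)
    (hR : LeafD p k (OnB p fun _ _ _ v C => AltR p v C))
    (hZ : LeafD p k (OnB p fun _ _ _ v C => AltZ p v C))
    (hH : LeafD p k (OnB p fun _ _ _ v C => AltH p v C))
    (hC : LeafD p k (OnB p fun _ _ _ v C => AltC p v C)) : InfLeaf p k :=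
  infLeaf_of_covers hcov.covers hR hZ hH hC

end

end Pool.Agent.TWF
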