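import Pool.Agent.Lib.TWC.Irr1

/-!
# TANK W, dimension 4, row R: the letters of a floor of irrational radius over a tame base

`B J`: the deviations of the letters of level `J`; `Δ m`: the relative distance of `x_m`. No
discreteness: the values of the base may be dense.

* `DatW.exists_two`: the maximum of `(t - Δ l) / p ^ l` over the letters of level `a + l` is attained
  at two levels;
* `DatW.width`: the deviations are bounded;
* **`DatW.limsup_le`**: if no deviation occurs at two levels, the deviations are finally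
  `≤ Δ m + ε`.
-/

set_option autoImplicit false

namespace Pool.Agent.TWF.Irr

/-- The data. -/
structure DatW (p : ℕ) (B : ℕ → Set ℝ) (Δ : ℕ → ℝ) : Prop where
  one_lt : 1 < p
  lvl : ∀ J, ∀ t ∈ B J, 1 ≤ J
  nonneg : ∀ l, 1 ≤ l → 0 ≤ Δ l
  fin : ∀ ε : ℝ, 0 < ε → {x : ℕ × ℝ | x.2 ∈ B x.1 ∧ ε * (p : ℝ) ^ x.1 ≤ x.2}.Finite
  tie : ∀ a m, ∀ t ∈ B (a + m), 1 ≤ m → Δ m < t →
    ∃ l, ∃ t' ∈ B (a + l), 1 ≤ l ∧ l ≠ m ∧
      (t - Δ m) / (p : ℝ) ^ m ≤ (t' - Δ l) / (p : ℝ) ^ l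

variable {p : ℕ} {B : ℕ → Set ℝ} {Δ : ℕ → ℝ}

theorem DatW.fin' (h : DatW p B Δ) {ε : ℝ} (hε : 0 < ε) :
    ∃ J₀, ∀ J, J₀ ≤ J → ∀ t ∈ B J, t < ε * (p : ℝ) ^ J := by
  obtain ⟨M, hM⟩ := ((h.fin ε hε).image Prod.fst).bddAbove
  refine ⟨M + 1, fun J hJ t ht => ?_⟩
  by_contra h1
  have h2 : J ≤ M := hM ⟨(J, t), ⟨ht, not_lt.1 h1⟩, rfl⟩
  omega

/-- **The maximum is attained at two levels.** -/
theorem DatW.exists_two (h : DatW p B Δ) {a m : ℕ} {t : ℝ} (ht : t ∈ B (a + m)) (hm : 1 ≤ m)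
    (hmt : Δ m < t) : ∃ (F : ℝ) (l₁ l₂ : ℕ) (t₁ t₂ : ℝ), 1 ≤ l₁ ∧ l₁ < l₂ ∧ t₁ ∈ B (a + l₁) ∧
      t₂ ∈ B (a + l₂) ∧ (t₁ - Δ l₁) / (p : ℝ) ^ l₁ = F ∧ (t₂ - Δ l₂) / (p : ℝ) ^ l₂ = F ∧
      (t - Δ m) / (p : ℝ) ^ m ≤ F := by
  have hp0 : (0 : ℝ) < p := by exact_mod_cast (zero_lt_one.trans h.one_lt)
  set c : ℝ := (t - Δ m) / (p : ℝ) ^ m with hc
  have hc0 : 0 < c := div_pos (by linarith) (pow_pos hp0 _)
  set f : ℕ × ℝ → ℝ := fun x => (x.2 - Δ (x.1 - a)) / (p : ℝ) ^ (x.1 - a) with hf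
  set S : Set (ℕ × ℝ) := {x | a + 1 ≤ x.1 ∧ x.2 ∈ B x.1 ∧ c ≤ f x} with hS
  have hfin : S.Finite := by
    refine (h.fin (c / (p : ℝ) ^ a) (div_pos hc0 (pow_pos hp0 _))).subset ?_
    rintro ⟨J, s⟩ ⟨h1, h2, h3⟩
    refine ⟨h2, ?_⟩
    simp only [hf] at h3
    simp only at h1
    rw [le_div_iff₀ (pow_pos hp0 _)] at h3
    have h4 := h.nonneg (J - a) (by omega)
    have h5 : (p : ℝ) ^ J = p ^ a * p ^ (J - a) := by
      rw [← pow_add]
      congr 1
      omega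
    have h6 : c / (p : ℝ) ^ a * p ^ J = c * p ^ (J - a) := by
      rw [h5, ← mul_assoc, div_mul_cancel₀ _ (pow_pos hp0 _).ne']
    show c / (p : ℝ) ^ a * p ^ J ≤ s
    rw [h6]
    linarith
  have hmem : ((a + m, t) : ℕ × ℝ) ∈ S := by
    refine ⟨by simp only; omega, ht, ?_⟩
    simp only [hf, Nat.add_sub_cancel_left]
    exact hc.le
  obtain ⟨⟨J, s⟩, ⟨hJ, hs, hcs⟩, hmax⟩ := Set.exists_max_image S f hfin ⟨_, hmem⟩
  simp only at hJ hs
  obtain ⟨l, rfl⟩ : ∃ l, J = a + l := ⟨J - a, by omega⟩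
  have hl1 : 1 ≤ l := by omega
  simp only [hf, Nat.add_sub_cancel_left] at hcs
  have hls : Δ l < s := by
    by_contra h1
    have h2 : (s - Δ l) / (p : ℝ) ^ l ≤ 0 :=
      div_nonpos_of_nonpos_of_nonneg (by linarith [not_lt.1 h1]) (pow_pos hp0 _).le
    linarith
  obtain ⟨l', s', hs', hl', hne, hle⟩ := h.tie a l s hs hl1 hls
  have hmem' : ((a + l', s') : ℕ × ℝ) ∈ S := by
    refine ⟨by simp only; omega, hs', ?_⟩
    simp only [hf, Nat.add_sub_cancel_left]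
    exact hcs.trans hle
  have hle' := hmax _ hmem'
  simp only [hf, Nat.add_sub_cancel_left] at hle'
  have heq : (s' - Δ l') / (p : ℝ) ^ l' = (s - Δ l) / (p : ℝ) ^ l := le_antisymm hle' hle
  rcases lt_or_gt_of_ne hne with h1 | h1
  · exact ⟨_, l', l, s', s, hl', h1, hs', hs, heq, rfl, hcs⟩
  · exact ⟨_, l, l', s, s', hl1, h1, hs, hs', rfl, heq, hcs⟩

/-- **The deviations are bounded.** -/
theorem DatW.width (h : DatW p B Δ) {J : ℕ} {t : ℝ} (hJ : t ∈ B J) : t ≤ p * Δ 1 / (p - 1) := by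
  have hp1 : (1 : ℝ) < p := by exact_mod_cast h.one_lt
  have hp0 : (0 : ℝ) < p := by linarith
  have hΔ := h.nonneg 1 le_rfl
  set A : ℝ := p * Δ 1 / (p - 1) with hA
  have hne : (p : ℝ) - 1 ≠ 0 := by linarith
  have hpA : (p - 1) * A = p * Δ 1 := by
    rw [hA]
    field_simp
  have hA0 : 0 ≤ A := by
    rw [hA]
    exact div_nonneg (by positivity) (by linarith)
  have hA1 : Δ 1 ≤ A := by nlinarith
  by_contra hno
  rw [not_le] at hno
  set ψ : ℝ := (t - A) / p ^ J with hψ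
  have hψ0 : 0 < ψ := div_pos (by linarith) (pow_pos hp0 _)
  have key : ∀ n, ∃ J', J + n ≤ J' ∧ ∃ t' ∈ B J', ψ * p ^ J' ≤ t' - A := by
    intro n
    induction n with
    | zero =>
      refine ⟨J, le_rfl, t, hJ, ?_⟩
      rw [hψ, div_mul_cancel₀ _ (pow_pos hp0 _).ne']
    | succ n ih =>
      obtain ⟨J', hJ', t', ht', h1⟩ := ih
      have hl := h.lvl J' t' ht'
      have hψp : 0 < ψ * p ^ J' := mul_pos hψ0 (pow_pos hp0 _)
      obtain ⟨l, t'', h2, hl1, hl2, h3⟩ := h.tie (J' - 1) 1 t'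
        (by rw [Nat.sub_add_cancel hl]; exact ht') le_rfl (by linarith)
      rw [pow_one] at h3
      obtain ⟨e, rfl⟩ : ∃ e, l = e + 2 := ⟨l - 2, by omega⟩
      refine ⟨J' - 1 + (e + 2), by omega, t'', h2, ?_⟩
      have hΔl := h.nonneg (e + 2) (by omega)
      rw [div_le_div_iff₀ hp0 (pow_pos hp0 _)] at h3
      have h4 : (p : ℝ) ^ (e + 2) = p * (p * p ^ e) := by ring
      have h5 : (p : ℝ) ^ (J' - 1 + (e + 2)) = p ^ J' * (p * p ^ e) := by
        rw [← pow_succ', ← pow_add]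
        congr 1
        omega
      have hpe : (1 : ℝ) ≤ p ^ e := one_le_pow₀ hp1.le
      set q : ℝ := p * p ^ e with hq
      have hqp : (p : ℝ) ≤ q := by nlinarith
      rw [h4] at h3
      have h6 : (t' - Δ 1) * q ≤ t'' - Δ (e + 2) := by
        have : ((t' - Δ 1) * q) * p ≤ (t'' - Δ (e + 2)) * p := by linarith
        exact le_of_mul_le_mul_right this hp0
      rw [h5]
      have h7 : A ≤ (A - Δ 1) * q := by
        have h8 : A ≤ (A - Δ 1) * p := by nlinarith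
        exact h8.trans (mul_le_mul_of_nonneg_left hqp (by linarith))
      have h8 : ψ * p ^ J' * q ≤ (t' - A) * q :=
        mul_le_mul_of_nonneg_right h1 (by linarith)
      have h9 : (t' - Δ 1) * q = (t' - A) * q + (A - Δ 1) * q := by ring
      rw [← mul_assoc]
      linarith
  obtain ⟨J₀, hJ₀⟩ := h.fin' hψ0
  obtain ⟨J', hJ', t', ht', h1⟩ := key J₀
  have := hJ₀ J' (by omega) t' ht'
  linarith

/-- A function with small values far away has a gap below its maximum. -/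
theorem exists_gap_max {E : ℕ → ℝ} (hE : ∀ ε : ℝ, 0 < ε → ∃ L, ∀ l, L ≤ l → E l < ε) {z : ℕ}
    (hz : 0 < E z) (hmax : ∀ l, 1 ≤ l → E l ≤ E z) :
    ∃ g : ℝ, 0 < g ∧ ∀ l, 1 ≤ l → E l = E z ∨ E l ≤ E z - g := by
  obtain ⟨L, hL⟩ := hE (E z / 2) (by linarith)
  have key : ∀ n : ℕ, ∃ g : ℝ, 0 < g ∧ ∀ l, 1 ≤ l → l < n → E l = E z ∨ E l ≤ E z - g := by
    intro n
    induction n with
    | zero => exact ⟨1, one_pos, fun l _ h => absurd h (Nat.not_lt_zero l)⟩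
    | succ n ih =>
      obtain ⟨g, hg, h1⟩ := ih
      by_cases h2 : E n < E z
      · refine ⟨min g (E z - E n), lt_min hg (by linarith), fun l hl hln => ?_⟩
        rcases Nat.lt_succ_iff_lt_or_eq.1 hln with h3 | rfl
        · rcases h1 l hl h3 with h4 | h4
          · exact Or.inl h4
          · right
            linarith [min_le_left g (E z - E n)]
        · right
          linarith [min_le_right g (E z - E l)]
      · refine ⟨g, hg, fun l hl hln => ?_⟩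
        rcases Nat.lt_succ_iff_lt_or_eq.1 hln with h3 | rfl
        · exact h1 l hl h3
        · exact Or.inl (le_antisymm (hmax l hl) (not_lt.1 h2))
  obtain ⟨g, hg, h1⟩ := key L
  refine ⟨min g (E z / 2), lt_min hg (by linarith), fun l hl => ?_⟩
  rcases lt_or_ge l L with h2 | h2
  · rcases h1 l hl h2 with h3 | h3
    · exact Or.inl h3
    · right
      linarith [min_le_left g (E z / 2)]
  · right
    linarith [hL l h2, min_le_right g (E z / 2)]

/-- **If no deviation occurs at two levels, the deviations are finally `≤ Δ m + ε`.** -/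
theorem DatW.limsup_le (h : DatW p B Δ)
    (hirr : ∀ J J' : ℕ, ∀ t : ℝ, t ∈ B J → t ∈ B J' → J = J') {m : ℕ} (hm : 1 ≤ m)
    {ε : ℝ} (hε : 0 < ε) : ∃ J₀, ∀ J, J₀ ≤ J → ∀ t ∈ B J, t ≤ Δ m + ε := by
  classical
  have hp1 : (1 : ℝ) < p := by exact_mod_cast h.one_lt
  have hp0 : (0 : ℝ) < p := by linarith
  by_contra hno
  push Not at hno
  set T : Set ℝ := {t | ∀ J₀, ∃ J, J₀ ≤ J ∧ ∃ s ∈ B J, t < s} with hT
  have hT1 : Δ m + ε ∈ T := hno
  have hT2 : BddAbove T := by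
    refine ⟨p * Δ 1 / (p - 1), fun t ht => ?_⟩
    obtain ⟨J, _, s, hs, h1⟩ := ht 0
    exact h1.le.trans (h.width hs)
  set bs := sSup T with hbs
  have hbm : Δ m + ε ≤ bs := le_csSup hT2 hT1
  have hΔm := h.nonneg m hm
  have hbs0 : 0 < bs := by linarith
  have L2 : ∀ κ : ℝ, 0 < κ → ∀ J₀, ∃ J, J₀ ≤ J ∧ ∃ t ∈ B J, bs - κ < t := by
    intro κ hκ J₀
    obtain ⟨t, ht, h1⟩ := exists_lt_of_lt_csSup ⟨_, hT1⟩ (show bs - κ < sSup T by linarith)
    obtain ⟨J, hJ, s, hs, h2⟩ := ht J₀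
    exact ⟨J, hJ, s, hs, h1.trans h2⟩
  have L1 : ∀ κ : ℝ, 0 < κ → ∃ J₀, ∀ J, J₀ ≤ J → ∀ t ∈ B J, t ≤ bs + κ := by
    intro κ hκ
    by_contra h1
    push Not at h1
    have h2 : bs + κ ∈ T := h1
    have := le_csSup hT2 h2
    linarith
  -- the function `E`
  set E : ℕ → ℝ := fun l => (bs - Δ l) / p ^ l with hE
  have hEf : ∀ δ : ℝ, 0 < δ → ∃ L, ∀ l, L ≤ l → E l < δ := by
    intro δ hδ
    obtain ⟨n, hn⟩ := pow_unbounded_of_one_lt (bs / δ) hp1
    refine ⟨n + 1, fun l hl => ?_⟩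
    have h1 := h.nonneg l (by omega)
    have h2 : bs / δ < (p : ℝ) ^ l := hn.trans_le (pow_le_pow_right₀ hp1.le (by omega))
    rw [div_lt_iff₀ hδ] at h2
    simp only [hE]
    rw [div_lt_iff₀ (pow_pos hp0 _)]
    linarith
  have hEm : 0 < E m := div_pos (by linarith) (pow_pos hp0 _)
  obtain ⟨z, hz1, hall, hmz, g₁, hg₁, hlast⟩ := TWC.Irr.exists_last_max hEf hm hEm
  have hEz : 0 < E z := hEm.trans_le hmz
  obtain ⟨g, hg, hgap⟩ := exists_gap_max hEf hEz hall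
  have hEl : ∀ l, bs - Δ l = E l * (p : ℝ) ^ l := by
    intro l
    simp only [hE]
    rw [div_mul_cancel₀ _ (pow_pos hp0 _).ne']
  -- the first maximum
  have hex : ∃ l, 1 ≤ l ∧ E l = E z := ⟨z, hz1, rfl⟩
  set z₀ := Nat.find hex with hz₀
  obtain ⟨hz₀1, hz₀E⟩ := Nat.find_spec hex
  rw [← hz₀] at hz₀1 hz₀E
  have hz₀min : ∀ l, 1 ≤ l → E l = E z → z₀ ≤ l := fun l h1 h2 => Nat.find_min' hex ⟨h1, h2⟩
  have hzmax : ∀ l, E l = E z → l ≤ z := by
    intro l h1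
    by_contra h2
    have := hlast l (by omega)
    linarith
  have hz₀z : z₀ ≤ z := hz₀min z hz1 rfl
  set κ : ℝ := min (g / 3) (E z / 2) with hκ
  have hκ0 : 0 < κ := lt_min (by linarith) (by linarith)
  have hκg : 2 * κ < g := by
    have : κ ≤ g / 3 := min_le_left _ _
    linarith
  have hκE : κ < E z := by
    have : κ ≤ E z / 2 := min_le_right _ _
    linarith
  obtain ⟨J₀, hJ₀⟩ := L1 κ hκ0
  -- the exact relation
  have rel : ∀ a l t, J₀ ≤ a → 1 ≤ l → E l = E z → t ∈ B (a + l) → bs - κ ≤ t →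
      ∃ (F : ℝ) (l₁ l₂ : ℕ) (t₁ t₂ : ℝ), 1 ≤ l₁ ∧ l₁ < l₂ ∧ E l₁ = E z ∧ E l₂ = E z ∧
        t₁ ∈ B (a + l₁) ∧ t₂ ∈ B (a + l₂) ∧ t₁ - bs = (p : ℝ) ^ l₁ * (F - E z) ∧
        t₂ - bs = (p : ℝ) ^ l₂ * (F - E z) ∧ t - bs ≤ (p : ℝ) ^ l * (F - E z) := by
    intro a l t ha hl hlE ht hκt
    have hpl : (1 : ℝ) ≤ p ^ l := one_le_pow₀ hp1.le
    have e1 := hEl l
    rw [hlE] at e1
    have h1 : E z - κ ≤ (t - Δ l) / p ^ l := by
      rw [le_div_iff₀ (pow_pos hp0 _)]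
      nlinarith
    have h2 : Δ l < t := by
      have h3 : 0 < (t - Δ l) / (p : ℝ) ^ l := by linarith
      have h4 := (div_pos_iff_of_pos_right (pow_pos hp0 l)).1 h3
      linarith
    obtain ⟨F, l₁, l₂, t₁, t₂, hl₁, hl₁₂, ht₁, ht₂, hF₁, hF₂, hF⟩ := h.exists_two ht hl h2
    have hnear : ∀ l' t', 1 ≤ l' → t' ∈ B (a + l') → (t' - Δ l') / (p : ℝ) ^ l' = F →
        E l' = E z ∧ t' - bs = (p : ℝ) ^ l' * (F - E z) := by
      intro l' t' hl' ht' hF'
      have hpl' : (1 : ℝ) ≤ p ^ l' := one_le_pow₀ hp1.le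
      have h3 := hJ₀ (a + l') (by omega) t' ht'
      have e2 := hEl l'
      have h4 : t' - Δ l' = F * p ^ l' := by
        rw [← hF', div_mul_cancel₀ _ (pow_pos hp0 _).ne']
      have h5 : F ≤ E l' + κ := by
        have h6 : F * p ^ l' ≤ (E l' + κ) * p ^ l' := by nlinarith
        exact le_of_mul_le_mul_right h6 (pow_pos hp0 _)
      have h6 : E l' = E z := by
        rcases hgap l' hl' with h7 | h7
        · exact h7
        · linarith
      refine ⟨h6, ?_⟩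
      rw [h6] at e2
      linarith
    obtain ⟨h3, h4⟩ := hnear l₁ t₁ hl₁ ht₁ hF₁
    obtain ⟨h5, h6⟩ := hnear l₂ t₂ (by omega) ht₂ hF₂
    refine ⟨F, l₁, l₂, t₁, t₂, hl₁, hl₁₂, h3, h5, ht₁, ht₂, h4, h6, ?_⟩
    rw [div_le_iff₀ (pow_pos hp0 _)] at hF
    linarith
  -- no deviation above `bs`
  have hA : ∀ J t, J₀ + z ≤ J → t ∈ B J → t ≤ bs := by
    intro J t hJ ht
    by_contra hgt
    rw [not_le] at hgt
    have key : ∀ n : ℕ, ∃ J', J₀ + z ≤ J' ∧ ∃ t' ∈ B J', (p : ℝ) ^ n * (t - bs) ≤ t' - bs := by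
      intro n
      induction n with
      | zero => exact ⟨J, hJ, t, ht, by rw [pow_zero, one_mul]⟩
      | succ n ih =>
        obtain ⟨J', hJ', t', ht', h1⟩ := ih
        have h2 : 0 < t' - bs := lt_of_lt_of_le (mul_pos (pow_pos hp0 _) (by linarith)) h1
        have e1 : J' - z₀ + z₀ = J' := by omega
        obtain ⟨F, l₁, l₂, t₁, t₂, hl₁, hl₁₂, h3, h4, ht₁, ht₂, h5, h6, h7⟩ :=
          rel (J' - z₀) z₀ t' (by omega) hz₀1 hz₀E (by rw [e1]; exact ht') (by linarith)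
        have h8 : 0 < F - E z := by
          by_contra h8
          have := mul_nonpos_of_nonneg_of_nonpos (pow_pos hp0 z₀).le (not_lt.1 h8)
          linarith
        have h9 : z₀ + 1 ≤ l₂ := by
          have := hz₀min l₁ hl₁ h3
          omega
        refine ⟨J' - z₀ + l₂, by omega, t₂, ht₂, ?_⟩
        have h10 : (p : ℝ) ^ (z₀ + 1) ≤ p ^ l₂ := pow_le_pow_right₀ hp1.le h9
        have h11 := mul_le_mul_of_nonneg_right h10 h8.le
        rw [h6]
        calc (p : ℝ) ^ (n + 1) * (t - bs) = p * (p ^ n * (t - bs)) := by ring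
          _ ≤ p * (t' - bs) := mul_le_mul_of_nonneg_left h1 hp0.le
          _ ≤ p * (p ^ z₀ * (F - E z)) := mul_le_mul_of_nonneg_left h7 hp0.le
          _ = p ^ (z₀ + 1) * (F - E z) := by ring
          _ ≤ _ := h11
    obtain ⟨n, hn⟩ := pow_unbounded_of_one_lt (κ / (t - bs)) hp1
    rw [div_lt_iff₀ (by linarith)] at hn
    obtain ⟨J', hJ', t', ht', h1⟩ := key n
    have := hJ₀ J' (by omega) t' ht'
    linarith
  -- going down to bounded levels
  have descent : ∀ n J t, J ≤ n → J₀ + z + z ≤ J → t ∈ B J → bs - κ ≤ t →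
      ∃ J', ∃ t' ∈ B J', J' < J₀ + z + z ∧ t' < bs ∧ bs - κ ≤ t' ∧
        (p : ℝ) ^ (J - J') * (bs - t') ≤ bs - t := by
    intro n
    induction n with
    | zero =>
      intro J t hJ hJ' ht _
      exact absurd hJ' (by omega)
    | succ n ih =>
      intro J t hJ hJ' ht hκt
      have e1 : J - z + z = J := by omega
      obtain ⟨F, l₁, l₂, t₁, t₂, hl₁, hl₁₂, h3, h4, ht₁, ht₂, h5, h6, h7⟩ :=
        rel (J - z) z t (by omega) hz1 rfl (by rw [e1]; exact ht) hκt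
      have hl₂z := hzmax l₂ h4
      have h8 : F - E z ≤ 0 := by
        have h9 := hA (J - z + l₂) t₂ (by omega) ht₂
        by_contra h10
        have := mul_pos (pow_pos hp0 l₂) (not_le.1 h10)
        linarith
      have h9 : F - E z < 0 := by
        rcases h8.lt_or_eq with h9 | h9
        · exact h9
        · exfalso
          rw [h9, mul_zero] at h5 h6
          have h10 : t₁ = t₂ := by linarith
          have := hirr _ _ t₁ ht₁ (h10 ▸ ht₂)
          omega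
      have h10 : t₁ < bs := by
        have := mul_neg_of_pos_of_neg (pow_pos hp0 l₁) h9
        linarith
      have e2 : J - (J - z + l₁) = z - l₁ := by omega
      have h11 : (p : ℝ) ^ (J - (J - z + l₁)) * (bs - t₁) ≤ bs - t := by
        rw [e2]
        have e3 : bs - t₁ = p ^ l₁ * (E z - F) := by linarith
        have e4 : (p : ℝ) ^ (z - l₁) * (p ^ l₁ * (E z - F)) = p ^ z * (E z - F) := by
          rw [← mul_assoc, ← pow_add]
          congr 2
          omega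
        rw [e3, e4]
        linarith
      have h12 : bs - κ ≤ t₁ := by
        have h13 : bs - t₁ ≤ (p : ℝ) ^ (J - (J - z + l₁)) * (bs - t₁) :=
          le_mul_of_one_le_left (by linarith) (one_le_pow₀ hp1.le)
        linarith
      by_cases hlt : J - z + l₁ < J₀ + z + z
      · exact ⟨J - z + l₁, t₁, ht₁, hlt, h10, h12, h11⟩
      · obtain ⟨J', t', ht', h13, h14, h15, h16⟩ :=
          ih (J - z + l₁) t₁ (by omega) (not_lt.1 hlt) ht₁ h12
        refine ⟨J', t', ht', h13, h14, h15, ?_⟩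
        have e5 : (p : ℝ) ^ (J - J') = p ^ (J - (J - z + l₁)) * p ^ (J - z + l₁ - J') := by
          rw [← pow_add]
          congr 1
          omega
        rw [e5, mul_assoc]
        exact (mul_le_mul_of_nonneg_left h16 (pow_pos hp0 _).le).trans h11
  -- finitely many deviations at bounded levels
  have hκbs : κ < bs := by
    have h1 : E z ≤ bs := by
      have h2 := hEl z
      have h3 := h.nonneg z hz1
      have h4 : E z ≤ E z * p ^ z := le_mul_of_one_le_right hEz.le (one_le_pow₀ hp1.le)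
      linarith
    linarith
  set M := J₀ + z + z with hM
  have hfin : {x : ℕ × ℝ | x.2 ∈ B x.1 ∧ x.1 < M ∧ bs - κ ≤ x.2}.Finite := by
    refine (h.fin ((bs - κ) / (p : ℝ) ^ M) (div_pos (by linarith) (pow_pos hp0 _))).subset ?_
    rintro ⟨J, t⟩ ⟨h1, h2, h3⟩
    refine ⟨h1, ?_⟩
    simp only at h2 h3 ⊢
    have h4 : (p : ℝ) ^ J ≤ p ^ M := pow_le_pow_right₀ hp1.le h2.le
    have h5 : (bs - κ) / (p : ℝ) ^ M * p ^ J ≤ (bs - κ) / (p : ℝ) ^ M * p ^ M :=
      mul_le_mul_of_nonneg_left h4 (div_nonneg (by linarith) (pow_pos hp0 _).le)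
    rw [div_mul_cancel₀ _ (pow_pos hp0 _).ne'] at h5
    linarith
  obtain ⟨κ₂, hκ₂, hsep⟩ : ∃ κ₂ : ℝ, 0 < κ₂ ∧ ∀ J, ∀ t ∈ B J, J < M → bs - κ ≤ t → t < bs →
      κ₂ ≤ bs - t := by
    set S : Set (ℕ × ℝ) := {x : ℕ × ℝ | x.2 ∈ B x.1 ∧ x.1 < M ∧ bs - κ ≤ x.2} ∩
      {x | x.2 < bs} with hS
    have hSf : S.Finite := hfin.inter_of_left _
    by_cases hne : S.Nonempty
    · obtain ⟨x, hx, hmin⟩ := Set.exists_min_image S (fun x => bs - x.2) hSf hne
      refine ⟨bs - x.2, by have := hx.2; simp only [Set.mem_setOf_eq] at this; linarith,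
        fun J t ht hJ h1 h2 => ?_⟩
      exact hmin (J, t) ⟨⟨ht, hJ, h1⟩, h2⟩
    · exact ⟨1, one_pos, fun J t ht hJ h1 h2 => absurd ⟨(J, t), ⟨ht, hJ, h1⟩, h2⟩ hne⟩
  obtain ⟨N, hN⟩ := pow_unbounded_of_one_lt (κ / κ₂) hp1
  rw [div_lt_iff₀ hκ₂] at hN
  obtain ⟨J, hJ, t, ht, h1⟩ := L2 κ hκ0 (M + N)
  obtain ⟨J', t', ht', h2, h3, h4, h5⟩ := descent J J t le_rfl (by omega) ht h1.le
  have h6 := hsep J' t' ht' h2 h4 h3
  have h7 : (p : ℝ) ^ N ≤ p ^ (J - J') := pow_le_pow_right₀ hp1.le (by omega)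
  have h8 : (p : ℝ) ^ N * κ₂ ≤ p ^ (J - J') * (bs - t') :=
    mul_le_mul h7 h6 hκ₂.le (pow_pos hp0 _).le
  linarith

end Pool.Agent.TWF.Irr
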