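import Pool.Agent.Lib.TWC.PairWt
import Pool.Agent.Lib.TWC.Lv0A
import Pool.Agent.Lib.TWF.IrrWA

/-!
# TANK W, dimension 4, row R: the letters of a floor over a tame base

`W` closed, `x 0 ∈ W`, `v (x 0) = -S`, `v (x 0) / p` not a value of `W`, `w` a limit of `EW v W x`
up to `-lam`.

* `TB`: the tame base; `TB.vg_inj`: the terms of a polynomial in `x n` of degree `< p ^ n` have
  different values;
* `AprW`: `P (x n)`, `P ∈ W[X]` of degree `< p ^ n`, approaches `w` up to `-(lam + ε)`;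
* `Lt J`: the deviations of the letters of level `J`;
* `Lt.coeff`, `Lt.pos`, `Lt.fin`: independence of the approximation, positivity, finiteness.
-/

set_option autoImplicit false

open Polynomial

namespace Pool.Agent.TWF.Irr

open Pool.Agent.H15JM (RVal)
open Pool.Agent.LU1 (VPos adj)
open Pool.Agent.D2 (Ctx0)
open Pool.Agent.D2P (clI mem_clI)
open Pool.Agent.TWM
open Pool.Agent.TWC
open Pool.Agent.TWS (VG)

universe u

variable {k Ω : Type u} [Field k] [Field Ω] [Algebra k Ω] {v : RVal Ω} {p : ℕ}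
  {W : IntermediateField k Ω} {x : ℕ → Ω} {w : Ω} {S lam : ℝ}

/-- The tame base. -/
structure TB (p : ℕ) (v : RVal Ω) (W : IntermediateField k Ω) (x : ℕ → Ω) (S : ℝ) : Prop where
  cld : Cld v W
  root : ∀ n, x (n + 1) ^ p = x n
  ne : x 0 ≠ 0
  mem : x 0 ∈ W
  val : v (x 0) = -S
  vg : v (x 0) / p ∉ VG v W
  nat : ∀ n : ℕ, v.Ge 0 (n : Ω)
  nbx : NBX p v W x fun n F => F * v (x 0) / p ^ n

/-- `P (x n)` approaches `w` up to `-(lam + ε)`. -/
structure AprW (p : ℕ) (v : RVal Ω) (W : IntermediateField k Ω) (x : ℕ → Ω) (w : Ω) (lam : ℝ)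
    (n : ℕ) (P : Polynomial Ω) (ε : ℝ) : Prop where
  mem : P ∈ PI W
  deg : P.natDegree < p ^ n
  ge : v.Ge (-(lam + ε)) (w - P.eval (x n))

section Basic

variable [hp : Fact p.Prime]

theorem ps_pos (p : ℕ) [hp : Fact p.Prime] (n : ℕ) : (0 : ℝ) < (p : ℝ) ^ n :=
  pow_pos (by exact_mod_cast hp.out.pos) n

theorem TB.val_x (h : TB p v W x S) (n : ℕ) : v (x n) = -(S / p ^ n) := by
  rw [val_root h.root h.ne n, h.val, neg_div]

theorem TB.ne_x (h : TB p v W x S) (n : ℕ) : x n ≠ 0 := root_ne h.root h.ne n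

/-- The multiples of `v (x n)` in the values of `W`. -/
theorem TB.dvd_of_vg (h : TB p v W x S) {n d : ℕ} (hd : (d : ℝ) * v (x n) ∈ VG v W) :
    p ^ n ∣ d := by
  classical
  rcases Nat.eq_zero_or_pos d with rfl | hd0
  · exact dvd_zero _
  obtain ⟨e, b, hb, rfl⟩ := Nat.exists_eq_pow_mul_and_not_dvd hd0.ne' p hp.out.ne_one
  by_contra hno
  have he : e < n := by
    by_contra h1
    exact hno (Dvd.dvd.mul_right (pow_dvd_pow p (not_lt.1 h1)) b)
  have hp0 : (p : ℝ) ≠ 0 := by exact_mod_cast hp.out.ne_zero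
  -- `b v (x 0) / p` is a value
  have h1 : (b : ℝ) * (v (x 0) / p) ∈ VG v W := by
    have h2 := (VG v W).nsmul_mem hd (p ^ (n - 1 - e))
    rw [nsmul_eq_mul] at h2
    have h3 : ((p ^ (n - 1 - e) : ℕ) : ℝ) * (((p ^ e * b : ℕ) : ℝ) * v (x n)) =
        b * (v (x 0) / p) := by
      have h4 : (p : ℝ) ^ n = p ^ (n - 1 - e) * p ^ e * p := by
        rw [← pow_add, ← pow_succ]
        congr 1
        omega
      rw [val_root h.root h.ne n, h4]
      have h5 := (ps_pos p (n - 1 - e)).ne'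
      have h6 := (ps_pos p e).ne'
      push_cast
      field_simp
    rwa [h3] at h2
  have h2 : (p : ℝ) * (v (x 0) / p) ∈ VG v W := by
    rw [mul_div_cancel₀ _ hp0]
    exact VG.self h.mem h.ne
  have hcop : IsCoprime (b : ℤ) (p : ℤ) := by
    rw [Nat.isCoprime_iff_coprime]
    exact ((Nat.Prime.coprime_iff_not_dvd hp.out).2 hb).symm
  obtain ⟨u, u', hu⟩ := hcop
  apply h.vg
  have h3 := (VG v W).add_mem ((VG v W).zsmul_mem h1 u) ((VG v W).zsmul_mem h2 u')
  have h4 : u • ((b : ℝ) * (v (x 0) / p)) + u' • ((p : ℝ) * (v (x 0) / p)) = v (x 0) / p := by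
    have h5 : ((u : ℝ) * b + u' * p) = 1 := by exact_mod_cast hu
    rw [zsmul_eq_mul, zsmul_eq_mul]
    linear_combination (v (x 0) / p) * h5
  rwa [h4] at h3

/-- The terms have different values. -/
theorem TB.vg_inj (h : TB p v W x S) {n i j : ℕ} (hi : i < p ^ n) (hj : j < p ^ n) {a b : Ω}
    (ha : a ∈ W) (hb : b ∈ W) (ha0 : a ≠ 0) (hb0 : b ≠ 0)
    (he : v a + i * v (x n) = v b + j * v (x n)) : i = j := by
  wlog hij : i ≤ j generalizing i j a b
  · exact (this hj hi hb ha hb0 ha0 he.symm (by omega)).symm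
  have h1 : ((j - i : ℕ) : ℝ) * v (x n) ∈ VG v W := by
    have h2 := (VG v W).sub_mem (VG.self ha ha0) (VG.self hb hb0)
    rw [Nat.cast_sub hij]
    have h3 : ((j : ℝ) - i) * v (x n) = v a - v b := by linarith
    rwa [h3]
  have h2 := h.dvd_of_vg h1
  by_contra hne
  have h3 := Nat.le_of_dvd (by omega) h2
  omega

/-- The same polynomial at a higher level. -/
theorem AprW.lift {ε : ℝ} {n : ℕ} {P : Polynomial Ω} (h : AprW p v W x w lam n P ε)
    (hr : ∀ n, x (n + 1) ^ p = x n) (j : ℕ) :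
    AprW p v W x w lam (n + j) (expand Ω (p ^ j) P) ε where
  mem := expand_mem_PI (pow_pos hp.out.pos j) h.mem
  deg := by
    rw [natDegree_expand, pow_add]
    exact Nat.mul_lt_mul_of_pos_right h.deg (pow_pos hp.out.pos _)
  ge := by
    rw [expand_eval, root_pow_add hr n j]
    exact h.ge

variable [CharP Ω p]

/-- The size of a term. -/
theorem TB.coeff_ge (h : TB p v W x S) {P : Polynomial Ω} (hP : P ∈ PI W) {n : ℕ}
    (hd : P.natDegree < p ^ n) {b : ℝ} (hb : v.Ge b (P.eval (x n))) (c : ℕ) :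
    v.Ge (b - c * v (x n)) (P.coeff c) := by
  have h1 := ort_coeff h.nat h.root h.ne h.nbx hP hd hb c
  rwa [val_root h.root h.ne n]

/-- The large terms are unique. -/
theorem AprW.unique {ε ε' : ℝ} {n : ℕ} {P P' : Polynomial Ω} (hB : TB p v W x S)
    (h : AprW p v W x w lam n P ε) (h' : AprW p v W x w lam n P' ε') {i : ℕ}
    (hi0 : P.coeff i ≠ 0) (hi : lam + ε < -(v (P.coeff i) + i * v (x n)))
    (hi' : lam + ε' < -(v (P.coeff i) + i * v (x n))) :
    P'.coeff i ≠ 0 ∧ v (P'.coeff i) = v (P.coeff i) := by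
  have h1 : v.Ge (-(max (lam + ε) (lam + ε'))) ((P - P').eval (x n)) := by
    have h2 := RVal.Ge.sub (RVal.Ge.mono (neg_le_neg (le_max_right (lam + ε) (lam + ε'))) h'.ge)
      (RVal.Ge.mono (neg_le_neg (le_max_left (lam + ε) (lam + ε'))) h.ge)
    have h3 : w - P'.eval (x n) - (w - P.eval (x n)) = (P - P').eval (x n) := by
      rw [eval_sub]
      ring
    rwa [h3] at h2
  have h2 := hB.coeff_ge (sub_mem h.mem h'.mem)
    ((natDegree_sub_le _ _).trans_lt (max_lt h.deg h'.deg)) h1 i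
  rw [coeff_sub] at h2
  refine Gt.val_eq hi0 (Gt.of_ge h2 ?_)
  have h3 := max_lt hi hi'
  linarith

omit [CharP Ω p] in
/-- The approximations of a limit of `E`. -/
theorem exists_aprW (hB : TB p v W x S) (hl : Lim v (EW v W x) (-lam) w)
    {ε : ℝ} (hε : 0 < ε) (M : ℕ) : ∃ n, M ≤ n ∧ ∃ P : Polynomial Ω, AprW p v W x w lam n P ε ∧
      ∀ i, P.coeff i ≠ 0 → lam + ε < -(v (P.coeff i) + i * v (x n)) := by
  classical
  obtain ⟨e, he, h1⟩ := hl ε hε
  obtain ⟨z, ⟨n, P₀, hP₀, rfl⟩, h2⟩ := AX.dense hB.root hp.out.pos hB.mem e he (-lam - ε)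
  obtain ⟨P₁, hP₁, hd, hPe⟩ := exists_red hB.root hB.mem n hP₀
  have h3 : AprW p v W x w lam n P₁ ε :=
    { mem := hP₁
      deg := hd
      ge := by
        have e1 : w - P₁.eval (x n) = (w - e) + (e - P₀.eval (x n)) := by
          rw [hPe]
          ring
        rw [e1]
        exact (h1.add h2.2).mono (by linarith) }
  obtain ⟨N, P, hN, hP⟩ : ∃ (N : ℕ) (P : Polynomial Ω), M ≤ N ∧ AprW p v W x w lam N P ε :=
    ⟨n + M, _, by omega, h3.lift hB.root M⟩
  -- the small terms are removed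
  obtain ⟨Q, hQ⟩ : ∃ Q : Polynomial Ω, Q = ∑ i ∈ P.support.filter
      (fun i : ℕ => lam + ε < -(v (P.coeff i) + i * v (x N))), monomial i (P.coeff i) := ⟨_, rfl⟩
  have hc : ∀ j, Q.coeff j = if lam + ε < -(v (P.coeff j) + j * v (x N)) then P.coeff j else 0 := by
    intro j
    rw [hQ, finsetSum_coeff]
    simp only [coeff_monomial]
    rw [Finset.sum_ite_eq' (P.support.filter _) j]
    simp only [Finset.mem_filter]
    by_cases h4 : P.coeff j = 0
    · rw [h4]
      simp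
    · rw [← Ne, ← mem_support_iff] at h4
      simp only [h4, true_and]
  refine ⟨N, hN, Q, ⟨fun i => ?_, ?_, ?_⟩, fun i hi => ?_⟩
  · rw [hc]
    split_ifs
    · exact hP.mem i
    · exact zero_mem _
  · refine lt_of_le_of_lt ?_ hP.deg
    refine natDegree_le_iff_coeff_eq_zero.2 fun i hi => ?_
    rw [hc, coeff_eq_zero_of_natDegree_lt hi]
    simp
  · have h4 : v.Ge (-(lam + ε)) ((P - Q).eval (x N)) := by
      rw [eval_eq_sum_range]
      refine RVal.Ge.sum _ _ fun i _ => ?_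
      rw [coeff_sub, hc]
      split_ifs with h5
      · rw [sub_self, zero_mul]
        exact RVal.Ge.zero
      · rw [sub_zero]
        intro h6
        have h7 : P.coeff i ≠ 0 := left_ne_zero_of_mul h6
        rw [v.map_mul h7 (pow_ne_zero _ (hB.ne_x N)), v.map_pow (hB.ne_x N)]
        linarith [not_lt.1 h5]
    have h5 : w - Q.eval (x N) = (w - P.eval (x N)) + (P - Q).eval (x N) := by
      rw [eval_sub]
      ring
    rw [h5]
    exact hP.ge.add h4
  · rw [hc] at hi ⊢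
    by_contra h4
    split_ifs at hi h4 with h5
    · exact h4 h5
    · exact hi rfl

/-- The deviations of the letters of level `J`. -/
def Lt (p : ℕ) (v : RVal Ω) (W : IntermediateField k Ω) (x : ℕ → Ω) (w : Ω) (lam : ℝ) (J : ℕ) :
    Set ℝ :=
  {t | 1 ≤ J ∧ ∃ (n : ℕ) (P : Polynomial Ω) (ε : ℝ) (b : ℕ), J ≤ n ∧ 0 < ε ∧
    AprW p v W x w lam n P ε ∧ ¬ p ∣ b ∧ P.coeff (b * p ^ (n - J)) ≠ 0 ∧
    lam + ε < -(v (P.coeff (b * p ^ (n - J))) + b * v (x J)) ∧
    t = p ^ J * (-(v (P.coeff (b * p ^ (n - J))) + b * v (x J)) - lam)}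

omit [CharP Ω p] in
theorem TB.mul_val (hB : TB p v W x S) {J n b : ℕ} (hJ : J ≤ n) :
    ((b * p ^ (n - J) : ℕ) : ℝ) * v (x n) = b * v (x J) := by
  have h1 : (p : ℝ) ^ n = p ^ (n - J) * p ^ J := by
    rw [← pow_add]
    congr 1
    omega
  have h2 := (ps_pos p (n - J)).ne'
  have h3 := (ps_pos p J).ne'
  rw [val_root hB.root hB.ne n, val_root hB.root hB.ne J, h1]
  push_cast
  field_simp

omit [CharP Ω p] in
theorem Lt.pos {J : ℕ} {t : ℝ} (h : t ∈ Lt p v W x w lam J) : 0 < t := by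
  obtain ⟨-, n, P, ε, b, -, hε, -, -, -, h1, rfl⟩ := h
  exact mul_pos (ps_pos p J) (by linarith)

/-- The letter in another approximation. -/
theorem Lt.coeff (hB : TB p v W x S) {J : ℕ} {t : ℝ} (h : t ∈ Lt p v W x w lam J)
    {ε : ℝ} {n : ℕ} {P : Polynomial Ω} (hP : AprW p v W x w lam n P ε) (hn : J ≤ n)
    (hε : ε * p ^ J < t) : ∃ b : ℕ, ¬ p ∣ b ∧ P.coeff (b * p ^ (n - J)) ≠ 0 ∧
      t = p ^ J * (-(v (P.coeff (b * p ^ (n - J))) + b * v (x J)) - lam) := by
  obtain ⟨-, n', P', ε', b, hn', hε', hP', hb, h0, h1, rfl⟩ := h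
  have hpJ := ps_pos p J
  have h2 : lam + ε < -(v (P'.coeff (b * p ^ (n' - J))) + b * v (x J)) := by
    rw [mul_comm] at hε
    have := lt_of_mul_lt_mul_left hε hpJ.le
    linarith
  have h3 : AprW p v W x w lam (n + n') (expand Ω (p ^ n) P') ε' := by
    have := hP'.lift hB.root n
    rwa [add_comm n' n] at this
  have h5 : b * p ^ (n + n' - J) = b * p ^ (n - J) * p ^ n' := by
    rw [mul_assoc, ← pow_add]
    congr 2
    omega
  have h6 : b * p ^ (n + n' - J) = b * p ^ (n' - J) * p ^ n := by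
    rw [mul_assoc, ← pow_add]
    congr 2
    omega
  have h7 : (expand Ω (p ^ n') P).coeff (b * p ^ (n + n' - J)) = P.coeff (b * p ^ (n - J)) := by
    rw [h5, coeff_expand_mul (pow_pos hp.out.pos _)]
  have h8 : (expand Ω (p ^ n) P').coeff (b * p ^ (n + n' - J)) = P'.coeff (b * p ^ (n' - J)) := by
    rw [h6, coeff_expand_mul (pow_pos hp.out.pos _)]
  have h4 := AprW.unique hB h3 (hP.lift hB.root n') (i := b * p ^ (n + n' - J))
    (by rw [h8]; exact h0) (by rw [h8, hB.mul_val (by omega)]; exact h1)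
    (by rw [h8, hB.mul_val (by omega)]; exact h2)
  rw [h7, h8] at h4
  exact ⟨b, hb, h4.1, by rw [h4.2]⟩

omit [CharP Ω p] in
/-- The letters of a polynomial. -/
theorem Lt.of_apr (hB : TB p v W x S) {ε : ℝ} {n : ℕ} {P : Polynomial Ω} (hε : 0 < ε)
    (hP : AprW p v W x w lam n P ε) {J b : ℕ} (hJ1 : 1 ≤ J) (hJ : J ≤ n) (hb : ¬ p ∣ b)
    (h0 : P.coeff (b * p ^ (n - J)) ≠ 0)
    (h1 : lam + ε < -(v (P.coeff (b * p ^ (n - J))) +
      ((b * p ^ (n - J) : ℕ) : ℝ) * v (x n))) :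
    (p : ℝ) ^ J * (-(v (P.coeff (b * p ^ (n - J))) + b * v (x J)) - lam) ∈
      Lt p v W x w lam J := by
  rw [hB.mul_val hJ] at h1
  exact ⟨hJ1, n, P, ε, b, hJ, hε, hP, hb, h0, h1, rfl⟩

/-- The large letters are finite in number. -/
theorem Lt.fin (hB : TB p v W x S) (hl : Lim v (EW v W x) (-lam) w) {ε : ℝ} (hε : 0 < ε) :
    {y : ℕ × ℝ | y.2 ∈ Lt p v W x w lam y.1 ∧ ε * (p : ℝ) ^ y.1 ≤ y.2}.Finite := by
  classical
  obtain ⟨n, -, P, hP, -⟩ := exists_aprW hB hl (half_pos hε) 0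
  refine ((P.support.product (Finset.range (n + 1))).finite_toSet.image
    (fun z : ℕ × ℕ => ((z.2, (p : ℝ) ^ z.2 * (-(v (P.coeff z.1) +
      ((z.1 / p ^ (n - z.2) : ℕ) : ℝ) * v (x z.2)) - lam)) : ℕ × ℝ))).subset ?_
  rintro ⟨J, t⟩ ⟨h1, h2⟩
  simp only at h1 h2
  have hpJ := ps_pos p J
  have h3 : ε / 2 * p ^ J < t := by nlinarith
  have hJn : J ≤ n := by
    by_contra hno
    obtain ⟨j, rfl⟩ : ∃ j, J = n + (j + 1) := ⟨J - n - 1, by omega⟩
    obtain ⟨b, hb, h4, -⟩ := Lt.coeff hB h1 (hP.lift hB.root (j + 1)) le_rfl h3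
    rw [Nat.sub_self, pow_zero, mul_one, coeff_expand (pow_pos hp.out.pos _)] at h4
    apply h4
    rw [if_neg]
    intro h5
    exact hb ((dvd_pow_self p (Nat.succ_ne_zero j)).trans h5)
  obtain ⟨b, -, h4, h5⟩ := Lt.coeff hB h1 hP hJn h3
  refine ⟨(b * p ^ (n - J), J), ?_, ?_⟩
  · rw [Finset.mem_coe]
    exact Finset.mem_product.2 ⟨mem_support_iff.2 h4, Finset.mem_range.2 (by omega)⟩
  · simp only
    rw [Nat.mul_div_cancel _ (pow_pos hp.out.pos _), ← h5]

end Basic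

end Pool.Agent.TWF.Irr
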