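import Pool.Agent.Lib.TWF.IrrWB
import Pool.Agent.Lib.TWC.Irr2

/-!
# TANK W, dimension 4, row R: the letters of a floor over a tame base, the Newton step

* `newtonW`: one Newton step, the coefficients of the polynomial are arbitrary;
* **`tieW`**: no letter can be isolated;
* `dat`: the letters of `w` are a set of data `DatW`;
* `Lt.level`: if `lam` is not in `ℚ` times the group of values, no deviation occurs at two levels.
-/

set_option autoImplicit false

open Polynomial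

namespace Pool.Agent.TWF.Irr

open Pool.Agent.H15JM (RVal)
open Pool.Agent.LU1 (VPos adj)
open Pool.Agent.D2 (Ctx0)
open Pool.Agent.D2P (clI mem_clI)
open Pool.Agent.TWM
open Pool.Agent.TWC
open Pool.Agent.TWS (VG)

universe u

variable {k Ω : Type u} [Field k] [Field Ω] [Algebra k Ω] {v : RVal Ω} {p : ℕ}
  {W : IntermediateField k Ω} {x : ℕ → Ω} {w : Ω} {S lam : ℝ}

section Newton

variable {y g Q : Ω} {V τ c T : ℝ}

/-- **One Newton step.** -/
theorem newtonW {R : Polynomial Ω} {b : ℕ} (hb : v (b : Ω) = 0) (hb0 : (b : Ω) ≠ 0)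
    (hnat : ∀ n : ℕ, v.Ge 0 (n : Ω)) (hg0 : g ≠ 0) (hg : v g = V) (hRb : R.coeff b ≠ 0)
    (hT : v (R.coeff b) + b * V = T)
    (hR : ∀ j, j ≠ b → R.coeff j ≠ 0 → T < v (R.coeff j) + j * V) (hτ : V ≤ τ)
    (hδ : v.Ge τ (y - g)) (hQ : v.Ge c (Q - R.eval y)) :
    v.Ge (min (2 * τ - V) (c - T + V))
      (y - (g + (Q - R.eval g) / (derivative R).eval g)) := by
  have hb1 : b ≠ 0 := by
    rintro rfl
    exact hb0 Nat.cast_zero
  have hRT : ∀ j : ℕ, v.Ge (T - j * V) (R.coeff j) := by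
    intro j h0
    rcases eq_or_ne j b with rfl | h1
    · linarith
    · linarith [hR j h1 h0]
  -- the derivative
  have hsumd : (derivative R).eval g = ∑ j ∈ Finset.range (R.natDegree + 1),
      R.coeff j * j * g ^ (j - 1) := by
    rw [derivative_eval, Polynomial.sum, Finset.sum_subset (s₂ := Finset.range (R.natDegree + 1))]
    · intro j hj
      rw [Finset.mem_range]
      exact Nat.lt_succ_of_le (le_natDegree_of_mem_supp j hj)
    · intro j _ hj
      rw [notMem_support_iff] at hj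
      rw [hj, zero_mul, zero_mul]
  have hbr : b ∈ Finset.range (R.natDegree + 1) := by
    rw [Finset.mem_range]
    exact Nat.lt_succ_of_le (le_natDegree_of_ne_zero hRb)
  have hmain0 : R.coeff b * b * g ^ (b - 1) ≠ 0 :=
    mul_ne_zero (mul_ne_zero hRb hb0) (pow_ne_zero _ hg0)
  have hmain : v (R.coeff b * b * g ^ (b - 1)) = T - V := by
    rw [v.map_mul (mul_ne_zero hRb hb0) (pow_ne_zero _ hg0), v.map_mul hRb hb0, hb,
      v.map_pow hg0, hg, Nat.cast_sub (Nat.pos_of_ne_zero hb1), Nat.cast_one]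
    linarith
  have hrest : Gt v (T - V) (∑ j ∈ (Finset.range (R.natDegree + 1)).erase b,
      R.coeff j * j * g ^ (j - 1)) := by
    refine Gt.sum _ _ fun j hj => ?_
    intro h0
    have hj0 : R.coeff j ≠ 0 := fun h => h0 (by rw [h, zero_mul, zero_mul])
    have hjn : (j : Ω) ≠ 0 := fun h => h0 (by rw [h, mul_zero, zero_mul])
    have hj1 : j ≠ 0 := by
      rintro rfl
      exact hjn Nat.cast_zero
    rw [v.map_mul (mul_ne_zero hj0 hjn) (pow_ne_zero _ hg0), v.map_mul hj0 hjn,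
      v.map_pow hg0, hg, Nat.cast_sub (Nat.pos_of_ne_zero hj1), Nat.cast_one]
    have h1 := hR j (Finset.mem_erase.1 hj).1 hj0
    have h2 := hnat j hjn
    linarith
  obtain ⟨hD0, hDv⟩ : (derivative R).eval g ≠ 0 ∧ v ((derivative R).eval g) = T - V := by
    have h1 : (derivative R).eval g = R.coeff b * b * g ^ (b - 1) +
        ∑ j ∈ (Finset.range (R.natDegree + 1)).erase b, R.coeff j * j * g ^ (j - 1) := by
      rw [hsumd]
      exact (Finset.add_sum_erase _ (fun j => R.coeff j * j * g ^ (j - 1)) hbr).symm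
    have h2 : Gt v (v (R.coeff b * b * g ^ (b - 1)))
        (R.coeff b * b * g ^ (b - 1) - (derivative R).eval g) := by
      rw [h1, sub_add_cancel_left, hmain]
      exact hrest.neg
    rw [← hmain]
    exact Gt.val_eq hmain0 h2
  -- the Taylor expansion
  obtain ⟨δ, hδd⟩ : ∃ δ, δ = y - g := ⟨_, rfl⟩
  rw [← hδd] at hδ
  have hy : y = δ + g := by rw [hδd, sub_add_cancel]
  obtain ⟨m, hm⟩ : ∃ m, m = R.natDegree + 1 := ⟨_, rfl⟩
  have htay : R.eval y = ∑ i ∈ Finset.range (m + 1), (hasseDeriv i R).eval g * δ ^ i := by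
    have h1 : R.eval y = (taylor g R).eval δ := by
      rw [taylor_eval, ← hy]
    rw [h1, eval_eq_sum_range' (n := m + 1) (by rw [natDegree_taylor]; omega)]
    refine Finset.sum_congr rfl fun i _ => ?_
    rw [taylor_coeff]
  have hterm : ∀ i, 2 ≤ i → v.Ge (2 * τ - V + (T - V)) ((hasseDeriv i R).eval g * δ ^ i) := by
    intro i hi
    have h1 : v.Ge (T - i * V) ((hasseDeriv i R).eval g) := by
      rw [hasseDeriv_apply, Polynomial.sum, eval_finsetSum]
      refine RVal.Ge.sum _ _ fun j _ => ?_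
      rw [eval_monomial]
      rcases lt_or_ge j i with h2 | h2
      · rw [Nat.choose_eq_zero_of_lt h2, Nat.cast_zero, zero_mul, zero_mul]
        exact RVal.Ge.zero
      · refine (((hnat _).mul (hRT j)).mul
          (TWM.ge_pow (show v.Ge V g from fun _ => hg.ge) (j - i))).mono ?_
        rw [Nat.cast_sub h2]
        apply le_of_eq
        ring
    refine (h1.mul (TWM.ge_pow hδ i)).mono ?_
    have h3 : (2 : ℝ) ≤ i := by exact_mod_cast hi
    nlinarith
  have hsum : R.eval y - R.eval g - (derivative R).eval g * δ =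
      ∑ i ∈ Finset.Ico 2 (m + 1), (hasseDeriv i R).eval g * δ ^ i := by
    rw [htay, ← Finset.sum_range_add_sum_Ico _ (show 2 ≤ m + 1 by omega), Finset.sum_range_succ,
      Finset.sum_range_one, hasseDeriv_zero', pow_zero, mul_one, hasseDeriv_one', pow_one]
    ring
  have h1 : v.Ge (2 * τ - V + (T - V)) (R.eval y - R.eval g - (derivative R).eval g * δ) := by
    rw [hsum]
    refine RVal.Ge.sum _ _ fun i hi => ?_
    rw [Finset.mem_Ico] at hi
    exact hterm i hi.1
  have h2 : y - (g + (Q - R.eval g) / (derivative R).eval g) =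
      -((R.eval y - R.eval g - (derivative R).eval g * δ) + (Q - R.eval y)) /
        (derivative R).eval g := by
    rw [hδd]
    field_simp
    ring
  rw [h2]
  have h3 : v.Ge (min (2 * τ - V + (T - V)) c)
      (-((R.eval y - R.eval g - (derivative R).eval g * δ) + (Q - R.eval y))) :=
    (RVal.Ge.add (h1.mono (min_le_left _ _)) (hQ.mono (min_le_right _ _))).neg
  intro h4
  have h5 : -((R.eval y - R.eval g - (derivative R).eval g * δ) + (Q - R.eval y)) ≠ 0 := by
    intro h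
    rw [h, zero_div] at h4
    exact h4 rfl
  rw [v.map_div h5 hD0, hDv]
  have h6 := h3 h5
  rcases le_total (2 * τ - V) (c - T + V) with h7 | h7
  · rw [min_eq_left h7]
    rw [min_eq_left (by linarith)] at h6
    linarith
  · rw [min_eq_right h7]
    rw [min_eq_right (by linarith)] at h6
    linarith

end Newton

section Tie

variable [hp : Fact p.Prime] [CharP k p] [CharP Ω p]

/-- **No letter can be isolated.** -/
theorem tieW (hk : Ctx0 k v) (hB : TB p v W x S) (hl : Lim v (EW v W x) (-lam) w)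
    {C : IntermediateField k Ω} (hWC : W ≤ C) (hw : w ∈ C) {Δ : ℕ → ℝ}
    (hΔ : ∀ m, 1 ≤ m → 0 < Δ m) (hD : ∀ m, 1 ≤ m → Dst v C (x m) ((Δ m - S) / p ^ m))
    {a m : ℕ} {t : ℝ} (hm : 1 ≤ m) (ht : t ∈ Lt p v W x w lam (a + m)) (hlt : Δ m < t) :
    ∃ l, ∃ t' ∈ Lt p v W x w lam (a + l), 1 ≤ l ∧ l ≠ m ∧
      (t - Δ m) / (p : ℝ) ^ m ≤ (t' - Δ l) / (p : ℝ) ^ l := by
  classical
  by_contra hno
  push Not at hno
  obtain ⟨G, hG⟩ : ∃ G : ℝ, G = (t - Δ m) / (p : ℝ) ^ m := ⟨_, rfl⟩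
  rw [← hG] at hno
  have hr := hB.root
  have hpa := ps_pos p a
  have hpm := ps_pos p m
  have hG0 : 0 < G := by
    rw [hG]
    exact div_pos (by linarith) hpm
  -- the precision
  obtain ⟨ε, hε, hε1, hε2⟩ : ∃ ε : ℝ, 0 < ε ∧ ε * (p : ℝ) ^ a < G ∧ ε * p ^ (a + m) < t := by
    have h1 := Lt.pos ht
    have hpam := ps_pos p (a + m)
    refine ⟨min (G / (2 * p ^ a)) (t / (2 * p ^ (a + m))),
      lt_min (by positivity) (by positivity), ?_, ?_⟩
    · refine lt_of_le_of_lt (mul_le_mul_of_nonneg_right (min_le_left _ _) hpa.le) ?_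
      have : G / (2 * p ^ a) * (p : ℝ) ^ a = G / 2 := by field_simp
      rw [this]
      linarith
    · refine lt_of_le_of_lt (mul_le_mul_of_nonneg_right (min_le_right _ _) hpam.le) ?_
      have : t / (2 * p ^ (a + m)) * (p : ℝ) ^ (a + m) = t / 2 := by field_simp
      rw [this]
      linarith
  obtain ⟨n, hn, P, hP, hPc⟩ := exists_aprW hB hl hε (a + m)
  obtain ⟨N, rfl⟩ : ∃ N, n = N + a := ⟨n - a, by omega⟩
  have hmN : m ≤ N := by omega
  -- the terms
  obtain ⟨u, hu⟩ : ∃ u : ℕ → Ω, ∀ i, u i = P.coeff i ^ p ^ a * x N ^ i :=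
    ⟨fun i => P.coeff i ^ p ^ a * x N ^ i, fun i => rfl⟩
  have hup : ∀ i, u i = (P.coeff i * x (N + a) ^ i) ^ p ^ a := by
    intro i
    rw [hu, mul_pow, ← pow_mul, mul_comm i, pow_mul, root_pow_add hr N a]
  have hxa0 := hB.ne_x (N + a)
  have hu0 : ∀ i, P.coeff i ≠ 0 → u i ≠ 0 ∧
      v (u i) = p ^ a * (v (P.coeff i) + i * v (x (N + a))) := by
    intro i hi
    have h1 : P.coeff i * x (N + a) ^ i ≠ 0 := mul_ne_zero hi (pow_ne_zero _ hxa0)
    refine ⟨by rw [hup]; exact pow_ne_zero _ h1, ?_⟩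
    rw [hup, v.map_pow h1, v.map_mul hi (pow_ne_zero _ hxa0), v.map_pow hxa0]
    push_cast
    ring
  have hsum : P.eval (x (N + a)) ^ p ^ a = ∑ i ∈ P.support, u i := by
    rw [eval_eq_sum_range, sum_pow_char_pow, ← Finset.sum_subset (s₁ := P.support)]
    · exact Finset.sum_congr rfl fun i _ => (hup i).symm
    · intro i hi
      rw [Finset.mem_range]
      exact Nat.lt_succ_of_le (le_natDegree_of_mem_supp i hi)
    · intro i _ hi
      rw [notMem_support_iff] at hi
      rw [hi, zero_mul, zero_pow (pow_pos hp.out.pos a).ne']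
  have hwp : v.Ge (-((lam + ε) * p ^ a)) (w ^ p ^ a - ∑ i ∈ P.support, u i) := by
    rw [← hsum, ← sub_pow_char_pow]
    refine (TWM.ge_pow hP.ge (p ^ a)).mono ?_
    push_cast
    apply le_of_eq
    ring
  obtain ⟨c₀, hc₀⟩ : ∃ c₀ : ℝ, c₀ = -(lam * p ^ a) - G := ⟨_, rfl⟩
  have hwp' : Gt v c₀ (w ^ p ^ a - ∑ i ∈ P.support, u i) := by
    refine Gt.of_ge hwp ?_
    rw [hc₀]
    linarith
  have hcstC : ∀ i, P.coeff i ^ p ^ a ∈ C := fun i => pow_mem (hWC (hP.mem i)) _
  -- the terms of the level `m`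
  obtain ⟨s₁, hs₁⟩ : ∃ s₁ : Finset ℕ, s₁ = P.support.filter
      (fun i : ℕ => ∃ b', i = b' * p ^ (N - m) ∧ ¬ p ∣ b') := ⟨_, rfl⟩
  have hs₁m : ∀ i, i ∈ s₁ ↔ P.coeff i ≠ 0 ∧ ∃ b', i = b' * p ^ (N - m) ∧ ¬ p ∣ b' := by
    intro i
    rw [hs₁, Finset.mem_filter, mem_support_iff]
  have hpe : 0 < p ^ (N - m) := pow_pos hp.out.pos _
  have hNe : N + a - (a + m) = N - m := by omega
  -- the letter
  obtain ⟨b₀, hb₀, hcb, ht'⟩ := Lt.coeff hB ht hP (by omega) hε2
  rw [hNe] at hcb ht'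
  have hi₀ : b₀ * p ^ (N - m) ∈ s₁ := (hs₁m _).2 ⟨hcb, b₀, rfl, hb₀⟩
  -- the dominating term
  obtain ⟨i₁, hi₁, hmin⟩ := Finset.exists_min_image s₁ (fun i => v (u i)) ⟨_, hi₀⟩
  have hstrict : ∀ i ∈ s₁, i ≠ i₁ → v (u i₁) < v (u i) := by
    intro i hi hne
    refine lt_of_le_of_ne (hmin i hi) fun h1 => hne ?_
    have h2 := ((hs₁m i).1 hi).1
    have h3 := ((hs₁m i₁).1 hi₁).1
    rw [(hu0 i h2).2, (hu0 i₁ h3).2] at h1
    have h4 := mul_left_cancel₀ hpa.ne' h1
    exact hB.vg_inj ((le_natDegree_of_ne_zero h2).trans_lt hP.deg)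
      ((le_natDegree_of_ne_zero h3).trans_lt hP.deg) (hP.mem i) (hP.mem i₁) h2 h3 h4.symm
  obtain ⟨hc₁, b, hib, hpb⟩ := (hs₁m i₁).1 hi₁
  -- the polynomial
  obtain ⟨R, hR⟩ : ∃ R : Polynomial Ω, R = ∑ i ∈ s₁,
      monomial (i / p ^ (N - m)) (P.coeff i ^ p ^ a) := ⟨_, rfl⟩
  have hxmN : x N ^ p ^ (N - m) = x m := by
    have h1 := root_pow_add hr m (N - m)
    rwa [Nat.add_sub_cancel' hmN] at h1
  have hRx : R.eval (x m) = ∑ i ∈ s₁, u i := by
    rw [hR, eval_finsetSum]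
    refine Finset.sum_congr rfl fun i hi => ?_
    obtain ⟨-, b', rfl, -⟩ := (hs₁m i).1 hi
    rw [Nat.mul_div_cancel _ hpe, eval_monomial, hu, mul_comm b', pow_mul, hxmN]
  have hRcoeff : ∀ j, R.coeff j ≠ 0 → j * p ^ (N - m) ∈ s₁ ∧
      R.coeff j = P.coeff (j * p ^ (N - m)) ^ p ^ a := by
    intro j hj
    have hval : R.coeff j = if j * p ^ (N - m) ∈ s₁ then P.coeff (j * p ^ (N - m)) ^ p ^ a
        else 0 := by
      rw [hR, finsetSum_coeff]
      split_ifs with h1
      · rw [Finset.sum_eq_single (j * p ^ (N - m))]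
        · rw [Nat.mul_div_cancel _ hpe, coeff_monomial, if_pos rfl]
        · intro i hi hne
          obtain ⟨-, b', rfl, -⟩ := (hs₁m i).1 hi
          rw [Nat.mul_div_cancel _ hpe, coeff_monomial, if_neg]
          rintro rfl
          exact hne rfl
        · intro h2
          exact absurd h1 h2
      · refine Finset.sum_eq_zero fun i hi => ?_
        obtain ⟨-, b', rfl, -⟩ := (hs₁m i).1 hi
        rw [Nat.mul_div_cancel _ hpe, coeff_monomial, if_neg]
        rintro rfl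
        exact h1 hi
    rw [hval] at hj ⊢
    by_cases h1 : j * p ^ (N - m) ∈ s₁
    · rw [if_pos h1]
      exact ⟨h1, rfl⟩
    · rw [if_neg h1] at hj
      exact absurd rfl hj
  have hRbv : R.coeff b = P.coeff i₁ ^ p ^ a := by
    rw [hR, finsetSum_coeff, Finset.sum_eq_single i₁]
    · rw [hib, Nat.mul_div_cancel _ hpe, coeff_monomial, if_pos rfl]
    · intro i hi hne
      obtain ⟨-, b', rfl, -⟩ := (hs₁m i).1 hi
      rw [Nat.mul_div_cancel _ hpe, coeff_monomial, if_neg]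
      rintro rfl
      exact hne hib.symm
    · intro h1
      exact absurd hi₁ h1
  have hRC : ∀ j, R.coeff j ∈ C := by
    intro j
    by_cases h1 : R.coeff j = 0
    · rw [h1]
      exact zero_mem _
    · rw [(hRcoeff j h1).2]
      exact hcstC _
  have hRb : R.coeff b ≠ 0 := by
    rw [hRbv]
    exact pow_ne_zero _ hc₁
  -- the values of the terms of `R`
  have hxm : x m ≠ 0 := hB.ne_x m
  have hvx := hB.val_x m
  have hterm : ∀ j, j * p ^ (N - m) ∈ s₁ →
      v (P.coeff (j * p ^ (N - m)) ^ p ^ a) + j * -(S / p ^ m) = v (u (j * p ^ (N - m))) := by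
    intro j hj
    have h1 := ((hs₁m _).1 hj).1
    have h2 : u (j * p ^ (N - m)) = P.coeff (j * p ^ (N - m)) ^ p ^ a * x m ^ j := by
      rw [hu, mul_comm j, pow_mul, hxmN]
    rw [h2, v.map_mul (pow_ne_zero _ h1) (pow_ne_zero _ hxm), v.map_pow hxm, hvx]
  obtain ⟨T, hTdef⟩ : ∃ T, T = v (u i₁) := ⟨_, rfl⟩
  have hT : v (R.coeff b) + b * -(S / p ^ m) = T := by
    rw [hRbv, hTdef]
    have h1 := hterm b (by rw [← hib]; exact hi₁)
    rwa [← hib] at h1
  have hRj : ∀ j, j ≠ b → R.coeff j ≠ 0 → T < v (R.coeff j) + j * -(S / p ^ m) := by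
    intro j hj h1
    obtain ⟨h2, h3⟩ := hRcoeff j h1
    rw [h3, hterm j h2, hTdef]
    refine hstrict _ h2 fun h4 => hj ?_
    rw [hib] at h4
    exact Nat.eq_of_mul_eq_mul_right hpe h4
  -- the value of the dominating term
  have hTle : T ≤ -(lam * p ^ a) - t / p ^ m := by
    rw [hTdef]
    refine (hmin _ hi₀).trans (le_of_eq ?_)
    rw [(hu0 _ hcb).2]
    have h1 : ((b₀ * p ^ (N - m) : ℕ) : ℝ) * v (x (N + a)) = b₀ * v (x (a + m)) := by
      have h2 := hB.mul_val (J := a + m) (n := N + a) (b := b₀) (by omega)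
      rwa [hNe] at h2
    rw [h1, ht', pow_add]
    field_simp
    ring
  -- the other terms
  have hoth : ∀ i ∈ P.support \ s₁, ∃ q ∈ C, Gt v c₀ (u i - q) := by
    intro i hi
    rw [Finset.mem_sdiff, mem_support_iff] at hi
    obtain ⟨hi1, hi2⟩ := hi
    rcases Nat.eq_zero_or_pos i with hi0 | hi0
    · refine ⟨u i, ?_, by rw [sub_self]; exact Gt.zero⟩
      rw [hu, hi0, pow_zero, mul_one]
      exact hcstC 0
    obtain ⟨e, b', hb', hie⟩ := Nat.exists_eq_pow_mul_and_not_dvd hi0.ne' p hp.out.ne_one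
    rcases le_or_gt N e with hNe' | hNe'
    · refine ⟨u i, ?_, by rw [sub_self]; exact Gt.zero⟩
      rw [hu]
      refine mul_mem (hcstC i) ?_
      obtain ⟨e', rfl⟩ : ∃ e', e = N + e' := ⟨e - N, by omega⟩
      have h1 := root_pow_add hr 0 N
      rw [zero_add] at h1
      rw [hie, pow_add, mul_assoc, pow_mul, h1]
      exact pow_mem (hWC hB.mem) _
    · obtain ⟨l, rfl⟩ : ∃ l, N = l + e := ⟨N - e, by omega⟩
      have hl1 : 1 ≤ l := by omega
      have hlm : l ≠ m := by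
        rintro rfl
        refine hi2 ((hs₁m i).2 ⟨hi1, b', ?_, hb'⟩)
        rw [hie, Nat.add_sub_cancel_left, mul_comm]
      have hpl := ps_pos p l
      have he : l + e + a - (a + l) = e := by omega
      have h2 : b' * p ^ (l + e + a - (a + l)) = i := by rw [he, hie, mul_comm]
      obtain ⟨t', htd⟩ : ∃ t' : ℝ, t' = (p : ℝ) ^ (a + l) *
          (-(v (P.coeff i) + b' * v (x (a + l))) - lam) := ⟨_, rfl⟩
      have hPr : t' ∈ Lt p v W x w lam (a + l) := by
        have h3 := Lt.of_apr hB hε hP (J := a + l) (b := b') (by omega) (by omega) hb'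
          (by rw [h2]; exact hi1) (by rw [h2]; exact hPc i hi1)
        rw [h2] at h3
        rwa [htd]
      have h3 := hno l t' hPr hl1 hlm
      have hΔl := hΔ l hl1
      obtain ⟨ε', hε', hε'1, hε'2⟩ : ∃ ε' : ℝ, 0 < ε' ∧ ε' < Δ l / p ^ l ∧
          ε' < G - (t' - Δ l) / p ^ l := by
        have h6 : 0 < min (Δ l / (p : ℝ) ^ l) (G - (t' - Δ l) / p ^ l) :=
          lt_min (div_pos hΔl hpl) (by linarith)
        have h5 := min_le_left (Δ l / (p : ℝ) ^ l) (G - (t' - Δ l) / p ^ l)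
        have h7 := min_le_right (Δ l / (p : ℝ) ^ l) (G - (t' - Δ l) / p ^ l)
        exact ⟨min (Δ l / p ^ l) (G - (t' - Δ l) / p ^ l) / 2, half_pos h6, by linarith,
          by linarith⟩
      obtain ⟨g, hg, h4⟩ := (hD l hl1).near ε' hε'
      have hvl := hB.val_x l
      have hge1 : v.Ge (-(S / p ^ l)) (x l) := fun _ => hvl.ge
      have hτ : -(S / (p : ℝ) ^ l) ≤ (Δ l - S) / p ^ l - ε' := by
        rw [sub_div]
        linarith
      have hge2 : v.Ge (-(S / p ^ l)) g := by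
        have h5 := RVal.Ge.sub hge1 (h4.mono hτ)
        rwa [sub_sub_cancel] at h5
      have hb1 : 1 ≤ b' := by
        rcases Nat.eq_zero_or_pos b' with h5 | h5
        · exact absurd (h5 ▸ dvd_zero p) hb'
        · exact h5
      refine ⟨P.coeff i ^ p ^ a * g ^ b', mul_mem (hcstC i) (pow_mem hg _), ?_⟩
      have h5 : u i - P.coeff i ^ p ^ a * g ^ b' = P.coeff i ^ p ^ a * (x l ^ b' - g ^ b') := by
        rw [hu, mul_sub]
        congr 2
        rw [hie, pow_mul, root_pow_add hr l e]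
      rw [h5]
      have h6 : v.Ge (p ^ a * v (P.coeff i)) (P.coeff i ^ p ^ a) := by
        have h7 := TWM.ge_pow (RVal.ge_self (v := v) (P.coeff i)) (p ^ a)
        refine h7.mono (le_of_eq ?_)
        push_cast
        ring
      refine Gt.of_ge (h6.mul (TWC.Irr.ge_pow_sub hge1 hge2 h4 hb1)) ?_
      have h7 : (t' - Δ l) / p ^ l =
          p ^ a * (-(v (P.coeff i)) - lam) + b' * (S / p ^ l) - Δ l / p ^ l := by
        rw [htd, hB.val_x (a + l), pow_add]
        field_simp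
        ring
      rw [h7] at hε'2
      rw [hc₀, sub_div]
      linarith
  obtain ⟨q, hq, hq'⟩ := TWC.Irr.exists_gt_sum _ _ hoth
  -- one Newton step
  have hQC : w ^ p ^ a - q ∈ C := sub_mem (pow_mem hw _) hq
  have hQ : Gt v c₀ (w ^ p ^ a - q - R.eval (x m)) := by
    have h1 := Gt.add hwp' hq'
    have h2 : ∑ i ∈ P.support, u i = (∑ i ∈ P.support \ s₁, u i) + ∑ i ∈ s₁, u i := by
      rw [Finset.sum_sdiff]
      rw [hs₁]
      exact Finset.filter_subset _ _
    rw [h2] at h1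
    rw [hRx]
    convert h1 using 1
    ring
  obtain ⟨c, hc, hQc⟩ : ∃ c : ℝ, c₀ < c ∧ v.Ge c (w ^ p ^ a - q - R.eval (x m)) := by
    by_cases h1 : w ^ p ^ a - q - R.eval (x m) = 0
    · exact ⟨c₀ + 1, by linarith, fun h2 => absurd h1 h2⟩
    · exact ⟨_, hQ h1, fun _ => le_rfl⟩
  have hΔm := hΔ m hm
  obtain ⟨g, hg, h4⟩ := (hD m hm).near (Δ m / (4 * p ^ m)) (by positivity)
  have hd : Δ m / (p : ℝ) ^ m = 4 * (Δ m / (4 * p ^ m)) := by field_simp
  have hd0 : 0 < Δ m / (4 * (p : ℝ) ^ m) := by positivity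
  have hg1 : g ≠ 0 ∧ v g = v (x m) := by
    refine Gt.val_eq hxm (Gt.of_ge h4 ?_)
    rw [hvx, sub_div, hd]
    linarith
  have hpbk : (b : k) ≠ 0 := by rwa [Ne, CharP.cast_eq_zero_iff k p]
  have hb00 : (b : Ω) ≠ 0 := by rwa [Ne, CharP.cast_eq_zero_iff Ω p]
  have hvb : v (b : Ω) = 0 := by
    have h1 := hk.triv _ hpbk
    rwa [map_natCast] at h1
  have h5 := newtonW hvb hb00 hB.nat hg1.1 (hg1.2.trans hvx) hRb hT hRj
    (τ := (Δ m - S) / p ^ m - Δ m / (4 * p ^ m)) (by rw [sub_div, hd]; linarith) h4 hQc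
  have hRg : ∀ f : Polynomial Ω, (∀ j, f.coeff j ∈ C) → f.eval g ∈ C := fun f hf =>
    TWM.eval_mem hf hg
  have h6 := (hD m hm).le_of_ge (add_mem hg (div_mem (sub_mem hQC (hRg R hRC))
    (hRg (derivative R) fun j => by
      rw [coeff_derivative]
      exact mul_mem (hRC _) (add_mem (natCast_mem C j) (one_mem C))))) h5
  rcases min_le_iff.1 h6 with h7 | h7
  · rw [sub_div, hd] at h7
    linarith
  · rw [hc₀, hG, sub_div] at hc
    rw [sub_div] at h7
    linarith

/-- The letters of `w` are a set of data. -/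
theorem dat (hk : Ctx0 k v) (hB : TB p v W x S) (hl : Lim v (EW v W x) (-lam) w)
    {C : IntermediateField k Ω} (hWC : W ≤ C) (hw : w ∈ C) {Δ : ℕ → ℝ}
    (hΔ : ∀ m, 1 ≤ m → 0 < Δ m) (hD : ∀ m, 1 ≤ m → Dst v C (x m) ((Δ m - S) / p ^ m)) :
    DatW p (Lt p v W x w lam) Δ where
  one_lt := hp.out.one_lt
  lvl _ _ h := h.1
  nonneg l hl := (hΔ l hl).le
  fin _ hε := Lt.fin hB hl hε
  tie _ _ _ ht hm hlt := tieW hk hB hl hWC hw hΔ hD hm ht hlt

omit [CharP k p] [CharP Ω p] in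
/-- **No deviation occurs at two levels.** -/
theorem Lt.level (hB : TB p v W x S) {G : AddSubgroup ℝ} (hG : VG v W ≤ G)
    (hxG : ∀ n, v (x n) ∈ G) (hirr : ∀ n : ℕ, n ≠ 0 → (n : ℝ) * lam ∉ G) {J J' : ℕ} {t : ℝ}
    (h : t ∈ Lt p v W x w lam J) (h' : t ∈ Lt p v W x w lam J') : J = J' := by
  wlog hJ : J ≤ J' generalizing J J'
  · exact (this h' h (by omega)).symm
  by_contra hne
  -- `t = p ^ J (a - lam)`, `a ∈ G`
  have key : ∀ {J : ℕ}, t ∈ Lt p v W x w lam J → t + p ^ J * lam ∈ G := by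
    rintro J ⟨-, n, P, ε, b, -, -, hP, -, h0, -, rfl⟩
    have h1 : -(v (P.coeff (b * p ^ (n - J))) + b * v (x J)) ∈ G := by
      refine G.neg_mem (G.add_mem (hG (VG.self (hP.mem _) h0)) ?_)
      have h2 := G.nsmul_mem (hxG J) b
      rwa [nsmul_eq_mul] at h2
    have h2 := G.nsmul_mem h1 (p ^ J)
    rw [nsmul_eq_mul] at h2
    push_cast at h2
    convert h2 using 1
    ring
  have h1 := G.sub_mem (key h') (key h)
  have h2 : p ^ J < p ^ J' := Nat.pow_lt_pow_right hp.out.one_lt (lt_of_le_of_ne hJ hne)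
  refine hirr (p ^ J' - p ^ J) (by omega) ?_
  rw [Nat.cast_sub h2.le]
  push_cast
  convert h1 using 1
  ring

end Tie

end Pool.Agent.TWF.Irr
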