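import Pool.Agent.Lib.TWF.InfCov
import Pool.Agent.Lib.TWCT.J1S
import Pool.Agent.Lib.TWCT.J2b
import Pool.Agent.Lib.TWCT.RecC

/-!
# TANK W, dimension 4, the contact leaf

`RowsA`, `RowsB`: the two rows left, for all data. `leafD_altC`: the leaf of `AltC`, from these rows.
-/

set_option autoImplicit false

open Polynomial

namespace Pool.Agent.TWF

open Pool.Agent.H15JM (RVal)
open Pool.Agent.LU1 (adj)
open Pool.Agent.D2 (Ctx0)
open Pool.Agent.D2P (clI mem_adj_self)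
open Pool.Agent.TW
open Pool.Agent.TWM (TL CompleteV Cld cadj le_cadj cld_clI)
open Pool.Agent.TWS (TowR IsoE HF hv VG)
open Pool.Agent.TWC (Tgt)
open Pool.Agent.TWCT (CS CTD RowA RowB)
open Pool.Agent.TWJ2 (Bad)
open Pool.Agent.TWS7 (PDiv)

universe u

/-- Row (j = 1, A), for all data. -/
def RowsA (p : ℕ) (k : Type u) [Field k] [IsAlgClosed k] : Prop :=
  ∀ (Ω : Type u) [Field Ω] [Algebra k Ω] [IsAlgClosed Ω] [CharP Ω p] (v : RVal Ω)
    (φ : Ω →ₐ[k] HF k) (x : Ω) (W₀ K₀ : IntermediateField k Ω) (al : Ω),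
    RowA p v (hv k) φ x W₀ K₀ al

/-- Row (j = 1, B), for all data. -/
def RowsB (p : ℕ) (k : Type u) [Field k] [IsAlgClosed k] : Prop :=
  ∀ (Ω : Type u) [Field Ω] [Algebra k Ω] [IsAlgClosed Ω] [CharP Ω p] (v : RVal Ω)
    (φ : Ω →ₐ[k] HF k) (x : Ω) (W₀ K₀ : IntermediateField k Ω) (al : Ω),
    RowB p v (hv k) φ x W₀ K₀ al

/-- The algebraic part of `W` has transcendence degree one. -/
theorem trdeg_algIn {k Ω : Type u} [Field k] [IsAlgClosed k] [Field Ω] [Algebra k Ω] {v : RVal Ω}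
    {W : IntermediateField k Ω} {t : Ω} (h0 : Ctx0 k v) (ht : t ∈ W) (ht0 : t ≠ 0)
    (hvt : v t ≠ 0) [IsAlgClosed Ω] : Algebra.trdeg k (algIn W (adj ⊥ t)) = (1 : ℕ) := by
  rw [← TWC.trdeg_adj_bot h0 ht0 hvt]
  refine TW.trdeg_eq_of_alg ?_ ?_
  · intro a ha
    refine mem_algIn.2 ⟨?_, isAlgebraic_algebraMap (⟨a, ha⟩ : adj (⊥ : IntermediateField k Ω) t)⟩
    exact D2P.adj_le bot_le ht ha
  · intro a ha
    exact (mem_algIn.1 ha).2

theorem leafD_altC {p : ℕ} [hp : Fact p.Prime] {k : Type u} [Field k] [IsAlgClosed k]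
    [CharP k p] (hA : RowsA p k) (hB : RowsB p k) :
    LeafD p k (OnB p fun _ _ _ v C => AltC p v C) := by
  refine leafD_of_hrone fun Ω _ _ _ _ v K₀ al hb hdiv hq => ?_
  obtain ⟨-, C₁, C, hC, ⟨W, t, y, s, hH, hno⟩, hT⟩ := hq
  obtain ⟨φ, hφ⟩ := TWS.exists_emb (k := k) hb.ctx.toCtx0
  have hI : IsoE v (hv k) φ := ⟨hφ⟩
  have : CharP (HF k) p := charP_of_injective_algebraMap (algebraMap k (HF k)).injective p
  have hWC : W ≤ C := by
    rw [hH.eq]
    exact le_cadj v W y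
  have hdW : PDiv p v W := by
    have h1 : VG v C = VG v W := by
      have h2 := VG.imm hH.tl.imm
      rwa [← hH.eq] at h2
    rw [pdiv_iff_vg, vg_tower hT, h1, ← pdiv_iff_vg] at hdiv
    exact hdiv
  have hcs : CS p v (hv k) φ t W W :=
    TWTam.cs_of_fg hb.ctx.toCtx0 hb.cpl hI (TWS.ctx0_hv k) (TWS.sphC_hv k) (TWS.exists_val k)
      (TWS.completeV_hv k) hH.cld hH.t0 hH.vt hH.pb hH.alg hC.fg (hWC.trans hC.eq.le) hdW hno
  have hW : clI v (algIn W (adj ⊥ t)) = W := hH.alg.symm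
  have hD : CTD p v (hv k) φ t (algIn W (adj ⊥ t)) K₀ al :=
    { ctx := hb.ctx
      cpl := hb.cpl
      fg := hb.fg
      full := hb.full
      tr := by exact_mod_cast hb.tr
      bd := hb.bd
      hr := hb.hr
      mem := hb.mem
      bda := hb.bda
      iso := hI
      c0 := TWS.ctx0_hv k
      cw := TWS.completeV_hv k
      sph := TWS.sphC_hv k
      val := TWS.exists_val k
      trW := trdeg_algIn hb.ctx.toCtx0 hH.mem hH.t0 hH.vt
      xW := by
        rw [hW]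
        exact hH.mem
      x0 := hH.t0
      xv := hH.vt
      cs := by
        rw [hW]
        exact hcs
      tow := by
        rw [hW]
        refine TowR.succ hH.tl ?_
        rw [← hH.eq]
        exact hT }
  exact hD.hrone hD.rowJ2 (hD.rowJ1_of (by rwa [hW]) (hA Ω v φ t _ K₀ al) (hB Ω v φ t _ K₀ al))

end Pool.Agent.TWF
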