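import Pool.Agent.Lib.TWF.LeafD
import Pool.Agent.Lib.TWRS.Asm2

/-!
# TANK W, dimension 4: the strict leaves of any radius

* `leafD_stR`: strict first floor over any base, any radius;
* `FInf.srow`: the strict tower over `W`, any radius;
* `leafD_fstR`: infinite first floor, strict jets, any radius.
-/

set_option autoImplicit false

open Polynomial

namespace Pool.Agent.TWF

open Pool.Agent.H15JM (RVal)
open Pool.Agent.LU1 (VPos adj)
open Pool.Agent.D2 (Ctx0)
open Pool.Agent.D2P (hen clI mem_clI mem_adj_self)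
open Pool.Agent.TW (Full BD PBasis Ctx HRone Mot CProp)
open Pool.Agent.TWM
open Pool.Agent.TWS (VG TowR SphC)
open Pool.Agent.TWC (CP EW RatR)
open Pool.Agent.TWS7 (STow FGc PDiv MotE Unhit Irr)
open Pool.Agent.TWEX (SRow WinIn srow_dich)

universe u

/-- The jets of the first floor over a closed field are strict, any radius. -/
def StR (p : ℕ) (k : Type u) [Field k] : CProp k := fun Ω _ _ v M =>
  ∃ (N : IntermediateField k Ω) (x y : Ω) (σ : ℝ) (D : ℕ → Ω → Ω) (u : Ω) (ρ : ℝ) (z : Ω)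
    (s : ℝ), x ≠ 0 ∧ v x ≠ 0 ∧ x ∈ N ∧
    cadj v N y ≤ clI v (IntermediateField.adjoin k {x, y}) ∧ SRow p v N y σ D u ρ z s M

section

variable {k Ω : Type u} [Field k] [Field Ω] [Algebra k Ω] {v : RVal Ω}
  {C M : IntermediateField k Ω} {x y : Ω} {s c₀ : ℝ}

/-- **The strict tower over `W`**, any radius. -/
theorem FInf.srow {p : ℕ} [hp : Fact p.Prime] [CharP Ω p] [IsAlgClosed k] [IsAlgClosed Ω]
    (h : Ctx k v 1) (hc : CompleteV v) (hF : FInf p v C x y s c₀) (hS : StrW v (WX v C x) y s)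
    (hT : TowR v 2 C M) :
    ∃ D u ρ w t, SRow p v (WX v C x) y s D u ρ w t M := by
  obtain ⟨D, hD⟩ := hF.sfl hc hS
  have hg := hF.gens h
  rw [hF.toFF.eq_W] at hg hT
  cases hT with
  | @succ n A B u ρ hu ht =>
    cases ht with
    | @succ n A B w t hw ht =>
      cases ht with
      | zero _ =>
        exact ⟨D, u, ρ, w, t,
          { cN := cld_WX v C x
            val := ⟨x, hF.toFF.xW, hF.x0, hF.vx⟩
            sfl := hD
            fg := hg
            tu := hu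
            tw := hw
            eq := rfl }⟩

end

section

variable {p : ℕ} [hp : Fact p.Prime] {k : Type u} [Field k] [IsAlgClosed k] [CharP k p]

/-- **Strict first floor over any base, any radius.** -/
theorem leafD_stR : LeafD p k (StR p k) := by
  intro Ω Ω' _ _ _ _ _ _ _ _ v w ι K₀ g hcr hq ν h1 h2
  obtain ⟨N, x, y, σ, D, u, ρ, z, s, hx0, hxv, hx, hC, hS⟩ := hq
  by_cases hirr : Irr w (clI w (K₀.map ι)) σ
  · exact TWEX.unhit_or_motE_wi p hcr.ctx hcr.cpl hcr.dns hcr.fg hcr.alg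
      (by exact_mod_cast hcr.tr) hcr.bd hx0 hxv hx hC
      ⟨hS.cN, hS.val, hS.sfl, hS.fg, hirr, hS.tu, hS.tw, hS.eq⟩ hcr.gp h1
  have ham : ι (g ^ p) ∈ clI w (K₀.map ι) :=
    TWM.le_clI _ (TWM.Dense.apply_mem_map.2 hcr.gp)
  rcases srow_dich hcr.cpl hS ham h1 with h3 | ⟨u', z', ρ', s', hS', hu, hz⟩
  · exact Or.inl h3
  · exact Or.inr (TWRS.motE_of_winIn p hcr.ctx hcr.cpl hcr.dns hcr.fg hcr.alg
      (by exact_mod_cast hcr.tr) hcr.bd hirr
      ⟨hx0, hxv, hx, hC, hS', hu, hz, ham, h1, h2, hcr.div'⟩ hcr.gp)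

/-- The closure of `k(x, y)`, infinite first floor, strict jets. -/
def FStR (p : ℕ) [Fact p.Prime] (k : Type u) [Field k] : CProp k := fun Ω _ _ v M =>
  ∃ (_ : CharP Ω p) (C₁ C : IntermediateField k Ω) (x y : Ω) (s c₀ : ℝ), Bs p v C₁ C ∧
    FInf p v C x y s c₀ ∧ StrW v (WX v C x) y s ∧ TowR v 2 C M

/-- **Infinite first floor, strict jets, any radius.** -/
theorem leafD_fstR : LeafD p k (FStR p k) := by
  refine (leafD_stR (p := p) (k := k)).cover fun Ω _ _ _ _ v K₀ al hb _ _ hq => ?_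
  obtain ⟨_, C₁, C, x, y, s, c₀, hB, hF, hS, hT⟩ := hq
  obtain ⟨D, u, ρ, z, t, h1⟩ := hF.srow hb.ctx hb.cpl hS hT
  exact ⟨WX v C x, x, y, s, D, u, ρ, z, t, hF.x0, hF.vx, hF.toFF.xW, hF.toFF.le_cl, h1⟩

end

end Pool.Agent.TWF
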