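import Pool.Agent.Lib.TWF.InfCov
import Pool.Agent.Lib.TWF.LeafR

/-!
# TANK W, the infinite first floor: the leaf of the strict jets, commensurable radius

* `leafD_altR`: the leaf `AltR` of the cover, from the strict leaf of any radius.
-/

set_option autoImplicit false

namespace Pool.Agent.TWF

open Pool.Agent.TWS7 (FGc)

universe u

variable {p : ℕ} [hp : Fact p.Prime] {k : Type u} [Field k] [IsAlgClosed k] [CharP k p]

/-- **The leaf (R)**: strict jets, commensurable radius. -/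
theorem leafD_altR : LeafD p k (OnB p fun _ _ _ v C => AltR p v C) := by
  refine (leafD_stR (p := p) (k := k)).cover fun Ω _ _ _ _ v K₀ al hb _ _ hq => ?_
  obtain ⟨-, C₁, C, hB, ⟨W, x, y, s, hF, hS, -⟩, hT⟩ := hq
  obtain ⟨D, u, ρ, z, t, h5⟩ := hF.srow hb.cpl ⟨C₁, hB.fg, hB.full, hB.tr, hB.eq⟩ hS hT
  exact ⟨W, x, y, s, D, u, ρ, z, t, hF.x0, hF.vx, hF.mem, by rw [← hF.eq]; exact hF.le, h5⟩

end Pool.Agent.TWF
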