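import Pool.Agent.Lib.TWF.RtsT
import Pool.Agent.Lib.TWTR.Wt
import Pool.Agent.Lib.TWC.DescF

/-!
# TANK W, row T8: the level of a tight element `T` in the closure of `k(T) ^ alg`

`C` closed, `W ≤ C`, relatively algebraically closed, `t 0 ∈ W`, `t 1` at distance
`≤ (v (t 0) + ν) / p` of `W` (in the sense of the values); `T 0` tight in `C`, of level `ρ`,
`v (t m - T 0) ≥ ρ + μ`, `ν / p ^ m < μ`. Then `T 1` is at distance `≤ (v (T 0) + ν / p ^ m) / p` of
the elements `c` of `C` which are algebraic over `k(T 0)`: such an element is moved to an element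
`c'` of the algebraic closure of `k(t m)`, `v (c' - c) ≥ v c + μ`, `c' ^ (p ^ m) ∈ C`.

* `Rel`: algebraic relations over `k`; `rel_of_alg`, `alg_of_rel`;
* `exists_move`: the element `c'`;
* `lev_alg`, **`lev_WX`**: the level.
-/

set_option autoImplicit false
set_option linter.unusedSectionVars false

open Polynomial

namespace Pool.Agent.TWF

open Pool.Agent.H15JM (RVal)
open Pool.Agent.LU1 (VPos adj)
open Pool.Agent.D2 (Ctx0)
open Pool.Agent.D2P (hen clI mem_clI mem_adj_self)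
open Pool.Agent.TWM
open Pool.Agent.TWS (VG)
open Pool.Agent.TWC
open Pool.Agent.TWTR (Wt)

universe u

variable {k Ω : Type u} [Field k] [Field Ω] [Algebra k Ω] {v : RVal Ω}
  {C W : IntermediateField k Ω}

/-! ### Algebraic relations -/

open scoped IntermediateField.algebraAdjoinAdjoin

/-- `∑ a i j u ^ i y ^ j`. -/
noncomputable def Rel (a : ℕ → ℕ → k) (d N : ℕ) (u y : Ω) : Ω :=
  ∑ j ∈ Finset.range N, (∑ i ∈ Finset.range d, algebraMap k Ω (a i j) * u ^ i) * y ^ j

theorem rel_of_alg {u y : Ω} (h : IsAlgebraic (adj (⊥ : IntermediateField k Ω) u) y) :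
    ∃ (a : ℕ → ℕ → k) (d N : ℕ), (∃ i < d, ∃ j < N, a i j ≠ 0) ∧ Rel a d N u y = 0 := by
  have e : adj (⊥ : IntermediateField k Ω) u = IntermediateField.adjoin k {u} := by
    rw [adj, bot_sup_eq]
  rw [e] at h
  have h1 : IsAlgebraic (Algebra.adjoin k {u}) y :=
    (IsFractionRing.isAlgebraic_iff (Algebra.adjoin k {u}) (IntermediateField.adjoin k {u})
      Ω).2 h
  obtain ⟨P, hP0, hP⟩ := h1
  have h2 : ∀ j, ∃ r : Polynomial k, aeval u r = (P.coeff j : Ω) := by
    intro j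
    have h3 : (P.coeff j : Ω) ∈ Algebra.adjoin k {u} := (P.coeff j).2
    exact (Algebra.adjoin_singleton_eq_range_aeval k u).le h3
  choose r hr using h2
  obtain ⟨j₀, hj₀⟩ : ∃ j, P.coeff j ≠ 0 := by
    by_contra hno
    push Not at hno
    exact hP0 (Polynomial.ext fun j => by rw [hno j, coeff_zero])
  have hr0 : r j₀ ≠ 0 := by
    intro h3
    apply hj₀
    have h4 := hr j₀
    rw [h3, map_zero] at h4
    exact Subtype.ext h4.symm
  obtain ⟨i₀, hi₀⟩ : ∃ i, (r j₀).coeff i ≠ 0 := by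
    by_contra hno
    push Not at hno
    exact hr0 (Polynomial.ext fun j => by rw [hno j, coeff_zero])
  set N := P.natDegree + 1 with hN
  set d := (Finset.range N).sup (fun j => (r j).natDegree) + 1 with hd
  have hj₀N : j₀ < N := Nat.lt_succ_of_le (le_natDegree_of_ne_zero hj₀)
  have hdj : ∀ j < N, (r j).natDegree < d := fun j hj =>
    Nat.lt_succ_of_le (Finset.le_sup (f := fun j => (r j).natDegree) (Finset.mem_range.2 hj))
  refine ⟨fun i j => (r j).coeff i, d, N, ⟨i₀, (le_natDegree_of_ne_zero hi₀).trans_lt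
    (hdj j₀ hj₀N), j₀, hj₀N, hi₀⟩, ?_⟩
  rw [Rel]
  have h3 : ∀ j ∈ Finset.range N, (∑ i ∈ Finset.range d, algebraMap k Ω ((r j).coeff i) * u ^ i) *
      y ^ j = (P.coeff j : Ω) * y ^ j := by
    intro j hj
    rw [← hr j, aeval_def, eval₂_eq_sum_range' _ (hdj j (Finset.mem_range.1 hj))]
  rw [Finset.sum_congr rfl h3]
  have h4 := hP
  rw [aeval_def, eval₂_eq_sum_range] at h4
  exact h4

theorem alg_of_rel {u y : Ω} (hu : Transcendental k u) {a : ℕ → ℕ → k} {d N : ℕ}
    (ha : ∃ i < d, ∃ j < N, a i j ≠ 0) (h : Rel a d N u y = 0) :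
    IsAlgebraic (adj (⊥ : IntermediateField k Ω) u) y := by
  obtain ⟨i₀, hi₀, j₀, hj₀, h0⟩ := ha
  have hu1 : u ∈ adj (⊥ : IntermediateField k Ω) u := (mem_adj_self _ u).1
  set b : ℕ → Ω := fun j => ∑ i ∈ Finset.range d, algebraMap k Ω (a i j) * u ^ i with hb
  have hbm : ∀ j, b j ∈ adj (⊥ : IntermediateField k Ω) u := fun j => sum_mem fun i _ =>
    mul_mem (IntermediateField.algebraMap_mem _ _) (pow_mem hu1 _)
  have hb0 : b j₀ ≠ 0 := by
    intro h1
    set f : Polynomial k := ∑ i ∈ Finset.range d, Polynomial.C (a i j₀) * X ^ i with hf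
    have h2 : aeval u f = 0 := by
      rw [hf, map_sum, ← h1]
      refine Finset.sum_congr rfl fun i _ => ?_
      rw [map_mul, map_pow, aeval_C, aeval_X]
    have h3 : f = 0 := by
      by_contra h4
      exact hu ⟨f, h4, h2⟩
    have h4 : f.coeff i₀ = a i₀ j₀ := by
      rw [hf, finsetSum_coeff]
      simp only [coeff_C_mul, coeff_X_pow]
      rw [Finset.sum_eq_single i₀]
      · simp
      · intro i _ hi
        rw [if_neg (Ne.symm hi), mul_zero]
      · intro h5
        exact absurd (Finset.mem_range.2 hi₀) h5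
    rw [h3, coeff_zero] at h4
    exact h0 h4.symm
  refine ⟨∑ j ∈ Finset.range N, Polynomial.C (⟨b j, hbm j⟩ : adj (⊥ : IntermediateField k Ω) u) *
    X ^ j, ?_, ?_⟩
  · intro h1
    have h2 : (∑ j ∈ Finset.range N, Polynomial.C (⟨b j, hbm j⟩ :
        adj (⊥ : IntermediateField k Ω) u) * X ^ j).coeff j₀ = ⟨b j₀, hbm j₀⟩ := by
      rw [finsetSum_coeff]
      simp only [coeff_C_mul, coeff_X_pow]
      rw [Finset.sum_eq_single j₀]
      · simp
      · intro i _ hi
        rw [if_neg (Ne.symm hi), mul_zero]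
      · intro h5
        exact absurd (Finset.mem_range.2 hj₀) h5
    rw [h1, coeff_zero] at h2
    exact hb0 (congrArg Subtype.val h2.symm)
  · rw [map_sum, ← h, Rel]
    refine Finset.sum_congr rfl fun j _ => ?_
    rw [map_mul, map_pow, aeval_C, aeval_X]
    rfl

variable {p : ℕ} [hp : Fact p.Prime] [CharP k p] [CharP Ω p] [IsAlgClosed k]

theorem trans_of_val (h0 : Ctx0 k v) {x : Ω} (hx0 : x ≠ 0) (hv : v x ≠ 0) :
    Transcendental k x := by
  have h2 := TWC.transcendental_of_val h0 hx0 hv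
  intro h3
  exact h2 (h3.tower_top _)

omit [CharP k p] [IsAlgClosed k] in
theorem rel_pow (n : ℕ) {a b : ℕ → ℕ → k} (hb : ∀ i j, b i j ^ p ^ n = a i j) (d N : ℕ)
    (u y : Ω) : (Rel b d N u y) ^ p ^ n = Rel a d N (u ^ p ^ n) (y ^ p ^ n) := by
  rw [Rel, Rel, sum_pow_char_pow]
  refine Finset.sum_congr rfl fun j _ => ?_
  rw [mul_pow, sum_pow_char_pow, ← pow_mul, mul_comm j, pow_mul]
  congr 1
  refine Finset.sum_congr rfl fun i _ => ?_
  rw [mul_pow, ← map_pow, hb, ← pow_mul, mul_comm i, pow_mul]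

/-! ### Values on a disc -/

theorem wt_eval {f : Polynomial Ω} {lam b e : ℝ} (hf : Wt v lam b f) (he : 0 ≤ e) {δ : Ω}
    (hδ : v.Ge (lam + e) δ) (K : ℕ) (hK : ∀ F < K, f.coeff F = 0) :
    v.Ge (b + K * e) (f.eval δ) := by
  rw [eval_eq_sum_range]
  refine RVal.Ge.sum _ _ fun F _ => ?_
  rcases lt_or_ge F K with h1 | h1
  · rw [hK F h1, zero_mul]
    exact RVal.Ge.zero
  · refine ((hf F).mul (ge_pow hδ F)).mono ?_
    have h2 : (K : ℝ) * e ≤ F * e := mul_le_mul_of_nonneg_right (by exact_mod_cast h1) he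
    linarith

theorem eval_taylor_sub (z u : Ω) (f : Polynomial Ω) : (taylor z f).eval (u - z) = f.eval u := by
  rw [taylor_eval, sub_add_cancel]

theorem wt_taylor_mul {z : Ω} {f g : Polynomial Ω} {lam b c : ℝ} (hf : Wt v lam b (taylor z f))
    (hg : Wt v lam c (taylor z g)) : Wt v lam (b + c) (taylor z (f * g)) := by
  rw [taylor_mul]
  exact hf.mul hg

theorem wt_taylor_pow {z : Ω} {f : Polynomial Ω} {lam b : ℝ} (hf : Wt v lam b (taylor z f))
    (n : ℕ) : Wt v lam (n * b) (taylor z (f ^ n)) := by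
  induction n with
  | zero =>
    rw [pow_zero, taylor_one, Nat.cast_zero, zero_mul]
    exact Wt.C (by
      intro _
      rw [v.map_one])
  | succ n ih =>
    rw [pow_succ]
    refine (wt_taylor_mul ih hf).mono (le_of_eq ?_)
    push_cast
    ring

theorem wt_taylor_sum {z : Ω} {ι : Type*} (s : Finset ι) {F : ι → Polynomial Ω} {lam b : ℝ}
    (h : ∀ i ∈ s, Wt v lam b (taylor z (F i))) : Wt v lam b (taylor z (∑ i ∈ s, F i)) := by
  rw [map_sum]
  exact Wt.sum s h

theorem wt_taylor_X {z : Ω} {lam b : ℝ} (hz : v.Ge b z) (hb : b ≤ lam) :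
    Wt v lam b (taylor z (X : Polynomial Ω)) := by
  rw [taylor_X]
  exact (Wt.X.mono hb).add (Wt.C hz)

theorem wt_taylor_C {z c : Ω} {lam b : ℝ} (hc : v.Ge b c) :
    Wt v lam b (taylor z (Polynomial.C c)) := by
  rw [taylor_C]
  exact Wt.C hc

section Move

variable {T t : ℕ → Ω} {ρ μ : ℝ} {m : ℕ} {c : Ω}

/-- The jets of order `< p ^ n` of a polynomial over `C` which vanishes at `T n` are zero. -/
theorem jets_zero (hN : NBX p v C T fun n F => F * ρ / p ^ n) {n : ℕ} {H : Polynomial Ω}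
    (hH : H ∈ PI C) (h : H.eval (T n) = 0) : ∀ F < p ^ n, (taylor (T n) H).coeff F = 0 := by
  intro F hF
  refine eq_zero_of_ge_all (v := v) fun b => ?_
  have h1 := hN.nb n H hH F hF (b + F * ρ / p ^ n) (by
    rw [h]
    exact RVal.Ge.zero)
  rwa [add_sub_cancel_right] at h1

theorem wt_of_nbx (hN : NBX p v C T fun n F => F * ρ / p ^ n) {n : ℕ} {Q : Polynomial Ω}
    (hQ : Q ∈ PI C) (hd : Q.natDegree < p ^ n) {b : ℝ} (hb : v.Ge b (Q.eval (T n))) :
    Wt v (ρ / p ^ n) b (taylor (T n) Q) := by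
  intro F
  rcases lt_or_ge F (p ^ n) with h1 | h1
  · refine (hN.nb n Q hQ F h1 b hb).mono (le_of_eq ?_)
    show b - F * (ρ / p ^ n) = b - F * ρ / p ^ n
    ring
  · rw [coeff_eq_zero_of_natDegree_lt (by rw [natDegree_taylor]; omega)]
    exact RVal.Ge.zero

omit [CharP k p] [IsAlgClosed k] hp [CharP Ω p] in
/-- Continuity. -/
theorem eval_cont (G : Polynomial Ω) (y : Ω) : ∃ L : ℝ, 0 ≤ L ∧ ∀ (b : ℝ) (y' : Ω), 0 ≤ b →
    v.Ge b (y' - y) → v.Ge (b - L) (G.eval y' - G.eval y) := by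
  obtain ⟨L, hL0, hL⟩ : ∃ L : ℝ, 0 ≤ L ∧ ∀ F < G.natDegree + 1,
      v.Ge (-L) ((taylor y G).coeff F) := by
    refine ⟨∑ F ∈ Finset.range (G.natDegree + 1), |v ((taylor y G).coeff F)|,
      Finset.sum_nonneg fun _ _ => abs_nonneg _, fun F hF _ => ?_⟩
    have h1 := Finset.single_le_sum (f := fun F => |v ((taylor y G).coeff F)|)
      (fun _ _ => abs_nonneg _) (Finset.mem_range.2 hF)
    have h2 := neg_abs_le (v ((taylor y G).coeff F))
    linarith
  refine ⟨L, hL0, fun b y' hb hy => ?_⟩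
  have h1 := eval_taylor_sub y y' G
  rw [eval_eq_sum_range, natDegree_taylor, Finset.sum_range_succ', pow_zero, mul_one,
    taylor_coeff_zero] at h1
  rw [← h1, add_sub_cancel_right]
  refine RVal.Ge.sum _ _ fun F hF => ?_
  refine ((hL (F + 1) (by have := Finset.mem_range.1 hF; omega)).mul
    (ge_pow hy (F + 1))).mono ?_
  have h3 : b ≤ ((F + 1 : ℕ) : ℝ) * b := by
    push_cast
    nlinarith [Nat.cast_nonneg (α := ℝ) F]
  linarith

/-- **The move.** -/
theorem exists_move [IsAlgClosed Ω] (h0 : Ctx0 k v) (hcv : CompleteV v)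
    (hN : NBX p v C T fun n F => F * ρ / p ^ n) (hCc : Cld v C)
    (hTr : ∀ n, T (n + 1) ^ p = T n) (htr : ∀ n, t (n + 1) ^ p = t n) (ht0 : t 0 ∈ C)
    (hTρ : v (T 0) ≤ ρ) (hμ : 0 < μ) (hnear : v.Ge (ρ + μ) (t m - T 0))
    (hQ : ∀ n, ∃ Q ∈ PI C, Q.natDegree < p ^ n ∧ (Q.eval (T n)) ^ p ^ n = c)
    {a : ℕ → ℕ → k} {d N : ℕ} (hrel : Rel a d N (T 0) c = 0) :
    ∃ c' : Ω, v.Ge (v c + μ) (c' - c) ∧ c' ^ p ^ m ∈ C ∧ Rel a d N (t m) c' = 0 := by
  have hp0 : (0 : ℝ) < p := by exact_mod_cast hp.out.pos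
  have hpn : ∀ n : ℕ, (0 : ℝ) < (p : ℝ) ^ n := fun n => pow_pos hp0 n
  have hpn' : ∀ n : ℕ, 0 < p ^ n := fun n => pow_pos hp.out.pos n
  choose Q hQm hQd hQe using hQ
  set cs : ℕ → Ω := fun n => ((Q n).eval (t (m + n))) ^ p ^ n with hcs
  -- the displacement
  have hδ : ∀ n, v.Ge (ρ / p ^ n + μ / p ^ n) (t (m + n) - T n) := by
    intro n
    refine (ge_pow_iff (v := v) (hpn' n)).1 ?_
    have h1 := root_pow_add htr m n
    have h2 := root_pow_add hTr 0 n
    rw [zero_add] at h2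
    rw [sub_pow_char_pow, h1, h2]
    push_cast
    have e : (p : ℝ) ^ n * (ρ / p ^ n + μ / p ^ n) = ρ + μ := by
      field_simp
    rwa [e]
  have hμn : ∀ n : ℕ, 0 ≤ μ / (p : ℝ) ^ n := fun n => (div_pos hμ (hpn n)).le
  have hgeQ : ∀ n, v.Ge (v c / p ^ n) ((Q n).eval (T n)) := by
    intro n
    refine (ge_pow_iff (v := v) (hpn' n)).1 ?_
    rw [hQe n]
    push_cast
    rw [mul_div_cancel₀ _ (hpn n).ne']
    exact RVal.ge_self c
  have hWt : ∀ n, Wt v (ρ / p ^ n) (v c / p ^ n) (taylor (T n) (Q n)) := fun n =>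
    wt_of_nbx hN (hQm n) (hQd n) (hgeQ n)
  -- near `c`
  have hcn : ∀ n, v.Ge (v c + μ) (cs n - c) := by
    intro n
    have e : cs n - c = ((Q n).eval (t (m + n)) - (Q n).eval (T n)) ^ p ^ n := by
      rw [sub_pow_char_pow, hQe n]
    rw [e]
    have h1 : v.Ge (v c / p ^ n + (1 : ℕ) * (μ / p ^ n))
        ((taylor (T n) (Q n) - Polynomial.C ((Q n).eval (T n))).eval (t (m + n) - T n)) := by
      refine wt_eval (lam := ρ / p ^ n) ?_ (hμn n) (hδ n) 1 ?_
      · intro j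
        rw [coeff_sub, coeff_C]
        split_ifs with hj
        · subst hj
          rw [taylor_coeff_zero, sub_self]
          exact RVal.Ge.zero
        · rw [sub_zero]
          exact hWt n j
      · intro F hF
        have : F = 0 := by omega
        subst this
        rw [coeff_sub, coeff_C_zero, taylor_coeff_zero, sub_self]
    rw [eval_sub, eval_C, eval_taylor_sub] at h1
    have h2 := (ge_pow_iff (v := v) (hpn' n)).2 h1
    refine h2.mono (le_of_eq ?_)
    push_cast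
    have := (hpn n).ne'
    field_simp
  -- the steps
  have hstep : ∀ n, v.Ge (v c + p ^ n * μ) (cs (n + 1) - cs n) := by
    intro n
    set B := (Q (n + 1)).map (frobenius Ω p) with hB
    have hBm : B ∈ PI C := fun i => by
      rw [hB, coeff_map, frobenius_def]
      exact pow_mem (hQm (n + 1) i) p
    have hBe : ∀ z : Ω, B.eval (z ^ p) = ((Q (n + 1)).eval z) ^ p := by
      intro z
      have := eval_map_apply (p := Q (n + 1)) (f := frobenius Ω p) z
      rwa [frobenius_def, frobenius_def] at this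
    have hBT : B.eval (T n) = ((Q (n + 1)).eval (T (n + 1))) ^ p := by
      rw [← hTr n, hBe]
    have hBt : B.eval (t (m + n)) = ((Q (n + 1)).eval (t (m + (n + 1)))) ^ p := by
      rw [← add_assoc, ← hBe, htr (m + n)]
    have hBW : Wt v (ρ / p ^ n) (v c / p ^ n) (taylor (T n) B) := by
      have h1 : taylor (T n) B = (taylor (T (n + 1)) (Q (n + 1))).map (frobenius Ω p) := by
        rw [map_taylor, frobenius_def, hTr n]
      rw [h1]
      intro j
      rw [coeff_map, frobenius_def]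
      refine (ge_pow (hWt (n + 1) j) p).mono (le_of_eq ?_)
      rw [pow_succ]
      have := (hpn n).ne'
      field_simp
    have hD0 : (B - Q n).eval (T n) = 0 := by
      have h1 : ((B - Q n).eval (T n)) ^ p ^ n = 0 := by
        rw [eval_sub, sub_pow_char_pow, hQe n, hBT, ← pow_mul, ← pow_succ', hQe (n + 1), sub_self]
      exact (pow_eq_zero_iff (hpn' n).ne').1 h1
    have hDW : Wt v (ρ / p ^ n) (v c / p ^ n) (taylor (T n) (B - Q n)) := by
      rw [map_sub]
      intro j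
      rw [coeff_sub]
      exact (hBW j).sub (hWt n j)
    have h1 := wt_eval hDW (hμn n) (hδ n) (p ^ n)
      (jets_zero hN (sub_mem hBm (hQm n)) hD0)
    rw [eval_taylor_sub] at h1
    have e : cs (n + 1) - cs n = ((B - Q n).eval (t (m + n))) ^ p ^ n := by
      rw [eval_sub, sub_pow_char_pow, hBt, ← pow_mul, ← pow_succ']
    rw [e]
    refine ((ge_pow_iff (v := v) (hpn' n)).2 h1).mono (le_of_eq ?_)
    push_cast
    have := (hpn n).ne'
    field_simp
  -- the relation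
  set e0 := min 0 (v (T 0)) with he0
  set c0 := min 0 (v c) with hc0'
  have he0' : e0 ≤ 0 := min_le_left _ _
  have hc0'' : c0 ≤ 0 := min_le_left _ _
  have hrelc : ∀ n, v.Ge ((d * e0 + N * c0) + p ^ n * μ) (Rel a d N (t m) (cs n)) := by
    intro n
    have hb : ∀ i j, ∃ z : k, z ^ p ^ n = a i j := fun i j =>
      IsAlgClosed.exists_pow_nat_eq _ (hpn' n)
    choose b hb using hb
    set H : Polynomial Ω := ∑ j ∈ Finset.range N, (∑ i ∈ Finset.range d,
      Polynomial.C (algebraMap k Ω (b i j)) * X ^ i) * (Q n) ^ j with hH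
    have hHm : H ∈ PI C := sum_mem fun j _ => mul_mem (sum_mem fun i _ =>
      mul_mem (C_mem_PI (C.algebraMap_mem _)) (pow_mem X_mem_PI _)) (pow_mem (hQm n) _)
    have hHe : ∀ z : Ω, H.eval z = Rel b d N z ((Q n).eval z) := by
      intro z
      rw [hH, eval_finsetSum, Rel]
      refine Finset.sum_congr rfl fun j _ => ?_
      rw [eval_mul, eval_pow, eval_finsetSum]
      congr 1
      refine Finset.sum_congr rfl fun i _ => ?_
      rw [eval_mul, eval_C, eval_pow, eval_X]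
    have hTn : T n ^ p ^ n = T 0 := by
      have h2 := root_pow_add hTr 0 n
      rwa [zero_add] at h2
    have htn : t (m + n) ^ p ^ n = t m := root_pow_add htr m n
    have hH0 : H.eval (T n) = 0 := by
      have h1 : (H.eval (T n)) ^ p ^ n = 0 := by
        rw [hHe, rel_pow n hb, hTn, hQe n, hrel]
      exact (pow_eq_zero_iff (hpn' n).ne').1 h1
    have hge0 : v.Ge (e0 / p ^ n) (T n) := by
      refine (ge_pow_iff (v := v) (hpn' n)).1 ?_
      rw [hTn]
      push_cast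
      rw [mul_div_cancel₀ _ (hpn n).ne']
      exact (RVal.ge_self _).mono (min_le_right _ _)
    have hXW : Wt v (ρ / p ^ n) (e0 / p ^ n) (taylor (T n) (X : Polynomial Ω)) :=
      wt_taylor_X hge0 ((div_le_div_iff_of_pos_right (hpn n)).2 ((min_le_right _ _).trans hTρ))
    have hQW : Wt v (ρ / p ^ n) (c0 / p ^ n) (taylor (T n) (Q n)) :=
      (hWt n).mono ((div_le_div_iff_of_pos_right (hpn n)).2 (min_le_right _ _))
    have hHW : Wt v (ρ / p ^ n) ((d * e0 + N * c0) / p ^ n) (taylor (T n) H) := by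
      refine wt_taylor_sum _ fun j hj => ?_
      have h1 : Wt v (ρ / p ^ n) (d * (e0 / p ^ n)) (taylor (T n) (∑ i ∈ Finset.range d,
          Polynomial.C (algebraMap k Ω (b i j)) * X ^ i)) := by
        refine wt_taylor_sum _ fun i hi => ?_
        refine (wt_taylor_mul (wt_taylor_C (h0.ge (b i j))) (wt_taylor_pow hXW i)).mono ?_
        have h2 : (i : ℝ) ≤ d := by exact_mod_cast (Finset.mem_range.1 hi).le
        have h3 : e0 / (p : ℝ) ^ n ≤ 0 := div_nonpos_of_nonpos_of_nonneg he0' (hpn n).le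
        nlinarith
      refine (wt_taylor_mul h1 (wt_taylor_pow hQW j)).mono ?_
      have h2 : (j : ℝ) ≤ N := by exact_mod_cast (Finset.mem_range.1 hj).le
      have h3 : c0 / (p : ℝ) ^ n ≤ 0 := div_nonpos_of_nonpos_of_nonneg hc0'' (hpn n).le
      have h4 : (d * e0 + N * c0) / (p : ℝ) ^ n = d * (e0 / p ^ n) + N * (c0 / p ^ n) := by
        ring
      rw [h4]
      nlinarith
    have h1 := wt_eval hHW (hμn n) (hδ n) (p ^ n) (jets_zero hN hHm hH0)
    rw [eval_taylor_sub] at h1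
    have e : Rel a d N (t m) (cs n) = (H.eval (t (m + n))) ^ p ^ n := by
      rw [hHe, rel_pow n hb, htn]
    rw [e]
    refine ((ge_pow_iff (v := v) (hpn' n)).2 h1).mono (le_of_eq ?_)
    push_cast
    have := (hpn n).ne'
    field_simp
  -- the limit
  have hpn1 : ∀ n : ℕ, (n : ℝ) * μ ≤ p ^ n * μ := fun n => mul_le_mul_of_nonneg_right
    (by exact_mod_cast (Nat.lt_pow_self hp.out.one_lt).le) hμ.le
  have htel : ∀ n j : ℕ, v.Ge (v c + n * μ) (cs (n + j) - cs n) := by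
    intro n j
    induction j with
    | zero =>
      rw [add_zero, sub_self]
      exact RVal.Ge.zero
    | succ j ih =>
      have e : cs (n + (j + 1)) - cs n = (cs (n + j + 1) - cs (n + j)) + (cs (n + j) - cs n) := by
        rw [add_assoc]
        ring
      rw [e]
      refine ((hstep (n + j)).mono ?_).add ih
      have h1 := hpn1 (n + j)
      have h2 : (n : ℝ) * μ ≤ ((n + j : ℕ) : ℝ) * μ := mul_le_mul_of_nonneg_right
        (by push_cast; linarith [Nat.cast_nonneg (α := ℝ) j]) hμ.le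
      linarith
  have htel' : ∀ b : ℝ, ∃ M, ∀ n, M ≤ n → ∀ j, v.Ge b (cs (n + j) - cs n) := by
    intro b
    obtain ⟨M, hM⟩ := exists_nat_gt ((b - v c) / μ)
    refine ⟨M, fun n hn j => (htel n j).mono ?_⟩
    rw [div_lt_iff₀ hμ] at hM
    have h2 : (M : ℝ) * μ ≤ n * μ := mul_le_mul_of_nonneg_right (by exact_mod_cast hn) hμ.le
    linarith
  obtain ⟨c', hc'⟩ := hcv cs (by
    intro b
    obtain ⟨M, hM⟩ := htel' b
    refine ⟨M, fun i j hi hj => ?_⟩
    obtain ⟨i', rfl⟩ := Nat.exists_eq_add_of_le hi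
    obtain ⟨j', rfl⟩ := Nat.exists_eq_add_of_le hj
    have e : cs (M + i') - cs (M + j') = (cs (M + i') - cs M) - (cs (M + j') - cs M) := by ring
    rw [e]
    exact (hM M le_rfl i').sub (hM M le_rfl j'))
  refine ⟨c', ?_, ?_, ?_⟩
  · obtain ⟨n, hn⟩ := hc' (v c + μ)
    have e : c' - c = (c' - cs n) + (cs n - c) := by ring
    rw [e]
    exact (hn n le_rfl).add (hcn n)
  · apply hCc
    rw [mem_clI]
    intro b
    obtain ⟨n, hn⟩ := hc' (max b 0)
    refine ⟨cs n ^ p ^ m, ?_, ?_⟩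
    · have h1 : cs n ^ p ^ m = ((Q n).map (iterateFrobenius Ω p (m + n))).eval (t 0) := by
        have h2 := eval_map_apply (p := Q n) (f := iterateFrobenius Ω p (m + n)) (t (m + n))
        have h3 := root_pow_add htr 0 (m + n)
        rw [zero_add] at h3
        rw [iterateFrobenius_def, iterateFrobenius_def, h3] at h2
        rw [h2, hcs]
        show (((Q n).eval (t (m + n))) ^ p ^ n) ^ p ^ m = _
        rw [← pow_mul, ← pow_add, add_comm]
      rw [h1, eval_eq_sum_range]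
      refine sum_mem fun i _ => mul_mem ?_ (pow_mem ht0 _)
      rw [coeff_map, iterateFrobenius_def]
      exact pow_mem (hQm n i) _
    · rw [← sub_pow_char_pow]
      refine (ge_pow (hn n le_rfl) (p ^ m)).mono ?_
      have h1 : (1 : ℝ) ≤ ((p ^ m : ℕ) : ℝ) := by exact_mod_cast hpn' m
      nlinarith [le_max_left b 0, le_max_right b 0]
  · set G : Polynomial Ω := ∑ j ∈ Finset.range N, Polynomial.C (∑ i ∈ Finset.range d,
      algebraMap k Ω (a i j) * (t m) ^ i) * X ^ j with hG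
    have hGe : ∀ y, G.eval y = Rel a d N (t m) y := by
      intro y
      rw [hG, eval_finsetSum, Rel]
      refine Finset.sum_congr rfl fun j _ => ?_
      rw [eval_mul, eval_C, eval_pow, eval_X]
    refine eq_zero_of_ge_all (v := v) fun b => ?_
    obtain ⟨L, hL0, hL⟩ := eval_cont (v := v) G c'
    obtain ⟨M, hM⟩ := hc' (max b 0 + L)
    obtain ⟨M', hM'⟩ := exists_nat_gt ((b - (d * e0 + N * c0)) / μ)
    rw [div_lt_iff₀ hμ] at hM'
    set n := max M M' with hn
    have h1 : v.Ge (max b 0 + L) (cs n - c') := by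
      have h2 := (hM n (le_max_left _ _)).neg
      rwa [neg_sub] at h2
    have h2 := hL _ _ (by positivity) h1
    rw [hGe, hGe] at h2
    have e : Rel a d N (t m) c' = Rel a d N (t m) (cs n) -
        (Rel a d N (t m) (cs n) - Rel a d N (t m) c') := by ring
    rw [e]
    refine ((hrelc n).mono ?_).sub (h2.mono ?_)
    · have h3 := hpn1 n
      have h4 : (M' : ℝ) * μ ≤ n * μ := mul_le_mul_of_nonneg_right
        (by exact_mod_cast (le_max_right _ _)) hμ.le
      linarith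
    · linarith [le_max_left b 0]

omit [IsAlgClosed k] in
theorem exists_low (hTr : ∀ n, T (n + 1) ^ p = T n) (hTW : T 0 ∈ W)
    (hW : ∀ a ∈ W, ∃ Q ∈ PI W, (Q.eval (T 1)) ^ p = a) {a : Ω} (ha : a ∈ W) (n : ℕ) :
    ∃ Q ∈ PI W, Q.natDegree < p ^ n ∧ (Q.eval (T n)) ^ p ^ n = a := by
  obtain ⟨Q, hQ, h1⟩ := TWC.rts_poly hTr hW n a ha
  obtain ⟨R, hR, h2, h3⟩ := TWC.exists_red hTr hTW n hQ
  exact ⟨R, hR, h2, by rw [h3, h1]⟩

/-- **The distance to the algebraic elements.** -/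
theorem lev_alg [IsAlgClosed Ω] (h0 : Ctx0 k v) (hcv : CompleteV v)
    (hN : NBX p v C T fun n F => F * ρ / p ^ n) (hCc : Cld v C)
    (hTr : ∀ n, T (n + 1) ^ p = T n) (htr : ∀ n, t (n + 1) ^ p = t n) (ht0 : t 0 ∈ C)
    (hT0 : T 0 ≠ 0) (hvT : v (T 0) ≠ 0) (hTρ : v (T 0) ≤ ρ) (hμ : 0 < μ)
    (hnear : v.Ge (ρ + μ) (t m - T 0)) {ν : ℝ} (hν : 0 ≤ ν) (hνμ : ν / p ^ m < μ)
    (hreg : ∀ f ∈ C, IsAlgebraic (adj (⊥ : IntermediateField k Ω) (t 0)) f → f ∈ W)
    (hfar : ¬ Nr' v W ((v (t 0) + ν) / p) (t 1))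
    (hca : IsAlgebraic (adj (⊥ : IntermediateField k Ω) (T 0)) c)
    (hQ : ∀ n, ∃ Q ∈ PI C, Q.natDegree < p ^ n ∧ (Q.eval (T n)) ^ p ^ n = c) :
    ¬ Gt v ((v (T 0) + ν / p ^ m) / p) (T 1 - c) := by
  have hp0 : (0 : ℝ) < p := by exact_mod_cast hp.out.pos
  have hp1 : (1 : ℝ) ≤ p := by exact_mod_cast hp.out.one_lt.le
  have hpm : (0 : ℝ) < (p : ℝ) ^ m := pow_pos hp0 m
  have hνm : 0 ≤ ν / (p : ℝ) ^ m := div_nonneg hν hpm.le
  intro hgt
  have hT1 : T 1 ≠ 0 := TWC.root_ne_zero hTr hT0 1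
  have hv1 : v (T 1) = v (T 0) / p := by
    have := TWC.val_rt (v := v) hTr hT0 1
    rwa [pow_one] at this
  -- the value of `c`
  have h1 : Gt v (v (T 1)) (T 1 - c) := hgt.mono (by
    rw [hv1]
    exact (div_le_div_iff_of_pos_right hp0).2 (by linarith))
  obtain ⟨hc0, hvc⟩ := Gt.val_eq hT1 h1
  obtain ⟨a, d, N, hane, hrel⟩ := rel_of_alg hca
  obtain ⟨c', hcc, hcC, hrel'⟩ := exists_move h0 hcv hN hCc hTr htr ht0 hTρ hμ hnear hQ hrel
  -- the value of `t 0`
  have h2 : Gt v (v (T 0)) (T 0 - t m) := (Gt.of_ge hnear (by linarith)).sub_comm'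
  obtain ⟨htm0, hvtm⟩ := Gt.val_eq hT0 h2
  have htm : t m ^ p ^ m = t 0 := by
    have := root_pow_add htr 0 m
    rwa [zero_add] at this
  have hvt0 : v (t 0) = p ^ m * v (T 0) := by
    rw [← htm, v.map_pow htm0, hvtm]
    push_cast
    rfl
  have ht00 : t 0 ≠ 0 := by
    rw [← htm]
    exact pow_ne_zero _ htm0
  -- `t (m + 1)` is near `c'`
  have h3 : Gt v ((v (T 0) + ν / p ^ m) / p) (t (m + 1) - c') := by
    have e : t (m + 1) - c' = (t (m + 1) - T 1) + (T 1 - c) - (c' - c) := by ring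
    rw [e]
    refine Gt.sub (Gt.add ?_ hgt) ?_
    · have h4 : v.Ge ((ρ + μ) / p) (t (m + 1) - T 1) := by
        refine (ge_pow_iff (v := v) hp.out.pos).1 ?_
        rw [sub_pow_char, htr, hTr 0, mul_div_cancel₀ _ hp0.ne']
        exact hnear
      refine Gt.of_ge h4 ?_
      exact (div_lt_div_iff_of_pos_right hp0).2 (by linarith)
    · refine Gt.of_ge hcc ?_
      rw [hvc, hv1, add_div]
      have h5 : ν / (p : ℝ) ^ m / p ≤ ν / p ^ m := div_le_self hνm hp1
      linarith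
  -- the `p ^ m`-th power
  have h6 : Gt v ((v (t 0) + ν) / p) (t 1 - c' ^ p ^ m) := by
    have h7 : t (m + 1) ^ p ^ m = t 1 := by
      have := root_pow_add htr 1 m
      rwa [add_comm] at this
    have e : t 1 - c' ^ p ^ m = (t (m + 1) - c') ^ p ^ m := by
      rw [sub_pow_char_pow, h7]
    rw [e]
    intro h8
    have h9 : t (m + 1) - c' ≠ 0 := by
      intro h10
      apply h8
      rw [h10, zero_pow (pow_pos hp.out.pos m).ne']
    rw [v.map_pow h9, hvt0]
    have h10 := mul_lt_mul_of_pos_left (h3 h9) hpm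
    push_cast
    refine lt_of_eq_of_lt ?_ h10
    have := hpm.ne'
    field_simp
  refine hfar ⟨c' ^ p ^ m, hreg _ hcC ?_, h6⟩
  have hva : v (t 0) ≠ 0 := by
    rw [hvt0]
    exact mul_ne_zero hpm.ne' hvT
  refine alg_of_rel (trans_of_val h0 ht00 hva) (a := fun i j => a i j ^ p ^ m) (d := d) (N := N)
    ?_ ?_
  · obtain ⟨i, hi, j, hj, h7⟩ := hane
    exact ⟨i, hi, j, hj, pow_ne_zero _ h7⟩
  · have h7 := rel_pow (p := p) m (a := fun i j => a i j ^ p ^ m) (b := a) (fun _ _ => rfl) d N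
      (t m) c'
    rw [hrel', zero_pow (pow_pos hp.out.pos m).ne', htm] at h7
    exact h7.symm

/-- **The level of `T` in the closure of the algebraic closure of `k(T 0)`.** -/
theorem lev_WX [IsAlgClosed Ω] (h0 : Ctx0 k v) (hcv : CompleteV v) (hT : Tgt p v C T ρ)
    (hT0 : T 0 ≠ 0) (hvT : v (T 0) ≠ 0) (htr : ∀ n, t (n + 1) ^ p = t n) (ht0 : t 0 ∈ C)
    (hμ : 0 < μ) (hnear : v.Ge (ρ + μ) (t m - T 0)) {ν : ℝ} (hν : 0 ≤ ν) (hνμ : ν / p ^ m < μ)
    (hreg : ∀ f ∈ C, IsAlgebraic (adj (⊥ : IntermediateField k Ω) (t 0)) f → f ∈ W)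
    (hfar : ¬ Nr' v W ((v (t 0) + ν) / p) (t 1)) :
    ¬ Nr' v (WX v C (T 0)) ((v (T 0) + ν / p ^ m) / p) (T 1) := by
  have hp0 : (0 : ℝ) < p := by exact_mod_cast hp.out.pos
  have hN := hT.snd.nbx' p h0 hcv (r := ρ) (by
    show (p : ℝ) * (ρ / p ^ 1) ≤ ρ
    rw [pow_one, mul_div_cancel₀ _ hp0.ne'])
  have hTρ : v (T 0) ≤ ρ := val_le_of_tgt p hT hT0
  have hrts := rts_tgt h0 hcv hT hT0 hvT
  rintro ⟨b, hb, h1⟩
  obtain ⟨c, hc, h2⟩ := mem_clI.1 hb ((v (T 0) + ν / p ^ m) / p + 1)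
  have hc' := mem_algIn.1 hc
  refine lev_alg h0 hcv hN hT.cld hT.root htr ht0 hT0 hvT hTρ hμ hnear hν hνμ hreg hfar
    hc'.2 (fun n => ?_) (c := c) ?_
  · obtain ⟨Q, hQ, h3, h4⟩ := exists_low hT.root (mem_WX hT.mem) hrts
      (algIn_le_WX (v := v) hc) n
    exact ⟨Q, PI_mono (WX_le hT.cld) hQ, h3, h4⟩
  · have e : T 1 - c = (T 1 - b) + (b - c) := by ring
    rw [e]
    exact h1.add (Gt.of_ge h2 (by linarith))

end Move

end Pool.Agent.TWF
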