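import Pool.Agent.Lib.TWF.NearG
import Pool.Agent.Lib.TWF.FF4

/-!
# TANK W, first floor: the coordinates may be moved

* `CP_eq`: `CP v x y` is the closure of `k(x, y)`;
* `CP_near`: `C = CP v x y`, `(x, y)` orthogonal: near elements `x'`, `y'` of `C` are coordinates;
* `FF.near`: the same for `FF`.
-/

set_option autoImplicit false

open Polynomial

namespace Pool.Agent.TWF

open Pool.Agent.H15JM (RVal)
open Pool.Agent.LU1 (VPos adj)
open Pool.Agent.D2 (Ctx0)
open Pool.Agent.D2P (hen clI mem_clI mem_adj_self)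
open Pool.Agent.TWM
open Pool.Agent.TWC (CP)

universe u

variable {k Ω : Type u} [Field k] [Field Ω] [Algebra k Ω] {v : RVal Ω}
  {C : IntermediateField k Ω} {x y : Ω} {c₀ : ℝ}

/-- `CP v x y` is the closure of `k(x, y)`. -/
theorem CP_eq (v : RVal Ω) (x y : Ω) : (CP v x y : IntermediateField k Ω) =
    clI v (IntermediateField.adjoin k (Set.range ![x, y])) := by
  have h1 : adj (adj (⊥ : IntermediateField k Ω) x) y =
      IntermediateField.adjoin k (Set.range ![x, y]) := by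
    refine le_antisymm ?_ ?_
    · refine D2P.adj_le (D2P.adj_le bot_le ?_) ?_
      · exact IntermediateField.subset_adjoin _ _ ⟨0, rfl⟩
      · exact IntermediateField.subset_adjoin _ _ ⟨1, rfl⟩
    · rw [IntermediateField.adjoin_le_iff]
      rintro _ ⟨i, rfl⟩
      fin_cases i
      · exact (mem_adj_self _ _).2 (mem_adj_self _ _).1
      · exact (mem_adj_self _ _).1
  rw [← h1]
  exact clI_adj_clI

/-- **Near coordinates.** -/
theorem CP_near {p : ℕ} [hp : Fact p.Prime] [CharP Ω p] (hk : ∀ a : k, ∃ b, b ^ p = a)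
    (hC : C = CP v x y) (hx : x ≠ 0) (hy : y ≠ 0) (hO : OI p v C ![x, y] c₀) :
    ∃ b : ℝ, ∀ x' ∈ C, ∀ y' ∈ C, v.Ge b (x' - x) → v.Ge b (y' - y) →
      C = CP v x' y' ∧ OI p v C ![x', y'] c₀ ∧ (x' ≠ 0 ∧ v x' = v x) ∧ y' ≠ 0 ∧ v y' = v y := by
  have hp1 : (1 : ℝ) ≤ (p : ℝ) - 1 := by
    have h1 := hp.out.two_le
    have h2 : (2 : ℝ) ≤ p := by exact_mod_cast h1
    linarith
  set c := max 1 (c₀ / (p - 1)) with hc
  have hc1 : 1 ≤ c := le_max_left _ _
  have hc2 : c₀ ≤ (p - 1) * c := by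
    have h1 : c₀ / (p - 1) ≤ c := le_max_right _ _
    rw [div_le_iff₀ (by linarith)] at h1
    linarith
  set b₀ := max 0 (c₀ + c) + 1 with hb₀
  have hb1 : 0 ≤ b₀ := by
    have := le_max_left 0 (c₀ + c)
    linarith
  have hb2 : c₀ + c + 1 ≤ b₀ := by
    have := le_max_right 0 (c₀ + c)
    linarith
  have hb3 : 0 < b₀ := by
    have := le_max_left 0 (c₀ + c)
    linarith
  refine ⟨max (v x) (v y) + b₀, fun x' hx' y' hy' h1 h2 => ?_⟩
  have h1' : v.Ge (v x + b₀) (x' - x) := h1.mono (by linarith [le_max_left (v x) (v y)])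
  have h2' : v.Ge (v y + b₀) (y' - y) := h2.mono (by linarith [le_max_right (v x) (v y)])
  have ht : ∀ i, (![x, y] : Fin 2 → Ω) i ≠ 0 := by
    intro i
    fin_cases i
    · exact hx
    · exact hy
  have hn : ∀ i, v.Ge (v ((![x, y] : Fin 2 → Ω) i) + b₀)
      ((![x', y'] : Fin 2 → Ω) i - (![x, y] : Fin 2 → Ω) i) := by
    intro i
    fin_cases i
    · exact h1'
    · exact h2'
  have htC : ∀ i, (![x', y'] : Fin 2 → Ω) i ∈ C := by
    intro i
    fin_cases i
    · exact hx'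
    · exact hy'
  refine ⟨?_, OI.near hO ht hb1 hn (by linarith), ?_, ?_⟩
  · rw [CP_eq]
    refine clI_near hk ?_ hO ht htC hb1 hn hc2 (by linarith) (by linarith)
    rw [hC]
    exact CP_eq v x y
  · refine Gt.val_eq hx (Gt.of_ge (r' := v x + b₀) ?_ (by linarith))
    have := h1'.neg
    rwa [neg_sub] at this
  · refine Gt.val_eq hy (Gt.of_ge (r' := v y + b₀) ?_ (by linarith))
    have := h2'.neg
    rwa [neg_sub] at this

/-- **Near coordinates of the first floor.** -/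
theorem FF.near {p : ℕ} [hp : Fact p.Prime] [CharP Ω p] (hk : ∀ a : k, ∃ b, b ^ p = a)
    (h : FF p v C x y c₀) : ∃ b : ℝ, ∀ x' ∈ C, ∀ y' ∈ C, v.Ge b (x' - x) → v.Ge b (y' - y) →
      FF p v C x' y' c₀ := by
  obtain ⟨b, hb⟩ := CP_near hk h.eq h.x0 h.y0 h.oi
  refine ⟨b, fun x' hx' y' hy' h1 h2 => ?_⟩
  obtain ⟨h3, h4, ⟨h5, h6⟩, h7, -⟩ := hb x' hx' y' hy' h1 h2
  exact ⟨h3, h5, by rw [h6]; exact h.vx, h7, h4⟩

end Pool.Agent.TWF
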