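import Pool.Agent.Lib.TWM.X1
import Pool.Agent.Lib.TWC.SND
import Pool.Agent.Lib.TWC.EW

/-!
# TANK W: generators may be moved

`C` is the closure of `k(t)`, `t` orthogonal in `C` up to a constant. If `t'` is a system of elements
of `C` near to `t`, then `C` is the closure of `k(t')`, and `t'` is orthogonal with the same constant.

* `Dg k p t t' m f f'`: `f`, `f'` are the values at `t`, `t'` of a polynomial of degree `< p ^ m` in
  each variable (written by its digits);
* `Dg.near`: `f' - f` is small relative to `f`;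
* `clI_near`: the closures of `k(t')` and of `k(t)` are equal;
* `OI.near`: `t'` is orthogonal.
-/

set_option autoImplicit false

open Polynomial

namespace Pool.Agent.TWF

open Pool.Agent.H15JM (RVal)
open Pool.Agent.LU1 (VPos adj)
open Pool.Agent.D2 (Ctx0)
open Pool.Agent.D2P (hen clI mem_clI)
open Pool.Agent.TW (mon pcomb Orth)
open Pool.Agent.TWM
open Pool.Agent.TWC (ge_pow_iff)

universe u

variable {k Ω : Type u} [Field k] [Field Ω] [Algebra k Ω] {v : RVal Ω}

/-- `f`, `f'` are the values at `t`, `t'` of a polynomial, of degree `< p ^ m` in each variable. -/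
def Dg (k : Type u) {Ω : Type u} [Field k] [Field Ω] [Algebra k Ω] (p : ℕ) {n : ℕ}
    (t t' : Fin n → Ω) : ℕ → Ω → Ω → Prop
  | 0, f, f' => ∃ a : k, f = algebraMap k Ω a ∧ f' = algebraMap k Ω a
  | m + 1, f, f' => ∃ c c' : (Fin n → Fin p) → Ω,
      (∀ α, Dg k p t t' m (c α) (c' α)) ∧ f = pcomb t c ∧ f' = pcomb t' c'

section

variable {p : ℕ} [hp : Fact p.Prime] [CharP Ω p] {n : ℕ} {t t' : Fin n → Ω}

theorem pcomb_add (c d : (Fin n → Fin p) → Ω) :
    pcomb t (fun α => c α + d α) = pcomb t c + pcomb t d := by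
  rw [pcomb, pcomb, pcomb, ← Finset.sum_add_distrib]
  refine Finset.sum_congr rfl fun α _ => ?_
  rw [add_pow_char, add_mul]

omit [CharP Ω p] in
theorem pcomb_single (β : Fin n → Fin p) (g : Ω) :
    pcomb t (fun α => if α = β then g else 0) = g ^ p * mon t β := by
  classical
  rw [pcomb, Finset.sum_eq_single β]
  · rw [if_pos rfl]
  · intro α _ hα
    rw [if_neg hα, zero_pow hp.out.ne_zero, zero_mul]
  · exact fun h => absurd (Finset.mem_univ β) h

omit [CharP Ω p] in
theorem Dg.zero (m : ℕ) : Dg k p t t' m 0 0 := by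
  induction m with
  | zero => exact ⟨0, (_root_.map_zero _).symm, (_root_.map_zero _).symm⟩
  | succ m ih =>
    refine ⟨fun _ => 0, fun _ => 0, fun _ => ih, ?_, ?_⟩ <;>
    · rw [pcomb, Finset.sum_eq_zero]
      intro α _
      rw [zero_pow hp.out.ne_zero, zero_mul]

theorem Dg.add {m : ℕ} : ∀ {f f' g g' : Ω}, Dg k p t t' m f f' → Dg k p t t' m g g' →
    Dg k p t t' m (f + g) (f' + g') := by
  induction m with
  | zero =>
    rintro f f' g g' ⟨a, rfl, rfl⟩ ⟨b, rfl, rfl⟩
    exact ⟨a + b, (map_add _ _ _).symm, (map_add _ _ _).symm⟩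
  | succ m ih =>
    rintro f f' g g' ⟨c, c', hc, rfl, rfl⟩ ⟨d, d', hd, rfl, rfl⟩
    exact ⟨fun α => c α + d α, fun α => c' α + d' α, fun α => ih (hc α) (hd α),
      (pcomb_add c d).symm, (pcomb_add c' d').symm⟩

omit [CharP Ω p] in
theorem Dg.monomial (hk : ∀ a : k, ∃ b, b ^ p = a) (m : ℕ) : ∀ (e : Fin n → ℕ) (a : k),
    (∀ i, e i < p ^ m) → Dg k p t t' m (algebraMap k Ω a * ∏ i, t i ^ e i)
      (algebraMap k Ω a * ∏ i, t' i ^ e i) := by
  have hp0 : 0 < p := hp.out.pos
  induction m with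
  | zero =>
    intro e a he
    have h0 : ∀ i, e i = 0 := fun i => by
      have := he i
      rw [pow_zero] at this
      omega
    refine ⟨a, ?_, ?_⟩ <;>
    · rw [Finset.prod_eq_one fun i _ => by rw [h0 i, pow_zero], mul_one]
  | succ m ih =>
    intro e a he
    obtain ⟨b, hb⟩ := hk a
    have hq : ∀ i, e i / p < p ^ m := fun i => by
      rw [Nat.div_lt_iff_lt_mul hp0]
      have := he i
      rwa [pow_succ] at this
    have h1 := ih (fun i => e i / p) b hq
    set β : Fin n → Fin p := fun i => ⟨e i % p, Nat.mod_lt _ hp0⟩ with hβ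
    have key : ∀ s : Fin n → Ω, algebraMap k Ω a * ∏ i, s i ^ e i =
        pcomb s (fun α => if α = β then algebraMap k Ω b * ∏ i, s i ^ (e i / p) else 0) := by
      intro s
      rw [pcomb_single, mul_pow, ← _root_.map_pow, hb, ← Finset.prod_pow, mon, mul_assoc,
        ← Finset.prod_mul_distrib]
      congr 1
      refine Finset.prod_congr rfl fun i _ => ?_
      rw [← pow_mul, ← pow_add]
      congr 1
      change e i = e i / p * p + e i % p
      rw [Nat.div_add_mod']
    refine ⟨_, _, fun α => ?_, key t, key t'⟩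
    split_ifs
    · exact h1
    · exact Dg.zero m

omit [CharP Ω p] in
theorem Dg.succ (hk : ∀ a : k, ∃ b, b ^ p = a) {m : ℕ} : ∀ {f f' : Ω}, Dg k p t t' m f f' →
    Dg k p t t' (m + 1) f f' := by
  induction m with
  | zero =>
    rintro f f' ⟨a, rfl, rfl⟩
    have h1 := Dg.monomial (t := t) (t' := t') hk 1 (fun _ => 0) a fun i => by
      rw [pow_one]
      exact hp.out.pos
    rwa [Finset.prod_eq_one fun i _ => pow_zero _, Finset.prod_eq_one fun i _ => pow_zero _,
      mul_one] at h1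
  | succ m ih =>
    rintro f f' ⟨c, c', hc, rfl, rfl⟩
    exact ⟨c, c', fun α => ih (hc α), rfl, rfl⟩

omit [CharP Ω p] in
theorem Dg.mono (hk : ∀ a : k, ∃ b, b ^ p = a) {m m' : ℕ} (hm : m ≤ m') {f f' : Ω}
    (h : Dg k p t t' m f f') : Dg k p t t' m' f f' := by
  induction m', hm using Nat.le_induction with
  | base => exact h
  | succ m' _ ih => exact ih.succ hk

/-- The values of a polynomial. -/
theorem exists_dg (hk : ∀ a : k, ∃ b, b ^ p = a) (F : MvPolynomial (Fin n) k) :
    ∃ m, Dg k p t t' m (MvPolynomial.aeval t F) (MvPolynomial.aeval t' F) := by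
  induction F using MvPolynomial.induction_on' with
  | monomial u a =>
    obtain ⟨m, hm⟩ : ∃ m : ℕ, ∀ i, u i < p ^ m := by
      refine ⟨∑ i, u i, fun i => ?_⟩
      refine (Finset.single_le_sum (f := fun i => u i) (fun _ _ => Nat.zero_le _)
        (Finset.mem_univ i)).trans_lt (Nat.lt_pow_self hp.out.one_lt)
    refine ⟨m, ?_⟩
    rw [MvPolynomial.aeval_monomial, MvPolynomial.aeval_monomial,
      Finsupp.prod_fintype _ _ fun i => pow_zero _, Finsupp.prod_fintype _ _ fun i => pow_zero _]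
    exact Dg.monomial hk m u a hm
  | add F G hF hG =>
    obtain ⟨m, h1⟩ := hF
    obtain ⟨m', h2⟩ := hG
    refine ⟨max m m', ?_⟩
    rw [map_add, map_add]
    exact (h1.mono hk (le_max_left _ _)).add (h2.mono hk (le_max_right _ _))

end

section near

variable {p : ℕ} [hp : Fact p.Prime] {n : ℕ} {t t' : Fin n → Ω} {C : IntermediateField k Ω}
  {c₀ c b₀ : ℝ}

/-- Powers of near elements. -/
theorem pow_near {x x' : Ω} (hb : 0 ≤ b₀) (h : v.Ge (v x + b₀) (x' - x)) (i : ℕ) :
    v.Ge (i * v x) (x' ^ i) ∧ v.Ge (i * v x + b₀) (x' ^ i - x ^ i) := by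
  have hx' : v.Ge (v x) x' := by
    have h1 : x' = (x' - x) + x := by ring
    rw [h1]
    exact (h.mono (by linarith)).add (RVal.ge_self x)
  induction i with
  | zero =>
    rw [pow_zero, pow_zero, sub_self, Nat.cast_zero, zero_mul]
    exact ⟨fun _ => by rw [v.map_one], RVal.Ge.zero⟩
  | succ i ih =>
    constructor
    · rw [pow_succ]
      exact (ih.1.mul hx').mono (by push_cast; linarith)
    · have h1 : x' ^ (i + 1) - x ^ (i + 1) = x' ^ i * (x' - x) + (x' ^ i - x ^ i) * x := by ring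
      rw [h1]
      exact ((ih.1.mul h).mono (by push_cast; linarith)).add
        ((ih.2.mul (RVal.ge_self x)).mono (by push_cast; linarith))

/-- Products of near elements. -/
theorem prod_near (hb : 0 ≤ b₀) {ι : Type*} (S : Finset ι) (a a' : ι → Ω) (w : ι → ℝ)
    (h1 : ∀ i ∈ S, v.Ge (w i) (a' i)) (h2 : ∀ i ∈ S, v.Ge (w i + b₀) (a' i - a i)) :
    v.Ge (∑ i ∈ S, w i) (∏ i ∈ S, a' i) ∧
      v.Ge (∑ i ∈ S, w i + b₀) (∏ i ∈ S, a' i - ∏ i ∈ S, a i) := by
  classical
  induction S using Finset.induction_on with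
  | empty =>
    rw [Finset.sum_empty, Finset.prod_empty, Finset.prod_empty, sub_self]
    exact ⟨fun _ => by rw [v.map_one], RVal.Ge.zero⟩
  | insert i S hi ih =>
    rw [Finset.sum_insert hi, Finset.prod_insert hi, Finset.prod_insert hi]
    have h3 := ih (fun j hj => h1 j (Finset.mem_insert_of_mem hj))
      fun j hj => h2 j (Finset.mem_insert_of_mem hj)
    have h4 := h1 i (Finset.mem_insert_self i S)
    have h5 := h2 i (Finset.mem_insert_self i S)
    have h6 : v.Ge (w i) (a i) := by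
      have e : a i = a' i - (a' i - a i) := by ring
      rw [e]
      exact h4.sub (h5.mono (by linarith))
    refine ⟨h4.mul h3.1, ?_⟩
    have e : a' i * ∏ j ∈ S, a' j - a i * ∏ j ∈ S, a j =
        (a' i - a i) * ∏ j ∈ S, a' j + a i * (∏ j ∈ S, a' j - ∏ j ∈ S, a j) := by ring
    rw [e]
    exact ((h5.mul h3.1).mono (by linarith)).add ((h6.mul h3.2).mono (by linarith))

/-- The value of a monomial. -/
theorem val_prod_pow {ι : Type*} (S : Finset ι) {s : ι → Ω} (hs : ∀ i, s i ≠ 0) (e : ι → ℕ) :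
    v (∏ i ∈ S, s i ^ e i) = ∑ i ∈ S, (e i : ℝ) * v (s i) := by
  classical
  induction S using Finset.induction_on with
  | empty => rw [Finset.prod_empty, Finset.sum_empty, v.map_one]
  | insert i S hi ih =>
    rw [Finset.prod_insert hi, Finset.sum_insert hi, v.map_mul (pow_ne_zero _ (hs i))
      (Finset.prod_ne_zero_iff.mpr fun j _ => pow_ne_zero _ (hs j)), v.map_pow (hs i), ih]

omit hp in
/-- Monomials in near elements. -/
theorem mon_near (hb : 0 ≤ b₀) (ht : ∀ i, t i ≠ 0)
    (hn : ∀ i, v.Ge (v (t i) + b₀) (t' i - t i)) (α : Fin n → Fin p) :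
    v.Ge (v (mon t α)) (mon t' α) ∧ v.Ge (v (mon t α) + b₀) (mon t' α - mon t α) := by
  have h0 : v (mon t α) = ∑ i, (α i : ℕ) * v (t i) := by
    exact val_prod_pow _ ht _
  rw [h0]
  exact prod_near hb Finset.univ _ _ _ (fun i _ => (pow_near hb (hn i) _).1)
    fun i _ => (pow_near hb (hn i) _).2

/-- **The values of a polynomial at near systems.** -/
theorem Dg.near [CharP Ω p] (hO : OI p v C t c₀) (ht : ∀ i, t i ≠ 0) (htC : ∀ i, t i ∈ C)
    (hb : 0 ≤ b₀) (hn : ∀ i, v.Ge (v (t i) + b₀) (t' i - t i)) (hc : c₀ ≤ (p - 1) * c)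
    (hcb : c₀ + c ≤ b₀) (m : ℕ) : ∀ {f f' : Ω}, Dg k p t t' m f f' →
      f ∈ C ∧ ∀ b, v.Ge b f → v.Ge (b + c) (f' - f) := by
  have hp0 : (p : ℝ) ≠ 0 := by exact_mod_cast hp.out.ne_zero
  induction m with
  | zero =>
    rintro f f' ⟨a, rfl, rfl⟩
    exact ⟨C.algebraMap_mem a, fun b _ => by rw [sub_self]; exact RVal.Ge.zero⟩
  | succ m ih =>
    rintro f f' ⟨d, d', hd, rfl, rfl⟩
    have hdC := fun α => (ih (hd α)).1
    refine ⟨sum_mem fun α _ => mul_mem (pow_mem (hdC α) _) (prod_mem fun i _ =>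
      pow_mem (htC i) _), fun b hb' => ?_⟩
    have h1 := hO d hdC b hb'
    have e : pcomb t' d' - pcomb t d =
        ∑ α, ((d' α - d α) ^ p * mon t' α + d α ^ p * (mon t' α - mon t α)) := by
      rw [pcomb, pcomb, ← Finset.sum_sub_distrib]
      refine Finset.sum_congr rfl fun α _ => ?_
      rw [sub_pow_char]
      ring
    rw [e]
    refine RVal.Ge.sum _ _ fun α _ => ?_
    have hm : mon t α ≠ 0 := mon_ne ht α
    obtain ⟨h2, h3⟩ := mon_near hb ht hn α
    have h4 : v.Ge (b - c₀ - v (mon t α)) (d α ^ p) := fun h0 => by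
      have := h1 α (mul_ne_zero h0 hm)
      rw [v.map_mul h0 hm] at this
      linarith
    have h5 : v.Ge ((b - c₀ - v (mon t α)) / p) (d α) :=
      (ge_pow_iff hp.out.pos).1 (by rwa [mul_div_cancel₀ _ hp0])
    have h6 := (ih (hd α)).2 _ h5
    have h7 := (ge_pow_iff hp.out.pos).2 h6
    rw [mul_add, mul_div_cancel₀ _ hp0] at h7
    exact ((h7.mul h2).mono (by linarith)).add ((h4.mul h3).mono (by linarith))

/-- One step of the approximation, for the elements of `k(t)`. -/
theorem exists_near_adjoin [CharP Ω p] (hk : ∀ a : k, ∃ b, b ^ p = a) (hO : OI p v C t c₀)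
    (ht : ∀ i, t i ≠ 0) (htC : ∀ i, t i ∈ C) (hb : 0 ≤ b₀)
    (hn : ∀ i, v.Ge (v (t i) + b₀) (t' i - t i)) (hc : c₀ ≤ (p - 1) * c) (hc0 : 0 < c)
    (hcb : c₀ + c ≤ b₀) {h : Ω} (hh : h ∈ IntermediateField.adjoin k (Set.range t)) :
    ∃ h' ∈ IntermediateField.adjoin k (Set.range t'),
      ∀ b, v.Ge b h → v.Ge (b + c) (h' - h) := by
  rw [IntermediateField.mem_adjoin_range_iff] at hh
  obtain ⟨F, G, rfl⟩ := hh
  by_cases hF : MvPolynomial.aeval t F = 0
  · exact ⟨0, zero_mem _, fun b _ => by rw [hF, zero_div, sub_self]; exact RVal.Ge.zero⟩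
  by_cases hG : MvPolynomial.aeval t G = 0
  · exact ⟨0, zero_mem _, fun b _ => by rw [hG, div_zero, sub_self]; exact RVal.Ge.zero⟩
  obtain ⟨m, h1⟩ := exists_dg (t := t) (t' := t') hk F
  obtain ⟨m', h2⟩ := exists_dg (t := t) (t' := t') hk G
  have h3 := (h1.near hO ht htC hb hn hc hcb).2
  have h4 := (h2.near hO ht htC hb hn hc hcb).2
  refine ⟨_, (IntermediateField.mem_adjoin_range_iff k t' _).2 ⟨F, G, rfl⟩, fun b hb' => ?_⟩
  set f := MvPolynomial.aeval t F
  set f' := MvPolynomial.aeval t' F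
  set g := MvPolynomial.aeval t G
  set g' := MvPolynomial.aeval t' G
  have h5 : g' ≠ 0 ∧ v g' = v g := by
    have h7 := (h4 (v g) (RVal.ge_self g)).neg
    rw [neg_sub] at h7
    exact Gt.val_eq hG (Gt.of_ge h7 (by linarith))
  have h6 : b ≤ v f - v g := by
    have := hb' (div_ne_zero hF hG)
    rwa [v.map_div hF hG] at this
  have e : f' / g' - f / g = ((f' - f) * g + f * (g - g')) / (g * g') := by
    rw [div_sub_div _ _ h5.1 hG, mul_comm g g']
    congr 1
    ring
  rw [e]
  have h7 : v.Ge (v f + c + v g) ((f' - f) * g + f * (g - g')) := by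
    refine ((h3 (v f) (RVal.ge_self f)).mul (RVal.ge_self g)).add ?_
    have h8 := (h4 (v g) (RVal.ge_self g)).neg
    rw [neg_sub] at h8
    exact ((RVal.ge_self f).mul h8).mono (by linarith)
  intro hne
  have hnum : (f' - f) * g + f * (g - g') ≠ 0 := fun h => hne (by rw [h, zero_div])
  rw [v.map_div hnum (mul_ne_zero hG h5.1), v.map_mul hG h5.1, h5.2]
  have := h7 hnum
  linarith

/-- **The closures of `k(t')` and of `k(t)` are equal.** -/
theorem clI_near [CharP Ω p] (hk : ∀ a : k, ∃ b, b ^ p = a)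
    (hC : C = clI v (IntermediateField.adjoin k (Set.range t))) (hO : OI p v C t c₀)
    (ht : ∀ i, t i ≠ 0) (htC' : ∀ i, t' i ∈ C) (hb : 0 ≤ b₀)
    (hn : ∀ i, v.Ge (v (t i) + b₀) (t' i - t i)) (hc : c₀ ≤ (p - 1) * c) (hc0 : 0 < c)
    (hcb : c₀ + c ≤ b₀) : C = clI v (IntermediateField.adjoin k (Set.range t')) := by
  have hcld : Cld v C := by rw [hC]; exact cld_clI v _
  have htC : ∀ i, t i ∈ C := fun i => by
    rw [hC]
    exact TWM.le_clI _ (IntermediateField.subset_adjoin _ _ ⟨i, rfl⟩)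
  set D := clI v (IntermediateField.adjoin k (Set.range t')) with hD
  have hDC : D ≤ C := by
    refine (TWC.clI_mono' ?_).trans hcld
    rw [IntermediateField.adjoin_le_iff]
    rintro _ ⟨i, rfl⟩
    exact htC' i
  refine le_antisymm (fun f hf => ?_) hDC
  -- one step
  have step : ∀ f ∈ C, ∀ b, v.Ge b f → ∃ g ∈ D, v.Ge (b + c) (f - g) := by
    intro f hf b hb'
    rw [hC] at hf
    obtain ⟨h, hh, h1⟩ := mem_clI.1 hf (b + c)
    obtain ⟨h', hh', h2⟩ := exists_near_adjoin hk hO ht htC hb hn hc hc0 hcb hh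
    refine ⟨h', TWM.le_clI _ hh', ?_⟩
    have h3 : v.Ge b h := by
      have e : h = f - (f - h) := by ring
      rw [e]
      exact hb'.sub (h1.mono (by linarith))
    have h4 := (h2 b h3).neg
    have e : f - h' = (f - h) + -(h' - h) := by ring
    rw [e]
    exact h1.add h4
  -- iteration
  have iter : ∀ N : ℕ, ∃ g ∈ D, v.Ge (v f + N * c) (f - g) := by
    intro N
    induction N with
    | zero =>
      exact ⟨0, zero_mem _, by rw [sub_zero, Nat.cast_zero, zero_mul, add_zero]; exact RVal.ge_self f⟩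
    | succ N ih =>
      obtain ⟨g, hg, h1⟩ := ih
      obtain ⟨g', hg', h2⟩ := step (f - g) (sub_mem hf (hDC hg)) _ h1
      refine ⟨g + g', add_mem hg hg', ?_⟩
      rw [← sub_sub]
      refine h2.mono (le_of_eq ?_)
      push_cast
      ring
  have hcldD : Cld v D := cld_clI v _
  refine hcldD (mem_clI.2 fun b => ?_)
  obtain ⟨N, hN⟩ := exists_nat_gt ((b - v f) / c)
  obtain ⟨g, hg, h1⟩ := iter N
  refine ⟨g, hg, h1.mono ?_⟩
  rw [div_lt_iff₀ hc0] at hN
  linarith

omit hp in
/-- **A near system is orthogonal**, with the same constant. -/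
theorem OI.near [CharP Ω p] {A : IntermediateField k Ω} (hO : OI p v A t c₀) (ht : ∀ i, t i ≠ 0)
    (hb : 0 ≤ b₀) (hn : ∀ i, v.Ge (v (t i) + b₀) (t' i - t i)) (hcb : c₀ < b₀) :
    OI p v A t' c₀ := by
  intro d hd b hb' α
  -- the combination for `t` has the same value
  have e : pcomb t d = pcomb t' d - ∑ α, d α ^ p * (mon t' α - mon t α) := by
    rw [pcomb, pcomb, ← Finset.sum_sub_distrib]
    refine Finset.sum_congr rfl fun α _ => ?_
    ring
  have key : ∀ N : ℕ, ∀ a, a ≤ b → b - a ≤ N * (b₀ - c₀) → v.Ge a (pcomb t d) → v.Ge b (pcomb t d) := by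
    intro N
    induction N with
    | zero =>
      intro a _ h1 h2
      rw [Nat.cast_zero, zero_mul] at h1
      exact h2.mono (by linarith)
    | succ N ih =>
      intro a ha h1 h2
      have h3 := hO d hd a h2
      have h4 : v.Ge (min b (a + (b₀ - c₀))) (pcomb t d) := by
        rw [e]
        refine (hb'.mono (min_le_left _ _)).sub (RVal.Ge.sum _ _ fun β _ => ?_)
        have hm : mon t β ≠ 0 := mon_ne ht β
        have h5 := (mon_near hb ht hn β).2
        have h4 : v.Ge (a - c₀ - v (mon t β)) (d β ^ p) := fun h0 => by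
          have := h3 β (mul_ne_zero h0 hm)
          rw [v.map_mul h0 hm] at this
          linarith
        refine (h4.mul h5).mono ?_
        refine (min_le_right _ _).trans (by linarith)
      rcases le_total b (a + (b₀ - c₀)) with h5 | h5
      · rwa [min_eq_left h5] at h4
      · rw [min_eq_right h5] at h4
        refine ih _ h5 ?_ h4
        push_cast at h1
        linarith
  have h1 : v.Ge b (pcomb t d) := by
    by_cases h0 : pcomb t d = 0
    · rw [h0]; exact RVal.Ge.zero
    rcases le_total b (v (pcomb t d)) with h2 | h2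
    · exact (RVal.ge_self _).mono h2
    · obtain ⟨N, hN⟩ := exists_nat_gt ((b - v (pcomb t d)) / (b₀ - c₀))
      rw [div_lt_iff₀ (by linarith)] at hN
      exact key N _ h2 hN.le (RVal.ge_self _)
  have h2 := hO d hd b h1 α
  have hm : mon t α ≠ 0 := mon_ne ht α
  have h4 : v.Ge (b - c₀ - v (mon t α)) (d α ^ p) := fun h0 => by
    have := h2 (mul_ne_zero h0 hm)
    rw [v.map_mul h0 hm] at this
    linarith
  exact (h4.mul (mon_near hb ht hn α).1).mono (by linarith)

end near

end Pool.Agent.TWF
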