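import Pool.Agent.Lib.TWF.CPi
import Pool.Agent.Lib.TWF.InfDefs
import Pool.Agent.Lib.TWC.PWb
import Pool.Agent.Lib.TWC.PWc
import Pool.Agent.Lib.TWC.TightX
import Pool.Agent.Lib.TWC.Tame

/-!
# TANK W, row PW: the entry over a tame base

`W = WT(X 0)` the closure of the field of the tame roots, `C = W<y>` with bounded distortion,
`y` of radius `0` over the closure of `W(X n, n ≥ 0)`.

* `width_stepT`: the components of an approximation of `y`;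
* `exists_widthT`: the distance of `y` to `WT(X i)` is `≥ - B / p ^ i`;
* `letters_of_widthT`: bounded letters from the widths;
* **`exists_prt`**: `PRT` for `y - a`, `a ∈ W`; `FInf.prt`: the same from `FInf`;
* `PRT.nat`: the exponent.
-/

set_option autoImplicit false
set_option linter.unusedSectionVars false
set_option linter.unusedVariables false

open Polynomial

namespace Pool.Agent.TWC.PW

open Pool.Agent.H15JM (RVal)
open Pool.Agent.LU1 (VPos adj)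
open Pool.Agent.D2 (Ctx0)
open Pool.Agent.D2P (clI mem_clI mem_adj_self adj_le)
open Pool.Agent.TWM
open Pool.Agent.TWS (VG)
open Pool.Agent.TWC.PF (Lm SW SA)

universe u

variable {k Ω : Type u} [Field k] [Field Ω] [Algebra k Ω] {v : RVal Ω} {Γ : AddSubgroup ℝ}
  {p : ℕ} [hp : Fact p.Prime] [CharP k p] [CharP Ω p] [IsAlgClosed k] [IsAlgClosed Ω]
  {C : IntermediateField k Ω} {X X' : ℕ → Ω} {y a g : Ω} {B c₀ τ : ℝ} {n : ℕ}

/-! ### The levels -/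

theorem mem_X_WT (hr : ∀ n, X (n + 1) ^ p = X n) (hX : X 0 ≠ 0) (hΓ : v (X 0) ∈ Γ)
    (hdiv : ∀ g ∈ Γ, g / p ∈ Γ) (n : ℕ) : X n ∈ WT k p v Γ (X n) :=
  mem_WT (m := 1) (fun h => hp.out.one_lt.ne' (Nat.dvd_one.1 h)) (pow_one _)
    ((RS.refl hr hΓ).val_mem hX hdiv n)

/-- `WT(X (n + 1))` is generated by `X (n + 1)` over `WT(X n)`. -/
theorem WT_succ_le (hc : CompleteV v) (hr : ∀ n, X (n + 1) ^ p = X n) (hX : X 0 ≠ 0)
    (hΓ : v (X 0) ∈ Γ) (hdiv : ∀ g ∈ Γ, g / p ∈ Γ) (n : ℕ) :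
    WT k p v Γ (X (n + 1)) ≤ adj (WT k p v Γ (X n)) (X (n + 1)) := by
  have hXn : X (n + 1) ^ p ∈ WT k p v Γ (X n) := by
    rw [hr]
    exact mem_X_WT hr hX hΓ hdiv n
  have hX1 : X (n + 1) ≠ 0 := rt_ne hr hX (n + 1)
  refine WT_le (cld_adj hc (cld_WT _) (IsAlgebraic.of_pow hp.out.pos
    (isAlgebraic_algebraMap (⟨_, hXn⟩ : WT k p v Γ (X n))))) fun m f hm h1 h2 => ?_
  have hm0 : m ≠ 0 := by
    rintro rfl
    exact hm (dvd_zero p)
  have hf0 : f ≠ 0 := by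
    rintro rfl
    rw [zero_pow hm0] at h1
    exact hX1 h1.symm
  have h3 : f ^ p ∈ WT k p v Γ (X n) := by
    refine mem_WT hm (by rw [← pow_mul, mul_comm, pow_mul, h1, hr]) ?_
    rw [v.map_pow hf0, ← nsmul_eq_mul]
    exact Γ.nsmul_mem h2 p
  have hcop : IsCoprime (m : ℤ) (p : ℤ) :=
    Nat.isCoprime_iff_coprime.2 ((Nat.Prime.coprime_iff_not_dvd hp.out).2 hm).symm
  obtain ⟨α, β, hab⟩ := hcop
  have e : f = (f ^ m) ^ α * (f ^ p) ^ β := by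
    rw [← zpow_natCast, ← zpow_natCast, ← zpow_mul, ← zpow_mul, ← zpow_add₀ hf0,
      mul_comm (m : ℤ) α, mul_comm (p : ℤ) β, hab, zpow_one]
  rw [e, h1]
  exact mul_mem (zpow_mem (mem_adj_self _ _).1 α) (zpow_mem ((mem_adj_self _ _).2 h3) β)

/-- The elements of the closure of `W(X n, n ≥ 0)` are limits of elements of finite level. -/
theorem exists_levelT (hr : ∀ n, X (n + 1) ^ p = X n) (hX : X 0 ≠ 0) (hΓ : v (X 0) ∈ Γ)
    (hdiv : ∀ g ∈ Γ, g / p ∈ Γ) (ha : a ∈ EW v (WT k p v Γ (X 0)) X) (b : ℝ) :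
    ∃ n, ∃ g ∈ WT k p v Γ (X n), v.Ge b (a - g) := by
  rw [EW_eq_KT hr hX hΓ] at ha
  obtain ⟨g, hg, h1⟩ := mem_clI.1 ha b
  have h2 : ∃ n, g ∈ WT k p v Γ (X n) := by
    clear ha h1
    rw [KT] at hg
    have hm := fun {e e' : ℕ} (h : e ≤ e') => WT_mono (k := k) (v := v) (Γ := Γ) hr hX hdiv h
    induction hg using IntermediateField.adjoin_induction with
    | mem x hx =>
      obtain ⟨m, X', n, h, rfl⟩ := hx
      have h3 := (h.shift hX hdiv n).mem (k := k)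
      exact ⟨n, by simpa using h3⟩
    | algebraMap x => exact ⟨0, IntermediateField.algebraMap_mem _ x⟩
    | add x y _ _ h3 h4 =>
      obtain ⟨n, hn⟩ := h3
      obtain ⟨m, hm'⟩ := h4
      exact ⟨max n m, add_mem (hm (le_max_left _ _) hn) (hm (le_max_right _ _) hm')⟩
    | inv x _ h3 =>
      obtain ⟨n, hn⟩ := h3
      exact ⟨n, inv_mem hn⟩
    | mul x y _ _ h3 h4 =>
      obtain ⟨n, hn⟩ := h3
      obtain ⟨m, hm'⟩ := h4
      exact ⟨max n m, mul_mem (hm (le_max_left _ _) hn) (hm (le_max_right _ _) hm')⟩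
  obtain ⟨n, hn⟩ := h2
  exact ⟨n, g, hn, h1⟩

/-! ### The width -/

/-- One step down. -/
theorem width_stepT (hc : CompleteV v) (hr : ∀ n, X (n + 1) ^ p = X n) (hX : X 0 ≠ 0)
    (hΓ : v (X 0) ∈ Γ) (hdiv : ∀ g ∈ Γ, g / p ∈ Γ) (hW : WT k p v Γ (X 0) ≤ C) (hy : y ∈ C)
    (hO : OI p v C ![X 0] c₀) (hg : g ∈ WT k p v Γ (X (n + 1))) (h : v.Ge (-τ) (y - g)) :
    ∃ g' ∈ WT k p v Γ (X n), v.Ge (-(τ + c₀ / p ^ (n + 1))) (y - g') := by
  have hp0 : (0 : ℝ) < p := by exact_mod_cast hp.out.pos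
  have hpn : (0 : ℝ) < (p : ℝ) ^ (n + 1) := pow_pos hp0 _
  have hXn : X (n + 1) ^ p ∈ WT k p v Γ (X n) := by
    rw [hr]
    exact mem_X_WT hr hX hΓ hdiv n
  obtain ⟨f, hf, hfg⟩ := TWC.exists_sum hp.out.pos hXn (WT_succ_le hc hr hX hΓ hdiv n hg)
  have hXp : X (n + 1) ^ p ^ (n + 1) = X 0 := by
    have := EW.pow_pow p hr 0 (n + 1)
    rwa [zero_add] at this
  refine ⟨f 0, hf 0, ?_⟩
  -- the coefficients
  have hfp : ∀ i, f i ^ p ^ n ∈ C := fun i => hW (pow_mem_WT hr hX hΓ (hf i))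
  have h1 : v.Ge (p ^ (n + 1) * (-τ)) ((y - g) ^ p ^ (n + 1)) := by
    have := ge_pow h (p ^ (n + 1))
    push_cast at this
    exact this
  set c : (Fin 1 → Fin p) → Ω := fun α =>
    (if (α 0 : ℕ) = 0 then y ^ p ^ n else 0) - f (α 0) ^ p ^ n with hcdef
  have h2 : (y - g) ^ p ^ (n + 1) = TW.pcomb ![X 0] c := by
    rw [TWF.pcomb_one, sub_pow_char_pow, hfg, sum_pow_char_pow]
    have e1 : ∀ i : Fin p, c ![i] ^ p * X 0 ^ (i : ℕ) =
        (if (i : ℕ) = 0 then y ^ p ^ (n + 1) else 0) - (f i * X (n + 1) ^ (i : ℕ)) ^ p ^ (n + 1) := by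
      intro i
      have e2 : (f i * X (n + 1) ^ (i : ℕ)) ^ p ^ (n + 1) = (f i ^ p ^ n) ^ p * X 0 ^ (i : ℕ) := by
        rw [mul_pow, ← pow_mul (X (n + 1)), mul_comm (i : ℕ), pow_mul, hXp, ← pow_mul (f i),
          ← pow_succ]
      rw [e2, hcdef]
      simp only [Matrix.cons_val_zero]
      rw [sub_pow_char, sub_mul]
      congr 1
      split_ifs with h3
      · rw [h3, pow_zero, mul_one, ← pow_mul, ← pow_succ]
      · rw [zero_pow hp.out.ne_zero, zero_mul]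
    rw [Finset.sum_congr rfl fun i _ => e1 i, Finset.sum_sub_distrib]
    congr 1
    · rw [Finset.sum_eq_single (⟨0, hp.out.pos⟩ : Fin p)]
      · simp
      · intro i _ hi
        rw [if_neg fun h3 => hi (Fin.ext h3)]
      · intro h3
        exact absurd (Finset.mem_univ _) h3
    · rw [Finset.sum_range fun i => (f i * X (n + 1) ^ i) ^ p ^ (n + 1)]
  have hcm : ∀ α, c α ∈ C := fun α => by
    refine sub_mem ?_ (hfp _)
    split_ifs
    · exact pow_mem hy _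
    · exact zero_mem _
  have h3 := hO c hcm _ (by rw [← h2]; exact h1) ![⟨0, hp.out.pos⟩]
  have h4 : TW.mon (p := p) ![X 0] ![⟨0, hp.out.pos⟩] = 1 := by
    rw [TW.mon, Fin.prod_univ_one]
    simp
  rw [h4, mul_one, hcdef] at h3
  simp only [Matrix.cons_val_zero, if_true] at h3
  rw [← sub_pow_char_pow, ← pow_mul, ← pow_succ] at h3
  refine (ge_pow_iff (N := p ^ (n + 1)) (pow_pos hp.out.pos _)).1 (h3.mono (le_of_eq ?_))
  push_cast
  field_simp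
  ring

/-- **The width.** -/
theorem exists_widthT (hc : CompleteV v) (hr : ∀ n, X (n + 1) ^ p = X n) (hX : X 0 ≠ 0)
    (hΓ : v (X 0) ∈ Γ) (hdiv : ∀ g ∈ Γ, g / p ∈ Γ) (hW : WT k p v Γ (X 0) ≤ C) (hy : y ∈ C)
    (hO : OI p v C ![X 0] c₀) (hl : Lim v (EW v (WT k p v Γ (X 0)) X) 0 y) :
    ∃ B : ℝ, 0 ≤ B ∧ ∀ i, ∃ g ∈ WT k p v Γ (X i), v.Ge (-(B / (p : ℝ) ^ i)) (y - g) := by
  have hp1 : (1 : ℝ) < p := by exact_mod_cast hp.out.one_lt
  have hp0 : (0 : ℝ) < p := by linarith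
  obtain ⟨N₀, hN₀, hN0⟩ : ∃ N₀, N₀ = max c₀ 0 ∧ 0 ≤ N₀ := ⟨_, rfl, le_max_right _ _⟩
  have hO' : OI p v C ![X 0] N₀ := hO.mono le_rfl (hN₀ ▸ le_max_left _ _)
  have key : ∀ (i d : ℕ) (τ : ℝ) (g : Ω), g ∈ WT k p v Γ (X (i + d)) → v.Ge (-τ) (y - g) →
      ∃ g' ∈ WT k p v Γ (X i),
        v.Ge (-(τ + N₀ * (1 / (p : ℝ) ^ i - 1 / (p : ℝ) ^ (i + d)))) (y - g') := by
    intro i d
    induction d with
    | zero =>
      intro τ g hg h1
      refine ⟨g, hg, h1.mono (le_of_eq ?_)⟩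
      rw [add_zero, sub_self, mul_zero, add_zero]
    | succ d ih =>
      intro τ g hg h1
      obtain ⟨g₁, hg₁, h2⟩ := width_stepT (n := i + d) hc hr hX hΓ hdiv hW hy hO' hg h1
      obtain ⟨g₂, hg₂, h3⟩ := ih _ g₁ hg₁ h2
      refine ⟨g₂, hg₂, h3.mono ?_⟩
      have h4 : (0 : ℝ) < (p : ℝ) ^ (i + d) := pow_pos hp0 _
      have h5 : 2 * (1 / (p : ℝ) ^ (i + d + 1)) ≤ 1 / (p : ℝ) ^ (i + d) := by
        have h2p : (2 : ℝ) ≤ p := by exact_mod_cast hp.out.two_le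
        rw [pow_succ, mul_one_div, div_le_div_iff₀ (by positivity) h4]
        nlinarith
      have h6 := mul_le_mul_of_nonneg_left h5 hN0
      have h7 : N₀ / (p : ℝ) ^ (i + d + 1) = N₀ * (1 / (p : ℝ) ^ (i + d + 1)) := by ring
      rw [h7, ← add_assoc i d 1]
      nlinarith
  refine ⟨N₀ + 1, by linarith, fun i => ?_⟩
  have hpi : (0 : ℝ) < (p : ℝ) ^ i := pow_pos hp0 _
  obtain ⟨a, ha, h1⟩ := hl (1 / (p : ℝ) ^ i) (by positivity)
  obtain ⟨n, g, hg, h2⟩ := exists_levelT hr hX hΓ hdiv ha (-(1 / (p : ℝ) ^ i))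
  have h3 : v.Ge (-(1 / (p : ℝ) ^ i)) (y - g) := by
    rw [zero_sub] at h1
    have := h1.add h2
    rwa [sub_add_sub_cancel] at this
  obtain ⟨g', hg', h4⟩ := key i n (1 / (p : ℝ) ^ i) g
    (WT_mono hr hX hdiv (Nat.le_add_left _ _) hg) h3
  refine ⟨g', hg', h4.mono ?_⟩
  have h5 : (0 : ℝ) < 1 / (p : ℝ) ^ (i + n) := by positivity
  have h6 : (N₀ + 1) / (p : ℝ) ^ i = N₀ * (1 / (p : ℝ) ^ i) + 1 / (p : ℝ) ^ i := by ring
  rw [h6]
  nlinarith [mul_nonneg hN0 h5.le]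

/-! ### The letters -/

/-- The polar part of an element of the level `n`. -/
theorem exists_polarT (h0 : Ctx0 k v) (hr : ∀ n, X (n + 1) ^ p = X n) (hX : X 0 ≠ 0)
    (hv : v (X 0) < 0) (hΓ : v (X 0) ∈ Γ) (hdiv : ∀ g ∈ Γ, g / p ∈ Γ) {j : ℕ} (hj : j ≤ n)
    (ha : a ∈ WT k p v Γ (X n)) (hB : 0 ≤ B) (h : v.Ge (B * v (X n)) a) :
    ∃ s ∈ ST k p v Γ X (B + 1) j, v.Ge 0 (a - s) := by
  have hXn : X n ≠ 0 := rt_ne hr hX n
  have hvn : v (X n) < 0 := rt_neg hr hX hv n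
  obtain ⟨a', ha', h1⟩ := mem_clI.1 ha 0
  obtain ⟨l, z, hz, h2⟩ := TWF.CPf.exists_level (k := k) hXn
    ((RS.refl hr hΓ).val_mem hX hdiv n) ha'
  have hz0 := hz.ne hXn
  have hl0 : (0 : ℝ) < l := by exact_mod_cast Nat.pos_of_ne_zero hz.pos
  have hl1 : (1 : ℝ) ≤ l := by exact_mod_cast Nat.one_le_iff_ne_zero.2 hz.pos
  have hzv := hz.mul_val hXn
  have hvz : v z < 0 := by
    by_contra h3
    push Not at h3
    have := mul_nonneg hl0.le h3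
    linarith
  have hu : 0 < v z⁻¹ := by
    rw [v.map_inv hz0]
    linarith
  obtain ⟨A, hA, hA'⟩ : ∃ A : ℕ, (l : ℝ) * B ≤ A ∧ (A : ℝ) ≤ l * (B + 1) := by
    refine ⟨⌈(l : ℝ) * B⌉₊, Nat.le_ceil _, ?_⟩
    have := (Nat.ceil_lt_add_one (mul_nonneg hl0.le hB)).le
    nlinarith
  have h3 : v.Ge (B * v (X n)) a' := by
    have e : a' = a - (a - a') := by ring
    rw [e]
    refine h.sub (h1.mono ?_)
    exact mul_nonpos_of_nonneg_of_nonpos hB hvn.le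
  obtain ⟨c, hc⟩ := exists_polar h0 (z := z⁻¹) (inv_ne_zero hz0) hu A (f := a') (by
      rw [TWF.CPf.cadj_bot_inv']
      exact self_le_clI v _ h2) (h3.mono (by
        rw [v.map_inv hz0, ← hzv]
        have := mul_le_mul_of_nonneg_right hA (neg_nonneg.2 hvz.le)
        linarith))
  refine ⟨∑ b, algebraMap k Ω (c b) * z⁻¹⁻¹ ^ (b : ℕ), sum_mem fun b _ => ?_, ?_⟩
  · rw [inv_inv, ← Algebra.smul_def]
    refine Submodule.smul_mem _ _ ?_
    -- the system of roots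
    have hzΓ : v (X 0) / l ∈ Γ := by
      have e1 : v (X 0) / l = (p ^ n : ℕ) • v z := by
        have h5 : v (X n) = v (X 0) / p ^ n := rt_val hr hX n
        have hpn : (p : ℝ) ^ n ≠ 0 := pow_ne_zero _ (by exact_mod_cast hp.out.ne_zero)
        rw [h5] at hzv
        rw [nsmul_eq_mul]
        push_cast
        rw [div_eq_iff hl0.ne', mul_assoc, mul_comm (v z) (l : ℝ), hzv,
          mul_div_cancel₀ _ hpn]
      rw [e1]
      exact Γ.nsmul_mem hz.val _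
    obtain ⟨X₁, hX₁⟩ := RS.exists_of_val (v := v) (Γ := Γ) hr hX hz.nd hzΓ
    obtain ⟨d, -, hd⟩ := mul_of_pow k hz.pos hz0 (hX₁.ne hX n) (by rw [hz.pow, hX₁.pow])
    rw [hd, mul_pow, ← map_pow, ← Algebra.smul_def]
    refine Submodule.smul_mem _ _ (Submodule.subset_span ⟨l, X₁, n, b, hX₁, hj, ?_, rfl⟩)
    refine le_trans ?_ hA'
    exact_mod_cast Nat.lt_succ_iff.1 b.2
  · have e : a - ∑ b, algebraMap k Ω (c b) * z⁻¹⁻¹ ^ (b : ℕ) =
        (a - a') + (a' - ∑ b, algebraMap k Ω (c b) * z⁻¹⁻¹ ^ (b : ℕ)) := by ring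
    rw [e]
    exact h1.add hc

/-- **Bounded letters from the widths.** -/
theorem letters_of_widthT (h0 : Ctx0 k v) (hr : ∀ n, X (n + 1) ^ p = X n) (hX : X 0 ≠ 0)
    (hv : v (X 0) < 0) (hΓ : v (X 0) ∈ Γ) (hdiv : ∀ g ∈ Γ, g / p ∈ Γ) (hB : 0 ≤ B)
    (hg : ∀ i : ℕ, ∃ g ∈ WT k p v Γ (X i), v.Ge (-(B / (p : ℝ) ^ i)) (y - g)) :
    ∃ B' : ℝ, 0 ≤ B' ∧ ∃ a ∈ WT k p v Γ (X 0), Lm v (ST k p v Γ X B' 1) (y - a) := by
  classical
  have hp1 : (1 : ℝ) < p := by exact_mod_cast hp.out.one_lt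
  have hp0 : (0 : ℝ) < p := by exact_mod_cast hp.out.pos
  choose g hgm hgv using hg
  obtain ⟨A, hA, hA0⟩ : ∃ A : ℝ, A * v (X 0) = -(p * B) ∧ 0 ≤ A := by
    refine ⟨-(p * B) / v (X 0), div_mul_cancel₀ _ hv.ne, ?_⟩
    exact div_nonneg_of_nonpos (neg_nonpos.2 (mul_nonneg hp0.le hB)) hv.le
  have hc : ∀ i, ∃ s ∈ ST k p v Γ X (A + 1) 1, v.Ge 0 (g (i + 1) - g i - s) := by
    intro i
    refine exists_polarT h0 hr hX hv hΓ hdiv (n := i + 1) (by omega) (sub_mem (hgm (i + 1))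
      (WT_mono hr hX hdiv (Nat.le_succ i) (hgm i))) hA0 ?_
    have h1 : -(B / (p : ℝ) ^ i) ≤ -(B / (p : ℝ) ^ (i + 1)) := by
      refine neg_le_neg (div_le_div_of_nonneg_left hB (pow_pos hp0 i) ?_)
      exact pow_le_pow_right₀ hp1.le (Nat.le_succ i)
    have h2 := (hgv i).sub ((hgv (i + 1)).mono h1)
    rw [sub_sub_sub_cancel_left] at h2
    refine h2.mono (le_of_eq ?_)
    have h3 : v (X (i + 1)) = v (X 0) / p ^ (i + 1) := rt_val hr hX (i + 1)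
    have h5 : (p : ℝ) ^ i ≠ 0 := (pow_pos hp0 i).ne'
    rw [h3, ← mul_div_assoc, hA, pow_succ']
    field_simp
  choose s hs hsv using hc
  refine ⟨A + 1, by linarith, g 0, hgm 0, fun ε hε => ?_⟩
  obtain ⟨m, hm⟩ := pow_unbounded_of_one_lt (B / ε) hp1
  have hm' : B / (p : ℝ) ^ m ≤ ε := by
    rw [div_lt_iff₀ hε] at hm
    rw [div_le_iff₀ (pow_pos hp0 m)]
    linarith
  refine ⟨∑ i ∈ Finset.range m, s i, sum_mem fun i _ => hs i, ?_⟩
  have h1 : y - g 0 - ∑ i ∈ Finset.range m, s i = (y - g m) +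
      ∑ i ∈ Finset.range m, (g (i + 1) - g i - s i) := by
    rw [Finset.sum_sub_distrib, Finset.sum_range_sub]
    ring
  rw [h1]
  exact ((hgv m).mono (neg_le_neg hm')).add
    ((RVal.Ge.sum (v := v) _ _ fun i _ => hsv i).mono (by linarith))

/-! ### The entry -/

/-- **The entry over a tame base.** -/
theorem exists_prt (h0 : Ctx0 k v) (hc : CompleteV v) (hr : ∀ n, X (n + 1) ^ p = X n)
    (hX : X 0 ≠ 0) (hv : v (X 0) < 0) (hΓ : v (X 0) ∈ Γ) (hdiv : ∀ g ∈ Γ, g / p ∈ Γ)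
    (hC : C = cadj v (WT k p v Γ (X 0)) y) (hO : OI p v C ![X 0] c₀)
    (hTL : TL v (EW v (WT k p v Γ (X 0)) X) y 0) :
    ∃ B : ℝ, 0 ≤ B ∧ ∃ a ∈ WT k p v Γ (X 0), PRT p v Γ C X (y - a) B := by
  have hW : WT k p v Γ (X 0) ≤ C := by
    rw [hC]
    exact le_cadj v _ _
  have hy : y ∈ C := by
    rw [hC]
    exact self_mem_cadj v _ _
  obtain ⟨B, hB, h1⟩ := exists_widthT hc hr hX hΓ hdiv hW hy hO hTL.lim
  obtain ⟨B', hB', a, ha, h2⟩ := letters_of_widthT h0 hr hX hv hΓ hdiv hB h1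
  exact ⟨B', hB', a, ha,
    { root := hr
      ne := hX
      neg := hv
      val := hΓ
      div := hdiv
      tl := hTL.sub_mem (EW.le ha)
      eq := by rw [hC, cadj_sub_mem ha]
      ltr := h2 }⟩

/-- The exponent. -/
theorem PRT.nat (h : PRT p v Γ C X y B) : ∃ b : ℕ, B < b + 1 ∧ ¬ p ∣ b + 1 ∧
    PRT p v Γ C X y (b + 1) ∧ Lm v (STs k p v Γ X (b + 1) 1) y := by
  obtain ⟨N, hN⟩ := exists_nat_gt B
  have hp2 := hp.out.two_le
  have h1 : ∃ b : ℕ, N ≤ b + 1 ∧ ¬ p ∣ b + 1 := by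
    by_cases h2 : p ∣ N + 1
    · refine ⟨N + 1, by omega, fun h3 => ?_⟩
      have h4 : p ∣ 1 := by
        have := (Nat.dvd_add_right h2).1 h3
        exact this
      exact hp.out.one_lt.ne' (Nat.dvd_one.1 h4)
    · exact ⟨N, by omega, h2⟩
  obtain ⟨b, hb, hpb⟩ := h1
  have hBb : B < b + 1 := by
    have : (N : ℝ) ≤ b + 1 := by exact_mod_cast hb
    linarith
  refine ⟨b, hBb, hpb, { h with ltr := h.ltr.mono (ST_mono hBb.le le_rfl) }, h.ltr.mono ?_⟩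
  refine Submodule.span_mono ?_
  rintro g ⟨m, X', n, i, h1, h2, h3, rfl⟩
  refine ⟨m, X', n, i, h1, h2, h3.trans_lt ?_, rfl⟩
  exact mul_lt_mul_of_pos_left hBb (by exact_mod_cast Nat.pos_of_ne_zero h1.n_ne)

end Pool.Agent.TWC.PW

namespace Pool.Agent.TWF

open Pool.Agent.H15JM (RVal)
open Pool.Agent.LU1 (VPos adj)
open Pool.Agent.D2 (Ctx0)
open Pool.Agent.TWM
open Pool.Agent.TWS (VG)
open Pool.Agent.TWC.PW (WT PRT)

universe u

variable {k Ω : Type u} [Field k] [Field Ω] [Algebra k Ω] {v : RVal Ω}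
  {p : ℕ} [hp : Fact p.Prime] [CharP k p] [CharP Ω p] [IsAlgClosed k] [IsAlgClosed Ω]
  {C : IntermediateField k Ω} {x y : Ω} {c₀ : ℝ}

/-- **The entry**, from `FInf` over a tame base. -/
theorem FInf.prt (h0 : Ctx0 k v) (hc : CompleteV v) (h : FInf p v C x y 0 c₀) (hneg : v x < 0)
    (hV : v x / p ∉ VG v (WX v C x)) :
    ∃ (X : ℕ → Ω) (B : ℝ), X 0 = x ∧ 0 ≤ B ∧ WX v C x = WT k p v (VG v C) x ∧
      ∃ a ∈ WX v C x, PRT p v (VG v C) C X (y - a) B := by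
  obtain ⟨X, rfl, hr⟩ := TWC.exists_rts p x
  have hW : WX v C (X 0) = WT k p v (VG v C) (X 0) :=
    CPf.WX_eq_WT h0 h.toFF.cld h.toFF.mem_x h.x0 hneg hV
  have hΓ : v (X 0) ∈ VG v C := VG.self h.toFF.mem_x h.x0
  obtain ⟨B, hB, a, ha, h1⟩ := TWC.PW.exists_prt h0 hc hr h.x0 hneg hΓ h.div (by
    rw [← hW]
    exact h.toFF.eq_W) h.toFF.oi1 (by
      rw [← hW, ← h.toFF.ex_eq h0 hc rfl hr]
      exact h.tl)
  exact ⟨X, B, rfl, hB, hW, a, by rw [hW]; exact ha, h1⟩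

end Pool.Agent.TWF
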