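import Pool.Agent.Lib.TWC.PWs
import Pool.Agent.Lib.TWF.InfAlt

/-!
# TANK W, class C, letters over a tame base: the exit of the infinitely many stages

* `PRT.lim`: `y` is a limit of radical elements;
* `PRT.flr`: the first floor over the tame base;
* `altZ_of_stgs`: arbitrarily long chains of stages give `AltZ`.
-/

set_option autoImplicit false

open Polynomial

namespace Pool.Agent.TWC.PW

open Pool.Agent.H15JM (RVal)
open Pool.Agent.LU1 (adj)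
open Pool.Agent.D2 (Ctx0)
open Pool.Agent.D2P (clI mem_clI)
open Pool.Agent.TWM
open Pool.Agent.TWS (SphC)
open Pool.Agent.TWC.PF (Lm SW SA)
open Pool.Agent.TWF (Flr StrZ AltZ)

universe u

variable {k Ω : Type u} [Field k] [Field Ω] [Algebra k Ω] {v : RVal Ω} {Γ : AddSubgroup ℝ}
  {p : ℕ} [hp : Fact p.Prime] [CharP k p] [CharP Ω p] [IsAlgClosed k] [IsAlgClosed Ω]
  {C : IntermediateField k Ω} {X V : ℕ → Ω} {y s : Ω} {B : ℝ} {b m j : ℕ}

omit [CharP k p] in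
/-- The letters are radical over `WT(X 0)`. -/
theorem ST_radical (hr : ∀ n, X (n + 1) ^ p = X n) (hX : X 0 ≠ 0) (hΓ : v (X 0) ∈ Γ)
    (hdiv : ∀ g ∈ Γ, g / p ∈ Γ) (hB : 0 ≤ B) (h : s ∈ ST k p v Γ X B j) :
    ∃ e : ℕ, s ^ p ^ e ∈ WT k p v Γ (X 0) := by
  obtain ⟨m, b, X', hX', -, h1⟩ := ST_level hr hX hΓ hB h
  obtain ⟨L, hL⟩ := PF.SW_poly hX'.root h1
  obtain ⟨P, hP, -⟩ := hL L le_rfl
  refine ⟨L, ?_⟩
  have h2 : X' L ∈ WT k p v Γ (X L) := by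
    have h3 := RS.mem (k := k) (hX'.shift hX hdiv L)
    simpa using h3
  refine pow_mem_WT hr hX hΓ ?_
  rw [← hP]
  exact PF.aeval_mem_field h2

/-- `y` is a limit of radical elements. -/
theorem PRT.lim (hP : PRT p v Γ C X y B) (hB : 0 ≤ B) {ε : ℝ} (hε : 0 < ε) :
    ∃ (j : ℕ) (a : Ω), a ^ p ^ j ∈ WT k p v Γ (X 0) ∧ v.Ge (0 - ε) (y - a) := by
  obtain ⟨s, hs, h1⟩ := hP.ltr ε hε
  obtain ⟨e, he⟩ := ST_radical hP.root hP.ne hP.val hP.div hB hs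
  exact ⟨e, s, he, by rwa [zero_sub]⟩

/-- **The first floor over the tame base.** -/
theorem PRT.flr (h0 : Ctx0 k v) (hc : CompleteV v) (hP : PRT p v Γ C X y B) (hB : 0 ≤ B)
    (hV : RS p v Γ X m V) (hle : C ≤ clI v (IntermediateField.adjoin k {V 0, y})) :
    Flr p v C (WT k p v Γ (X 0)) (V 0) y 0 where
  cld := cld_WT _
  mem := hV.mem
  x0 := hV.ne hP.ne 0
  vx := (hV.neg hP.ne hP.neg).ne
  pb := by
    rw [WT_eq hP.ne hV]
    exact WT_pb h0 hc hV.root (hV.ne hP.ne 0) (hV.neg hP.ne hP.neg) hV.val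
  eq := hP.eq
  le := hle
  far θ hθ := hP.tl.far θ (D2P.isAlgebraic_mono EW.le hθ)
  lim ε hε := hP.lim hB hε

/-- **Arbitrarily long chains of stages give infinitely many strict translations.** -/
theorem altZ_of_stgs (h0 : Ctx0 k v) (hc : CompleteV v) (hw : SphC v)
    (hval : ∀ r : ℝ, ∃ x : Ω, x ≠ 0 ∧ v x = r) (hP : PRT p v Γ C X y (b + 1))
    (hV : RS p v Γ X m V) (hle : C ≤ clI v (IntermediateField.adjoin k {V 0, y}))
    (h : ∀ n, ∃ (C' : IntermediateField k Ω) (X' : ℕ → Ω) (y' : Ω) (b' : ℕ),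
      Stgs p v Γ n C X y b C' X' y' b') : AltZ p v C := by
  refine ⟨WT k p v Γ (X 0), V 0, y, 0, hP.flr h0 hc (by positivity) hV hle, 1, 1, ?_, ?_,
    one_ne_zero, v.map_one, fun n => ?_⟩
  · rw [Nat.dvd_one]
    exact hp.out.ne_one
  · rw [pow_one]
    exact one_mem _
  · obtain ⟨Θ, h1, h2⟩ := strZ_of_stgs h0 hw hval hP h n
    refine ⟨Θ, h1, fun ζ hζ => ?_⟩
    obtain ⟨μ, h3, h4⟩ := h2 ζ hζ
    refine ⟨μ, h3, fun P hP' => ?_⟩
    rw [mul_one]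
    exact h4 P hP'

end Pool.Agent.TWC.PW
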