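import Pool.Agent.Lib.TWC.PairWt
import Pool.Agent.Lib.TWF.CPf

/-!
# TANK W, the first floor over a tame base: a generator of the first floor is a second letter

* **`pairWt0`**: `exists_pairWt` without a change of `y`: the roots of `y` are the second letter, if
  `v(y) ≥ s - (r - v(x))`;
* **`pairWT`**: the same over the tame closure `WT k p v Γ (X 0)`.
-/

set_option autoImplicit false

open Polynomial

namespace Pool.Agent.TWF

open Pool.Agent.H15JM (RVal)
open Pool.Agent.LU1 (VPos adj)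
open Pool.Agent.D2 (Ctx0)
open Pool.Agent.D2P (clI mem_clI mem_adj_self adj_le)
open Pool.Agent.TWM
open Pool.Agent.TWS (VG)
open Pool.Agent.TWC
open Pool.Agent.TWC.PW (WT RS PRT)

universe u

variable {k Ω : Type u} [Field k] [Field Ω] [Algebra k Ω] {v : RVal Ω}
  {C C₀ W : IntermediateField k Ω} {p : ℕ} [hp : Fact p.Prime] [CharP Ω p]
  {x X : ℕ → Ω} {r s : ℝ} {Γ : AddSubgroup ℝ}

/-- **The tight pair over `W`**, without a change of the second letter. -/
theorem pairWt0 [CharP k p] [IsAlgClosed Ω] (h0 : Ctx0 k v) (hc : CompleteV v)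
    (hT : Tgt p v C₀ x r) (hx : x 0 ≠ 0) (hvr : v (x 0) < r) (hWC : W ≤ C₀) (hx0 : x 0 ∈ W)
    (hW : ∀ a ∈ W, ∃ Q ∈ PI W, (Q.eval (x 1)) ^ p = a)
    (hN : NBX p v W x fun n F => F * v (x 0) / p ^ n) {u : ℕ → Ω}
    (hu : ∀ n, u (n + 1) ^ p = u n) (hy : u 0 ∈ C₀) (hTL : TL v (EW v W x) (u 0) s)
    (hE : EW v C₀ x = cadj v (EW v W x) (u 0)) (hv : v.Ge (s - (r - v (x 0))) (u 0)) :
    TP p v C₀ x u r s := by
  classical
  have hp0 : (0 : ℝ) < p := by exact_mod_cast hp.out.pos
  have hb : 0 < r - v (x 0) := by linarith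
  have hnat : ∀ n : ℕ, v.Ge 0 (n : Ω) := fun n => by
    have := h0.ge (n : k)
    rwa [map_natCast] at this
  -- approximations of `y`
  have happ : ∀ δ : ℝ, 0 < δ → ∃ (N : ℕ) (P : Polynomial Ω), P ∈ PI W ∧ P.natDegree < p ^ N ∧
      v.Ge (s - δ) (u 0 - P.eval (x N)) := by
    intro δ hδ
    obtain ⟨e, he, h1⟩ := hTL.lim δ hδ
    obtain ⟨z, ⟨N, P, hP, rfl⟩, h2⟩ := AX.dense hT.root hp.out.pos hx0 e he (s - δ)
    obtain ⟨Q, hQ, hQd, hQe⟩ := exists_red hT.root hx0 N hP
    refine ⟨N, Q, hQ, hQd, ?_⟩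
    have e1 : u 0 - Q.eval (x N) = (u 0 - e) + (e - P.eval (x N)) := by
      rw [hQe]
      ring
    rw [e1]
    exact h1.add h2.2
  -- the limits
  have key : ∀ (n : ℕ) (δ : ℝ), 0 < δ → δ ≤ r - v (x 0) → Lim v C₀ ((s - δ) / p ^ n) (u n) := by
    intro n δ hδ hδ1
    have hpn : (0 : ℝ) < (p : ℝ) ^ n := pow_pos hp0 n
    obtain ⟨N, P, hP, hd, h2⟩ := happ δ hδ
    -- the coefficient of order zero
    have h3 : v.Ge (s - (r - v (x 0))) (P.coeff 0) := by
      have h4 : v.Ge (s - (r - v (x 0))) (P.eval (x N)) := by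
        have e : P.eval (x N) = u 0 - (u 0 - P.eval (x N)) := by ring
        rw [e]
        exact hv.sub (h2.mono (by linarith))
      have h5 := ort_coeff hnat hT.root hx hN hP hd h4 0
      rwa [Nat.cast_zero, zero_mul, sub_zero] at h5
    -- the roots of the coefficients
    choose Q hQ hQe using fun c => rts_poly hT.root hW n _ (hP c)
    have hxx : x (N + n) ^ p ^ n = x N := root_pow_add hT.root N n
    have hterm : ∀ c, ((Q c).eval (x n) * x (N + n) ^ c) ^ p ^ n = P.coeff c * x N ^ c :=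
      fun c => by
      rw [mul_pow, hQe, ← pow_mul, mul_comm c, pow_mul, hxx]
    set z := ∑ c ∈ Finset.range (p ^ N), (Q c).eval (x n) * x (N + n) ^ c with hz
    have hzp : z ^ p ^ n = P.eval (x N) := by
      rw [hz, sum_pow_char_pow, Finset.sum_congr rfl fun c _ => hterm c]
      exact (eval_eq_sum_range' hd _).symm
    have hun : u n ^ p ^ n = u 0 := by
      have := root_pow_add hu 0 n
      rwa [zero_add] at this
    have h4 : v.Ge ((s - δ) / p ^ n) (u n - z) := by
      refine (ge_pow_iff (v := v) (pow_pos hp.out.pos n)).1 ?_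
      rw [sub_pow_char_pow, hun, hzp]
      push_cast
      rw [mul_div_cancel₀ _ hpn.ne']
      exact h2
    -- every term is near `C`
    have h5 : Lim v C₀ ((s - δ) / p ^ n) z := by
      refine Lim.sum_r _ _ fun c hcr => ?_
      have hcN := Finset.mem_range.1 hcr
      rcases Nat.eq_zero_or_pos c with rfl | hc0
      · have h6 : v.Ge ((s - (r - v (x 0))) / p ^ n) ((Q 0).eval (x n)) := by
          refine (ge_pow_iff (v := v) (pow_pos hp.out.pos n)).1 ?_
          rw [hQe 0]
          push_cast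
          rw [mul_div_cancel₀ _ hpn.ne']
          exact h3
        rw [pow_zero, mul_one]
        refine Lim.weak (lim_poly hT hWC hx0 hN hvr.le (hQ 0) n h6) ?_
        rw [← add_div]
        refine div_le_div_of_nonneg_right ?_ hpn.le
        linarith
      · obtain ⟨a, c', hpc, hcc⟩ := Nat.exists_eq_pow_mul_and_not_dvd hc0.ne' p hp.out.ne_one
        have ha : a < N := by
          by_contra hno
          have h7 : p ^ N ≤ p ^ a := Nat.pow_le_pow_right hp.out.pos (not_lt.1 hno)
          have hc'0 : 0 < c' := Nat.pos_of_ne_zero fun h => hpc (h ▸ dvd_zero p)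
          have h8 : p ^ a ≤ c := by
            rw [hcc]
            exact Nat.le_mul_of_pos_right _ hc'0
          omega
        have h6 := letter_ge h0 hc hT hx hWC hN hy hP hd h2 ha hpc
        rw [← hcc] at h6
        have h7 : v.Ge ((s - δ - (r - v (x 0)) / p ^ (N - a)) / p ^ n)
            ((Q c).eval (x n) * x (N + n) ^ c) := by
          refine (ge_pow_iff (v := v) (pow_pos hp.out.pos n)).1 ?_
          rw [hterm]
          push_cast
          rw [mul_div_cancel₀ _ hpn.ne']
          exact h6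
        have h8 : (Q c).eval (x n) * x (N + n) ^ c =
            (expand Ω (p ^ (N - a)) (Q c) * Polynomial.X ^ c').eval (x (n + (N - a))) := by
          have h9 := root_pow_add hT.root (n + (N - a)) a
          rw [show n + (N - a) + a = N + n by omega] at h9
          rw [eval_mul, ax_lift hT.root, eval_pow, eval_X, hcc, pow_mul, h9]
        rw [h8] at h7 ⊢
        have h9 : expand Ω (p ^ (N - a)) (Q c) * Polynomial.X ^ c' ∈ PI W :=
          mul_mem (expand_mem_PI (pow_pos hp.out.pos _) (hQ c)) (pow_mem X_mem_PI _)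
        refine Lim.weak (lim_poly hT hWC hx0 hN hvr.le h9 _ h7) (le_of_eq ?_)
        rw [pow_add]
        field_simp
        ring
    have e : u n = z + (u n - z) := by ring
    rw [e]
    refine Lim.add_r h5 fun ε hε => ⟨0, zero_mem _, ?_⟩
    rw [sub_zero]
    exact h4.mono (by linarith)
  exact
    { tgt := hT
      mem := hy
      root := hu
      far := by
        rintro ⟨a, ha, h2⟩
        rw [hE] at ha
        refine not_root_ge hTL ha ?_
        have e : a ^ p - u 0 = -(u 1 - a) ^ p := by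
          have h3 := hu 0
          rw [zero_add] at h3
          rw [sub_pow_char, h3]
          ring
        rw [e]
        refine ((ge_pow h2.ge p).mono (le_of_eq ?_)).neg
        rw [mul_div_cancel₀ _ hp0.ne']
      lim := fun n ε hε => by
        have hpn : (0 : ℝ) < (p : ℝ) ^ n := pow_pos hp0 n
        obtain ⟨δ, hδ, hδ1, hδ2⟩ : ∃ δ : ℝ, 0 < δ ∧ δ ≤ ε / 2 ∧ δ ≤ r - v (x 0) :=
          ⟨min (ε / 2) (r - v (x 0)), lt_min (by linarith) hb, min_le_left _ _, min_le_right _ _⟩
        obtain ⟨a, ha, h2⟩ := key n δ hδ hδ2 (ε / 2) (by linarith)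
        refine ⟨a, ha, h2.mono ?_⟩
        rw [sub_div]
        have h9 : δ / p ^ n ≤ ε / 2 := by
          refine (div_le_self hδ.le ?_).trans hδ1
          exact one_le_pow₀ (by exact_mod_cast hp.out.one_lt.le)
        linarith }

/-- **The tight pair over a tame closure.** -/
theorem pairWT [CharP k p] [IsAlgClosed k] [IsAlgClosed Ω] (h0 : Ctx0 k v) (hc : CompleteV v)
    (hr : ∀ n, X (n + 1) ^ p = X n) (hX : X 0 ≠ 0) (hneg : v (X 0) < 0) (hΓ : v (X 0) ∈ Γ)
    {u : ℕ → Ω} (hTL : TL v (EW v (WT k p v Γ (X 0)) X) (u 0) s)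
    (hCW : C = cadj v (WT k p v Γ (X 0)) (u 0)) (hT : Tgt p v C X r) (hvr : v (X 0) < r)
    (hu : ∀ n, u (n + 1) ^ p = u n) (hv : v.Ge (s - (r - v (X 0))) (u 0)) :
    TP p v C X u r s := by
  have hW : WT k p v Γ (X 0) ≤ C := by
    rw [hCW]
    exact le_cadj v _ _
  have hyC : u 0 ∈ C := by
    rw [hCW]
    exact self_mem_cadj v _ _
  have hE : EW v C X = cadj v (EW v (WT k p v Γ (X 0)) X) (u 0) := by
    refine le_antisymm (clI_le' (sup_le ?_ (IntermediateField.adjoin_le_iff.2 ?_))
      (cld_cadj v _ _)) (TWM.cadj_le EW.cld (EW.mono hW X) (EW.le hyC))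
    · rw [hCW]
      exact TWM.cadj_le (cld_cadj v _ _) (EW.le.trans (le_cadj v _ _)) (self_mem_cadj v _ _)
    · rintro _ ⟨n, rfl⟩
      exact le_cadj v _ _ (EW.mem n)
  exact pairWt0 h0 hc hT hX hvr hW (CPf.mem_WT hΓ) (CPf.WT.roots hc hX hΓ (hr 0))
    (nbx_of_vg h0 hc (cld_clI v _) hr hX (CPf.mem_WT hΓ) (CPf.WT.vg h0 hX hΓ hneg)) hu hyC hTL
    hE hv

end Pool.Agent.TWF
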