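import Pool.Agent.Lib.TWF.CovT
import Pool.Agent.Lib.TWJ2.NearH

/-!
# TANK W, the cover of the infinite first floor: row H

* `rowAlt`: finitely many jumps over `W` give an honest floor, of type (H) or (C).
-/

set_option autoImplicit false

namespace Pool.Agent.TWF

open Pool.Agent.TW (Ctx)
open Pool.Agent.TWM (CompleteV)
open Pool.Agent.TWJ2 (FJ)

universe u

/-- **Row H**, the alternatives. -/
theorem rowAlt (p : ℕ) [hp : Fact p.Prime] (k : Type u) [Field k] [IsAlgClosed k] [CharP k p] :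
    RowAlt p k := by
  intro Ω _ _ _ _ v h0 hc C₁ C x y s c₀ hB hF hFJ
  obtain ⟨W, t, y', s', h1⟩ := TWJ2.rowHon p k Ω v h0 hc C₁ C x y s c₀ hB hF hFJ
  exact TWJ2.alt_of_hon p h0.toCtx0 h1

end Pool.Agent.TWF
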