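import Pool.Agent.Lib.TWF.CovP
import Pool.Agent.Lib.TWF.CovX
import Pool.Agent.Lib.TWF.CPj
import Pool.Agent.Lib.TWJ2.NearH

/-!
# TANK W, the infinite first floor: tame base, the transport

* `RowTameS`: `x` is a coordinate with `v x / p` not a value of the base, the radius is rational, `Ω` is
  spherically complete, all the numbers are values;
* `StrZ.of_map`: infinitely many strict translations, from the image to the field;
* **`rowTame_of`**: `RowTameS p k → RowTame p k`.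
-/

set_option autoImplicit false

open Polynomial

namespace Pool.Agent.TWF

open Pool.Agent.H15JM (RVal)
open Pool.Agent.LU1 (VPos adj)
open Pool.Agent.D2 (Ctx0)
open Pool.Agent.D2P (hen clI mem_clI mem_adj_self)
open Pool.Agent.TW (Full BD PBasis Ctx HRone Mot)
open Pool.Agent.TWM
open Pool.Agent.TWS (IsoE VG TowR SphC RatV)
open Pool.Agent.TWC (CP EW RatR Tgt HasTP Dst vg_map)
open Pool.Agent.TWJ2 (FJ finf_map wx_map)

universe u

/-- **Row T8, the tame base**, rational radius, `Ω` spherically complete. -/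
def RowTameS (p : ℕ) [Fact p.Prime] (k : Type u) [Field k] : Prop :=
  ∀ (Ω : Type u) [Field Ω] [Algebra k Ω] [IsAlgClosed Ω] [CharP Ω p] (v : RVal Ω), Ctx0 k v →
    CompleteV v → SphC v → (∀ r : ℝ, ∃ c : Ω, c ≠ 0 ∧ v c = r) →
    ∀ (C : IntermediateField k Ω) (x y : Ω) (s c₀ : ℝ), FInf p v C x y s c₀ → RatV v C (v x) →
      v x < 0 → v x / p ∉ VG v (WX v C x) → RatR (v x) s →
        HasTP p v C ∨ StrW v (WX v C x) y s ∨ StrZ p v (WX v C x) C y s

section Map

variable {k Ω H : Type u} [Field k] [Field Ω] [Algebra k Ω] [Field H] [Algebra k H]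
  {v : RVal Ω} {w : RVal H} {ι : Ω →ₐ[k] H} {W C : IntermediateField k Ω} {p : ℕ} {y : Ω} {s : ℝ}

theorem StrW.of_map (h : IsoE v w ι) (hS : StrW w (W.map ι) (ι y) s) : StrW v W y s :=
  fun l hl => TWC.Sd.of_map h (hS l hl)

theorem RatV.map (h : IsoE v w ι) {γ : ℝ} (hR : RatV v C γ) : RatV w (C.map ι) γ := by
  intro g hg
  rw [vg_map h] at hg
  exact hR g hg

/-- **Strict translations of the image come from the field.** -/
theorem StrZ.of_map [IsAlgClosed Ω] (h : IsoE v w ι)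
    (hy : ∀ P ∈ PI W, P ≠ 0 → P.eval y ≠ 0) (hS : StrZ p w (W.map ι) (C.map ι) (ι y) s) :
    StrZ p v W C y s := by
  obtain ⟨c', m, hm, hc, hc0, hcs, hall⟩ := hS
  have hm0 : m ≠ 0 := fun h0 => hm (h0 ▸ dvd_zero p)
  have halg : IsAlgebraic (C.map ι) c' :=
    IsAlgebraic.of_pow (Nat.pos_of_ne_zero hm0)
      (isAlgebraic_algebraMap (⟨c' ^ m, hc⟩ : C.map ι))
  obtain ⟨c, rfl⟩ := Dense.exists_of_isAlgebraic halg
  have hc0' : c ≠ 0 := fun h0 => hc0 (by rw [h0, map_zero])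
  rw [← map_pow] at hc
  rw [h.val c hc0'] at hcs
  refine ⟨c, m, hm, TWC.mem_of_map hc, hc0', hcs, fun n => ?_⟩
  obtain ⟨Θ, hΘ, hζ⟩ := hall n
  refine ⟨Θ, hΘ, fun ζ hz => ?_⟩
  obtain ⟨μ, hμ, hP⟩ := hζ ζ hz
  refine ⟨μ, hμ, fun P hP' => ?_⟩
  rcases eq_or_ne P 0 with rfl | hP0
  · rw [eval_zero, eval_zero, sub_zero]
    exact fun h0 => absurd rfl h0
  have h1 := hP (P.map ι.toRingHom) fun i => by
    rw [coeff_map]
    exact ⟨_, hP' i, rfl⟩
  have e1 : ∀ a : Ω, (P.map ι.toRingHom).eval (ι a) = ι (P.eval a) := by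
    intro a
    rw [eval_map]
    exact (hom_eval₂ P (RingHom.id Ω) ι.toRingHom a).symm
  have e2 : ι y + algebraMap k H ζ * ι c = ι (y + algebraMap k Ω ζ * c) := by
    rw [map_add, map_mul, AlgHom.commutes]
  rw [e2, e1, e1, ← map_sub, h.val _ (hy P hP' hP0)] at h1
  exact h.ge_iff.1 h1

end Map

section Top

variable {k Ω : Type u} [Field k] [Field Ω] [Algebra k Ω] {v : RVal Ω}
  {C : IntermediateField k Ω} {x y : Ω} {s c₀ : ℝ} {p : ℕ} [hp : Fact p.Prime] [CharP Ω p]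
  [IsAlgClosed Ω]

theorem FInf.eval_ne (h : FInf p v C x y s c₀) {P : Polynomial Ω} (hP : P ∈ PI (WX v C x))
    (hP0 : P ≠ 0) : P.eval y ≠ 0 :=
  h.tl.eval_ne (PI_mono ((WX_le_EX p).trans (le_algc _)) hP) hP0

end Top

/-- **Row T8, the tame base**, from the spherically complete case. -/
theorem rowTame_of {p : ℕ} [hp : Fact p.Prime] {k : Type u} [Field k] [IsAlgClosed k] [CharP k p]
    (hS : RowTameS p k) : RowTame p k := by
  intro Ω _ _ _ _ v hctx hc C₁ C x y s c₀ _ hF hd _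
  have h0 := hctx.toCtx0
  obtain ⟨t, c₁, hF', -, htneg, htV⟩ := hF.exists_unif h0 hc hd
  by_cases hr : RatR (v t) s
  · obtain ⟨φ, hφ⟩ := TWS.exists_emb (k := k) h0
    have hI : IsoE v (TWS.hv k) φ := ⟨hφ⟩
    have : CharP (TWS.HF k) p :=
      charP_of_injective_algebraMap (algebraMap k (TWS.HF k)).injective p
    have hvt : TWS.hv k (φ t) = v t := hφ t hF'.x0
    have h1 := hS (TWS.HF k) (TWS.hv k) (TWS.ctx0_hv k) (TWS.completeV_hv k) (TWS.sphC_hv k)
      (TWS.exists_val k) (C.map φ) (φ t) (φ y) s c₁ (finf_map hI hc hF')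
      (by
        rw [hvt]
        exact RatV.map hI (TWC.ratv_of_ctx hctx hF'.x0 hF'.vx C))
      (by rwa [hvt])
      (by
        rw [hvt, wx_map hI hc, vg_map hI]
        exact htV)
      (by rwa [hvt])
    rw [wx_map hI hc] at h1
    rcases h1 with h1 | h1 | h1
    · exact .inl (h1.of_map hI hc)
    · exact .inr (.inr (.inr (.inl (hF'.altR h0 hc (StrW.of_map hI h1) hr))))
    · exact .inr (.inr (.inr (.inr (.inl (hF'.altZ h0 hc
        (StrZ.of_map hI (fun P hP hP0 => hF'.eval_ne hP hP0) h1))))))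
  · rcases CPf.FInf.strW_or_hasTPn hctx hc hF' htV hr with h1 | h1
    · exact .inr (.inr (.inl (hF'.altS h0 hc h1 hr)))
    · exact .inl h1.hasTP

end Pool.Agent.TWF
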