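import Pool.Agent.Lib.TWC.Tame
import Pool.Agent.Lib.TWF.CPi

/-!
# TANK W, the infinite first floor over a tame base: the descent of the end of the loop

`P` closed and perfect, `Z ^ N ∈ P`, the values of `Z ^ j`, `N ∤ j`, are not those of `P` (`GD`).
`K = cadj v (WT (X 0)) y`, `X` tight in `K`, `X 0 * Z ^ a ∈ P`, `y * Z ^ c ∈ P`: the fixed field
`K ⊓ P` has tight pairs (`GD.hasTPn_of_prt`).
-/

set_option autoImplicit false

open Polynomial

namespace Pool.Agent.TWF.TamE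

open Pool.Agent.H15JM (RVal)
open Pool.Agent.LU1 (VPos adj)
open Pool.Agent.D2 (Ctx0)
open Pool.Agent.D2P (clI mem_clI mem_adj_self adj_le)
open Pool.Agent.TW (Ctx)
open Pool.Agent.TWM Pool.Agent.TWM.C
open Pool.Agent.TWS (VG)
open Pool.Agent.TWC
open Pool.Agent.TWC.PW (WT RS PRT)
open Pool.Agent.TWF.CPf

universe u

variable {k Ω : Type u} [Field k] [Field Ω] [Algebra k Ω] {v : RVal Ω}
  {P C D K W B : IntermediateField k Ω} {Z x y f : Ω} {N : ℕ} {Γ : AddSubgroup ℝ} {p m : ℕ}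

/-! ### Degrees -/

theorem zpow_mem_of_dvd (hG : GD v P Z N) {j : ℤ} (h : (N : ℤ) ∣ j) : Z ^ j ∈ P := by
  obtain ⟨i, rfl⟩ := h
  rw [zpow_mul, zpow_natCast]
  exact zpow_mem hG.pw i

theorem mem_vg_zpow (hG : GD v P Z N) {j : ℤ} (h : (N : ℤ) ∣ j) : (j : ℝ) * v Z ∈ VG v P := by
  rw [← v.map_zpow hG.ne]
  exact VG.self (zpow_mem_of_dvd hG h) (zpow_ne_zero _ hG.ne)

theorem val_of_deg (hG : GD v P Z N) (hf : f ≠ 0) {j : ℤ} (h : f * Z ^ (-j) ∈ P) :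
    v f - j * v Z ∈ VG v P := by
  have h1 := VG.self (v := v) h (mul_ne_zero hf (zpow_ne_zero _ hG.ne))
  rw [v.map_mul hf (zpow_ne_zero _ hG.ne), v.map_zpow hG.ne] at h1
  have e : v f - j * v Z = v f + ((-j : ℤ) : ℝ) * v Z := by
    push_cast
    ring
  rw [e]
  exact h1

/-- A root of order prime to `p`, with value in `VG v P`. -/
theorem root_in [IsAlgClosed Ω] [IsAlgClosed k] [CharP k p] (h0 : Ctx0 k v) (hP : Cld v P)
    (hf : f ≠ 0) (hm : ¬ p ∣ m) (h1 : f ^ m ∈ P) (hv : v f ∈ VG v P) : f ∈ P :=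
  TWTam.root_mem h0 hP h1 ⟨hf, m, hm, 1, by rw [zpow_one]⟩ hv

/-- **The tame roots of a homogeneous element are homogeneous.** -/
theorem exists_deg [IsAlgClosed Ω] [IsAlgClosed k] [CharP k p] (h0 : Ctx0 k v)
    (hG : GD v P Z N) (hΓ : ∀ g ∈ Γ, ∃ j : ℤ, g - j * v Z ∈ VG v P) (hx : x ≠ 0)
    (hxP : ∃ a : ℤ, x * Z ^ a ∈ P) (hf : TR p v Γ x m f) : ∃ j : ℤ, f * Z ^ (-j) ∈ P := by
  obtain ⟨a, ha⟩ := hxP
  obtain ⟨j, hj⟩ := hΓ _ hf.val
  have hf0 := hf.ne hx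
  have hz : ∀ i : ℤ, Z ^ i ≠ 0 := fun i => zpow_ne_zero _ hG.ne
  refine ⟨j, root_in h0 hG.cld (mul_ne_zero hf0 (hz _)) hf.nd ?_ ?_⟩
  · have e1 : (f * Z ^ (-j)) ^ m = x * Z ^ a * Z ^ (-j * m - a) := by
      rw [mul_pow, hf.pow, ← zpow_natCast (Z ^ (-j)) m, ← zpow_mul, mul_assoc,
        ← zpow_add₀ hG.ne]
      congr 2
      ring
    have h1 : ((-j * m - a : ℤ) : ℝ) * v Z ∈ VG v P := by
      have h2 := VG.self (v := v) ha (mul_ne_zero hx (hz _))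
      rw [v.map_mul hx (hz _), v.map_zpow hG.ne] at h2
      have h3 : (m : ℝ) * (v f - j * v Z) ∈ VG v P := by
        rw [← nsmul_eq_mul]
        exact (VG v P).nsmul_mem hj m
      have h4 := hf.mul_val hx
      have e : ((-j * m - a : ℤ) : ℝ) * v Z = m * (v f - j * v Z) - (v x + a * v Z) := by
        rw [← h4]
        push_cast
        ring
      rw [e]
      exact sub_mem h3 h2
    rw [e1]
    exact mul_mem ha (zpow_mem_of_dvd hG (hG.val _ h1))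
  · rw [v.map_mul hf0 (hz _), v.map_zpow hG.ne]
    have e : v f + ((-j : ℤ) : ℝ) * v Z = v f - j * v Z := by
      push_cast
      ring
    rw [e]
    exact hj

/-- The degree of `f` is prime to `N` if `v Z` is a multiple of `v f / p ^ e`. -/
theorem isCoprime_deg [hp : Fact p.Prime] (hG : GD v P Z N) (hN : ¬ p ∣ N) (hf : f ≠ 0) {j : ℤ}
    (hj : f * Z ^ (-j) ∈ P) {e : ℕ} {m : ℤ} (he : (p : ℝ) ^ e * v Z = m * v f) :
    IsCoprime j (N : ℤ) := by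
  have h1 := val_of_deg hG hf hj
  have h2 : (((p : ℤ) ^ e - m * j : ℤ) : ℝ) * v Z ∈ VG v P := by
    have h3 : (m : ℝ) * (v f - j * v Z) ∈ VG v P := by
      rw [← zsmul_eq_mul]
      exact (VG v P).zsmul_mem h1 m
    have e1 : (((p : ℤ) ^ e - m * j : ℤ) : ℝ) * v Z = m * (v f - j * v Z) := by
      push_cast
      rw [sub_mul, he]
      ring
    rw [e1]
    exact h3
  obtain ⟨i, hi⟩ := hG.val _ h2
  have hNp : IsCoprime (p : ℤ) (N : ℤ) :=
    Nat.isCoprime_iff_coprime.2 ((Nat.Prime.coprime_iff_not_dvd hp.out).2 hN)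
  have h3 : IsCoprime ((p : ℤ) ^ e) (N : ℤ) := hNp.pow_left
  have h4 : IsCoprime (m * j) (N : ℤ) := by
    have e2 : m * j = (p : ℤ) ^ e + (N : ℤ) * (-i) := by linear_combination -hi
    rw [e2]
    exact h3.add_mul_left_left (-i)
  exact h4.of_mul_left_right

/-- Another generator. -/
theorem gd_of_deg (hG : GD v P Z N) (hf : f ≠ 0) {j : ℤ} (hj : f * Z ^ (-j) ∈ P)
    (hc : IsCoprime j (N : ℤ)) : GD v P f N := by
  refine ⟨hG.cld, hG.pos, hf, ?_, fun i hi => ?_⟩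
  · have e : f ^ N = (f * Z ^ (-j)) ^ N * Z ^ (j * N) := by
      rw [mul_pow, ← zpow_natCast (Z ^ (-j)) N, ← zpow_mul, mul_assoc, ← zpow_add₀ hG.ne]
      rw [show -j * (N : ℤ) + j * N = 0 by ring, zpow_zero, mul_one]
    rw [e]
    exact mul_mem (pow_mem hj N) (zpow_mem_of_dvd hG (dvd_mul_left _ _))
  · have h1 := val_of_deg hG hf hj
    have h2 : ((i * j : ℤ) : ℝ) * v Z ∈ VG v P := by
      have h3 : (i : ℝ) * (v f - j * v Z) ∈ VG v P := by
        rw [← zsmul_eq_mul]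
        exact (VG v P).zsmul_mem h1 i
      have e : ((i * j : ℤ) : ℝ) * v Z = i * v f - i * (v f - j * v Z) := by
        push_cast
        ring
      rw [e]
      exact sub_mem hi h3
    exact hc.symm.dvd_of_dvd_mul_right (hG.val _ h2)

/-- The degrees with respect to the other generator. -/
theorem exists_deg' (hG : GD v P Z N) (hf : f ≠ 0) {j : ℤ} (hj : f * Z ^ (-j) ∈ P)
    (hc : IsCoprime j (N : ℤ)) {c : ℤ} (hy : y * Z ^ c ∈ P) : ∃ c' : ℤ, y * f ^ c' ∈ P := by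
  obtain ⟨a, b, hab⟩ := hc
  -- `c = a j c + b N c`
  refine ⟨a * c, ?_⟩
  have hz : Z ≠ 0 := hG.ne
  have e : y * f ^ (a * c) = y * Z ^ c * (f * Z ^ (-j)) ^ (a * c) * Z ^ ((N : ℤ) * (-(b * c))) := by
    rw [mul_zpow, ← zpow_mul]
    have e1 : y * Z ^ c * (f ^ (a * c) * Z ^ (-j * (a * c))) * Z ^ ((N : ℤ) * (-(b * c))) =
        y * f ^ (a * c) * (Z ^ c * Z ^ (-j * (a * c)) * Z ^ ((N : ℤ) * (-(b * c)))) := by ring
    rw [e1, ← zpow_add₀ hz, ← zpow_add₀ hz]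
    have e2 : c + -j * (a * c) + (N : ℤ) * (-(b * c)) = 0 := by
      linear_combination -c * hab
    rw [e2, zpow_zero, mul_one]
  rw [e]
  exact mul_mem (mul_mem hy (zpow_mem hj _)) (zpow_mem_of_dvd hG (dvd_mul_right _ _))

theorem vg_deg' (hG : GD v P Z N) (hf : f ≠ 0) {j : ℤ} (hj : f * Z ^ (-j) ∈ P)
    (hc : IsCoprime j (N : ℤ)) {g : ℝ} (hg : ∃ i : ℤ, g - i * v Z ∈ VG v P) :
    ∃ i : ℤ, g - i * v f ∈ VG v P := by
  obtain ⟨i, hi⟩ := hg
  obtain ⟨a, b, hab⟩ := hc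
  refine ⟨i * a, ?_⟩
  have h1 := val_of_deg hG hf hj
  have h2 : ((i * a : ℤ) : ℝ) * (v f - j * v Z) ∈ VG v P := by
    rw [← zsmul_eq_mul]
    exact (VG v P).zsmul_mem h1 _
  have h3 : (((N : ℤ) * (i * b) : ℤ) : ℝ) * v Z ∈ VG v P := mem_vg_zpow hG (dvd_mul_right _ _)
  have e : g - ((i * a : ℤ) : ℝ) * v f = (g - i * v Z) - ((i * a : ℤ) : ℝ) * (v f - j * v Z) +
      (((N : ℤ) * (i * b) : ℤ) : ℝ) * v Z := by
    have hab' : (a : ℝ) * j + b * N = 1 := by exact_mod_cast hab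
    push_cast
    linear_combination (-(i : ℝ) * v Z) * hab'
  rw [e]
  exact add_mem (sub_mem hi h2) h3

end Pool.Agent.TWF.TamE
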