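import Pool.Agent.Lib.TWC.Tame
import Pool.Agent.Lib.TWC.TPb

/-!
# TANK W, the infinite first floor: tight pairs and tame descent

* `TP.mul_w`: `(x, w)` a tight pair with `s - v(w) ≤ r - v(x)`, then `(x, w x ^ d)` is a tight pair;
* `GD.tp`: a tight pair of `C = D(Z)`, `D = C ⊓ P`, with elements of `P`, is a tight pair of `D`.
-/

set_option autoImplicit false

open Polynomial

namespace Pool.Agent.TWC

open Pool.Agent.H15JM (RVal)
open Pool.Agent.LU1 (adj)
open Pool.Agent.D2 (Ctx0)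
open Pool.Agent.D2P (clI mem_clI)
open Pool.Agent.TWM

universe u

variable {k Ω : Type u} [Field k] [Field Ω] [Algebra k Ω] {v : RVal Ω}

section Mul

variable {p : ℕ} [hp : Fact p.Prime] [IsAlgClosed Ω] {L : IntermediateField k Ω} {x w : ℕ → Ω}
  {r s : ℝ}

/-- **The other element times a power of `x`.** -/
theorem TP.mul_w (h : TP p v L x w r s) (hx0 : x 0 ≠ 0) (hvr : v (x 0) < r)
    (hw : v.Ge (s - (r - v (x 0))) (w 0)) (d : ℤ) :
    TP p v L x (fun n => w n * x n ^ d) r (s + d * v (x 0)) where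
  tgt := h.tgt
  mem := mul_mem h.mem (zpow_mem h.tgt.mem d)
  root n := by
    rw [mul_pow, h.root, zpow_root h.tgt.root]
  far := by
    have hp0 : (0 : ℝ) < p := by exact_mod_cast hp.out.pos
    rintro ⟨a, ha, h1⟩
    obtain ⟨hx1, hv1⟩ := val_root_t (v := v) h.tgt.root hx0 1
    refine h.far ⟨(x 1 ^ d)⁻¹ * a, mul_mem (inv_mem (zpow_mem (EW.mem 1) d)) ha, ?_⟩
    have h2 := gt_mul_left (x 1 ^ d)⁻¹ h1
    have hne : x 1 ^ d ≠ 0 := zpow_ne_zero d hx1
    rw [v.map_inv hne, map_zpow' hx1, hv1] at h2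
    have e : (x 1 ^ d)⁻¹ * (w 1 * x 1 ^ d - a) = w 1 - (x 1 ^ d)⁻¹ * a := by
      field_simp
    rw [e] at h2
    refine h2.mono (le_of_eq ?_)
    rw [pow_one]
    field_simp
    ring
  lim n := by
    have hp0 : (0 : ℝ) < p := by exact_mod_cast hp.out.pos
    have hpn : (0 : ℝ) < (p : ℝ) ^ n := pow_pos hp0 n
    intro ε hε
    obtain ⟨hxn, hvn⟩ := val_root_t (v := v) h.tgt.root hx0 n
    set δ := (r - v (x 0)) / p ^ n with hδ
    have hδ0 : 0 < δ := div_pos (by linarith) hpn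
    obtain ⟨c, hc, h1⟩ := h.lim_x n (min ε (δ / 2)) (by positivity)
    obtain ⟨a, ha, h2⟩ := h.lim n ε hε
    have hmin := min_le_left ε (δ / 2)
    have hmin' := min_le_right ε (δ / 2)
    have hδε : 0 < δ - min ε (δ / 2) := by linarith
    have hr : r / p ^ n = v (x n) + δ := by
      rw [hvn, hδ, ← add_div]
      ring_nf
    have h3 := rel_ge d hxn hδε (h1.mono (by rw [hr]; linarith))
    have h4 : v.Ge (v (x n ^ d)) (x n ^ d) := v.ge_self _
    have h5 : v.Ge ((s - (r - v (x 0))) / p ^ n) (w n) := by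
      rw [← ge_pow_iff (N := p ^ n) (pow_pos hp.out.pos n)]
      have hroot : w n ^ p ^ n = w 0 := by
        have := root_pow_add h.root 0 n
        rwa [zero_add] at this
      rw [hroot]
      push_cast
      rwa [mul_div_cancel₀ _ hpn.ne']
    refine ⟨a * c ^ d, mul_mem ha (zpow_mem hc d), ?_⟩
    have hvd : v (x n ^ d) = d * v (x 0) / p ^ n := by
      rw [map_zpow' hxn, hvn, mul_div_assoc]
    have e : w n * x n ^ d - a * c ^ d = (w n - a) * x n ^ d + (w n * (x n ^ d - c ^ d) -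
        (w n - a) * (x n ^ d - c ^ d)) := by ring
    have es : (s - (r - v (x 0))) / p ^ n = s / p ^ n - δ := by
      rw [hδ, ← sub_div]
    have et : (s + d * v (x 0)) / p ^ n = s / p ^ n + d * v (x 0) / p ^ n := by
      rw [← add_div]
    rw [e, et]
    rw [hvd] at h3 h4
    rw [es] at h5
    refine ((h2.mul h4).mono (by linarith)).add (((h5.mul h3).mono (by linarith)).sub
      ((h2.mul h3).mono (by linarith)))

end Mul

section Desc

variable {p : ℕ} [hp : Fact p.Prime] [CharP Ω p] {P C : IntermediateField k Ω} {Z : Ω} {N : ℕ}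
  {x w : ℕ → Ω} {r s : ℝ}

/-- The roots of an element of a perfect field. -/
theorem root_mem_P (hP : ∀ a ∈ P, ∃ b ∈ P, b ^ p = a) (hr : ∀ n, x (n + 1) ^ p = x n)
    (h : x 0 ∈ P) (n : ℕ) : x n ∈ P := by
  induction n with
  | zero => exact h
  | succ n ih =>
    obtain ⟨b, hb, h1⟩ := hP _ ih
    have h2 : x (n + 1) = b := frobenius_inj Ω p (by
      rw [frobenius_def, frobenius_def, hr, h1])
    rw [h2]
    exact hb

/-- **A tight pair of `C` with elements of `P` is a tight pair of `C ⊓ P`.** -/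
theorem GD.tp [IsAlgClosed Ω] (hG : GD v P Z N) (hP : ∀ a ∈ P, ∃ b ∈ P, b ^ p = a) (hC : adj (C ⊓ P) Z = C)
    (hZ : Z ^ N ∈ C) (h : TP p v C x w r s) (hx : x 0 ∈ P) (hw : w 0 ∈ P) :
    TP p v (C ⊓ P) x w r s := by
  have hlim : ∀ (ρ : ℝ) (y : Ω), y ∈ P → Lim v C ρ y → Lim v (C ⊓ P) ρ y := by
    intro ρ y hy hl ε hε
    obtain ⟨a, ha, h1⟩ := hl ε hε
    rw [← hC] at ha
    exact hG.near inf_le_right ⟨hZ, hG.pw⟩ ha hy h1
  have hxP := root_mem_P hP h.tgt.root hx
  have hwP := root_mem_P hP h.root hw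
  exact
    { tgt :=
        { cld := cld_inf_tgt h.tgt.cld hG.cld
          mem := ⟨h.tgt.mem, hx⟩
          root := h.tgt.root
          dst := fun n => by
            refine ⟨fun ⟨a, ha, h1⟩ => (h.tgt.dst n).far ⟨a, ha.1, h1⟩, ?_⟩
            exact hlim _ _ (hxP (n + 1)) (h.tgt.dst n).near }
      mem := ⟨h.mem, hw⟩
      root := h.root
      far := fun ⟨a, ha, h1⟩ => h.far ⟨a, EW.mono inf_le_left x ha, h1⟩
      lim := fun n => hlim _ _ (hwP n) (h.lim n) }

end Desc

end Pool.Agent.TWC
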