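import Pool.Agent.Lib.TWF.TamD
import Pool.Agent.Lib.TWF.TamE
import Pool.Agent.Lib.TWF.TamT
import Pool.Agent.Lib.TWF.PairX
import Pool.Agent.Lib.TWF.GenS
import Pool.Agent.Lib.TWF.CPg
import Pool.Agent.Lib.TWC.PWh

/-!
# TANK W, the infinite first floor over a tame base: the two ends of the loop

`P` closed and perfect, `Z ^ N ∈ P`, `GD v P Z N`; `K = cadj v (WT (X 0)) y`, `X` tight in `K` of level
`r`, `v y ≥ v (X 0) - r`, `X 0 * Z ^ a ∈ P`, `y * Z ^ c ∈ P`: `(X, y)` is a tight pair of `K`, and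
`(z ^ (-N), y z ^ d)` is a tight pair of the fixed field `K ⊓ P` (`exists_tp`), `z` a tame root of
`X 0`.

* `hasTPn_of_prt`: the integral end; * `hasTPn_of_deep`: the end with deep elements.
-/

set_option autoImplicit false

open Polynomial

namespace Pool.Agent.TWF.TamE

open Pool.Agent.H15JM (RVal)
open Pool.Agent.LU1 (VPos adj)
open Pool.Agent.D2 (Ctx0)
open Pool.Agent.D2P (clI mem_clI mem_adj_self adj_le)
open Pool.Agent.TWM Pool.Agent.TWM.C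
open Pool.Agent.TWS (VG RatV)
open Pool.Agent.TWC
open Pool.Agent.TWC.PF (Lm)
open Pool.Agent.TWC.PW (WT ST RS PRT Hg Eig Lm_ST_ge ev_one)
open Pool.Agent.TWF.CPf

universe u

variable {k Ω : Type u} [Field k] [Field Ω] [Algebra k Ω] {v : RVal Ω}
  {P C D K : IntermediateField k Ω} {Z x y f z z₀ a : Ω} {N : ℕ} {Γ : AddSubgroup ℝ} {p l m : ℕ}
  {σ : Ω →ₐ[k] Ω} {ζ ξ : k} {γ r : ℝ} {c d : ℤ} {X : ℕ → Ω}

/-! ### Fixed elements -/

/-- The fixed elements of `P(Z)`. -/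
theorem fixed_mem (hG : GD v P Z N) (hζ : IsPrimitiveRoot ζ N) (hfix : ∀ a ∈ P, σ a = a)
    (hZ : σ Z = algebraMap k Ω ζ * Z) (ha : a ∈ adj P Z) (h : σ a = a) : a ∈ P := by
  obtain ⟨g, hg, rfl⟩ := exists_sum hG.pos hG.pw ha
  have h1 : σ (∑ j ∈ Finset.range N, g j * Z ^ j) =
      ∑ j ∈ Finset.range N, g j * algebraMap k Ω (ζ ^ j) * Z ^ j := by
    rw [map_sum]
    refine Finset.sum_congr rfl fun j _ => ?_
    rw [map_mul, map_pow, hfix _ (hg j), hZ, mul_pow, map_pow]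
    ring
  have h2 : (0 : Ω) = ∑ j ∈ Finset.range N, (g j * (algebraMap k Ω (ζ ^ j) - 1)) * Z ^ j := by
    have h3 : ∑ j ∈ Finset.range N, (g j * (algebraMap k Ω (ζ ^ j) - 1)) * Z ^ j =
        ∑ j ∈ Finset.range N, g j * algebraMap k Ω (ζ ^ j) * Z ^ j -
          ∑ j ∈ Finset.range N, g j * Z ^ j := by
      rw [← Finset.sum_sub_distrib]
      refine Finset.sum_congr rfl fun j _ => ?_
      ring
    rw [h3, ← h1, h, sub_self]
  have h3 : ∀ j, 0 < j → j < N → g j = 0 := by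
    intro j hj hjN
    have h4 : ∀ c : ℝ, v.Ge c ((g j * (algebraMap k Ω (ζ ^ j) - 1)) * Z ^ j) := by
      intro c
      refine hG.orth (f := fun j => g j * (algebraMap k Ω (ζ ^ j) - 1)) (fun j => mul_mem (hg j)
        (sub_mem (P.algebraMap_mem _) (one_mem _))) ?_ hjN
      rw [← h2]
      exact RVal.Ge.zero
    have h5 : (g j * (algebraMap k Ω (ζ ^ j) - 1)) * Z ^ j = 0 := by
      by_contra hne
      have := h4 (v ((g j * (algebraMap k Ω (ζ ^ j) - 1)) * Z ^ j) + 1) hne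
      linarith
    rcases mul_eq_zero.1 h5 with h6 | h6
    · rcases mul_eq_zero.1 h6 with h7 | h7
      · exact h7
      · exfalso
        have h8 : ζ ^ j = 1 := by
          have h9 : algebraMap k Ω (ζ ^ j) = algebraMap k Ω 1 := by
            rw [map_one]
            exact sub_eq_zero.1 h7
          exact (algebraMap k Ω).injective h9
        exact hζ.pow_ne_one_of_pos_of_lt hj.ne' hjN h8
    · exact absurd h6 (pow_ne_zero _ hG.ne)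
  obtain ⟨M, hM⟩ := Nat.exists_eq_succ_of_ne_zero hG.pos.ne'
  have h4 : ∑ j ∈ Finset.range N, g j * Z ^ j = g 0 := by
    rw [hM, Nat.succ_eq_add_one, Finset.sum_range_succ', pow_zero, mul_one]
    rw [Finset.sum_eq_zero fun j hj => ?_, zero_add]
    rw [h3 (j + 1) (Nat.succ_pos j) (by
      have := Finset.mem_range.1 hj
      omega), zero_mul]
  rw [h4]
  exact hg 0

theorem ev_zpow (hZ : σ Z = algebraMap k Ω ζ * Z) (i : ℤ) :
    σ (Z ^ i) = algebraMap k Ω (ζ ^ i) * Z ^ i := by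
  rw [map_zpow₀, hZ, mul_zpow, map_zpow₀]

/-- **The eigenvectors are homogeneous.** -/
theorem mem_of_eig (hG : GD v P Z N) (hζ : IsPrimitiveRoot ζ N) (hfix : ∀ a ∈ P, σ a = a)
    (hZ : σ Z = algebraMap k Ω ζ * Z) (ha : a ∈ adj P Z) (h : σ a = algebraMap k Ω ξ * a)
    (hξ : ξ ^ N = 1) : ∃ c : ℤ, a * Z ^ c ∈ P := by
  have : NeZero N := ⟨hG.pos.ne'⟩
  obtain ⟨i, -, hi⟩ := hζ.eq_pow_of_pow_eq_one hξ
  have hZa : Z ∈ adj P Z := (mem_adj_self _ _).1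
  have hζ0 : ζ ≠ 0 := hζ.ne_zero hG.pos.ne'
  refine ⟨-i, fixed_mem hG hζ hfix hZ (mul_mem ha (zpow_mem hZa _)) ?_⟩
  rw [map_mul, h, ev_zpow hZ, ← hi]
  have e : algebraMap k Ω (ζ ^ i) * algebraMap k Ω (ζ ^ (-(i : ℤ))) = 1 := by
    rw [← map_mul, zpow_neg, zpow_natCast, mul_inv_cancel₀ (pow_ne_zero _ hζ0), map_one]
  linear_combination (a * Z ^ (-(i : ℤ))) * e

/-- The same eigenvalue, the same degree. -/
theorem mem_of_eig' (hG : GD v P Z N) (hζ : IsPrimitiveRoot ζ N) (hfix : ∀ a ∈ P, σ a = a)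
    (hZ : σ Z = algebraMap k Ω ζ * Z) (hy0 : y ≠ 0) (hy : y * Z ^ c ∈ P)
    (h : σ y = algebraMap k Ω ξ * y) (ha : a ∈ adj P Z) (h' : σ a = algebraMap k Ω ξ * a) :
    a * Z ^ c ∈ P := by
  have hZa : Z ∈ adj P Z := (mem_adj_self _ _).1
  refine fixed_mem hG hζ hfix hZ (mul_mem ha (zpow_mem hZa _)) ?_
  have h1 := hfix _ hy
  rw [map_mul, h, ev_zpow hZ] at h1
  have h2 : y * Z ^ c ≠ 0 := mul_ne_zero hy0 (zpow_ne_zero _ hG.ne)
  have e : algebraMap k Ω ξ * algebraMap k Ω (ζ ^ c) = 1 := by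
    refine mul_right_cancel₀ h2 ?_
    linear_combination h1
  rw [map_mul, h', ev_zpow hZ]
  linear_combination (a * Z ^ c) * e

/-! ### Values -/

/-- The values are commensurable. -/
theorem rat_of (hG : GD v P Z N) (hrat : RatV v P γ)
    (hΓ : ∀ g ∈ Γ, ∃ j : ℤ, g - j * v Z ∈ VG v P) {g g' : ℝ} (hg : g ∈ Γ) (hg' : g' ∈ Γ)
    (h0 : g' ≠ 0) : ∃ n : ℤ, n ≠ 0 ∧ ∃ m : ℤ, (n : ℝ) * g = m * g' := by
  have key : ∀ g ∈ Γ, ∃ n : ℕ, n ≠ 0 ∧ ∃ m : ℤ, (n : ℝ) * (N * g) = m * γ := by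
    intro g hg
    obtain ⟨j, hj⟩ := hΓ g hg
    refine hrat _ ?_
    have h1 : ((N * j : ℤ) : ℝ) * v Z ∈ VG v P := mem_vg_zpow hG (dvd_mul_right _ _)
    have h2 : (N : ℝ) * (g - j * v Z) ∈ VG v P := by
      rw [← nsmul_eq_mul]
      exact (VG v P).nsmul_mem hj N
    have e : (N : ℝ) * g = N * (g - j * v Z) + ((N * j : ℤ) : ℝ) * v Z := by
      push_cast
      ring
    rw [e]
    exact add_mem h2 h1
  obtain ⟨n₁, hn₁, m₁, h1⟩ := key g hg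
  obtain ⟨n₂, hn₂, m₂, h2⟩ := key g' hg'
  have hN0 : (N : ℝ) ≠ 0 := by exact_mod_cast hG.pos.ne'
  have hn₂R : (n₂ : ℝ) ≠ 0 := by exact_mod_cast hn₂
  have hm₂ : m₂ ≠ 0 := by
    rintro rfl
    rw [Int.cast_zero, zero_mul] at h2
    exact mul_ne_zero hn₂R (mul_ne_zero hN0 h0) h2
  refine ⟨m₂ * n₁ * N, mul_ne_zero (mul_ne_zero hm₂ (by exact_mod_cast hn₁))
    (by exact_mod_cast hG.pos.ne'), m₁ * n₂ * N, ?_⟩
  push_cast
  linear_combination (m₂ : ℝ) * h1 - (m₁ : ℝ) * h2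

/-- A tame root whose value divides `p ^ e v Z`. -/
theorem exists_root_deg [hp : Fact p.Prime] [IsAlgClosed Ω] (hx : x ≠ 0) (hxΓ : v x ∈ Γ)
    (hZΓ : v Z ∈ Γ) {n m : ℤ} (hn : n ≠ 0) (h : (n : ℝ) * v Z = m * v x) :
    ∃ (e l : ℕ) (z : Ω), TR p v Γ x l z ∧ ∃ q : ℤ, (p : ℝ) ^ e * v Z = q * v z := by
  obtain ⟨n', hn', hnn⟩ := (FiniteMultiplicity.of_prime_left
    (Nat.prime_iff_prime_int.1 hp.out) hn).exists_eq_pow_mul_and_not_dvd
  set e := multiplicity (p : ℤ) n with he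
  have hβ : (p : ℝ) ^ e * v Z ∈ Γ := by
    have h1 := Γ.nsmul_mem hZΓ (p ^ e)
    rw [nsmul_eq_mul] at h1
    push_cast at h1
    exact h1
  have hn'0 : n' ≠ 0 := fun h1 => hnn (h1 ▸ dvd_zero _)
  obtain ⟨τ, hτ, a, b, ha0, -, han, hxa, hZb⟩ := exists_cmeas (n := n') (m := m) hxΓ hβ hn'0 (by
    rw [← h, hn']
    push_cast
    ring)
  have ha : ¬ (p : ℤ) ∣ a := fun h1 => hnn (h1.trans han)
  set l : ℕ := a.natAbs with hl
  have hlp : ¬ p ∣ l := fun h1 => ha (Int.natCast_dvd.2 h1)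
  have hl0 : l ≠ 0 := fun h1 => hlp (h1 ▸ dvd_zero _)
  have hlR : (l : ℝ) ≠ 0 := by exact_mod_cast hl0
  obtain ⟨σ, hσ, haσ⟩ : ∃ σ : ℤ, σ * σ = 1 ∧ a = σ * l := by
    rcases Int.natAbs_eq a with h1 | h1
    · exact ⟨1, one_mul _, by rw [one_mul]; exact h1⟩
    · exact ⟨-1, by norm_num, by rw [neg_one_mul]; exact h1⟩
  have hσR : (σ : ℝ) * σ = 1 := by exact_mod_cast hσ
  obtain ⟨z, hz⟩ := IsAlgClosed.exists_pow_nat_eq x (Nat.pos_of_ne_zero hl0)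
  have hz0 : z ≠ 0 := by
    rintro rfl
    rw [zero_pow hl0] at hz
    exact hx hz.symm
  have hzv : v z = σ * τ := by
    refine mul_left_cancel₀ hlR ?_
    rw [← v.map_pow hz0, hz, hxa, haσ]
    push_cast
    ring
  refine ⟨e, l, z, ⟨hlp, hz, ?_⟩, b * σ, ?_⟩
  · rw [hzv, ← zsmul_eq_mul]
    exact zsmul_mem hτ σ
  · rw [hZb, hzv]
    push_cast
    linear_combination (-(b : ℝ) * τ) * hσR

section

variable [hp : Fact p.Prime] [CharP k p] [CharP Ω p] [IsAlgClosed k] [IsAlgClosed Ω]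

omit [CharP Ω p] in
/-- A tame root which generates the degrees. -/
theorem gd_of_root (h0 : Ctx0 k v) (hG : GD v P Z N) (hN : ¬ p ∣ N)
    (hΓ : ∀ g ∈ Γ, ∃ j : ℤ, g - j * v Z ∈ VG v P) (hx : x ≠ 0) (hxP : ∃ a : ℤ, x * Z ^ a ∈ P)
    (hz : TR p v Γ x l z) {e : ℕ} {q : ℤ} (he : (p : ℝ) ^ e * v Z = q * v z) :
    GD v P z N ∧ ∀ (y : Ω) (c : ℤ), y * Z ^ c ∈ P → ∃ c' : ℤ, y * z ^ c' ∈ P := by
  obtain ⟨j, hj⟩ := exists_deg h0 hG hΓ hx hxP hz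
  have hz0 := hz.ne hx
  have hcop := isCoprime_deg hG hN hz0 hj he
  exact ⟨gd_of_deg hG hz0 hj hcop, fun y c hy => exists_deg' hG hz0 hj hcop hy⟩

/-- **The generators of `K`.** -/
theorem exists_gen (h0 : Ctx0 k v) (hG : GD v P Z N) (hN : ¬ p ∣ N)
    (hΓ : ∀ g ∈ Γ, ∃ j : ℤ, g - j * v Z ∈ VG v P) (hx : x ≠ 0) (hxΓ : v x ∈ Γ)
    (hxP : ∃ a : ℤ, x * Z ^ a ∈ P) (hz₀ : TR p v Γ x m z₀) {e : ℕ} {q : ℤ}
    (he : (p : ℝ) ^ e * v Z = q * v z₀) (hTG : TG p v K) (hK : K = cadj v (WT k p v Γ x) y) :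
    ∃ (l : ℕ) (z : Ω), TR p v Γ x l z ∧ K = CP v z y ∧ GD v P z N ∧
      ∀ c : ℤ, ∃ d : ℤ, (d : ℝ) * v z = c * v z₀ ∧ ∀ y : Ω, y * z₀ ^ c ∈ P → y * z ^ d ∈ P := by
  obtain ⟨l₁, z₁, hz₁, hK₁⟩ := hTG.exists_root h0 hx hxΓ hK
  obtain ⟨l, z, hz, ⟨q', hq'⟩, -, -, h1⟩ := TR.common (k := k) hx hz₀ hz₁
  have hz0 := hz.ne hx
  have hz₀0 := hz₀.ne hx
  have hm0 : (m : ℝ) ≠ 0 := by exact_mod_cast hz₀.pos
  have hzq : (q' : ℝ) * v z = v z₀ := by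
    refine mul_left_cancel₀ hm0 ?_
    rw [hz₀.mul_val hx, ← hz.mul_val hx, hq']
    push_cast
    ring
  obtain ⟨hGz, -⟩ := gd_of_root h0 hG hN hΓ hx hxP hz (q := q * q') (e := e) (by
    rw [he, ← hzq]
    push_cast
    ring)
  obtain ⟨u, hu, hu0, hzu⟩ : ∃ u ∈ (⊥ : IntermediateField k Ω), u ≠ 0 ∧ z₀ = u * z ^ q' := by
    have hzj : z ^ q' ≠ 0 := pow_ne_zero _ hz0
    have h2 : (z₀ / z ^ q') ^ m = 1 := by
      rw [div_pow, ← pow_mul, mul_comm q', ← hq', hz.pow, hz₀.pow, div_self hx]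
    exact ⟨z₀ / z ^ q', unity_mem_bot (k := k) hz₀.pos h2, div_ne_zero hz₀0 hzj, by
      rw [div_mul_cancel₀ _ hzj]⟩
  have hKc : Cld v K := by
    rw [hK]
    exact cld_cadj v _ _
  have hWK : WT k p v Γ x ≤ K := by
    rw [hK]
    exact le_cadj v _ _
  have hyK : y ∈ K := by
    rw [hK]
    exact self_mem_cadj v _ _
  refine ⟨l, z, hz, ?_, hGz, fun c => ⟨q' * c, ?_, fun y hy => ?_⟩⟩
  · refine le_antisymm ?_ (CP_le hKc (hWK hz.mem_WT) hyK)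
    conv_lhs => rw [hK₁]
    exact CP_mono_adj h1 y
  · push_cast
    rw [← hzq]
    ring
  · have e1 : y * z ^ ((q' : ℤ) * c) = y * z₀ ^ c * (u ^ c)⁻¹ := by
      rw [hzu, mul_zpow, ← zpow_natCast z q', ← zpow_mul]
      field_simp
    rw [e1]
    exact mul_mem hy (inv_mem (zpow_mem ((bot_le : ⊥ ≤ P) hu) c))

/-- **The pair of the fixed field.** -/
theorem exists_tp (h0 : Ctx0 k v) (hc : CompleteV v) (hPp : ∀ a ∈ P, ∃ b ∈ P, b ^ p = a)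
    (hN : ¬ p ∣ N) (hr : ∀ n, X (n + 1) ^ p = X n) (hX : X 0 ≠ 0) (hneg : v (X 0) < 0)
    (hΓ : v (X 0) ∈ Γ) (hTL : TL v (EW v (WT k p v Γ (X 0)) X) y 0)
    (hK : K = cadj v (WT k p v Γ (X 0)) y) (hT : Tgt p v K X r) (hvr : v (X 0) < r)
    (hv : v.Ge (v (X 0) - r) y) (hz : TR p v Γ (X 0) l z) (hKz : K = CP v z y)
    (hGz : GD v P z N) (hd : y * z ^ d ∈ P) :
    ∃ x w : ℕ → Ω, x 0 = z ^ (-(N : ℤ)) ∧ w 0 = y * z ^ d ∧
      TP p v (K ⊓ P) x w (v (x 0) + (r - v (X 0))) (d * v z) ∧ K ⊓ P = CP v (x 0) (w 0) := by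
  obtain ⟨u, hu0, hu⟩ := exists_rts p y
  obtain ⟨t, ht0, htr⟩ := exists_rts p z
  have hz0 : z ≠ 0 := hz.ne hX
  have hzl := hz.mul_val hX
  have hzK : z ∈ K := by
    rw [hKz]
    exact CP_fst _ _
  have h1 : TP p v K X u r 0 := by
    refine pairWT h0 hc hr hX hneg hΓ (by rw [hu0]; exact hTL) (by rw [hu0]; exact hK) hT hvr hu ?_
    rw [hu0]
    exact hv.mono (by linarith)
  have htX : (fun n => t n ^ (l : ℤ)) = X := by
    funext n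
    refine iterateFrobenius_inj Ω p n ?_
    have e1 := root_pow_add htr 0 n
    have e2 := root_pow_add hr 0 n
    rw [zero_add] at e1 e2
    rw [iterateFrobenius_def, iterateFrobenius_def, zpow_natCast, ← pow_mul, mul_comm, pow_mul,
      e1, e2, ht0, hz.pow]
  have ht00 : t 0 ≠ 0 := by rw [ht0]; exact hz0
  have h2 : TP p v K t u (r - (l : ℤ) * v (t 0) + v (t 0)) 0 := by
    refine TP.of_zpow htr (by rw [ht0]; exact hzK) ht00 (by exact_mod_cast hz.nd) ?_ ?_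
    · rw [htX]
      exact h1
    · rw [ht0, zpow_natCast, hz.pow]
      exact hvr
  set r' := r - (l : ℤ) * v (t 0) + v (t 0) with hr'
  have hr'v : r' - v (t 0) = r - v (X 0) := by
    rw [hr', ht0, Int.cast_natCast, hzl]
    ring
  have htr' : v (t 0) < r' := by linarith
  have h3 := h2.mul_w ht00 htr' (by
    rw [hu0, hr'v]
    exact hv.mono (by linarith)) d
  have hNp : ¬ (p : ℤ) ∣ -(N : ℤ) := by
    rw [dvd_neg]
    exact_mod_cast hN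
  have h4 := h3.zpow ht00 hNp htr'
  have hK' : adj (K ⊓ P) z = K := hGz.adj_inf hc hd hKz
  have hzP : z ^ (-(N : ℤ)) ∈ P := by
    rw [zpow_neg, zpow_natCast]
    exact inv_mem hGz.pw
  refine ⟨fun n => t n ^ (-(N : ℤ)), fun n => u n * t n ^ d, ?_, ?_, ?_, ?_⟩
  · show t 0 ^ (-(N : ℤ)) = _
    rw [ht0]
  · show u 0 * t 0 ^ d = _
    rw [ht0, hu0]
  · have h5 := hGz.tp hPp hK' (pow_mem hzK N) h4 (by rw [ht0]; exact hzP)
      (by rw [ht0, hu0]; exact hd)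
    have e1 : v ((fun n => t n ^ (-(N : ℤ))) 0) + (r - v (X 0)) =
        r' - v (t 0) + (-(N : ℤ) : ℤ) * v (t 0) := by
      show v (t 0 ^ (-(N : ℤ))) + (r - v (X 0)) = _
      rw [v.map_zpow ht00, hr'v]
      ring
    have e2 : (d : ℝ) * v z = 0 + d * v (t 0) := by rw [ht0, zero_add]
    rw [e1, e2]
    exact h5
  · show K ⊓ P = CP v (t 0 ^ (-(N : ℤ))) (u 0 * t 0 ^ d)
    rw [ht0, hu0]
    have hGt : GD v P (t 0) N := by rw [ht0]; exact hGz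
    have := hGt.eq_CP (X := t) (C := K) hc (y := y) (c := d) (by rw [ht0]; exact hd)
      (by rw [ht0]; exact hKz)
    rw [ht0] at this
    exact this

/-- **The integral end.** -/
theorem hasTPn_of_prt (h0 : Ctx0 k v) (hc : CompleteV v) (hG : GD v P Z N)
    (hPp : ∀ a ∈ P, ∃ b ∈ P, b ^ p = a) (hN : ¬ p ∣ N) (hrat : RatV v P γ)
    (hΓ : ∀ g ∈ Γ, ∃ j : ℤ, g - j * v Z ∈ VG v P) (hZΓ : v Z ∈ Γ) (hTG : TG p v K) {b : ℕ}
    (hP : PRT p v Γ K X y (b + 1)) (hb : ¬ p ∣ b + 1) (hT : Tgt p v K X (-(b * v (X 0))))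
    (hX : ∃ a : ℤ, X 0 * Z ^ a ∈ P) (hy : ∃ c : ℤ, y * Z ^ c ∈ P) : HasTPn p v (K ⊓ P) := by
  intro M
  have hneg := hP.neg
  have hp1 : (1 : ℝ) ≤ p := by exact_mod_cast hp.out.one_lt.le
  have hb0 : (0 : ℝ) ≤ b := Nat.cast_nonneg b
  obtain ⟨n, hn, m, hnm⟩ := rat_of hG hrat hΓ hZΓ hP.val hneg.ne
  obtain ⟨e, m₀, z₀, hz₀, q, he⟩ := exists_root_deg (p := p) hP.ne hP.val hZΓ hn hnm
  obtain ⟨hG₀, hdeg⟩ := gd_of_root h0 hG hN hΓ hP.ne hX hz₀ he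
  obtain ⟨c₀, hc₀⟩ := hy
  obtain ⟨c₁, hc₁⟩ := hdeg y c₀ hc₀
  obtain ⟨l, z, hz, hKz, hGz, hzd⟩ := exists_gen h0 hG hN hΓ hP.ne hP.val hX hz₀ he hTG hP.eq
  obtain ⟨c, -, hcy⟩ := hzd c₁
  have hyc : y * z ^ c ∈ P := hcy y hc₁
  have hzl := hz.mul_val hP.ne
  have hz0 := hz.ne hP.ne
  have hNp : IsCoprime (N : ℤ) (p : ℤ) :=
    Nat.isCoprime_iff_coprime.2 ((Nat.Prime.coprime_iff_not_dvd hp.out).2 hN).symm
  -- the exponent
  obtain ⟨d, hd1, hd2⟩ : ∃ d : ℤ, (N : ℤ) ∣ d - c ∧ (p : ℤ) ^ M ∣ d := by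
    obtain ⟨A, B, hAB⟩ := hNp.pow_right (n := M)
    refine ⟨c * (B * (p : ℤ) ^ M), ⟨-(c * A), ?_⟩, ⟨c * B, by ring⟩⟩
    linear_combination c * hAB
  have hyd : y * z ^ d ∈ P := by
    obtain ⟨e, he⟩ := hd1
    have e1 : y * z ^ d = y * z ^ c * (z ^ N) ^ e := by
      rw [← zpow_natCast, ← zpow_mul, mul_assoc, ← zpow_add₀ hz0, ← he]
      congr 2
      ring
    rw [e1]
    exact mul_mem hyc (zpow_mem hGz.pw e)
  have hvr : v (X 0) < -(b * v (X 0)) := by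
    have h1 : (b : ℝ) * v (X 0) ≤ 0 := mul_nonpos_of_nonneg_of_nonpos hb0 hneg.le
    linarith
  have hvy : v.Ge (v (X 0) - -(b * v (X 0))) y := by
    refine (Lm_ST_ge h0 hP.root hP.ne hneg (by positivity) hP.ltr).mono ?_
    rw [val_rt hP.root hP.ne 1, pow_one]
    have h1 : v (X 0) ≤ v (X 0) / p := by
      rw [le_div_iff₀ (by linarith)]
      have := mul_le_mul_of_nonpos_left hp1 hneg.le
      linarith
    have h2 : ((b : ℝ) + 1) * v (X 0) ≤ (b + 1) * (v (X 0) / p) :=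
      mul_le_mul_of_nonneg_left h1 (by positivity)
    linarith
  obtain ⟨x, w, hx0, hw0, hTP, hCP⟩ := exists_tp h0 hc hPp hN hP.root hP.ne hneg hP.val hP.tl
    hP.eq hT hvr hvy hz hKz hGz hyd
  have hl0 : (0 : ℝ) < l := by exact_mod_cast Nat.pos_of_ne_zero hz.pos
  have hzn : v z < 0 := by
    by_contra h
    push Not at h
    have := mul_nonneg hl0.le h
    linarith
  have hvx : v (x 0) = N * (-v z) := by
    rw [hx0, v.map_zpow hz0]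
    push_cast
    ring
  have hN0 : (0 : ℝ) < N := by exact_mod_cast hG.pos
  refine ⟨x, w, _, _, ?_, ?_, hTP, hCP, ?_⟩
  · rw [hvx]
    exact (mul_pos hN0 (by linarith)).ne'
  · linarith
  · refine NFb.of_quot (n := N) (b := -((b + 1) * l : ℕ)) (c := -d) (τ := -v z) hNp ?_ ?_ ?_ hvx
      ?_ ?_
    · rintro q hq
      have h3 : ((-q : ℤ) : ℝ) * v z ∈ VG v P := by
        have h4 := VG.mono (v := v) (inf_le_right : K ⊓ P ≤ P) hq
        have h5 : ((-q : ℤ) : ℝ) * v z = q * -v z := by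
          push_cast
          ring
        rw [h5]
        exact h4
      have := hGz.val _ h3
      rwa [dvd_neg] at this
    · rw [dvd_neg]
      intro h1
      have h2 : p ∣ (b + 1) * l := by exact_mod_cast h1
      rcases hp.out.dvd_mul.1 h2 with h3 | h3
      · exact hb h3
      · exact hz.nd h3
    · rwa [dvd_neg]
    · rw [hvx, ← hzl]
      push_cast
      ring
    · push_cast
      ring

/-- **The end with deep elements.** -/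
theorem hasTPn_of_deep (h0 : Ctx0 k v) (hc : CompleteV v) (hG : GD v P Z N)
    (hPp : ∀ a ∈ P, ∃ b ∈ P, b ^ p = a) (hN : ¬ p ∣ N) (hrat : RatV v P γ)
    (hΓ : ∀ g ∈ Γ, ∃ j : ℤ, g - j * v Z ∈ VG v P) (hZΓ : v Z ∈ Γ) (hTG : TG p v K)
    (hVG : VG v P ≤ VG v (K ⊓ P)) {B : ℝ} (hP : PRT p v Γ K X y B)
    (hT : Tgt p v K X r) (hvr : v (X 0) < r)
    (hX : ∃ a : ℤ, X 0 * Z ^ a ∈ P) (hy : y * Z ^ c ∈ P)
    (hdeep : ∀ ε : ℝ, 0 < ε → ∀ L : ℕ, ∃ f ∈ K, ∃ e ∈ EW v (WT k p v Γ (X 0)) X,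
      Gt v 0 (f - e) ∧ y - f ≠ 0 ∧ v.Ge (-ε) (y - f) ∧
      (∃ (l : ℕ) (a b : ℤ), L ≤ l ∧ ¬ (p : ℤ) ∣ a ∧ ¬ (p : ℤ) ∣ b ∧
        (b : ℝ) * p ^ l * v (y - f) = a * v (X 0)) ∧ (y - f) * Z ^ c ∈ P) :
    HasTPn p v (K ⊓ P) := by
  have hneg := hP.neg
  have hpZ : Prime (p : ℤ) := Nat.prime_iff_prime_int.1 hp.out
  have hPdiv : ∀ g ∈ VG v P, g / p ∈ VG v P := by
    rintro _ ⟨a, ha, ha0, rfl⟩
    obtain ⟨b, hb, hba⟩ := hPp a ha
    have hb0 : b ≠ 0 := by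
      rintro rfl
      rw [zero_pow hp.out.ne_zero] at hba
      exact ha0 hba.symm
    have hp0 : (p : ℝ) ≠ 0 := by exact_mod_cast hp.out.ne_zero
    refine ⟨b, hb, hb0, ?_⟩
    rw [← hba, v.map_pow hb0, mul_div_cancel_left₀ _ hp0]
  have hVG' : VG v (K ⊓ P) = VG v P := le_antisymm (VG.mono inf_le_right) hVG
  refine HasTPd.hasTPn h0 hc (γ := γ) (by rw [RatV, hVG']; exact hrat)
    (by rw [hVG']; exact hPdiv) ?_
  obtain ⟨n, hn, m, hnm⟩ := rat_of hG hrat hΓ hZΓ hP.val hneg.ne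
  obtain ⟨e, m₀, z₀, hz₀, q, he⟩ := exists_root_deg (p := p) hP.ne hP.val hZΓ hn hnm
  obtain ⟨-, hdeg⟩ := gd_of_root h0 hG hN hΓ hP.ne hX hz₀ he
  obtain ⟨c₁, hc₁⟩ := hdeg y c hy
  have hz₀0 := hz₀.ne hP.ne
  have hz₀m := hz₀.mul_val hP.ne
  have hy0 : y ≠ 0 := (hP.tl.far 0 isAlgebraic_zero).1
  have hN0 : (0 : ℝ) < N := by exact_mod_cast hG.pos
  have hX1 : X 1 ∉ K := fun h1 => (hT.dst 0).far ⟨X 1, h1, by
    rw [zero_add, sub_self]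
    exact Gt.zero⟩
  refine ⟨-(N * v (X 0)), r - v (X 0), c₁ * v z₀, neg_ne_zero.2 (mul_ne_zero hN0.ne' hneg.ne),
    fun L => ?_⟩
  obtain ⟨f, hf, e', he', hfe, hne, hge, ⟨l', a, b, hl', ha, hb, hval⟩, hyf⟩ :=
    hdeep (r - v (X 0)) (by linarith) (L + 1)
  have hK' : K = cadj v (WT k p v Γ (X 0)) (y - f) :=
    gen_sub hc hP.root (cld_clI v _) (mem_WT hP.val) hP.tl hP.eq hX1 hf he' hfe
  have hTL' : TL v (EW v (WT k p v Γ (X 0)) X) (y - f) 0 := by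
    refine (hP.tl.sub_mem he').congr ?_
    rw [show y - f - (y - e') = -(f - e') by ring]
    exact hfe.neg
  obtain ⟨l, z, hz, hKz, hGz, hzd⟩ := exists_gen h0 hG hN hΓ hP.ne hP.val hX hz₀ he hTG hK'
  obtain ⟨d, hd, hdy⟩ := hzd c₁
  have hyf₁ : (y - f) * z₀ ^ c₁ ∈ P := by
    have h1 : y * Z ^ c ≠ 0 := mul_ne_zero hy0 (zpow_ne_zero _ hG.ne)
    have e1 : (y - f) * z₀ ^ c₁ = (y - f) * Z ^ c / (y * Z ^ c) * (y * z₀ ^ c₁) := by
      have h2 : Z ^ c ≠ 0 := zpow_ne_zero _ hG.ne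
      field_simp
    rw [e1]
    exact mul_mem (div_mem hyf hy) hc₁
  obtain ⟨x, w, hx0, hw0, hTP, hCP⟩ := exists_tp h0 hc hPp hN hP.root hP.ne hneg hP.val hTL' hK' hT
    hvr (hge.mono (by linarith)) hz hKz hGz (hdy _ hyf₁)
  have hz0 := hz.ne hP.ne
  refine ⟨x, w, l, hz.nd, ?_, ?_, hCP, l', -(m₀ * a + b * c₁ * (p : ℤ) ^ l'), N * m₀ * b,
    (Nat.le_succ L).trans hl', ?_, ?_, ?_⟩
  · rw [hx0, v.map_zpow hz0, ← hz.mul_val hP.ne]
    push_cast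
    ring
  · rw [← hd]
    exact hTP
  · rw [dvd_neg]
    intro h1
    have h2 : (p : ℤ) ∣ b * c₁ * (p : ℤ) ^ l' :=
      Dvd.dvd.mul_left (dvd_pow_self _ (by omega)) _
    rcases hpZ.dvd_or_dvd ((Int.dvd_add_left h2).1 h1) with h3 | h3
    · exact hz₀.nd (by exact_mod_cast h3)
    · exact ha h3
  · intro h1
    rcases hpZ.dvd_or_dvd h1 with h2 | h2
    · rcases hpZ.dvd_or_dvd h2 with h3 | h3
      · exact hN (by exact_mod_cast h3)
      · exact hz₀.nd (by exact_mod_cast h3)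
    · exact hb h2
  · rw [hw0, v.map_mul hne (zpow_ne_zero _ hz0), v.map_zpow hz0, hd]
    push_cast
    rw [← hz₀m]
    rw [← hz₀m] at hval
    linear_combination (N * m₀ : ℝ) * hval

end

end Pool.Agent.TWF.TamE
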