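import Pool.Agent.Lib.TWF.RowTm0
import Pool.Agent.Lib.TWF.RowTmS
import Pool.Agent.Lib.TWF.TamX
import Pool.Agent.Lib.TWC.ExF

/-!
# TANK W, the tame base: the row

* `exitI`, `exitU`: the two exits of the loop;
* **`TWF.rowTame`**.
-/

set_option autoImplicit false

open Polynomial

namespace Pool.Agent.TWF.CPf

open Pool.Agent.H15JM (RVal)
open Pool.Agent.LU1 (VPos adj)
open Pool.Agent.D2 (Ctx0)
open Pool.Agent.D2P (clI mem_clI mem_adj_self adj_le)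
open Pool.Agent.TWM
open Pool.Agent.TWS
open Pool.Agent.TWC
open Pool.Agent.TWC.PF (Lm)
open Pool.Agent.TWC.PW

universe u

variable {k Ω : Type u} [Field k] [Field Ω] [Algebra k Ω] {v : RVal Ω} {p : ℕ}
  [hp : Fact p.Prime] [CharP k p] [CharP Ω p] [IsAlgClosed k] [IsAlgClosed Ω]
  {C : IntermediateField k Ω} {x y Z : Ω} {s : ℝ} {N : ℕ} {ζ : k}
  {sg : Ω →ₐ[k] Ω} {C₂ K : IntermediateField k Ω} {X' : ℕ → Ω} {y' : Ω} {b : ℕ}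

/-- The data of the deep exit. -/
theorem TamSt.deep (h0 : Ctx0 k v) (hc : CompleteV v)
    (h : TamSt p v C x y s Z N ζ sg C₂ K X' y' b)
    (hl : Lm v (STs k p v (VG v C₂) X' (b + 1) 1) y') (hE : ExT k p v (VG v C₂) X' y' b) :
    ∃ (K' : IntermediateField k Ω) (X₁ : ℕ → Ω) (y₁ : Ω) (B : ℝ), C₂ ≤ K' ∧
      (∃ e : ℕ, ∀ a ∈ K', a ^ p ^ e ∈ C₂) ∧ TG p v K' ∧ 0 < B ∧
      PRT p v (VG v C₂) K' X₁ y₁ B ∧ Lm v (STs k p v (VG v C₂) X₁ B 1) y₁ ∧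
      Tgt p v K' X₁ (-((B - 1) * v (X₁ 0))) ∧ Hg sg N K' X₁ y₁ ∧ (∀ a ∈ K', sg a ∈ K') ∧
      ∀ L, ¬ Lim v (WT k p v (VG v C₂) (X₁ L)) 0 y₁ := by
  obtain ⟨X, i, c, c₀, F⟩ := h.fr
  have hN0 : (N : k) ≠ 0 := by
    rw [Ne, CharP.cast_eq_zero_iff k p]
    exact F.nd
  obtain ⟨K', X₁, y₁, B, h1, h2, h3, h4, h5, h6, h7⟩ := ExT.data h0 hc F.iso hN0 h.prt hl h.hg hE
  have h8 := h.isoR.trans h1
  exact ⟨K', X₁, y₁, B, h8.le, h8.isog, TG.isoR h0 hc h8 F.tg, h2, h3, h4, h5, h6,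
    h6.map_mem hc F.iso h3, h7⟩

omit [CharP Ω p] [IsAlgClosed k] [IsAlgClosed Ω] hp [CharP k p] in
theorem RatV.of_eq {P : IntermediateField k Ω} {γ : ℝ} (h : RatV v C γ) (he : VG v P = VG v C) :
    RatV v P γ := fun g hg => h g (he ▸ hg)

omit [CharP k p] [IsAlgClosed k] [IsAlgClosed Ω] in
/-- The coordinates are homogeneous. -/
theorem hom_coord {X : ℕ → Ω} {i : ℕ} {c c₀ : Ω} (F : TamFr p v C x y s X i N Z c c₀ ζ sg C₂)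
    (hK : K ≤ adj (clI v (perfC p C)) Z) (hH : Hg sg N K X' y') {a : Ω} (ha : a ∈ K) (ha0 : a ≠ 0)
    (he : Eig sg a) : ∃ c : ℤ, a * Z ^ c ∈ clI v (perfC p C) := by
  obtain ⟨ξ, hξ⟩ := he
  exact TamE.mem_of_eig F.gd F.prim F.fix F.sgZ (hK ha) hξ (ev_one ha0 (hH.fix _ ha) hξ)

theorem exitI : ExitI p k := by
  intro Ω _ _ _ _ v h0 hc hw hval C x y s Z N ζ sg C₂ K X' y' b hrat h hT
  obtain ⟨X, i, c, c₀, F⟩ := h.fr
  exact h.desc (TamE.hasTPn_of_prt h0 hc F.gd F.perf F.nd (RatV.of_eq hrat F.vgP) F.vg F.vgZ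
    (h.tg h0 hc) h.prt h.nd hT
    (hom_coord F h.leZ h.hg (h.prt.WT_le (mem_WT h.prt.val)) h.prt.ne h.hg.eX)
    (hom_coord F h.leZ h.hg h.prt.memY h.prt.ne_y h.hg.ey))

theorem exitU : ExitU p k := by
  intro Ω _ _ _ _ v h0 hc hw hval C x y s Z N ζ sg C₂ K X' y' b hrat h hl hE
  obtain ⟨X, i, c, c₀, F⟩ := h.fr
  have hN0 : (N : k) ≠ 0 := by
    rw [Ne, CharP.cast_eq_zero_iff k p]
    exact F.nd
  obtain ⟨K', X₁, y₁, B, hle, ⟨e, he⟩, hTG, hB, hPR, hLm, hT, hH, hmap, hno⟩ :=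
    h.deep h0 hc hl hE
  have hKc : Cld v K' := hPR.cld
  have hneg := hPR.neg
  obtain ⟨hKZ, hdesc⟩ := F.desc K' e hKc hle he
  obtain ⟨ξ, hξ⟩ := hH.ey
  obtain ⟨c₁, hc₁⟩ := hom_coord F hKZ hH hPR.memY hPR.ne_y ⟨ξ, hξ⟩
  have hVG : VG v (clI v (perfC p C)) ≤ VG v (K' ⊓ clI v (perfC p C)) := by
    rw [F.vgP]
    exact VG.mono (F.isog K' e hle he).1
  have hvr : v (X₁ 0) < -((B - 1) * v (X₁ 0)) := by
    have := mul_neg_of_pos_of_neg hB hneg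
    linarith
  refine (hdesc (TamE.hasTPn_of_deep h0 hc F.gd F.perf F.nd (RatV.of_eq hrat F.vgP) F.vg F.vgZ
    hTG hVG hPR hT hvr (hom_coord F hKZ hH (hPR.WT_le (mem_WT hPR.val)) hPR.ne hH.eX) hc₁
    fun δ hδ L => ?_)).hasTP
  obtain ⟨f, hf, a, ha, h1, h2, h3, h4, h5⟩ :=
    exT_deep3 h0 F.iso hN0 hPR hH hξ hLm hT hmap hno hδ L
  refine ⟨f, hf, a, ha, h1, h2, h3, h4, TamE.mem_of_eig' F.gd F.prim F.fix F.sgZ hPR.ne_y hc₁ hξ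
    (hKZ (sub_mem hPR.memY hf)) ?_⟩
  rw [map_sub, hξ, h5, mul_sub]

theorem rowTameS : RowTameS p k :=
  fun _ _ _ _ _ _ h0 hc hw hval _ _ _ _ _ hF hrat hneg hV hs =>
    tam_of_exits exitI exitU h0 hc hw hval hF hrat hneg hV hs

end Pool.Agent.TWF.CPf

namespace Pool.Agent.TWF

universe u

/-- **The tame row.** -/
theorem rowTame (p : ℕ) [Fact p.Prime] (k : Type u) [Field k] [CharP k p] [IsAlgClosed k] :
    RowTame p k :=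
  rowTame_of CPf.rowTameS

end Pool.Agent.TWF
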