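import Pool.Agent.Lib.TWF.CovDefs
import Pool.Agent.Lib.TWF.InfAlt
import Pool.Agent.Lib.TWM.Roots

/-!
# TANK W, row T8: strict translations, from the normalized element back

* `eval_add_near`: `P (u + h) - P u`, `u` far from the algebraic elements, `v h > s`;
* **`strZ_of_strT`**: infinitely many strict translations of `y / c - a` over `W'`, `c`, `a ∈ W'`,
  `W ≤ W'`: `StrZ` for `y` over `W`.
-/

set_option autoImplicit false

open Polynomial

namespace Pool.Agent.TWF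

open Pool.Agent.H15JM (RVal)
open Pool.Agent.LU1 (VPos adj)
open Pool.Agent.D2 (Ctx0)
open Pool.Agent.D2P (hen clI mem_clI mem_adj_self)
open Pool.Agent.TWM
open Pool.Agent.TWS (VG)

universe u

variable {k Ω : Type u} [Field k] [Field Ω] [Algebra k Ω] {v : RVal Ω}
  {W W' C : IntermediateField k Ω} {y c a u h : Ω} {s η : ℝ}

section

variable [IsAlgClosed Ω]

/-- A small change of `u`. -/
theorem eval_add_near (hfar : ∀ θ : Ω, IsAlgebraic W θ → u ≠ θ ∧ v (u - θ) ≤ s) (hη : 0 ≤ η)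
    (hh : v.Ge (s + η) h) {P : Polynomial Ω} (hP : P ∈ PI W) :
    v.Ge (v (P.eval u) + η) (P.eval (u + h) - P.eval u) := by
  by_cases hP0 : P = 0
  · rw [hP0, eval_zero, eval_zero, sub_zero]
    exact RVal.Ge.zero
  have hroot : ∀ θ, P.IsRoot θ → u ≠ θ ∧ v (u - θ) ≤ s := fun θ hθ =>
    hfar θ (isAlgebraic_root hP hP0 hθ)
  have h1 : P.eval (u + h) = (taylor u P).eval h := by
    rw [taylor_eval, add_comm]
  have h2 : P.eval (u + h) - P.eval u =
      ∑ l ∈ Finset.range (taylor u P).natDegree, (taylor u P).coeff (l + 1) * h ^ (l + 1) := by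
    rw [h1, eval_eq_sum_range, Finset.sum_range_succ', taylor_coeff_zero]
    rw [pow_zero, mul_one, add_sub_cancel_right]
  rw [h2]
  refine RVal.Ge.sum _ _ fun l _ => ?_
  have h3 := Roots.taylor_ge hP0 hroot (l + 1)
  have h4 := ge_pow hh (l + 1)
  refine (h3.mul h4).mono ?_
  have h5 : (0 : ℝ) ≤ (l : ℝ) * η := mul_nonneg (Nat.cast_nonneg l) hη
  push_cast
  linarith

end

/-- **Strict translations, back.** -/
theorem strZ_of_strT [IsAlgClosed Ω] {p : ℕ} {m : ℕ} (h0 : Ctx0 k v) (hWW : W ≤ W') (hc : c ∈ W')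
    (hc0 : c ≠ 0) (hvc : v c = s) (ha : a ∈ W') (hm : ¬ p ∣ m) (hms : (m : ℝ) * s ∈ VG v C)
    (hfar : ∀ θ : Ω, IsAlgebraic W θ → y ≠ θ ∧ v (y - θ) < s)
    (hS : StrT v W' (y / c - a)) : StrZ p v W C y s := by
  classical
  obtain ⟨d, hd, hd0, hvd⟩ := hms
  have hm0 : m ≠ 0 := fun h1 => hm (h1 ▸ dvd_zero p)
  obtain ⟨c₁, hc₁⟩ := IsAlgClosed.exists_pow_nat_eq d (Nat.pos_of_ne_zero hm0)
  have hc₁0 : c₁ ≠ 0 := by
    rintro rfl
    rw [zero_pow hm0] at hc₁
    exact hd0 hc₁.symm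
  have hvc₁ : v c₁ = s := by
    have h1 : (m : ℝ) * v c₁ = m * s := by
      rw [← v.map_pow hc₁0, hc₁, hvd]
    exact mul_left_cancel₀ (by exact_mod_cast hm0) h1
  -- the residue
  obtain ⟨κ, hκ0, hκ⟩ := h0.res (c₁ / c) (div_ne_zero hc₁0 hc0) (by
    rw [v.map_div hc₁0 hc0, hvc, hvc₁, sub_self])
  have hκ' : algebraMap k Ω κ ≠ 0 := by rwa [Ne, _root_.map_eq_zero]
  set δ : Ω := c₁ - algebraMap k Ω κ * c with hδ
  have hδe : δ = (c₁ / c - algebraMap k Ω κ) * c := by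
    rw [hδ]
    field_simp
  have hδ' : ∃ η : ℝ, 0 < η ∧ v.Ge (s + η) δ := by
    by_cases h1 : δ = 0
    · exact ⟨1, one_pos, by rw [h1]; exact RVal.Ge.zero⟩
    · have h2 : c₁ / c - algebraMap k Ω κ ≠ 0 := left_ne_zero_of_mul (hδe ▸ h1)
      have h3 : 0 < v (c₁ / c - algebraMap k Ω κ) := hκ h2
      refine ⟨v (c₁ / c - algebraMap k Ω κ), h3, ?_⟩
      rw [hδe]
      refine RVal.Ge.of_le ?_
      rw [v.map_mul h2 hc0, hvc]
      linarith
  obtain ⟨η, hη, hδη⟩ := hδ'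
  refine ⟨c₁, m, hm, by rw [hc₁]; exact hd, hc₁0, hvc₁, fun n => ?_⟩
  obtain ⟨Θ, hn, hΘ⟩ := hS n
  refine ⟨Θ.image fun ζ => ζ / κ, ?_, fun ζ' hζ' => ?_⟩
  · rw [Finset.card_image_of_injective _ fun a b hab => (div_left_inj' hκ0).1 hab]
    exact hn
  obtain ⟨ζ, hζ, rfl⟩ := Finset.mem_image.1 hζ'
  obtain ⟨μ, hμ, hμP⟩ := hΘ ζ hζ
  refine ⟨min μ η, lt_min hμ hη, fun P hP => ?_⟩
  set u : Ω := y + algebraMap k Ω ζ * c with hu
  have hζ0 : v.Ge 0 (algebraMap k Ω ζ) := h0.ge ζ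
  have hζκ0 : v.Ge 0 (algebraMap k Ω (ζ / κ)) := h0.ge (ζ / κ)
  have he : y + algebraMap k Ω (ζ / κ) * c₁ = u + algebraMap k Ω (ζ / κ) * δ := by
    rw [hu, hδ, map_div₀]
    field_simp
    ring
  -- the translation by `ζ c`
  set P' : Polynomial Ω := P.comp (Polynomial.C c * (X + Polynomial.C a)) with hP'
  have hP'W : P' ∈ PI W' := by
    have h1 : (Polynomial.C c * (X + Polynomial.C a) : Polynomial Ω) ∈ PI W' :=
      mul_mem (C_mem_PI hc) (add_mem X_mem_PI (C_mem_PI ha))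
    rw [hP', Polynomial.comp, eval₂_eq_sum_range]
    exact sum_mem fun i _ => mul_mem (C_mem_PI (hWW (hP i))) (pow_mem h1 i)
  have h1 := hμP P' hP'W
  have h2 : P'.eval (y / c - a) = P.eval y := by
    rw [hP', eval_comp]
    congr 1
    simp only [eval_mul, eval_C, eval_add, eval_X]
    field_simp
    ring
  have h3 : P'.eval (y / c - a + algebraMap k Ω ζ) = P.eval u := by
    rw [hP', eval_comp]
    congr 1
    simp only [eval_mul, eval_C, eval_add, eval_X]
    rw [hu]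
    field_simp
    ring
  rw [h2, h3] at h1
  have hvP : v.Ge (v (P.eval y)) (P.eval u) ∧ (P.eval y ≠ 0 → v (P.eval u) = v (P.eval y)) := by
    by_cases h4 : P.eval y = 0
    · by_cases h5 : P = 0
      · refine ⟨by rw [h5, eval_zero, eval_zero]; exact RVal.Ge.zero, fun h6 => absurd h4 h6⟩
      · exact absurd rfl (hfar y (isAlgebraic_root hP h5 h4)).1
    · obtain ⟨h5, h6⟩ := Gt.val_eq (v := v) (x := P.eval y) (y := P.eval u) h4
        (Gt.of_ge (ge_sub_comm h1) (by linarith))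
      exact ⟨RVal.Ge.of_le h6.ge, fun _ => h6⟩
  -- the translation by the small element
  have hfu : ∀ θ : Ω, IsAlgebraic W θ → u ≠ θ ∧ v (u - θ) ≤ s := by
    intro θ hθ
    obtain ⟨h4, h5⟩ := hfar θ hθ
    have h6 : v.Ge s (algebraMap k Ω ζ * c) := by
      have h7 := hζ0.mul (RVal.ge_self (v := v) c)
      rwa [zero_add, hvc] at h7
    have h7 : Gt v (v (y - θ)) ((y - θ) - (u - θ)) := by
      have h8 : (y - θ) - (u - θ) = -(algebraMap k Ω ζ * c) := by
        rw [hu]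
        ring
      rw [h8]
      exact (Gt.of_ge h6 h5).neg
    obtain ⟨h8, h9⟩ := Gt.val_eq (v := v) (sub_ne_zero.2 h4) h7
    exact ⟨sub_ne_zero.1 h8, by rw [h9]; exact h5.le⟩
  have h4 := eval_add_near hfu hη.le (h := algebraMap k Ω (ζ / κ) * δ) (by
    have h5 := hζκ0.mul hδη
    rwa [zero_add] at h5) hP
  rw [he]
  have h5 : P.eval (u + algebraMap k Ω (ζ / κ) * δ) - P.eval y =
      (P.eval (u + algebraMap k Ω (ζ / κ) * δ) - P.eval u) + (P.eval u - P.eval y) := by ring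
  rw [h5]
  by_cases h6 : P.eval y = 0
  · by_cases h7 : P = 0
    · rw [h7, eval_zero, eval_zero, eval_zero]
      simp only [sub_zero, add_zero]
      exact RVal.Ge.zero
    · exact absurd rfl (hfar y (isAlgebraic_root hP h7 h6)).1
  refine (h4.mono ?_).add (h1.mono ?_)
  · rw [hvP.2 h6]
    linarith [min_le_right μ η]
  · linarith [min_le_left μ η]

end Pool.Agent.TWF
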