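import Pool.Agent.Lib.TWF.TamF
import Pool.Agent.Lib.TWF.PWw
import Pool.Agent.Lib.TWF.StrZb
import Pool.Agent.Lib.TWC.PWy2
import Pool.Agent.Lib.TWC.ExD
import Pool.Agent.Lib.TWF.CPh

/-!
# TANK W, the tame base: the assembly of the row

* `TG.isoR`: the isogenies;
* `TamSt`: a field `K` of the isogeny class of `C₂` with homogeneous coordinates; `TamSt.tg`,
  `TamSt.leZ`, `TamSt.desc`;
* `ExitI`, `ExitU`: the exits of the loop with a tight coordinate (integral exponent; unattained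
  upper limit of the exponents);
* `tam_of_exits`: the row, from the two exits.
-/

set_option autoImplicit false

open Polynomial

namespace Pool.Agent.TWF.CPf

open Pool.Agent.H15JM (RVal)
open Pool.Agent.LU1 (VPos adj)
open Pool.Agent.D2 (Ctx0)
open Pool.Agent.D2P (clI mem_clI mem_adj_self adj_le)
open Pool.Agent.TWM
open Pool.Agent.TWS
open Pool.Agent.TWC
open Pool.Agent.TWC.PF (Lm)
open Pool.Agent.TWC.PW

universe u

section

variable {k Ω : Type u} [Field k] [Field Ω] [Algebra k Ω]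

theorem sd_of_sub {v : RVal Ω} {F : IntermediateField k Ω} {z a : Ω} {l : ℕ} {b : ℝ}
    (ha : a ∈ F) (h : Sd v F (z - a) l b) : Sd v F z l b := by
  obtain ⟨η, hη, h1⟩ := h
  refine ⟨η, hη, fun f hf r hr => ?_⟩
  have h2 : taylor a f ∈ PI F := taylor_mem_PI hf ha
  have h3 : (taylor a f).eval (z - a) = f.eval z := by
    rw [taylor_eval, sub_add_cancel]
  have h4 := h1 _ h2 r (by rwa [h3])
  have h5 : taylor (z - a) (taylor a f) = taylor z f := by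
    rw [taylor_taylor, sub_add_cancel]
  rwa [h5] at h4

/-- A field of the isogeny class of `C₂` with homogeneous coordinates. -/
structure TamSt (p : ℕ) [Fact p.Prime] [CharP Ω p] (v : RVal Ω) (C : IntermediateField k Ω)
    (x y : Ω) (s : ℝ) (Z : Ω) (N : ℕ) (ζ : k) (sg : Ω →ₐ[k] Ω) (C₂ K : IntermediateField k Ω)
    (X' : ℕ → Ω) (y' : Ω) (b : ℕ) : Prop where
  fr : ∃ (X : ℕ → Ω) (i : ℕ) (c c₀ : Ω), TamFr p v C x y s X i N Z c c₀ ζ sg C₂
  le : C₂ ≤ K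
  isog : ∃ e : ℕ, ∀ a ∈ K, a ^ p ^ e ∈ C₂
  isoR : IsoR p v (VG v C₂) C₂ K
  prt : PRT p v (VG v C₂) K X' y' (b + 1)
  nd : ¬ p ∣ b + 1
  hg : Hg sg N K X' y'

end

section

variable {k Ω : Type u} [Field k] [Field Ω] [Algebra k Ω] {v : RVal Ω} {p : ℕ}
  [hp : Fact p.Prime] [CharP k p] [CharP Ω p] [IsAlgClosed k] [IsAlgClosed Ω]
  {Γ : AddSubgroup ℝ} {C C' : IntermediateField k Ω} {x y Z : Ω} {s : ℝ} {N : ℕ} {ζ : k}
  {sg : Ω →ₐ[k] Ω} {C₂ K : IntermediateField k Ω} {X' : ℕ → Ω} {y' : Ω} {b : ℕ}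

theorem TG.isoR (h0 : Ctx0 k v) (hc : CompleteV v) (h : IsoR p v Γ C C') (hTG : TG p v C) :
    TG p v C' := by
  induction h with
  | refl C => exact hTG
  | step hP hg h1 h2 hP₁ _ ih =>
    exact ih (hTG.iso h0 hc hP.root hP.ne hP.val hP.div hP.eq hP₁.eq (by
      rw [sub_sub_cancel]
      exact hg))

/-- `K` has two topological generators of bounded distortion. -/
theorem TamSt.tg (h0 : Ctx0 k v) (hc : CompleteV v)
    (h : TamSt p v C x y s Z N ζ sg C₂ K X' y' b) : TG p v K := by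
  obtain ⟨X, i, c, c₀, F⟩ := h.fr
  exact TG.isoR h0 hc h.isoR F.tg

omit [CharP k p] [IsAlgClosed k] [IsAlgClosed Ω] in
theorem TamSt.cld (h : TamSt p v C x y s Z N ζ sg C₂ K X' y' b) : Cld v K := by
  rw [h.prt.eq]
  exact cld_cadj _ _ _

omit [CharP k p] [IsAlgClosed k] [IsAlgClosed Ω] in
/-- `K ≤ P(Z)`. -/
theorem TamSt.leZ (h : TamSt p v C x y s Z N ζ sg C₂ K X' y' b) :
    K ≤ adj (clI v (perfC p C)) Z := by
  obtain ⟨X, i, c, c₀, F⟩ := h.fr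
  obtain ⟨e, he⟩ := h.isog
  exact (F.desc K e h.cld h.le he).1

omit [CharP k p] [IsAlgClosed k] [IsAlgClosed Ω] in
/-- The descent. -/
theorem TamSt.desc (h : TamSt p v C x y s Z N ζ sg C₂ K X' y' b)
    (hT : HasTPn p v (K ⊓ clI v (perfC p C))) : HasTP p v C := by
  obtain ⟨X, i, c, c₀, F⟩ := h.fr
  obtain ⟨e, he⟩ := h.isog
  exact ((F.desc K e h.cld h.le he).2 hT).hasTP

end

/-- **The exit with an integral exponent.** -/
def ExitI (p : ℕ) [Fact p.Prime] (k : Type u) [Field k] : Prop :=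
  ∀ (Ω : Type u) [Field Ω] [Algebra k Ω] [IsAlgClosed Ω] [CharP Ω p] (v : RVal Ω),
    Ctx0 k v → CompleteV v → SphC v → (∀ ρ : ℝ, ∃ a : Ω, a ≠ 0 ∧ v a = ρ) →
    ∀ (C : IntermediateField k Ω) (x y : Ω) (s : ℝ) (Z : Ω) (N : ℕ) (ζ : k) (sg : Ω →ₐ[k] Ω)
      (C₂ K : IntermediateField k Ω) (X' : ℕ → Ω) (y' : Ω) (b : ℕ), RatV v C (v x) →
      TamSt p v C x y s Z N ζ sg C₂ K X' y' b → Tgt p v K X' (-(b * v (X' 0))) → HasTP p v C

/-- **The exit with an unattained upper limit.** -/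
def ExitU (p : ℕ) [Fact p.Prime] (k : Type u) [Field k] : Prop :=
  ∀ (Ω : Type u) [Field Ω] [Algebra k Ω] [IsAlgClosed Ω] [CharP Ω p] (v : RVal Ω),
    Ctx0 k v → CompleteV v → SphC v → (∀ ρ : ℝ, ∃ a : Ω, a ≠ 0 ∧ v a = ρ) →
    ∀ (C : IntermediateField k Ω) (x y : Ω) (s : ℝ) (Z : Ω) (N : ℕ) (ζ : k) (sg : Ω →ₐ[k] Ω)
      (C₂ K : IntermediateField k Ω) (X' : ℕ → Ω) (y' : Ω) (b : ℕ), RatV v C (v x) →
      TamSt p v C x y s Z N ζ sg C₂ K X' y' b → Lm v (STs k p v (VG v C₂) X' (b + 1) 1) y' →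
      ExT k p v (VG v C₂) X' y' b → HasTP p v C

variable {k Ω : Type u} [Field k] [Field Ω] [Algebra k Ω] {v : RVal Ω} {p : ℕ}
  [hp : Fact p.Prime] [CharP k p] [CharP Ω p] [IsAlgClosed k] [IsAlgClosed Ω]
  {C : IntermediateField k Ω} {x y : Ω} {s c₁ : ℝ}

/-- **The tame row**, from the two exits. -/
theorem tam_of_exits (hI : ExitI p k) (hU : ExitU p k) (h0 : Ctx0 k v) (hc : CompleteV v)
    (hw : SphC v) (hval : ∀ ρ : ℝ, ∃ a : Ω, a ≠ 0 ∧ v a = ρ) (hF : FInf p v C x y s c₁)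
    (hrat : RatV v C (v x)) (hneg : v x < 0) (hV : v x / p ∉ VG v (WX v C x))
    (hs : RatR (v x) s) :
    HasTP p v C ∨ StrW v (WX v C x) y s ∨ StrZ p v (WX v C x) C y s := by
  obtain ⟨X, i, N, Z, c, c₀, ζ, sg, C₂, hX0, F⟩ := exists_tamFr h0 hc hw hval hF hrat hneg hV hs
  have hpp := hp.out.pos
  have hXne : ∀ n, X n ≠ 0 := root_ne_zero F.root (by rw [hX0]; exact hF.x0)
  have hN0 : (N : k) ≠ 0 := by
    rw [Ne, CharP.cast_eq_zero_iff k p]
    exact F.nd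
  set Γ := VG v C₂ with hΓ
  have hrY : ∀ n, (fun n => X (i + n)) (n + 1) ^ p = (fun n => X (i + n)) n := fun n =>
    F.root (i + n)
  have hyc : y / c ∈ C₂ := by
    have h1 : y / c ∈ cadj v (WT k p v Γ (X i)) (y / c) := self_mem_cadj _ _ _
    rwa [← F.eq] at h1
  have hyc0 : y / c ≠ 0 := (F.tl.far 0 isAlgebraic_zero).1
  obtain ⟨c₂, hoi⟩ := F.oi
  -- the polar part
  obtain ⟨B, -, a, ha, hPR⟩ := exists_prt (X := fun n => X (i + n)) h0 hc hrY (hXne i) F.neg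
    F.val F.div F.eq hoi F.tl
  have hWC : WT k p v Γ (X i) ≤ C₂ := by
    have h1 : WT k p v Γ (X i) ≤ cadj v (WT k p v Γ (X i)) (y / c) := le_cadj _ _ _
    rwa [← F.eq] at h1
  have hfix : ∀ a ∈ C₂, (sg ^ N) a = a := fun a ha => F.sgN a (F.le2 ha)
  have heX : Eig sg (X i) := ⟨1, by rw [F.fix _ (F.memX i), map_one, one_mul]⟩
  have hζ0 : ζ ≠ 0 := by
    rintro rfl
    have := F.prim.pow_eq_one
    rw [zero_pow F.gd.pos.ne'] at this
    exact zero_ne_one this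
  have hey : sg (y / c) = algebraMap k Ω ζ⁻¹ * (y / c) := by
    rw [map_div₀, F.fix _ F.memY, F.sgc, map_inv₀]
    have h1 : algebraMap k Ω ζ ≠ 0 := (_root_.map_ne_zero _).2 hζ0
    field_simp
  obtain ⟨ha', hPR', hH⟩ := PRT.prj (N := N) h0 F.iso hN0 hPR hWC hfix hyc hyc0 ha heX hey
  set a' := prj sg N ζ⁻¹ a with ha'def
  obtain ⟨b, -, hb, hPb, hl⟩ := hPR'.nat
  rcases loop_h h0 hc F.iso hN0 hPb hb hl hH with h | ⟨n, K, X', y', b', h, hH', h'⟩ | h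
  · obtain ⟨K, X', y', b', h1, h2, h3, h4, h5⟩ := h
    exact .inl (hI Ω v h0 hc hw hval C x y s Z N ζ sg C₂ K X' y' b' hrat
      ⟨⟨X, i, c, c₀, F⟩, h1.le, h1.isog, h1, h2, h3, h5⟩ h4)
  · obtain ⟨h1, h2, h3, h4, h5⟩ := h.inv hPb hb hl
    rcases h' with h' | h'
    · refine .inr (.inl (F.str fun L hL => sd_of_sub ha' ?_))
      exact strW_of_exS h0 hc hw hval hPb hb hl le_rfl h h' L hL
    · exact .inl (hU Ω v h0 hc hw hval C x y s Z N ζ sg C₂ K X' y' b' hrat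
        ⟨⟨X, i, c, c₀, F⟩, h1, h2, h.isoR hPb, h3, h4, hH'⟩ h5 h')
  · have h1 := strZ_of_stgs h0 hw hval hPb h
    refine .inr (.inr ?_)
    have h2 : StrT v (WT k p v Γ (X i)) (y / c - a') := fun n => h1 n
    have h3 : ∀ θ : Ω, IsAlgebraic (WX v C x) θ → y ≠ θ ∧ v (y - θ) < s := fun θ hθ => hF.far hθ
    have h4 : (N : ℝ) * s ∈ VG v C := F.Ns
    exact strZ_of_strT (W' := WT k p v Γ (X i)) (a := a') (c := c) (m := N) h0 F.leW F.memc F.c0
      F.valc ha' F.nd h4 h3 h2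

end Pool.Agent.TWF.CPf
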