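import Pool.Agent.Lib.TWF.LeafC
import Pool.Agent.Lib.TWRA.All

/-!
# TANK W, dimension 4, the contact leaf: row A, for all data
-/

set_option autoImplicit false

namespace Pool.Agent.TWF

open Pool.Agent.H15JM (RVal)
open Pool.Agent.TWS (HF hv)
open Pool.Agent.TWRA (RowJ1E)

universe u

/-- Row (j = 1, A), for all data, from its last row. -/
theorem rowsA_of (p : ℕ) [hp : Fact p.Prime] (k : Type u) [Field k] [IsAlgClosed k] [CharP k p]
    (h3 : ∀ (Ω : Type u) [Field Ω] [Algebra k Ω] [IsAlgClosed Ω] [CharP Ω p] (v : RVal Ω)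
      (φ : Ω →ₐ[k] HF k), RowJ1E p v (hv k) φ) : RowsA p k := by
  intro Ω _ _ _ _ v φ x W₀ K₀ al
  have : CharP (HF k) p := charP_of_injective_algebraMap (algebraMap k (HF k)).injective p
  exact TWRA.rowA_of (h3 Ω v φ) x W₀ K₀ al

end Pool.Agent.TWF
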