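import Pool.Agent.Lib.TWF.RowsBFTri
import Pool.Agent.Lib.TWRW.Tri

/-!
# TANK W, dimension 4: `RowsBF`

`rowsBF`: row (j = 1, B) for a second floor of finite shape, for all data.
-/

set_option autoImplicit false

namespace Pool.Agent.TWF

open Pool.Agent.TWS (HF hv)

universe u

/-- **`RowsBF`**: row (j = 1, B), the second floor of finite shape, for all data. -/
theorem rowsBF (p : ℕ) [hp : Fact p.Prime] (k : Type u) [Field k] [IsAlgClosed k] [CharP k p] :
    RowsBF p k := by
  have : CharP (HF k) p := charP_of_injective_algebraMap (algebraMap k (HF k)).injective p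
  exact rowsBF_of_tri p k Pool.Agent.TWRW.rowTri

end Pool.Agent.TWF
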