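import Pool.Agent.Lib.TWX.PtE
import Pool.Agent.Lib.TWC.TPow
import Pool.Agent.Lib.TWF.CPi

/-!
# TANK W: deep tight pairs

`HasTPd p v D`: `D` is the closure of `k(x, w)`, `(x, w)` a tight pair of levels `v (x 0) + ρ`, `s`;
`v (x 0) = g / m`, `p ∤ m`, the numbers `g`, `ρ`, `s` are fixed and the values
`v (w 0) = a g / (b p ^ l)` are as deep as one wants.
`HasTPd.hasTPn`: the pair `(w ^ (1 / n), x)`, in the other order, has good resonances.
-/

set_option autoImplicit false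

open Polynomial

namespace Pool.Agent.TWC

open Pool.Agent.H15JM (RVal)
open Pool.Agent.LU1 (VPos adj)
open Pool.Agent.D2 (Ctx0)
open Pool.Agent.D2P (clI mem_clI mem_adj_self)
open Pool.Agent.TWM
open Pool.Agent.TWS (VG RatV)

universe u

/-- `D = cl k(x, w)`, `(x, w)` a tight pair of levels `v (x 0) + ρ`, `s`, `v (x 0) = g / m`, the value
of `w` as deep as one wants. -/
def HasTPd {k Ω : Type u} [Field k] [Field Ω] [Algebra k Ω] (p : ℕ) (v : RVal Ω)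
    (D : IntermediateField k Ω) : Prop :=
  ∃ g ρ s : ℝ, g ≠ 0 ∧ ∀ L : ℕ, ∃ (x w : ℕ → Ω) (m : ℕ), ¬ p ∣ m ∧ (m : ℝ) * v (x 0) = g ∧
    TP p v D x w (v (x 0) + ρ) s ∧ D = CP v (x 0) (w 0) ∧
      ∃ (l : ℕ) (a b : ℤ), L ≤ l ∧ ¬ (p : ℤ) ∣ a ∧ ¬ (p : ℤ) ∣ b ∧
        (b : ℝ) * p ^ l * v (w 0) = a * g

/-! ### Scales -/

section Scale

variable {p : ℕ} {G : AddSubgroup ℝ} {g α β : ℝ}

/-- Two commensurable elements have a common measure. -/
theorem exists_cmeas (hα : α ∈ G) (hβ : β ∈ G) {n m : ℤ} (hn : n ≠ 0)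
    (h : (n : ℝ) * β = m * α) :
    ∃ τ ∈ G, ∃ a b : ℤ, a ≠ 0 ∧ IsCoprime a b ∧ a ∣ n ∧ α = a * τ ∧ β = b * τ := by
  have h1 : 0 < Int.gcd n m := Int.gcd_pos_iff.2 (Or.inl hn)
  obtain ⟨n', m', h2, h3, h4⟩ := Int.exists_gcd_one h1
  have h5 : IsCoprime n' m' := Int.isCoprime_iff_gcd_eq_one.2 h2
  have hd : ((Int.gcd n m : ℤ) : ℝ) ≠ 0 := by exact_mod_cast h1.ne'
  have h6 : (n' : ℝ) * β = m' * α := by
    refine mul_left_cancel₀ hd ?_
    have e1 : (n : ℝ) = n' * ((Int.gcd n m : ℤ) : ℝ) := by exact_mod_cast h3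
    have e2 : (m : ℝ) = m' * ((Int.gcd n m : ℤ) : ℝ) := by exact_mod_cast h4
    have e3 : (n' : ℝ) * ((Int.gcd n m : ℤ) : ℝ) * β = m' * ((Int.gcd n m : ℤ) : ℝ) * α := by
      rw [← e1, ← e2, h]
    linear_combination e3
  obtain ⟨u, t, hut⟩ := h5
  have hutR : (u : ℝ) * n' + t * m' = 1 := by exact_mod_cast hut
  refine ⟨u • α + t • β, add_mem (zsmul_mem hα u) (zsmul_mem hβ t), n', m', ?_, ⟨u, t, hut⟩,
    ⟨_, h3⟩, ?_, ?_⟩
  · rintro rfl
    rw [zero_mul] at h3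
    exact hn h3
  · rw [zsmul_eq_mul, zsmul_eq_mul]
    linear_combination (-α) * hutR - (t : ℝ) * h6
  · rw [zsmul_eq_mul, zsmul_eq_mul]
    linear_combination (-β) * hutR + (u : ℝ) * h6

/-- A finite set of values is in a cyclic group generated by `g / (D p ^ l)`. -/
theorem exists_cscale [hp : Fact p.Prime] (hg : g ∈ G) (hdiv : ∀ a ∈ G, a / p ∈ G)
    (hrat : ∀ a ∈ G, ∃ n : ℕ, n ≠ 0 ∧ ∃ m : ℤ, (n : ℝ) * a = m * g) (S : Finset ℝ)
    (hS : ∀ a ∈ S, a ∈ G) :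
    ∃ D : ℤ, ¬ (p : ℤ) ∣ D ∧ ∃ M : ℕ, ∀ l, M ≤ l → ∃ τ ∈ G, (D : ℝ) * p ^ l * τ = g ∧
      ∀ a ∈ S, ∃ c : ℤ, a = c * τ := by
  have hp0 : (p : ℝ) ≠ 0 := by exact_mod_cast hp.out.ne_zero
  have hdiv' : ∀ (l : ℕ), ∀ a ∈ G, a / p ^ l ∈ G := by
    intro l
    induction l with
    | zero => intro a ha; rwa [pow_zero, div_one]
    | succ l ih =>
      intro a ha
      rw [pow_succ, ← div_div]
      exact hdiv _ (ih a ha)
  induction S using Finset.induction_on with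
  | empty =>
    refine ⟨1, ?_, 0, fun l _ => ⟨g / p ^ l, hdiv' l g hg, ?_, by simp⟩⟩
    · intro h1
      have h2 : p ∣ 1 := by exact_mod_cast h1
      exact hp.out.one_lt.ne' (Nat.dvd_one.1 h2)
    · rw [Int.cast_one, one_mul, mul_div_cancel₀ _ (pow_ne_zero l hp0)]
  | insert a S _ ih =>
    obtain ⟨D, hD, M, h1⟩ := ih fun b hb => hS b (Finset.mem_insert_of_mem hb)
    obtain ⟨τ, hτ, h2, h3⟩ := h1 M le_rfl
    obtain ⟨n, hn, m, h4⟩ := hrat a (hS a (Finset.mem_insert_self a S))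
    have h5 : ((n : ℤ) : ℝ) * a = ((m * (D * p ^ M) : ℤ) : ℝ) * τ := by
      push_cast
      rw [h4, ← h2]
      ring
    obtain ⟨τ', hτ', A, B, hA, -, -, h6, h7⟩ := exists_cmeas hτ (hS a (Finset.mem_insert_self a S))
      (by exact_mod_cast hn) h5
    obtain ⟨e, A', hA', hAe⟩ : ∃ (e : ℕ) (A' : ℤ), ¬ (p : ℤ) ∣ A' ∧ A = p ^ e * A' := by
      obtain ⟨A', h8, h9⟩ := (FiniteMultiplicity.of_prime_left
        (Nat.prime_iff_prime_int.1 hp.out) hA).exists_eq_pow_mul_and_not_dvd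
      exact ⟨_, A', h9, h8⟩
    refine ⟨D * A', ?_, M + e, fun l hl => ?_⟩
    · intro h8
      rcases (Nat.prime_iff_prime_int.1 hp.out).dvd_or_dvd h8 with h9 | h9
      · exact hD h9
      · exact hA' h9
    obtain ⟨j, rfl⟩ := Nat.exists_eq_add_of_le hl
    have h8 : τ' = ((p ^ j : ℤ) : ℝ) * (τ' / p ^ j) := by
      push_cast
      rw [mul_div_cancel₀ _ (pow_ne_zero j hp0)]
    refine ⟨τ' / p ^ j, hdiv' j _ hτ', ?_, fun b hb => ?_⟩
    · rw [← h2, h6, hAe]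
      push_cast
      rw [pow_add, pow_add]
      field_simp
    · rcases Finset.mem_insert.1 hb with rfl | hb
      · refine ⟨B * p ^ j, ?_⟩
        rw [Int.cast_mul, mul_assoc, ← h8]
        exact h7
      · obtain ⟨c, hc⟩ := h3 b hb
        refine ⟨c * A * p ^ j, ?_⟩
        rw [Int.cast_mul, Int.cast_mul, mul_assoc, ← h8, hc, h6]
        ring

end Scale

/-! ### The pair in the other order -/

section Swap

variable {k Ω : Type u} [Field k] [Field Ω] [Algebra k Ω] {v : RVal Ω}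
  {p : ℕ} [hp : Fact p.Prime] [CharP k p] [CharP Ω p] {D L : IntermediateField k Ω}
  {x w : ℕ → Ω} {r s γ : ℝ}

/-- The level of a tight element is above its value. -/
theorem Tgt.val_lt [IsAlgClosed Ω] (h0 : Ctx0 k v) (hdiv : ∀ g ∈ VG v L, g / p ∈ VG v L) (h : Tgt p v L x r) :
    v (x 0) < r := by
  have hx0 : x 0 ≠ 0 := ne_zero_of_far h.root (h.dst 0).far
  have hp0 : (0 : ℝ) < p := by exact_mod_cast hp.out.pos
  obtain ⟨h1, h2⟩ := val_root_t (v := v) h.root hx0 1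
  rw [pow_one] at h2
  by_contra hlt
  push Not at hlt
  obtain ⟨a, ha, ha0, h3⟩ := hdiv _ (VG.self (v := v) h.mem hx0)
  have h4 : v (x 1 / a) = 0 := by
    rw [div_eq_mul_inv, v.map_mul h1 (inv_ne_zero ha0), v.map_inv ha0, h3, h2]
    ring
  obtain ⟨c, hc, h5⟩ := h0.res (x 1 / a) (div_ne_zero h1 ha0) h4
  refine (h.dst 0).far ⟨algebraMap k Ω c * a, mul_mem (L.algebraMap_mem c) ha, ?_⟩
  have e1 : x (0 + 1) - algebraMap k Ω c * a = (x 1 / a - algebraMap k Ω c) * a := by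
    rw [sub_mul, div_mul_cancel₀ _ ha0]
  rw [e1]
  intro h6
  obtain ⟨h7, -⟩ := mul_ne_zero_iff.1 h6
  have h8 := h5 h7
  rw [v.map_mul h7 ha0, h3, zero_add, pow_one]
  have h9 : r / p ≤ v (x 0) / p := div_le_div_of_nonneg_right hlt hp0.le
  linarith

/-- **Deep pairs have good resonances, in the other order.** -/
theorem HasTPd.hasTPn [IsAlgClosed Ω] [IsAlgClosed k] (h0 : Ctx0 k v) (hc : CompleteV v)
    (hrat : RatV v D γ) (hdiv : ∀ g ∈ VG v D, g / p ∈ VG v D) (h : HasTPd p v D) :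
    HasTPn p v D := by
  classical
  intro N
  obtain ⟨g, ρ, s, hg0, hw⟩ := h
  have hp0 : (p : ℝ) ≠ 0 := by exact_mod_cast hp.out.ne_zero
  have hpZ : Prime (p : ℤ) := Nat.prime_iff_prime_int.1 hp.out
  have hne : ∀ a : ℤ, ¬ (p : ℤ) ∣ a → (a : ℝ) ≠ 0 := by
    intro a ha h1
    have h2 : a = 0 := by exact_mod_cast h1
    exact ha (h2 ▸ dvd_zero _)
  have hdiv' : ∀ (l : ℕ), ∀ a ∈ VG v D, a / p ^ l ∈ VG v D := by
    intro l
    induction l with
    | zero => intro a ha; rwa [pow_zero, div_one]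
    | succ l ih =>
      intro a ha
      rw [pow_succ, ← div_div]
      exact hdiv _ (ih a ha)
  obtain ⟨hgV, hratg⟩ : g ∈ VG v D ∧ RatV v D g := by
    obtain ⟨x, w, m, hm, hgx, hT, -⟩ := hw 0
    have hx0 : x 0 ≠ 0 := ne_zero_of_far hT.tgt.root (hT.tgt.dst 0).far
    have h1 : x 0 ^ m ∈ D := pow_mem hT.tgt.mem m
    have h2 : v (x 0 ^ m) = g := by rw [v.map_pow hx0, hgx]
    refine ⟨h2 ▸ VG.self h1 (pow_ne_zero m hx0), ?_⟩
    have h3 := ratV_all hrat h1 (pow_ne_zero m hx0) (by rw [h2]; exact hg0)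
    rwa [h2] at h3
  -- the resonances
  set γf : ℕ × ℕ → ℝ := fun q => if (p : ℝ) ^ q.2 * ρ - p ^ q.1 * s ∈ VG v D then
    ((p : ℝ) ^ q.2 * ρ - p ^ q.1 * s) / p ^ (q.1 + 1) else 0 with hγf
  obtain ⟨d, hd, M, hM⟩ := exists_cscale hgV hdiv hratg
    ((Finset.range N ×ˢ Finset.range N).image γf) (by
      intro a ha
      obtain ⟨q, -, rfl⟩ := Finset.mem_image.1 ha
      rw [hγf]
      dsimp only
      split_ifs with h1
      · exact hdiv' _ _ h1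
      · exact zero_mem _)
  obtain ⟨x, w, m, hm, hgx, hT, hD, l, a, b, hl, ha, hb, hval⟩ := hw (max M N)
  have hlM : M ≤ l := (le_max_left _ _).trans hl
  have hlN : N ≤ l := (le_max_right _ _).trans hl
  obtain ⟨τ, hτ, hτ1, hτ2⟩ := hM l hlM
  have hx0 : x 0 ≠ 0 := ne_zero_of_far hT.tgt.root (hT.tgt.dst 0).far
  have hxV : v (x 0) ∈ VG v D := VG.self hT.tgt.mem hx0
  have hw0 : w 0 ≠ 0 := ne_zero_of_far hT.root (hT.tgt'.dst 0).far
  have hwV : v (w 0) ∈ VG v D := VG.self hT.mem hw0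
  have hplR : (p : ℝ) ^ l ≠ 0 := pow_ne_zero _ hp0
  have hτ0 : τ ≠ 0 := by
    rintro rfl
    rw [mul_zero] at hτ1
    exact hg0 hτ1.symm
  have hmZ : ¬ (p : ℤ) ∣ (m : ℤ) := fun h1 => hm (by exact_mod_cast h1)
  have hm0 : (m : ℤ) ≠ 0 := fun h1 => hmZ (h1 ▸ dvd_zero _)
  -- the value of `x`
  obtain ⟨τ₁, hτ₁, a₁, b₁, -, -, ha₁m, hτa, hxb⟩ := exists_cmeas (n := (m : ℤ))
    (m := d * (p : ℤ) ^ l) hτ hxV hm0 (by
      push_cast
      rw [hgx, hτ1])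
  have ha₁ : ¬ (p : ℤ) ∣ a₁ := fun h1 => hmZ (h1.trans ha₁m)
  have hτ₁0 : τ₁ ≠ 0 := by
    rintro rfl
    exact hτ0 (by rw [hτa, mul_zero])
  obtain ⟨b₂, hb₂⟩ : (p : ℤ) ^ l ∣ b₁ := by
    have h1 : (m : ℤ) * b₁ = d * (p : ℤ) ^ l * a₁ := by
      have h2 : (((m : ℤ) * b₁ : ℤ) : ℝ) * τ₁ = ((d * (p : ℤ) ^ l * a₁ : ℤ) : ℝ) * τ₁ := by
        push_cast
        rw [hxb] at hgx
        rw [hτa] at hτ1
        linear_combination hgx - hτ1
      exact_mod_cast mul_right_cancel₀ hτ₁0 h2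
    have h2 : IsCoprime ((p : ℤ) ^ l) (m : ℤ) :=
      (hpZ.coprime_iff_not_dvd.2 hmZ).pow_left
    exact h2.dvd_of_dvd_mul_left ⟨d * a₁, by rw [h1]; ring⟩
  -- the value of `w`
  have hrel : (b : ℝ) * v (w 0) = ((a * d * a₁ : ℤ) : ℝ) * τ₁ := by
    refine mul_left_cancel₀ hplR ?_
    rw [hτa] at hτ1
    push_cast
    linear_combination hval - (a : ℝ) * hτ1
  have hb0 : b ≠ 0 := fun h1 => hne b hb (by rw [h1, Int.cast_zero])
  obtain ⟨τ', hτ', A, B, hA0, -, hAb, hτA, hwB⟩ := exists_cmeas hτ₁ hwV hb0 hrel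
  have hA : ¬ (p : ℤ) ∣ A := fun h1 => hb (h1.trans hAb)
  have hτ'0 : τ' ≠ 0 := by
    rintro rfl
    exact hτ₁0 (by rw [hτA, mul_zero])
  have hbB : b * B = a * d * a₁ * A := by
    have h1 : ((b * B : ℤ) : ℝ) * τ' = ((a * d * a₁ * A : ℤ) : ℝ) * τ' := by
      push_cast
      push_cast at hrel
      rw [hwB, hτA] at hrel
      linear_combination hrel
    exact_mod_cast mul_right_cancel₀ hτ'0 h1
  have hB : ¬ (p : ℤ) ∣ B := by
    intro h1
    have h2 : (p : ℤ) ∣ a * d * a₁ * A := hbB ▸ Dvd.dvd.mul_left h1 b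
    rcases hpZ.dvd_or_dvd h2 with h3 | h3
    · rcases hpZ.dvd_or_dvd h3 with h4 | h4
      · rcases hpZ.dvd_or_dvd h4 with h5 | h5
        · exact ha h5
        · exact hd h5
      · exact ha₁ h4
    · exact hA h3
  set n : ℕ := B.natAbs with hn
  have hnp : ¬ p ∣ n := fun h1 => hB (Int.natCast_dvd.2 h1)
  have hn0 : n ≠ 0 := fun h1 => hnp (h1 ▸ dvd_zero _)
  have hnR : (n : ℝ) ≠ 0 := by exact_mod_cast hn0
  obtain ⟨σ, hσ, hBσ⟩ : ∃ σ : ℤ, σ * σ = 1 ∧ B = σ * n := by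
    rcases Int.natAbs_eq B with h1 | h1
    · exact ⟨1, one_mul _, by rw [one_mul]; exact h1⟩
    · exact ⟨-1, by norm_num, by rw [neg_one_mul]; exact h1⟩
  have hσR : (σ : ℝ) * σ = 1 := by exact_mod_cast hσ
  obtain ⟨f, hf⟩ := IsAlgClosed.exists_pow_nat_eq (w 0) (Nat.pos_of_ne_zero hn0)
  have hf0 : f ≠ 0 := by
    rintro rfl
    rw [zero_pow hn0] at hf
    exact hw0 hf.symm
  have hfv : v f = σ * τ' := by
    refine mul_left_cancel₀ hnR ?_
    rw [← v.map_pow hf0, hf, hwB, hBσ]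
    push_cast
    ring
  have hfG : v f ∈ VG v D := by
    rw [hfv]
    rw [← zsmul_eq_mul]
    exact zsmul_mem hτ' σ
  have hfD : f ∈ D := TWTam.root_mem h0 hT.tgt.cld hT.mem
    ⟨hf0, n, hnp, 1, by rw [zpow_one, hf]⟩ hfG
  obtain ⟨t, ht0, htr⟩ := exists_rts p f
  have htw : ∀ i, t i ^ n = w i := by
    intro i
    induction i with
    | zero => rw [ht0, hf]
    | succ i ih =>
      have h1 : (t (i + 1) ^ n) ^ p = w (i + 1) ^ p := by
        rw [← pow_mul, mul_comm, pow_mul, htr, ih, hT.root]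
      exact frobenius_inj Ω p h1
  have htw' : (fun i => t i ^ (n : ℤ)) = w := by
    funext i
    rw [zpow_natCast]
    exact htw i
  have hnp' : ¬ (p : ℤ) ∣ (n : ℤ) := fun h1 => hnp (by exact_mod_cast h1)
  have hws : v (w 0) < s := hT.tgt'.val_lt h0 hdiv
  have hv0 : (n : ℝ) * v f = v (w 0) := by rw [← hf, v.map_pow hf0]
  have hT' : TP p v D t x (s - (n : ℤ) * v (t 0) + v (t 0)) (v (x 0) + ρ) := by
    refine TP.of_zpow htr (ht0 ▸ hfD) (ht0 ▸ hf0) hnp' ?_ ?_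
    · rw [htw']
      exact hT.swap h0 hc
    · rw [ht0, zpow_natCast, hf]
      exact hws
  refine ⟨t, x, _, v (x 0) + ρ, ?_, ?_, hT', ?_, ?_⟩
  · rw [ht0, hfv]
    refine mul_ne_zero (fun h1 => ?_) hτ'0
    rw [h1, mul_zero] at hσR
    exact zero_ne_one hσR
  · rw [ht0]
    push_cast
    linarith
  · rw [ht0]
    refine le_antisymm ?_ (CP_le hT.tgt.cld hfD hT.tgt.mem)
    conv_lhs => rw [hD]
    refine CP_le (CP_cld _ _) (CP_snd _ _) ?_
    rw [← hf]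
    exact pow_mem (CP_fst _ _) _
  · intro i j hi hj h1
    rw [ht0]
    rw [ht0] at h1
    have e1 : (p : ℝ) ^ j * ρ - p ^ i * s ∈ VG v D := by
      have h2 : (p : ℝ) ^ j * ρ - p ^ i * s =
          ((p : ℝ) ^ j * (v (x 0) + ρ) - p ^ i * (s - ((n : ℤ) : ℝ) * v f + v f))
            - ((p : ℤ) ^ i * n) • v f + ((p : ℤ) ^ i) • v f - ((p : ℤ) ^ j) • v (x 0) := by
        rw [zsmul_eq_mul, zsmul_eq_mul, zsmul_eq_mul]
        push_cast
        ring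
      rw [h2]
      exact sub_mem (add_mem (sub_mem h1 (zsmul_mem hfG _)) (zsmul_mem hfG _)) (zsmul_mem hxV _)
    obtain ⟨c, hc'⟩ := hτ2 (γf (i, j)) (Finset.mem_image_of_mem γf
      (Finset.mem_product.2 ⟨Finset.mem_range.2 hi, Finset.mem_range.2 hj⟩))
    have e2 : γf (i, j) = ((p : ℝ) ^ j * ρ - p ^ i * s) / p ^ (i + 1) := by
      rw [hγf]
      dsimp only
      rw [if_pos e1]
    have hpi : (p : ℝ) ^ (i + 1) ≠ 0 := pow_ne_zero _ hp0
    have hvf : τ' = σ * v f := by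
      rw [hfv]
      linear_combination (-τ') * hσR
    have e3 : (p : ℝ) ^ j * ρ - p ^ i * s = p ^ (i + 1) * (c * a₁ * A * σ) * v f := by
      have h2 : (p : ℝ) ^ j * ρ - p ^ i * s = p ^ (i + 1) * γf (i, j) := by
        rw [e2, mul_div_cancel₀ _ hpi]
      rw [h2, hc', hτa, hτA, hvf]
      ring
    obtain ⟨q, hq⟩ := Nat.exists_eq_add_of_le (show i + 1 ≤ l by omega)
    have e4 : v (x 0) = p ^ (i + 1) * (p ^ q * b₂ * A * σ) * v f := by
      rw [hxb, hb₂, hτA, hvf, hq, pow_add]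
      push_cast
      ring
    refine ⟨n + p * (c * a₁ * A * σ + p ^ j * (p ^ q * b₂ * A * σ)), fun h2 => hnp' ?_, ?_⟩
    · exact (Int.dvd_add_left (dvd_mul_right _ _)).1 h2
    · push_cast
      rw [show (p : ℝ) ^ j * (v (x 0) + ρ) - p ^ i * (s - n * v f + v f) =
        ((p : ℝ) ^ j * ρ - p ^ i * s) + p ^ j * v (x 0) + p ^ i * (n * v f) - p ^ i * v f by ring,
        e3, e4, pow_succ]
      ring

end Swap

end Pool.Agent.TWC
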