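import Pool.Agent.Lib.TWF.TamG
import Pool.Agent.Lib.TWF.CPi
import Pool.Agent.Lib.TWF.InfDefs
import Pool.Agent.Lib.TWC.Irr5

/-!
# TANK W, tame base: the frame of the rational radii

`C` the closure of `k(x, y)`, `y` of rational radius `s`, the base `W = WX v C x` tame. `P` the closure
of the perfect closure of `C`; `Z` a tame root of a power of `x`, `N` the order of `v Z` modulo the
values of `C`, `GD v P Z N`; `c` of value `s`; `C₂ = C(x ^ (1 / p ^ i))(Z)`, `C₂ = W₂<y / c>`.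

* `TamFr`: the frame; `exists_tamFr`.
-/

set_option autoImplicit false

open Polynomial

namespace Pool.Agent.TWF.CPf

open Pool.Agent.H15JM (RVal)
open Pool.Agent.LU1 (VPos adj)
open Pool.Agent.D2 (Ctx0)
open Pool.Agent.D2P (clI mem_clI mem_adj_self adj_le)
open Pool.Agent.TW (mon pcomb Ctx PBasis)
open Pool.Agent.TWM
open Pool.Agent.TWS (VG IsoE SphC RatV)
open Pool.Agent.TWC
open Pool.Agent.TWC.PW (WT RS PRT)

universe u

variable {k Ω : Type u} [Field k] [Field Ω] [Algebra k Ω] {v : RVal Ω} {Γ G : AddSubgroup ℝ}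
  {p : ℕ} {x y Z : Ω} {s : ℝ} {C A : IntermediateField k Ω} {N : ℕ}

/-! ### Numbers -/

section

variable [hp : Fact p.Prime]

theorem div_pow_mem' (hdiv : ∀ g ∈ G, g / p ∈ G) {g : ℝ} (n : ℕ) (h : (p : ℝ) ^ n * g ∈ G) :
    g ∈ G := by
  have hp0 : (p : ℝ) ≠ 0 := by exact_mod_cast hp.out.ne_zero
  induction n with
  | zero => rwa [pow_zero, one_mul] at h
  | succ n ih =>
    refine ih ?_
    have h1 := hdiv _ h
    rwa [pow_succ, mul_right_comm, mul_div_cancel_right₀ _ hp0] at h1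

/-- The order of `s` modulo `G`. -/
theorem exists_order (hdiv : ∀ g ∈ G, g / p ∈ G) {n : ℕ} (hn : n ≠ 0) (h : (n : ℝ) * s ∈ G) :
    ∃ N : ℕ, 0 < N ∧ ¬ p ∣ N ∧ (N : ℝ) * s ∈ G ∧ ∀ j : ℤ, (j : ℝ) * s ∈ G → (N : ℤ) ∣ j := by
  classical
  have hex : ∃ n : ℕ, 0 < n ∧ (n : ℝ) * s ∈ G := ⟨n, Nat.pos_of_ne_zero hn, h⟩
  set N := Nat.find hex with hN
  obtain ⟨hN0, hNs⟩ := Nat.find_spec hex
  have hp0 : (p : ℝ) ≠ 0 := by exact_mod_cast hp.out.ne_zero
  refine ⟨N, hN0, ?_, hNs, fun j hj => ?_⟩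
  · rintro ⟨n', hn'⟩
    have hn0 : 0 < n' := Nat.pos_of_ne_zero (by
      rintro rfl
      rw [mul_zero] at hn'
      omega)
    refine Nat.find_min hex (m := n') ?_ ⟨hn0, ?_⟩
    · rw [← hN, hn']
      exact (Nat.lt_mul_iff_one_lt_left hn0).2 hp.out.one_lt
    · rw [← hN, hn'] at hNs
      have h1 := hdiv _ hNs
      push_cast at h1
      rwa [mul_assoc, mul_div_cancel_left₀ _ hp0] at h1
  · have hNz : (0 : ℤ) < N := by exact_mod_cast hN0
    have h1 : (((j % N).toNat : ℕ) : ℤ) = j % N := Int.toNat_of_nonneg (Int.emod_nonneg _ hNz.ne')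
    have h2 : (((j % N).toNat : ℕ) : ℝ) * s ∈ G := by
      have h3 : (((j % N).toNat : ℕ) : ℝ) = (j : ℝ) - (j / N : ℤ) * N := by
        have h4 : ((j % N : ℤ) : ℝ) = (j : ℝ) - (j / N : ℤ) * N := by
          have := Int.emod_def j N
          rw [this]
          push_cast
          ring
        rw [← h4, ← h1]
        norm_cast
      rw [h3, sub_mul, mul_assoc]
      exact sub_mem hj (by rw [← zsmul_eq_mul]; exact G.zsmul_mem hNs _)
    have h3 : (j % N).toNat < N := by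
      have := Int.emod_lt_of_pos j hNz
      omega
    have h4 : (j % N).toNat = 0 := by
      by_contra h0
      exact Nat.find_min hex h3 ⟨Nat.pos_of_ne_zero h0, h2⟩
    have h5 : j % N = 0 := by
      rw [← h1, h4]
      rfl
    exact Int.dvd_of_emod_eq_zero h5

omit hp in
/-- A power of a tame root with a given value. -/
theorem exists_tame_pow [IsAlgClosed Ω] (hx : x ≠ 0) (hxΓ : v x ∈ Γ) {ρ : ℝ}
    (hρ : ρ ∈ Γ) {n : ℕ} (hn : ¬ p ∣ n) {m : ℤ} (h : (n : ℝ) * ρ = m * v x) :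
    ∃ (l : ℕ) (z : Ω) (j : ℤ), TR p v Γ x l z ∧ v (z ^ j) = ρ := by
  have hn0 : n ≠ 0 := by
    rintro rfl
    exact hn (dvd_zero p)
  have hdpos : 0 < Int.gcd n m := Int.gcd_pos_of_ne_zero_left _ (by exact_mod_cast hn0)
  obtain ⟨l', j, hg1, hl', hj⟩ := Int.exists_gcd_one hdpos
  set d : ℕ := Int.gcd n m with hd
  have hl0 : 0 < l' := by
    by_contra h1
    push Not at h1
    have h2 : (n : ℤ) ≤ 0 := by
      rw [hl']
      exact mul_nonpos_of_nonpos_of_nonneg h1 (by positivity)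
    have h3 : (0 : ℤ) < n := by exact_mod_cast Nat.pos_of_ne_zero hn0
    omega
  obtain ⟨l, rfl⟩ : ∃ l : ℕ, l' = l := ⟨l'.toNat, by omega⟩
  have hlpos : l ≠ 0 := by
    rintro rfl
    exact lt_irrefl _ hl0
  have hnl : n = l * d := by exact_mod_cast hl'
  have hln : ¬ p ∣ l := fun h1 => hn (hnl ▸ h1.mul_right d)
  obtain ⟨α, β, hαβ⟩ := Int.isCoprime_iff_gcd_eq_one.2 hg1
  obtain ⟨z, hz⟩ := IsAlgClosed.exists_pow_nat_eq x (Nat.pos_of_ne_zero hlpos)
  have hz0 : z ≠ 0 := by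
    rintro rfl
    rw [zero_pow hlpos] at hz
    exact hx hz.symm
  have hzv : (l : ℝ) * v z = v x := by rw [← hz, v.map_pow hz0]
  have hd0 : (d : ℝ) ≠ 0 := by exact_mod_cast hdpos.ne'
  have hl0' : (l : ℝ) ≠ 0 := by exact_mod_cast hlpos
  have hjv : (j : ℝ) * v z = ρ := by
    rw [hnl, hj, ← hzv] at h
    push_cast at h
    have h1 : ((l : ℝ) * d) * ((j : ℝ) * v z) = (l * d) * ρ := by
      rw [h]
      ring
    exact mul_left_cancel₀ (mul_ne_zero hl0' hd0) h1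
  refine ⟨l, z, j, ⟨hln, hz, ?_⟩, by rw [v.map_zpow hz0, hjv]⟩
  have h1 : v z = α * v x + β * ρ := by
    have h2 : ((α * l + β * j : ℤ) : ℝ) = 1 := by
      rw [hαβ]
      norm_num
    push_cast at h2
    rw [← hzv, ← hjv]
    linear_combination (-v z) * h2
  rw [h1, ← zsmul_eq_mul, ← zsmul_eq_mul]
  exact add_mem (Γ.zsmul_mem hxΓ _) (Γ.zsmul_mem hρ _)

end

/-! ### Fields -/

section

variable [hp : Fact p.Prime]

omit hp in
/-- Elements with a tame power in the closed field `A`, and a value of `A`. -/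
theorem mem_of_root [CharP k p] [IsAlgClosed k] [IsAlgClosed Ω] (h0 : Ctx0 k v) (hA : Cld v A)
    (hx : x ∈ A) {f : Ω} (hf : f ≠ 0) {m : ℕ} (hm : ¬ p ∣ m) {j : ℤ} (h : f ^ m = x ^ j)
    (hv : v f ∈ VG v A) : f ∈ A := by
  obtain ⟨a, ha, ha0, h3⟩ := hv
  exact TWTam.root_mem h0 hA hx ⟨hf, m, hm, j, h⟩ ⟨a, ha, ha0, h3⟩

omit hp in
theorem WT_mono_grp (h : G ≤ Γ) : WT k p v G x ≤ WT k p v Γ x := by
  refine clI_mono' (IntermediateField.adjoin.mono k _ _ ?_)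
  rintro f ⟨m, h1, h2, h3⟩
  exact ⟨m, h1, h2, h h3⟩

variable [CharP Ω p] [IsAlgClosed Ω]

omit [IsAlgClosed Ω] in
/-- The values of the perfect closure. -/
theorem vg_perf (hdiv : ∀ g ∈ VG v C, g / p ∈ VG v C) : VG v (clI v (perfC p C)) = VG v C := by
  rw [VG.clI]
  refine le_antisymm ?_ (VG.mono (le_perfC p C))
  rintro _ ⟨a, ha, ha0, rfl⟩
  obtain ⟨n, hn⟩ := (mem_perfC p).1 ha
  refine div_pow_mem' hdiv n ?_
  have h1 := VG.self (v := v) hn (pow_ne_zero _ ha0)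
  rw [v.map_pow ha0] at h1
  exact_mod_cast h1

/-- The closure of the perfect closure is perfect. -/
theorem clI_perf : ∀ a ∈ clI v (perfC p C), ∃ b ∈ clI v (perfC p C), b ^ p = a := by
  intro a ha
  obtain ⟨b, hb⟩ := IsAlgClosed.exists_pow_nat_eq a hp.out.pos
  refine ⟨b, ?_, hb⟩
  have h1 : b ∈ perfC p (clI v (perfC p C)) := (mem_perfC p).2 ⟨1, by rwa [pow_one, hb]⟩
  have h2 := perfC_clI_le p (v := v) (perfC p C) h1
  refine TWC.clI_mono' (fun c hc => ?_) h2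
  obtain ⟨n, hn⟩ := (mem_perfC p).1 hc
  obtain ⟨m, hm⟩ := (mem_perfC p).1 hn
  exact (mem_perfC p).2 ⟨n + m, by rwa [pow_add, pow_mul]⟩

end

/-! ### The frame -/

/-- **The frame of a tame base and a rational radius.** -/
structure TamFr (p : ℕ) [Fact p.Prime] [CharP Ω p] (v : RVal Ω) (C : IntermediateField k Ω)
    (x y : Ω) (s : ℝ) (X : ℕ → Ω) (i N : ℕ) (Z c c₀ : Ω) (ζ : k) (sg : Ω →ₐ[k] Ω)
    (C₂ : IntermediateField k Ω) : Prop where
  root : ∀ n, X (n + 1) ^ p = X n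
  nd : ¬ p ∣ N
  gd : GD v (clI v (perfC p C)) Z N
  perf : ∀ a ∈ clI v (perfC p C), ∃ b ∈ clI v (perfC p C), b ^ p = a
  leP : C ≤ clI v (perfC p C)
  vgP : VG v (clI v (perfC p C)) = VG v C
  memX : ∀ n, X n ∈ clI v (perfC p C)
  memY : y ∈ clI v (perfC p C)
  prim : IsPrimitiveRoot ζ N
  iso : IsoE v v sg
  fix : ∀ a ∈ clI v (perfC p C), sg a = a
  sgZ : sg Z = algebraMap k Ω ζ * Z
  sgN : ∀ a ∈ adj (clI v (perfC p C)) Z, (sg ^ N) a = a
  sgc : sg c = algebraMap k Ω ζ * c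
  memc₀ : c₀ ∈ clI v (perfC p C)
  eqc : c = c₀ * Z
  c₀0 : c₀ ≠ 0
  c0 : c ≠ 0
  valc : v c = s
  memc : c ∈ WT k p v (VG v C₂) (X i)
  memZ : Z ∈ WT k p v (VG v C₂) (X i)
  val : v (X i) ∈ VG v C₂
  neg : v (X i) < 0
  div : ∀ g ∈ VG v C₂, g / p ∈ VG v C₂
  vg : ∀ g ∈ VG v C₂, ∃ j : ℤ, g - j * v Z ∈ VG v (clI v (perfC p C))
  vgZ : v Z ∈ VG v C₂
  Ns : (N : ℝ) * s ∈ VG v C
  leW : WX v C x ≤ WT k p v (VG v C₂) (X i)
  cld2 : Cld v C₂
  leC : C ≤ C₂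
  le2 : C₂ ≤ adj (clI v (perfC p C)) Z
  eq : C₂ = cadj v (WT k p v (VG v C₂) (X i)) (y / c)
  oi : ∃ c₁, OI p v C₂ ![X i] c₁
  tg : TG p v C₂
  tl : TL v (EW v (WT k p v (VG v C₂) (X i)) fun n => X (i + n)) (y / c) 0
  desc : ∀ (K : IntermediateField k Ω) (e : ℕ), Cld v K → C₂ ≤ K → (∀ a ∈ K, a ^ p ^ e ∈ C₂) →
    K ≤ adj (clI v (perfC p C)) Z ∧ (HasTPn p v (K ⊓ clI v (perfC p C)) → HasTPn p v C)
  isog : ∀ (K : IntermediateField k Ω) (e : ℕ), C₂ ≤ K → (∀ a ∈ K, a ^ p ^ e ∈ C₂) →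
    C ≤ K ⊓ clI v (perfC p C) ∧ ∀ a ∈ K ⊓ clI v (perfC p C), a ^ p ^ (e + i) ∈ C
  str : (∀ L, 1 ≤ L → Sd v (WT k p v (VG v C₂) (X i)) (y / c) L (L * 0)) → StrW v (WX v C x) y s

section

variable [hp : Fact p.Prime]

/-- The index `1 / l` modulo `p`. -/
theorem oi_tame [CharP Ω p] {z : Ω} {l : ℕ} (hl : ¬ p ∣ l) (hz : z ∈ A) (hz0 : z ≠ 0) {c₁ : ℝ}
    (ho : OI p v A ![z ^ l, y] c₁) : OI p v A ![z, y] c₁ := by
  classical
  have hpp := hp.out.pos
  obtain ⟨l', m', hlm⟩ : ∃ l' m' : ℕ, l * l' = 1 + p * m' := by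
    have hcop : Nat.Coprime l p :=
      Nat.coprime_comm.1 ((Nat.Prime.coprime_iff_not_dvd hp.out).2 hl)
    obtain ⟨l', -, h1⟩ := Nat.exists_mul_mod_eq_one_of_coprime hcop hp.out.one_lt
    refine ⟨l', l * l' / p, ?_⟩
    have := Nat.mod_add_div (l * l') p
    rw [h1] at this
    exact this.symm
  have hl' : ¬ p ∣ l' := by
    rintro ⟨q, rfl⟩
    have h1 : p ∣ 1 + p * m' := hlm ▸ ⟨l * q, by ring⟩
    have h2 : p ∣ 1 := (Nat.dvd_add_iff_left (Dvd.intro _ rfl)).2 h1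
    exact hp.out.one_lt.ne' (Nat.dvd_one.1 h2)
  -- the bijection of the exponents
  let σ : Fin p → Fin p := fun i => ⟨l' * i % p, Nat.mod_lt _ hpp⟩
  have hσ : Function.Injective σ := by
    intro i j hij
    have h1 : l' * i % p = l' * j % p := congrArg Fin.val hij
    have h2 : (i : ℕ) ≡ j [MOD p] := Nat.ModEq.cancel_left_of_coprime
      ((Nat.Prime.coprime_iff_not_dvd hp.out).2 hl' : Nat.gcd p l' = 1) h1
    have h3 := h2
    rw [Nat.ModEq, Nat.mod_eq_of_lt i.2, Nat.mod_eq_of_lt j.2] at h3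
    exact Fin.ext h3
  let τ : (Fin 2 → Fin p) → (Fin 2 → Fin p) := fun α => ![σ (α 0), α 1]
  have hτ : Function.Bijective τ := by
    refine Finite.injective_iff_bijective.1 fun α β hαβ => ?_
    have h1 : σ (α 0) = σ (β 0) := congrFun hαβ 0
    have h2 : α 1 = β 1 := congrFun hαβ 1
    funext i
    refine Fin.cases (hσ h1) (fun i => ?_) i
    rw [Fin.fin_one_eq_zero i]
    exact h2
  let e := Equiv.ofBijective τ hτ
  intro c hc b hb α
  -- the coefficients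
  let u : (Fin 2 → Fin p) → Ω := fun α => (z ^ l) ^ (l' * (α 0 : ℕ) / p) * (z ^ (m' * (α 0 : ℕ)))⁻¹
  have hu : ∀ α, u α ∈ A := fun α =>
    mul_mem (pow_mem (pow_mem hz _) _) (inv_mem (pow_mem hz _))
  have key : ∀ α : Fin 2 → Fin p, u α ^ p * mon (p := p) ![z ^ l, y] (e α) =
      mon (p := p) ![z, y] α := by
    intro α
    have h1 : (e α 0 : ℕ) = l' * (α 0 : ℕ) % p := rfl
    have h2 : e α 1 = α 1 := rfl
    rw [mon, mon, Fin.prod_univ_two, Fin.prod_univ_two, h1, h2]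
    have h3 : (z ^ l) ^ (l' * (α 0 : ℕ)) = z ^ (α 0 : ℕ) * (z ^ (m' * (α 0 : ℕ))) ^ p := by
      rw [← pow_mul, ← pow_mul, ← pow_add]
      congr 1
      calc l * (l' * (α 0 : ℕ)) = l * l' * α 0 := by ring
        _ = (1 + p * m') * α 0 := by rw [hlm]
        _ = _ := by ring
    have h4 : (z ^ l) ^ (l' * (α 0 : ℕ)) =
        ((z ^ l) ^ (l' * (α 0 : ℕ) / p)) ^ p * (z ^ l) ^ (l' * (α 0 : ℕ) % p) := by
      conv_lhs => rw [← Nat.div_add_mod (l' * (α 0 : ℕ)) p, pow_add, mul_comm p, pow_mul]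
    have h5 : z ^ (m' * (α 0 : ℕ)) ≠ 0 := pow_ne_zero _ hz0
    show ((z ^ l) ^ (l' * (α 0 : ℕ) / p) * (z ^ (m' * (α 0 : ℕ)))⁻¹) ^ p *
      ((z ^ l) ^ (l' * (α 0 : ℕ) % p) * y ^ (α 1 : ℕ)) = z ^ (α 0 : ℕ) * y ^ (α 1 : ℕ)
    rw [mul_pow, inv_pow]
    rw [h4] at h3
    field_simp
    linear_combination (y ^ (α 1 : ℕ)) * h3
  let c' : (Fin 2 → Fin p) → Ω := fun β => c (e.symm β) * u (e.symm β)
  have hterm : ∀ α, c' (e α) ^ p * mon (p := p) ![z ^ l, y] (e α) =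
      c α ^ p * mon (p := p) ![z, y] α := by
    intro α
    show (c (e.symm (e α)) * u (e.symm (e α))) ^ p * _ = _
    rw [e.symm_apply_apply, mul_pow, mul_assoc, key]
  have hpc : pcomb ![z ^ l, y] c' = pcomb ![z, y] c := by
    rw [pcomb, pcomb, ← Equiv.sum_comp e]
    exact Finset.sum_congr rfl fun α _ => hterm α
  have h1 := ho c' (fun β => mul_mem (hc _) (hu _)) b (by rwa [hpc]) (e α)
  rwa [hterm] at h1

variable [CharP k p] [CharP Ω p] [IsAlgClosed k] [IsAlgClosed Ω]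

/-- **The frame.** -/
theorem exists_tamFr (h0 : Ctx0 k v) (hc : CompleteV v) (hw : SphC v)
    (hval : ∀ ρ : ℝ, ∃ a : Ω, a ≠ 0 ∧ v a = ρ) {c₁ : ℝ} (hF : FInf p v C x y s c₁)
    (hrat : RatV v C (v x)) (hneg : v x < 0) (hV : v x / p ∉ VG v (WX v C x)) (hs : RatR (v x) s) :
    ∃ (X : ℕ → Ω) (i N : ℕ) (Z c c₀ : Ω) (ζ : k) (sg : Ω →ₐ[k] Ω) (C₂ : IntermediateField k Ω),
      X 0 = x ∧ TamFr p v C x y s X i N Z c c₀ ζ sg C₂ := by
  have hp0 : (p : ℝ) ≠ 0 := by exact_mod_cast hp.out.ne_zero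
  have hff := hF.toFF
  have hC : Cld v C := hff.cld
  have hx := hff.mem_x
  have hy := hff.mem_y
  have hx0 := hF.x0
  have hWX := WX_eq_WT (p := p) h0 hC hx hx0 hneg hV
  set G := VG v C with hG
  have hdG : ∀ g ∈ G, g / p ∈ G := hF.div
  have hxG : v x ∈ G := VG.self hx hx0
  -- the numbers
  obtain ⟨n, hn0, m, hnm⟩ := hs
  obtain ⟨e, n', hn', hnn⟩ := Nat.exists_eq_pow_mul_and_not_dvd hn0 p hp.out.ne_one
  obtain ⟨N, hN0, hNp, hNs, hord⟩ := exists_order (s := s) hdG hn0 (by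
    rw [hnm, ← zsmul_eq_mul]
    exact G.zsmul_mem hxG _)
  have hcopN : IsCoprime (N : ℤ) ((p : ℤ) ^ e) := (Nat.isCoprime_iff_coprime.2
    (Nat.coprime_comm.1 ((Nat.Prime.coprime_iff_not_dvd hp.out).2 hNp))).pow_right
  obtain ⟨β, t, hβt⟩ := hcopN
  -- `β N + t p ^ e = 1`
  set s' : ℝ := t * (p : ℝ) ^ e * s with hs'
  have hss' : s - s' = β * (N * s) := by
    have h1 : ((β * N + t * (p : ℤ) ^ e : ℤ) : ℝ) = 1 := by
      rw [hβt]
      norm_num
    push_cast at h1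
    rw [hs']
    linear_combination (-s) * h1
  have hss : s - s' ∈ G := by
    rw [hss', ← zsmul_eq_mul]
    exact G.zsmul_mem hNs _
  have hpe : (p : ℝ) ^ e ≠ 0 := pow_ne_zero _ hp0
  have hn's : (n' : ℝ) * ((p : ℝ) ^ e * s) = m * v x := by
    rw [← hnm, hnn]
    push_cast
    ring
  -- the letters
  obtain ⟨X, hX0, hr⟩ := exists_rts p x
  have hXne : X 0 ≠ 0 := by rw [hX0]; exact hx0
  have hXe : ∀ n, X n ^ p ^ n = x := fun n => by
    have := root_pow_add hr 0 n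
    rw [zero_add] at this
    rw [this, hX0]
  have hXe0 : X e ≠ 0 := root_ne hr hXne e
  have hXv : (p : ℝ) ^ e * v (X e) = v x := by
    rw [← hXe e, v.map_pow hXe0]
    push_cast
    ring
  -- the perfect closure
  set P := clI v (perfC p C) with hP
  have hPc : Cld v P := cld_clI v _
  have hPp : ∀ a ∈ P, ∃ b ∈ P, b ^ p = a := clI_perf
  have hPG : VG v P = G := vg_perf hdG
  have hpP : perfC p C ≤ P := self_le_clI v _
  have hCP : C ≤ P := (le_perfC p C).trans hpP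
  have hXP : ∀ n, X n ∈ P := fun n => hpP ((mem_perfC p).2 ⟨n, by rw [hXe]; exact hx⟩)
  -- the element `Z`
  set Γ₀ := G ⊔ AddSubgroup.zmultiples s' with hΓ₀
  obtain ⟨l₁, z₁, j₁, hz₁, hz₁v⟩ := exists_tame_pow (p := p) (Γ := Γ₀) (x := x) hx0
    (AddSubgroup.mem_sup_left hxG)
    (ρ := s') (AddSubgroup.mem_sup_right (AddSubgroup.mem_zmultiples s')) hn'
    (m := t * m) (by
      rw [hs']
      push_cast
      linear_combination (t : ℝ) * hn's)
  have hz₁0 := hz₁.ne hx0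
  obtain ⟨Z, hZ⟩ : ∃ Z, Z = z₁ ^ j₁ := ⟨_, rfl⟩
  have hZ0 : Z ≠ 0 := by
    rw [hZ]
    exact zpow_ne_zero _ hz₁0
  have hZv : v Z = s' := by rw [hZ, hz₁v]
  have hZl : Z ^ l₁ = x ^ j₁ := by
    rw [hZ, ← zpow_natCast, ← zpow_mul, mul_comm, zpow_mul, zpow_natCast, hz₁.pow]
  have hZN : Z ^ N ∈ C := by
    refine mem_of_root h0 hC hx (pow_ne_zero _ hZ0) hz₁.nd (j := j₁ * N) ?_ ?_
    · rw [← pow_mul, mul_comm, pow_mul, hZl, zpow_mul, zpow_natCast]
    · rw [v.map_pow hZ0, hZv, hs']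
      have h1 : (N : ℝ) * (t * (p : ℝ) ^ e * s) = ((t * (p : ℤ) ^ e : ℤ) : ℝ) * (N * s) := by
        push_cast
        ring
      rw [h1, ← zsmul_eq_mul]
      exact G.zsmul_mem hNs _
  have hGD : GD v P Z N :=
    { cld := hPc
      pos := hN0
      ne := hZ0
      pw := hCP hZN
      val := fun j hj => by
        rw [hPG, hZv, hs'] at hj
        have h1 := hord (j * (t * (p : ℤ) ^ e)) (by
          have h2 : ((j * (t * (p : ℤ) ^ e) : ℤ) : ℝ) * s = j * (t * (p : ℝ) ^ e * s) := by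
            push_cast
            ring
          rwa [h2])
        have h2 : IsCoprime (N : ℤ) (t * (p : ℤ) ^ e) := ⟨β, 1, by rw [one_mul]; exact hβt⟩
        exact h2.dvd_of_dvd_mul_right h1 }
  -- the field `C' = C(X e)`
  set C' := CP (k := k) v (X e) y with hC'
  have hC'c : Cld v C' := CP_cld _ _
  have hCC' : C ≤ C' := by
    rw [hff.eq]
    refine CP_le hC'c ?_ (CP_snd _ _)
    rw [← hXe e]
    exact pow_mem (CP_fst _ _) _
  have hC'C : ∀ a ∈ C', a ^ p ^ e ∈ C := by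
    have h1 : C' ≤ D2P.rootF p e C := CP_le (cld_rootFn p e hC)
      (D2P.mem_rootF.2 (by rw [hXe]; exact hx)) (D2P.mem_rootF.2 (pow_mem hy _))
    exact fun a ha => D2P.mem_rootF.1 (h1 ha)
  have hC'P : C' ≤ P := fun a ha => hpP ((mem_perfC p).2 ⟨e, hC'C a ha⟩)
  have hC'G : VG v C' = G := le_antisymm (by rw [← hPG]; exact VG.mono hC'P) (VG.mono hCC')
  have hXC' : X e ∈ C' := CP_fst _ _
  have hyC' : y ∈ C' := CP_snd _ _
  have hWC : WT k p v G x ≤ C := by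
    rw [← hWX]
    exact WX_le hC
  have hWC' : WT k p v G (X e) ≤ C' := WT.le_of hC'c hr hXne (by
    rw [hX0]
    exact hWC.trans hCC') hXC'
  -- the field `C₂`
  obtain ⟨C₂, hC₂⟩ : ∃ C₂, C₂ = adj C' Z := ⟨_, rfl⟩
  have hZC₂ : Z ∈ C₂ := by
    rw [hC₂]
    exact (mem_adj_self _ _).1
  have hC'C₂ : C' ≤ C₂ := by
    rw [hC₂]
    exact (mem_adj_self _ _).2
  have hC₂c : Cld v C₂ := by
    rw [hC₂]
    exact cld_adj hc hC'c (alg_of_pw hN0 (hCC' hZN))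
  have hvg : ∀ g, g ∈ VG v C₂ ↔ ∃ j : ℤ, g - j * v Z ∈ G := by
    intro g
    rw [hC₂, hGD.vg hC'P (hCC' hZN), hC'G]
  have hGΓ : G ≤ VG v C₂ := by
    rw [← hC'G]
    exact VG.mono hC'C₂
  have hz₁' : TR p v (VG v C₂) x l₁ z₁ := by
    refine ⟨hz₁.nd, hz₁.pow, ?_⟩
    obtain ⟨g, hg, g', hg', h1⟩ := AddSubgroup.mem_sup.1 hz₁.val
    obtain ⟨j, rfl⟩ := AddSubgroup.mem_zmultiples_iff.1 hg'
    rw [hvg]
    refine ⟨j, ?_⟩
    rw [← h1, hZv, zsmul_eq_mul, add_sub_cancel_right]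
    exact hg
  have hdΓ : ∀ g ∈ VG v C₂, g / p ∈ VG v C₂ := by
    intro g hg
    obtain ⟨j, hj⟩ := (hvg g).1 hg
    obtain ⟨a, b, hab⟩ : IsCoprime (N : ℤ) (p : ℤ) := Nat.isCoprime_iff_coprime.2
      (Nat.coprime_comm.1 ((Nat.Prime.coprime_iff_not_dvd hp.out).2 hNp))
    refine (hvg _).2 ⟨j * b, ?_⟩
    have hNZ : (N : ℝ) * v Z ∈ G := by
      have := VG.self (v := v) hZN (pow_ne_zero _ hZ0)
      rwa [v.map_pow hZ0] at this
    have h1 : g / p - (j * b : ℤ) * v Z = ((g - j * v Z) + (j * a : ℤ) * (N * v Z)) / p := by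
      have h2 : ((a * N + b * p : ℤ) : ℝ) = 1 := by
        rw [hab]
        norm_num
      push_cast at h2 ⊢
      field_simp
      linear_combination (-(j * v Z)) * h2
    rw [h1]
    refine hdG _ (add_mem hj ?_)
    rw [← zsmul_eq_mul]
    exact G.zsmul_mem hNZ _
  -- the element `c`
  have hXeG : v (X e) ∈ G := div_pow_mem' hdG e (by rw [hXv]; exact hxG)
  have hXen : v (X e) < 0 := by
    by_contra h1
    push Not at h1
    have := mul_nonneg (pow_pos (by exact_mod_cast hp.out.pos : (0 : ℝ) < p) e).le h1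
    linarith
  have hn's' : (n' : ℝ) * s = m * v (X e) := by
    have h1 : (p : ℝ) ^ e * ((n' : ℝ) * s) = p ^ e * (m * v (X e)) := by
      rw [← hXv] at hn's
      linear_combination hn's
    exact mul_left_cancel₀ hpe h1
  obtain ⟨l₂, z₂, j₂, hz₂, hz₂v⟩ := exists_tame_pow (p := p) (Γ := G) (x := X e) hXe0 hXeG hss hn'
    (m := β * N * m) (by
      rw [hss']
      push_cast
      linear_combination (β * N : ℝ) * hn's')
  obtain ⟨c₀, hc₀⟩ : ∃ c₀, c₀ = z₂ ^ j₂ := ⟨_, rfl⟩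
  have hc₀0 : c₀ ≠ 0 := by
    rw [hc₀]
    exact zpow_ne_zero _ (hz₂.ne hXe0)
  have hc₀W : c₀ ∈ WT k p v G (X e) := by
    rw [hc₀]
    exact zpow_mem hz₂.mem_WT _
  have hWG : WT k p v G (X e) ≤ WT k p v (VG v C₂) (X e) := WT_mono_grp hGΓ
  have hWx : WT k p v (VG v C₂) x ≤ WT k p v (VG v C₂) (X e) := by
    have h1 := WT.mono (k := k) (v := v) hr hXne hdΓ e
    rwa [hX0] at h1
  have hZW : Z ∈ WT k p v (VG v C₂) (X e) := by
    rw [hZ]
    exact zpow_mem (hWx hz₁'.mem_WT) _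
  obtain ⟨c, hcc⟩ : ∃ c, c = c₀ * Z := ⟨_, rfl⟩
  have hc0 : c ≠ 0 := by
    rw [hcc]
    exact mul_ne_zero hc₀0 hZ0
  have hcv : v c = s := by
    rw [hcc, v.map_mul hc₀0 hZ0, hc₀, hz₂v, hZv]
    ring
  have hcW : c ∈ WT k p v (VG v C₂) (X e) := by
    rw [hcc]
    exact mul_mem (hWG hc₀W) hZW
  -- the roots
  have hWC₂ : WT k p v (VG v C₂) (X e) ≤ C₂ := by
    refine clI_le' (IntermediateField.adjoin_le_iff.2 ?_) hC₂c
    rintro f ⟨m₁, h1, h2, h3⟩
    have hf0 : f ≠ 0 := TR.ne hXe0 ⟨h1, h2, h3⟩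
    obtain ⟨j, hj⟩ := (hvg _).1 h3
    have hf' : f * Z ^ (-j) ∈ C' := by
      refine mem_of_root h0 hC'c hXC' (mul_ne_zero hf0 (zpow_ne_zero _ hZ0)) (m := m₁ * l₁)
        (j := l₁ + p ^ e * (j₁ * (-j * m₁))) ?_ ?_ ?_
      · intro h4
        rcases hp.out.dvd_mul.1 h4 with h5 | h5
        · exact h1 h5
        · exact hz₁.nd h5
      · have e1 : f ^ (m₁ * l₁) = X e ^ (l₁ : ℤ) := by rw [pow_mul, h2, zpow_natCast]
        have e2 : (Z ^ (-j)) ^ (m₁ * l₁) = X e ^ ((p : ℤ) ^ e * (j₁ * (-j * m₁))) := by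
          have h5 : X e ^ ((p : ℤ) ^ e * (j₁ * (-j * m₁))) = (x ^ j₁) ^ (-j * m₁) := by
            rw [zpow_mul, ← Nat.cast_pow, zpow_natCast, hXe, zpow_mul]
          rw [h5, ← hZl, ← zpow_natCast, ← zpow_natCast, ← zpow_mul, ← zpow_mul]
          congr 1
          push_cast
          ring
        rw [mul_pow, e1, e2, ← zpow_add₀ hXe0]
      · rw [v.map_mul hf0 (zpow_ne_zero _ hZ0), v.map_zpow hZ0, hC'G]
        have h5 : v f + ((-j : ℤ) : ℝ) * v Z = v f - j * v Z := by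
          push_cast
          ring
        rw [h5]
        exact hj
    have e3 : f = f * Z ^ (-j) * Z ^ j := by
      rw [mul_assoc, ← zpow_add₀ hZ0, neg_add_cancel, zpow_zero, mul_one]
    rw [SetLike.mem_coe, e3]
    exact mul_mem (hC'C₂ hf') (zpow_mem hZC₂ _)
  have heq : C₂ = cadj v (WT k p v (VG v C₂) (X e)) (y / c) := by
    refine le_antisymm ?_ (TWM.cadj_le hC₂c hWC₂ (div_mem (hC'C₂ hyC') (hWC₂ hcW)))
    nth_rw 1 [hC₂]
    have hcm := le_cadj v (WT k p v (VG v C₂) (X e)) (y / c)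
    refine adj_le (CP_le (cld_cadj _ _ _) (hcm (mem_WT (hGΓ hXeG))) ?_) (hcm hZW)
    have h1 := mul_mem (self_mem_cadj v (WT k p v (VG v C₂) (X e)) (y / c)) (hcm hcW)
    rwa [div_mul_cancel₀ _ hc0] at h1
  -- `OI`
  have hC₂P : C₂ ≤ adj P Z := by
    rw [hC₂]
    exact adj_le (hC'P.trans (mem_adj_self _ _).2) (mem_adj_self _ _).1
  have hy0 := hF.y0
  have hTG' : ∀ n, TG p v (CP (k := k) v (X n) y) := by
    intro n
    induction n with
    | zero =>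
      rw [hX0, ← hff.eq]
      exact TG.of_eq hff.eq hff.oi hx0 hy0
    | succ n ih => exact ih.root hc (hr n)
  obtain ⟨-, c₂, hoi'⟩ := (hTG' e).oi hc
  have hoi₂ : OI p v C₂ ![X e, y] c₂ := by
    rw [hC₂]
    refine hGD.oi hNp hC'P (hCC' hZN) (fun i => ?_) hoi'
    refine Fin.cases (hXP e) (fun i => ?_) i
    rw [Fin.fin_one_eq_zero i]
    exact hCP hy
  -- `TG`
  obtain ⟨z, hz, hzp⟩ : ∃ z : Ω, z ^ p ^ e = z₁ ∧ TR p v (VG v C₂) (X e) l₁ z := by
    obtain ⟨U, hU0, hU⟩ := exists_rts p z₁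
    have h1 := TR.shift (X := X) hr hXne hdΓ (m := l₁) (Z := U) (by
      rw [hX0, hU0]
      exact hz₁') hU e
    refine ⟨U e, ?_, h1⟩
    have := root_pow_add hU 0 e
    rw [zero_add] at this
    rw [this, hU0]
  have hz0 : z ≠ 0 := hzp.ne hXe0
  have hzC₂ : z ∈ C₂ := hWC₂ hzp.mem_WT
  have htg : TG p v C₂ := by
    refine TG.of_eq (x := z) (y := y) ?_ (oi_tame hz₁.nd hzC₂ hz0 (by
      rw [hzp.pow]
      exact hoi₂)) hz0 hy0
    refine le_antisymm ?_ (CP_le hC₂c hzC₂ (hC'C₂ hyC'))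
    nth_rw 1 [hC₂]
    have hzm := CP_fst (k := k) (v := v) z y
    refine adj_le (CP_le (CP_cld _ _) ?_ (CP_snd _ _)) ?_
    · rw [← hzp.pow]
      exact pow_mem hzm _
    · rw [hZ, ← hz]
      exact zpow_mem (pow_mem hzm _) _
  -- `OI` of `X e`
  have hoi₁ : OI p v C₂ ![X e] c₂ := by
    intro c hc b hb α
    rw [pcomb_one] at hb
    have h1 := oi_x hoi₂ (fun i => hc ![i]) hb (α 0)
    have h2 : α = ![α 0] := by
      funext j
      fin_cases j
      rfl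
    have h3 : mon (p := p) ![X e] α = X e ^ (α 0 : ℕ) := by
      rw [mon, Fin.prod_univ_one]
      rfl
    rw [h3]
    rwa [← h2] at h1
  -- the floor
  have hE := hff.ex_eq h0 hc (t := X) hX0 hr
  have htl₀ := hF.tl
  rw [hE, hWX] at htl₀
  set E := EW v (WT k p v G x) X with hEdef
  set E₂ := EW v (WT k p v (VG v C₂) x) X with hE₂def
  have hEc : Cld v E := EW.cld
  have hxE : x ∈ E := EW.le (mem_WT hxG)
  have hEE₂ : E ≤ E₂ := EW.mono (WT_mono_grp hGΓ) X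
  have hZalg : IsAlgebraic E Z := by
    refine IsAlgebraic.of_pow (Nat.pos_of_ne_zero hz₁.pos) ?_
    rw [hZl]
    exact isAlgebraic_algebraMap (⟨_, zpow_mem hxE _⟩ : E)
  have hE₂E : E₂ ≤ adj E Z := by
    have hac : Cld v (adj E Z) := cld_adj hc hEc hZalg
    refine clI_le' (sup_le (clI_le' (IntermediateField.adjoin_le_iff.2 ?_) hac)
      (IntermediateField.adjoin_le_iff.2 ?_)) hac
    · rintro f ⟨m₁, h1, h2, h3⟩
      have hf0 : f ≠ 0 := TR.ne hx0 ⟨h1, h2, h3⟩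
      obtain ⟨j, hj⟩ := (hvg _).1 h3
      have hpow : (f * Z ^ (-j)) ^ (m₁ * l₁) = x ^ ((l₁ : ℤ) + j₁ * (-j * m₁)) := by
        have e1 : f ^ (m₁ * l₁) = x ^ (l₁ : ℤ) := by rw [pow_mul, h2, zpow_natCast]
        have e2 : (Z ^ (-j)) ^ (m₁ * l₁) = x ^ (j₁ * (-j * m₁)) := by
          rw [zpow_mul, ← hZl, ← zpow_natCast, ← zpow_natCast, ← zpow_mul, ← zpow_mul]
          congr 1
          push_cast
          ring
        rw [mul_pow, e1, e2, ← zpow_add₀ hx0]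
      have hnd : ¬ p ∣ m₁ * l₁ := by
        intro h4
        rcases hp.out.dvd_mul.1 h4 with h5 | h5
        · exact h1 h5
        · exact hz₁.nd h5
      have hf'0 := mul_ne_zero hf0 (zpow_ne_zero (-j) hZ0)
      have hf' : f * Z ^ (-j) ∈ C := by
        refine mem_of_root h0 hC hx hf'0 hnd hpow ?_
        rw [v.map_mul hf0 (zpow_ne_zero _ hZ0), v.map_zpow hZ0]
        have h5 : v f + ((-j : ℤ) : ℝ) * v Z = v f - j * v Z := by
          push_cast
          ring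
        rw [h5]
        exact hj
      have hf'W : f * Z ^ (-j) ∈ E := by
        refine EW.le ?_
        rw [← hWX]
        have hml : 0 < m₁ * l₁ := Nat.pos_of_ne_zero fun h6 => hnd (h6 ▸ dvd_zero p)
        refine algIn_le_WX (mem_algIn.2 ⟨hf', IsAlgebraic.of_pow hml ?_⟩)
        rw [hpow]
        exact isAlgebraic_algebraMap (⟨_, zpow_mem (mem_adj_self _ x).1 _⟩ :
          adj (⊥ : IntermediateField k Ω) x)
      have e3 : f = f * Z ^ (-j) * Z ^ j := by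
        rw [mul_assoc, ← zpow_add₀ hZ0, neg_add_cancel, zpow_zero, mul_one]
      rw [SetLike.mem_coe, e3]
      exact mul_mem ((mem_adj_self _ _).2 hf'W) (zpow_mem (mem_adj_self _ _).1 _)
    · rintro _ ⟨n, rfl⟩
      exact (mem_adj_self _ _).2 (EW.mem n)
  have htl₁ : TL v E₂ y s := ⟨htl₀.lim.mono hEE₂, fun θ hθ =>
    htl₀.far θ (TWM.isAlgebraic_of_algc (D2P.isAlgebraic_mono (hE₂E.trans
      (adj_le (le_algc E) (mem_algc.2 hZalg))) hθ))⟩
  have hshift : EW v (WT k p v (VG v C₂) (X e)) (fun n => X (e + n)) = E₂ := by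
    have h1 := EW.shift_WT (k := k) (v := v) hr hXne hdΓ e
    rw [hX0] at h1
    exact h1
  have htl₂ : TL v (EW v (WT k p v (VG v C₂) (X e)) fun n => X (e + n)) (y / c) 0 := by
    rw [hshift]
    have hcE : c ∈ E₂ := by
      rw [← hshift]
      exact EW.le hcW
    have h1 := htl₁.affine (inv_mem hcE) (inv_ne_zero hc0) (zero_mem _)
    rw [v.map_inv hc0, hcv, neg_add_cancel, add_zero] at h1
    rwa [div_eq_inv_mul]
  -- the automorphism
  have hNk : ((N : ℕ) : k) ≠ 0 := fun h1 => hNp ((CharP.cast_eq_zero_iff k p N).1 h1)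
  have hNz : NeZero ((N : ℕ) : k) := ⟨hNk⟩
  obtain ⟨ζ, hζ⟩ := HasEnoughRootsOfUnity.exists_primitiveRoot k N
  obtain ⟨sg, hsg, hsgP, hsgZ⟩ := hGD.exists_sg h0 hw hval hζ.pow_eq_one
  have hζ' : sg (algebraMap k Ω ζ) = algebraMap k Ω ζ := sg.commutes ζ
  have hc₀P : c₀ ∈ P := hC'P (hWC' hc₀W)
  have hsgpow : ∀ n : ℕ, (∀ a ∈ P, (sg ^ n) a = a) ∧ (sg ^ n) Z = algebraMap k Ω ζ ^ n * Z := by
    intro n
    induction n with
    | zero => exact ⟨fun a _ => rfl, by rw [pow_zero, pow_zero, one_mul]; rfl⟩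
    | succ n ih =>
      refine ⟨fun a ha => ?_, ?_⟩
      · rw [pow_succ, AlgHom.mul_apply, hsgP a ha, ih.1 a ha]
      · rw [pow_succ, AlgHom.mul_apply, hsgZ, map_mul, ih.2, AlgHom.commutes, pow_succ]
        ring
  have hsgN : ∀ a ∈ adj P Z, (sg ^ N) a = a := by
    obtain ⟨h1, h2⟩ := hsgpow N
    rw [← map_pow, hζ.pow_eq_one, map_one, one_mul] at h2
    intro a ha
    obtain ⟨f, hf, rfl⟩ := exists_sum hN0 hGD.pw ha
    rw [map_sum]
    refine Finset.sum_congr rfl fun j _ => ?_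
    rw [map_mul, map_pow, h1 _ (hf j), h2]
  have hWx₀ : WX v C x ≤ WT k p v (VG v C₂) (X e) := by
    rw [hWX]
    exact (WT_mono_grp hGΓ).trans hWx
  have hisog : ∀ (K : IntermediateField k Ω) (e' : ℕ), C₂ ≤ K → (∀ a ∈ K, a ^ p ^ e' ∈ C₂) →
      C ≤ K ⊓ P ∧ ∀ a ∈ K ⊓ P, a ^ p ^ (e' + e) ∈ C := by
    intro K e' hCK hKC
    refine ⟨le_inf ((hCC'.trans hC'C₂).trans hCK) hCP, fun a ha => ?_⟩
    rw [pow_add, pow_mul]
    refine hC'C _ ?_
    have h1 := hKC a ha.1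
    rw [hC₂] at h1
    exact hGD.inf hC'P (hCC' hZN) h1 (pow_mem ha.2 _)
  refine ⟨X, e, N, Z, c, c₀, ζ, sg, C₂, hX0,
    { root := hr
      nd := hNp
      gd := hGD
      perf := hPp
      leP := hCP
      vgP := hPG
      memX := hXP
      memY := hCP hy
      prim := hζ
      iso := hsg
      fix := hsgP
      sgZ := hsgZ
      sgN := hsgN
      sgc := by
        rw [hcc, map_mul, hsgZ, hsgP c₀ hc₀P]
        ring
      memc₀ := hc₀P
      eqc := hcc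
      c₀0 := hc₀0
      c0 := hc0
      valc := hcv
      memc := hcW
      memZ := hZW
      val := hGΓ hXeG
      neg := hXen
      div := hdΓ
      vg := fun g hg => by
        rw [hPG]
        exact (hvg g).1 hg
      vgZ := VG.self hZC₂ hZ0
      Ns := hNs
      leW := hWx₀
      cld2 := hC₂c
      leC := hCC'.trans hC'C₂
      le2 := hC₂P
      eq := heq
      oi := ⟨c₂, hoi₁⟩
      tg := htg
      tl := htl₂
      desc := ?_
      isog := hisog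
      str := ?_ }⟩
  · intro K e' hK hCK hKC
    have hKP : K ≤ adj P Z := fun a ha => hGD.le_of_pow hNp hPp (hC₂P (hKC a ha))
    obtain ⟨hCi, hpw⟩ := hisog K e' hCK hKC
    refine ⟨hKP, fun hT => ?_⟩
    have hvK : VG v (K ⊓ P) = G := le_antisymm (by rw [← hPG]; exact VG.mono inf_le_right)
      (VG.mono hCi)
    refine hT.down h0 hc (γ := v x) (by rw [RatV, hvK]; exact hrat) (by rw [hvK]; exact hdG)
      (cld_inf_tgt hK hPc) hC hCi (n := e' + e) hpw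
  · intro hS L hL
    have h1 := hS L hL
    have h2 : Sd v (WT k p v (VG v C₂) (X e)) y L (L * s) := by
      refine Sd.scale (c := c⁻¹) (inv_mem hcW) (inv_ne_zero hc0) ?_
      rw [v.map_inv hc0, hcv, ← div_eq_inv_mul]
      have e1 : (L : ℝ) * s + L * -s = L * 0 := by ring
      rwa [e1]
    exact h2.mono hWx₀

end

end Pool.Agent.TWF.CPf
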