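import Pool.Agent.Lib.TWC.Tame
import Pool.Agent.Lib.TWX.Ext

/-!
# TANK W, tame base: the grading of `P(Z)`

`GD v P Z N` (`TWC/Tame`): `P` closed, `Z ^ N ∈ P`, `P(Z) = ⊕ P Z ^ j`, an orthogonal sum.

* `GD.oi`: `OI` for `D(Z)` from `OI` for `D`, `D ≤ P`;
* `GD.perf`: `P(Z)` is perfect if `P` is;
* `GD.vg`: the values of `D(Z)`;
* `GD.exists_sg`: the isometric automorphism `Z ↦ ζ Z`.
-/

set_option autoImplicit false

open Polynomial IntermediateField

namespace Pool.Agent.TWC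

open Pool.Agent.H15JM (RVal)
open Pool.Agent.LU1 (VPos adj)
open Pool.Agent.D2 (Ctx0)
open Pool.Agent.D2P (clI mem_clI mem_adj_self adj_le)
open Pool.Agent.TW (mon pcomb)
open Pool.Agent.TWM Pool.Agent.TWM.C
open Pool.Agent.TWS (VG IsoE SphC)

universe u

variable {k Ω : Type u} [Field k] [Field Ω] [Algebra k Ω] {v : RVal Ω}
  {P D : IntermediateField k Ω} {Z a : Ω} {N : ℕ} {c : ℝ}

/-- The elements of `P(Z)` and their components. -/
theorem GD.ge_iff (hG : GD v P Z N) {f : ℕ → Ω} (hf : ∀ j, f j ∈ P) :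
    v.Ge c (∑ j ∈ Finset.range N, f j * Z ^ j) ↔ ∀ j < N, v.Ge c (f j * Z ^ j) :=
  ⟨fun h _ hj => hG.orth hf h hj, fun h => RVal.Ge.sum _ _ fun j hj => h j (Finset.mem_range.1 hj)⟩

/-- Changing `Z`. -/
theorem GD.zpow (hG : GD v P Z N) {m : ℤ} (hm : IsCoprime (N : ℤ) m) : GD v P (Z ^ m) N where
  cld := hG.cld
  pos := hG.pos
  ne := zpow_ne_zero _ hG.ne
  pw := by
    rw [← zpow_natCast, ← zpow_mul, mul_comm, zpow_mul, zpow_natCast]
    exact zpow_mem hG.pw m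
  val j hj := by
    rw [v.map_zpow hG.ne, ← mul_assoc] at hj
    have h1 : ((j * m : ℤ) : ℝ) * v Z ∈ VG v P := by
      push_cast
      exact hj
    exact hm.dvd_of_dvd_mul_right (hG.val _ h1)

theorem GD.pow (hG : GD v P Z N) {m : ℕ} (hm : Nat.Coprime N m) : GD v P (Z ^ m) N := by
  have := hG.zpow (m := m) (Nat.isCoprime_iff_coprime.2 hm)
  rwa [zpow_natCast] at this

theorem GD.smul (hG : GD v P Z N) {b : Ω} (hb : b ∈ P) (hb0 : b ≠ 0) : GD v P (b * Z) N where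
  cld := hG.cld
  pos := hG.pos
  ne := mul_ne_zero hb0 hG.ne
  pw := by
    rw [mul_pow]
    exact mul_mem (pow_mem hb _) hG.pw
  val j hj := by
    rw [v.map_mul hb0 hG.ne, mul_add] at hj
    refine hG.val j ?_
    have h1 : (j : ℝ) * v b ∈ VG v P := by
      rw [← zsmul_eq_mul]
      exact (VG v P).zsmul_mem (VG.self hb hb0) j
    have := sub_mem hj h1
    rwa [add_sub_cancel_left] at this

/-- **`OI` for `D(Z)`.** -/
theorem GD.oi {p : ℕ} [hp : Fact p.Prime] [CharP Ω p] (hG : GD v P Z N) (hN : ¬ p ∣ N)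
    (hD : D ≤ P) (hZ : Z ^ N ∈ D) {n : ℕ} {t : Fin n → Ω} (ht : ∀ i, t i ∈ P) {c₁ : ℝ}
    (ho : OI p v D t c₁) : OI p v (adj D Z) t c₁ := by
  intro c hc b hb α
  have hcop : Nat.Coprime N p :=
    Nat.coprime_comm.1 ((Nat.Prime.coprime_iff_not_dvd hp.out).2 hN)
  have hG' := hG.pow hcop
  have hc' : ∀ α, ∃ f : ℕ → Ω, (∀ j, f j ∈ D) ∧ c α = ∑ j ∈ Finset.range N, f j * Z ^ j :=
    fun α => exists_sum hG.pos hZ (hc α)
  choose f hf hfc using hc'
  have hZp : ∀ j : ℕ, (Z ^ j) ^ p = (Z ^ p) ^ j := fun j => by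
    rw [← pow_mul, ← pow_mul, mul_comm]
  have h1 : ∀ α, c α ^ p = ∑ j ∈ Finset.range N, f α j ^ p * (Z ^ p) ^ j := by
    intro α
    rw [hfc α, sum_pow_char]
    refine Finset.sum_congr rfl fun j _ => ?_
    rw [mul_pow, hZp]
  have h2 : pcomb t c = ∑ j ∈ Finset.range N, pcomb t (fun α => f α j) * (Z ^ p) ^ j := by
    rw [pcomb]
    simp only [pcomb, h1, Finset.sum_mul]
    rw [Finset.sum_comm]
    refine Finset.sum_congr rfl fun j _ => Finset.sum_congr rfl fun α _ => ?_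
    ring
  have hmonP : ∀ α, mon (p := p) t α ∈ P := fun α => prod_mem fun i _ => pow_mem (ht i) _
  have hgP : ∀ j, pcomb t (fun α => f α j) ∈ P := fun j =>
    sum_mem fun α _ => mul_mem (pow_mem (hD (hf α j)) _) (hmonP α)
  rw [h2, hG'.ge_iff hgP] at hb
  rw [h1, Finset.sum_mul]
  refine RVal.Ge.sum _ _ fun j hj => ?_
  have hj' := Finset.mem_range.1 hj
  have hZ0 : (Z ^ p) ^ j ≠ 0 := pow_ne_zero _ hG'.ne
  have h3 : v.Ge (b - v ((Z ^ p) ^ j)) (pcomb t (fun α => f α j)) := by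
    intro h0
    have h4 := hb j hj' (mul_ne_zero h0 hZ0)
    rw [v.map_mul h0 hZ0] at h4
    linarith
  have h4 := (ho _ (fun α => hf α j) _ h3 α).mul (RVal.ge_self (v := v) ((Z ^ p) ^ j))
  have e : f α j ^ p * (Z ^ p) ^ j * mon t α = f α j ^ p * mon t α * (Z ^ p) ^ j := by ring
  rw [e]
  exact h4.mono (by linarith)

/-- **`P(Z)` is perfect.** -/
theorem GD.perf {p : ℕ} [hp : Fact p.Prime] [CharP Ω p] [IsAlgClosed Ω] (hG : GD v P Z N)
    (hN : ¬ p ∣ N) (hP : ∀ a ∈ P, ∃ b ∈ P, b ^ p = a) :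
    ∀ a ∈ adj P Z, ∃ b ∈ adj P Z, b ^ p = a := by
  obtain ⟨b₀, hb₀, hb₁⟩ := hP _ hG.pw
  have hcop : IsCoprime (N : ℤ) (p : ℤ) := Nat.isCoprime_iff_coprime.2
    (Nat.coprime_comm.1 ((Nat.Prime.coprime_iff_not_dvd hp.out).2 hN))
  obtain ⟨α, β, hαβ⟩ := hcop
  have hZa : Z ∈ adj P Z := (mem_adj_self _ _).1
  have hZr : ∃ b ∈ adj P Z, b ^ p = Z := by
    refine ⟨b₀ ^ α * Z ^ β, mul_mem (zpow_mem ((mem_adj_self _ _).2 hb₀) _) (zpow_mem hZa _), ?_⟩
    have e1 : (b₀ ^ α) ^ p = Z ^ (α * N) := by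
      rw [← zpow_natCast, ← zpow_mul, mul_comm α (p : ℤ), zpow_mul, zpow_natCast, hb₁,
        ← zpow_natCast, ← zpow_mul, mul_comm]
    have e2 : (Z ^ β) ^ p = Z ^ (β * p) := by
      rw [← zpow_natCast, ← zpow_mul]
    rw [mul_pow, e1, e2, ← zpow_add₀ hG.ne, hαβ, zpow_one]
  obtain ⟨z, hz, hz'⟩ := hZr
  intro a ha
  obtain ⟨f, hf, rfl⟩ := exists_sum hG.pos hG.pw ha
  choose g hg hg' using fun j => hP (f j) (hf j)
  refine ⟨∑ j ∈ Finset.range N, g j * z ^ j, sum_mem fun j _ =>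
    mul_mem ((mem_adj_self _ _).2 (hg j)) (pow_mem hz _), ?_⟩
  rw [sum_pow_char]
  refine Finset.sum_congr rfl fun j _ => ?_
  rw [mul_pow, hg', ← pow_mul, mul_comm j p, pow_mul, hz']

/-- A field with a power in `P(Z)`. -/
theorem GD.le_of_pow {p : ℕ} [hp : Fact p.Prime] [CharP Ω p] [IsAlgClosed Ω] (hG : GD v P Z N)
    (hN : ¬ p ∣ N) (hP : ∀ a ∈ P, ∃ b ∈ P, b ^ p = a) {e : ℕ} {a : Ω}
    (ha : a ^ p ^ e ∈ adj P Z) : a ∈ adj P Z := by
  induction e generalizing a with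
  | zero => rwa [pow_zero, pow_one] at ha
  | succ e ih =>
    rw [pow_succ, pow_mul] at ha
    obtain ⟨b, hb, h1⟩ := hG.perf hN hP _ ha
    have h2 : b = a ^ p ^ e := frobenius_inj Ω p (by simpa [frobenius_def] using h1)
    exact ih (h2 ▸ hb)

/-- **The values of `D(Z)`.** -/
theorem GD.vg (hG : GD v P Z N) (hD : D ≤ P) (hZ : Z ^ N ∈ D) {g : ℝ} :
    g ∈ VG v (adj D Z) ↔ ∃ j : ℤ, g - j * v Z ∈ VG v D := by
  classical
  constructor
  · rintro ⟨a, ha, ha0, rfl⟩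
    obtain ⟨f, hf, h1⟩ := exists_sum hG.pos hZ ha
    by_contra hno
    push Not at hno
    have h2 : v.Ge (v a + 1) a → False := fun h => by
      have := h ha0
      linarith
    -- all the components have value `≠ v a`
    have h3 : ∀ j < N, v.Ge (v a) (f j * Z ^ j) := fun j hj =>
      hG.orth (fun j => hD (hf j)) (by rw [← h1]; exact RVal.ge_self a) hj
    -- the minimal value
    have h4 : ∀ j < N, f j ≠ 0 → v a < v (f j * Z ^ j) := by
      intro j hj hf0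
      have hZ0 : Z ^ j ≠ 0 := pow_ne_zero _ hG.ne
      refine lt_of_le_of_ne (h3 j hj (mul_ne_zero hf0 hZ0)) fun h5 => ?_
      refine hno j ⟨f j, hf j, hf0, ?_⟩
      rw [h5, v.map_mul hf0 hZ0, v.map_pow hG.ne]
      push_cast
      ring
    set S := (Finset.range N).filter fun i => f i ≠ 0 with hS
    have hsum : ∑ i ∈ S, f i * Z ^ i = a := by
      rw [h1]
      refine Finset.sum_subset (Finset.filter_subset _ _) fun i hi hiS => ?_
      have : f i = 0 := by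
        by_contra h1
        exact hiS (Finset.mem_filter.2 ⟨hi, h1⟩)
      rw [this, zero_mul]
    have hSn : S.Nonempty := by
      rw [Finset.nonempty_iff_ne_empty]
      intro h0
      rw [h0, Finset.sum_empty] at hsum
      exact ha0 hsum.symm
    obtain ⟨i, hi, hmin⟩ := Finset.exists_min_image S (fun i => v (f i * Z ^ i)) hSn
    have hiN := Finset.mem_filter.1 hi
    have h6 := h4 i (Finset.mem_range.1 hiN.1) hiN.2
    have h7 : v.Ge (v (f i * Z ^ i)) a := by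
      rw [← hsum]
      exact RVal.Ge.sum _ _ fun j hj => fun _ => hmin j hj
    have := h7 ha0
    linarith
  · rintro ⟨j, b, hb, hb0, h1⟩
    refine ⟨b * Z ^ j, mul_mem ((mem_adj_self _ _).2 hb) (zpow_mem (mem_adj_self _ _).1 _),
      mul_ne_zero hb0 (zpow_ne_zero _ hG.ne), ?_⟩
    rw [v.map_mul hb0 (zpow_ne_zero _ hG.ne), v.map_zpow hG.ne, h1]
    ring

/-! ### The automorphism -/

/-- `Z` has degree `N` over `P`. -/
theorem GD.minpoly (hG : GD v P Z N) {b : P} (hb : (b : Ω) = Z ^ N) :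
    minpoly P Z = X ^ N - Polynomial.C b := by
  have hmon := monic_X_pow_sub_C b hG.pos.ne'
  have hroot : aeval Z (X ^ N - Polynomial.C b) = 0 := by
    rw [map_sub, map_pow, aeval_X, aeval_C]
    show Z ^ N - (b : Ω) = 0
    rw [hb, sub_self]
  have hint : IsIntegral P Z := ⟨_, hmon, by
    have := hroot
    rwa [aeval_def] at this⟩
  refine (minpoly.unique P Z hmon hroot fun q hq hq0 => ?_).symm
  by_contra hlt
  push Not at hlt
  have hd : (X ^ N - Polynomial.C b).degree = (N : WithBot ℕ) := degree_X_pow_sub_C hG.pos b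
  rw [hd] at hlt
  have hqd : q.natDegree < N := by
    rw [degree_eq_natDegree hq.ne_zero] at hlt
    exact_mod_cast hlt
  have h1 : ∑ j ∈ Finset.range N, ((q.coeff j : P) : Ω) * Z ^ j = 0 := by
    rw [← hq0, aeval_eq_sum_range' hqd]
    exact Finset.sum_congr rfl fun j _ => by rw [Algebra.smul_def]; rfl
  have h2 := hG.orth (c := v (Z ^ q.natDegree) + 1) (f := fun j => ((q.coeff j : P) : Ω))
    (fun j => SetLike.coe_mem _) (by rw [h1]; exact RVal.Ge.zero) hqd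
  have h3 : ((q.coeff q.natDegree : P) : Ω) = 1 := by
    have := hq.coeff_natDegree
    rw [this]
    rfl
  rw [h3, one_mul] at h2
  have := h2 (pow_ne_zero _ hG.ne)
  linarith

/-- **The automorphism `Z ↦ ζ Z`.** -/
theorem GD.exists_sg [IsAlgClosed Ω] (hk : Ctx0 k v) (hw : SphC v)
    (hval : ∀ ρ : ℝ, ∃ x : Ω, x ≠ 0 ∧ v x = ρ) (hG : GD v P Z N) {ζ : k} (hζ : ζ ^ N = 1) :
    ∃ sg : Ω →ₐ[k] Ω, IsoE v v sg ∧ (∀ a ∈ P, sg a = a) ∧ sg Z = algebraMap k Ω ζ * Z := by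
  have hζ0 : ζ ≠ 0 := by
    rintro rfl
    rw [zero_pow hG.pos.ne'] at hζ
    exact zero_ne_one hζ
  set ζ' : Ω := algebraMap k Ω ζ with hζ'
  have hζ'P : ζ' ∈ P := IntermediateField.algebraMap_mem _ _
  have hζ'0 : ζ' ≠ 0 := by rwa [hζ', Ne, _root_.map_eq_zero]
  have hζv : v ζ' = 0 := hk.triv ζ hζ0
  have hζN : ζ' ^ N = 1 := by rw [hζ', ← map_pow, hζ, map_one]
  have hG' := hG.smul hζ'P hζ'0
  set b : P := ⟨Z ^ N, hG.pw⟩ with hb
  have hmp := hG.minpoly (b := b) rfl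
  have hint : IsIntegral P Z := by
    have hmon := monic_X_pow_sub_C b hG.pos.ne'
    refine ⟨X ^ N - Polynomial.C b, hmon, ?_⟩
    rw [eval₂_sub, eval₂_X_pow, eval₂_C]
    exact sub_self _
  have hroot : ζ' * Z ∈ (_root_.minpoly P Z).aroots Ω := by
    rw [mem_aroots, hmp]
    refine ⟨(monic_X_pow_sub_C b hG.pos.ne').ne_zero, ?_⟩
    rw [map_sub, map_pow, aeval_X, aeval_C, mul_pow, hζN, one_mul]
    exact sub_self _
  let ψ : (IntermediateField.adjoin P {Z}) →ₐ[P] Ω :=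
    (IntermediateField.algHomAdjoinIntegralEquiv P hint).symm ⟨ζ' * Z, hroot⟩
  have hψ : ψ (IntermediateField.AdjoinSimple.gen P Z) = ζ' * Z :=
    IntermediateField.algHomAdjoinIntegralEquiv_symm_apply_gen P hint _
  let σ : Lifts k Ω Ω := ⟨(IntermediateField.adjoin P {Z}).restrictScalars k,
    ψ.restrictScalars k⟩
  have hmemσ : ∀ a, a ∈ σ.carrier ↔ a ∈ adj P Z := by
    intro a
    rw [adj_eq_restrict]
  have hP : ∀ (a : P), ψ (algebraMap P _ a) = a := fun a => ψ.commutes a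
  have hsum : ∀ (f : ℕ → P), ψ (∑ j ∈ Finset.range N, algebraMap P _ (f j) *
      (IntermediateField.AdjoinSimple.gen P Z) ^ j) =
      ∑ j ∈ Finset.range N, (f j : Ω) * (ζ' * Z) ^ j := by
    intro f
    rw [map_sum]
    refine Finset.sum_congr rfl fun j _ => ?_
    rw [map_mul, map_pow, hψ, hP]
  have hval' : ∀ (f : ℕ → P), ((∑ j ∈ Finset.range N, algebraMap P _ (f j) *
      (IntermediateField.AdjoinSimple.gen P Z) ^ j : IntermediateField.adjoin P {Z}) : Ω) =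
      ∑ j ∈ Finset.range N, (f j : Ω) * Z ^ j := by
    intro f
    push_cast
    rfl
  have hterm : ∀ (c : ℝ) (f : ℕ → P) (j : ℕ), v.Ge c ((f j : Ω) * (ζ' * Z) ^ j) ↔
      v.Ge c ((f j : Ω) * Z ^ j) := by
    intro c f j
    have e : (f j : Ω) * (ζ' * Z) ^ j = ζ' ^ j * ((f j : Ω) * Z ^ j) := by
      rw [mul_pow]
      ring
    have hj0 : ζ' ^ j ≠ 0 := pow_ne_zero _ hζ'0
    have hjv : v (ζ' ^ j) = 0 := by rw [v.map_pow hζ'0, hζv, mul_zero]
    rw [e]
    constructor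
    · intro h1 h2
      have h3 := h1 (mul_ne_zero hj0 h2)
      rwa [v.map_mul hj0 h2, hjv, zero_add] at h3
    · intro h1 h2
      have h3 := (mul_ne_zero_iff.1 h2).2
      rw [v.map_mul hj0 h3, hjv, zero_add]
      exact h1 h3
  have hge : ∀ (c : ℝ) (f : ℕ → P), v.Ge c (∑ j ∈ Finset.range N, (f j : Ω) * (ζ' * Z) ^ j) ↔
      v.Ge c (∑ j ∈ Finset.range N, (f j : Ω) * Z ^ j) := by
    intro c f
    rw [hG'.ge_iff (fun j => (f j).2), hG.ge_iff (fun j => (f j).2)]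
    exact forall₂_congr fun j _ => hterm c f j
  have hiso : TWS.IsoL v v σ := by
    intro a ha
    have ha' : (a : Ω) ∈ adj P Z := (hmemσ _).1 a.2
    obtain ⟨f, hf, h1⟩ := exists_sum hG.pos hG.pw ha'
    set F : ℕ → P := fun j => ⟨f j, hf j⟩ with hF
    have h2 : (a : Ω) = ∑ j ∈ Finset.range N, (F j : Ω) * Z ^ j := h1
    set A : IntermediateField.adjoin P {Z} := ∑ j ∈ Finset.range N, algebraMap P _ (F j) *
      (IntermediateField.AdjoinSimple.gen P Z) ^ j with hA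
    have h3 : σ.emb a = ψ A := by
      have h4 : (⟨(a : Ω), a.2⟩ : IntermediateField.adjoin P {Z}) = A :=
        Subtype.ext (by rw [hval', ← h2])
      rw [← h4]
      rfl
    have ha0 : (a : Ω) ≠ 0 := fun h0 => ha (Subtype.ext h0)
    have h5 : σ.emb a ≠ 0 := fun h0 => ha ((map_eq_zero_iff σ.emb σ.emb.injective).1 h0)
    rw [h3, hsum] at h5 ⊢
    have h6 := (hge (v (a : Ω)) F).2 (by rw [← h2]; exact RVal.ge_self _)
    have h7 := (hge (v (∑ j ∈ Finset.range N, (F j : Ω) * (ζ' * Z) ^ j)) F).1 (RVal.ge_self _)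
    rw [← h2] at h7
    exact le_antisymm (h7 ha0) (h6 h5)
  obtain ⟨sg, h1, h2⟩ := hiso.exists_total hk hw hval
  refine ⟨sg, h1, fun a ha => ?_, ?_⟩
  · have h3 : a ∈ σ.carrier := (hmemσ a).2 ((mem_adj_self _ _).2 ha)
    rw [h2 ⟨a, h3⟩]
    exact hP ⟨a, ha⟩
  · have h3 : Z ∈ σ.carrier := (hmemσ Z).2 (mem_adj_self _ _).1
    rw [h2 ⟨Z, h3⟩]
    exact hψ

end Pool.Agent.TWC
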