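import Pool.Agent.Lib.TWF.CovP
import Pool.Agent.Lib.TWF.AltE
import Pool.Agent.Lib.TWF.LevT
import Pool.Agent.Lib.TWTR.VgWX
import Pool.Agent.Lib.TWTR.CellA
import Pool.Agent.Lib.TWTR.CloT
import Pool.Agent.Lib.TWJ2.NearH
import Pool.Agent.Lib.TWJ2.NearJ

/-!
# TANK W, row T8: from the distances of the letters to the alternative (T)

`C` closed, `W = WX v C x` with `p`-divisible values, `Clo p v W C`. There are letters `t` of `W` with
a small defect and elements `T 0` of `C`, near to `t m`, which are tight in `C` (`TWTR.ff_clo_tgt`, the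
near copy `NCp.tgt`); the field `WX v C (T 0)` has the defect of `t`, up to the factor `p ^ m`
(`lev_WX`), and `C` is generated over it by one element (`TWTR.exists_genW`): the alternative `AltT`.

* `exists_genW_any`: `TWTR.exists_genW`, for any complete `Ω`;
* `FInf.altT_of_clo`, **`rowTgtW`**.
-/

set_option autoImplicit false

open Polynomial

namespace Pool.Agent.TWF

open Pool.Agent.H15JM (RVal)
open Pool.Agent.LU1 (VPos adj)
open Pool.Agent.D2 (Ctx0)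
open Pool.Agent.D2P (hen clI mem_clI mem_adj_self rootF mem_rootF)
open Pool.Agent.TWM
open Pool.Agent.TWS (VG IsoE)
open Pool.Agent.TWC (EW Tgt Dst GenW)
open Pool.Agent.TWTR (Prec)
open Pool.Agent.TWJ2 (NCp exists_ncopy)

universe u

variable {k Ω : Type u} [Field k] [Field Ω] [Algebra k Ω] {v : RVal Ω}
  {C W : IntermediateField k Ω} {x y : Ω} {s c₀ : ℝ} {p : ℕ} [hp : Fact p.Prime] [CharP Ω p]
  [CharP k p] [IsAlgClosed k] [IsAlgClosed Ω]

omit [CharP Ω p] in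
/-- **A generator over the closure of `WX (T n, n ≥ 0)`**, for any complete `Ω`. -/
theorem exists_genW_any (h0 : Ctx0 k v) (hc : CompleteV v) (hF : FF p v C x y c₀) {T : ℕ → Ω}
    {r : ℝ} (hT : Tgt p v C T r) (hT0 : T 0 ≠ 0) (hvT : v (T 0) ≠ 0)
    (hdiv : ∀ g ∈ VG v C, g / p ∈ VG v C) (hV : ∀ g ∈ VG v C, g ∈ VG v (WX v C (T 0))) :
    ∃ (t : Ω) (s' : ℝ), GenW v C (WX v C (T 0)) T t s' := by
  obtain ⟨φ, hφ⟩ := TWS.exists_emb (k := k) h0
  have hI : IsoE v (TWS.hv k) φ := ⟨hφ⟩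
  have hcp : CharP (TWS.HF k) p :=
    charP_of_injective_algebraMap (algebraMap k (TWS.HF k)).injective p
  have hW : WX (TWS.hv k) (C.map φ) (φ (T 0)) = (WX v C (T 0)).map φ := TWJ2.wx_map hI hc C (T 0)
  have h1 : φ (T 0) ≠ 0 := IsoE.ne_zero hT0
  obtain ⟨t, s', ht, hG⟩ := TWTR.exists_genW (TWS.ctx0_hv k) (TWS.completeV_hv k)
    (TWS.exists_val k) (TWJ2.ff_map hI hc hF) (TWC.tgt_map hI hc hT) h1
    (by rw [hI.val _ hT0]; exact hvT) (by rw [TWC.vg_map hI]; exact hdiv)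
    (by rw [hW, TWC.vg_map hI, TWC.vg_map hI]; exact hV)
  have h2 : EW (TWS.hv k) (C.map φ) (fun n => φ (T n)) = (EW v C T).map φ := hI.ew_map hc C T
  have h3 : EW (TWS.hv k) (WX (TWS.hv k) (C.map φ) (φ (T 0))) (fun n => φ (T n)) =
      (EW v (WX v C (T 0)) T).map φ := by
    rw [hW]
    exact hI.ew_map hc _ T
  rw [h2] at ht
  obtain ⟨t₀, ht₀, rfl⟩ := ht
  refine ⟨t₀, s', ?_, ?_⟩
  · have h4 := hG.tl
    rw [h3] at h4
    exact hI.tl_iff.1 h4
  · have h4 := hG.eq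
    rw [h3, h2] at h4
    refine TWM.Dense.map_inj (ι := φ) ?_
    rw [h4]
    exact hI.cadj_map hc _ t₀

/-- **Row T8**: the alternative (T), from the distances of the letters. -/
theorem FInf.altT_of_clo (h0 : Ctx0 k v) (hc : CompleteV v) (h : FInf p v C x y s c₀)
    (hd : ∀ g ∈ VG v (WX v C x), g / p ∈ VG v (WX v C x)) (hclo : Clo p v (WX v C x) C) :
    AltT p v C := by
  have hp1 : (0 : ℝ) < p := by exact_mod_cast hp.out.pos
  have hC := h.toFF.cld
  have hWC : WX v C x ≤ C := WX_le hC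
  obtain ⟨M, μ, m, hM, hμ, -, hP, hlet⟩ := TWTR.ff_clo_tgt h0 hc h.toFF hclo
  have hpm : (0 : ℝ) < (p : ℝ) ^ m := pow_pos hp1 m
  -- the near copy of the roots of `W`
  obtain ⟨W', ι, Φ, hW'C, hW', hN⟩ := exists_ncopy h0 hc h (e := M + μ) (by linarith) hP
    (γ := (M + 3 * μ / 4) / p ^ m) (div_lt_div_of_pos_right (by linarith) hpm)
  -- the letter
  obtain ⟨t, ν, hLt, hνδ, hν1, ⟨htA, htv⟩, hdst, -⟩ := hlet (min (μ / 4) (M / 4))
    (lt_min (by linarith) (by linarith))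
  have hν2 : ν ≤ M / 4 := hνδ.trans (min_le_right _ _)
  have hcp : CharP (TWS.HF k) p :=
    charP_of_injective_algebraMap (algebraMap k (TWS.HF k)).injective p
  obtain ⟨T, hTι, -, hT, hnear, -, -⟩ := hN.tgt hC hW'C hLt (e := M) (μ := μ / 2)
    (by linarith) (div_le_div_of_nonneg_right (by linarith) hpm.le) hdst
  have htm : t m ^ p ^ m = t 0 := by
    have := hLt.tpow 0 m
    rwa [zero_add] at this
  have htm0 : t m ≠ 0 := hLt.tne m
  have hvtm : v (t m) = v (t 0) / p ^ m := hLt.val m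
  have hvtm0 : v (t m) ≠ 0 := by
    rw [hvtm]
    exact div_ne_zero htv hpm.ne'
  have hι0 : ι (T 0) = Φ (t m) := hTι 0
  have hT0 : T 0 ≠ 0 := fun h1 => by
    rw [h1, map_zero] at hι0
    exact IsoE.ne_zero (ι := Φ) htm0 hι0.symm
  have hvT : v (T 0) = v (t m) := by
    rw [← hN.ia.val _ hT0, hι0, hN.ib.val _ htm0]
  have hvT0 : v (T 0) ≠ 0 := by rwa [hvT]
  have hroot : t m ∈ rootF p m (algIn C (adj (⊥ : IntermediateField k Ω) x)) :=
    mem_rootF.2 (by rw [htm]; exact htA)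
  have hdiv' : ∀ g ∈ VG v (WX v C (T 0)), g / p ∈ VG v (WX v C (T 0)) :=
    hN.wx_div h0 hW'C hroot htm0 hvtm0 hι0 hd
  obtain ⟨ρ, hρ⟩ : ∃ ρ, ρ = (v (t 0) + ν + M) / (p : ℝ) ^ m := ⟨_, rfl⟩
  rw [← hρ] at hT
  have hρ' : ρ = v (T 0) + ν / p ^ m + M / p ^ m := by
    rw [hρ, add_div, add_div, hvT, hvtm]
  -- the defect of `T 1`
  have htC : t 0 ∈ C := (mem_algIn.1 htA).1
  have hreg : ∀ f ∈ C, IsAlgebraic (adj (⊥ : IntermediateField k Ω) (t 0)) f → f ∈ WX v C x := by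
    intro f hf hfa
    refine algIn_le_WX (mem_algIn.2 ⟨hf, ?_⟩)
    refine TWM.isAlgebraic_of_algc (D2P.isAlgebraic_mono ?_ hfa)
    exact D2P.adj_le bot_le (mem_algc.2 (mem_algIn.1 htA).2)
  have hq : ¬ Nr' v (WX v C (T 0)) ((v (T 0) + ν / p ^ m) / p) (T 1) := by
    refine lev_WX h0 hc hT hT0 hvT0 hLt.root htC (μ := μ / 2 / p ^ m) (by positivity) ?_ hLt.nonneg
      (div_lt_div_of_pos_right (by linarith) hpm) hreg hLt.dst.far
    have h1 := hnear 0
    rw [add_zero] at h1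
    refine h1.mono (le_of_eq ?_)
    rw [hρ, ← add_div]
  have hs : 3 * (v (T 0) + ν / p ^ m - v (T 0)) < ρ - (v (T 0) + ν / p ^ m) := by
    have e1 : 3 * (v (T 0) + ν / p ^ m - v (T 0)) = 3 * ν / p ^ m := by ring
    have e2 : ρ - (v (T 0) + ν / p ^ m) = M / p ^ m := by
      rw [hρ']
      ring
    rw [e1, e2]
    exact div_lt_div_of_pos_right (by linarith) hpm
  have hV := TWTR.vg_wx h0 h hC hT.mem hT0 hvT0 hdiv'
  obtain ⟨z, s', hG⟩ := exists_genW_any h0 hc h.toFF hT hT0 hvT0 h.div hV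
  exact altT_of_genW h0 hc hT hT0 hvT0 hq hs hdiv' hG

/-- **Row T8, the values of `W` are `p`-divisible.** -/
theorem rowTgtW {p : ℕ} [Fact p.Prime] {k : Type u} [Field k] [IsAlgClosed k] [CharP k p] :
    RowTgtW p k := by
  intro Ω _ _ _ _ v hctx hc C₁ C x y s c₀ _ hF hd hC
  exact Or.inr (Or.inl (hF.altT_of_clo hctx.toCtx0 hc hd hC))

end Pool.Agent.TWF
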