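import Pool.Agent.Lib.TWF.TopJ
import Pool.Agent.Lib.TWF.LeafRA
import Pool.Agent.Lib.TWF.RowA
import Pool.Agent.Lib.TWF.CovP

/-!
# TANK W, `n = 4`: the skeleton, with the rows of the infinite first floor

* `infLeaf_of_rows`: `InfLeaf` from the rows of the cover and the leaves `AltZ`, `AltH`, `AltC`;
* `mobQ0_of_rows`: the step from transcendence degree four, from the same data and `TameLeaf`.
-/

set_option autoImplicit false

namespace Pool.Agent.TWF

open Pool.Agent.H15JM (RVal)
open Pool.Agent.TW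

universe u

/-- **The infinite first floor, from the rows.** -/
theorem infLeaf_of_rows (p : ℕ) [Fact p.Prime] (k : Type u) [Field k] [IsAlgClosed k] [CharP k p]
    (hTri : RowTri p k) (hIrr : RowIrr p k) (hW : RowTgtW p k) (hTame : RowTame p k)
    (hZ : LeafD p k (OnB p fun _ _ _ v C => AltZ p v C))
    (hH : LeafD p k (OnB p fun _ _ _ v C => AltH p v C))
    (hC : LeafD p k (OnB p fun _ _ _ v C => AltC p v C)) : InfLeaf p k :=
  infLeaf_of_cover (infCover_of_rows hTri hIrr (rowTgt_of hW hTame) (rowAlt p k)) leafD_altR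
    hZ hH hC

/-- **The step from transcendence degree four, from the rows.** -/
theorem mobQ0_of_rows (p : ℕ) [Fact p.Prime] (k : Type u) [Field k] [IsAlgClosed k] [CharP k p]
    {Ω : Type u} [Field Ω] [Algebra k Ω] [IsAlgClosed Ω] [CharP Ω p] (v : RVal Ω) (h : Ctx k v 1)
    (hTri : RowTri p k) (hIrr : RowIrr p k) (hW : RowTgtW p k) (hTame : RowTame p k)
    (hZ : LeafD p k (OnB p fun _ _ _ v C => AltZ p v C))
    (hH : LeafD p k (OnB p fun _ _ _ v C => AltH p v C))
    (hC : LeafD p k (OnB p fun _ _ _ v C => AltC p v C)) (hT : TameLeaf p k) :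
    MobQ0 p v k 1 4 :=
  mobQ0_fourJ p k v h (infLeaf_of_rows p k hTri hIrr hW hTame hZ hH hC) hT

end Pool.Agent.TWF
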