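import Pool.Agent.Lib.TWF.Top5
import Pool.Agent.Lib.TWF.CovTri
import Pool.Agent.Lib.TWF.CovIrr
import Pool.Agent.Lib.TWF.TgtW
import Pool.Agent.Lib.TWF.LeafC
import Pool.Agent.Lib.TWIV.TameZ
import Pool.Agent.Lib.TWRZ.TopZ

/-!
# TANK W, `n = 4`: the skeleton, with the closed rows plugged in

* `mobQ0_of_open`: the step from transcendence degree four, from the row `RowTame`, the leaf `AltH`
  and the contact rows `RowsA`, `RowsB`.
-/

set_option autoImplicit false

namespace Pool.Agent.TWF

open Pool.Agent.H15JM (RVal)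
open Pool.Agent.TW

universe u

/-- **The step from transcendence degree four, from the open rows.** -/
theorem mobQ0_of_open (p : ℕ) [Fact p.Prime] (k : Type u) [Field k] [IsAlgClosed k] [CharP k p]
    {Ω : Type u} [Field Ω] [Algebra k Ω] [IsAlgClosed Ω] [CharP Ω p] (v : RVal Ω) (h : Ctx k v 1)
    (hTame : RowTame p k)
    (hH : LeafD p k (OnB p fun _ _ _ v C => AltH p v C))
    (hA : RowsA p k) (hB : RowsB p k) : MobQ0 p v k 1 4 :=
  mobQ0_of_rows p k v h rowTri rowIrr rowTgtW hTame TWRZ.leafD_altZ hH (leafD_altC hA hB)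
    (TWIV.tameLeaf_all p k)

end Pool.Agent.TWF
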