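import Pool.Agent.Lib.TWF.Top6
import Pool.Agent.Lib.TWF.LeafCF
import Pool.Agent.Lib.TWF.RowTm
import Pool.Agent.Lib.TWF.RowsAll
import Pool.Agent.Lib.TWHT.AltHTop

/-!
# TANK W, `n = 4`: the skeleton, with the closed rows plugged in, II

* `mobQ0_of_rowsBF`: the step from transcendence degree four, from the contact row `RowsBF` (a second
  floor of finite shape, not parallel to the first one), the only open row.
-/

set_option autoImplicit false

namespace Pool.Agent.TWF

open Pool.Agent.H15JM (RVal)
open Pool.Agent.TW
open Pool.Agent.TWHT (leafD_altH_all)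

universe u

/-- **The step from transcendence degree four, from the open row.** -/
theorem mobQ0_of_rowsBF (p : ℕ) [Fact p.Prime] (k : Type u) [Field k] [IsAlgClosed k] [CharP k p]
    {Ω : Type u} [Field Ω] [Algebra k Ω] [IsAlgClosed Ω] [CharP Ω p] (v : RVal Ω) (h : Ctx k v 1)
    (hB : RowsBF p k) : MobQ0 p v k 1 4 :=
  mobQ0_of_open p k v h (rowTame p k) (leafD_altH_all p k) (rowsA p k)
    (rowsB_of_fin (rowsA p k) hB)

end Pool.Agent.TWF
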