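import Pool.Agent.Lib.TWF.TopJ

/-!
# TANK W, `n = 4`: the criterion for the value groups not divisible by `p`

* `critM_ndiv`: the criterion for the value groups which are not divisible by `p`, from `TameLeaf`.
-/

set_option autoImplicit false

namespace Pool.Agent.TWF

open Pool.Agent.TW
open Pool.Agent.TWS7 (PDiv)

universe u

/-- **The criterion, value groups not divisible by `p`.** -/
theorem critM_ndiv (p : ℕ) [Fact p.Prime] (k : Type u) [Field k] [IsAlgClosed k] [CharP k p]
    (hT : TameLeaf p k) : CritM p k fun _ _ _ _ v E => ¬ PDiv p v E := by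
  intro Ω _ _ _ _ v hc K₀ hK hΩ htr hBDK hH hL hlow hd g hgK hg hBD
  rcases cover p (rowJs p k) hc hK hΩ htr hBDK hH hg hBD with h1 | h1
  · exact Or.inl h1
  · exact hT Ω v hc K₀ hK hΩ htr hBDK hH hL hlow ⟨hd, h1⟩ g hgK hg hBD

end Pool.Agent.TWF
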