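import Pool.Agent.Lib.TWF.TamF
import Pool.Agent.Lib.TWC.PWg0

/-!
# TANK W, tame base: the fixed field `B = WT(X 0) ⊓ P` of the tame base

`P` closed and perfect, `Z` a system of roots of order `m` of the system `X`, `GD v P (Z 0) N`, the
values of `Γ` are the `j v(Z 0) + g`, `g ∈ VG P`. For `B = WT(X 0) ⊓ P`, `x n = Z n ^ (-N)`:

* `adj_inf_WT`: `B(Z 0) = WT(X 0)`;
* `gen_inf`: the `p`-th roots of the elements of `B` are in `B(x 1)`;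
* `not_vg_inf`: `v (x 0) / p` is not a value of `B`;
* `EW_WT_adj`: the closure of `WT(X 0)(X n, n ≥ 0)` is `E_B(Z 0)`, `E_B` the closure of
  `B(x n, n ≥ 0)`;
* `lt_inf`, `hl_inf`: `x` is a letter of `B`.
-/

set_option autoImplicit false

open Polynomial

namespace Pool.Agent.TWF.WTQ

open Pool.Agent.H15JM (RVal)
open Pool.Agent.LU1 (VPos adj)
open Pool.Agent.D2 (Ctx0)
open Pool.Agent.D2P (clI mem_clI mem_adj_self adj_le)
open Pool.Agent.TWM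
open Pool.Agent.TWS (VG)
open Pool.Agent.TWC
open Pool.Agent.TWC.PW (WT RS cld_WT mem_WT WT_le gen_WT not_vg_WT)

universe u

variable {k Ω : Type u} [Field k] [Field Ω] [Algebra k Ω] {v : RVal Ω} {Γ : AddSubgroup ℝ}
  {p : ℕ} {P : IntermediateField k Ω} {X Z : ℕ → Ω} {N m : ℕ} {a : Ω}

/-- `B = WT(X 0) ⊓ P` is closed. -/
theorem cld_B (hP : Cld v P) : Cld v (WT k p v Γ (X 0) ⊓ P) :=
  cld_inf_tgt (cld_WT (k := k) (v := v) (Γ := Γ) (p := p) (X 0)) hP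

theorem Z_ne (hX : X 0 ≠ 0) (hZ : RS p v Γ X m Z) : Z 0 ≠ 0 := by
  intro h
  have hm0 : m ≠ 0 := by
    rintro rfl
    exact hZ.nd (dvd_zero p)
  have h1 := hZ.pow 0
  rw [h, zero_pow hm0] at h1
  exact hX h1.symm

/-- The element `Z 0 ^ N` is in `B`. -/
theorem pw_mem_B (hG : GD v P (Z 0) N) (hZ : RS p v Γ X m Z) :
    Z 0 ^ N ∈ WT k p v Γ (X 0) ⊓ P :=
  ⟨pow_mem (mem_WT hZ.nd (hZ.pow 0) hZ.val) N, hG.pw⟩

/-- The element `Z 0 ^ (-N)` is in `B`. -/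
theorem x_mem_B (hG : GD v P (Z 0) N) (hZ : RS p v Γ X m Z) :
    Z 0 ^ (-(N : ℤ)) ∈ WT k p v Γ (X 0) ⊓ P := by
  rw [zpow_neg, zpow_natCast]
  exact inv_mem (pw_mem_B hG hZ)

section

variable [CharP k p] [IsAlgClosed k] [IsAlgClosed Ω]

/-- **`B(Z 0) = WT(X 0)`.** -/
theorem adj_inf_WT (h0 : Ctx0 k v) (hc : CompleteV v) (hp : p.Prime) (hG : GD v P (Z 0) N)
    (hX : X 0 ≠ 0) (hZ : RS p v Γ X m Z)
    (hgen : ∀ g ∈ Γ, ∃ j : ℤ, g - j * v (Z 0) ∈ VG v P) :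
    adj (WT k p v Γ (X 0) ⊓ P) (Z 0) = WT k p v Γ (X 0) := by
  have hZ0 : Z 0 ≠ 0 := hG.ne
  have hZW : Z 0 ∈ WT k p v Γ (X 0) := mem_WT hZ.nd (hZ.pow 0) hZ.val
  set B := WT k p v Γ (X 0) ⊓ P with hB
  refine le_antisymm (adj_le inf_le_left hZW) ?_
  have hpw : Z 0 ^ N ∈ B := pw_mem_B hG hZ
  have hBc : Cld v B := cld_B hG.cld
  refine WT_le (cld_adj hc hBc (alg_of_pw hG.pos hpw)) fun m' f hm' h1 h2 => ?_
  have hm0 : m' ≠ 0 := by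
    rintro rfl
    exact hm' (dvd_zero p)
  have hf0 : f ≠ 0 := by
    rintro rfl
    rw [zero_pow hm0] at h1
    exact hX h1.symm
  have hfW : f ∈ WT k p v Γ (X 0) := mem_WT hm' h1 h2
  obtain ⟨j, hj⟩ := hgen _ h2
  set f' := f * Z 0 ^ (-j) with hf'
  have hf'0 : f' ≠ 0 := mul_ne_zero hf0 (zpow_ne_zero _ hZ0)
  have hvf' : v f' = v f - j * v (Z 0) := by
    rw [hf', v.map_mul hf0 (zpow_ne_zero _ hZ0), v.map_zpow hZ0]
    push_cast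
    ring
  have hpow : f' ^ (m' * m) = Z 0 ^ ((m : ℤ) * (m - j * m')) := by
    have e1 : f ^ (m' * m) = Z 0 ^ ((m : ℤ) * m) := by
      rw [pow_mul, h1, ← hZ.pow 0, ← pow_mul, ← zpow_natCast]
      push_cast
      rfl
    have e2 : (Z 0 ^ (-j)) ^ (m' * m) = Z 0 ^ (-(j * (m' * m))) := by
      rw [← zpow_natCast, ← zpow_mul]
      push_cast
      congr 1
      ring
    rw [hf', mul_pow, e1, e2, ← zpow_add₀ hZ0]
    congr 1
    ring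
  have hv' : (((m : ℤ) * (m - j * m') : ℤ) : ℝ) * v (Z 0) ∈ VG v P := by
    have e1 : (((m : ℤ) * (m - j * m') : ℤ) : ℝ) * v (Z 0) = v (f' ^ (m' * m)) := by
      rw [hpow, v.map_zpow hZ0]
    rw [e1, v.map_pow hf'0, hvf', ← nsmul_eq_mul]
    exact (VG v P).nsmul_mem hj _
  obtain ⟨q, hq⟩ := hG.val _ hv'
  have hmm : ¬ p ∣ m' * m := by
    intro h3
    rcases hp.dvd_mul.1 h3 with h4 | h4
    · exact hm' h4
    · exact hZ.nd h4
  have hf'P : f' ∈ P := by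
    refine CPf.mem_of_root (p := p) h0 hG.cld (x := Z 0 ^ N) hG.pw hf'0 hmm (j := q) ?_ ?_
    · rw [hpow, hq, zpow_mul, zpow_natCast]
    · rw [hvf']
      exact hj
  have hf'B : f' ∈ B := ⟨mul_mem hfW (zpow_mem hZW _), hf'P⟩
  have e : f = f' * Z 0 ^ j := by
    rw [hf', mul_assoc, ← zpow_add₀ hZ0, neg_add_cancel, zpow_zero, mul_one]
  rw [e]
  exact mul_mem ((mem_adj_self _ _).2 hf'B) (zpow_mem (mem_adj_self _ _).1 _)

end

section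

variable [hp : Fact p.Prime] [CharP k p] [CharP Ω p] [IsAlgClosed k] [IsAlgClosed Ω]

omit [CharP k p] [CharP Ω p] [IsAlgClosed k] [IsAlgClosed Ω] in
/-- The frame of the roots. -/
theorem gd_root (hG : GD v P (Z 0) N) (hr : ∀ n, Z (n + 1) ^ p = Z n)
    (hpw : ∀ n, Z n ^ N ∈ P) (n : ℕ) : GD v P (Z n) N := by
  have hne : ∀ n, Z n ≠ 0 := by
    intro n
    induction n with
    | zero => exact hG.ne
    | succ n ih =>
      intro h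
      have h1 := hr n
      rw [h, zero_pow hp.out.ne_zero] at h1
      exact ih h1.symm
  refine ⟨hG.cld, hG.pos, hne n, hpw n, ?_⟩
  induction n with
  | zero => exact hG.val
  | succ n ih =>
    intro j hj
    refine ih j ?_
    have h1 : v (Z n) = p * v (Z (n + 1)) := by rw [← hr n, v.map_pow (hne _)]
    have h2 : (j : ℝ) * v (Z n) = p • ((j : ℝ) * v (Z (n + 1))) := by
      rw [h1, nsmul_eq_mul]
      ring
    rw [h2]
    exact (VG v P).nsmul_mem hj p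

/-- **The `p`-th roots of the elements of `B` are in `B(x 1)`.** -/
theorem gen_inf (h0 : Ctx0 k v) (hc : CompleteV v) (hG : GD v P (Z 0) N)
    (hP : ∀ a ∈ P, ∃ b ∈ P, b ^ p = a) (hr : ∀ n, X (n + 1) ^ p = X n) (hX : X 0 ≠ 0)
    (hΓ : v (X 0) ∈ Γ) (hdiv : ∀ g ∈ Γ, g / p ∈ Γ) (hZ : RS p v Γ X m Z)
    (hgen : ∀ g ∈ Γ, ∃ j : ℤ, g - j * v (Z 0) ∈ VG v P) (ha : a ∈ WT k p v Γ (X 0) ⊓ P) :
    ∃ Q ∈ PI (WT k p v Γ (X 0) ⊓ P), (Q.eval (Z 1 ^ (-(N : ℤ)))) ^ p = a := by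
  set W := WT k p v Γ (X 0) with hW
  set B := W ⊓ P with hB
  have hpw := pw_root hP hZ.root hG.pw
  have hG1 : GD v P (Z 1) N := gd_root hG hZ.root hpw 1
  set x1 := Z 1 ^ (-(N : ℤ)) with hx1
  have hx1P : x1 ∈ P := zpw_root hP hZ.root hG.pw 1
  have hx1p : x1 ^ p ∈ B := by
    have e : x1 ^ p = Z 0 ^ (-(N : ℤ)) := by
      rw [hx1, ← zpow_natCast, ← zpow_mul, mul_comm, zpow_mul, zpow_natCast, hZ.root 0]
    rw [e]
    exact x_mem_B hG hZ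
  obtain ⟨Q, hQ, hQa⟩ := gen_WT hc hr hX hΓ hdiv ha.1
  have hX1 : X 1 ^ p ∈ W := by
    rw [hr 0]
    exact mem_WT (m := 1) (by
      intro h
      exact hp.out.one_lt.ne' (Nat.dvd_one.1 h)) (pow_one _) hΓ
  have hbW : Q.eval (X 1) ∈ adj W (X 1) := by
    rw [eval_eq_sum_range]
    exact sum_mem fun i _ => mul_mem ((mem_adj_self _ _).2 (hQ i))
      (pow_mem (mem_adj_self _ _).1 i)
  have hbP : Q.eval (X 1) ∈ P := by
    obtain ⟨b, hb, h1⟩ := hP _ ha.2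
    have h2 : Q.eval (X 1) = b := frobenius_inj Ω p (by
      simp only [frobenius_def]
      rw [hQa, h1])
    rw [h2]
    exact hb
  have hx1' : x1 ∈ adj B x1 := (mem_adj_self _ _).1
  have hZN : Z 1 ^ N ∈ adj B x1 := by
    have h1 := inv_mem hx1'
    have e : x1⁻¹ = Z 1 ^ N := by rw [hx1, zpow_neg, inv_inv, zpow_natCast]
    rwa [e] at h1
  have hBP : adj B x1 ≤ P := adj_le inf_le_right hx1P
  have hle : adj W (X 1) ≤ adj (adj B x1) (Z 1) := by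
    have h1 : Z 1 ∈ adj (adj B x1) (Z 1) := (mem_adj_self _ _).1
    have h2 : B ≤ adj (adj B x1) (Z 1) := fun b hb =>
      (mem_adj_self _ _).2 ((mem_adj_self _ _).2 hb)
    refine adj_le ?_ ?_
    · refine (adj_inf_WT h0 hc hp.out hG hX hZ hgen).symm.le.trans (adj_le h2 ?_)
      rw [← hZ.root 0]
      exact pow_mem h1 p
    · rw [← hZ.pow 1]
      exact pow_mem h1 m
  have h3 : Q.eval (X 1) ∈ adj B x1 := hG1.inf hBP hZN (hle hbW) hbP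
  obtain ⟨R, hR, -, hR1⟩ := C.exists_rep p hx1p h3
  exact ⟨R, hR, by rw [hR1, hQa]⟩

/-- **`v (x 0) / p` is not a value of `B`.** -/
theorem not_vg_inf (h0 : Ctx0 k v) (hN : ¬ p ∣ N) (hr : ∀ n, X (n + 1) ^ p = X n) (hX : X 0 ≠ 0)
    (hneg : v (X 0) < 0) (hΓ : v (X 0) ∈ Γ) (hZ : RS p v Γ X m Z) :
    v (Z 0 ^ (-(N : ℤ))) / p ∉ VG v (WT k p v Γ (X 0) ⊓ P) := by
  intro h
  have hZ0 : Z 0 ≠ 0 := Z_ne hX hZ
  have hp0 : (p : ℝ) ≠ 0 := by exact_mod_cast hp.out.ne_zero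
  set W := WT k p v Γ (X 0) with hW
  have h1 : v (Z 0 ^ (-(N : ℤ))) / p ∈ VG v W := VG.mono inf_le_left h
  have hXW : X 0 ∈ W := mem_WT (m := 1) (by
      intro h
      exact hp.out.one_lt.ne' (Nat.dvd_one.1 h)) (pow_one _) hΓ
  have h2 : v (X 0) ∈ VG v W := VG.self (v := v) hXW hX
  have hm : v (X 0) = m * v (Z 0) := by rw [← hZ.pow 0, v.map_pow hZ0]
  have h3 : ((N : ℝ) * v (X 0)) / p ∈ VG v W := by
    have e : ((N : ℝ) * v (X 0)) / p = ((-(m : ℤ) : ℤ) : ℝ) * (v (Z 0 ^ (-(N : ℤ))) / p) := by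
      rw [hm, v.map_zpow hZ0]
      push_cast
      ring
    rw [e, ← zsmul_eq_mul]
    exact (VG v W).zsmul_mem h1 _
  have hcop : IsCoprime (N : ℤ) (p : ℕ) := by
    rw [Nat.isCoprime_iff_coprime]
    exact ((Nat.Prime.coprime_iff_not_dvd hp.out).2 hN).symm
  obtain ⟨s, t, hst⟩ := hcop
  refine not_vg_WT h0 hr hX hneg hΓ ?_
  have hst' : (s : ℝ) * N + t * p = 1 := by exact_mod_cast hst
  have e : v (X 0) / p = (s : ℝ) * ((N * v (X 0)) / p) + t * v (X 0) := by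
    field_simp
    linear_combination (-v (X 0)) * hst'
  rw [e, ← zsmul_eq_mul, ← zsmul_eq_mul]
  exact add_mem ((VG v W).zsmul_mem h3 _) ((VG v W).zsmul_mem h2 _)

omit [CharP Ω p] in
/-- The closure of `WT(X 0)(X n, n ≥ 0)` is the closure of `B(Z n, n ≥ 0)`. -/
theorem EW_WT_eq (h0 : Ctx0 k v) (hc : CompleteV v) (hG : GD v P (Z 0) N)
    (hX : X 0 ≠ 0) (hZ : RS p v Γ X m Z)
    (hgen : ∀ g ∈ Γ, ∃ j : ℤ, g - j * v (Z 0) ∈ VG v P) :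
    EW v (WT k p v Γ (X 0)) X = EW v (WT k p v Γ (X 0) ⊓ P) Z := by
  set W := WT k p v Γ (X 0) with hW
  have hZW : Z 0 ∈ W := mem_WT hZ.nd (hZ.pow 0) hZ.val
  have hZn : ∀ n, Z n ^ p ^ n = Z 0 := by
    intro n
    induction n with
    | zero => rw [pow_zero, pow_one]
    | succ n ih => rw [pow_succ', pow_mul, hZ.root n, ih]
  refine le_antisymm (clI_le' (sup_le ?_ (IntermediateField.adjoin_le_iff.2 ?_)) EW.cld)
    (clI_le' (sup_le (inf_le_left.trans EW.le) (IntermediateField.adjoin_le_iff.2 ?_)) EW.cld)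
  · exact (adj_inf_WT h0 hc hp.out hG hX hZ hgen).symm.le.trans (adj_le EW.le (EW.mem 0))
  · rintro _ ⟨n, rfl⟩
    rw [← hZ.pow n]
    exact pow_mem (EW.mem n) m
  · rintro _ ⟨n, rfl⟩
    have hne : Z n ≠ 0 := by
      intro h
      have h1 := hZn n
      rw [h, zero_pow (pow_ne_zero _ hp.out.ne_zero)] at h1
      exact hG.ne h1.symm
    have h1 : Z n ^ m ∈ EW v W X := by
      rw [hZ.pow n]
      exact EW.mem n
    have h2 : Z n ^ p ^ n ∈ EW v W X := by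
      rw [hZn n]
      exact EW.le hZW
    have hcop : IsCoprime (m : ℤ) ((p ^ n : ℕ) : ℤ) := by
      rw [Nat.isCoprime_iff_coprime]
      exact Nat.Coprime.pow_right _ ((Nat.Prime.coprime_iff_not_dvd hp.out).2 hZ.nd).symm
    obtain ⟨s, t, hst⟩ := hcop
    have e : Z n = (Z n ^ m) ^ s * (Z n ^ p ^ n) ^ t := by
      rw [← zpow_natCast, ← zpow_natCast, ← zpow_mul, ← zpow_mul, ← zpow_add₀ hne,
        mul_comm (m : ℤ) s, mul_comm ((p ^ n : ℕ) : ℤ) t, hst, zpow_one]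
    rw [SetLike.mem_coe, e]
    exact mul_mem (zpow_mem h1 s) (zpow_mem h2 t)

/-- **`E_X = E_B(Z 0)`.** -/
theorem EW_WT_adj (h0 : Ctx0 k v) (hc : CompleteV v) (hG : GD v P (Z 0) N) (hN : ¬ p ∣ N)
    (hX : X 0 ≠ 0) (hZ : RS p v Γ X m Z)
    (hgen : ∀ g ∈ Γ, ∃ j : ℤ, g - j * v (Z 0) ∈ VG v P) :
    EW v (WT k p v Γ (X 0)) X =
      adj (EW v (WT k p v Γ (X 0) ⊓ P) fun n => Z n ^ (-(N : ℤ))) (Z 0) := by
  rw [EW_WT_eq h0 hc hG hX hZ hgen]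
  exact EW_adj_pw hc hZ.root hG.ne hG.pos hN _

omit [CharP k p] [IsAlgClosed k] [IsAlgClosed Ω] in
/-- The closure of `B(x n, n ≥ 0)` is in `P`. -/
theorem EW_B_le (hG : GD v P (Z 0) N) (hP : ∀ a ∈ P, ∃ b ∈ P, b ^ p = a)
    (hZ : RS p v Γ X m Z) :
    EW v (WT k p v Γ (X 0) ⊓ P) (fun n => Z n ^ (-(N : ℤ))) ≤ P :=
  clI_le' (sup_le inf_le_right (IntermediateField.adjoin_le_iff.2 (by
    rintro _ ⟨n, rfl⟩
    exact zpw_root hP hZ.root hG.pw n))) hG.cld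

omit [CharP k p] [CharP Ω p] [IsAlgClosed k] [IsAlgClosed Ω] hp in
theorem x_root (hZ : RS p v Γ X m Z) (n : ℕ) :
    (fun n => Z n ^ (-(N : ℤ))) (n + 1) ^ p = (fun n => Z n ^ (-(N : ℤ))) n := by
  show (Z (n + 1) ^ (-(N : ℤ))) ^ p = Z n ^ (-(N : ℤ))
  rw [← zpow_natCast, ← zpow_mul, mul_comm, zpow_mul, zpow_natCast, hZ.root n]

/-- **`x` is a letter of `B`.** -/
theorem lt_inf (h0 : Ctx0 k v) (hc : CompleteV v) (hG : GD v P (Z 0) N) (hN : ¬ p ∣ N)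
    (hP : ∀ a ∈ P, ∃ b ∈ P, b ^ p = a) (hr : ∀ n, X (n + 1) ^ p = X n) (hX : X 0 ≠ 0)
    (hneg : v (X 0) < 0) (hΓ : v (X 0) ∈ Γ) (hdiv : ∀ g ∈ Γ, g / p ∈ Γ) (hZ : RS p v Γ X m Z)
    (hgen : ∀ g ∈ Γ, ∃ j : ℤ, g - j * v (Z 0) ∈ VG v P) :
    TWTR.Lt p v (WT k p v Γ (X 0) ⊓ P) (fun n => Z n ^ (-(N : ℤ))) 0 :=
  TWTR.lt_tame (cld_B hG.cld) (x_root hZ) (x_mem_B hG hZ) (zpow_ne_zero _ hG.ne)
    (fun _ ha => gen_inf h0 hc hG hP hr hX hΓ hdiv hZ hgen ha)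
    (not_vg_inf h0 hN hr hX hneg hΓ hZ)

theorem hl_inf (h0 : Ctx0 k v) (hc : CompleteV v) (hG : GD v P (Z 0) N) (hN : ¬ p ∣ N)
    (hP : ∀ a ∈ P, ∃ b ∈ P, b ^ p = a) (hr : ∀ n, X (n + 1) ^ p = X n) (hX : X 0 ≠ 0)
    (hneg : v (X 0) < 0) (hΓ : v (X 0) ∈ Γ) (hdiv : ∀ g ∈ Γ, g / p ∈ Γ) (hZ : RS p v Γ X m Z)
    (hgen : ∀ g ∈ Γ, ∃ j : ℤ, g - j * v (Z 0) ∈ VG v P) :
    TWTR.HL p v (WT k p v Γ (X 0) ⊓ P) :=
  TWTR.hl_tame (X := fun n => Z n ^ (-(N : ℤ))) (cld_B hG.cld) (x_root hZ) (x_mem_B hG hZ)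
    (zpow_ne_zero _ hG.ne)
    (fun _ ha => gen_inf h0 hc hG hP hr hX hΓ hdiv hZ hgen ha)
    (not_vg_inf h0 hN hr hX hneg hΓ hZ)

end

end Pool.Agent.TWF.WTQ
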